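import Pool.Agent.LSharp.BRDefs

set_option autoImplicit false

/-! BR4b. Bounds for the coefficients of an algebraic power series: the archimedean estimate. -/

namespace Pool.Agent.LSharp

open MvPowerSeries Pool.Agent.LAll NumberField

section Aux

/-- The weight `1 / (1 + u)^2`. -/
private noncomputable def BRArch_g (u : ℕ) : ℝ := ((1 + (u : ℝ)) ^ 2)⁻¹

private theorem BRArch_g_pos (u : ℕ) : 0 < BRArch_g u := by
  unfold BRArch_g
  positivity

private theorem BRArch_g_le_one (u : ℕ) : BRArch_g u ≤ 1 := by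
  unfold BRArch_g
  refine inv_le_one_of_one_le₀ ?_
  have : (0 : ℝ) ≤ u := Nat.cast_nonneg u
  nlinarith

private theorem BRArch_sum_g (n : ℕ) :
    ∑ u ∈ Finset.range (n + 1), BRArch_g u ≤ 2 - 1 / ((n : ℝ) + 1) := by
  induction n with
  | zero => simp [BRArch_g]; norm_num
  | succ n ih =>
    rw [Finset.sum_range_succ]
    have h1 : BRArch_g (n + 1) ≤ 1 / ((n : ℝ) + 1) - 1 / ((n : ℝ) + 1 + 1) := by
      unfold BRArch_g
      have h0 : (0 : ℝ) ≤ n := Nat.cast_nonneg n
      push_cast
      rw [div_sub_div _ _ (by positivity) (by positivity), inv_eq_one_div,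
        div_le_div_iff₀ (by positivity) (by positivity)]
      nlinarith
    push_cast
    linarith

private theorem BRArch_conv1 (n : ℕ) :
    ∑ x ∈ Finset.HasAntidiagonal.antidiagonal n, BRArch_g x.1 * BRArch_g x.2 ≤ 16 * BRArch_g n := by
  have h1 : ∀ x ∈ Finset.HasAntidiagonal.antidiagonal n, BRArch_g x.1 * BRArch_g x.2 ≤
      4 * BRArch_g n * BRArch_g x.1 + 4 * BRArch_g n * BRArch_g x.2 := by
    intro x hx
    rw [Finset.HasAntidiagonal.mem_antidiagonal] at hx
    have hp1 := BRArch_g_pos x.1
    have hp2 := BRArch_g_pos x.2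
    have hpn := BRArch_g_pos n
    have key : ∀ u : ℕ, n ≤ 2 * u + 1 → BRArch_g u ≤ 4 * BRArch_g n := by
      intro u hu
      unfold BRArch_g
      rw [inv_eq_one_div, inv_eq_one_div, mul_one_div, div_le_div_iff₀ (by positivity)
        (by positivity)]
      have hu' : (n : ℝ) ≤ 2 * u + 1 := by exact_mod_cast hu
      have hn0 : (0 : ℝ) ≤ n := Nat.cast_nonneg n
      nlinarith
    rcases le_total x.1 x.2 with h | h
    · have h2 := key x.2 (by omega)
      have h3 := mul_le_mul_of_nonneg_left h2 hp1.le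
      nlinarith [mul_pos hpn hp2]
    · have h2 := key x.1 (by omega)
      have h3 := mul_le_mul_of_nonneg_right h2 hp2.le
      nlinarith [mul_pos hpn hp1]
  refine (Finset.sum_le_sum h1).trans ?_
  rw [Finset.sum_add_distrib, ← Finset.mul_sum, ← Finset.mul_sum]
  have h2 : ∑ x ∈ Finset.HasAntidiagonal.antidiagonal n, BRArch_g x.1 ≤ 2 := by
    rw [Finset.Nat.sum_antidiagonal_eq_sum_range_succ (fun a _ => BRArch_g a)]
    refine (BRArch_sum_g n).trans ?_
    have : (0 : ℝ) ≤ 1 / ((n : ℝ) + 1) := by positivity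
    linarith
  have h3 : ∑ x ∈ Finset.HasAntidiagonal.antidiagonal n, BRArch_g x.2 ≤ 2 := by
    rw [← Finset.Nat.sum_antidiagonal_swap]
    exact h2
  have hpn := BRArch_g_pos n
  nlinarith

variable {β : Type} [Fintype β]

/-- The weight of an exponent. -/
private noncomputable def BRArch_A (i : β →₀ ℕ) : ℝ := ∏ b, BRArch_g (i b)

private theorem BRArch_A_pos (i : β →₀ ℕ) : 0 < BRArch_A i :=
  Finset.prod_pos fun b _ => BRArch_g_pos (i b)

private theorem BRArch_A_le_one (i : β →₀ ℕ) : BRArch_A i ≤ 1 :=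
  Finset.prod_le_one (fun b _ => (BRArch_g_pos (i b)).le) fun b _ => BRArch_g_le_one (i b)

private theorem BRArch_conv [DecidableEq β] (m : β →₀ ℕ) :
    ∑ x ∈ Finset.HasAntidiagonal.antidiagonal m, BRArch_A x.1 * BRArch_A x.2 ≤
      16 ^ Fintype.card β * BRArch_A m := by
  classical
  have h1 : ∑ x ∈ Finset.HasAntidiagonal.antidiagonal m, BRArch_A x.1 * BRArch_A x.2 ≤
      ∑ z ∈ Fintype.piFinset (fun b => Finset.HasAntidiagonal.antidiagonal (m b)),
        ∏ b, (BRArch_g (z b).1 * BRArch_g (z b).2) := by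
    have h2 : ∀ x ∈ Finset.HasAntidiagonal.antidiagonal m, BRArch_A x.1 * BRArch_A x.2 =
        (fun z : β → ℕ × ℕ => ∏ b, (BRArch_g (z b).1 * BRArch_g (z b).2))
          (fun b => (x.1 b, x.2 b)) := by
      intro x _
      simp only [BRArch_A, Finset.prod_mul_distrib]
    rw [Finset.sum_congr rfl h2]
    rw [← Finset.sum_image (s := Finset.HasAntidiagonal.antidiagonal m)
      (g := fun x : (β →₀ ℕ) × (β →₀ ℕ) => (fun b => (x.1 b, x.2 b) : β → ℕ × ℕ))
      (f := fun z : β → ℕ × ℕ => ∏ b, (BRArch_g (z b).1 * BRArch_g (z b).2))]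
    · refine Finset.sum_le_sum_of_subset_of_nonneg ?_ ?_
      · intro z hz
        obtain ⟨x, hx, rfl⟩ := Finset.mem_image.1 hz
        rw [Fintype.mem_piFinset]
        intro b
        rw [Finset.HasAntidiagonal.mem_antidiagonal] at hx ⊢
        rw [← hx]
        rfl
      · intro z _ _
        exact Finset.prod_nonneg fun b _ =>
          mul_nonneg (BRArch_g_pos _).le (BRArch_g_pos _).le
    · intro x _ x' _ he
      have he' : ∀ b, (x.1 b, x.2 b) = (x'.1 b, x'.2 b) := fun b => congrFun he b
      refine Prod.ext (Finsupp.ext fun b => ?_) (Finsupp.ext fun b => ?_)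
      · exact congrArg Prod.fst (he' b)
      · exact congrArg Prod.snd (he' b)
  refine h1.trans ?_
  rw [← Finset.prod_univ_sum (fun b => Finset.HasAntidiagonal.antidiagonal (m b))
    (fun _ z => BRArch_g z.1 * BRArch_g z.2)]
  have h3 : ∏ b, ∑ z ∈ Finset.HasAntidiagonal.antidiagonal (m b), BRArch_g z.1 * BRArch_g z.2 ≤
      ∏ b : β, 16 * BRArch_g (m b) :=
    Finset.prod_le_prod (fun b _ => Finset.sum_nonneg fun z _ =>
      mul_nonneg (BRArch_g_pos _).le (BRArch_g_pos _).le) fun b _ => BRArch_conv1 (m b)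
  refine h3.trans (le_of_eq ?_)
  rw [Finset.prod_mul_distrib, Finset.prod_const, Finset.card_univ]
  rfl

private theorem BRArch_shift {D : ℕ} {i a : β →₀ ℕ} (ha : a ≤ i) (hD : a.degree ≤ D) :
    BRArch_A (i - a) ≤ (1 + (D : ℝ)) ^ (2 * Fintype.card β) * BRArch_A i := by
  have h1 : ∀ b, BRArch_g ((i - a) b) ≤ (1 + (D : ℝ)) ^ 2 * BRArch_g (i b) := by
    intro b
    have hab : a b ≤ i b := ha b
    have haD : a b ≤ D := by
      refine le_trans ?_ hD
      rw [Finsupp.degree_eq_sum]
      exact Finset.single_le_sum (f := fun c => a c) (fun _ _ => Nat.zero_le _)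
        (Finset.mem_univ b)
    obtain ⟨u, hu⟩ := Nat.exists_eq_add_of_le hab
    have hsub : (i - a) b = u := by
      rw [Finsupp.tsub_apply, hu]
      omega
    rw [hsub, hu]
    unfold BRArch_g
    rw [inv_eq_one_div, inv_eq_one_div, mul_one_div, div_le_div_iff₀ (by positivity)
      (by positivity)]
    have haD' : (a b : ℝ) ≤ D := by exact_mod_cast haD
    have h0 : (0 : ℝ) ≤ u := Nat.cast_nonneg u
    have h0' : (0 : ℝ) ≤ a b := Nat.cast_nonneg _
    have h0D : (0 : ℝ) ≤ D := Nat.cast_nonneg D
    push_cast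
    rw [one_mul, ← mul_pow]
    refine pow_le_pow_left₀ (by positivity) ?_ 2
    nlinarith [mul_nonneg h0D h0]
  have h2 : BRArch_A (i - a) ≤ ∏ b : β, (1 + (D : ℝ)) ^ 2 * BRArch_g (i b) :=
    Finset.prod_le_prod (fun b _ => (BRArch_g_pos _).le) fun b _ => h1 b
  refine h2.trans (le_of_eq ?_)
  rw [Finset.prod_mul_distrib, Finset.prod_const, Finset.card_univ, ← pow_mul]
  rfl

private theorem BRArch_card {D : ℕ} (I : Finset ((β →₀ ℕ) × ℕ))
    (hI : ∀ x ∈ I, x.1.degree ≤ D ∧ x.2 ≤ D) : I.card ≤ (D + 1) ^ (Fintype.card β + 1) := by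
  classical
  have h1 : I.card ≤ ((Fintype.piFinset fun _ : β => Finset.range (D + 1)) ×ˢ
      Finset.range (D + 1)).card := by
    refine Finset.card_le_card_of_injOn (fun x => ((fun b => x.1 b), x.2)) ?_ ?_
    · intro x hx
      obtain ⟨hx1, hx2⟩ := hI x hx
      simp only [Finset.coe_product, Set.mem_prod, Finset.mem_coe, Fintype.mem_piFinset,
        Finset.mem_range]
      refine ⟨fun b => ?_, by omega⟩
      have h2 : x.1 b ≤ x.1.degree := by
        rw [Finsupp.degree_eq_sum]
        exact Finset.single_le_sum (f := fun c => x.1 c) (fun _ _ => Nat.zero_le _)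
          (Finset.mem_univ b)
      omega
    · intro x _ x' _ he
      have he1 := congrArg Prod.fst he
      have he2 := congrArg Prod.snd he
      exact Prod.ext (Finsupp.ext fun b => congrFun he1 b) he2
  refine h1.trans (le_of_eq ?_)
  rw [Finset.card_product, Fintype.card_piFinset, Finset.card_range, Finset.prod_const,
    Finset.card_univ, pow_succ]

variable {F : Type} [Field F]

omit [Fintype β] in
private theorem BRArch_ord {y : MvPowerSeries β F} (hy : constantCoeff y = 0) (b : ℕ)
    (i : β →₀ ℕ) (hi : i.degree < b) : coeff i (y ^ b) = 0 := by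
  refine coeff_of_lt_order ?_
  refine lt_of_lt_of_le ?_ (le_order_pow_of_constantCoeff_eq_zero b hy)
  exact_mod_cast hi

private theorem BRArch_sum (w : F → ℝ) (hwz : w 0 = 0)
    (hwa : ∀ y z, w (y + z) ≤ w y + w z) {ι : Type} (s : Finset ι) (f : ι → F) :
    w (∑ x ∈ s, f x) ≤ ∑ x ∈ s, w (f x) := by
  classical
  induction s using Finset.induction_on with
  | empty => simp [hwz]
  | insert a s ha ih =>
    rw [Finset.sum_insert ha, Finset.sum_insert ha]
    exact (hwa _ _).trans (by linarith)

private theorem BRArch_pow (w : F → ℝ) (hw0 : ∀ z, 0 ≤ w z) (hwz : w 0 = 0)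
    (hwm : ∀ y z, w (y * z) = w y * w z) (hwa : ∀ y z, w (y + z) ≤ w y + w z)
    {y : MvPowerSeries β F} (hy : constantCoeff y = 0) {n : ℕ} {Z q : ℝ} (hZ : 0 < Z)
    (H : ∀ j : β →₀ ℕ, j ≠ 0 → j.degree < n →
      w (coeff j y) ≤ BRArch_A j * (Real.exp (q * j.degree) * Z⁻¹)) (b : ℕ) :
    ∀ m : β →₀ ℕ, m.degree < n + b → w (coeff m (y ^ (b + 1))) ≤
      (16 ^ Fintype.card β) ^ b * (BRArch_A m * (Real.exp (q * m.degree) * Z⁻¹ ^ (b + 1))) := by
  classical
  induction b with
  | zero =>
    intro m hm
    rw [zero_add, pow_one, pow_zero, one_mul, pow_one]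
    by_cases h0 : m = 0
    · rw [h0]
      have h1 : coeff 0 y = 0 := by
        rw [← hy]
        exact coeff_zero_eq_constantCoeff_apply y
      rw [h1, hwz]
      have := BRArch_A_pos (0 : β →₀ ℕ)
      positivity
    · exact H m h0 hm
  | succ b ih =>
    intro m hm
    rw [pow_succ y (b + 1), coeff_mul]
    refine (BRArch_sum w hwz hwa _ _).trans ?_
    have h1 : ∀ x ∈ Finset.HasAntidiagonal.antidiagonal m, w (coeff x.1 (y ^ (b + 1)) * coeff x.2 y) ≤
        ((16 ^ Fintype.card β) ^ b * (Real.exp (q * m.degree) * Z⁻¹ ^ (b + 1 + 1))) *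
          (BRArch_A x.1 * BRArch_A x.2) := by
      intro x hx
      rw [Finset.HasAntidiagonal.mem_antidiagonal] at hx
      have hdeg : x.1.degree + x.2.degree = m.degree := by rw [← hx, map_add]
      have hA1 := BRArch_A_pos x.1
      have hA2 := BRArch_A_pos x.2
      have hpos : 0 ≤ ((16 ^ Fintype.card β) ^ b *
          (Real.exp (q * m.degree) * Z⁻¹ ^ (b + 1 + 1))) * (BRArch_A x.1 * BRArch_A x.2) := by
        positivity
      rw [hwm]
      by_cases hx2 : x.2 = 0
      · have h2 : coeff x.2 y = 0 := by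
          rw [hx2, ← hy]
          exact coeff_zero_eq_constantCoeff_apply y
        rw [h2, hwz, mul_zero]
        exact hpos
      · by_cases hx1 : x.1.degree < b + 1
        · rw [BRArch_ord hy (b + 1) x.1 hx1, hwz, zero_mul]
          exact hpos
        · have hx2' : 0 < x.2.degree := by
            rw [Nat.pos_iff_ne_zero]
            intro h3
            exact hx2 ((Finsupp.degree_eq_zero_iff x.2).1 h3)
          have e1 := ih x.1 (by omega)
          have e2 := H x.2 hx2 (by omega)
          refine (mul_le_mul e1 e2 (hw0 _) (by positivity)).trans (le_of_eq ?_)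
          rw [← hdeg]
          push_cast
          rw [mul_add, Real.exp_add, pow_succ _ (b + 1)]
          ring
    refine (Finset.sum_le_sum h1).trans ?_
    rw [← Finset.mul_sum]
    refine (mul_le_mul_of_nonneg_left (BRArch_conv m) (by positivity)).trans (le_of_eq ?_)
    rw [pow_succ _ b]
    ring

end Aux

/-- The archimedean estimate: there is `C = C(β, D)` such that `w (coeff i y) ≤ exp ((2 κ + C) |i|)`.

Proof. `A i = ∏_b (1 + i b)⁻²`. There is `K₀ = K₀(β) ≥ 1` with `∑_{i' + i'' = i} A i' * A i'' ≤ K₀ * A i`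
(product over the variables of `∑_{a + b = n} (1+a)⁻² (1+b)⁻² ≤ 16 (1+n)⁻²`: one of `1 + a`, `1 + b` is
`≥ (1 + n)/2`, and `∑ (1+a)⁻² ≤ 2`), so the sum of `A i_1 ⋯ A i_b` over `i_1 + ... + i_b = i` is
`≤ K₀ ^ (b-1) * A i`. Also `A (i - a) ≤ (1 + D) ^ (2 |β|) * A i` for `a ≤ i`, `|a| ≤ D`. Let `N` be the number of
all `(a, b)` with `|a| ≤ D`, `b ≤ D` (so `|I| ≤ N`; e.g. `N = (D+1)^(|β|+1)`),
`κ' = κ + log (N * K₀ * (1 + D) ^ (2 |β|))`, `Q = 2 κ'`. Claim by strong induction on `|i|`, `i ≠ 0`:
`w (η i) ≤ A i * exp (Q |i| - κ')`. As in `cb_nonarch` with sums: `x.2 = b ≥ 2`: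
`exp κ * K₀^(b-1) * A (i - a) * exp (Q |i - a| - b κ') ≤ N⁻¹ * A i * exp (Q |i| - κ')`, as
`(b - 1) κ' ≥ κ + log N + (b-1) log K₀ + 2 |β| log (1 + D)`. `x.2 = 1`: `exp κ * A (i-a) * exp (Q (|i| - |a|) - κ')
≤ N⁻¹ A i exp (Q |i| - κ')` as `Q ≥ κ'`. `x.2 = 0`, `a = i`: `exp κ ≤ N⁻¹ A i exp (Q |i| - κ')` as `|i| ≥ 1` and
`A i ≥ (1 + D) ^ (- 2 |β|)`. Sum of at most `N` terms. Finally `A i ≤ 1`, `C = 2 log (N K₀ (1 + D)^(2 |β|))`. -/
theorem cb_arch (β : Type) [Fintype β] (D : ℕ) : ∃ C : ℝ, 0 ≤ C ∧
    ∀ (F : Type) [Field F] (w : F → ℝ), (∀ z, 0 ≤ w z) → w 0 = 0 → w 1 = 1 →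
    (∀ y z, w (y * z) = w y * w z) → (∀ y z, w (y + z) ≤ w y + w z) → (∀ z, w (-z) = w z) →
    ∀ (I : Finset ((β →₀ ℕ) × ℕ)) (p : (β →₀ ℕ) × ℕ → F) (y : MvPowerSeries β F),
    (∀ x ∈ I, x.1.degree ≤ D ∧ x.2 ≤ D) → (0, 0) ∉ I → (0, 1) ∈ I → p (0, 1) ≠ 0 →
    constantCoeff y = 0 → ∑ x ∈ I, monomial x.1 (p x) * y ^ x.2 = 0 →
    ∀ κ : ℝ, 0 ≤ κ → (∀ x ∈ I, w (p x / p (0, 1)) ≤ Real.exp κ) →
    ∀ i : β →₀ ℕ, i ≠ 0 → w (coeff i y) ≤ Real.exp ((2 * κ + C) * i.degree) := by
  classical
  set N : ℝ := ((D : ℝ) + 1) ^ (Fintype.card β + 1) with hN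
  set K₀ : ℝ := 16 ^ Fintype.card β with hK₀
  set M : ℝ := (1 + (D : ℝ)) ^ (2 * Fintype.card β) with hM
  have hD0 : (0 : ℝ) ≤ D := Nat.cast_nonneg D
  have hN1 : 1 ≤ N := one_le_pow₀ (by linarith)
  have hK1 : 1 ≤ K₀ := one_le_pow₀ (by norm_num)
  have hM1 : 1 ≤ M := one_le_pow₀ (by linarith)
  have hP1 : 1 ≤ N * K₀ * M := by
    have h1 : 1 ≤ N * K₀ := by nlinarith
    nlinarith
  refine ⟨2 * Real.log (N * K₀ * M), by
    have := Real.log_nonneg hP1
    linarith, ?_⟩
  intro F _ w hw0 hwz hw1 hwm hwa hwn I p y hI h00 h01 hp hy hrel κ hκ hb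
  set E : ℝ := Real.exp κ with hE
  have hE1 : 1 ≤ E := Real.one_le_exp hκ
  set Z : ℝ := E * (N * K₀ * M) with hZdef
  have hZ1 : 1 ≤ Z := by nlinarith
  have hZ0 : 0 < Z := by linarith
  have hZexp : Real.exp (κ + Real.log (N * K₀ * M)) = Z := by
    rw [Real.exp_add, Real.exp_log (by linarith)]
  set q : ℝ := 2 * (κ + Real.log (N * K₀ * M)) with hq
  have hq0 : 0 ≤ q := by
    have := Real.log_nonneg hP1
    rw [hq]
    linarith
  have hexpq : Real.exp q = Z * Z := by
    rw [hq, two_mul, Real.exp_add, hZexp]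
  have hNpos : 0 < N := by linarith
  -- the coefficient recursion
  have hrec : ∀ i : β →₀ ℕ, coeff i y = -∑ x ∈ I.erase (0, 1),
      p x / p (0, 1) * (if x.1 ≤ i then coeff (i - x.1) (y ^ x.2) else 0) := by
    intro i
    have h1 := congrArg (coeff i) hrel
    rw [map_sum, map_zero, ← Finset.add_sum_erase I _ h01] at h1
    have h2 : coeff i (monomial (0 : β →₀ ℕ) (p (0, 1)) * y ^ 1) = p (0, 1) * coeff i y := by
      rw [coeff_monomial_mul, if_pos (by simp), tsub_zero, pow_one]
    have h3 : ∀ x ∈ I.erase (0, 1), coeff i (monomial x.1 (p x) * y ^ x.2) =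
        p (0, 1) * (p x / p (0, 1) * (if x.1 ≤ i then coeff (i - x.1) (y ^ x.2) else 0)) := by
      intro x _
      rw [coeff_monomial_mul]
      split_ifs
      · field_simp
      · simp
    rw [Finset.sum_congr rfl h3, ← Finset.mul_sum] at h1
    change coeff i (monomial (0 : β →₀ ℕ) (p (0, 1)) * y ^ 1) + _ = 0 at h1
    rw [h2, ← mul_add] at h1
    have h4 := (mul_eq_zero.1 h1).resolve_left hp
    exact eq_neg_of_add_eq_zero_left h4
  have main : ∀ n : ℕ, ∀ i : β →₀ ℕ, i ≠ 0 → i.degree < n →
      w (coeff i y) ≤ BRArch_A i * (Real.exp (q * i.degree) * Z⁻¹) := by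
    intro n
    induction n with
    | zero =>
      intro i _ h
      exact absurd h (Nat.not_lt_zero _)
    | succ n ih =>
      intro i hi hin
      have hAi := BRArch_A_pos i
      have hdi : 0 < i.degree := by
        rw [Nat.pos_iff_ne_zero]
        intro h3
        exact hi ((Finsupp.degree_eq_zero_iff i).1 h3)
      rw [hrec i, hwn]
      refine (BRArch_sum w hwz hwa _ _).trans ?_
      have hterm : ∀ x ∈ I.erase (0, 1),
          w (p x / p (0, 1) * (if x.1 ≤ i then coeff (i - x.1) (y ^ x.2) else 0)) ≤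
            N⁻¹ * (BRArch_A i * (Real.exp (q * i.degree) * Z⁻¹)) := by
        intro x hx
        obtain ⟨hx1, hxI⟩ := Finset.mem_erase.1 hx
        obtain ⟨hxD, hxD'⟩ := hI x hxI
        have hrhs : 0 ≤ N⁻¹ * (BRArch_A i * (Real.exp (q * i.degree) * Z⁻¹)) := by positivity
        rw [hwm]
        by_cases hle : x.1 ≤ i
        swap
        · rw [if_neg hle, hwz, mul_zero]
          exact hrhs
        rw [if_pos hle]
        have hdsub : (i - x.1).degree + x.1.degree = i.degree := by
          rw [← map_add, tsub_add_cancel_of_le hle]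
        have hwx := hb x hxI
        have hshift := BRArch_shift hle hxD
        rw [← hM] at hshift
        -- the exponent of `y`
        rcases hb2 : x.2 with _ | b
        · -- `x.2 = 0`
          rw [pow_zero]
          by_cases hia : i - x.1 = 0
          swap
          · have h5 : coeff (i - x.1) (1 : MvPowerSeries β F) = 0 := by
              rw [coeff_one, if_neg hia]
            rw [h5, hwz, mul_zero]
            exact hrhs
          have h5 : coeff (i - x.1) (1 : MvPowerSeries β F) = 1 := by
            rw [coeff_one, if_pos hia]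
          rw [h5, hw1, mul_one]
          refine hwx.trans ?_
          have hA0 : BRArch_A (i - x.1) = 1 := by
            rw [hia]
            simp [BRArch_A, BRArch_g]
          rw [hA0] at hshift
          have h6 : Z * Z ≤ Real.exp (q * i.degree) := by
            rw [← hexpq]
            refine Real.exp_le_exp.2 ?_
            have h7 : (1 : ℝ) ≤ i.degree := by exact_mod_cast hdi
            nlinarith
          calc E ≤ E * (K₀ * (M * BRArch_A i)) := by
                have h8 : 1 ≤ K₀ * (M * BRArch_A i) := by nlinarith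
                nlinarith
            _ = N⁻¹ * (BRArch_A i * (Z * Z * Z⁻¹)) := by
                rw [hZdef]
                field_simp
            _ ≤ N⁻¹ * (BRArch_A i * (Real.exp (q * i.degree) * Z⁻¹)) := by
                gcongr
        · -- `x.2 = b + 1`
          have hpw := BRArch_pow w hw0 hwz hwm hwa hy hZ0 ih b (i - x.1) (by
            rcases Nat.eq_zero_or_pos b with h0 | h0
            · have hxne : x.1 ≠ 0 := by
                intro h7
                apply hx1
                refine Prod.ext h7 ?_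
                rw [hb2, h0]
              have h8 : 0 < x.1.degree := by
                rw [Nat.pos_iff_ne_zero]
                intro h3
                exact hxne ((Finsupp.degree_eq_zero_iff x.1).1 h3)
              omega
            · omega)
          rw [← hK₀] at hpw
          have h9 : w (p x / p (0, 1)) * w (coeff (i - x.1) (y ^ (b + 1))) ≤
              E * (K₀ ^ b * (BRArch_A (i - x.1) * (Real.exp (q * (i - x.1).degree) *
                Z⁻¹ ^ (b + 1)))) :=
            mul_le_mul hwx hpw (hw0 _) (by positivity)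
          refine h9.trans ?_
          have hZi : Z⁻¹ ≤ 1 := inv_le_one_of_one_le₀ hZ1
          have hZi0 : 0 < Z⁻¹ := inv_pos.2 hZ0
          have hEq : E * (N * K₀ * M) * Z⁻¹ = 1 := by
            rw [← hZdef]
            exact mul_inv_cancel₀ hZ0.ne'
          have hkey : E * K₀ ^ b * M * (Real.exp (q * (i - x.1).degree) * Z⁻¹ ^ b) ≤
              N⁻¹ * Real.exp (q * i.degree) := by
            rcases Nat.eq_zero_or_pos b with h0 | h0
            · have hxne : x.1 ≠ 0 := by
                intro h7
                apply hx1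
                refine Prod.ext h7 ?_
                rw [hb2, h0]
              have h8 : 0 < x.1.degree := by
                rw [Nat.pos_iff_ne_zero]
                intro h3
                exact hxne ((Finsupp.degree_eq_zero_iff x.1).1 h3)
              rw [h0, pow_zero, pow_zero, mul_one, mul_one]
              have h10 : Real.exp (q * (i - x.1).degree) * (Z * Z) ≤
                  Real.exp (q * i.degree) := by
                rw [← hexpq, ← Real.exp_add]
                refine Real.exp_le_exp.2 ?_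
                have h11 : ((i - x.1).degree : ℝ) + x.1.degree = i.degree := by
                  exact_mod_cast hdsub
                have h12 : (1 : ℝ) ≤ x.1.degree := by exact_mod_cast h8
                nlinarith
              have h13 : E * M * N ≤ Z * Z := by
                have h14 : E * M * N ≤ Z := by
                  rw [hZdef]
                  have h15 : 0 ≤ E * M * N := by positivity
                  nlinarith
                nlinarith
              have h16 : 0 < Real.exp (q * (i - x.1).degree) := Real.exp_pos _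
              rw [inv_mul_eq_div, le_div_iff₀ hNpos]
              calc E * M * Real.exp (q * (i - x.1).degree) * N
                  = Real.exp (q * (i - x.1).degree) * (E * M * N) := by ring
                _ ≤ Real.exp (q * (i - x.1).degree) * (Z * Z) :=
                    mul_le_mul_of_nonneg_left h13 h16.le
                _ ≤ _ := h10
            · obtain ⟨c, rfl⟩ : ∃ c, b = c + 1 := ⟨b - 1, by omega⟩
              have h10 : Real.exp (q * (i - x.1).degree) ≤ Real.exp (q * i.degree) := by
                refine Real.exp_le_exp.2 ?_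
                have h11 : ((i - x.1).degree : ℝ) + x.1.degree = i.degree := by
                  exact_mod_cast hdsub
                have h12 : (0 : ℝ) ≤ x.1.degree := Nat.cast_nonneg _
                nlinarith
              have h17 : K₀ * Z⁻¹ ≤ 1 := by
                have h18 : K₀ ≤ Z := by
                  rw [hZdef]
                  have h19 : 1 ≤ E * N * M := by
                    have h20 : 1 ≤ E * N := by nlinarith
                    nlinarith
                  nlinarith
                rw [← div_eq_mul_inv, div_le_one hZ0]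
                exact h18
              have h21 : (K₀ * Z⁻¹) ^ c ≤ 1 := pow_le_one₀ (by positivity) h17
              have h22 : E * M * K₀ * Z⁻¹ = N⁻¹ := by
                refine eq_inv_of_mul_eq_one_left ?_
                rw [← hEq]
                ring
              calc E * K₀ ^ (c + 1) * M * (Real.exp (q * (i - x.1).degree) * Z⁻¹ ^ (c + 1))
                  = (E * M * K₀ * Z⁻¹) * (K₀ * Z⁻¹) ^ c *
                      Real.exp (q * (i - x.1).degree) := by ring
                _ ≤ (E * M * K₀ * Z⁻¹) * 1 * Real.exp (q * i.degree) := by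
                    gcongr
                _ = N⁻¹ * Real.exp (q * i.degree) := by rw [h22, mul_one]
          calc E * (K₀ ^ b * (BRArch_A (i - x.1) * (Real.exp (q * (i - x.1).degree) *
                Z⁻¹ ^ (b + 1))))
              ≤ E * (K₀ ^ b * ((M * BRArch_A i) * (Real.exp (q * (i - x.1).degree) *
                Z⁻¹ ^ (b + 1)))) := by gcongr
            _ = (E * K₀ ^ b * M * (Real.exp (q * (i - x.1).degree) * Z⁻¹ ^ b)) *
                (BRArch_A i * Z⁻¹) := by ring
            _ ≤ (N⁻¹ * Real.exp (q * i.degree)) * (BRArch_A i * Z⁻¹) := by gcongr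
            _ = N⁻¹ * (BRArch_A i * (Real.exp (q * i.degree) * Z⁻¹)) := by ring
      refine (Finset.sum_le_sum hterm).trans ?_
      rw [Finset.sum_const, nsmul_eq_mul]
      have hcard : ((I.erase (0, 1)).card : ℝ) ≤ N := by
        have h1 := (Finset.card_erase_le (s := I) (a := (0, 1))).trans
          (BRArch_card I hI)
        rw [hN]
        exact_mod_cast h1
      have hrhs : 0 ≤ BRArch_A i * (Real.exp (q * i.degree) * Z⁻¹) := by positivity
      calc ((I.erase (0, 1)).card : ℝ) * (N⁻¹ * (BRArch_A i * (Real.exp (q * i.degree) * Z⁻¹)))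
          ≤ N * (N⁻¹ * (BRArch_A i * (Real.exp (q * i.degree) * Z⁻¹))) := by gcongr
        _ = BRArch_A i * (Real.exp (q * i.degree) * Z⁻¹) := by
            rw [← mul_assoc, mul_inv_cancel₀ hNpos.ne', one_mul]
  intro i hi
  refine (main (i.degree + 1) i hi (Nat.lt_succ_self _)).trans ?_
  have hZi : Z⁻¹ ≤ 1 := inv_le_one_of_one_le₀ hZ1
  have hexp : Real.exp ((2 * κ + 2 * Real.log (N * K₀ * M)) * i.degree) =
      Real.exp (q * i.degree) := by
    rw [hq]
    ring_nf
  rw [hexp]
  have h1 := BRArch_A_le_one i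
  have h2 := (BRArch_A_pos i).le
  have h3 := Real.exp_pos (q * i.degree)
  have h4 : Real.exp (q * i.degree) * Z⁻¹ ≤ Real.exp (q * i.degree) := by nlinarith
  have h5 : 0 ≤ Real.exp (q * i.degree) * Z⁻¹ := by positivity
  nlinarith

end Pool.Agent.LSharp
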