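import Pool.Agent.LSharp.BRCoef
import Pool.Agent.LSharp.BRArch

set_option autoImplicit false

/-! BR5. The coefficient bound with normalised logarithms, and the growth at the embeddings. -/

namespace Pool.Agent.LSharp

open MvPowerSeries Pool.Agent.LAll NumberField

private theorem cbp_fr (F : Type) [Field F] [NumberField F] :
    (0 : ℝ) < Module.finrank ℚ F := by
  exact_mod_cast Module.finrank_pos

private theorem cbp_dg {F : Type} [Field F] [NumberField F] {S : Finset (FinitePlace F)}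
    (v : Plc F S) : 0 < dg v := by
  rcases v with v | v
  · change (0 : ℝ) < (v.mult : ℝ)
    exact_mod_cast InfinitePlace.mult_pos
  · exact one_pos

/-- from a bound of the absolute value to a bound of the normalised logarithm -/
private theorem cbp_lam {F : Type} [Field F] [NumberField F] {S : Finset (FinitePlace F)}
    (v : Plc F S) {α : Type} (I : Finset α) (f : α → F) (n C₀ : ℝ) (hn : 0 ≤ n) (hC₀ : 0 ≤ C₀)
    {z : F} (hz : z ≠ 0) (c : ℝ) (hc : c * (dg v / Module.finrank ℚ F) ≤ C₀ * LAll.wt v)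
    (h : ab v z ≤ Real.exp ((2 * (∑ x ∈ I, max 0 (Real.log (ab v (f x)))) + c) * n)) :
    lam v z ≤ n * ((2 + C₀) * (∑ x ∈ I, |lam v (f x)| + LAll.wt v)) := by
  have hD : 0 < dg v / Module.finrank ℚ F := div_pos (cbp_dg v) (cbp_fr F)
  obtain ⟨D, hDdef⟩ : ∃ D, D = dg v / (Module.finrank ℚ F : ℝ) := ⟨_, rfl⟩
  rw [← hDdef] at hD hc
  have hlam : ∀ y : F, lam v y = D * Real.log (ab v y) := by
    intro y
    rw [hDdef]
    unfold lam
    ring
  have h1 : Real.log (ab v z) ≤ (2 * (∑ x ∈ I, max 0 (Real.log (ab v (f x)))) + c) * n :=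
    (Real.log_le_iff_le_exp (ab_pos v hz)).2 h
  have h2 : D * ∑ x ∈ I, max 0 (Real.log (ab v (f x))) ≤ ∑ x ∈ I, |lam v (f x)| := by
    rw [Finset.mul_sum]
    refine Finset.sum_le_sum fun x _ => ?_
    rw [hlam, abs_mul, abs_of_pos hD]
    exact mul_le_mul_of_nonneg_left (max_le (abs_nonneg _) (le_abs_self _)) hD.le
  have h3 : 0 ≤ ∑ x ∈ I, |lam v (f x)| := Finset.sum_nonneg fun x _ => abs_nonneg _
  have h4 : 0 ≤ LAll.wt v := wt_nonneg v
  rw [hlam]
  have h5 : D * Real.log (ab v z) ≤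
      n * (2 * (D * ∑ x ∈ I, max 0 (Real.log (ab v (f x)))) + c * D) := by
    refine (mul_le_mul_of_nonneg_left h1 hD.le).trans (le_of_eq ?_)
    ring
  refine h5.trans (mul_le_mul_of_nonneg_left ?_ hn)
  nlinarith [mul_nonneg hC₀ h3]

/-- **Coefficient bound.** Proof. `i = 0`: `coeff 0 y = 0`. For `i ≠ 0` and a finite place `v` apply
`cb_nonarch` with `w = ab v` and `κ = ∑_{x ∈ I} max 0 (log (ab v (p x / p (0,1))))`, for an infinite place
`cb_arch` with `w = ab v`; take the logarithm and multiply by `dg v / [F : ℚ]`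
(`lam v z = dg v * log (ab v z) / finrank ℚ F`; for infinite `v`: `wt v = mult / [F : ℚ]`, so the constant
`C` of `cb_arch` becomes `C * wt v`). Integrality outside `S`: `cb_nonarch` with `w = v` for a finite place
`v ∉ S` and `κ = 0`. -/
theorem cb (β : Type) [Fintype β] (D : ℕ) : ∃ C : ℝ, 0 ≤ C ∧
    ∀ (F : Type) [Field F] [NumberField F] (I : Finset ((β →₀ ℕ) × ℕ)) (p : (β →₀ ℕ) × ℕ → F)
      (y : MvPowerSeries β F), (∀ x ∈ I, x.1.degree ≤ D ∧ x.2 ≤ D) → (0, 0) ∉ I → (0, 1) ∈ I →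
      p (0, 1) ≠ 0 → constantCoeff y = 0 → ∑ x ∈ I, monomial x.1 (p x) * y ^ x.2 = 0 →
      ∀ S : Finset (FinitePlace F),
        (∀ (v : Plc F S) (i : β →₀ ℕ), coeff i y ≠ 0 →
          lam v (coeff i y) ≤ i.degree * (C * (∑ x ∈ I, |lam v (p x / p (0, 1))| + LAll.wt v))) ∧
        ((∀ x ∈ I, IntOff S (p x / p (0, 1))) → ∀ i, IntOff S (coeff i y)) := by
  obtain ⟨C₀, hC₀, harch⟩ := cb_arch β D
  refine ⟨2 + C₀, by linarith, ?_⟩
  intro F _ _ I p y hI h00 h01 hp hy hrel S
  have hc0 : ∀ i : β →₀ ℕ, coeff i y ≠ 0 → i ≠ 0 := by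
    rintro _ hi rfl
    exact hi (by rw [coeff_zero_eq_constantCoeff_apply, hy])
  have hexp : ∀ (v : Plc F S), ∀ x ∈ I, ab v (p x / p (0, 1)) ≤
      Real.exp (∑ x ∈ I, max 0 (Real.log (ab v (p x / p (0, 1))))) := by
    intro v x hx
    have h1 : Real.log (ab v (p x / p (0, 1))) ≤
        ∑ x ∈ I, max 0 (Real.log (ab v (p x / p (0, 1)))) :=
      (le_max_right 0 _).trans (Finset.single_le_sum
        (f := fun x => max 0 (Real.log (ab v (p x / p (0, 1))))) (fun _ _ => le_max_left 0 _) hx)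
    rcases (ab_nonneg v (p x / p (0, 1))).eq_or_lt with h0 | h0
    · rw [← h0]
      exact (Real.exp_pos _).le
    · exact (Real.log_le_iff_le_exp h0).1 h1
  have hk0 : ∀ v : Plc F S, 0 ≤ ∑ x ∈ I, max 0 (Real.log (ab v (p x / p (0, 1)))) :=
    fun v => Finset.sum_nonneg fun _ _ => le_max_left 0 _
  refine ⟨?_, ?_⟩
  · intro v i hi
    have hi0 := hc0 i hi
    rcases v with v | v
    · refine cbp_lam (Sum.inl v) I (fun x => p x / p (0, 1)) i.degree C₀ (Nat.cast_nonneg _) hC₀
        hi C₀ (le_of_eq rfl) ?_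
      exact harch F (fun z => v z) (fun z => apply_nonneg v z) (map_zero v) (map_one v)
        (fun a b => map_mul v a b) (fun a b => v.1.add_le a b) (fun z => v.1.map_neg z) I p y hI
        h00 h01 hp hy hrel _ (hk0 (Sum.inl v)) (hexp (Sum.inl v)) i hi0
    · refine cbp_lam (Sum.inr v) I (fun x => p x / p (0, 1)) i.degree C₀ (Nat.cast_nonneg _) hC₀
        hi 0 ?_ ?_
      · rw [zero_mul]
        exact mul_nonneg hC₀ (wt_nonneg _)
      · have h1 := cb_nonarch (fun z => v.1 z) (fun z => apply_nonneg v.1 z) (map_zero v.1)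
          (fun a b => map_mul v.1 a b) (map_one v.1) (fun a b => FinitePlace.add_le v.1 a b)
          (fun z => map_neg_eq_map v.1 z) I p y h00 h01 hp hy hrel _ (hk0 (Sum.inr v))
          (hexp (Sum.inr v)) i hi0
        refine h1.trans (Real.exp_le_exp.2 ?_)
        have h2 := hk0 (Sum.inr v)
        rw [add_zero]
        linarith
  · intro hint i v hv
    rcases eq_or_ne (coeff i y) 0 with h0 | h0
    · rw [h0, map_zero]
      exact zero_le_one
    · have h1 := cb_nonarch (fun z => v z) (fun z => apply_nonneg v z) (map_zero v)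
        (fun a b => map_mul v a b) (map_one v) (fun a b => FinitePlace.add_le v a b)
        (fun z => map_neg_eq_map v z) I p y h00 h01 hp hy hrel 0 le_rfl
        (fun x hx => by rw [Real.exp_zero]; exact hint x hx v hv) i (hc0 i h0)
      rwa [mul_zero, zero_mul, sub_zero, Real.exp_zero] at h1

/-- **Growth at the embeddings.** Bounds at the infinite places give bounds for every embedding
(`v = InfinitePlace.mk σ`, `InfinitePlace.apply`, `lam v z = mult v * log (v z) / [F : ℚ]`). -/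
theorem growth (β : Type) (F : Type) [Field F] [NumberField F] (y : MvPowerSeries β F)
    (c Q : InfinitePlace F → ℝ)
    (h : ∀ (v : InfinitePlace F) (i : β →₀ ℕ), coeff i y ≠ 0 →
      lam (S := (∅ : Finset (FinitePlace F))) (Sum.inl v) (coeff i y) ≤ c v + i.degree * Q v)
    (σ : F →+* ℂ) : ∃ C : ℝ, ∀ i : β →₀ ℕ, ‖σ (coeff i y)‖ ≤ C ^ (i.degree + 1) := by
  obtain ⟨v, hv⟩ : ∃ v, v = InfinitePlace.mk σ := ⟨_, rfl⟩
  have hm : (0 : ℝ) < v.mult := by exact_mod_cast InfinitePlace.mult_pos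
  have hn := cbp_fr F
  refine ⟨Real.exp ((Module.finrank ℚ F : ℝ) / v.mult * (|c v| + |Q v|)), fun i => ?_⟩
  rcases eq_or_ne (coeff i y) 0 with h0 | h0
  · rw [h0, map_zero, norm_zero]
    exact pow_nonneg (Real.exp_pos _).le _
  · have h1 : (v.mult : ℝ) * Real.log (v (coeff i y)) / Module.finrank ℚ F ≤
        c v + i.degree * Q v := h v i h0
    have h2 : ‖σ (coeff i y)‖ = v (coeff i y) := by
      rw [hv, InfinitePlace.apply]
    have h3 : 0 < v (coeff i y) := InfinitePlace.pos_iff.2 h0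
    rw [h2, ← Real.exp_nat_mul, ← Real.log_le_iff_le_exp h3]
    have h4 : c v + i.degree * Q v ≤ (i.degree + 1) * (|c v| + |Q v|) := by
      have h5 : (0 : ℝ) ≤ i.degree := Nat.cast_nonneg _
      have h6 := le_abs_self (c v)
      have h7 : (i.degree : ℝ) * Q v ≤ i.degree * |Q v| :=
        mul_le_mul_of_nonneg_left (le_abs_self _) h5
      nlinarith [mul_nonneg h5 (abs_nonneg (c v)), abs_nonneg (Q v)]
    have h8 : Real.log (v (coeff i y)) = (Module.finrank ℚ F : ℝ) / v.mult *
        ((v.mult : ℝ) * Real.log (v (coeff i y)) / Module.finrank ℚ F) := by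
      field_simp
    rw [h8]
    have h9 : (0 : ℝ) ≤ (Module.finrank ℚ F : ℝ) / v.mult := (div_pos hn hm).le
    refine (mul_le_mul_of_nonneg_left (h1.trans h4) h9).trans (le_of_eq ?_)
    push_cast
    ring

end Pool.Agent.LSharp
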