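import Pool.Agent.LSharp.BRTau
import Pool.Agent.LSharp.BRCb

set_option autoImplicit false

/-! BR6. The coefficient bounds on the Taylor expansions. -/

namespace Pool.Agent.LSharp

open MvPowerSeries Pool.Agent.LAll NumberField Filter

/-- `∑_v |lam v z| ≤ 2 ht z` for every finite set of finite places and every `z ≠ 0` (enlarge `S` such
that `z` is a unit outside, `sum_abs_lam`; the sum over a part of the places is smaller). -/
theorem sum_abs_lam_le {F : Type} [Field F] [NumberField F] (S : Finset (FinitePlace F)) (z : F)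
    (hz : z ≠ 0) : ∑ v : Plc F S, |lam v z| ≤ 2 * ht z := by
  classical
  obtain ⟨S₁, hS₁⟩ := exists_S F (fun _ : Unit => z) (fun _ => hz)
  have hoff : Off (S ∪ S₁) z := fun v hv => hS₁ () v fun h => hv (Finset.mem_union_right _ h)
  rw [← sum_abs_lam hz hoff]
  rw [Fintype.sum_sum_type, Fintype.sum_sum_type]
  refine add_le_add (le_of_eq rfl) ?_
  have h1 : ∀ T : Finset (FinitePlace F), ∑ v : {v : FinitePlace F // v ∈ T},
      |lam (Sum.inr v : Plc F T) z| =
        ∑ v ∈ T, |1 * Real.log (v z) / (Module.finrank ℚ F : ℝ)| := fun T =>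
    Finset.sum_coe_sort T fun v : FinitePlace F => |1 * Real.log (v z) / (Module.finrank ℚ F : ℝ)|
  rw [h1, h1]
  exact Finset.sum_le_sum_of_subset_of_nonneg Finset.subset_union_left fun _ _ _ => abs_nonneg _

/-- A polynomial relation with nonvanishing derivative. -/
private theorem exists_sep {R M : Type} [CommRing R] [IsDomain R] [CharZero R] [Field M]
    (f : R →+* M) (hf : Function.Injective f) (x : M) :
    ∀ (n : ℕ) (p : Polynomial R), p.natDegree ≤ n → p ≠ 0 → p.eval₂ f x = 0 →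
      ∃ P : Polynomial R, P.eval₂ f x = 0 ∧ P.derivative.eval₂ f x ≠ 0 := by
  intro n
  induction n with
  | zero =>
    intro p hn hp h0
    exfalso
    rw [Polynomial.eq_C_of_natDegree_le_zero hn, Polynomial.eval₂_C] at h0
    have h1 : p.coeff 0 = 0 := hf (by rw [h0, map_zero])
    apply hp
    rw [Polynomial.eq_C_of_natDegree_le_zero hn, h1, map_zero]
  | succ n ih =>
    intro p hn hp h0
    by_cases hd : p.derivative.eval₂ f x = 0
    · by_cases hd0 : p.derivative = 0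
      · have h1 : p.natDegree = 0 := Polynomial.derivative_eq_zero.1 hd0
        exact ih p (by omega) hp h0
      · refine ih p.derivative ?_ hd0 hd
        have := Polynomial.natDegree_derivative_le p
        omega
    · exact ⟨p, h0, hd⟩

variable {J β : Type} [Fintype β] {𝒰 : Ultrafilter J} {K : J → Type} [∀ j, Field (K j)]
  [∀ j, NumberField (K j)]

omit [Fintype β] in
private theorem exists_poly (k : Subfield (Ult 𝒰 K)) (A : Finset β) (t : β → Ult 𝒰 K)
    (x : Ult 𝒰 K) (halg : IsAlgebraic (Algebra.adjoin k (t '' A)) x) :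
    ∃ P : Polynomial (MvPolynomial {b // b ∈ A} k),
      P.eval₂ (MvPolynomial.eval₂Hom k.subtype fun b : {b // b ∈ A} => t b) x = 0 ∧
      P.derivative.eval₂ (MvPolynomial.eval₂Hom k.subtype fun b : {b // b ∈ A} => t b) x ≠ 0 := by
  set R₀ := Algebra.adjoin k (t '' (A : Set β))
  obtain ⟨p, hp, hpx⟩ := halg
  have hinj : Function.Injective (algebraMap R₀ (Ult 𝒰 K)) := Subtype.val_injective
  have hcz : CharZero R₀ := charZero_of_injective_algebraMap (R := k) (A := R₀)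
    (algebraMap k R₀).injective
  obtain ⟨P, hP, hP'⟩ := exists_sep (algebraMap R₀ (Ult 𝒰 K)) hinj x p.natDegree p le_rfl hp hpx
  set e := MvPolynomial.eval₂Hom k.subtype fun b : {b // b ∈ A} => t b with he
  have hsurj : ∀ c : R₀, ∃ f : MvPolynomial {b // b ∈ A} k, e f = c := by
    intro c
    have hc : (c : Ult 𝒰 K) ∈ Algebra.adjoin k (Set.range fun b : {b // b ∈ A} => t b) := by
      have h1 : (Set.range fun b : {b // b ∈ A} => t b) = t '' (A : Set β) := by
        ext z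
        constructor
        · rintro ⟨b, rfl⟩
          exact ⟨b, b.2, rfl⟩
        · rintro ⟨b, hb, rfl⟩
          exact ⟨⟨b, hb⟩, rfl⟩
      rw [h1]
      exact c.2
    rw [Algebra.adjoin_range_eq_range_aeval] at hc
    obtain ⟨f, hf⟩ := hc
    exact ⟨f, hf⟩
  choose g hg using hsurj
  have hlift : P.map (algebraMap R₀ (Ult 𝒰 K)) ∈ Polynomial.lifts e := by
    rw [Polynomial.lifts_iff_coeff_lifts]
    intro n
    rw [Polynomial.coeff_map]
    exact ⟨g (P.coeff n), hg _⟩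
  obtain ⟨Q, hQ⟩ := (Polynomial.mem_lifts _).1 hlift
  refine ⟨Q, ?_, ?_⟩
  · rw [← Polynomial.eval_map, hQ, Polynomial.eval_map]
    exact hP
  · rw [← Polynomial.eval_map, ← Polynomial.derivative_map, hQ, Polynomial.derivative_map,
      Polynomial.eval_map]
    exact hP'

omit [Fintype β] in
private theorem exists_rel (k : Subfield (Ult 𝒰 K)) (s : J → ℝ) (hk : k ≤ Lf 𝒰 K s) (A : Finset β)
    (t : β → Ult 𝒰 K) (ht : ∀ b ∈ A, t b ∈ Lf 𝒰 K s)
    (L : Subfield (Ult 𝒰 K)) (τ : L →+* Ult 𝒰 (PS β K)) (hkL : k ≤ L) (htL : ∀ b ∈ A, t b ∈ L)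
    (h2 : ∀ x : L, (x : Ult 𝒰 K) ∈ k → τ x = cst β K x)
    (h3 : ∀ b ∈ A, ∀ x : L, (x : Ult 𝒰 K) = t b → τ x = cst β K (t b) + XU K b)
    (x : L) (hx : (x : Ult 𝒰 K) ∈ Lf 𝒰 K s) (hx0 : x ≠ 0)
    (halg : IsAlgebraic (Algebra.adjoin k (t '' A)) (x : Ult 𝒰 K)) :
    ∃ G : Polynomial (MvPolynomial β (Lf 𝒰 K s)),
      (G.coeff 0).coeff 0 = 0 ∧ (G.coeff 1).coeff 0 ≠ 0 ∧
      G.eval₂ (MvPolynomial.eval₂Hom ((cst β K).comp (Lf 𝒰 K s).subtype) (fun b => XU K b))
        (cst β K (x : Ult 𝒰 K)⁻¹ * τ x - 1) = 0 := by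
  obtain ⟨P, hP, hP'⟩ := exists_poly k A t x halg
  set e := MvPolynomial.eval₂Hom k.subtype fun b : {b // b ∈ A} => t b with he
  set Ψ : MvPolynomial {b // b ∈ A} k →+* MvPolynomial β (Lf 𝒰 K s) :=
    MvPolynomial.eval₂Hom (MvPolynomial.C.comp (Subfield.inclusion hk))
      fun b : {b // b ∈ A} => MvPolynomial.C ⟨t b, ht b b.2⟩ + MvPolynomial.X (b : β) with hΨ
  set x' : Lf 𝒰 K s := ⟨x, hx⟩ with hx'
  have hxU : (x : Ult 𝒰 K) ≠ 0 := fun h => hx0 (Subtype.ext h)
  set W : Polynomial (MvPolynomial β (Lf 𝒰 K s)) :=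
    Polynomial.C (MvPolynomial.C x') * (1 + Polynomial.X) with hW
  have hce : (Lf 𝒰 K s).subtype.comp (MvPolynomial.constantCoeff.comp Ψ) = e := by
    refine MvPolynomial.ringHom_ext (fun c => ?_) (fun b => ?_)
    · simp [he, hΨ]
      rfl
    · simp [he, hΨ]
  refine ⟨(P.map Ψ).comp W, ?_, ?_, ?_⟩
  · have h1 : ((P.map Ψ).comp W).coeff 0 = (P.map Ψ).eval (MvPolynomial.C x') := by
      rw [Polynomial.coeff_zero_eq_eval_zero, Polynomial.eval_comp]
      simp [hW]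
    rw [h1]
    have h2 : ((MvPolynomial.constantCoeff ((P.map Ψ).eval (MvPolynomial.C x')) : Lf 𝒰 K s) :
        Ult 𝒰 K) = 0 := by
      rw [← hP, Polynomial.eval_map, ← hce, Polynomial.hom_eval₂]
      change (Lf 𝒰 K s).subtype (Polynomial.eval₂ _ _ _) = _
      rw [Polynomial.hom_eval₂]
      congr 1
      simp [hx']
    exact Subtype.ext h2
  · have h1 : ((P.map Ψ).comp W).coeff 1 =
        MvPolynomial.C x' * (P.map Ψ).derivative.eval (MvPolynomial.C x') := by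
      have h0 := Polynomial.coeff_derivative ((P.map Ψ).comp W) 0
      rw [Nat.cast_zero, zero_add, zero_add, mul_one] at h0
      rw [← h0, Polynomial.coeff_zero_eq_eval_zero, Polynomial.derivative_comp,
        Polynomial.eval_mul, Polynomial.eval_comp]
      simp [hW]
    rw [h1]
    intro h0
    have h2 : MvPolynomial.constantCoeff
        (MvPolynomial.C x' * (P.map Ψ).derivative.eval (MvPolynomial.C x')) = 0 := h0
    rw [map_mul, MvPolynomial.constantCoeff_C, mul_eq_zero] at h2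
    rcases h2 with h2 | h2
    · exact hxU (congrArg Subtype.val h2)
    · apply hP'
      have h3 : ((MvPolynomial.constantCoeff ((P.map Ψ).derivative.eval (MvPolynomial.C x')) :
          Lf 𝒰 K s) : Ult 𝒰 K) = 0 := by
        rw [h2]
        rfl
      rw [← h3, Polynomial.derivative_map, Polynomial.eval_map, ← hce, Polynomial.hom_eval₂]
      change _ = (Lf 𝒰 K s).subtype (Polynomial.eval₂ _ _ _)
      rw [Polynomial.hom_eval₂]
      congr 1
      simp [hx']
  · set E₀ := MvPolynomial.eval₂Hom ((cst β K).comp (Lf 𝒰 K s).subtype)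
      (fun b => XU (𝒰 := 𝒰) K b) with hE₀
    rw [Polynomial.eval₂_comp, Polynomial.eval₂_map]
    set eL : MvPolynomial {b // b ∈ A} k →+* L :=
      MvPolynomial.eval₂Hom (Subfield.inclusion hkL) fun b : {b // b ∈ A} => ⟨t b, htL b b.2⟩
      with heL
    have hcomp : E₀.comp Ψ = τ.comp eL := by
      refine MvPolynomial.ringHom_ext (fun c => ?_) (fun b => ?_)
      · simp only [hE₀, hΨ, heL, RingHom.comp_apply, MvPolynomial.eval₂Hom_C]
        rw [h2 _ (by exact c.2)]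
        rfl
      · simp only [hE₀, hΨ, heL, RingHom.comp_apply, MvPolynomial.coe_eval₂Hom,
          MvPolynomial.eval₂_X, MvPolynomial.eval₂_add, MvPolynomial.eval₂_C]
        rw [h3 b b.2 _ rfl]
        rfl
    have hWx : Polynomial.eval₂ E₀ (cst β K (x : Ult 𝒰 K)⁻¹ * τ x - 1) W = τ x := by
      rw [hW, Polynomial.eval₂_mul, Polynomial.eval₂_C, Polynomial.eval₂_add, Polynomial.eval₂_one,
        Polynomial.eval₂_X]
      have h4 : E₀ (MvPolynomial.C x') = cst β K (x : Ult 𝒰 K) := by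
        simp [hE₀, hx']
      rw [h4, add_sub_cancel, ← mul_assoc, ← map_mul, mul_inv_cancel₀ hxU, map_one, one_mul]
    rw [hWx, hcomp, ← Polynomial.hom_eval₂]
    have h5 : P.eval₂ eL x = 0 := by
      apply Subtype.ext
      change L.subtype _ = 0
      rw [Polynomial.hom_eval₂, ← hP]
      congr 1
      refine MvPolynomial.ringHom_ext (fun c => ?_) (fun b => ?_)
      · simp [he, heL]
        rfl
      · simp [he, heL]
    rw [h5, map_zero]

omit [Fintype β] [∀ j, NumberField (K j)] in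
private theorem C_mul_prod (j : J) (a : β →₀ ℕ) (c : K j) :
    (MvPowerSeries.C c : MvPowerSeries β (K j)) * a.prod (fun b n => MvPowerSeries.X b ^ n) =
      MvPowerSeries.monomial a c := by
  rw [← MvPowerSeries.monomial_one_eq, ← MvPowerSeries.monomial_zero_eq_C_apply,
    MvPowerSeries.monomial_mul_monomial, zero_add, mul_one]

omit [Fintype β] in
private theorem e0_monomial (s : J → ℝ) (a : β →₀ ℕ) (c : Lf 𝒰 K s) :
    MvPolynomial.eval₂Hom ((cst β K).comp (Lf 𝒰 K s).subtype) (fun b => XU (𝒰 := 𝒰) K b)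
      (MvPolynomial.monomial a c) =
    Ult.mk 𝒰 (PS β K) (fun j => MvPowerSeries.monomial a ((c : Ult 𝒰 K).rep j)) := by
  rw [MvPolynomial.coe_eval₂Hom, MvPolynomial.eval₂_monomial]
  have h1 : ((cst β K).comp (Lf 𝒰 K s).subtype) c =
      Ult.mk 𝒰 (PS β K) (fun j => MvPowerSeries.C ((c : Ult 𝒰 K).rep j)) := by
    change cst β K (c : Ult 𝒰 K) = _
    conv_lhs => rw [← Ult.mk_rep (c : Ult 𝒰 K)]
    rfl
  have h2 : (a.prod fun b n => XU (𝒰 := 𝒰) K b ^ n) = Ult.mk 𝒰 (PS β K)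
      (a.prod fun b n => (fun _ => MvPowerSeries.X b) ^ n) := by
    rw [map_finsuppProd]
    rfl
  rw [h1, h2, ← map_mul]
  congr 1
  funext j
  rw [Pi.mul_apply, ← C_mul_prod j a]
  congr 1
  rw [Finsupp.prod, Finsupp.prod, Finset.prod_apply]
  rfl

omit [Fintype β] in
private theorem rel_rep (s : J → ℝ) (G : Polynomial (MvPolynomial β (Lf 𝒰 K s)))
    (y : ∀ j, MvPowerSeries β (K j))
    (h : G.eval₂ (MvPolynomial.eval₂Hom ((cst β K).comp (Lf 𝒰 K s).subtype) (fun b => XU K b))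
      (Ult.mk 𝒰 (PS β K) y) = 0)
    (q : (β →₀ ℕ) × ℕ → Lf 𝒰 K s) (hq : ∀ x, q x = (G.coeff x.2).coeff x.1) :
    ∃ I : Finset ((β →₀ ℕ) × ℕ), (∀ x, x ∈ I ↔ q x ≠ 0) ∧
      ∀ᶠ j in (𝒰 : Filter J),
        ∑ x ∈ I, monomial x.1 ((q x : Ult 𝒰 K).rep j) * y j ^ x.2 = 0 := by
  classical
  set E₀ := MvPolynomial.eval₂Hom ((cst β K).comp (Lf 𝒰 K s).subtype)
    (fun b => XU (𝒰 := 𝒰) K b) with hE₀
  set A0 : Finset (β →₀ ℕ) := G.support.biUnion fun m => (G.coeff m).support with hA0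
  set Y := Ult.mk 𝒰 (PS β K) y with hY
  refine ⟨(A0 ×ˢ G.support).filter fun x => q x ≠ 0, fun x => ?_, ?_⟩
  · rw [Finset.mem_filter, Finset.mem_product, hA0, Finset.mem_biUnion]
    refine ⟨fun h => h.2, fun h => ?_⟩
    have h1 : x.1 ∈ (G.coeff x.2).support := by
      rw [MvPolynomial.mem_support_iff, ← hq]
      exact h
    have h2 : x.2 ∈ G.support := by
      rw [Polynomial.mem_support_iff]
      intro h3
      rw [h3] at h1
      simp at h1
    exact ⟨⟨⟨x.2, h2, h1⟩, h2⟩, h⟩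
  · have h1 : ∑ x ∈ (A0 ×ˢ G.support).filter fun x => q x ≠ 0,
        E₀ (MvPolynomial.monomial x.1 (q x)) * Y ^ x.2 = 0 := by
      rw [Finset.sum_filter_of_ne, Finset.sum_product_right, ← h, Polynomial.eval₂_eq_sum,
        Polynomial.sum_def]
      · refine Finset.sum_congr rfl fun m hm => ?_
        change ∑ x ∈ A0, E₀ (MvPolynomial.monomial x (q (x, m))) * Y ^ m = _
        rw [← Finset.sum_mul]
        congr 1
        conv_rhs => rw [(G.coeff m).as_sum, map_sum]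
        symm
        refine (Finset.sum_congr rfl fun a _ => ?_).trans
          (Finset.sum_subset (s₁ := (G.coeff m).support) (s₂ := A0) ?_ ?_)
        · rw [hq]
        · intro a ha
          exact Finset.mem_biUnion.2 ⟨m, hm, ha⟩
        · intro a _ ha
          rw [hq, MvPolynomial.notMem_support_iff.1 ha, map_zero, map_zero]
      · intro x _ hx h0
        apply hx
        rw [h0, map_zero, map_zero, zero_mul]
    have h2 : ∀ x : (β →₀ ℕ) × ℕ, E₀ (MvPolynomial.monomial x.1 (q x)) * Y ^ x.2 =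
        Ult.mk 𝒰 (PS β K) (fun j => monomial x.1 ((q x : Ult 𝒰 K).rep j) * y j ^ x.2) := by
      intro x
      rw [hE₀, e0_monomial, hY, ← map_pow, ← map_mul]
      rfl
    rw [Finset.sum_congr rfl fun x _ => h2 x, ← map_sum, Ult.mk_eq_zero] at h1
    filter_upwards [h1] with j hj
    rw [Finset.sum_apply] at hj
    exact hj

/-- **Bounds for the coefficients of the Taylor expansion** of an element `x ≠ 0` of height `O(s)` which
is algebraic over `k(t_A)`, where the elements of `k` and the `t b` have height `O(s)` too: for most `j`,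
`lam v (coeff i (τ x)) ≤ lam v x + |i| Q_v` at all places, with `∑_v Q_v = O(s)`; and all the coefficients
are integral outside a finite set of places.

Proof. Let `P = ∑_{(α, n)} c_(α,n) T^α Z^n`, `c_(α,n) ∈ k`, be a polynomial in the `T_b`, `b ∈ A`, and `Z` with
`P(t, x) = 0`, `(∂P/∂Z)(t, x) ≠ 0`: the minimal polynomial of `x` over the field `k(t_A)` (characteristic
`0`: separable), multiplied by a common denominator. Put `y = τ x / cst x - 1` (`cst x` is invertible), so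
`eps0 y = 0`. Apply `τ`: `∑ cst c_(α,n) (cst t + X)^α (cst x)^n (1 + y)^n = 0`; expanding,
`∑_{(a, b)} cst (q (a, b)) X^a y^b = 0` with `q (a, b) = ∑_{(α, n)} c_(α,n) (α choose a) t^(α - a) x^n (n choose b)`
in the field `Lf 𝒰 K s`. `q (0, 0) = P(t, x) = 0`, `q (0, 1) = x (∂P/∂Z)(t, x) ≠ 0`. Let `I` be the set of all
`(a, b) ≠ (0, 0)` with `q (a, b) ≠ 0` (finite). For most `j` the relation holds for the representatives
(`Ult.mk_eq_zero`), `q (0,1).rep j ≠ 0`, `ht ((q x / q (0,1)).rep j) ≤ C max 1 (s j)`. `cb` with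
`y_j = C (x.rep j)⁻¹ * (τ x).rep j - 1` gives the bound with
`Q v = C (∑_{x ∈ I} |lam v (..)| + wt v)`, `∑_v Q v ≤ C (|I| 2 max ht + 1)` (`sum_abs_lam_le`, `sum_wt`), and
`coeff i (τ x) = x * coeff i y` for `i ≠ 0`. Integrality: a finite set `S₀` outside which `x` and the
`q x / q (0,1)` are integral (`exists_S` for the nonzero ones), and `cb`. -/
theorem branch_bounds (k : Subfield (Ult 𝒰 K)) (s : J → ℝ) (hk : k ≤ Lf 𝒰 K s) (A : Finset β)
    (t : β → Ult 𝒰 K) (ht : ∀ b ∈ A, t b ∈ Lf 𝒰 K s)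
    (hind : AlgebraicIndependent k (fun b : {b // b ∈ A} => t b))
    (L : Subfield (Ult 𝒰 K)) (τ : L →+* Ult 𝒰 (PS β K)) (hkL : k ≤ L) (htL : ∀ b ∈ A, t b ∈ L)
    (h1 : ∀ x, eps0 β K (τ x) = x) (h2 : ∀ x : L, (x : Ult 𝒰 K) ∈ k → τ x = cst β K x)
    (h3 : ∀ b ∈ A, ∀ x : L, (x : Ult 𝒰 K) = t b → τ x = cst β K (t b) + XU K b)
    (x : L) (hx : (x : Ult 𝒰 K) ∈ Lf 𝒰 K s) (hx0 : x ≠ 0)
    (halg : IsAlgebraic (Algebra.adjoin k (t '' A)) (x : Ult 𝒰 K)) :
    ∃ C : ℝ, ∀ᶠ j in (𝒰 : Filter J), (∀ S : Finset (FinitePlace (K j)),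
      ∃ Q : Plc (K j) S → ℝ, (∀ v, 0 ≤ Q v) ∧ ∑ v, Q v ≤ C * max 1 (s j) ∧
        ∀ v (i : β →₀ ℕ), coeff i ((τ x).rep j) ≠ 0 →
          lam v (coeff i ((τ x).rep j)) ≤ lam v ((x : Ult 𝒰 K).rep j) + i.degree * Q v) ∧
      ∃ S₀ : Finset (FinitePlace (K j)), ∀ S, S₀ ⊆ S → ∀ i, IntOff S (coeff i ((τ x).rep j)) := by
  classical
  obtain ⟨G, hG0, hG1, hG⟩ := exists_rel k s hk A t ht L τ hkL htL h2 h3 x hx hx0 halg
  have hxU : (x : Ult 𝒰 K) ≠ 0 := fun h => hx0 (Subtype.ext h)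
  set xr : ∀ j, K j := (x : Ult 𝒰 K).rep with hxr
  set fr : ∀ j, MvPowerSeries β (K j) := (τ x).rep with hfr
  set y : ∀ j, MvPowerSeries β (K j) := fun j => MvPowerSeries.C (xr j)⁻¹ * fr j - 1 with hy
  have hymk : cst β K (x : Ult 𝒰 K)⁻¹ * τ x - 1 = Ult.mk 𝒰 (PS β K) y := by
    have e1 : cst β K (x : Ult 𝒰 K)⁻¹ = Ult.mk 𝒰 (PS β K) fun j => MvPowerSeries.C (xr j)⁻¹ := by
      have e2 : (x : Ult 𝒰 K)⁻¹ = Ult.mk 𝒰 K fun j => (xr j)⁻¹ := by
        rw [Ult.mk_inv, hxr, Ult.mk_rep]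
      rw [e2]
      rfl
    have e3 : τ x = Ult.mk 𝒰 (PS β K) fr := (Ult.mk_rep _).symm
    rw [e1, e3, ← map_mul, ← map_one (Ult.mk 𝒰 (PS β K)), ← map_sub]
    rfl
  rw [hymk] at hG
  set q : (β →₀ ℕ) × ℕ → Lf 𝒰 K s := fun x => (G.coeff x.2).coeff x.1 with hq
  obtain ⟨I, hI, hrel⟩ := rel_rep s G y hG q fun _ => rfl
  obtain ⟨C₀, hC₀, hcb⟩ := cb β (I.sup fun x => max x.1.degree x.2)
  have h01 : q (0, 1) ≠ 0 := hG1
  -- the heights
  have hht : ∀ z : (β →₀ ℕ) × ℕ, ∃ C : ℝ, 0 ≤ C ∧ ∀ᶠ j in (𝒰 : Filter J),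
      LAll.ht ((q z : Ult 𝒰 K).rep j / (q (0, 1) : Ult 𝒰 K).rep j) ≤ C * max 1 (s j) := by
    intro z
    obtain ⟨w, hw, C, hC⟩ := (q z / q (0, 1)).2
    refine ⟨max C 0, le_max_right _ _, ?_⟩
    have e1 : Ult.mk 𝒰 K w = Ult.mk 𝒰 K fun j =>
        (q z : Ult 𝒰 K).rep j * ((q (0, 1) : Ult 𝒰 K).rep j)⁻¹ := by
      rw [hw]
      have e2 : (fun j => (q z : Ult 𝒰 K).rep j * ((q (0, 1) : Ult 𝒰 K).rep j)⁻¹) =
          (q z : Ult 𝒰 K).rep * fun j => ((q (0, 1) : Ult 𝒰 K).rep j)⁻¹ := rfl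
      rw [e2, map_mul, Ult.mk_rep, Ult.mk_inv, Ult.mk_rep]
      rfl
    filter_upwards [hC, Ult.mk_eq_mk.1 e1] with j hj hj'
    rw [div_eq_mul_inv, ← hj']
    exact hj.trans (mul_le_mul_of_nonneg_right (le_max_left _ _)
      (zero_le_one.trans (le_max_left _ _)))
  choose Ch hCh0 hCh using hht
  have hq0 : ∀ᶠ j in (𝒰 : Filter J), ∀ z ∈ I, (q z : Ult 𝒰 K).rep j ≠ 0 := by
    rw [Filter.eventually_all_finset]
    intro z hz
    exact Ult.rep_ne_zero fun h => (hI z).1 hz (Subtype.ext h)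
  have hCh' : ∀ᶠ j in (𝒰 : Filter J), ∀ z ∈ I,
      LAll.ht ((q z : Ult 𝒰 K).rep j / (q (0, 1) : Ult 𝒰 K).rep j) ≤ Ch z * max 1 (s j) := by
    rw [Filter.eventually_all_finset]
    exact fun z _ => hCh z
  have hyc : ∀ᶠ j in (𝒰 : Filter J), constantCoeff (y j) = 0 := by
    have e1 : eps0 β K (Ult.mk 𝒰 (PS β K) y) = 0 := by
      rw [← hymk, map_sub, map_mul, eps0_cst, h1, inv_mul_cancel₀ hxU, map_one, sub_self]
    exact Ult.mk_eq_zero.1 e1
  refine ⟨C₀ * (∑ z ∈ I, 2 * Ch z + 1), ?_⟩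
  filter_upwards [hrel, hq0, hCh', hyc, Ult.rep_ne_zero hxU] with j hjrel hjq hjh hjc hjx
  have hjx' : xr j ≠ 0 := hjx
  have hcbj := hcb (K j) I (fun z => (q z : Ult 𝒰 K).rep j) (y j)
    (fun z hz => ⟨(le_max_left _ _).trans (Finset.le_sup (f := fun x => max x.1.degree x.2) hz),
      (le_max_right _ _).trans (Finset.le_sup (f := fun x => max x.1.degree x.2) hz)⟩)
    (fun h => (hI _).1 h hG0) ((hI _).2 h01) (hjq _ ((hI _).2 h01)) hjc hjrel
  have hfy : fr j = MvPowerSeries.C (xr j) * (1 + y j) := by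
    rw [hy]
    change fr j = MvPowerSeries.C (xr j) * (1 + (MvPowerSeries.C (xr j)⁻¹ * fr j - 1))
    rw [add_sub_cancel, ← mul_assoc, ← map_mul, mul_inv_cancel₀ hjx', map_one, one_mul]
  have hf0 : coeff 0 (fr j) = xr j := by
    rw [hfy, MvPowerSeries.coeff_C_mul, map_add, MvPowerSeries.coeff_zero_one,
      MvPowerSeries.coeff_zero_eq_constantCoeff_apply, hjc, add_zero, mul_one]
  have hfi : ∀ i : β →₀ ℕ, i ≠ 0 → coeff i (fr j) = xr j * coeff i (y j) := by
    intro i hi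
    rw [hfy, MvPowerSeries.coeff_C_mul, map_add, MvPowerSeries.coeff_one, if_neg hi, zero_add]
  refine ⟨fun S => ?_, ?_⟩
  · refine ⟨fun v => C₀ * (∑ z ∈ I, |lam v ((q z : Ult 𝒰 K).rep j / (q (0, 1) : Ult 𝒰 K).rep j)| +
      LAll.wt v), fun v => ?_, ?_, fun v i hi => ?_⟩
    · exact mul_nonneg hC₀ (add_nonneg (Finset.sum_nonneg fun _ _ => abs_nonneg _) (wt_nonneg v))
    · rw [← Finset.mul_sum, Finset.sum_add_distrib, sum_wt, Finset.sum_comm, mul_assoc]
      refine mul_le_mul_of_nonneg_left ?_ hC₀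
      rw [add_mul, Finset.sum_mul, one_mul]
      refine add_le_add (Finset.sum_le_sum fun z hz => ?_) (le_max_left _ _)
      refine (sum_abs_lam_le S _ (div_ne_zero (hjq z hz) (hjq _ ((hI _).2 h01)))).trans ?_
      rw [mul_assoc]
      exact mul_le_mul_of_nonneg_left (hjh z hz) zero_le_two
    · rcases eq_or_ne i 0 with rfl | hi0
      · have e1 : lam v (coeff 0 (fr j)) = lam v (xr j) := by rw [hf0]
        rw [e1]
        have e2 : ((0 : β →₀ ℕ).degree : ℝ) = 0 := by simp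
        rw [e2, zero_mul, add_zero]
      · have hne : coeff i (fr j) ≠ 0 := hi
        rw [hfi i hi0] at hne
        have hyi : coeff i (y j) ≠ 0 := right_ne_zero_of_mul hne
        have e1 : lam v (coeff i (fr j)) = lam v (xr j) + lam v (coeff i (y j)) := by
          rw [hfi i hi0, lam_mul v hjx' hyi]
        rw [e1]
        exact add_le_add le_rfl ((hcbj S).1 v i hyi)
  · obtain ⟨S₁, hS₁⟩ := exists_S (K j) (fun _ : Unit => xr j) fun _ => hjx'
    obtain ⟨S₂, hS₂⟩ := exists_S (K j)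
      (fun z : {z // z ∈ I} => (q z : Ult 𝒰 K).rep j / (q (0, 1) : Ult 𝒰 K).rep j)
      fun z => div_ne_zero (hjq z z.2) (hjq _ ((hI _).2 h01))
    refine ⟨S₁ ∪ S₂, fun S hS i => ?_⟩
    have hx1 : IntOff S (xr j) := fun v hv =>
      (hS₁ () v fun h => hv (hS (Finset.mem_union_left _ h))).le
    have hz1 : ∀ z ∈ I, IntOff S
        ((q z : Ult 𝒰 K).rep j / (q (0, 1) : Ult 𝒰 K).rep j) := fun z hz v hv =>
      (hS₂ ⟨z, hz⟩ v fun h => hv (hS (Finset.mem_union_right _ h))).le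
    have hy1 := (hcbj S).2 hz1 i
    rcases eq_or_ne i 0 with rfl | hi0
    · have e1 : coeff 0 (fr j) = xr j := hf0
      exact e1 ▸ hx1
    · have e1 : coeff i (fr j) = xr j * coeff i (y j) := hfi i hi0
      have e2 := IntOff.mul hx1 hy1
      rw [← e1] at e2
      exact e2

end Pool.Agent.LSharp
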