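import Pool.Agent.LSharp.BRDefs

set_option autoImplicit false

/-! BR4. Bounds for the coefficients of an algebraic power series with a simple initial root. -/

namespace Pool.Agent.LSharp

open MvPowerSeries Pool.Agent.LAll NumberField

private theorem w_sum {F ι : Type} [Field F] (w : F → ℝ) (hwz : w 0 = 0)
    (hwa : ∀ y z, w (y + z) ≤ max (w y) (w z)) (s : Finset ι) (f : ι → F) (C : ℝ) (hC : 0 ≤ C)
    (h : ∀ x ∈ s, w (f x) ≤ C) : w (∑ x ∈ s, f x) ≤ C := by
  classical
  induction s using Finset.induction_on with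
  | empty => rw [Finset.sum_empty, hwz]; exact hC
  | insert a s ha ih =>
    rw [Finset.sum_insert ha]
    exact (hwa _ _).trans (max_le (h a (Finset.mem_insert_self a s))
      (ih fun x hx => h x (Finset.mem_insert_of_mem hx)))

private theorem w_pow {β F : Type} [Field F] (w : F → ℝ) (hw0 : ∀ z, 0 ≤ w z) (hwz : w 0 = 0)
    (hwm : ∀ y z, w (y * z) = w y * w z)
    (hwa : ∀ y z, w (y + z) ≤ max (w y) (w z)) (y : MvPowerSeries β F)
    (hy : constantCoeff y = 0) (κ : ℝ) (D : ℕ)
    (ih : ∀ d : β →₀ ℕ, d.degree < D → d ≠ 0 →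
      w (coeff d y) ≤ Real.exp (2 * κ * d.degree - κ)) (b : ℕ) :
    ∀ d : β →₀ ℕ, (d.degree < D ∨ (1 ≤ b ∧ d.degree ≤ D)) →
      w (coeff d (y ^ (b + 1))) ≤ Real.exp (2 * κ * d.degree - (b + 1 : ℕ) * κ) := by
  classical
  have hy0 : coeff 0 y = 0 := hy
  have h1 : ∀ d : β →₀ ℕ, d.degree < D →
      w (coeff d y) ≤ Real.exp (2 * κ * d.degree - κ) := by
    intro d hd
    by_cases h0 : d = 0
    · rw [h0, hy0, hwz]
      exact (Real.exp_pos _).le
    · exact ih d hd h0
  induction b with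
  | zero =>
    intro d hd
    rw [zero_add, pow_one, Nat.cast_one, one_mul]
    refine h1 d ?_
    rcases hd with hd | hd
    · exact hd
    · omega
  | succ b ihb =>
    intro d hd
    rw [pow_succ, MvPowerSeries.coeff_mul]
    refine w_sum w hwz hwa _ _ _ (Real.exp_pos _).le ?_
    rintro ⟨u, v⟩ huv
    rw [Finset.HasAntidiagonal.mem_antidiagonal] at huv
    simp only at huv ⊢
    have hdeg : u.degree + v.degree = d.degree := by rw [← huv, map_add]
    by_cases hv : v = 0
    · rw [hv, hy0, mul_zero, hwz]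
      exact (Real.exp_pos _).le
    by_cases hu : u = 0
    · have h2 : coeff u (y ^ (b + 1)) = 0 := by
        rw [hu]
        change constantCoeff (y ^ (b + 1)) = 0
        rw [map_pow, hy, zero_pow (Nat.succ_ne_zero b)]
      rw [h2, zero_mul, hwz]
      exact (Real.exp_pos _).le
    have hv1 : 0 < v.degree := Nat.pos_of_ne_zero fun h => hv (Finsupp.degree_eq_zero_iff v |>.1 h)
    have hu1 : 0 < u.degree := Nat.pos_of_ne_zero fun h => hu (Finsupp.degree_eq_zero_iff u |>.1 h)
    have hdD : d.degree ≤ D := by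
      rcases hd with hd | hd
      · exact hd.le
      · exact hd.2
    rw [hwm]
    have h3 := ihb u (Or.inl (by omega))
    have h4 := h1 v (by omega)
    refine (mul_le_mul h3 h4 (hw0 _) (Real.exp_pos _).le).trans ?_
    rw [← Real.exp_add]
    refine Real.exp_le_exp.2 (le_of_eq ?_)
    have h5 : (d.degree : ℝ) = u.degree + v.degree := by
      rw [← hdeg]
      push_cast
      ring
    rw [h5]
    push_cast
    ring

/-- The nonarchimedean estimate. `F` a field with a multiplicative nonarchimedean `|.|` (`w`).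
Notation `η i = coeff i y`. Claim: `w (η i) ≤ exp (2 κ |i| - κ)` for `i ≠ 0`, by strong induction on
`i.degree`. The coefficient of `X ^ i` in the relation is
`∑_{x ∈ I} p x * coeff (i - x.1) (y ^ x.2)` (over the `x` with `x.1 ≤ i`; `coeff_monomial_mul`); the term
`x = (0, 1)` is `p (0, 1) * η i`. The other terms, divided by `p (0, 1)`: `x.2 = 0` (then `x.1 = i ≠ 0`, since
`(0,0) ∉ I`): `≤ exp κ ≤ exp (2 κ |i| - κ)`. `x.2 = 1`, `x.1 = a ≠ 0`: `≤ exp (κ + 2 κ (|i| - |a|) - κ) ≤
exp (2 κ |i| - κ)`. `x.2 = b ≥ 2`: `coeff (i - a) (y ^ b)` is a sum of products `η i_1 ⋯ η i_b` with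
`∑ i_l = i - a` (`coeff_pow` or `coeff_prod`), all `i_l ≠ 0` (as `η 0 = 0`), so `|i_l| < |i|`, and the product
is `≤ exp (2 κ |i - a| - b κ)`; with `exp κ` this is `≤ exp (2 κ |i| - κ)`. -/
theorem cb_nonarch {β F : Type} [Field F] (w : F → ℝ) (hw0 : ∀ z, 0 ≤ w z) (hwz : w 0 = 0)
    (hwm : ∀ y z, w (y * z) = w y * w z) (hw1 : w 1 = 1)
    (hwa : ∀ y z, w (y + z) ≤ max (w y) (w z)) (hwn : ∀ z, w (-z) = w z)
    (I : Finset ((β →₀ ℕ) × ℕ)) (p : (β →₀ ℕ) × ℕ → F) (y : MvPowerSeries β F)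
    (h00 : (0, 0) ∉ I) (h01 : (0, 1) ∈ I) (hp : p (0, 1) ≠ 0) (hy : constantCoeff y = 0)
    (hrel : ∑ x ∈ I, monomial x.1 (p x) * y ^ x.2 = 0) (κ : ℝ) (hκ : 0 ≤ κ)
    (hb : ∀ x ∈ I, w (p x / p (0, 1)) ≤ Real.exp κ) (i : β →₀ ℕ) (hi : i ≠ 0) :
    w (coeff i y) ≤ Real.exp (2 * κ * i.degree - κ) := by
  classical
  obtain ⟨n, hn⟩ : ∃ n, i.degree = n := ⟨_, rfl⟩
  induction n using Nat.strong_induction_on generalizing i with
  | _ n ihn =>
  have ih : ∀ d : β →₀ ℕ, d.degree < n → d ≠ 0 →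
      w (coeff d y) ≤ Real.exp (2 * κ * d.degree - κ) := fun d hd hd0 =>
    ihn d.degree hd d hd0 rfl
  have hpow := w_pow w hw0 hwz hwm hwa y hy κ n ih
  have hi1 : 0 < i.degree := Nat.pos_of_ne_zero fun h => hi (Finsupp.degree_eq_zero_iff i |>.1 h)
  -- the coefficient of the relation
  have h1 : ∑ x ∈ I, (if x.1 ≤ i then p x * coeff (i - x.1) (y ^ x.2) else 0) = 0 := by
    have h2 := congrArg (coeff i) hrel
    rw [map_sum, map_zero] at h2
    refine Eq.trans (Finset.sum_congr rfl fun x _ => ?_) h2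
    rw [coeff_monomial_mul]
  rw [← Finset.add_sum_erase I _ h01] at h1
  simp only [zero_le, if_true, tsub_zero, pow_one] at h1
  have h2 : coeff i y = -∑ x ∈ I.erase (0, 1),
      (if x.1 ≤ i then p x / p (0, 1) * coeff (i - x.1) (y ^ x.2) else 0) := by
    have h3 : ∑ x ∈ I.erase (0, 1), (if x.1 ≤ i then p x * coeff (i - x.1) (y ^ x.2) else 0) =
        p (0, 1) * ∑ x ∈ I.erase (0, 1),
          (if x.1 ≤ i then p x / p (0, 1) * coeff (i - x.1) (y ^ x.2) else 0) := by
      rw [Finset.mul_sum]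
      refine Finset.sum_congr rfl fun x _ => ?_
      split_ifs
      · field_simp
      · rw [mul_zero]
    rw [h3, ← mul_add] at h1
    exact eq_neg_of_add_eq_zero_left ((mul_eq_zero.1 h1).resolve_left hp)
  rw [h2, hwn]
  refine w_sum w hwz hwa _ _ _ (Real.exp_pos _).le ?_
  intro x hx
  obtain ⟨hx1, hx2⟩ := Finset.mem_erase.1 hx
  have hbx := hb x hx2
  split_ifs with hle
  swap
  · rw [hwz]
    exact (Real.exp_pos _).le
  have hdeg : x.1.degree + (i - x.1).degree = i.degree := by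
    rw [← map_add, add_tsub_cancel_of_le hle]
  have hdegR : (i.degree : ℝ) = x.1.degree + (i - x.1).degree := by
    rw [← hdeg]
    push_cast
    ring
  rw [hwm]
  rcases Nat.eq_zero_or_pos x.2 with hb0 | hb1
  · -- no `y`
    rw [hb0, pow_zero, coeff_one]
    split_ifs with h4
    · rw [hw1, mul_one]
      refine hbx.trans (Real.exp_le_exp.2 ?_)
      have h5 : (1 : ℝ) ≤ i.degree := by exact_mod_cast hi1
      nlinarith
    · rw [hwz, mul_zero]
      exact (Real.exp_pos _).le
  · obtain ⟨b, hb2⟩ : ∃ b, x.2 = b + 1 := ⟨x.2 - 1, by omega⟩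
    rw [hb2]
    have h6 : (i - x.1).degree < n ∨ (1 ≤ b ∧ (i - x.1).degree ≤ n) := by
      by_cases hbb : 1 ≤ b
      · right
        exact ⟨hbb, by omega⟩
      · left
        have h7 : x.1 ≠ 0 := by
          intro h8
          apply hx1
          ext1
          · exact h8
          · simp only
            omega
        have h9 : 0 < x.1.degree :=
          Nat.pos_of_ne_zero fun h => h7 (Finsupp.degree_eq_zero_iff x.1 |>.1 h)
        omega
    have h7 := hpow b (i - x.1) h6
    refine (mul_le_mul hbx h7 (hw0 _) (Real.exp_pos _).le).trans ?_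
    rw [← Real.exp_add]
    refine Real.exp_le_exp.2 ?_
    rw [hdegR]
    by_cases hbb : 1 ≤ b
    · have h8 : (1 : ℝ) ≤ b := by exact_mod_cast hbb
      have h9 : (0 : ℝ) ≤ x.1.degree := by positivity
      push_cast
      nlinarith [mul_nonneg hκ h9, mul_nonneg hκ (sub_nonneg.2 h8)]
    · have hb00 : b = 0 := by omega
      have h10 : x.1 ≠ 0 := by
        intro h8
        apply hx1
        ext1
        · exact h8
        · simp only
          omega
      have h9 : 0 < x.1.degree :=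
        Nat.pos_of_ne_zero fun h => h10 (Finsupp.degree_eq_zero_iff x.1 |>.1 h)
      have h11 : (1 : ℝ) ≤ x.1.degree := by exact_mod_cast h9
      rw [hb00]
      push_cast
      nlinarith [mul_nonneg hκ (sub_nonneg.2 h11)]

end Pool.Agent.LSharp
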