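import Pool.Agent.LAll.PolyDefs

set_option autoImplicit false

/-! Zero estimate HC: definitions. Polynomials with integer coefficients in finitely many variables,
weights `1 / n_k`, Taylor coefficients at a point `t`. -/

namespace Pool.Agent.LSharp

open MvPolynomial Pool.Agent.LAll

/-- The `ℓ¹`-norm of an integral polynomial. -/
noncomputable def L1 {σ : Type} (F : MvPolynomial σ ℤ) : ℝ :=
  ∑ i ∈ F.support, |((F.coeff i : ℤ) : ℝ)|

/-- The weight `∑ i_k / n_k` of an exponent. -/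
noncomputable def wt {σ : Type} [Fintype σ] (n : σ → ℕ) (i : σ →₀ ℕ) : ℝ :=
  ∑ k, (i k : ℝ) / n k

/-- All Taylor coefficients of `F` at `t` of weight `< w` vanish. -/
def Van {σ K : Type} [Fintype σ] [Field K] (n : σ → ℕ) (t : σ → K) (w : ℝ)
    (F : MvPolynomial σ ℤ) : Prop :=
  ∀ i : σ →₀ ℕ, (tay t F).coeff i ≠ 0 → w ≤ wt n i

/-- Degrees `≤ s n_k`, `ℓ¹`-norm `≤ exp (s M)`. -/
def Bd {σ : Type} (n : σ → ℕ) (M s : ℝ) (F : MvPolynomial σ ℤ) : Prop :=
  (∀ k, (F.degreeOf k : ℝ) ≤ s * n k) ∧ L1 F ≤ Real.exp (s * M)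

/-- **Genericity of `t`**: no nonzero integral polynomial `P`, `l` one of its variables with the
largest `n_l`, has degrees `≤ A n_k / n_l`, norm `≤ exp (A M / n_l)` and vanishes at `t`. -/
def Free {σ K : Type} [Field K] (n : σ → ℕ) (M : ℝ) (t : σ → K) (A : ℝ) : Prop :=
  ∀ P : MvPolynomial σ ℤ, P ≠ 0 → ∀ l ∈ P.vars, (∀ k ∈ P.vars, n k ≤ n l) →
    Bd n M (A / n l) P → aeval t P ≠ 0

end Pool.Agent.LSharp
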