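import Pool.Agent.LSharp.UDefs
import Pool.Agent.LSharp.HCDefs

set_option autoImplicit false

/-! Theorem U# : ultraproducts of rings of formal power series, and the maps between them. -/

namespace Pool.Agent.LSharp

open Filter NumberField Pool.Agent.LAll MvPowerSeries

section

variable {J : Type} {𝒰 : Ultrafilter J}

/-- The map of ultraproducts induced by ring homomorphisms. -/
noncomputable def Ult.map {R S : J → Type} [∀ j, CommRing (R j)] [∀ j, CommRing (S j)]
    (f : ∀ j, R j →+* S j) : Ult 𝒰 R →+* Ult 𝒰 S :=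
  Ideal.Quotient.lift (nul 𝒰 R)
    ((Ult.mk 𝒰 S).comp (Pi.ringHom fun j => (f j).comp (Pi.evalRingHom R j)))
    (fun z hz => by
      have h1 : ∀ᶠ j in (𝒰 : Filter J), z j = 0 := hz
      change Ult.mk 𝒰 S (fun j => f j (z j)) = 0
      rw [Ult.mk_eq_zero]
      filter_upwards [h1] with j hj
      rw [hj, map_zero])

theorem Ult.map_mk {R S : J → Type} [∀ j, CommRing (R j)] [∀ j, CommRing (S j)]
    (f : ∀ j, R j →+* S j) (z : ∀ j, R j) :
    Ult.map (𝒰 := 𝒰) f (Ult.mk 𝒰 R z) = Ult.mk 𝒰 S (fun j => f j (z j)) := rfl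

theorem Ult.map_rep {R S : J → Type} [∀ j, CommRing (R j)] [∀ j, CommRing (S j)]
    (f : ∀ j, R j →+* S j) (x : Ult 𝒰 R) :
    ∀ᶠ j in (𝒰 : Filter J), (Ult.map (𝒰 := 𝒰) f x).rep j = f j (x.rep j) := by
  have h : Ult.map (𝒰 := 𝒰) f x = Ult.mk 𝒰 S (fun j => f j (x.rep j)) := by
    conv_lhs => rw [← Ult.mk_rep x]
    rfl
  rw [h]
  exact Ult.rep_mk _

/-- The ultraproduct of domains is a domain. -/
instance {R : J → Type} [∀ j, CommRing (R j)] [∀ j, IsDomain (R j)] : IsDomain (Ult 𝒰 R) := by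
  have hnt : Nontrivial (Ult 𝒰 R) := by
    refine ⟨⟨0, 1, fun h => ?_⟩⟩
    have h1 : Ult.mk 𝒰 R 1 = 0 := by rw [map_one]; exact h.symm
    obtain ⟨j, hj⟩ := (Ult.mk_eq_zero.1 h1).exists
    exact one_ne_zero hj
  have hnz : NoZeroDivisors (Ult 𝒰 R) := by
    constructor
    intro x y hxy
    have h1 : Ult.mk 𝒰 R (fun j => x.rep j * y.rep j) = 0 := by
      have h2 : (fun j => x.rep j * y.rep j) = x.rep * y.rep := rfl
      rw [h2, map_mul, Ult.mk_rep, Ult.mk_rep]
      exact hxy
    have h3 : ∀ᶠ j in (𝒰 : Filter J), x.rep j = 0 ∨ y.rep j = 0 := by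
      filter_upwards [Ult.mk_eq_zero.1 h1] with j hj
      exact mul_eq_zero.1 hj
    rcases Ultrafilter.eventually_or.1 h3 with h | h
    · left
      rw [← Ult.mk_rep x, Ult.mk_eq_zero]
      exact h
    · right
      rw [← Ult.mk_rep y, Ult.mk_eq_zero]
      exact h
  exact NoZeroDivisors.to_isDomain _

variable (β : Type) (K : J → Type) [∀ j, Field (K j)]

/-- The rings of formal power series. -/
abbrev PS (j : J) : Type := MvPowerSeries β (K j)

/-- Constants, as power series. -/
noncomputable def cst : Ult 𝒰 K →+* Ult 𝒰 (PS β K) := Ult.map fun _ => MvPowerSeries.C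

/-- The constant coefficient. -/
noncomputable def eps0 : Ult 𝒰 (PS β K) →+* Ult 𝒰 K := Ult.map fun _ => MvPowerSeries.constantCoeff

variable {β}

/-- The variable `ζ_b`. -/
noncomputable def XU (b : β) : Ult 𝒰 (PS β K) := Ult.mk 𝒰 (PS β K) fun _ => MvPowerSeries.X b

end

/-- The subring of the power series in the variables of `A` only. -/
def onlyB {β F : Type} [Field F] (A : Set β) : Subring (MvPowerSeries β F) where
  carrier := {f | ∀ i, coeff i f ≠ 0 → ∀ b, i b ≠ 0 → b ∈ A}
  zero_mem' := fun i hi => absurd (by simp) hi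
  one_mem' := by
    classical
    intro i hi b hb
    exfalso
    apply hi
    rw [coeff_one, if_neg]
    rintro rfl
    exact hb rfl
  add_mem' := by
    intro f g hf hg i hi b hb
    by_cases h : coeff i f = 0
    · refine hg i (fun h1 => hi ?_) b hb
      rw [map_add, h, h1, add_zero]
    · exact hf i h b hb
  mul_mem' := by
    classical
    intro f g hf hg i hi b hb
    rw [coeff_mul] at hi
    obtain ⟨p, hp, hne⟩ := Finset.exists_ne_zero_of_sum_ne_zero hi
    have h1 : p.1 + p.2 = i := Finset.HasAntidiagonal.mem_antidiagonal.1 hp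
    have h2 : p.1 b + p.2 b ≠ 0 := by
      rw [← Finsupp.add_apply, h1]
      exact hb
    by_cases h : p.1 b = 0
    · refine hg p.2 (right_ne_zero_of_mul hne) b fun h3 => h2 ?_
      rw [h, h3]
    · exact hf p.1 (left_ne_zero_of_mul hne) b h
  neg_mem' := by
    intro f hf i hi b hb
    refine hf i (fun h => hi ?_) b hb
    rw [map_neg, h, neg_zero]

/-- The rational numbers `a j`, as an element of the ultraproduct. -/
noncomputable def ofRat {J : Type} (𝒰 : Ultrafilter J) (K : J → Type) [∀ j, Field (K j)]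
    (a : J → ℚ) : Ult 𝒰 K := Ult.mk 𝒰 K fun j => (a j : K j)

end Pool.Agent.LSharp
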