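import Pool.Agent.LSharp.BRDefs

set_option autoImplicit false

/-! BR1. Hensel's lemma for formal power series over a field. -/

namespace Pool.Agent.LSharp

open MvPowerSeries

variable {β F : Type} [Field F]

/-- all coefficients of degree at most `n` vanish -/
private def ZZ (n : ℕ) (f : MvPowerSeries β F) : Prop :=
  ∀ i : β →₀ ℕ, i.degree ≤ n → coeff i f = 0

private theorem ZZ.add {n : ℕ} {f g : MvPowerSeries β F} (hf : ZZ n f) (hg : ZZ n g) :
    ZZ n (f + g) := by
  intro i hi
  rw [map_add, hf i hi, hg i hi, add_zero]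

private theorem ZZ.neg {n : ℕ} {f : MvPowerSeries β F} (hf : ZZ n f) : ZZ n (-f) := by
  intro i hi
  rw [map_neg, hf i hi, neg_zero]

private theorem ZZ.mono {n m : ℕ} (h : n ≤ m) {f : MvPowerSeries β F} (hf : ZZ m f) : ZZ n f :=
  fun i hi => hf i (hi.trans h)

private theorem ZZ.mul {n m : ℕ} {f g : MvPowerSeries β F} (hf : ZZ n f) (hg : ZZ m g) :
    ZZ (n + m + 1) (f * g) := by
  classical
  intro i hi
  rw [coeff_mul]
  refine Finset.sum_eq_zero fun x hx => ?_
  have h1 : x.1.degree + x.2.degree = i.degree := by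
    rw [← map_add, Finset.HasAntidiagonal.mem_antidiagonal.1 hx]
  rcases Nat.lt_or_ge n x.1.degree with h2 | h2
  · rw [hg x.2 (by omega), mul_zero]
  · rw [hf x.1 h2, zero_mul]

private theorem ZZ.mul_right {n : ℕ} {f : MvPowerSeries β F} (hf : ZZ n f)
    (g : MvPowerSeries β F) : ZZ n (f * g) := by
  classical
  intro i hi
  rw [coeff_mul]
  refine Finset.sum_eq_zero fun x hx => ?_
  have h1 : x.1.degree + x.2.degree = i.degree := by
    rw [← map_add, Finset.HasAntidiagonal.mem_antidiagonal.1 hx]
  rw [hf x.1 (by omega), zero_mul]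

private theorem ZZ.mul_left {n : ℕ} {f : MvPowerSeries β F} (hf : ZZ n f)
    (g : MvPowerSeries β F) : ZZ n (g * f) := by
  rw [mul_comm]
  exact hf.mul_right g

private theorem ZZ_zero_iff {f : MvPowerSeries β F} : ZZ 0 f ↔ constantCoeff f = 0 := by
  constructor
  · intro h
    rw [← coeff_zero_eq_constantCoeff_apply]
    exact h 0 (by simp)
  · intro h i hi
    have h1 : i = 0 := (Finsupp.degree_eq_zero_iff i).1 (Nat.le_zero.1 hi)
    rw [h1, coeff_zero_eq_constantCoeff_apply, h]

private theorem C_mem_onlyB (A : Set β) (c : F) : (C c : MvPowerSeries β F) ∈ onlyB A := by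
  intro i hi b hb
  exfalso
  apply hi
  apply coeff_C_of_ne_zero
  rintro rfl
  exact hb rfl

private theorem eval_mem_onlyB (A : Set β) {p : Polynomial (MvPowerSeries β F)}
    (hp : ∀ n, p.coeff n ∈ onlyB A) {y : MvPowerSeries β F} (hy : y ∈ onlyB A) :
    p.eval y ∈ onlyB A := by
  rw [Polynomial.eval_eq_sum_range]
  exact Subring.sum_mem _ fun n _ => Subring.mul_mem _ (hp n) (Subring.pow_mem _ hy n)

private theorem cc_eval (p : Polynomial (MvPowerSeries β F)) (y : MvPowerSeries β F) :
    constantCoeff (p.eval y) =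
      (p.map (constantCoeff (σ := β) (R := F))).eval (constantCoeff y) := by
  rw [Polynomial.eval_map, Polynomial.eval₂_at_apply]

/-- **Hensel's lemma** for formal power series in any number of variables over a field, with the
addition that the solution only involves the variables of `A` if the equation does.

Proof (Newton iteration with a constant derivative). For `n : ℕ` let `I_n` be the ideal of the power
series all of whose coefficients `coeff i f`, `i.degree ≤ n`, vanish (`i.degree` is additive:
`Finsupp.degree`); `f ∈ I_n`, `g ∈ I_m` implies `f * g ∈ I_(n+m+1)` (`coeff_mul`). Put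
`s = (p.map constantCoeff).derivative.eval y₀ ≠ 0`, `y 0 = C y₀` and
`y (n+1) = y n - C s⁻¹ * p.eval (y n)`. By induction: `y n ∈ onlyB A` (a subring), `p.eval (y n) ∈ I_n` and
`y (n+1) - y n ∈ I_n`, `constantCoeff (y n) = y₀`. Induction step: with `h = y (n+1) - y n ∈ I_n`,
`p.eval (y n + h) = p.eval (y n) + p.derivative.eval (y n) * h + h ^ 2 * r`
(`Polynomial.binomExpansion`), `h ^ 2 ∈ I_(2n+1) ≤ I_(n+1)`, and
`p.eval (y n) + p.derivative.eval (y n) * h = p.eval (y n) * (1 - p.derivative.eval (y n) * C s⁻¹)` is in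
`I_n * I_0 ≤ I_(n+1)`, because the constant coefficient of `p.derivative.eval (y n)` is `s`. (For `n = 0`:
the constant coefficient of `p.eval (C y₀)` is `0`.)
Define `y` by `coeff i y = coeff i (y i.degree)` (a power series is a function of `i`); then
`y - y n ∈ I_n` for all `n` (telescoping), so `p.eval y - p.eval (y n) ∈ I_n`
(`Polynomial.sub_dvd_eval_sub`) and `p.eval y ∈ I_n` for all `n`, i.e. `p.eval y = 0`. `y ∈ onlyB A` since
its coefficients are coefficients of the `y n`. -/
theorem hensel (A : Set β) (p : Polynomial (MvPowerSeries β F)) (hp : ∀ n, p.coeff n ∈ onlyB A)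
    (y₀ : F) (h0 : (p.map (constantCoeff (σ := β) (R := F))).eval y₀ = 0)
    (h1 : ((p.map (constantCoeff (σ := β) (R := F))).derivative).eval y₀ ≠ 0) :
    ∃ y : MvPowerSeries β F, y ∈ onlyB A ∧ constantCoeff y = y₀ ∧ p.eval y = 0 := by
  set s := ((p.map (constantCoeff (σ := β) (R := F))).derivative).eval y₀ with hs
  let y : ℕ → MvPowerSeries β F := fun n =>
    Nat.rec (C y₀) (fun _ z => z + -(C s⁻¹ * p.eval z)) n
  have hy0 : y 0 = C y₀ := rfl
  have hy1 : ∀ n, y (n + 1) = y n + -(C s⁻¹ * p.eval (y n)) := fun n => rfl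
  have hind : ∀ n, y n ∈ onlyB A ∧ ZZ n (p.eval (y n)) ∧ constantCoeff (y n) = y₀ := by
    intro n
    induction n with
    | zero =>
      rw [hy0]
      refine ⟨C_mem_onlyB A _, ?_, constantCoeff_C _⟩
      rw [ZZ_zero_iff, cc_eval, constantCoeff_C, h0]
    | succ n ih =>
      obtain ⟨h2, h3, h4⟩ := ih
      have hh : ZZ n (-(C s⁻¹ * p.eval (y n))) := (h3.mul_left _).neg
      rw [hy1]
      refine ⟨Subring.add_mem _ h2 (Subring.neg_mem _ (Subring.mul_mem _ (C_mem_onlyB A _)
        (eval_mem_onlyB A hp h2))), ?_, ?_⟩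
      · obtain ⟨r, hr⟩ := p.binomExpansion (y n) (-(C s⁻¹ * p.eval (y n)))
        have h5 : p.eval (y n + -(C s⁻¹ * p.eval (y n))) =
            p.eval (y n) * (1 + -(p.derivative.eval (y n) * C s⁻¹)) +
              r * (-(C s⁻¹ * p.eval (y n)) * -(C s⁻¹ * p.eval (y n))) := by
          rw [hr]
          ring
        rw [h5]
        refine ZZ.add ?_ (ZZ.mul_left (ZZ.mono (by omega) (hh.mul hh)) _)
        have h6 : ZZ 0 (1 + -(p.derivative.eval (y n) * C s⁻¹)) := by
          rw [ZZ_zero_iff, map_add, map_one, map_neg, map_mul, constantCoeff_C, cc_eval, h4,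
            ← Polynomial.derivative_map, ← hs, mul_inv_cancel₀ h1]
          ring
        exact h3.mul h6
      · rw [map_add, map_neg, map_mul, cc_eval, h4, h0, mul_zero, neg_zero, add_zero]
  -- the limit
  have hstep : ∀ m n, ∀ i : β →₀ ℕ, i.degree ≤ m → m ≤ n → coeff i (y n) = coeff i (y m) := by
    intro m n i hi hmn
    induction n, hmn using Nat.le_induction with
    | base => rfl
    | succ n hn ih =>
      have h2 : ZZ n (-(C s⁻¹ * p.eval (y n))) := ((hind n).2.1.mul_left _).neg
      rw [hy1, map_add, h2 i (hi.trans hn), add_zero, ih]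
  let z : MvPowerSeries β F := fun i => coeff i (y i.degree)
  have hz : ∀ i, coeff i z = coeff i (y i.degree) := fun i => rfl
  have hzy : ∀ n, ZZ n (z - y n) := by
    intro n i hi
    rw [map_sub, hz, hstep i.degree n i le_rfl hi, sub_self]
  refine ⟨z, ?_, ?_, ?_⟩
  · intro i hi b hb
    rw [hz] at hi
    exact (hind i.degree).1 i hi b hb
  · rw [← coeff_zero_eq_constantCoeff_apply, hz]
    have h2 : (0 : β →₀ ℕ).degree = 0 := by simp
    rw [h2, coeff_zero_eq_constantCoeff_apply]
    exact (hind 0).2.2
  · ext i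
    obtain ⟨k, hk⟩ := Polynomial.sub_dvd_eval_sub z (y i.degree) p
    have h2 : p.eval z = p.eval (y i.degree) + (z - y i.degree) * k := by
      rw [← hk]
      ring
    rw [h2, map_add, (hind i.degree).2.1 i le_rfl, (hzy i.degree).mul_right k i le_rfl]
    simp

/-- The inverse of a power series of `onlyB A` with nonzero constant coefficient is in `onlyB A`
(`hensel` for the polynomial `f X - 1`, and uniqueness of the inverse). -/
theorem inv_mem_onlyB (A : Set β) (f : MvPowerSeries β F) (hf : f ∈ onlyB A)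
    (h0 : constantCoeff f ≠ 0) : f⁻¹ ∈ onlyB A := by
  obtain ⟨y, h1, -, h2⟩ := hensel A (Polynomial.C f * Polynomial.X - 1) (fun n => by
      rw [Polynomial.coeff_sub, Polynomial.coeff_C_mul]
      refine Subring.sub_mem _ (Subring.mul_mem _ hf ?_) ?_
      · rw [Polynomial.coeff_X]
        split_ifs
        · exact Subring.one_mem _
        · exact Subring.zero_mem _
      · rw [Polynomial.coeff_one]
        split_ifs
        · exact Subring.one_mem _
        · exact Subring.zero_mem _) (constantCoeff f)⁻¹ (by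
      simp [h0]) (by
      simp [h0])
  rw [Polynomial.eval_sub, Polynomial.eval_mul, Polynomial.eval_C, Polynomial.eval_X,
    Polynomial.eval_one, sub_eq_zero] at h2
  rw [(MvPowerSeries.inv_eq_iff_mul_eq_one h0).2 (by rw [mul_comm, h2])]
  exact h1

end Pool.Agent.LSharp
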