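import Pool.Agent.LSharp.HCDefs

set_option autoImplicit false

/-! HC1. The `ℓ¹`-norm of integral polynomials. Everything is elementary; compare the section `L1` of
`Pool.Agent.DD7719.RothSize` (the same lemmas for `MvPolynomial (Fin m) K` and an embedding of `K`),
whose proofs can be copied. -/

namespace Pool.Agent.LSharp

open MvPolynomial Pool.Agent.LAll

variable {σ : Type}

theorem L1_nonneg (F : MvPolynomial σ ℤ) : 0 ≤ L1 F := by
  exact Finset.sum_nonneg fun _ _ => abs_nonneg _

/-- A nonzero integral polynomial has `ℓ¹`-norm at least `1`. -/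
theorem one_le_L1 (F : MvPolynomial σ ℤ) (hF : F ≠ 0) : 1 ≤ L1 F := by
  obtain ⟨i, hi⟩ := Finset.nonempty_iff_ne_empty.2 (fun h => hF (support_eq_empty.1 h))
  have h1 : (1 : ℤ) ≤ |F.coeff i| := Int.one_le_abs (mem_support_iff.1 hi)
  have h2 : (1 : ℝ) ≤ |((F.coeff i : ℤ) : ℝ)| := by
    rw [← Int.cast_abs]
    exact_mod_cast h1
  exact h2.trans (Finset.single_le_sum (f := fun i => |((F.coeff i : ℤ) : ℝ)|)
    (fun _ _ => abs_nonneg _) hi)

theorem L1_zero : L1 (0 : MvPolynomial σ ℤ) = 0 := by
  simp [L1]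

theorem L1_eq_sum (F : MvPolynomial σ ℤ) (s : Finset (σ →₀ ℕ)) (hs : F.support ⊆ s) :
    L1 F = ∑ i ∈ s, |((F.coeff i : ℤ) : ℝ)| := by
  refine Finset.sum_subset hs fun i _ hi => ?_
  rw [notMem_support_iff.mp hi, Int.cast_zero, abs_zero]

theorem abs_coeff_le_L1 (F : MvPolynomial σ ℤ) (i : σ →₀ ℕ) : |((F.coeff i : ℤ) : ℝ)| ≤ L1 F := by
  classical
  by_cases hi : i ∈ F.support
  · exact Finset.single_le_sum (f := fun i => |((F.coeff i : ℤ) : ℝ)|)
      (fun _ _ => abs_nonneg _) hi
  · rw [notMem_support_iff.mp hi, Int.cast_zero, abs_zero]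
    exact L1_nonneg F

theorem L1_add (F G : MvPolynomial σ ℤ) : L1 (F + G) ≤ L1 F + L1 G := by
  classical
  rw [L1_eq_sum (F + G) (F.support ∪ G.support) support_add,
    L1_eq_sum F (F.support ∪ G.support) Finset.subset_union_left,
    L1_eq_sum G (F.support ∪ G.support) Finset.subset_union_right, ← Finset.sum_add_distrib]
  refine Finset.sum_le_sum fun i _ => ?_
  rw [coeff_add, Int.cast_add]
  exact abs_add_le _ _

theorem L1_neg (F : MvPolynomial σ ℤ) : L1 (-F) = L1 F := by
  simp [L1, support_neg, coeff_neg]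

theorem L1_sum {ι : Type} (s : Finset ι) (F : ι → MvPolynomial σ ℤ) :
    L1 (∑ a ∈ s, F a) ≤ ∑ a ∈ s, L1 (F a) := by
  classical
  induction s using Finset.induction_on with
  | empty => simp [L1_zero]
  | insert a s ha ih =>
    rw [Finset.sum_insert ha, Finset.sum_insert ha]
    exact (L1_add _ _).trans (by linarith)

private theorem L1_monomial_mul (i : σ →₀ ℕ) (a : ℤ) (G : MvPolynomial σ ℤ) :
    L1 (monomial i a * G) ≤ |(a : ℝ)| * L1 G := by
  classical
  have h1 : (monomial i a * G).support ⊆ G.support.map (addLeftEmbedding i) := by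
    intro j hj
    rw [mem_support_iff, coeff_monomial_mul'] at hj
    have h2 : i ≤ j := by
      by_contra h
      exact hj (if_neg h)
    rw [if_pos h2] at hj
    rw [Finset.mem_map]
    exact ⟨j - i, mem_support_iff.mpr (right_ne_zero_of_mul hj), by
      simp [add_tsub_cancel_of_le h2]⟩
  rw [L1_eq_sum _ _ h1, Finset.sum_map, L1, Finset.mul_sum]
  refine Finset.sum_le_sum fun j _ => ?_
  simp only [addLeftEmbedding_apply]
  rw [coeff_monomial_mul, Int.cast_mul, abs_mul]

private theorem L1_one : L1 (1 : MvPolynomial σ ℤ) = 1 := by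
  classical
  have h : (1 : MvPolynomial σ ℤ).support = {0} := by
    ext i
    rw [mem_support_iff, coeff_one, Finset.mem_singleton]
    constructor
    · intro h
      by_contra h2
      exact h (if_neg (Ne.symm h2))
    · rintro rfl
      simp
  rw [L1, h, Finset.sum_singleton, coeff_one]
  simp

private theorem L1_monomial_le (i : σ →₀ ℕ) (a : ℤ) : L1 (monomial i a) ≤ |(a : ℝ)| := by
  have h := L1_monomial_mul i a 1
  rwa [mul_one, L1_one, mul_one] at h

theorem L1_mul (F G : MvPolynomial σ ℤ) : L1 (F * G) ≤ L1 F * L1 G := by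
  classical
  have h1 : F * G = ∑ i ∈ F.support, monomial i (F.coeff i) * G := by
    rw [← Finset.sum_mul, support_sum_monomial_coeff]
  rw [h1]
  refine (L1_sum _ _).trans ?_
  rw [L1, Finset.sum_mul]
  exact Finset.sum_le_sum fun i _ => L1_monomial_mul i _ G

theorem L1_pow (F : MvPolynomial σ ℤ) (e : ℕ) : L1 (F ^ e) ≤ L1 F ^ e := by
  induction e with
  | zero => rw [pow_zero, pow_zero, L1_one]
  | succ e ih =>
    rw [pow_succ, pow_succ]
    exact (L1_mul _ _).trans (mul_le_mul_of_nonneg_right ih (L1_nonneg _))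

theorem L1_prod {ι : Type} (s : Finset ι) (F : ι → MvPolynomial σ ℤ) :
    L1 (∏ a ∈ s, F a) ≤ ∏ a ∈ s, L1 (F a) := by
  classical
  induction s using Finset.induction_on with
  | empty => simp [L1_one]
  | insert a s ha ih =>
    rw [Finset.prod_insert ha, Finset.prod_insert ha]
    exact (L1_mul _ _).trans (mul_le_mul_of_nonneg_left ih (L1_nonneg _))

/-- The determinant: at most the product over the columns of the sums of the norms of the entries
(expand; the sum over all permutations of the products is at most the sum over all maps, which is the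
product of the sums: `Finset.prod_univ_sum`). -/
theorem L1_det {m : ℕ} (M : Matrix (Fin m) (Fin m) (MvPolynomial σ ℤ)) :
    L1 M.det ≤ ∏ j, ∑ i, L1 (M i j) := by
  classical
  rw [Matrix.det_apply]
  refine (L1_sum _ _).trans ?_
  have h1 : ∀ g : Equiv.Perm (Fin m), L1 (Equiv.Perm.sign g • ∏ i, M (g i) i) ≤
      ∏ i, L1 (M (g i) i) := by
    intro g
    rcases Int.units_eq_one_or (Equiv.Perm.sign g) with h | h
    · rw [h, one_smul]
      exact L1_prod _ _
    · rw [h, Units.neg_smul, one_smul, L1_neg]
      exact L1_prod _ _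
  refine (Finset.sum_le_sum fun g _ => h1 g).trans ?_
  have h2 := Finset.prod_univ_sum (fun _ : Fin m => (Finset.univ : Finset (Fin m)))
    (fun j i => L1 (M i j))
  rw [h2, Fintype.piFinset_univ]
  have hi : Set.InjOn (fun g : Equiv.Perm (Fin m) => (g : Fin m → Fin m))
      (Finset.univ : Finset (Equiv.Perm (Fin m))) := fun a _ b _ h => DFunLike.coe_injective h
  rw [← Finset.sum_image (g := fun g : Equiv.Perm (Fin m) => (g : Fin m → Fin m))
    (f := fun f : Fin m → Fin m => ∏ i, L1 (M (f i) i)) hi]
  exact Finset.sum_le_sum_of_subset_of_nonneg (Finset.subset_univ _)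
    fun f _ _ => Finset.prod_nonneg fun i _ => L1_nonneg _

theorem L1_rename {τ : Type} (f : σ → τ) (hf : Function.Injective f) (F : MvPolynomial σ ℤ) :
    L1 (rename f F) = L1 F := by
  classical
  rw [L1, support_rename_of_injective hf,
    Finset.sum_image fun a _ b _ h => Finsupp.mapDomain_injective hf h]
  refine Finset.sum_congr rfl fun i _ => ?_
  rw [coeff_rename_mapDomain f hf]

/-- If `F` has at most the degrees `d_k` and coefficients of absolute value `≤ B`, then
`L1 F ≤ ∏ (d_k + 1) B`. -/
theorem L1_le_of_coeff [Fintype σ] (F : MvPolynomial σ ℤ) (d : σ → ℕ) (hd : ∀ k, F.degreeOf k ≤ d k)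
    (B : ℝ) (hB : ∀ i, |((F.coeff i : ℤ) : ℝ)| ≤ B) : L1 F ≤ (∏ k, ((d k : ℝ) + 1)) * B := by
  classical
  have hB0 : 0 ≤ B := (abs_nonneg _).trans (hB 0)
  have h1 : L1 F ≤ F.support.card * B := by
    rw [L1]
    refine (Finset.sum_le_sum fun i _ => hB i).trans ?_
    rw [Finset.sum_const, nsmul_eq_mul]
  refine h1.trans (mul_le_mul_of_nonneg_right ?_ hB0)
  have h2 : F.support.card ≤ (Fintype.piFinset fun h => Finset.range (d h + 1)).card := by
    refine Finset.card_le_card_of_injOn (fun i h => i h) ?_ ?_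
    · intro i hi
      rw [Finset.mem_coe, Fintype.mem_piFinset]
      intro h
      rw [Finset.mem_range]
      exact Nat.lt_succ_of_le ((monomial_le_degreeOf h hi).trans (hd h))
    · intro i _ j _ hij
      exact DFunLike.coe_injective hij
  rw [Fintype.card_piFinset] at h2
  simp only [Finset.card_range] at h2
  exact_mod_cast h2

/-- The norm of a polynomial in `d + 1` variables is the sum of the norms of its coefficients with
respect to the first variable (`MvPolynomial.finSuccEquiv_coeff_coeff`,
`support` as a union of the images of the supports under `Finsupp.cons i`). -/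
theorem L1_finSucc {d : ℕ} (F : MvPolynomial (Fin (d + 1)) ℤ) (N : ℕ) (hN : F.degreeOf 0 ≤ N) :
    L1 F = ∑ i ∈ Finset.range (N + 1), L1 ((finSuccEquiv ℤ d F).coeff i) := by
  classical
  rw [L1, ← Finset.sum_fiberwise_of_maps_to (g := fun m : Fin (d + 1) →₀ ℕ => m 0)
    (t := Finset.range (N + 1))]
  · refine Finset.sum_congr rfl fun i _ => ?_
    rw [← image_support_finSuccEquiv, Finset.sum_image, L1]
    · refine Finset.sum_congr rfl fun m _ => ?_
      rw [finSuccEquiv_coeff_coeff]
    · intro a _ b _ h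
      have h1 := congrArg Finsupp.tail h
      rwa [Finsupp.tail_cons, Finsupp.tail_cons] at h1
  · intro m hm
    rw [Finset.mem_range]
    exact Nat.lt_succ_of_le ((monomial_le_degreeOf 0 hm).trans hN)

/-- The derivative: `L1 (∂F) ≤ deg F * L1 F`. -/
theorem L1_pderiv (F : MvPolynomial σ ℤ) (k : σ) : L1 (pderiv k F) ≤ F.degreeOf k * L1 F := by
  classical
  have h1 : pderiv k F = ∑ i ∈ F.support, monomial (i - Finsupp.single k 1) (F.coeff i * i k) := by
    conv_lhs => rw [← support_sum_monomial_coeff F]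
    rw [map_sum]
    exact Finset.sum_congr rfl fun i _ => pderiv_monomial
  rw [h1]
  refine (L1_sum _ _).trans ?_
  rw [L1, Finset.mul_sum]
  refine Finset.sum_le_sum fun i hi => (L1_monomial_le _ _).trans ?_
  rw [Int.cast_mul, abs_mul, mul_comm]
  refine mul_le_mul_of_nonneg_right ?_ (abs_nonneg _)
  rw [Int.cast_natCast, abs_of_nonneg (Nat.cast_nonneg _)]
  exact_mod_cast monomial_le_degreeOf k hi

end Pool.Agent.LSharp
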