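import Pool.Agent.LSharp.BRDefs
import Pool.Agent.LSharp.L1

set_option autoImplicit false

/-! BR7. From polynomials over `k = kf 𝒰 K s` to integral polynomials at the level `j`. -/

namespace Pool.Agent.LSharp

open MvPowerSeries Pool.Agent.LAll NumberField Filter

variable {J : Type} {𝒰 : Ultrafilter J} {K : J → Type} [∀ j, Field (K j)] [∀ j, NumberField (K j)]

private theorem iSup_fin_two' (f : Fin 2 → ℝ) : ⨆ i, f i = max (f 0) (f 1) := by
  apply le_antisymm
  · refine ciSup_le fun i => ?_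
    fin_cases i
    · exact le_max_left _ _
    · exact le_max_right _ _
  · exact max_le (le_ciSup (Set.finite_range f).bddAbove 0)
      (le_ciSup (Set.finite_range f).bddAbove 1)

private theorem infinitePlace_int {F : Type} [Field F] [NumberField F] (v : InfinitePlace F)
    (n : ℤ) : v (n : F) = |(n : ℝ)| := by
  rw [← InfinitePlace.norm_embedding_eq v, map_intCast, Complex.norm_intCast]

private theorem mulHeight_rat (F : Type) [Field F] [NumberField F] (a : ℚ) :
    Height.mulHeight₁ (a : F) = (max |(a.num : ℝ)| (a.den : ℝ)) ^ Module.finrank ℚ F := by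
  have hd : (a.den : F) ≠ 0 := by exact_mod_cast a.den_ne_zero
  have h1 : (a : F) = (a.num : F) / (a.den : F) := Rat.cast_def a
  let x : Fin 2 → 𝓞 F := ![(a.num : 𝓞 F), (a.den : 𝓞 F)]
  have hx : x ≠ 0 := by
    intro h
    have h2 : x 1 = 0 := congrFun h 1
    have h3 : ((a.den : 𝓞 F) : F) = 0 := by
      have h4 : (a.den : 𝓞 F) = 0 := h2
      rw [h4]
      rfl
    exact hd ((map_natCast (algebraMap (𝓞 F) F) a.den).symm.trans h3)
  have hv : ∀ i : Fin 2, (![(a.num : F), (a.den : F)] i : F) = ((x i : 𝓞 F) : F) := by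
    intro i
    fin_cases i
    · exact (map_intCast (algebraMap (𝓞 F) F) a.num).symm
    · exact (map_natCast (algebraMap (𝓞 F) F) a.den).symm
  have h2 := NumberField.absNorm_mul_finprod_finitePlace_eq_one hx
  have h3 : Ideal.span (Set.range x) = ⊤ := by
    rw [Ideal.eq_top_iff_one]
    have h4 : IsCoprime (a.num : ℤ) (a.den : ℤ) := by
      have := a.isCoprime_num_den
      exact this
    obtain ⟨u, w, huw⟩ := h4
    have h5 : (1 : 𝓞 F) = (u : 𝓞 F) * x 0 + (w : 𝓞 F) * x 1 := by
      have h6 : ((u * a.num + w * a.den : ℤ) : 𝓞 F) = 1 := by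
        rw [huw, Int.cast_one]
      rw [← h6]
      push_cast
      rfl
    rw [h5]
    exact Ideal.add_mem _ (Ideal.mul_mem_left _ _ (Ideal.subset_span ⟨0, rfl⟩))
      (Ideal.mul_mem_left _ _ (Ideal.subset_span ⟨1, rfl⟩))
  rw [h3, Ideal.absNorm_top, Nat.cast_one, one_mul] at h2
  rw [h1, Height.mulHeight₁_div_eq_mulHeight, NumberField.mulHeight_eq (by
    intro h
    exact hd (congrFun h 1))]
  simp only [hv, h2, mul_one]
  rw [← InfinitePlace.sum_mult_eq, ← Finset.prod_pow_eq_pow_sum]
  refine Finset.prod_congr rfl fun v _ => ?_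
  congr 1
  simp only [← hv]
  have h6 : ∀ i : Fin 2, v ((![(a.num : F), (a.den : F)] i : F)) =
      ![|(a.num : ℝ)|, (a.den : ℝ)] i := by
    intro i
    fin_cases i
    · exact infinitePlace_int v a.num
    · simp
  simp only [h6]
  rw [iSup_fin_two']
  rfl

private theorem exp_ht_rat (F : Type) [Field F] [NumberField F] (a : ℚ) :
    Real.exp (ht (a : F)) = max |(a.num : ℝ)| (a.den : ℝ) := by
  have h1 : (0 : ℝ) < max |(a.num : ℝ)| (a.den : ℝ) :=
    lt_max_of_lt_right (by exact_mod_cast a.den_pos)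
  have h2 : (Module.finrank ℚ F : ℝ) ≠ 0 := by
    exact_mod_cast (Module.finrank_pos (R := ℚ) (M := F)).ne'
  unfold ht
  rw [Height.logHeight₁_eq_log_mulHeight₁, mulHeight_rat, Real.log_pow, mul_comm,
    mul_div_assoc, div_self h2, mul_one, Real.exp_log h1]

/-- A rational number `a` is `m / n` with integers `|m|, n ≤ exp (ht a)` (`ht` of `a` in any number field
is the height over `ℚ`: `log max |num| den`; `NumberField` heights are compatible with extensions, or
compare directly: `logHeight₁_eq` for `K` and the product formula; or use `sum_max_lam`-like lemmas: for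
the denominator: `den a` divides..., see also `DD7719.HtRel`, `LThree` for lemmas on heights of rational
numbers in `K`; the constant in the exponent does not matter, `≤ exp (C * ht a)` with an absolute `C`
would also do). -/
theorem rat_num_den (F : Type) [Field F] [NumberField F] (a : ℚ) :
    (|(a.num : ℝ)| ≤ Real.exp (ht (a : F))) ∧ ((a.den : ℝ) ≤ Real.exp (ht (a : F))) := by
  have h0 := exp_ht_rat F a
  rw [h0]
  exact ⟨le_max_left _ _, le_max_right _ _⟩

/-- **Integral lifts of polynomials.** Finitely many polynomials over `kf 𝒰 K s` are, up to a common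
integral factor `b j`, classes of integral polynomials at the levels `j` with `ℓ¹`-norm `≤ exp (C s j)`
and the same monomials.

Proof. The finitely many coefficients `(p i).coeff m`, `m ∈ (p i).support`, are classes of families
`a_(i,m) : J → ℚ` with `ht (a_(i,m) j) ≤ C₀ max 1 (s j)` for most `j`; let `b j` be the product of all the
denominators `(a_(i,m) j).den` and `(q i j).coeff m = b j * a_(i,m) j` (an integer; `0` for `m` outside the
support: `q i j = ∑_{m ∈ (p i).support} monomial m (..)`). `rat_num_den`: with `N` the number of pairs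
`(i, m)`: `b j ≤ exp (N C₀ max 1 s)`, `|coeff| ≤ exp ((N + 1) C₀ max 1 s)`, `L1 ≤ N exp ((N+1) C₀ max 1 s) ≤
exp (C max 1 s)`. -/
theorem int_lift (s : J → ℝ) {σ I : Type} [Finite I] (p : I → MvPolynomial σ (kf 𝒰 K s)) :
    ∃ (C : ℝ) (b : J → ℤ) (q : I → J → MvPolynomial σ ℤ),
      (∀ j, b j ≠ 0) ∧ (∀ i j, (q i j).support ⊆ (p i).support) ∧
      (∀ᶠ j in (𝒰 : Filter J), |(b j : ℝ)| ≤ Real.exp (C * max 1 (s j)) ∧
        ∀ i, L1 (q i j) ≤ Real.exp (C * max 1 (s j))) ∧
      ∀ i m, Ult.mk 𝒰 K (fun j => ((b j : ℤ) : K j)) * (((p i).coeff m : kf 𝒰 K s) : Ult 𝒰 K) =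
        Ult.mk 𝒰 K (fun j => (((q i j).coeff m : ℤ) : K j)) := by
  classical
  have := Fintype.ofFinite I
  have hex : ∀ x : kf 𝒰 K s, ∃ a : J → ℚ, Ult.mk 𝒰 K (fun j => (a j : K j)) = (x : Ult 𝒰 K) ∧
      Hb 𝒰 s (fun j => (a j : K j)) := fun x => x.2
  choose a ha hb using hex
  choose C hC using hb
  let S : Finset (Σ _ : I, (σ →₀ ℕ)) := Finset.univ.sigma fun i => (p i).support
  let A : (Σ _ : I, (σ →₀ ℕ)) → J → ℚ := fun x => a ((p x.1).coeff x.2)
  let b : J → ℤ := fun j => ∏ x ∈ S, ((A x j).den : ℤ)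
  let N : (Σ _ : I, (σ →₀ ℕ)) → J → ℤ := fun x j =>
    (A x j).num * ∏ y ∈ S.erase x, ((A y j).den : ℤ)
  let q : I → J → MvPolynomial σ ℤ := fun i j =>
    ∑ m ∈ (p i).support, MvPolynomial.monomial m (N ⟨i, m⟩ j)
  have hq : ∀ i j m, (q i j).coeff m = if m ∈ (p i).support then N ⟨i, m⟩ j else 0 := by
    intro i j m
    simp only [q]
    rw [MvPolynomial.coeff_sum]
    simp only [MvPolynomial.coeff_monomial]
    rw [Finset.sum_ite_eq' (p i).support m fun m' => N ⟨i, m'⟩ j]
  have hsupp : ∀ i j, (q i j).support ⊆ (p i).support := by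
    intro i j m hm
    rw [MvPolynomial.mem_support_iff, hq] at hm
    by_contra h
    exact hm (if_neg h)
  have hS : ∀ i m, m ∈ (p i).support → (⟨i, m⟩ : Σ _ : I, (σ →₀ ℕ)) ∈ S := fun i m hm =>
    Finset.mem_sigma.2 ⟨Finset.mem_univ i, hm⟩
  refine ⟨(∑ x ∈ S, C ((p x.1).coeff x.2)) + S.card, b, q, ?_, hsupp, ?_, ?_⟩
  · intro j
    exact Finset.prod_ne_zero_iff.2 fun x _ => by exact_mod_cast (A x j).den_ne_zero
  · have h1 : ∀ᶠ j in (𝒰 : Filter J), ∀ x ∈ S, ht ((A x j : ℚ) : K j) ≤
        C ((p x.1).coeff x.2) * max 1 (s j) :=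
      (Filter.eventually_all_finset S).2 fun x _ => hC ((p x.1).coeff x.2)
    filter_upwards [h1] with j hj
    set M : ℝ := max 1 (s j) with hM
    have hM1 : 1 ≤ M := le_max_left _ _
    have hnum : ∀ x ∈ S, |((A x j).num : ℝ)| ≤ Real.exp (C ((p x.1).coeff x.2) * M) := fun x hx =>
      (rat_num_den (K j) (A x j)).1.trans (Real.exp_le_exp.2 (hj x hx))
    have hden : ∀ x ∈ S, ((A x j).den : ℝ) ≤ Real.exp (C ((p x.1).coeff x.2) * M) := fun x hx =>
      (rat_num_den (K j) (A x j)).2.trans (Real.exp_le_exp.2 (hj x hx))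
    have hcard : (S.card : ℝ) ≤ Real.exp (S.card * M) := by
      refine le_trans ?_ (Real.add_one_le_exp _)
      have h2 : (S.card : ℝ) * 1 ≤ S.card * M := mul_le_mul_of_nonneg_left hM1 (Nat.cast_nonneg _)
      linarith
    have hone : (1 : ℝ) ≤ Real.exp (S.card * M) := by
      refine Real.one_le_exp ?_
      positivity
    have hexp : Real.exp (((∑ x ∈ S, C ((p x.1).coeff x.2)) + S.card) * M) =
        (∏ x ∈ S, Real.exp (C ((p x.1).coeff x.2) * M)) * Real.exp (S.card * M) := by
      rw [← Real.exp_sum, ← Real.exp_add, add_mul, Finset.sum_mul]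
    constructor
    · rw [hexp]
      have h3 : |((b j : ℤ) : ℝ)| ≤ ∏ x ∈ S, Real.exp (C ((p x.1).coeff x.2) * M) := by
        simp only [b]
        rw [Int.cast_prod, Finset.abs_prod]
        refine Finset.prod_le_prod (fun x _ => abs_nonneg _) fun x hx => ?_
        rw [Int.cast_natCast, abs_of_nonneg (Nat.cast_nonneg _)]
        exact hden x hx
      refine h3.trans (le_mul_of_one_le_right ?_ hone)
      exact Finset.prod_nonneg fun x _ => (Real.exp_pos _).le
    · intro i
      rw [hexp, L1_eq_sum (q i j) (p i).support (hsupp i j), mul_comm]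
      have h4 : ∀ m ∈ (p i).support, |(((q i j).coeff m : ℤ) : ℝ)| ≤
          ∏ x ∈ S, Real.exp (C ((p x.1).coeff x.2) * M) := by
        intro m hm
        rw [hq, if_pos hm]
        simp only [N]
        rw [Int.cast_mul, abs_mul, Int.cast_prod, Finset.abs_prod,
          ← Finset.mul_prod_erase S _ (hS i m hm)]
        refine mul_le_mul (hnum _ (hS i m hm)) ?_ (Finset.prod_nonneg fun x _ => abs_nonneg _)
          (Real.exp_pos _).le
        refine Finset.prod_le_prod (fun x _ => abs_nonneg _) fun x hx => ?_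
        rw [Int.cast_natCast, abs_of_nonneg (Nat.cast_nonneg _)]
        exact hden x (Finset.mem_of_mem_erase hx)
      refine (Finset.sum_le_sum h4).trans ?_
      rw [Finset.sum_const, nsmul_eq_mul]
      refine mul_le_mul_of_nonneg_right ?_ (Finset.prod_nonneg fun x _ => (Real.exp_pos _).le)
      refine le_trans ?_ hcard
      have h5 : (p i).support.card ≤ S.card := by
        refine Finset.card_le_card_of_injOn (fun m => (⟨i, m⟩ : Σ _ : I, (σ →₀ ℕ)))
          (fun m hm => hS i m hm) ?_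
        intro m _ m' _ h
        simpa using h
      exact_mod_cast h5
  · intro i m
    by_cases hm : m ∈ (p i).support
    · rw [← ha ((p i).coeff m), ← map_mul]
      congr 1
      funext j
      rw [Pi.mul_apply, hq, if_pos hm]
      have h6 : b j = ((A ⟨i, m⟩ j).den : ℤ) * ∏ y ∈ S.erase ⟨i, m⟩, ((A y j).den : ℤ) :=
        (Finset.mul_prod_erase S (fun x => ((A x j).den : ℤ)) (hS i m hm)).symm
      have h7 : ((A ⟨i, m⟩ j).den : K j) ≠ 0 := by exact_mod_cast (A ⟨i, m⟩ j).den_ne_zero
      have h8 : ((a ((p i).coeff m) j : ℚ) : K j) =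
          ((A ⟨i, m⟩ j).num : K j) / ((A ⟨i, m⟩ j).den : K j) := Rat.cast_def _
      rw [h8, h6]
      simp only [N]
      rw [Int.cast_mul, Int.cast_mul, Int.cast_natCast]
      field_simp
    · rw [MvPolynomial.notMem_support_iff.1 hm, ZeroMemClass.coe_zero, mul_zero, eq_comm,
        Ult.mk_eq_zero]
      refine Filter.Eventually.of_forall fun j => ?_
      rw [hq, if_neg hm, Int.cast_zero]

/-- **Evaluation of the lifts.** `c j : K j →+* R j` ring homomorphisms. The value of `p` at elements `X`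
of the ultraproduct of the `R j`, times `b`, is the class of the values of the `q j`.

Proof. `p = ∑_{m ∈ p.support} monomial m (p.coeff m)`; both sides are sums over `p.support` (`hq`), and for
each `m` use the hypothesis (mapped by `Ult.map c`; `Ult.map_mk`, `map_intCast`) and
`∏ X_i ^ m_i = Ult.mk (fun j => ∏ (X_i.rep j) ^ m_i)` (`Ult.mk_rep`, `Ult.mk` is a ring homomorphism). -/
theorem eval_lift {R : J → Type} [∀ j, CommRing (R j)] (c : ∀ j, K j →+* R j) (s : J → ℝ) {σ : Type}
    (p : MvPolynomial σ (kf 𝒰 K s)) (b : J → ℤ) (q : J → MvPolynomial σ ℤ)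
    (hq : ∀ j, (q j).support ⊆ p.support)
    (h : ∀ m, Ult.mk 𝒰 K (fun j => ((b j : ℤ) : K j)) * ((p.coeff m : kf 𝒰 K s) : Ult 𝒰 K) =
      Ult.mk 𝒰 K (fun j => (((q j).coeff m : ℤ) : K j))) (X : σ → Ult 𝒰 R) :
    Ult.mk 𝒰 R (fun j => ((b j : ℤ) : R j)) *
        MvPolynomial.eval₂ ((Ult.map (𝒰 := 𝒰) c).comp (kf 𝒰 K s).subtype) X p =
      Ult.mk 𝒰 R (fun j => MvPolynomial.aeval (fun i => (X i).rep j) (q j)) := by
  have h1 : (fun j => MvPolynomial.aeval (fun i => (X i).rep j) (q j)) =
      ∑ d ∈ p.support, (fun j => (((q j).coeff d : ℤ) : R j)) *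
        ∏ i ∈ d.support, (X i).rep ^ d i := by
    funext j
    rw [Finset.sum_apply, MvPolynomial.aeval_def, MvPolynomial.eval₂_eq]
    rw [Finset.sum_subset (hq j)]
    · refine Finset.sum_congr rfl fun d _ => ?_
      rw [Pi.mul_apply, Finset.prod_apply]
      simp
    · intro d _ hd
      rw [MvPolynomial.notMem_support_iff.1 hd, map_zero, zero_mul]
  rw [h1, map_sum, MvPolynomial.eval₂_eq, Finset.mul_sum]
  refine Finset.sum_congr rfl fun d _ => ?_
  rw [map_mul, map_prod, ← mul_assoc]
  congr 1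
  · have h2 : Ult.mk 𝒰 R (fun j => (((q j).coeff d : ℤ) : R j)) = Ult.map (𝒰 := 𝒰) c
        (Ult.mk 𝒰 K (fun j => (((q j).coeff d : ℤ) : K j))) := by
      rw [Ult.map_mk]
      congr 1
      funext j
      rw [map_intCast]
    have h3 : Ult.mk 𝒰 R (fun j => ((b j : ℤ) : R j)) = Ult.map (𝒰 := 𝒰) c
        (Ult.mk 𝒰 K (fun j => ((b j : ℤ) : K j))) := by
      rw [Ult.map_mk]
      congr 1
      funext j
      rw [map_intCast]
    rw [h2, h3, ← h d, map_mul]
    rfl
  · refine Finset.prod_congr rfl fun i _ => ?_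
    rw [map_pow, Ult.mk_rep]

end Pool.Agent.LSharp
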