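import Pool.Agent.LSharp.BRTau0

set_option autoImplicit false

/-! BR3. The Taylor expansion on a finitely generated algebraic extension of `k(t_A)`. -/

namespace Pool.Agent.LSharp

open MvPowerSeries Filter

variable {J β : Type} {𝒰 : Ultrafilter J} {K : J → Type} [∀ j, Field (K j)] [∀ j, CharZero (K j)]

/-- the ultraproduct has characteristic zero -/
private lemma charZero_ult : CharZero (Ult 𝒰 K) := by
  refine charZero_of_inj_zero fun n hn => ?_
  have h1 : Ult.mk 𝒰 K (fun j => (n : K j)) = 0 := by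
    rw [← hn]
    exact map_natCast (Ult.mk 𝒰 K) n
  obtain ⟨j, hj⟩ := (Ult.mk_eq_zero.1 h1).exists
  exact_mod_cast hj

omit [∀ j, CharZero (K j)] in
/-- a root of an equation over the ultraproduct of the power series rings -/
private lemma exists_root (A : Set β) (n : ℕ) (c : ℕ → Ult 𝒰 (PS β K))
    (hc : ∀ i, ∀ᶠ j in (𝒰 : Filter J), (c i).rep j ∈ onlyB A) (θ : Ult 𝒰 K)
    (h0 : ∑ i ∈ Finset.range (n + 1), eps0 β K (c i) * θ ^ i = 0)
    (h1 : ∑ i ∈ Finset.range (n + 1), eps0 β K (c i) * i * θ ^ (i - 1) ≠ 0) :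
    ∃ y : Ult 𝒰 (PS β K), eps0 β K y = θ ∧ (∀ᶠ j in (𝒰 : Filter J), y.rep j ∈ onlyB A) ∧
      ∑ i ∈ Finset.range (n + 1), c i * y ^ i = 0 := by
  set Q : ∀ j, Polynomial (MvPowerSeries β (K j)) := fun j =>
    ∑ i ∈ Finset.range (n + 1), Polynomial.monomial i ((c i).rep j) with hQ
  have hmap : ∀ j, (Q j).map (constantCoeff (σ := β) (R := K j)) =
      ∑ i ∈ Finset.range (n + 1), Polynomial.monomial i (constantCoeff ((c i).rep j)) := by
    intro j
    rw [hQ, Polynomial.map_sum]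
    simp only [Polynomial.map_monomial]
  have hec : ∀ i, eps0 β K (c i) = Ult.mk 𝒰 K fun j => constantCoeff ((c i).rep j) := by
    intro i
    conv_lhs => rw [← Ult.mk_rep (c i)]
    rfl
  have e0 : ∀ᶠ j in (𝒰 : Filter J),
      ((Q j).map (constantCoeff (σ := β) (R := K j))).eval (θ.rep j) = 0 := by
    rw [← Ult.mk_eq_zero, ← h0]
    have h2 : (fun j => ((Q j).map (constantCoeff (σ := β) (R := K j))).eval (θ.rep j)) =
        ∑ i ∈ Finset.range (n + 1), (fun j => constantCoeff ((c i).rep j)) * θ.rep ^ i := by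
      funext j
      rw [hmap, Polynomial.eval_finset_sum, Finset.sum_apply]
      refine Finset.sum_congr rfl fun i _ => ?_
      rw [Polynomial.eval_monomial]
      rfl
    rw [h2, map_sum]
    refine Finset.sum_congr rfl fun i _ => ?_
    rw [map_mul, map_pow, Ult.mk_rep, hec]
  have e1 : ∀ᶠ j in (𝒰 : Filter J),
      (((Q j).map (constantCoeff (σ := β) (R := K j))).derivative).eval (θ.rep j) ≠ 0 := by
    rw [Ultrafilter.eventually_not, ← Ult.mk_eq_zero]
    have h2 : (fun j => (((Q j).map (constantCoeff (σ := β) (R := K j))).derivative).eval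
        (θ.rep j)) = ∑ i ∈ Finset.range (n + 1),
          (fun j => constantCoeff ((c i).rep j)) * (i : ∀ j, K j) * θ.rep ^ (i - 1) := by
      funext j
      rw [hmap, Polynomial.derivative_sum, Polynomial.eval_finset_sum, Finset.sum_apply]
      refine Finset.sum_congr rfl fun i _ => ?_
      rw [Polynomial.derivative_monomial, Polynomial.eval_monomial]
      rfl
    rw [h2, map_sum]
    intro h3
    apply h1
    rw [← h3]
    refine Finset.sum_congr rfl fun i _ => ?_
    rw [map_mul, map_mul, map_pow, map_natCast, Ult.mk_rep, hec]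
  have ec : ∀ᶠ j in (𝒰 : Filter J), ∀ i ∈ Finset.range (n + 1), (c i).rep j ∈ onlyB A := by
    rw [eventually_all_finset]
    exact fun i _ => hc i
  have hy : ∀ᶠ j in (𝒰 : Filter J), ∃ y : MvPowerSeries β (K j), y ∈ onlyB A ∧
      constantCoeff y = θ.rep j ∧ (Q j).eval y = 0 := by
    filter_upwards [e0, e1, ec] with j j0 j1 jc
    refine hensel A (Q j) (fun m => ?_) (θ.rep j) j0 j1
    rw [hQ]
    simp only [Polynomial.finset_sum_coeff, Polynomial.coeff_monomial]
    refine sum_mem fun i hi => ?_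
    split_ifs
    · exact jc i hi
    · exact zero_mem _
  classical
  set y : ∀ j, PS β K j := fun j => if h : ∃ y : MvPowerSeries β (K j), y ∈ onlyB A ∧
      constantCoeff y = θ.rep j ∧ (Q j).eval y = 0 then h.choose else 0 with hydef
  have hy' : ∀ᶠ j in (𝒰 : Filter J), y j ∈ onlyB A ∧
      constantCoeff (y j) = θ.rep j ∧ (Q j).eval (y j) = 0 := by
    filter_upwards [hy] with j hj
    rw [hydef]
    simp only [dif_pos hj]
    exact hj.choose_spec
  refine ⟨Ult.mk 𝒰 (PS β K) y, ?_, ?_, ?_⟩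
  · rw [eps0, Ult.map_mk]
    conv_rhs => rw [← Ult.mk_rep θ]
    rw [Ult.mk_eq_mk]
    filter_upwards [hy'] with j hj
    exact hj.2.1
  · filter_upwards [hy', Ult.rep_mk (𝒰 := 𝒰) y] with j hj hj'
    rw [hj']
    exact hj.1
  · have h2 : ∑ i ∈ Finset.range (n + 1), c i * (Ult.mk 𝒰 (PS β K) y) ^ i =
        Ult.mk 𝒰 (PS β K) (∑ i ∈ Finset.range (n + 1), (c i).rep * y ^ i) := by
      rw [map_sum]
      refine Finset.sum_congr rfl fun i _ => ?_
      rw [map_mul, map_pow, Ult.mk_rep]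
    rw [h2, Ult.mk_eq_zero]
    filter_upwards [hy'] with j hj
    rw [← hj.2.2, hQ, Polynomial.eval_finset_sum, Finset.sum_apply]
    refine Finset.sum_congr rfl fun i _ => ?_
    rw [Polynomial.eval_monomial]
    rfl

variable (𝒰 K) in
/-- the elements of the ultraproduct which only involve the variables of `A` -/
private def onlyU (A : Set β) : Subring (Ult 𝒰 (PS β K)) where
  carrier := {v | ∀ᶠ j in (𝒰 : Filter J), v.rep j ∈ onlyB A}
  zero_mem' := by
    show ∀ᶠ j in (𝒰 : Filter J), _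
    have h : Ult.mk 𝒰 (PS β K) 0 = 0 := map_zero _
    rw [← h]
    filter_upwards [Ult.rep_mk (𝒰 := 𝒰) (R := PS β K) 0] with j hj
    rw [hj]
    exact zero_mem _
  one_mem' := by
    show ∀ᶠ j in (𝒰 : Filter J), _
    have h : Ult.mk 𝒰 (PS β K) 1 = 1 := map_one _
    rw [← h]
    filter_upwards [Ult.rep_mk (𝒰 := 𝒰) (R := PS β K) 1] with j hj
    rw [hj]
    exact one_mem _
  add_mem' := by
    intro a b ha hb
    show ∀ᶠ j in (𝒰 : Filter J), _
    have h : Ult.mk 𝒰 (PS β K) (a.rep + b.rep) = a + b := by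
      rw [map_add, Ult.mk_rep, Ult.mk_rep]
    rw [← h]
    filter_upwards [Ult.rep_mk (𝒰 := 𝒰) (R := PS β K) (a.rep + b.rep), ha, hb] with j hj h1 h2
    rw [hj]
    exact add_mem h1 h2
  mul_mem' := by
    intro a b ha hb
    show ∀ᶠ j in (𝒰 : Filter J), _
    have h : Ult.mk 𝒰 (PS β K) (a.rep * b.rep) = a * b := by
      rw [map_mul, Ult.mk_rep, Ult.mk_rep]
    rw [← h]
    filter_upwards [Ult.rep_mk (𝒰 := 𝒰) (R := PS β K) (a.rep * b.rep), ha, hb] with j hj h1 h2
    rw [hj]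
    exact mul_mem h1 h2
  neg_mem' := by
    intro a ha
    show ∀ᶠ j in (𝒰 : Filter J), _
    have h : Ult.mk 𝒰 (PS β K) (-a.rep) = -a := by
      rw [map_neg, Ult.mk_rep]
    rw [← h]
    filter_upwards [Ult.rep_mk (𝒰 := 𝒰) (R := PS β K) (-a.rep), ha] with j hj h1
    rw [hj]
    exact neg_mem h1

/-- **Taylor expansion.** As `tau_base`, for a field `L` which contains `k`, the `t b`, `b ∈ A`, and a finite
set `S` of elements which are algebraic over `k(t_A)`.

Proof. Let `L₀ = Subfield.closure (k ∪ t '' A)`, `τ₀` from `tau_base`. The ultraproduct has characteristic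
`0` (`L₀` too), so the field `L = L₀(S)` (finite over `L₀`: `S` finite, algebraic elements) is generated by
one element `θ` (`Field.exists_primitive_element`); let `P : Polynomial L₀` be its minimal polynomial,
`P.eval θ = 0`, `P.derivative.eval θ ≠ 0` (separable). Let `Q = P.map τ₀`, a polynomial over
`Ult 𝒰 (PS β K)`, monic of degree `n`. Choose representatives of its coefficients (finitely many):
`Q_j : Polynomial (MvPowerSeries β (K j))`, for most `j` monic of degree `n` with coefficients in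
`onlyB A`, and `θ.rep j` is a simple root of `Q_j.map constantCoeff` for most `j` (`eps0 ∘ τ₀ = id`). `hensel`
gives `y_j`; `y = Ult.mk y_j` satisfies `Q.eval y = 0`, `eps0 y = θ`. `L` is isomorphic to
`AdjoinRoot P`; `AdjoinRoot.lift τ₀ y` is `τ`. The properties hold on `L₀` and for `θ` (a ring homomorphism
`eps0 ∘ τ` is determined by them; every element of `L` is a polynomial in `θ` over `L₀`, `onlyB A` is a
subring). Conclude with `L` = the subfield of the ultraproduct generated by `k ∪ t '' A ∪ S`. All its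
elements are algebraic over `Algebra.adjoin k (t '' A)` (algebraic over its fraction field `L₀`:
`IsAlgebraic` is transitive; `IsFractionRing.isAlgebraic_iff` or similar). -/
theorem exists_tau (k : Subfield (Ult 𝒰 K)) (A : Finset β) (t : β → Ult 𝒰 K)
    (hind : AlgebraicIndependent k (fun b : {b // b ∈ A} => t b)) (S : Finset (Ult 𝒰 K))
    (halg : ∀ x ∈ S, IsAlgebraic (Algebra.adjoin k (t '' A)) x) :
    ∃ (L : Subfield (Ult 𝒰 K)) (τ : L →+* Ult 𝒰 (PS β K)), k ≤ L ∧ (∀ b ∈ A, t b ∈ L) ∧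
      (∀ x ∈ S, x ∈ L) ∧ (∀ x : L, IsAlgebraic (Algebra.adjoin k (t '' A)) (x : Ult 𝒰 K)) ∧
      (∀ x, eps0 β K (τ x) = x) ∧ (∀ x : L, (x : Ult 𝒰 K) ∈ k → τ x = cst β K x) ∧
      (∀ b ∈ A, ∀ x : L, (x : Ult 𝒰 K) = t b → τ x = cst β K (t b) + XU K b) ∧
      ∀ x, ∀ᶠ j in (𝒰 : Filter J), (τ x).rep j ∈ onlyB (A : Set β) := by
  have : CharZero (Ult 𝒰 K) := charZero_ult
  obtain ⟨L₀, hL₀, τ₀, h1, h2, h3, h4⟩ : ∃ L₀ : Subfield (Ult 𝒰 K),
      L₀ = Subfield.closure ((k : Set (Ult 𝒰 K)) ∪ t '' A) ∧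
      ∃ τ₀ : L₀ →+* Ult 𝒰 (PS β K), (∀ x, eps0 β K (τ₀ x) = x) ∧
      (∀ x : L₀, (x : Ult 𝒰 K) ∈ k → τ₀ x = cst β K x) ∧
      (∀ b ∈ A, ∀ x : L₀, (x : Ult 𝒰 K) = t b → τ₀ x = cst β K (t b) + XU K b) ∧
      ∀ x, ∀ᶠ j in (𝒰 : Filter J), (τ₀ x).rep j ∈ onlyB (A : Set β) :=
    ⟨_, rfl, tau_base k A t hind⟩
  have hk0 : ∀ x ∈ k, x ∈ L₀ := fun x hx => by
    rw [hL₀]
    exact Subfield.subset_closure (Or.inl hx)
  have ht0 : ∀ b ∈ A, t b ∈ L₀ := fun b hb => by
    rw [hL₀]
    exact Subfield.subset_closure (Or.inr ⟨b, hb, rfl⟩)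
  -- the ring `k[t_A]`
  set R := Algebra.adjoin k (t '' (A : Set β)) with hR
  have hR0 : ∀ x ∈ R, x ∈ L₀ := by
    intro x hx
    refine Algebra.adjoin_induction (p := fun x _ => x ∈ L₀) ?_ ?_ ?_ ?_ hx
    · rintro x ⟨b, hb, rfl⟩
      exact ht0 b hb
    · intro r
      exact hk0 _ r.2
    · intro x y _ _ hx hy
      exact add_mem hx hy
    · intro x y _ _ hx hy
      exact mul_mem hx hy
  letI algR : Algebra R L₀ :=
    (RingHom.codRestrict (algebraMap R (Ult 𝒰 K)) L₀ fun x => hR0 x.1 x.2).toAlgebra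
  haveI towR : IsScalarTower R L₀ (Ult 𝒰 K) := IsScalarTower.of_algebraMap_eq fun _ => rfl
  have injR : Function.Injective (algebraMap R L₀) := by
    intro x y hxy
    exact Subtype.ext (congrArg (fun z : L₀ => (z : Ult 𝒰 K)) hxy)
  have halg0 : ∀ x ∈ L₀, IsAlgebraic R x := by
    intro x hx
    rw [hL₀] at hx
    refine Subfield.closure_induction (p := fun x _ => IsAlgebraic R x) ?_ ?_ ?_ ?_ ?_ ?_ hx
    · rintro x (hx | hx)
      · exact isAlgebraic_algebraMap (⟨x, R.algebraMap_mem ⟨x, hx⟩⟩ : R)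
      · exact isAlgebraic_algebraMap (⟨x, Algebra.subset_adjoin hx⟩ : R)
    · exact isAlgebraic_one
    · intro x y _ _ hx hy
      exact hx.add hy
    · intro x _ hx
      exact hx.neg
    · intro x _ hx
      exact hx.inv
    · intro x y _ _ hx hy
      exact hx.mul hy
  haveI algRL : Algebra.IsAlgebraic R L₀ := ⟨fun z =>
    (isAlgebraic_algebraMap_iff (R := R) (S := L₀) (A := Ult 𝒰 K)
      (algebraMap L₀ (Ult 𝒰 K)).injective).1 (halg0 _ z.2)⟩
  -- the field `L`
  set M := IntermediateField.adjoin L₀ (S : Set (Ult 𝒰 K)) with hM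
  have hint : ∀ x ∈ (S : Set (Ult 𝒰 K)), IsIntegral L₀ x := fun x hx =>
    ((halg x hx).extendScalars injR).isIntegral
  haveI : FiniteDimensional L₀ M := IntermediateField.finiteDimensional_adjoin hint
  set pb := Field.powerBasisOfFiniteOfSeparable L₀ M with hpb
  set p := minpoly L₀ pb.gen with hp
  letI : Algebra L₀ (Ult 𝒰 (PS β K)) := τ₀.toAlgebra
  have haM : ∀ z : L₀, algebraMap L₀ (Ult 𝒰 (PS β K)) z = τ₀ z := fun _ => rfl
  -- the root
  have hr0 : ∑ i ∈ Finset.range (p.natDegree + 1),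
      eps0 β K (τ₀ (p.coeff i)) * (pb.gen : Ult 𝒰 K) ^ i = 0 := by
    have h5 : Polynomial.aeval (pb.gen : Ult 𝒰 K) p = 0 := by
      have h6 := congrArg M.val (minpoly.aeval L₀ pb.gen)
      rw [← Polynomial.aeval_algHom_apply, map_zero] at h6
      exact h6
    rw [Polynomial.aeval_eq_sum_range] at h5
    rw [← h5]
    refine Finset.sum_congr rfl fun i _ => ?_
    rw [h1, Algebra.smul_def]
    rfl
  have hr1 : ∑ i ∈ Finset.range (p.natDegree + 1),
      eps0 β K (τ₀ (p.coeff i)) * i * (pb.gen : Ult 𝒰 K) ^ (i - 1) ≠ 0 := by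
    have h5 : Polynomial.aeval (pb.gen : Ult 𝒰 K) p.derivative ≠ 0 := by
      have h6 := (Algebra.IsSeparable.isSeparable L₀ pb.gen).aeval_derivative_ne_zero
        (minpoly.aeval L₀ pb.gen)
      intro h7
      have h8 : M.val (Polynomial.aeval pb.gen p.derivative) = 0 := by
        rw [← Polynomial.aeval_algHom_apply]
        exact h7
      exact h6 (Subtype.ext h8)
    intro h6
    apply h5
    rw [← h6]
    conv_lhs => rw [Polynomial.as_sum_range p]
    rw [Polynomial.derivative_sum, map_sum]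
    refine Finset.sum_congr rfl fun i _ => ?_
    rw [Polynomial.derivative_monomial, Polynomial.aeval_monomial, map_mul, map_natCast, h1]
    rfl
  obtain ⟨y, hy1, hy2, hy3⟩ := exists_root (A : Set β) p.natDegree (fun i => τ₀ (p.coeff i))
    (fun i => h4 _) (pb.gen : Ult 𝒰 K) hr0 hr1
  have hy : Polynomial.aeval y (minpoly L₀ pb.gen) = 0 := by
    rw [← hp, Polynomial.aeval_eq_sum_range, ← hy3]
    refine Finset.sum_congr rfl fun i _ => ?_
    rw [Algebra.smul_def]
    rfl
  set τ : M →ₐ[L₀] Ult 𝒰 (PS β K) := pb.lift y hy with hτ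
  have hτg : τ pb.gen = y := pb.lift_gen y hy
  have hτ0 : ∀ (x : M) (hx : (x : Ult 𝒰 K) ∈ L₀), τ x = τ₀ ⟨x, hx⟩ := by
    intro x hx
    exact τ.commutes ⟨x, hx⟩
  have hτe : ∀ x : M, eps0 β K (τ x) = x := by
    let e : Ult 𝒰 (PS β K) →ₐ[L₀] Ult 𝒰 K :=
      { eps0 β K with
        commutes' := fun z => h1 z }
    have h5 : e.comp τ = M.val := by
      apply pb.algHom_ext
      rw [AlgHom.comp_apply, hτg]
      exact hy1
    intro x
    exact DFunLike.congr_fun h5 x
  have hτo : ∀ x : M, τ x ∈ onlyU 𝒰 K (A : Set β) := by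
    intro x
    obtain ⟨f, rfl⟩ := pb.exists_eq_aeval' x
    rw [← Polynomial.aeval_algHom_apply, hτg, Polynomial.aeval_eq_sum_range]
    refine sum_mem fun i _ => ?_
    rw [Algebra.smul_def]
    exact mul_mem (h4 (f.coeff i)) (pow_mem (show y ∈ onlyU 𝒰 K (A : Set β) from hy2) _)
  refine ⟨M.toSubfield, (τ : M →+* Ult 𝒰 (PS β K)), ?_, ?_, ?_, ?_, ?_, ?_, ?_, ?_⟩
  · intro x hx
    exact M.algebraMap_mem ⟨x, hk0 x hx⟩
  · intro b hb
    exact M.algebraMap_mem ⟨t b, ht0 b hb⟩
  · intro x hx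
    exact IntermediateField.subset_adjoin L₀ _ hx
  · intro x
    have h5 : IsAlgebraic L₀ (⟨x.1, x.2⟩ : M) := Algebra.IsAlgebraic.isAlgebraic _
    have h6 : IsAlgebraic L₀ (x : Ult 𝒰 K) :=
      h5.algebraMap (A := Ult 𝒰 K)
    exact h6.restrictScalars R
  · intro x
    exact hτe x
  · intro x hx
    have h5 := hτ0 x (hk0 _ hx)
    exact h5.trans (h2 ⟨x, hk0 _ hx⟩ hx)
  · intro b hb x hx
    have hx0 : (x : Ult 𝒰 K) ∈ L₀ := by
      rw [hx]
      exact ht0 b hb
    have h5 := hτ0 x hx0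
    exact h5.trans (h3 b hb ⟨x, hx0⟩ hx)
  · intro x
    exact hτo x

end Pool.Agent.LSharp
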