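import Pool.Agent.LSharp.BRInt
import Pool.Agent.LSharp.BRTau

set_option autoImplicit false

/-! BR9. A primitive element of the function field, at the level `j`. -/

namespace Pool.Agent.LSharp

open MvPowerSeries Pool.Agent.LAll NumberField Filter

variable {J β : Type} {𝒰 : Ultrafilter J} {K : J → Type} [∀ j, Field (K j)]
  [∀ j, NumberField (K j)]

/-- Primitive element with integral (polynomial) coefficients. -/
private theorem prim_alg {k U B I : Type} [Field k] [Field U] [CharZero U] [Algebra k U] [Finite I]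
    (t : B → U) (hind : AlgebraicIndependent k t) (L : Subfield U)
    (hk : ∀ x : k, algebraMap k U x ∈ L) (ht : ∀ b, t b ∈ L) (u : I → U) (hu : ∀ i, u i ∈ L)
    (halg : ∀ i, IsAlgebraic (Algebra.adjoin k (Set.range t)) (u i)) :
    ∃ (θ : U) (_ : θ ∈ L) (Pi : Polynomial (MvPolynomial B k)) (Δ : MvPolynomial B k)
      (N : I → Polynomial (MvPolynomial B k)), 0 < Pi.natDegree ∧ Δ ≠ 0 ∧
      Pi.eval₂ (MvPolynomial.aeval (R := k) t).toRingHom θ = 0 ∧
      ∀ i, MvPolynomial.aeval (R := k) t Δ * u i =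
        (N i).eval₂ (MvPolynomial.aeval (R := k) t).toRingHom θ := by
  classical
  set φ : MvPolynomial B k →+* U := (MvPolynomial.aeval (R := k) t).toRingHom with hφd
  have hφ : Function.Injective φ := hind
  let F := FractionRing (MvPolynomial B k)
  let _ : Algebra F U := (IsFractionRing.lift (K := F) hφ).toAlgebra
  have hmap : ∀ a, algebraMap F U (algebraMap (MvPolynomial B k) F a) = φ a := fun a =>
    IsFractionRing.lift_algebraMap hφ a
  have hcomp : (algebraMap F U).comp (algebraMap (MvPolynomial B k) F) = φ :=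
    RingHom.ext hmap
  have hinj : Function.Injective (algebraMap (MvPolynomial B k) F) :=
    IsFractionRing.injective _ _
  have hφL : ∀ a, φ a ∈ L := by
    intro a
    induction a using MvPolynomial.induction_on with
    | C a =>
      have : φ (MvPolynomial.C a) = algebraMap k U a := MvPolynomial.aeval_C _ _
      rw [this]
      exact hk a
    | add p q hp hq =>
      rw [map_add]
      exact L.add_mem hp hq
    | mul_X p b hp =>
      have : φ (MvPolynomial.X b) = t b := MvPolynomial.aeval_X _ _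
      rw [map_mul, this]
      exact L.mul_mem hp (ht b)
  have hFL : ∀ x : F, algebraMap F U x ∈ L := by
    intro x
    obtain ⟨a, b, -, rfl⟩ := IsFractionRing.div_surjective (A := MvPolynomial B k) x
    rw [map_div₀, hmap, hmap]
    exact L.div_mem (hφL a) (hφL b)
  have hint : ∀ i, IsIntegral F (u i) := by
    intro i
    obtain ⟨p, hp0, hp⟩ := halg i
    let e := hind.aevalEquiv
    let g : Algebra.adjoin k (Set.range t) →+* F :=
      (algebraMap (MvPolynomial B k) F).comp e.symm.toRingEquiv.toRingHom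
    have hg : Function.Injective g := hinj.comp e.symm.injective
    have hg2 : (algebraMap F U).comp g = algebraMap (Algebra.adjoin k (Set.range t)) U := by
      refine RingHom.ext fun a => ?_
      obtain ⟨a, rfl⟩ := e.surjective a
      have h1 : g (e a) = algebraMap (MvPolynomial B k) F a := by
        change algebraMap (MvPolynomial B k) F (e.symm (e a)) = _
        rw [e.symm_apply_apply]
      rw [RingHom.comp_apply, h1, hmap]
      exact (hind.algebraMap_aevalEquiv a).symm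
    refine IsAlgebraic.isIntegral ⟨p.map g, (Polynomial.map_ne_zero_iff hg).2 hp0, ?_⟩
    rw [Polynomial.aeval_def, Polynomial.eval₂_map, hg2, ← Polynomial.aeval_def]
    exact hp
  let S : Set U := Set.range u
  have : Finite S := Set.finite_range u
  let E := IntermediateField.adjoin F S
  have hfd : FiniteDimensional F E := IntermediateField.finiteDimensional_adjoin (by
    rintro _ ⟨i, rfl⟩
    exact hint i)
  have : CharZero F := (algebraMap F U).charZero
  have hEL : ∀ x : E, (x : U) ∈ L := by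
    intro x
    have h1 : E ≤ Subfield.toIntermediateField L hFL := by
      rw [IntermediateField.adjoin_le_iff]
      rintro _ ⟨i, rfl⟩
      exact hu i
    exact h1 x.2
  let pb := Field.powerBasisOfFiniteOfSeparable F E
  have hui : ∀ i, u i ∈ E := fun i => IntermediateField.subset_adjoin F S ⟨i, rfl⟩
  choose r hr using fun i => pb.exists_eq_aeval' (⟨u i, hui i⟩ : E)
  have hθint : IsIntegral F pb.gen := IsIntegral.of_finite F pb.gen
  let pol : Option I → Polynomial F := fun o => o.elim (minpoly F pb.gen) r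
  have := Fintype.ofFinite I
  obtain ⟨D, hD⟩ : ∃ D, ∀ o, (pol o).natDegree ≤ D :=
    ⟨Finset.univ.sup fun o => (pol o).natDegree, fun o =>
      Finset.le_sup (f := fun o => (pol o).natDegree) (Finset.mem_univ o)⟩
  obtain ⟨Δ, hΔ⟩ := IsLocalization.exist_integer_multiples_of_finite
    (nonZeroDivisors (MvPolynomial B k)) (fun x : Option I × Fin (D + 1) => (pol x.1).coeff x.2)
  have hΔ0 : (Δ : MvPolynomial B k) ≠ 0 := nonZeroDivisors.coe_ne_zero Δ
  have hΔF : algebraMap (MvPolynomial B k) F Δ ≠ 0 := fun h => hΔ0 (hinj (by rw [h, map_zero]))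
  have hlift : ∀ o, ∃ q : Polynomial (MvPolynomial B k), q.map (algebraMap _ F) =
      Polynomial.C (algebraMap (MvPolynomial B k) F Δ) * pol o := by
    intro o
    rw [← Polynomial.mem_lifts, Polynomial.lifts_iff_coeff_lifts]
    intro n
    rw [Polynomial.coeff_C_mul]
    by_cases hn : n < D + 1
    · obtain ⟨a, ha⟩ := hΔ (o, ⟨n, hn⟩)
      exact ⟨a, by rw [ha, Algebra.smul_def]⟩
    · refine ⟨0, ?_⟩
      rw [Polynomial.coeff_eq_zero_of_natDegree_lt (lt_of_le_of_lt (hD o) (by omega)), mul_zero,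
        map_zero]
  choose q hq using hlift
  have hev : ∀ o, (q o).eval₂ φ (pb.gen : U) =
      φ Δ * ((Polynomial.aeval pb.gen (pol o) : E) : U) := by
    intro o
    rw [← hcomp, ← Polynomial.eval₂_map, hq, Polynomial.eval₂_mul, Polynomial.eval₂_C,
      RingHom.comp_apply]
    congr 1
    exact Polynomial.aeval_algHom_apply E.val pb.gen (pol o)
  refine ⟨pb.gen, hEL _, q none, Δ, fun i => q (some i), ?_, hΔ0, ?_, fun i => ?_⟩
  · have h1 : (q none).natDegree = (minpoly F pb.gen).natDegree := by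
      rw [← Polynomial.natDegree_map_eq_of_injective hinj, hq,
        Polynomial.natDegree_C_mul hΔF]
      rfl
    rw [h1]
    exact minpoly.natDegree_pos hθint
  · rw [hev]
    have h1 : Polynomial.aeval pb.gen (pol none) = 0 := minpoly.aeval F pb.gen
    rw [h1]
    simp
  · rw [hev]
    have h1 : (⟨u i, hui i⟩ : E) = Polynomial.aeval pb.gen (pol (some i)) := hr i
    rw [← h1]
    rfl

private noncomputable def mkp {β : Type} {D : ℕ} (a : Fin (D + 1) → MvPolynomial β ℤ) :
    Polynomial (MvPolynomial β ℤ) := ∑ n : Fin (D + 1), Polynomial.monomial (n : ℕ) (a n)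

private theorem mkp_coeff {β : Type} {D : ℕ} (a : Fin (D + 1) → MvPolynomial β ℤ) (n : ℕ) :
    (mkp a).coeff n = if h : n < D + 1 then a ⟨n, h⟩ else 0 := by
  classical
  unfold mkp
  rw [Polynomial.finsetSum_coeff]
  simp only [Polynomial.coeff_monomial]
  split_ifs with h
  · rw [Finset.sum_eq_single (⟨n, h⟩ : Fin (D + 1))]
    · rw [if_pos rfl]
    · intro m _ hm
      rw [if_neg]
      intro h'
      exact hm (Fin.ext h')
    · intro h'
      exact absurd (Finset.mem_univ _) h'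
  · refine Finset.sum_eq_zero fun m _ => ?_
    rw [if_neg]
    intro h'
    exact h (h' ▸ m.2)

private theorem mkp_natDegree {β : Type} {D : ℕ} (a : Fin (D + 1) → MvPolynomial β ℤ) :
    (mkp a).natDegree ≤ D := by
  refine Polynomial.natDegree_le_iff_coeff_eq_zero.2 fun n hn => ?_
  rw [mkp_coeff, dif_neg (by omega)]

private theorem mkp_eval {β S : Type} [CommRing S] {D : ℕ} (a : Fin (D + 1) → MvPolynomial β ℤ)
    (f : MvPolynomial β ℤ →+* S) (x : S) :
    (mkp a).eval₂ f x = ∑ n : Fin (D + 1), f (a n) * x ^ (n : ℕ) := by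
  unfold mkp
  rw [Polynomial.eval₂_finsetSum]
  refine Finset.sum_congr rfl fun n _ => ?_
  rw [Polynomial.eval₂_monomial]

/-- **Primitive element.** `k = kf 𝒰 K s ≤ L`, the `t b`, `b ∈ A`, algebraically independent over `k`,
`u : I → L` finitely many elements algebraic over `k(t_A)`. For most `j` there are a power series `Θ`, and
integral polynomials: `Π` in `T_b` (`b ∈ A`) and `Z`, of positive degree in `Z`, `Δ ≠ 0` in `T_b`, `N_i` in
`T_b` and `Z`, with `Π(t + ζ, Θ) = 0`, `Δ(t + ζ) u_i(ζ) = N_i(t + ζ, Θ)`, all of degrees `≤ D` and with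
`ℓ¹`-norms of the coefficients `≤ exp (D max 1 s)`.

Proof. Let `L₀ = k(t_A)`; `L₁ = L₀(u_i)` is finite over `L₀` (characteristic `0`), `θ` a primitive element
(`Field.exists_primitive_element`), which may be chosen in `L` (it is a polynomial in the `u_i` over
`L₀`; `L₁ ≤ L`). The minimal polynomial of `θ` over `L₀`, and `u_i = ∑_n r_(i,n) θ ^ n`, `r_(i,n) ∈ L₀`; every
element of `L₀` is a quotient of two values of polynomials in `k[T_A]`; a common denominator gives
`Π ∈ k[T_A][Z]`, `Δ ∈ k[T_A]`, `N_i ∈ k[T_A][Z]` with `Π(t, θ) = 0`, `Δ(t) u_i = N_i(t, θ)`, `Δ ≠ 0`,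
`natDegree Π ≥ 1` (the leading coefficient of `Π` is a nonzero polynomial). Apply `τ`, and `int_lift` to
the finitely many coefficients (polynomials in `MvPolynomial β k` with variables in `A`) of `Π`, `Δ`, `N_i` with
the common factor `b`; `eval_lift`; `b` and the coefficients that are nonzero in `k` are nonzero at most
levels. `Θ = (τ θ).rep j`. -/
theorem rel_primitive (s : J → ℝ) (A : Finset β) (t : β → Ult 𝒰 K)
    (hind : AlgebraicIndependent (kf 𝒰 K s) (fun b : {b // b ∈ A} => t b))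
    (L : Subfield (Ult 𝒰 K)) (τ : L →+* Ult 𝒰 (PS β K)) (hkL : kf 𝒰 K s ≤ L)
    (htL : ∀ b ∈ A, t b ∈ L) (h2 : ∀ x : L, (x : Ult 𝒰 K) ∈ kf 𝒰 K s → τ x = cst β K x)
    (h3 : ∀ b ∈ A, ∀ x : L, (x : Ult 𝒰 K) = t b → τ x = cst β K (t b) + XU K b)
    {I : Type} [Finite I] (u : I → L)
    (halg : ∀ i, IsAlgebraic (Algebra.adjoin (kf 𝒰 K s) (t '' A)) (u i : Ult 𝒰 K)) :
    ∃ D : ℕ, ∀ᶠ j in (𝒰 : Filter J), ∃ (Θ : MvPowerSeries β (K j))
      (Pi : Polynomial (MvPolynomial β ℤ)) (Δ : MvPolynomial β ℤ)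
      (N : I → Polynomial (MvPolynomial β ℤ)),
      0 < Pi.natDegree ∧ Pi.natDegree ≤ D ∧ Δ ≠ 0 ∧ (∀ i, (N i).natDegree ≤ D) ∧
      (∀ q ∈ ({q | q = Δ ∨ (∃ n, q = Pi.coeff n) ∨ ∃ i n, q = (N i).coeff n} :
          Set (MvPolynomial β ℤ)),
        (∀ b ∈ q.vars, b ∈ A) ∧ q.totalDegree ≤ D ∧ L1 q ≤ Real.exp (D * max 1 (s j))) ∧
      Pi.eval₂ (MvPolynomial.aeval (R := ℤ) fun b =>
        (MvPowerSeries.C ((t b).rep j) + MvPowerSeries.X b : MvPowerSeries β (K j))).toRingHom Θ = 0 ∧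
      ∀ i, MvPolynomial.aeval (fun b =>
          (MvPowerSeries.C ((t b).rep j) + MvPowerSeries.X b : MvPowerSeries β (K j))) Δ *
            (τ (u i)).rep j =
        (N i).eval₂ (MvPolynomial.aeval (R := ℤ) fun b =>
          (MvPowerSeries.C ((t b).rep j) + MvPowerSeries.X b : MvPowerSeries β (K j))).toRingHom
            Θ := by
  classical
  have hk : ∀ x : kf 𝒰 K s, algebraMap (kf 𝒰 K s) (Ult 𝒰 K) x ∈ L := fun x => hkL x.2
  have hrange : Set.range (fun b : {b // b ∈ A} => t b) = t '' A := by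
    ext x
    constructor
    · rintro ⟨b, rfl⟩
      exact ⟨b, b.2, rfl⟩
    · rintro ⟨b, hb, rfl⟩
      exact ⟨⟨b, hb⟩, rfl⟩
  obtain ⟨θ, hθL, P, Δ, N, hP, hΔ, hP0, hN⟩ := prim_alg (fun b : {b // b ∈ A} => t b) hind L hk
    (fun b => htL b b.2) (fun i => (u i : Ult 𝒰 K)) (fun i => (u i).2)
    (by rw [hrange]; exact halg)
  -- the homomorphisms
  let φL : MvPolynomial {b // b ∈ A} (kf 𝒰 K s) →+* L :=
    MvPolynomial.eval₂Hom (Subfield.inclusion hkL) (fun b => ⟨t b, htL b b.2⟩)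
  have hφL : L.subtype.comp φL =
      (MvPolynomial.aeval (R := kf 𝒰 K s) (fun b : {b // b ∈ A} => t b)).toRingHom := by
    refine MvPolynomial.ringHom_ext (fun a => ?_) (fun b => ?_)
    · have h1 : φL (MvPolynomial.C a) = Subfield.inclusion hkL a := MvPolynomial.eval₂Hom_C _ _ _
      have h4 : (MvPolynomial.aeval (R := kf 𝒰 K s) (fun b : {b // b ∈ A} => t b)).toRingHom
          (MvPolynomial.C a) = algebraMap _ _ a := MvPolynomial.aeval_C _ _
      rw [RingHom.comp_apply, h1, h4]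
      rfl
    · have h1 : φL (MvPolynomial.X b) = ⟨t b, htL b b.2⟩ := MvPolynomial.eval₂Hom_X' _ _ _
      have h4 : (MvPolynomial.aeval (R := kf 𝒰 K s) (fun b : {b // b ∈ A} => t b)).toRingHom
          (MvPolynomial.X b) = t b := MvPolynomial.aeval_X _ _
      rw [RingHom.comp_apply, h1, h4]
      rfl
  let ρ : MvPolynomial {b // b ∈ A} (kf 𝒰 K s) →+* MvPolynomial β (kf 𝒰 K s) :=
    (MvPolynomial.rename (R := kf 𝒰 K s) (Subtype.val : {b // b ∈ A} → β)).toRingHom
  have hρi : Function.Injective ρ := MvPolynomial.rename_injective _ Subtype.val_injective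
  let XX : β → Ult 𝒰 (PS β K) := fun b => cst β K (t b) + XU K b
  let ψ : MvPolynomial β (kf 𝒰 K s) →+* Ult 𝒰 (PS β K) :=
    MvPolynomial.eval₂Hom ((cst β K).comp (kf 𝒰 K s).subtype) XX
  have hτ : τ.comp φL = ψ.comp ρ := by
    refine MvPolynomial.ringHom_ext (fun a => ?_) (fun b => ?_)
    · have e1 : φL (MvPolynomial.C a) = Subfield.inclusion hkL a := MvPolynomial.eval₂Hom_C _ _ _
      have e2 : ρ (MvPolynomial.C a) = MvPolynomial.C a := MvPolynomial.rename_C _ _
      have e3 : ψ (MvPolynomial.C a) = cst β K a := MvPolynomial.eval₂Hom_C _ _ _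
      rw [RingHom.comp_apply, RingHom.comp_apply, e1, e2, e3]
      exact h2 _ a.2
    · have e1 : φL (MvPolynomial.X b) = ⟨t b, htL b b.2⟩ := MvPolynomial.eval₂Hom_X' _ _ _
      have e2 : ρ (MvPolynomial.X b) = MvPolynomial.X (b : β) := MvPolynomial.rename_X _ _
      have e3 : ψ (MvPolynomial.X (b : β)) = cst β K (t b) + XU K (b : β) :=
        MvPolynomial.eval₂Hom_X' _ _ _
      rw [RingHom.comp_apply, RingHom.comp_apply, e1, e2, e3]
      exact h3 b b.2 _ rfl
  let θL : L := ⟨θ, hθL⟩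
  have hsub : ∀ p : Polynomial (MvPolynomial {b // b ∈ A} (kf 𝒰 K s)),
      ((p.eval₂ φL θL : L) : Ult 𝒰 K) = p.eval₂
        (MvPolynomial.aeval (R := kf 𝒰 K s) (fun b : {b // b ∈ A} => t b)).toRingHom θ := by
    intro p
    rw [← hφL]
    exact Polynomial.hom_eval₂ p φL L.subtype θL
  have hτe : ∀ p : Polynomial (MvPolynomial {b // b ∈ A} (kf 𝒰 K s)),
      τ (p.eval₂ φL θL) = p.eval₂ (ψ.comp ρ) (τ θL) := by
    intro p
    rw [← hτ]
    exact Polynomial.hom_eval₂ p φL τ θL
  have hrelP : P.eval₂ (ψ.comp ρ) (τ θL) = 0 := by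
    rw [← hτe]
    have h1 : P.eval₂ φL θL = 0 := by
      apply Subtype.ext
      rw [hsub, hP0]
      rfl
    rw [h1, map_zero]
  have hrelN : ∀ i, ψ (ρ Δ) * τ (u i) = (N i).eval₂ (ψ.comp ρ) (τ θL) := by
    intro i
    rw [← hτe]
    have h1 : (N i).eval₂ φL θL = φL Δ * u i := by
      apply Subtype.ext
      rw [hsub, ← hN i]
      have h4 : ((φL Δ : L) : Ult 𝒰 K) =
          MvPolynomial.aeval (R := kf 𝒰 K s) (fun b : {b // b ∈ A} => t b) Δ :=
        RingHom.congr_fun hφL Δ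
      rw [← h4]
      rfl
    have h5 : τ (φL Δ) = ψ (ρ Δ) := RingHom.congr_fun hτ Δ
    rw [h1, map_mul, h5]
  -- the finite family of polynomials
  have := Fintype.ofFinite I
  let pol : Option I → Polynomial (MvPolynomial {b // b ∈ A} (kf 𝒰 K s)) := fun o => o.elim P N
  obtain ⟨D₀, hD₀⟩ : ∃ D, ∀ o, (pol o).natDegree ≤ D :=
    ⟨Finset.univ.sup fun o => (pol o).natDegree, fun o =>
      Finset.le_sup (f := fun o => (pol o).natDegree) (Finset.mem_univ o)⟩
  let p : Option (Option I × Fin (D₀ + 1)) → MvPolynomial β (kf 𝒰 K s) := fun x =>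
    x.elim (ρ Δ) fun y => ρ ((pol y.1).coeff y.2)
  have hpvars : ∀ x, ∀ b ∈ (p x).vars, b ∈ A := by
    have h1 : ∀ a : MvPolynomial {b // b ∈ A} (kf 𝒰 K s), ∀ b ∈ (ρ a).vars, b ∈ A := by
      intro a b hb
      have h4 := MvPolynomial.vars_rename (Subtype.val : {b // b ∈ A} → β) a hb
      obtain ⟨c, -, rfl⟩ := Finset.mem_image.1 h4
      exact c.2
    intro x
    cases x with
    | none => exact h1 _
    | some y => exact h1 _
  obtain ⟨C, b, q, hb, hsupp, hbd, hrel⟩ := int_lift s p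
  have hqvars : ∀ x j, ∀ c ∈ (q x j).vars, c ∈ A := by
    intro x j c hc
    obtain ⟨m, hm, hcm⟩ := (MvPolynomial.mem_vars_iff_mem_support c).1 hc
    exact hpvars x c ((MvPolynomial.mem_vars_iff_mem_support c).2 ⟨m, hsupp x j hm, hcm⟩)
  have hqdeg : ∀ x j, (q x j).totalDegree ≤ (p x).totalDegree := fun x j =>
    Finset.sup_mono (hsupp x j)
  have hmkb : Ult.mk 𝒰 K (fun j => ((b j : ℤ) : K j)) ≠ 0 := by
    intro h
    obtain ⟨j, hj⟩ := (Ult.mk_eq_zero.1 h).exists
    exact hb j (by exact_mod_cast hj)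
  have hne : ∀ x, p x ≠ 0 → ∀ᶠ j in (𝒰 : Filter J), q x j ≠ 0 := by
    intro x hx
    obtain ⟨m, hm⟩ := MvPolynomial.ne_zero_iff.1 hx
    rw [Ultrafilter.eventually_not]
    intro hcon
    have h4 : Ult.mk 𝒰 K (fun j => (((q x j).coeff m : ℤ) : K j)) = 0 := by
      rw [Ult.mk_eq_zero]
      filter_upwards [hcon] with j hj
      rw [hj, MvPolynomial.coeff_zero, Int.cast_zero]
    rw [← hrel x m] at h4
    rcases mul_eq_zero.1 h4 with h5 | h5
    · exact hmkb h5
    · exact hm (Subtype.ext h5)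
  -- the values
  let Y : ∀ j, β → MvPowerSeries β (K j) := fun j c =>
    MvPowerSeries.C ((t c).rep j) + MvPowerSeries.X c
  have hXX : ∀ c, XX c = Ult.mk 𝒰 (PS β K) (fun j => Y j c) := by
    intro c
    have e1 : cst β K (t c) = Ult.mk 𝒰 (PS β K) (fun j => MvPowerSeries.C ((t c).rep j)) := by
      conv_lhs => rw [← Ult.mk_rep (t c)]
      rfl
    change cst β K (t c) + XU K c = _
    rw [e1]
    exact (map_add (Ult.mk 𝒰 (PS β K)) _ _).symm
  have hYev : ∀ᶠ j in (𝒰 : Filter J), ∀ c ∈ A, (XX c).rep j = Y j c := by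
    rw [Filter.eventually_all_finset]
    intro c _
    rw [hXX]
    exact Ult.rep_mk _
  have hval : ∀ x, Ult.mk 𝒰 (PS β K) (fun j => ((b j : ℤ) : PS β K j)) * ψ (p x) =
      Ult.mk 𝒰 (PS β K) (fun j => MvPolynomial.aeval (R := ℤ) (Y j) (q x j)) := by
    intro x
    have h4 := eval_lift (𝒰 := 𝒰) (K := K) (R := PS β K) (fun j => MvPowerSeries.C) s (p x) b
      (q x) (hsupp x) (hrel x) XX
    refine h4.trans ?_
    rw [Ult.mk_eq_mk]
    filter_upwards [hYev] with j hj
    exact MvPolynomial.eval₂Hom_congr' (RingHom.ext_int _ _)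
      (fun c hc _ => hj c (hqvars x j c hc)) rfl
  let Θ : ∀ j, MvPowerSeries β (K j) := (τ θL).rep
  have hΘ : τ θL = Ult.mk 𝒰 (PS β K) Θ := (Ult.mk_rep _).symm
  have hevo : ∀ o, Ult.mk 𝒰 (PS β K) (fun j => ((b j : ℤ) : PS β K j)) *
      (pol o).eval₂ (ψ.comp ρ) (τ θL) = Ult.mk 𝒰 (PS β K) (fun j =>
        (mkp fun n => q (some (o, n)) j).eval₂ (MvPolynomial.aeval (R := ℤ) (Y j)).toRingHom
          (Θ j)) := by
    intro o
    rw [Polynomial.eval₂_eq_sum_range' (ψ.comp ρ) (lt_of_le_of_lt (hD₀ o) (Nat.lt_succ_self _)),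
      Finset.sum_range, Finset.mul_sum]
    have e1 : ∀ n : Fin (D₀ + 1), Ult.mk 𝒰 (PS β K) (fun j => ((b j : ℤ) : PS β K j)) *
        ((ψ.comp ρ) ((pol o).coeff n) * τ θL ^ (n : ℕ)) = Ult.mk 𝒰 (PS β K) (fun j =>
          MvPolynomial.aeval (R := ℤ) (Y j) (q (some (o, n)) j) * Θ j ^ (n : ℕ)) := by
      intro n
      have e2 := hval (some (o, n))
      have e3 : (ψ.comp ρ) ((pol o).coeff n) = ψ (p (some (o, n))) := rfl
      rw [← mul_assoc, e3, e2, hΘ, ← map_pow, ← map_mul]
      rfl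
    rw [Finset.sum_congr rfl fun n _ => e1 n, ← map_sum]
    congr 1
    funext j
    rw [mkp_eval, Finset.sum_apply]
    rfl
  have hfinP : ∀ᶠ j in (𝒰 : Filter J), (mkp fun n => q (some (none, n)) j).eval₂
      (MvPolynomial.aeval (R := ℤ) (Y j)).toRingHom (Θ j) = 0 := by
    rw [← Ult.mk_eq_zero (R := PS β K), ← hevo none]
    have e1 : (pol none).eval₂ (ψ.comp ρ) (τ θL) = 0 := hrelP
    rw [e1, mul_zero]
  have hfinN : ∀ᶠ j in (𝒰 : Filter J), ∀ i, MvPolynomial.aeval (R := ℤ) (Y j) (q none j) *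
      (τ (u i)).rep j = (mkp fun n => q (some (some i, n)) j).eval₂
        (MvPolynomial.aeval (R := ℤ) (Y j)).toRingHom (Θ j) := by
    rw [Filter.eventually_all]
    intro i
    rw [← Ult.mk_eq_mk (R := PS β K), ← hevo (some i)]
    have e1 : (pol (some i)).eval₂ (ψ.comp ρ) (τ θL) = ψ (p none) * τ (u i) := (hrelN i).symm
    rw [e1, ← mul_assoc, hval none]
    conv_rhs => rw [← Ult.mk_rep (τ (u i)), ← map_mul]
    rfl
  have hneΔ : ∀ᶠ j in (𝒰 : Filter J), q none j ≠ 0 := by
    refine hne none fun h => hΔ (hρi ?_)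
    rw [map_zero]
    exact h
  have hdP : P.natDegree < D₀ + 1 := lt_of_le_of_lt (hD₀ none) (Nat.lt_succ_self _)
  have hneP : ∀ᶠ j in (𝒰 : Filter J), q (some (none, ⟨P.natDegree, hdP⟩)) j ≠ 0 := by
    refine hne _ fun h => ?_
    have h4 : ρ (P.coeff P.natDegree) = ρ 0 := by
      rw [map_zero]
      exact h
    have h5 := hρi h4
    have h6 : P = 0 := Polynomial.leadingCoeff_eq_zero.1 h5
    rw [h6, Polynomial.natDegree_zero] at hP
    exact lt_irrefl 0 hP
  -- the constant
  obtain ⟨T, hT⟩ : ∃ T, ∀ x, (p x).totalDegree ≤ T :=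
    ⟨Finset.univ.sup fun x => (p x).totalDegree, fun x =>
      Finset.le_sup (f := fun x => (p x).totalDegree) (Finset.mem_univ x)⟩
  refine ⟨D₀ + T + ⌈C⌉₊, ?_⟩
  filter_upwards [hbd, hfinP, hfinN, hneΔ, hneP] with j g1 g2 g3 g4 g5
  refine ⟨Θ j, mkp fun n => q (some (none, n)) j, q none j,
    fun i => mkp fun n => q (some (some i, n)) j, ?_, ?_, g4, ?_, ?_, g2, g3⟩
  · refine lt_of_lt_of_le hP (Polynomial.le_natDegree_of_ne_zero ?_)
    rw [mkp_coeff, dif_pos hdP]
    exact g5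
  · exact (mkp_natDegree _).trans (by omega)
  · intro i
    exact (mkp_natDegree _).trans (by omega)
  · have hone : ∀ x, (∀ c ∈ (q x j).vars, c ∈ A) ∧ (q x j).totalDegree ≤ D₀ + T + ⌈C⌉₊ ∧
        L1 (q x j) ≤ Real.exp ((D₀ + T + ⌈C⌉₊ : ℕ) * max 1 (s j)) := by
      intro x
      refine ⟨hqvars x j, (hqdeg x j).trans ((hT x).trans (by omega)), (g1.2 x).trans ?_⟩
      refine Real.exp_le_exp.2 (mul_le_mul_of_nonneg_right ?_ (le_max_of_le_left zero_le_one))
      refine (Nat.le_ceil C).trans ?_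
      exact_mod_cast (by omega : ⌈C⌉₊ ≤ D₀ + T + ⌈C⌉₊)
    have hzero : (∀ c ∈ (0 : MvPolynomial β ℤ).vars, c ∈ A) ∧
        (0 : MvPolynomial β ℤ).totalDegree ≤ D₀ + T + ⌈C⌉₊ ∧
        L1 (0 : MvPolynomial β ℤ) ≤ Real.exp ((D₀ + T + ⌈C⌉₊ : ℕ) * max 1 (s j)) := by
      refine ⟨fun c hc => ?_, ?_, ?_⟩
      · rw [MvPolynomial.vars_0] at hc
        exact absurd hc (Finset.notMem_empty c)
      · rw [MvPolynomial.totalDegree_zero]
        exact Nat.zero_le _
      · unfold L1
        rw [MvPolynomial.support_zero, Finset.sum_empty]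
        exact (Real.exp_pos _).le
    have hco : ∀ o n, (∀ c ∈ ((mkp fun n => q (some (o, n)) j).coeff n).vars, c ∈ A) ∧
        ((mkp fun n => q (some (o, n)) j).coeff n).totalDegree ≤ D₀ + T + ⌈C⌉₊ ∧
        L1 ((mkp fun n => q (some (o, n)) j).coeff n) ≤
          Real.exp ((D₀ + T + ⌈C⌉₊ : ℕ) * max 1 (s j)) := by
      intro o n
      rw [mkp_coeff]
      split_ifs with h
      · exact hone _
      · exact hzero
    rintro r (rfl | ⟨n, rfl⟩ | ⟨i, n, rfl⟩)
    · exact hone none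
    · exact hco none n
    · exact hco (some i) n

end Pool.Agent.LSharp
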