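import Pool.Agent.LSharp.BRInt
import Pool.Agent.LSharp.BRTau

set_option autoImplicit false

/-! BR8. Integral relations at the level `j`. -/

namespace Pool.Agent.LSharp

open MvPowerSeries Pool.Agent.LAll NumberField Filter

variable {J β : Type} {𝒰 : Ultrafilter J} {K : J → Type} [∀ j, Field (K j)]
  [∀ j, NumberField (K j)]

/-- The lift of a polynomial over a subfield of the ultraproduct to the level `j`. -/
private noncomputable def lvl {k : Subfield (Ult 𝒰 K)} {σ : Type} (P : MvPolynomial σ k) (j : J) :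
    MvPolynomial σ (K j) :=
  ∑ m ∈ P.support, MvPolynomial.monomial m (((P.coeff m : k) : Ult 𝒰 K).rep j)

omit [∀ j, NumberField (K j)] in
private theorem lvl_coeff {k : Subfield (Ult 𝒰 K)} {σ : Type} (P : MvPolynomial σ k) (j : J)
    (m : σ →₀ ℕ) (hm : m ∈ P.support) :
    (lvl P j).coeff m = ((P.coeff m : k) : Ult 𝒰 K).rep j := by
  classical
  unfold lvl
  rw [MvPolynomial.coeff_sum, Finset.sum_eq_single m]
  · rw [MvPolynomial.coeff_monomial, if_pos rfl]
  · intro b _ hb
    rw [MvPolynomial.coeff_monomial, if_neg hb]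
  · intro h
    exact absurd hm h

omit [∀ j, NumberField (K j)] in
private theorem lvl_support {k : Subfield (Ult 𝒰 K)} {σ : Type} (P : MvPolynomial σ k) (j : J) :
    (lvl P j).support ⊆ P.support := by
  classical
  unfold lvl
  intro m hm
  have h1 := MvPolynomial.support_sum hm
  rw [Finset.mem_biUnion] at h1
  obtain ⟨m', h2, h3⟩ := h1
  have h4 := MvPolynomial.support_monomial_subset h3
  rw [Finset.mem_singleton] at h4
  rw [h4]
  exact h2

omit [∀ j, NumberField (K j)] in
private theorem lvl_eval {R : J → Type} [∀ j, CommRing (R j)] (c : ∀ j, K j →+* R j)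
    {k : Subfield (Ult 𝒰 K)} {σ : Type} (P : MvPolynomial σ k) (X : σ → Ult 𝒰 R) :
    MvPolynomial.eval₂ ((Ult.map (𝒰 := 𝒰) c).comp k.subtype) X P =
      Ult.mk 𝒰 R (fun j => MvPolynomial.eval₂ (c j) (fun i => (X i).rep j) (lvl P j)) := by
  classical
  have h1 : (fun j => MvPolynomial.eval₂ (c j) (fun i => (X i).rep j) (lvl P j)) =
      ∑ m ∈ P.support, (fun j => c j (((P.coeff m : k) : Ult 𝒰 K).rep j)) *
        ∏ i ∈ m.support, (X i).rep ^ m i := by
    funext j
    rw [Finset.sum_apply]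
    unfold lvl
    rw [MvPolynomial.eval₂_sum]
    refine Finset.sum_congr rfl fun m _ => ?_
    rw [MvPolynomial.eval₂_monomial, Pi.mul_apply, Finset.prod_apply]
    rfl
  rw [h1, map_sum, MvPolynomial.eval₂_eq]
  refine Finset.sum_congr rfl fun m _ => ?_
  rw [map_mul, map_prod]
  congr 1
  · rw [← Ult.map_mk c, Ult.mk_rep]
    rfl
  · refine Finset.prod_congr rfl fun i _ => ?_
    rw [map_pow, Ult.mk_rep]

/-- **Relations of integral elements.** `k = kf 𝒰 K s ≤ L`, `τ : L → Ult 𝒰 (PS β K)` a ring homomorphism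
with `τ = cst` on `k`, `u : L` integral over the `k`-algebra generated by the `y i`, `i : T` (in the
ultraproduct). Then for every large `D` and most `j` the power series `u(ζ) = (τ u).rep j`,
`y_i(ζ) = (τ (y i)).rep j` satisfy `b u(ζ)^D = ∑_{i < D} p_i(y(ζ)) u(ζ)^i` with an integer `b ≠ 0` and
integral polynomials `p_i` of degree `≤ D` and with `|b|`, `L1 p_i ≤ exp (D max 1 s)`.

Proof. `u ^ n = ∑_{i < n} f_i u ^ i`, `f_i ∈ Algebra.adjoin k (range y)`, so
`f_i = aeval y P_i`, `P_i : MvPolynomial T k` (`Algebra.adjoin_range_eq_range_aeval`). Apply `τ` (the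
identity holds in `L`: `Subtype.ext`): `(τ u) ^ n = ∑ eval₂ (cst ∘ subtype) (τ ∘ y) P_i * (τ u) ^ i`. Multiply
by the class of `b j` from `int_lift` and use `eval_lift` (`cst = Ult.map (fun _ => C)`); for most `j`:
`b j u(ζ)^n = ∑_{i < n} aeval y(ζ) (q_i) u(ζ)^i`. For `D ≥ n` multiply by `u(ζ)^(D - n)` (shift of the
indices), `D ≥` the total degrees of the `P_i` (supports!) and `D ≥ C` of `int_lift`. -/
theorem rel_integral (s : J → ℝ) (L : Subfield (Ult 𝒰 K)) (τ : L →+* Ult 𝒰 (PS β K))
    (hkL : kf 𝒰 K s ≤ L) (h2 : ∀ x : L, (x : Ult 𝒰 K) ∈ kf 𝒰 K s → τ x = cst β K x)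
    {T : Type} [Finite T] (y : T → L) (u : L)
    (hu : IsIntegral (Algebra.adjoin (kf 𝒰 K s) (Set.range fun i => (y i : Ult 𝒰 K)))
      (u : Ult 𝒰 K)) :
    ∃ D₀ : ℕ, ∀ D, D₀ ≤ D → ∀ᶠ j in (𝒰 : Filter J), ∃ b : ℤ, b ≠ 0 ∧
      |(b : ℝ)| ≤ Real.exp (D * max 1 (s j)) ∧ ∃ p : Fin D → MvPolynomial T ℤ,
        (∀ i, (p i).totalDegree ≤ D ∧ L1 (p i) ≤ Real.exp (D * max 1 (s j))) ∧
        (b : MvPowerSeries β (K j)) * (τ u).rep j ^ D =
          ∑ i, MvPolynomial.aeval (fun i => (τ (y i)).rep j) (p i) * (τ u).rep j ^ (i : ℕ) := by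
  classical
  obtain ⟨P, hPm, hP⟩ := hu
  have hsub : ∀ a : Algebra.adjoin (kf 𝒰 K s) (Set.range fun i => (y i : Ult 𝒰 K)),
      ∃ Q : MvPolynomial T (kf 𝒰 K s),
        MvPolynomial.aeval (fun i => (y i : Ult 𝒰 K)) Q = (a : Ult 𝒰 K) := by
    rintro ⟨x, hx⟩
    rw [Algebra.adjoin_range_eq_range_aeval] at hx
    exact hx
  choose Q hQ using hsub
  set n := P.natDegree with hn
  set q0 : Fin n → MvPolynomial T (kf 𝒰 K s) := fun i => Q (-(P.coeff i)) with hq0
  -- the equation in the ultraproduct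
  have heq : (u : Ult 𝒰 K) ^ n =
      ∑ i : Fin n, MvPolynomial.aeval (fun i => (y i : Ult 𝒰 K)) (q0 i) * (u : Ult 𝒰 K) ^ (i : ℕ) := by
    rw [Polynomial.eval₂_eq_sum_range, Finset.sum_range_succ, ← hn, hPm.coeff_natDegree, map_one,
      one_mul] at hP
    have h1 := eq_neg_of_add_eq_zero_right hP
    rw [h1, Finset.sum_range, ← Finset.sum_neg_distrib]
    refine Finset.sum_congr rfl fun i _ => ?_
    rw [hq0]
    simp only
    rw [hQ]
    change -((P.coeff i : Ult 𝒰 K) * _) = ((-(P.coeff i) : _) : Ult 𝒰 K) * _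
    push_cast
    ring
  set ι : kf 𝒰 K s →+* L := Subfield.inclusion hkL with hι
  have heqL : u ^ n = ∑ i : Fin n, MvPolynomial.eval₂ ι y (q0 i) * u ^ (i : ℕ) := by
    apply L.subtype.injective
    rw [map_pow, map_sum]
    change (u : Ult 𝒰 K) ^ n = _
    rw [heq]
    refine Finset.sum_congr rfl fun i _ => ?_
    rw [map_mul, map_pow, MvPolynomial.eval₂_comp_left]
    rfl
  have hτ := congrArg τ heqL
  rw [map_pow, map_sum] at hτ
  have hτι : τ.comp ι = (Ult.map (𝒰 := 𝒰) (fun _ => (MvPowerSeries.C : K _ →+* PS β K _))).comp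
      (kf 𝒰 K s).subtype := by
    ext x
    exact h2 (ι x) x.2
  have hτ2 : τ u ^ n = ∑ i : Fin n, MvPolynomial.eval₂
      ((Ult.map (𝒰 := 𝒰) (fun _ => (MvPowerSeries.C : K _ →+* PS β K _))).comp
        (kf 𝒰 K s).subtype) (fun i => τ (y i)) (q0 i) * τ u ^ (i : ℕ) := by
    rw [hτ]
    refine Finset.sum_congr rfl fun i _ => ?_
    rw [map_mul, map_pow, MvPolynomial.eval₂_comp_left, hτι]
    rfl
  obtain ⟨C, b, q, hb, hsup, hL1, hcl⟩ := int_lift (𝒰 := 𝒰) (K := K) s q0
  have hfin : ∀ i : Fin n, Ult.mk 𝒰 (PS β K) (fun j => ((b j : ℤ) : PS β K j)) *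
      MvPolynomial.eval₂ ((Ult.map (𝒰 := 𝒰) (fun _ => (MvPowerSeries.C : K _ →+* PS β K _))).comp
        (kf 𝒰 K s).subtype) (fun i => τ (y i)) (q0 i) =
      Ult.mk 𝒰 (PS β K) (fun j => MvPolynomial.aeval (fun i => (τ (y i)).rep j) (q i j)) := by
    intro i
    have h5 := eval_lift (𝒰 := 𝒰) (fun j => (MvPowerSeries.C : K j →+* PS β K j)) s (q0 i) b (q i)
      (hsup i) (hcl i) (fun i => τ (y i))
    refine h5.trans (congrArg _ (funext fun j => ?_))
    have h6 : ∀ (f g : ℤ →+* PS β K j), f = g := fun f g => Subsingleton.elim f g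
    have h7 : ∀ (A1 : Algebra ℤ (PS β K j)) (X : T → PS β K j) (r : MvPolynomial T ℤ),
        (@MvPolynomial.aeval ℤ (PS β K j) T _ _ A1 X) r =
          MvPolynomial.eval₂ (Int.castRingHom (PS β K j)) X r := by
      intro A1 X r
      rw [MvPolynomial.aeval_def]
      exact congrArg (fun f : ℤ →+* PS β K j => MvPolynomial.eval₂ f X r) (h6 _ _)
    exact (h7 (Ring.toIntAlgebra _) _ _).trans (h7 _ _ _).symm
  have hmk : Ult.mk 𝒰 (PS β K) (fun j => ((b j : ℤ) : PS β K j) * (τ u).rep j ^ n) =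
      Ult.mk 𝒰 (PS β K) (fun j => ∑ i : Fin n,
        MvPolynomial.aeval (fun i => (τ (y i)).rep j) (q i j) * (τ u).rep j ^ (i : ℕ)) := by
    have e1 : (fun j => ((b j : ℤ) : PS β K j) * (τ u).rep j ^ n) =
        (fun j => ((b j : ℤ) : PS β K j)) * (τ u).rep ^ n := rfl
    have e2 : (fun j => ∑ i : Fin n,
        MvPolynomial.aeval (fun i => (τ (y i)).rep j) (q i j) * (τ u).rep j ^ (i : ℕ)) =
        ∑ i : Fin n, (fun j => MvPolynomial.aeval (fun i => (τ (y i)).rep j) (q i j)) *
          (τ u).rep ^ (i : ℕ) := by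
      funext j
      rw [Finset.sum_apply]
      rfl
    rw [e1, e2, map_mul, map_sum, map_pow, Ult.mk_rep, hτ2, Finset.mul_sum]
    refine Finset.sum_congr rfl fun i _ => ?_
    rw [map_mul, map_pow, Ult.mk_rep, ← mul_assoc, hfin i]
  rw [Ult.mk_eq_mk] at hmk
  refine ⟨max n (max ⌈C⌉₊ (Finset.univ.sup fun i => (q0 i).totalDegree)), ?_⟩
  intro D hD
  have hDn : n ≤ D := le_trans (le_max_left _ _) hD
  have hDC : C ≤ D := by
    refine (Nat.le_ceil C).trans ?_
    exact_mod_cast le_trans (le_max_left _ _) (le_trans (le_max_right _ _) hD)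
  have hDt : ∀ i, (q0 i).totalDegree ≤ D := fun i =>
    le_trans (Finset.le_sup (f := fun i => (q0 i).totalDegree) (Finset.mem_univ i))
      (le_trans (le_max_right _ _) (le_trans (le_max_right _ _) hD))
  filter_upwards [hmk, hL1] with j h3 h4
  have hexp : Real.exp (C * max 1 (s j)) ≤ Real.exp (D * max 1 (s j)) := by
    apply Real.exp_le_exp.2
    exact mul_le_mul_of_nonneg_right hDC (le_trans zero_le_one (le_max_left _ _))
  refine ⟨b j, hb j, h4.1.trans hexp, fun i => if h : D - n ≤ (i : ℕ) then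
    q ⟨(i : ℕ) - (D - n), by omega⟩ j else 0, ?_, ?_⟩
  · intro i
    by_cases h : D - n ≤ (i : ℕ)
    · simp only [dif_pos h]
      refine ⟨?_, (h4.2 _).trans hexp⟩
      refine le_trans ?_ (hDt ⟨(i : ℕ) - (D - n), by omega⟩)
      exact Finset.sup_mono (hsup _ j)
    · simp only [dif_neg h]
      refine ⟨by simp, ?_⟩
      have h0 : L1 (0 : MvPolynomial T ℤ) = 0 := by simp [L1]
      rw [h0]
      exact (Real.exp_pos _).le
  · have hDe : D = (D - n) + n := by omega
    have e3 : (τ u).rep j ^ D = (τ u).rep j ^ (D - n) * (τ u).rep j ^ n := by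
      rw [← pow_add, ← hDe]
    rw [e3, mul_left_comm, h3, Finset.mul_sum]
    let g : Fin n ↪ Fin D := ⟨fun i => ⟨(D - n) + i, by omega⟩, fun a a' h => by
      have := congrArg Fin.val h
      simp only at this
      exact Fin.ext (by omega)⟩
    rw [← Finset.sum_subset (Finset.subset_univ (Finset.univ.map g))]
    · rw [Finset.sum_map]
      refine Finset.sum_congr rfl fun i _ => ?_
      have h5 : D - n ≤ ((g i : Fin D) : ℕ) := Nat.le_add_right _ _
      simp only [dif_pos h5]
      have h6 : (⟨((g i : Fin D) : ℕ) - (D - n), by omega⟩ : Fin n) = i := by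
        apply Fin.ext
        change (D - n) + (i : ℕ) - (D - n) = i
        omega
      rw [h6]
      change _ = _ * (τ u).rep j ^ ((D - n) + (i : ℕ))
      rw [pow_add]
      ring
    · intro i _ hi
      have h5 : ¬ (D - n ≤ (i : ℕ)) := by
        intro h6
        apply hi
        rw [Finset.mem_map]
        refine ⟨⟨(i : ℕ) - (D - n), by omega⟩, Finset.mem_univ _, ?_⟩
        apply Fin.ext
        change (D - n) + ((i : ℕ) - (D - n)) = i
        omega
      simp only [dif_neg h5, map_zero, zero_mul]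

/-- **Bounded relations of algebraic elements.** `u : L` algebraic over `k(t_A)`: for most `j` there is a
nonzero polynomial over `K j` of degree `≤ D` in `u(ζ)` and the `t_b(ζ)`, `b ∈ A`, which vanishes.

Proof. There is `P ≠ 0`, `P : MvPolynomial (Option β) k` with variables `none` and `some b`, `b ∈ A`, and
`P(t, u) = 0` (from `halg` and `Algebra.adjoin k (t '' A)` = values of polynomials; the coefficients of the
polynomial over `Algebra.adjoin` are values of polynomials, one of them not zero). Apply `τ`; at the level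
`j` take `p_j = ∑_{m ∈ P.support} monomial m ((P.coeff m).rep j)` (not zero for most `j`); no heights here. -/
theorem rel_algebraic (k : Subfield (Ult 𝒰 K)) (A : Finset β) (t : β → Ult 𝒰 K)
    (L : Subfield (Ult 𝒰 K)) (τ : L →+* Ult 𝒰 (PS β K)) (hkL : k ≤ L) (htL : ∀ b ∈ A, t b ∈ L)
    (h2 : ∀ x : L, (x : Ult 𝒰 K) ∈ k → τ x = cst β K x)
    (h3 : ∀ b ∈ A, ∀ x : L, (x : Ult 𝒰 K) = t b → τ x = cst β K (t b) + XU K b)
    (u : L) (halg : IsAlgebraic (Algebra.adjoin k (t '' A)) (u : Ult 𝒰 K)) :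
    ∃ D : ℕ, ∀ᶠ j in (𝒰 : Filter J), ∃ p : MvPolynomial (Option β) (K j), p ≠ 0 ∧
      p.totalDegree ≤ D ∧ (∀ b, some b ∈ p.vars → b ∈ A) ∧
      MvPolynomial.aeval (fun o : Option β => o.elim ((τ u).rep j)
        (fun b => MvPowerSeries.C ((t b).rep j) + MvPowerSeries.X b)) p = 0 := by
  classical
  obtain ⟨P, hP0, hP⟩ := halg
  let S : Type := {b // b ∈ A}
  let tS : S → Ult 𝒰 K := fun b => t b.1
  have hrange : (Algebra.adjoin k (t '' (A : Set β))) =
      (MvPolynomial.aeval tS : MvPolynomial S k →ₐ[k] Ult 𝒰 K).range := by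
    rw [← Algebra.adjoin_range_eq_range_aeval]
    congr 1
    ext x
    constructor
    · rintro ⟨b, hb, rfl⟩
      exact ⟨⟨b, hb⟩, rfl⟩
    · rintro ⟨b, rfl⟩
      exact ⟨b.1, b.2, rfl⟩
  have hsub : ∀ a : Algebra.adjoin k (t '' (A : Set β)), ∃ Q : MvPolynomial S k,
      MvPolynomial.aeval tS Q = (a : Ult 𝒰 K) := by
    rintro ⟨x, hx⟩
    rw [hrange] at hx
    exact hx
  choose Q hQ using hsub
  -- the polynomial over `MvPolynomial S k`
  set P1 : Polynomial (MvPolynomial S k) :=
    ∑ i ∈ P.support, Polynomial.monomial i (Q (P.coeff i)) with hP1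
  have hP1c : P1.coeff P.natDegree = Q (P.coeff P.natDegree) := by
    rw [hP1, Polynomial.finsetSum_coeff, Finset.sum_eq_single P.natDegree]
    · rw [Polynomial.coeff_monomial, if_pos rfl]
    · intro i _ hi
      rw [Polynomial.coeff_monomial, if_neg hi]
    · intro h
      exact absurd (Polynomial.natDegree_mem_support_of_nonzero hP0) h
  have hP10 : P1 ≠ 0 := by
    intro h
    rw [h, Polynomial.coeff_zero] at hP1c
    have h1 := hQ (P.coeff P.natDegree)
    rw [← hP1c, map_zero] at h1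
    have h2 : P.coeff P.natDegree = 0 := Subtype.ext h1.symm
    exact hP0 (Polynomial.leadingCoeff_eq_zero.1 h2)
  set P2 : MvPolynomial (Option S) k := (MvPolynomial.optionEquivLeft k S).symm P1 with hP2
  have hP20 : P2 ≠ 0 := by
    intro h
    apply hP10
    rw [hP2] at h
    exact (map_eq_zero_iff _ (MvPolynomial.optionEquivLeft k S).symm.injective).1 h
  have hev : MvPolynomial.aeval (fun o : Option S => o.elim (u : Ult 𝒰 K) tS) P2 = 0 := by
    have h1 : ∀ p : MvPolynomial (Option S) k,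
        MvPolynomial.aeval (fun o : Option S => o.elim (u : Ult 𝒰 K) tS) p =
        Polynomial.eval₂ (MvPolynomial.aeval tS : MvPolynomial S k →ₐ[k] Ult 𝒰 K).toRingHom
          (u : Ult 𝒰 K) (MvPolynomial.optionEquivLeft k S p) := by
      intro p
      induction p using MvPolynomial.induction_on with
      | C a =>
        rw [MvPolynomial.optionEquivLeft_C, Polynomial.eval₂_C]
        simp
      | add p q hp hq => rw [map_add, map_add, Polynomial.eval₂_add, hp, hq]
      | mul_X p i hp =>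
        rw [map_mul, map_mul, Polynomial.eval₂_mul, hp, MvPolynomial.aeval_X]
        congr 1
        rcases i with _ | i
        · rw [MvPolynomial.optionEquivLeft_X_none, Polynomial.eval₂_X]
          rfl
        · rw [MvPolynomial.optionEquivLeft_X_some, Polynomial.eval₂_C]
          simp
    rw [h1, hP2, AlgEquiv.apply_symm_apply, hP1, Polynomial.eval₂_finsetSum]
    rw [Polynomial.aeval_def, Polynomial.eval₂_eq_sum, Polynomial.sum_def] at hP
    rw [← hP]
    refine Finset.sum_congr rfl fun i _ => ?_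
    rw [Polynomial.eval₂_monomial]
    congr 1
    exact hQ _
  set ι : k →+* L := Subfield.inclusion hkL with hι
  let FL : Option S → L := fun o => o.elim u (fun b => ⟨t b.1, htL b.1 b.2⟩)
  have hL : MvPolynomial.eval₂ ι FL P2 = 0 := by
    apply Subtype.ext
    change L.subtype _ = _
    rw [MvPolynomial.eval₂_comp_left]
    have h1 : (L.subtype ∘ FL) = fun o : Option S => o.elim (u : Ult 𝒰 K) tS := by
      funext o
      rcases o with _ | o
      · rfl
      · rfl
    rw [h1]
    exact hev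
  have hτι : τ.comp ι = (Ult.map (𝒰 := 𝒰) (fun _ => (MvPowerSeries.C : K _ →+* PS β K _))).comp
      k.subtype := by
    ext x
    exact h2 (ι x) x.2
  have hτ := congrArg τ hL
  rw [map_zero, MvPolynomial.eval₂_comp_left, hτι, lvl_eval, Ult.mk_eq_zero] at hτ
  obtain ⟨m0, hm0⟩ := MvPolynomial.support_nonempty.2 hP20
  have hne : ((P2.coeff m0 : k) : Ult 𝒰 K) ≠ 0 := by
    intro h
    exact (MvPolynomial.mem_support_iff.1 hm0) (Subtype.ext h)
  have hX : ∀ b : S, ∀ᶠ j in (𝒰 : Filter J), (τ (FL (some b))).rep j =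
      MvPowerSeries.C ((t b.1).rep j) + MvPowerSeries.X b.1 := by
    intro b
    have e1 : τ (FL (some b)) = cst β K (t b.1) + XU K b.1 :=
      h3 b.1 b.2 ⟨t b.1, htL b.1 b.2⟩ rfl
    have e2 : cst β K (t b.1) + XU K b.1 = Ult.mk 𝒰 (PS β K)
        (fun j => MvPowerSeries.C ((t b.1).rep j) + MvPowerSeries.X b.1) := by
      have e3 : (fun j => (MvPowerSeries.C ((t b.1).rep j) + MvPowerSeries.X b.1 : PS β K j)) =
          (fun j => (MvPowerSeries.C ((t b.1).rep j) : PS β K j)) +
            fun j => (MvPowerSeries.X b.1 : PS β K j) := rfl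
      rw [e3, map_add]
      congr 1
      have e4 := Ult.map_mk (𝒰 := 𝒰) (fun j => (MvPowerSeries.C : K j →+* PS β K j)) (t b.1).rep
      rw [Ult.mk_rep] at e4
      exact e4
    rw [e1, e2]
    exact Ult.rep_mk _
  refine ⟨P2.totalDegree, ?_⟩
  filter_upwards [hτ, Ult.rep_ne_zero hne, Filter.eventually_all.2 hX] with j h4 h5 h6
  refine ⟨MvPolynomial.rename (Option.map Subtype.val) (lvl P2 j), ?_, ?_, ?_, ?_⟩
  · intro h
    have h7 := MvPolynomial.rename_injective (R := K j) (Option.map (Subtype.val : S → β))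
      (Option.map_injective Subtype.val_injective) (h.trans (map_zero _).symm)
    have h8 := lvl_coeff P2 j m0 hm0
    rw [h7, MvPolynomial.coeff_zero] at h8
    exact h5 h8.symm
  · refine (MvPolynomial.totalDegree_rename_le _ _).trans ?_
    exact Finset.sup_mono (lvl_support P2 j)
  · intro b hb
    have h7 := MvPolynomial.vars_rename _ _ hb
    rw [Finset.mem_image] at h7
    obtain ⟨o, _, ho⟩ := h7
    rcases o with _ | o
    · simp at ho
    · rw [Option.map_some, Option.some_inj] at ho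
      rw [← ho]
      exact o.2
  · rw [MvPolynomial.aeval_rename]
    have h7 : ((fun o : Option β => o.elim ((τ u).rep j)
        (fun b => (MvPowerSeries.C ((t b).rep j) + MvPowerSeries.X b : MvPowerSeries β (K j)))) ∘
        Option.map (Subtype.val : S → β)) = fun o : Option S => (τ (FL o)).rep j := by
      funext o
      rcases o with _ | o
      · rfl
      · exact (h6 o).symm
    rw [h7]
    exact h4

end Pool.Agent.LSharp
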