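import Pool.Agent.LSharp.BRHensel

set_option autoImplicit false

/-! BR2. The Taylor expansion on the field `k(t_A)`. -/

namespace Pool.Agent.LSharp

open MvPowerSeries Filter

variable {J β : Type} {𝒰 : Ultrafilter J} {K : J → Type} [∀ j, Field (K j)]

/-- An element of the ultraproduct of the power series rings is a unit if its constant coefficient is
not `0` (take the inverses of a representative: `MvPowerSeries.mul_inv_cancel`). -/
theorem isUnit_of_eps0 (x : Ult 𝒰 (PS β K)) (h : eps0 β K x ≠ 0) : IsUnit x := by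
  have h1 : ∀ᶠ j in (𝒰 : Filter J), constantCoeff (x.rep j) ≠ 0 := by
    filter_upwards [Ult.rep_ne_zero h, Ult.map_rep (𝒰 := 𝒰) (R := PS β K) (S := K)
      (fun _ => MvPowerSeries.constantCoeff) x] with j hj hj'
    intro h0
    exact hj (hj'.trans h0)
  refine IsUnit.of_mul_eq_one (Ult.mk 𝒰 (PS β K) (fun j => (x.rep j)⁻¹)) ?_
  have h2 : x * Ult.mk 𝒰 (PS β K) (fun j => (x.rep j)⁻¹) =
      Ult.mk 𝒰 (PS β K) (x.rep * fun j => (x.rep j)⁻¹) := by
    rw [map_mul, Ult.mk_rep]
  rw [h2, ← map_one (Ult.mk 𝒰 (PS β K)), Ult.mk_eq_mk]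
  filter_upwards [h1] with j hj
  rw [Pi.mul_apply, Pi.one_apply]
  exact MvPowerSeries.mul_inv_cancel _ hj

theorem eps0_cst (x : Ult 𝒰 K) : eps0 β K (cst β K x) = x := by
  obtain ⟨z, rfl⟩ := Ult.mk_surj x
  change Ult.mk 𝒰 K (fun j => MvPowerSeries.constantCoeff (MvPowerSeries.C (σ := β) (z j))) = _
  congr 1

theorem eps0_XU (b : β) : eps0 β K (XU (𝒰 := 𝒰) K b) = 0 := by
  change Ult.mk 𝒰 K (fun j => MvPowerSeries.constantCoeff
    (MvPowerSeries.X (R := K j) b)) = _
  rw [Ult.mk_eq_zero]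
  exact Filter.Eventually.of_forall fun j => MvPowerSeries.constantCoeff_X _

/-- The representatives are in `onlyB A` for most `j`. -/
private def OB (A : Set β) (x : Ult 𝒰 (PS β K)) : Prop :=
  ∀ᶠ j in (𝒰 : Filter J), x.rep j ∈ onlyB A

private theorem OB.mk {A : Set β} {z : ∀ j, PS β K j}
    (h : ∀ᶠ j in (𝒰 : Filter J), z j ∈ onlyB A) : OB A (Ult.mk 𝒰 (PS β K) z) := by
  filter_upwards [h, Ult.rep_mk (𝒰 := 𝒰) z] with j hj hj'
  rw [hj']
  exact hj

private theorem OB.add {A : Set β} {x y : Ult 𝒰 (PS β K)} (hx : OB A x) (hy : OB A y) :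
    OB A (x + y) := by
  have h : x + y = Ult.mk 𝒰 (PS β K) (x.rep + y.rep) := by
    rw [map_add, Ult.mk_rep, Ult.mk_rep]
  rw [h]
  refine OB.mk ?_
  filter_upwards [hx, hy] with j h1 h2
  exact add_mem h1 h2

private theorem OB.mul {A : Set β} {x y : Ult 𝒰 (PS β K)} (hx : OB A x) (hy : OB A y) :
    OB A (x * y) := by
  have h : x * y = Ult.mk 𝒰 (PS β K) (x.rep * y.rep) := by
    rw [map_mul, Ult.mk_rep, Ult.mk_rep]
  rw [h]
  refine OB.mk ?_
  filter_upwards [hx, hy] with j h1 h2
  exact mul_mem h1 h2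

private theorem OB.cst (A : Set β) (x : Ult 𝒰 K) : OB A (cst β K x) := by
  obtain ⟨z, rfl⟩ := Ult.mk_surj x
  change OB A (Ult.mk 𝒰 (PS β K) (fun j => MvPowerSeries.C (σ := β) (z j)))
  refine OB.mk (Filter.Eventually.of_forall fun j => ?_)
  classical
  intro i hi b hb
  exfalso
  apply hi
  rw [MvPowerSeries.coeff_C, if_neg]
  rintro rfl
  exact hb rfl

private theorem OB.XU {A : Set β} {b : β} (hb : b ∈ A) : OB A (XU (𝒰 := 𝒰) K b) := by
  refine OB.mk (Filter.Eventually.of_forall fun j => ?_)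
  classical
  intro i hi c hc
  have h : i = Finsupp.single b 1 := by
    by_contra hne
    apply hi
    rw [MvPowerSeries.coeff_X, if_neg hne]
  subst h
  by_cases hbc : b = c
  · rwa [← hbc]
  · exact absurd (Finsupp.single_eq_of_ne (Ne.symm hbc)) hc

private theorem OB.div {A : Set β} {x y z : Ult 𝒰 (PS β K)} (hx : OB A x) (hy : OB A y)
    (h0 : eps0 β K y ≠ 0) (h : z * y = x) : OB A z := by
  have h1 : ∀ᶠ j in (𝒰 : Filter J), constantCoeff (y.rep j) ≠ 0 := by
    filter_upwards [Ult.rep_ne_zero h0, Ult.map_rep (𝒰 := 𝒰) (R := PS β K) (S := K)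
      (fun _ => MvPowerSeries.constantCoeff) y] with j hj hj'
    intro h0
    exact hj (hj'.trans h0)
  have h2 : Ult.mk 𝒰 (PS β K) (z.rep * y.rep) = Ult.mk 𝒰 (PS β K) x.rep := by
    rw [map_mul, Ult.mk_rep, Ult.mk_rep, Ult.mk_rep, h]
  rw [Ult.mk_eq_mk] at h2
  filter_upwards [hx, hy, h1, h2] with j hx hy h1 h2
  have h3 : z.rep j = x.rep j * (y.rep j)⁻¹ := by
    rw [← h2, Pi.mul_apply, mul_assoc]
    rw [MvPowerSeries.mul_inv_cancel _ h1, mul_one]
  rw [h3]
  exact mul_mem hx (inv_mem_onlyB A _ hy h1)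

/-- **Taylor expansion of rational functions.** If the elements `t b`, `b ∈ A`, of the ultraproduct are
algebraically independent over the subfield `k`, there is a ring homomorphism from `k(t_A)` to the
ultraproduct of the power series rings which is the identity on `k`, maps `t b` to `t b + ζ_b`, is a
section of the constant coefficient map, and whose values only involve the variables of `A`.

Proof. `MvPolynomial {b // b ∈ A} k → Ult 𝒰 (PS β K)`, `f ↦ eval₂ (cst ∘ k.subtype) (fun b => cst (t b) +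
XU b) f =: ψ f`; `eps0 (ψ f) = aeval t f` (two ring homomorphisms on polynomials), which is `≠ 0` for `f ≠ 0`
by `hind`, so `ψ f` is a unit (`isUnit_of_eps0`). By the universal property of the localization
(`IsLocalization.lift` at `nonZeroDivisors`, for a fraction field of `MvPolynomial {b // b ∈ A} k`) `ψ`
extends to the fraction field, which is isomorphic to `Subfield.closure (k ∪ t '' A)`:
`aeval t` is injective, the closure is the field of all quotients `aeval t f / aeval t g`
(`IsFractionRing.lift`; or construct the homomorphism by hand: every element `x` of the closure is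
`aeval t f / aeval t g` (`Subfield.closure_induction`), put `τ x = ψ f * (ψ g)⁻¹`; well defined by `hind`).
`onlyB`: for most `j` a representative of `ψ f` is a polynomial expression of constants and of the
variables in `A` (induction on `f`), and `inv_mem_onlyB` for the inverses. -/
theorem tau_base (k : Subfield (Ult 𝒰 K)) (A : Finset β) (t : β → Ult 𝒰 K)
    (hind : AlgebraicIndependent k (fun b : {b // b ∈ A} => t b)) :
    ∃ τ : (Subfield.closure ((k : Set (Ult 𝒰 K)) ∪ t '' A)) →+* Ult 𝒰 (PS β K),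
      (∀ x, eps0 β K (τ x) = x) ∧
      (∀ x : (Subfield.closure ((k : Set (Ult 𝒰 K)) ∪ t '' A)), (x : Ult 𝒰 K) ∈ k →
        τ x = cst β K x) ∧
      (∀ b ∈ A, ∀ x : (Subfield.closure ((k : Set (Ult 𝒰 K)) ∪ t '' A)), (x : Ult 𝒰 K) = t b →
        τ x = cst β K (t b) + XU K b) ∧
      ∀ x, ∀ᶠ j in (𝒰 : Filter J), (τ x).rep j ∈ onlyB (A : Set β) := by
  classical
  let R0 : Type := MvPolynomial {b // b ∈ A} k
  let Q : Type := FractionRing R0
  let ψ : R0 →+* Ult 𝒰 (PS β K) := MvPolynomial.eval₂Hom ((cst β K).comp k.subtype)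
    (fun b : {b // b ∈ A} => cst β K (t b) + XU K (b : β))
  let ev : R0 →+* Ult 𝒰 K :=
    (MvPolynomial.aeval (R := k) (fun b : {b // b ∈ A} => t b)).toRingHom
  have hev : Function.Injective ev := hind
  have hev0 : ∀ f : R0, eps0 β K (ψ f) = ev f := by
    have h : (eps0 β K).comp ψ = ev := by
      apply MvPolynomial.ringHom_ext
      · intro r
        rw [RingHom.comp_apply]
        have h1 : ψ (MvPolynomial.C r) = cst β K (r : Ult 𝒰 K) :=
          MvPolynomial.eval₂Hom_C _ _ _
        have h2 : ev (MvPolynomial.C r) = (r : Ult 𝒰 K) := MvPolynomial.aeval_C _ _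
        rw [h1, h2, eps0_cst]
      · intro b
        rw [RingHom.comp_apply]
        have h1 : ψ (MvPolynomial.X b) = cst β K (t b) + XU K (b : β) :=
          MvPolynomial.eval₂Hom_X' _ _ _
        have h2 : ev (MvPolynomial.X b) = t b := MvPolynomial.aeval_X _ _
        rw [h1, h2, map_add, eps0_cst, eps0_XU, add_zero]
    intro f
    exact RingHom.congr_fun h f
  have hunit : ∀ y : nonZeroDivisors R0, IsUnit (ψ y) := by
    intro y
    apply isUnit_of_eps0
    rw [hev0]
    intro h0
    exact nonZeroDivisors.ne_zero y.2 (hev (by rw [h0, map_zero]))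
  let ψ' : Q →+* Ult 𝒰 (PS β K) := IsLocalization.lift (M := nonZeroDivisors R0) hunit
  have hψ' : ∀ f : R0, ψ' (algebraMap R0 Q f) = ψ f := fun f => IsLocalization.lift_eq hunit f
  let α : Q →+* Ult 𝒰 K := IsFractionRing.lift hev
  have hα : ∀ f : R0, α (algebraMap R0 Q f) = ev f := fun f => IsFractionRing.lift_algebraMap hev f
  have hαinj : Function.Injective α := α.injective
  have hev1 : ∀ q : Q, eps0 β K (ψ' q) = α q := by
    have h : (eps0 β K).comp ψ' = α := by
      apply IsLocalization.ringHom_ext (nonZeroDivisors R0)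
      refine RingHom.ext fun f => ?_
      rw [RingHom.comp_apply, RingHom.comp_apply, RingHom.comp_apply, hψ', hev0, hα]
    intro q
    exact RingHom.congr_fun h q
  have hk : ∀ x : k, α (algebraMap R0 Q (MvPolynomial.C x)) = x := by
    intro x
    rw [hα]
    exact MvPolynomial.aeval_C _ _
  have ht : ∀ b : {b // b ∈ A}, α (algebraMap R0 Q (MvPolynomial.X b)) = t b := by
    intro b
    rw [hα]
    exact MvPolynomial.aeval_X _ _
  have hle : Subfield.closure ((k : Set (Ult 𝒰 K)) ∪ t '' A) ≤ α.fieldRange := by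
    rw [Subfield.closure_le]
    rintro x (hx | ⟨b, hb, rfl⟩)
    · exact ⟨_, hk ⟨x, hx⟩⟩
    · exact ⟨_, ht ⟨b, hb⟩⟩
  let inc := Subfield.inclusion hle
  let τ : (Subfield.closure ((k : Set (Ult 𝒰 K)) ∪ t '' A)) →+* Ult 𝒰 (PS β K) :=
    ψ'.comp ((α.rangeRestrictFieldEquiv.symm : α.fieldRange →+* Q).comp inc)
  have hτ : ∀ x : (Subfield.closure ((k : Set (Ult 𝒰 K)) ∪ t '' A)),
      ∃ q : Q, α q = x ∧ τ x = ψ' q := by
    intro x
    exact ⟨α.rangeRestrictFieldEquiv.symm (inc x),
      RingHom.rangeRestrictFieldEquiv_apply_symm_apply α (inc x), rfl⟩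
  refine ⟨τ, ?_, ?_, ?_, ?_⟩
  · intro x
    obtain ⟨q, h1, h2⟩ := hτ x
    rw [h2, hev1, h1]
  · intro x hx
    obtain ⟨q, h1, h2⟩ := hτ x
    have h3 : q = algebraMap R0 Q (MvPolynomial.C ⟨(x : Ult 𝒰 K), hx⟩) :=
      hαinj (by rw [h1, hk])
    rw [h2, h3, hψ']
    exact MvPolynomial.eval₂Hom_C _ _ _
  · intro b hb x hx
    obtain ⟨q, h1, h2⟩ := hτ x
    have h3 : q = algebraMap R0 Q (MvPolynomial.X ⟨b, hb⟩) :=
      hαinj (by rw [h1, ht, hx])
    rw [h2, h3, hψ']
    exact MvPolynomial.eval₂Hom_X' _ _ _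
  · intro x
    obtain ⟨q, h1, h2⟩ := hτ x
    rw [h2]
    have hOB : ∀ f : R0, OB (A : Set β) (ψ f) := by
      intro f
      induction f using MvPolynomial.induction_on with
      | C a =>
        have h3 : ψ (MvPolynomial.C a) = cst β K (a : Ult 𝒰 K) :=
          MvPolynomial.eval₂Hom_C _ _ _
        rw [h3]
        exact OB.cst _ _
      | add p q hp hq =>
        rw [map_add]
        exact hp.add hq
      | mul_X p b hp =>
        rw [map_mul]
        refine hp.mul ?_
        have h3 : ψ (MvPolynomial.X b) = cst β K (t b) + XU K (b : β) :=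
          MvPolynomial.eval₂Hom_X' _ _ _
        rw [h3]
        exact (OB.cst _ _).add (OB.XU b.2)
    obtain ⟨⟨f, g⟩, hfg⟩ := IsLocalization.surj (nonZeroDivisors R0) q
    refine OB.div (hOB f) (hOB g) ?_ (z := ψ' q) ?_
    · rw [hev0]
      intro h0
      exact nonZeroDivisors.ne_zero g.2 (hev (by rw [h0, map_zero]))
    · rw [← hψ', ← hψ', ← map_mul, hfg]

end Pool.Agent.LSharp
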