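import Pool.Agent.LSharp.HCF
import Pool.Agent.LAll.NVBlock
import Pool.Agent.DD7719.HtRel

set_option autoImplicit false

/-! HC11. Nonvanishing for a lowest block together with single higher coordinates. -/

namespace Pool.Agent.LSharp

open MvPolynomial Pool.Agent.LAll Filter

/-- The polynomials of bounded degrees and bounded coefficients are finite in number. -/
private theorem finite_polys {W : Type} [Fintype W] (D B : ℕ) :
    {F : MvPolynomial W ℤ | (∀ k, F.degreeOf k ≤ D) ∧ ∀ m, |F.coeff m| ≤ (B : ℤ)}.Finite := by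
  classical
  set m0 : W →₀ ℕ := Finsupp.equivFunOnFinite.symm (fun _ => D) with hm0
  have hbox : (Set.Iic m0).Finite := Set.finite_Iic m0
  have : Finite (Set.Iic m0) := hbox
  let φ : MvPolynomial W ℤ → (Set.Iic m0 → ℤ) := fun F m => F.coeff m.1
  refine Set.Finite.of_finite_image (f := φ) ?_ ?_
  · refine Set.Finite.subset (Set.Finite.pi' (fun _ : Set.Iic m0 => Set.finite_Icc (-(B : ℤ)) B)) ?_
    rintro _ ⟨F, ⟨-, h2⟩, rfl⟩ m
    exact abs_le.1 (h2 m.1)
  · intro F hF G hG h
    ext m
    by_cases hm : m ∈ Set.Iic m0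
    · exact congrFun h ⟨m, hm⟩
    · have key : ∀ P : MvPolynomial W ℤ, (∀ k, P.degreeOf k ≤ D) → P.coeff m = 0 := by
        intro P hP
        by_contra hne
        apply hm
        intro k
        have h1 : m k ≤ P.degreeOf k :=
          MvPolynomial.monomial_le_degreeOf k (MvPolynomial.mem_support_iff.2 hne)
        simpa [hm0] using h1.trans (hP k)
      rw [key F hF.1, key G hG.1]

/-- The height of a root of an integral polynomial in one of the variables. -/
private theorem bc_root {σ K : Type} [Fintype σ] [Field K] [NumberField K] (F : MvPolynomial σ ℤ)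
    (hF : F ≠ 0) (l : σ) (hl : ∀ k ∈ F.vars, k = l) (t : σ → K) (ht0 : aeval t F = 0) :
    ht (t l) ≤ 4 + 3 * Real.log (L1 F) := by
  classical
  have hm : ∀ m ∈ F.support, ∀ k, k ≠ l → m k = 0 := by
    intro m hm k hk
    by_contra h
    exact hk (hl k ((mem_vars k).2 ⟨m, hm, Finsupp.mem_support_iff.2 h⟩))
  set p : Polynomial ℤ := ∑ m ∈ F.support, Polynomial.monomial (m l) (F.coeff m) with hp
  have hcoef : ∀ i, p.coeff i = ∑ m ∈ F.support, if m l = i then F.coeff m else 0 := by
    intro i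
    rw [hp, Polynomial.finset_sum_coeff]
    refine Finset.sum_congr rfl fun m _ => ?_
    rw [Polynomial.coeff_monomial]
  have hp0 : p ≠ 0 := by
    obtain ⟨m0, hm0⟩ := Finset.nonempty_iff_ne_empty.2 (fun h => hF (support_eq_empty.1 h))
    intro h0
    have h1 := hcoef (m0 l)
    rw [h0, Polynomial.coeff_zero, Finset.sum_eq_single m0] at h1
    · rw [if_pos rfl] at h1
      exact (mem_support_iff.1 hm0) h1.symm
    · intro m hm' hne
      refine if_neg fun h => hne ?_
      ext k
      by_cases hk : k = l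
      · rw [hk, h]
      · rw [hm m hm' k hk, hm m0 hm0 k hk]
    · intro h
      exact absurd hm0 h
  have haev : Polynomial.aeval (t l) p = 0 := by
    rw [← ht0, hp, map_sum, aeval_def, eval₂_eq]
    refine Finset.sum_congr rfl fun m hm' => ?_
    rw [Polynomial.aeval_monomial]
    congr 1
    rw [Finset.prod_subset (Finset.subset_univ m.support) (fun k _ hk => by
      rw [Finsupp.notMem_support_iff.1 hk, pow_zero])]
    rw [Finset.prod_eq_single l (fun k _ hk => by rw [hm m hm' k hk, pow_zero])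
      (fun h => absurd (Finset.mem_univ l) h)]
  set A : ℕ := ⌈L1 F⌉₊ with hA
  have h1L : 1 ≤ L1 F := one_le_L1 F hF
  have hbd : ∀ i, |p.coeff i| ≤ A := by
    intro i
    have h1 : (|p.coeff i| : ℤ) ≤ ∑ m ∈ F.support, |F.coeff m| := by
      rw [hcoef]
      refine (Finset.abs_sum_le_sum_abs _ _).trans (Finset.sum_le_sum fun m _ => ?_)
      split_ifs
      · exact le_rfl
      · rw [abs_zero]
        exact abs_nonneg _
    have h2 : ((∑ m ∈ F.support, |F.coeff m| : ℤ) : ℝ) = L1 F := by
      push_cast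
      rfl
    have h3 : ((|p.coeff i| : ℤ) : ℝ) ≤ A := by
      refine le_trans ?_ (Nat.le_ceil (L1 F))
      rw [← h2]
      exact_mod_cast h1
    exact_mod_cast h3
  have h2 := Pool.Agent.DD7719.logHeight₁_root_le p hp0 A hbd (t l) haev
  have hfr : (0 : ℝ) < Module.finrank ℚ K := by exact_mod_cast Module.finrank_pos
  have h3 : ht (t l) ≤ 3 * Real.log (A + 1) := by
    unfold ht
    rw [div_le_iff₀ hfr]
    linarith
  have h4 : (A : ℝ) + 1 ≤ 3 * L1 F := by
    have := Nat.ceil_lt_add_one (show (0 : ℝ) ≤ L1 F by linarith)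
    rw [← hA] at this
    linarith
  have h5 : Real.log (A + 1) ≤ Real.log 3 + Real.log (L1 F) := by
    rw [← Real.log_mul (by norm_num) (by linarith)]
    exact Real.log_le_log (by positivity) h4
  have h6 : Real.log 3 ≤ 4 / 3 := by
    rw [Real.log_le_iff_le_exp (by norm_num)]
    have h7 : (4 / 3 : ℝ) = 1 + 1 / 3 := by norm_num
    rw [h7, Real.exp_add]
    have h8 := Real.exp_one_gt_d9
    have h9 := Real.add_one_le_exp (1 / 3 : ℝ)
    nlinarith
  linarith

/-- **A lowest block and single higher coordinates.** `W₁ ⊆ W` nonempty, the heights in `W₁` are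
comparable (`H k ≤ C H l`), those of `W₁` are small compared with those of `W \ W₁`, and for two
different elements of `W \ W₁` one of the two ratios tends to `0`. Then `NV 𝒰 P W`.

Proof. `nv_of_free`. Let `c, q, A` be given (`A ≥ 1`) and suppose `P₀ ≠ 0`, `l ∈ vars P₀` with the largest
`n_l`, i.e. (for most `j`) essentially the lowest height, satisfies `Bd (A / n_l)`. For `k ∈ vars P₀`:
`1 ≤ degreeOf k ≤ A n_k / n_l ≤ 2 A H_l / H_k` (`Pt.n_bounds`), so `H_k ≤ 2 A H_l`; for most `j` this
forces `k` and `l` to be in the same class: `vars P₀ ⊆ W₁` or `vars P₀ = {l}`, `l ∉ W₁`.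
In both cases `n_k ≤ 2 C' n_l` for all `k ∈ W` with ... only for the first case: if `l ∈ W₁`, then
`M = ∑ n_k ≤ C'' n_l` (all heights in `W` are `≥ H_l / C'` for most `j`), so `P₀` has bounded degrees
`≤ A n_k / n_l ≤ A C''` and coefficients bounded by `exp (A C'')`: finitely many polynomials
(`Pool.Agent.LAll.nv_block` in `NVBlock.lean` has exactly this argument: finiteness, `moebius`, genericity
`Gen`). If `vars P₀ = {l}`, `l ∉ W₁`: `P₀` is a polynomial in one variable of degree `≤ A` and norm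
`≤ exp (A M / n_l)`; a root of it has absolute height `≤ log (L1) `-like:
`ht (t_l) ≤ log L1 (P₀) + log 2`-type bound (`deg * ht ≤ log Mahler measure` is not needed: the height
of a root is at most the height of the polynomial plus `log 2 * deg`; a simple proof with places:
`|t|_v ≤ max (1, |a_0|, ..., ) / |a_n|`...; LAll/RothU or LThree may contain it; search for
`ht_root`), and `M / n_l ≤ |W| 2 T / H_min * H_l / T = 2 |W| H_l / H_min`, where `H_min → ∞`: so
`H_l - log 2 ≤ ht t_l ≤ 2 |W| A H_l / H_min + C`, impossible for most `j`. -/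
theorem nv_blockchain {ι J : Type} [Fintype ι] [DecidableEq ι] (𝒰 : Ultrafilter J) (P : J → Pt ι)
    (hG : Gen 𝒰 P) (W W₁ : Finset ι) (hW₁ : W₁ ⊆ W) (hne : W₁.Nonempty)
    (h1 : ∀ k ∈ W, Tendsto (fun j => (P j).H k) (𝒰 : Filter J) atTop)
    (hcomp : ∀ k ∈ W₁, ∀ l ∈ W₁, ∃ C : ℝ, ∀ᶠ j in (𝒰 : Filter J), (P j).H k ≤ C * (P j).H l)
    (hlow : ∀ k ∈ W₁, ∀ l ∈ W \ W₁,
      Tendsto (fun j => (P j).H k / (P j).H l) (𝒰 : Filter J) (nhds 0))
    (hch : ∀ k ∈ W \ W₁, ∀ l ∈ W \ W₁, k ≠ l →
      Tendsto (fun j => (P j).H k / (P j).H l) (𝒰 : Filter J) (nhds 0) ∨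
      Tendsto (fun j => (P j).H l / (P j).H k) (𝒰 : Filter J) (nhds 0)) : NV 𝒰 P W := by
  classical
  refine nv_of_free 𝒰 P W h1 ?_
  intro c q A0 hq
  set A : ℝ := max A0 1 with hAdef
  have hA1 : 1 ≤ A := le_max_right _ _
  suffices h : ∀ᶠ j in (𝒰 : Filter J),
      Free (fun k : {k // k ∈ W} => (P j).n W q k) (∑ k : {k // k ∈ W}, ((P j).n W q k : ℝ))
        (fun k : {k // k ∈ W} => tt (c k) ((P j).x k)) A by
    filter_upwards [h] with j hj
    exact hj.mono (le_max_left _ _) (Finset.sum_nonneg fun _ _ => Nat.cast_nonneg _)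
  choose! Cc hCc using hcomp
  set C0 : ℝ := 1 + ∑ k ∈ W₁, ∑ l ∈ W₁, |Cc k l| with hC0
  have hC01 : 1 ≤ C0 := by
    have : 0 ≤ ∑ k ∈ W₁, ∑ l ∈ W₁, |Cc k l| :=
      Finset.sum_nonneg fun _ _ => Finset.sum_nonneg fun _ _ => abs_nonneg _
    linarith
  have hCk : ∀ k ∈ W₁, ∀ l ∈ W₁, Cc k l ≤ C0 := by
    intro k hk l hl
    have h2 : |Cc k l| ≤ ∑ l ∈ W₁, |Cc k l| :=
      Finset.single_le_sum (f := fun l => |Cc k l|) (fun _ _ => abs_nonneg _) hl
    have h3 : ∑ l ∈ W₁, |Cc k l| ≤ ∑ k ∈ W₁, ∑ l ∈ W₁, |Cc k l| :=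
      Finset.single_le_sum (f := fun k => ∑ l ∈ W₁, |Cc k l|)
        (fun _ _ => Finset.sum_nonneg fun _ _ => abs_nonneg _) hk
    have h4 := le_abs_self (Cc k l)
    linarith
  have hcard : (0 : ℝ) ≤ W.card := Nat.cast_nonneg _
  set ε : ℝ := 1 / (4 * A) with hε
  have hε0 : 0 < ε := by positivity
  have hεA : 4 * A * ε = 1 := by
    rw [hε]
    field_simp
  have hε4 : ε ≤ 1 / 4 := by nlinarith
  set R : ℝ := 10 + 24 * A * W.card with hR
  have e1 : ∀ᶠ j in (𝒰 : Filter J), ∀ k ∈ W, R ≤ (P j).H k := by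
    rw [Filter.eventually_all_finset]
    intro k hk
    exact (h1 k hk).eventually_ge_atTop R
  have e2 : ∀ᶠ j in (𝒰 : Filter J), ∀ k ∈ W₁, ∀ l ∈ W₁, (P j).H k ≤ Cc k l * (P j).H l := by
    rw [Filter.eventually_all_finset]
    intro k hk
    rw [Filter.eventually_all_finset]
    exact fun l hl => hCc k hk l hl
  have e3 : ∀ᶠ j in (𝒰 : Filter J), ∀ k ∈ W₁, ∀ l ∈ W \ W₁, (P j).H k / (P j).H l < ε := by
    rw [Filter.eventually_all_finset]
    intro k hk
    rw [Filter.eventually_all_finset]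
    exact fun l hl => (hlow k hk l hl).eventually_lt_const hε0
  have e4 : ∀ᶠ j in (𝒰 : Filter J), ∀ k ∈ W \ W₁, ∀ l ∈ W \ W₁, k ≠ l →
      (P j).H k / (P j).H l < ε ∨ (P j).H l / (P j).H k < ε := by
    rw [Filter.eventually_all_finset]
    intro k hk
    rw [Filter.eventually_all_finset]
    intro l hl
    by_cases hkl : k = l
    · exact Filter.Eventually.of_forall fun j h => absurd hkl h
    · rcases hch k hk l hl hkl with h | h
      · filter_upwards [h.eventually_lt_const hε0] with j hj _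
        exact Or.inl hj
      · filter_upwards [h.eventually_lt_const hε0] with j hj _
        exact Or.inr hj
  set D : ℕ := ⌈2 * A * C0⌉₊ with hD
  set B : ℕ := ⌈Real.exp (2 * A * C0 * W.card)⌉₊ with hB
  have hfin := finite_polys (W := {k // k ∈ W}) D B
  have e5 : ∀ᶠ j in (𝒰 : Filter J), ∀ F ∈ {F : MvPolynomial {k // k ∈ W} ℤ |
      (∀ k, F.degreeOf k ≤ D) ∧ ∀ m, |F.coeff m| ≤ (B : ℤ)}, F ≠ 0 →
      MvPolynomial.aeval (fun k : {k // k ∈ W} => tt (c k) ((P j).x k)) F ≠ 0 := by
    rw [Filter.eventually_all_finite hfin]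
    intro F _
    by_cases hF : F = 0
    · exact Filter.Eventually.of_forall fun j h => absurd hF h
    · obtain ⟨f, hf, hfx⟩ := moebius W c F hF
      filter_upwards [hG f hf] with j hj _ h0
      exact hj (hfx (P j).K (P j).x (P j).ne0 (P j).ne1 h0)
  filter_upwards [e1, e2, e3, e4, e5] with j f1 f2 f3 f4 f5
  intro F hF l hl hmax hBd
  have hH1 : ∀ k ∈ W, 1 ≤ (P j).H k := by
    intro k hk
    have h2 := f1 k hk
    have h3 : 0 ≤ 24 * A * W.card := by positivity
    linarith
  have hT0 : 0 < (P j).T W q := ((P j).n_bounds W q hq l.1 l.2 hH1).1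
  have hn : ∀ k : {k // k ∈ W}, 1 ≤ ((P j).n W q k : ℝ) ∧
      (P j).T W q / (P j).H k ≤ (P j).n W q k ∧
      ((P j).n W q k : ℝ) ≤ 2 * (P j).T W q / (P j).H k ∧ 0 < (P j).H k := by
    intro k
    obtain ⟨-, b2, b3, b4, -⟩ := (P j).n_bounds W q hq k.1 k.2 hH1
    exact ⟨hq.trans b2, b3, b4, by have := hH1 k.1 k.2; linarith⟩
  obtain ⟨hnl1, hnl2, hnl3, hHl⟩ := hn l
  have hnl0 : (0 : ℝ) < (P j).n W q l := by linarith
  -- the ratios of the degrees
  have hrat : ∀ k : {k // k ∈ W}, ((P j).n W q k : ℝ) ≤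
      2 * ((P j).H l / (P j).H k) * (P j).n W q l := by
    intro k
    obtain ⟨b1, b2, b3, b4⟩ := hn k
    have h2 : 2 * (P j).T W q / (P j).H k =
        2 * ((P j).H l / (P j).H k) * ((P j).T W q / (P j).H l) := by
      field_simp
    rw [h2] at b3
    refine b3.trans (mul_le_mul_of_nonneg_left hnl2 ?_)
    positivity
  have hvar : ∀ k ∈ F.vars, (P j).H k ≤ 2 * A * (P j).H l ∧ (P j).H l ≤ 2 * (P j).H k := by
    intro k hk
    obtain ⟨b1, b2, b3, b4⟩ := hn k
    have h2 : 1 ≤ F.degreeOf k := by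
      obtain ⟨m, hm, hmk⟩ := (mem_vars k).1 hk
      have h3 := MvPolynomial.monomial_le_degreeOf k hm
      have h4 := Finsupp.mem_support_iff.1 hmk
      omega
    have h3 : (1 : ℝ) ≤ A / (P j).n W q l * (P j).n W q k := by
      refine le_trans ?_ (hBd.1 k)
      exact_mod_cast h2
    have h4 : ((P j).n W q l : ℝ) ≤ A * (P j).n W q k := by
      have h5 : A / (P j).n W q l * (P j).n W q k = A * (P j).n W q k / (P j).n W q l := by ring
      rw [h5, le_div_iff₀ hnl0] at h3
      linarith
    constructor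
    · have h5 : (P j).T W q / (P j).H l ≤ A * (2 * (P j).T W q / (P j).H k) :=
        hnl2.trans (h4.trans (mul_le_mul_of_nonneg_left b3 (by linarith)))
      rw [div_le_iff₀ hHl] at h5
      have h6 : A * (2 * (P j).T W q / (P j).H k) * (P j).H l =
          (P j).T W q * (2 * A * (P j).H l) / (P j).H k := by ring
      rw [h6, le_div_iff₀ b4] at h5
      exact le_of_mul_le_mul_left h5 hT0
    · have h5 : ((P j).n W q k : ℝ) ≤ (P j).n W q l := by exact_mod_cast hmax k hk
      have h6 : (P j).T W q / (P j).H k ≤ 2 * (P j).T W q / (P j).H l := b2.trans (h5.trans hnl3)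
      rw [div_le_div_iff₀ b4 hHl] at h6
      have h7 : 2 * (P j).T W q * (P j).H k = (P j).T W q * (2 * (P j).H k) := by ring
      rw [h7] at h6
      exact le_of_mul_le_mul_left h6 hT0
  by_cases hlW : l.1 ∈ W₁
  · -- the block
    have hall : ∀ k : {k // k ∈ W}, ((P j).n W q k : ℝ) ≤ 2 * C0 * (P j).n W q l := by
      intro k
      obtain ⟨b1, b2, b3, b4⟩ := hn k
      have h2 : (P j).H l / (P j).H k ≤ C0 := by
        by_cases hk : k.1 ∈ W₁
        · rw [div_le_iff₀ b4]
          refine (f2 l hlW k hk).trans (mul_le_mul_of_nonneg_right (hCk _ hlW _ hk) b4.le)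
        · have h3 := f3 l hlW k (Finset.mem_sdiff.2 ⟨k.2, hk⟩)
          linarith
      refine (hrat k).trans (mul_le_mul_of_nonneg_right ?_ hnl0.le)
      linarith
    apply f5 F _ hF
    refine ⟨fun k => ?_, fun m => ?_⟩
    · have h2 : (F.degreeOf k : ℝ) ≤ 2 * A * C0 := by
        refine (hBd.1 k).trans ?_
        rw [div_mul_eq_mul_div, div_le_iff₀ hnl0]
        have h3 := mul_le_mul_of_nonneg_left (hall k) (show 0 ≤ A by linarith)
        linarith
      have h4 : (F.degreeOf k : ℝ) ≤ D := h2.trans (Nat.le_ceil _)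
      exact_mod_cast h4
    · have hsum : ∑ k : {k // k ∈ W}, ((P j).n W q k : ℝ) ≤
          2 * C0 * W.card * (P j).n W q l := by
        calc ∑ k : {k // k ∈ W}, ((P j).n W q k : ℝ)
            ≤ ∑ _k : {k // k ∈ W}, (2 * C0 * (P j).n W q l : ℝ) :=
              Finset.sum_le_sum fun k _ => hall k
          _ = 2 * C0 * W.card * (P j).n W q l := by
              rw [Finset.sum_const, nsmul_eq_mul, Finset.card_univ, Fintype.card_coe]
              ring
      have h2 : |((F.coeff m : ℤ) : ℝ)| ≤ B := by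
        refine (abs_coeff_le_L1 F m).trans (hBd.2.trans ?_)
        refine le_trans (Real.exp_le_exp.2 ?_) (Nat.le_ceil _)
        rw [div_mul_eq_mul_div, div_le_iff₀ hnl0]
        have h3 := mul_le_mul_of_nonneg_left hsum (show 0 ≤ A by linarith)
        linarith
      exact_mod_cast h2
  · -- a single coordinate
    have hlW' : l.1 ∈ W \ W₁ := Finset.mem_sdiff.2 ⟨l.2, hlW⟩
    have hone : ∀ k ∈ F.vars, k = l := by
      intro k hk
      by_contra hne
      obtain ⟨b1, b2, b3, b4⟩ := hn k
      obtain ⟨v1, v2⟩ := hvar k hk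
      have hno1 : ¬ (P j).H k / (P j).H l < ε := by
        intro h2
        rw [div_lt_iff₀ hHl] at h2
        have h3 : ε * (P j).H l ≤ 1 / 4 * (P j).H l := mul_le_mul_of_nonneg_right hε4 hHl.le
        linarith
      by_cases hkW : k.1 ∈ W₁
      · exact hno1 (f3 k hkW l hlW')
      · have hkl : k.1 ≠ l.1 := fun h => hne (Subtype.ext h)
        rcases f4 k (Finset.mem_sdiff.2 ⟨k.2, hkW⟩) l hlW' hkl with h2 | h2
        · exact hno1 h2
        · rw [div_lt_iff₀ b4] at h2
          have h3 : 2 * A * (P j).H l ≤ 2 * A * (ε * (P j).H k) :=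
            mul_le_mul_of_nonneg_left h2.le (by linarith)
          have h4 : 2 * A * (ε * (P j).H k) = 1 / 2 * (P j).H k := by
            have : 2 * A * (ε * (P j).H k) = 4 * A * ε * (P j).H k / 2 := by ring
            rw [this, hεA]
            ring
          linarith
    intro h0
    have h2 := bc_root F hF l hone _ h0
    have h3 := (ht_tt (c l) ((P j).x l)).2
    have hlog2 : Real.log 2 ≤ 1 := by
      have := Real.log_two_lt_d9
      linarith
    have hsum : ∑ k : {k // k ∈ W}, ((P j).n W q k : ℝ) ≤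
        (P j).H l / (12 * A) * (P j).n W q l := by
      have h5 : ∀ k : {k // k ∈ W}, ((P j).n W q k : ℝ) ≤
          2 * ((P j).H l / (24 * A * W.card)) * (P j).n W q l := by
        intro k
        obtain ⟨b1, b2, b3, b4⟩ := hn k
        have hc1 : (1 : ℝ) ≤ W.card := by
          exact_mod_cast Finset.card_pos.2 ⟨k.1, k.2⟩
        refine (hrat k).trans (mul_le_mul_of_nonneg_right ?_ hnl0.le)
        refine mul_le_mul_of_nonneg_left ?_ zero_le_two
        refine div_le_div_of_nonneg_left hHl.le (by positivity) ?_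
        have := f1 k.1 k.2
        linarith
      have hc1 : (1 : ℝ) ≤ W.card := by
        exact_mod_cast Finset.card_pos.2 ⟨l.1, l.2⟩
      calc ∑ k : {k // k ∈ W}, ((P j).n W q k : ℝ)
          ≤ ∑ _k : {k // k ∈ W}, (2 * ((P j).H l / (24 * A * W.card)) * (P j).n W q l : ℝ) :=
            Finset.sum_le_sum fun k _ => h5 k
        _ = (P j).H l / (12 * A) * (P j).n W q l := by
            rw [Finset.sum_const, nsmul_eq_mul, Finset.card_univ, Fintype.card_coe]
            field_simp
            ring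
    have h4 : Real.log (L1 F) ≤ (P j).H l / 12 := by
      have h5 : Real.log (L1 F) ≤
          A / (P j).n W q l * ∑ k : {k // k ∈ W}, ((P j).n W q k : ℝ) := by
        rw [Real.log_le_iff_le_exp (by have := one_le_L1 F hF; linarith)]
        exact hBd.2
      refine h5.trans ?_
      rw [div_mul_eq_mul_div, div_le_iff₀ hnl0]
      have h6 := mul_le_mul_of_nonneg_left hsum (show 0 ≤ A by linarith)
      refine h6.trans (le_of_eq ?_)
      field_simp
    have h5 : (P j).H l ≤ ht (tt (c l) ((P j).x l)) + Real.log 2 := h3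
    have h6 := f1 l.1 l.2
    have h7 : 0 ≤ 24 * A * W.card := by positivity
    linarith

end Pool.Agent.LSharp
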