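import Pool.Agent.LSharp.CODefs
import Pool.Agent.LAll.AuxPoly

set_option autoImplicit false

/-! Package CO3: the linear equations of the auxiliary function (Siegel's lemma).

PROOF. Let `IQ = (A → Fin D) × (∀ y, Fin (Θ * n (cy y) + 1)) × (∀ z, Fin (D * (D * B * n (cz z)) +
1))` be the index set of the conditions. COUNT: `2 * card IQ ≤ card (XI (card ZZ) B n cb)`:
`card IQ = D ^ card A * ∏ y, (Θ n (cy y) + 1) * ∏ z, (D (D B n (cz z)) + 1)
≤ D ^ card A * ((Θ + 1) ^ card YY ∏ y, n (cy y)) * ((D * D + 1) ^ card ZZ * B ^ card ZZ * ∏ z, n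
(cz z))`
(`1 ≤ n`, `1 ≤ B`: `Θ n + 1 ≤ (Θ + 1) n`, `D D B n + 1 ≤ (D D + 1) B n`), and
`∏ y, n (cy y) * ∏ z, n (cz z) = ∏ b, n (cb b)`: both sides are `∏ a, n a ^ (number of elements of
class a)` (`Finset.prod_fiberwise`/`Finset.prod_comp`; the classes range over the finite type `M`),
use `hcard`. The unknowns are `B ^ (card ZZ + 1) * ∏ b, n (cb b)` in number. So `hB` is exactly
what is needed. SIEGEL: `LAll.siegel` with the matrix `a q x = N x k ν`, `q = (k, i, j)`, where `ν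
: YY ⊕ ZZ →₀ ℕ` is
`Finsupp.equivFunOnFinite.symm (Sum.elim (fun y => i y) (fun z => j z))`, and `Y = exp (C1 * M0) ≥
1`.
`Nonempty (XI ..)`: `0 < B`, `0 < n` (`Fin.pos_iff_nonempty`, or `Fintype.card_pos_iff`).
It gives `c ≠ 0` with `|c x| ≤ card XI * exp (C1 M0)` and
`card XI = B ^ (card ZZ + 1) ∏ b, n (cb b) ≤ exp ((card ZZ + 1) * B * M0 + card β * M0)` since
`B ≤ exp B`, `1 ≤ M0`, `n a ≤ M0 ≤ exp M0`.
CONDITIONS: let `wy n cy ν < Θ`. If some class degree `cdeg (Sum.elim cy cz) ν a` is larger than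
`D * (D * B * n a)` then all `N x k ν = 0` by `hN`. Otherwise `ν (inl y) < Θ * n (cy y) + 1` (from
`ν (inl y) / n (cy y) ≤ wy n cy ν < Θ`, `Finset.single_le_sum`) and
`ν (inr z) ≤ cdeg (Sum.elim cy cz) ν (cz z) ≤ D * (D * B * n (cz z))`; so `(k, ν)` is one of the
conditions. -/

namespace Pool.Agent.LSharp

open MvPolynomial Pool.Agent.LAll

private theorem prod_cls {M I : Type} [Fintype M] [Fintype I] [DecidableEq M] (c : I → M)
    (n : M → ℕ) : ∏ i, n (c i) = ∏ a, n a ^ (Finset.univ.filter fun i => c i = a).card := by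
  classical
  rw [← Finset.prod_fiberwise (Finset.univ : Finset I) c (fun i => n (c i))]
  refine Finset.prod_congr rfl fun a _ => ?_
  rw [← Finset.prod_const]
  refine Finset.prod_congr rfl fun i hi => ?_
  rw [(Finset.mem_filter.1 hi).2]

private theorem count {M β A YY ZZ : Type} [Fintype M] [Fintype β] [Fintype A] [Fintype YY]
    [Fintype ZZ] [DecidableEq M] (cb : β → M) (cy : YY → M) (cz : ZZ → M)
    (hcard : ∀ a, (Finset.univ.filter fun y => cy y = a).card +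
      (Finset.univ.filter fun z => cz z = a).card = (Finset.univ.filter fun b => cb b = a).card)
    (D Θ B : ℕ) (hB : 2 * D ^ Fintype.card A * (Θ + 1) ^ Fintype.card YY *
      (D * D + 1) ^ Fintype.card ZZ ≤ B) (hB1 : 1 ≤ B)
    (n : M → ℕ) (hn : ∀ a, 1 ≤ n a) :
    2 * (D ^ Fintype.card A * ((∏ y, (Θ * n (cy y) + 1)) *
      ∏ z, (D * (D * B * n (cz z)) + 1))) ≤ B ^ (Fintype.card ZZ + 1) * ∏ b, n (cb b) := by
  have h1 : ∏ y, (Θ * n (cy y) + 1) ≤ (Θ + 1) ^ Fintype.card YY * ∏ y, n (cy y) := by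
    calc ∏ y, (Θ * n (cy y) + 1) ≤ ∏ y, ((Θ + 1) * n (cy y)) :=
          Finset.prod_le_prod' fun y _ => by nlinarith [hn (cy y)]
      _ = _ := by rw [Finset.prod_mul_distrib, Finset.prod_const, Finset.card_univ]
  have h2 : ∏ z, (D * (D * B * n (cz z)) + 1) ≤
      (D * D + 1) ^ Fintype.card ZZ * B ^ Fintype.card ZZ * ∏ z, n (cz z) := by
    calc ∏ z, (D * (D * B * n (cz z)) + 1) ≤ ∏ z, ((D * D + 1) * B * n (cz z)) :=
          Finset.prod_le_prod' fun z _ => by
            have h3 : 1 ≤ B * n (cz z) := Nat.mul_le_mul hB1 (hn (cz z))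
            nlinarith
      _ = _ := by
          rw [Finset.prod_mul_distrib, Finset.prod_const, Finset.card_univ, mul_pow]
  have h3 : (∏ y, n (cy y)) * ∏ z, n (cz z) = ∏ b, n (cb b) := by
    rw [prod_cls cy n, prod_cls cz n, prod_cls cb n, ← Finset.prod_mul_distrib]
    refine Finset.prod_congr rfl fun a _ => ?_
    rw [← pow_add, hcard a]
  calc 2 * (D ^ Fintype.card A * ((∏ y, (Θ * n (cy y) + 1)) *
        ∏ z, (D * (D * B * n (cz z)) + 1)))
      ≤ 2 * (D ^ Fintype.card A * (((Θ + 1) ^ Fintype.card YY * ∏ y, n (cy y)) *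
        ((D * D + 1) ^ Fintype.card ZZ * B ^ Fintype.card ZZ * ∏ z, n (cz z)))) :=
        Nat.mul_le_mul_left _ (Nat.mul_le_mul_left _ (Nat.mul_le_mul h1 h2))
    _ = (2 * D ^ Fintype.card A * (Θ + 1) ^ Fintype.card YY *
        (D * D + 1) ^ Fintype.card ZZ) * (B ^ Fintype.card ZZ *
        ((∏ y, n (cy y)) * ∏ z, n (cz z))) := by ring
    _ ≤ B * (B ^ Fintype.card ZZ * ((∏ y, n (cy y)) * ∏ z, n (cz z))) :=
        Nat.mul_le_mul_right _ hB
    _ = B ^ (Fintype.card ZZ + 1) * ∏ b, n (cb b) := by rw [h3]; ring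

private theorem card_bd {M β : Type} [Fintype β] (cb : β → M) (z B : ℕ) (n : M → ℕ) (M0 : ℝ)
    (hM : 1 ≤ M0) (hnM : ∀ a, (n a : ℝ) ≤ M0) :
    ((B ^ (z + 1) * ∏ b, n (cb b) : ℕ) : ℝ) ≤
      Real.exp (((z + 1) * B + Fintype.card β) * M0) := by
  have h0 : ∀ x : ℝ, x ≤ Real.exp x := fun x => by linarith [Real.add_one_le_exp x]
  have h1 : ((B : ℝ)) ^ (z + 1) ≤ Real.exp ((z + 1) * B * M0) := by
    calc ((B : ℝ)) ^ (z + 1) ≤ (Real.exp B) ^ (z + 1) :=
          pow_le_pow_left₀ (Nat.cast_nonneg _) (h0 _) _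
      _ = Real.exp ((z + 1) * B) := by
          rw [← Real.exp_nat_mul]; push_cast; ring_nf
      _ ≤ Real.exp ((z + 1) * B * M0) := by
          apply Real.exp_le_exp.2
          have : (0 : ℝ) ≤ (z + 1) * B := by positivity
          nlinarith
  have h2 : ((∏ b, n (cb b) : ℕ) : ℝ) ≤ Real.exp (Fintype.card β * M0) := by
    push_cast
    calc ∏ b, (n (cb b) : ℝ) ≤ ∏ _b : β, Real.exp M0 :=
          Finset.prod_le_prod (fun b _ => Nat.cast_nonneg _)
            (fun b _ => (hnM _).trans (h0 _))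
      _ = Real.exp (Fintype.card β * M0) := by
          rw [Finset.prod_const, Finset.card_univ, ← Real.exp_nat_mul]
  calc ((B ^ (z + 1) * ∏ b, n (cb b) : ℕ) : ℝ)
      = (B : ℝ) ^ (z + 1) * ((∏ b, n (cb b) : ℕ) : ℝ) := by push_cast; ring
    _ ≤ Real.exp ((z + 1) * B * M0) * Real.exp (Fintype.card β * M0) :=
        mul_le_mul h1 h2 (Nat.cast_nonneg _) (Real.exp_pos _).le
    _ = _ := by rw [← Real.exp_add]; ring_nf

/-- **The auxiliary coefficients.** -/
theorem aux {M β A YY ZZ : Type} [Fintype M] [Fintype β] [Fintype A] [Fintype YY] [Fintype ZZ]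
    [DecidableEq M] [DecidableEq β] (cb : β → M) (cy : YY → M) (cz : ZZ → M)
    (hcard : ∀ a, (Finset.univ.filter fun y => cy y = a).card +
      (Finset.univ.filter fun z => cz z = a).card = (Finset.univ.filter fun b => cb b = a).card)
    (D Θ B : ℕ) (hB : 2 * D ^ Fintype.card A * (Θ + 1) ^ Fintype.card YY *
      (D * D + 1) ^ Fintype.card ZZ ≤ B) (hB1 : 1 ≤ B)
    (n : M → ℕ) (M0 C1 : ℝ) (hn : ∀ a, 1 ≤ n a) (hM : 1 ≤ M0) (hnM : ∀ a, (n a : ℝ) ≤ M0)
    (hC : 0 ≤ C1)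
    (N : XI (Fintype.card ZZ) B n cb → (A → Fin D) → (YY ⊕ ZZ →₀ ℕ) → ℤ)
    (hN : ∀ x k ν, N x k ν ≠ 0 → ∀ a, cdeg (Sum.elim cy cz) ν a ≤ D * (D * B * n a))
    (hN1 : ∀ x k ν, |(N x k ν : ℝ)| ≤ Real.exp (C1 * M0)) :
    ∃ c : XI (Fintype.card ZZ) B n cb → ℤ, c ≠ 0 ∧
      (∀ x, |(c x : ℝ)| ≤
        Real.exp (((Fintype.card ZZ + 1) * B + Fintype.card β + C1) * M0)) ∧
      ∀ k ν, wy n cy ν < Θ → ∑ x, c x * N x k ν = 0 := by
  classical
  let IQ : Type := (A → Fin D) × ((∀ y, Fin (Θ * n (cy y) + 1)) ×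
    (∀ z, Fin (D * (D * B * n (cz z)) + 1)))
  let nu : IQ → (YY ⊕ ZZ →₀ ℕ) := fun q =>
    Finsupp.equivFunOnFinite.symm (Sum.elim (fun y => (q.2.1 y : ℕ)) (fun z => (q.2.2 z : ℕ)))
  have hXI : Fintype.card (XI (Fintype.card ZZ) B n cb) =
      B ^ (Fintype.card ZZ + 1) * ∏ b, n (cb b) := by
    simp [XI]
  have hIQ : Fintype.card IQ = D ^ Fintype.card A * ((∏ y, (Θ * n (cy y) + 1)) *
      ∏ z, (D * (D * B * n (cz z)) + 1)) := by
    simp [IQ]
  have hne : Nonempty (XI (Fintype.card ZZ) B n cb) := by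
    rw [← Fintype.card_pos_iff, hXI]
    have h1 : 0 < ∏ b, n (cb b) := Finset.prod_pos fun b _ => hn _
    positivity
  have hY : 1 ≤ Real.exp (C1 * M0) := by
    rw [← Real.exp_zero]
    exact Real.exp_le_exp.2 (mul_nonneg hC (by linarith))
  obtain ⟨c, hc, hcb, hc0⟩ := LAll.siegel (fun (q : IQ) x => N x q.1 (nu q))
    (Real.exp (C1 * M0)) hY (fun q x => hN1 _ _ _) (by
      rw [hXI, hIQ]
      exact count cb cy cz hcard D Θ B hB hB1 n hn)
  refine ⟨c, hc, fun x => ?_, fun k ν hν => ?_⟩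
  · refine (hcb x).trans ?_
    rw [hXI]
    refine (mul_le_mul_of_nonneg_right (card_bd cb (Fintype.card ZZ) B n M0 hM hnM)
      (Real.exp_pos _).le).trans (le_of_eq ?_)
    rw [← Real.exp_add]
    congr 1
    ring
  · by_cases hall : ∃ a, D * (D * B * n a) < cdeg (Sum.elim cy cz) ν a
    · obtain ⟨a, ha⟩ := hall
      refine Finset.sum_eq_zero fun x _ => ?_
      have h0 : N x k ν = 0 := by
        by_contra h
        exact absurd (hN x k ν h a) (not_le.2 ha)
      rw [h0, mul_zero]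
    · push Not at hall
      have hy : ∀ y, ν (Sum.inl y) < Θ * n (cy y) + 1 := by
        intro y
        have h1 : (ν (Sum.inl y) : ℝ) / n (cy y) ≤ wy n cy ν :=
          Finset.single_le_sum (f := fun y => (ν (Sum.inl y) : ℝ) / n (cy y))
            (fun y _ => by positivity) (Finset.mem_univ y)
        have h2 : (0 : ℝ) < n (cy y) := by exact_mod_cast hn (cy y)
        have h3 : (ν (Sum.inl y) : ℝ) < Θ * n (cy y) := by
          rw [← div_lt_iff₀ h2]
          exact h1.trans_lt hν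
        have h4 : ν (Sum.inl y) < Θ * n (cy y) := by exact_mod_cast h3
        omega
      have hz : ∀ z, ν (Sum.inr z) < D * (D * B * n (cz z)) + 1 := by
        intro z
        have h1 : ν (Sum.inr z) ≤ cdeg (Sum.elim cy cz) ν (cz z) := by
          unfold cdeg
          exact Finset.single_le_sum (f := fun u => ν u) (fun _ _ => Nat.zero_le _)
            (Finset.mem_filter.2 ⟨Finset.mem_univ _, rfl⟩)
        have h2 := hall (cz z)
        omega
      have h1 := hc0 (k, (fun y => ⟨ν (Sum.inl y), hy y⟩), fun z => ⟨ν (Sum.inr z), hz z⟩)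
      have h2 : nu (k, (fun y => ⟨ν (Sum.inl y), hy y⟩), fun z => ⟨ν (Sum.inr z), hz z⟩) = ν := by
        ext u
        rcases u with y | z <;> simp [nu]
      simp only [h2] at h1
      rw [← h1]
      exact Finset.sum_congr rfl fun x _ => mul_comm _ _

end Pool.Agent.LSharp
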