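import Pool.Agent.LSharp.L1
import Pool.Agent.LAll.Places

set_option autoImplicit false

/-! Theorem U#, block CORE: definitions. The auxiliary functions of section 5, at one level: a
number field `K`, finitely many places, power series in the variables `β` over `K`. Nothing here
mentions ultraproducts.

Types: `M` the classes, `β` the variables of the power series, `A` the generators, `YY` and `ZZ` the
normalising elements; `cb`, `ca`, `cy`, `cz` are their classes. -/

namespace Pool.Agent.LSharp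

open NumberField Pool.Agent.LAll

section

variable {M U : Type} [Fintype U] [DecidableEq M]

/-- The degree of the monomial `ν` in the variables of the class `a`. -/
def cdeg (c : U → M) (ν : U →₀ ℕ) (a : M) : ℕ := ∑ u with c u = a, ν u

/-- All monomials of `P` have degree at most `d a` in the variables of the class `a`. -/
def CD (c : U → M) (P : MvPolynomial U ℤ) (d : M → ℕ) : Prop :=
  ∀ ν ∈ P.support, ∀ a, cdeg c ν a ≤ d a

theorem cdeg_add (c : U → M) (ν ν' : U →₀ ℕ) (a : M) :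
    cdeg c (ν + ν') a = cdeg c ν a + cdeg c ν' a := by
  simp [cdeg, Finset.sum_add_distrib]

theorem CD.mono {c : U → M} {P : MvPolynomial U ℤ} {d d' : M → ℕ} (h : CD c P d) (hd : d ≤ d') :
    CD c P d' := fun ν hν a => (h ν hν a).trans (hd a)

theorem CD.zero {c : U → M} {d : M → ℕ} : CD c (0 : MvPolynomial U ℤ) d := by
  intro ν hν
  simp at hν

theorem CD.C {c : U → M} (z : ℤ) {d : M → ℕ} : CD c (MvPolynomial.C z : MvPolynomial U ℤ) d := by
  classical
  intro ν hν a
  have h : ν = 0 := by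
    by_contra h0
    rw [MvPolynomial.mem_support_iff, MvPolynomial.coeff_C] at hν
    rw [if_neg (Ne.symm h0)] at hν
    exact hν rfl
  rw [h]
  simp [cdeg]

theorem CD.add {c : U → M} {P P' : MvPolynomial U ℤ} {d : M → ℕ} (h : CD c P d) (h' : CD c P' d) :
    CD c (P + P') d := by
  classical
  intro ν hν a
  rcases Finset.mem_union.1 (MvPolynomial.support_add hν) with h1 | h1
  · exact h ν h1 a
  · exact h' ν h1 a

theorem CD.mul {c : U → M} {P P' : MvPolynomial U ℤ} {d d' : M → ℕ} (h : CD c P d)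
    (h' : CD c P' d') : CD c (P * P') (d + d') := by
  classical
  intro ν hν a
  obtain ⟨x, hx, y, hy, rfl⟩ := Finset.mem_add.1 (MvPolynomial.support_mul P P' hν)
  rw [cdeg_add]
  exact add_le_add (h x hx a) (h' y hy a)

theorem CD.prod {c : U → M} {I : Type} (s : Finset I) {P : I → MvPolynomial U ℤ} {d : I → M → ℕ}
    (h : ∀ i ∈ s, CD c (P i) (d i)) : CD c (∏ i ∈ s, P i) (∑ i ∈ s, d i) := by
  classical
  induction s using Finset.induction_on with
  | empty =>
    rw [Finset.prod_empty, Finset.sum_empty, ← map_one MvPolynomial.C]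
    exact CD.C 1
  | insert a s ha ih =>
    rw [Finset.prod_insert ha, Finset.sum_insert ha]
    exact (h a (Finset.mem_insert_self a s)).mul
      (ih fun i hi => h i (Finset.mem_insert_of_mem hi))

end

section

variable {M β : Type} [Fintype β]

/-- The weighted degree of the exponent `i`: all variables of the class `a` have weight
`1 / n a`. -/
noncomputable def wtn (n : M → ℕ) (cb : β → M) (i : β →₀ ℕ) : ℝ := ∑ b, (i b : ℝ) / n (cb b)

/-- The indices of the auxiliary functions: `B ^ (z + 1)` times `∏ n (cb b)` of them. -/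
abbrev XI (z B : ℕ) (n : M → ℕ) (cb : β → M) : Type := (Fin (z + 1) → Fin B) × (∀ b, Fin (n (cb b)))

end

section

variable {M β A YY ZZ : Type} [Fintype β] [Fintype A] [Fintype YY] [Fintype ZZ] [DecidableEq M]

/-- The weight of a monomial in the variables `YY`. -/
noncomputable def wy (n : M → ℕ) (cy : YY → M) (ν : YY ⊕ ZZ →₀ ℕ) : ℝ :=
  ∑ y, (ν (Sum.inl y) : ℝ) / n (cy y)

/-- **The data at one level.** `F (inl s)`, `s : A`, are the generators, `F (inr (inl y))` the
functions `Y`, `F (inr (inr z))` the functions `Z`, as power series. -/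
structure Lvl (cb : β → M) (ca : A → M) (cy : YY → M) (cz : ZZ → M) (D : ℕ) (ε μ δ : ℝ)
    (K : Type) [Field K] [NumberField K] (S : Finset (FinitePlace K)) where
  /-- the degrees -/
  n : M → ℕ
  /-- the heights -/
  h : M → ℝ
  /-- the heights of the coefficients of the equations -/
  κ : M → ℝ
  T : ℝ
  M0 : ℝ
  F : A ⊕ (YY ⊕ ZZ) → MvPowerSeries β K
  /-- the leading coefficients of the equations -/
  bb : A → ℤ
  /-- the equations -/
  pp : A → Fin D → MvPolynomial (YY ⊕ ZZ) ℤ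
  /-- the logarithms of the radii of convergence -/
  Q : Plc K S → β → ℝ
  /-- the places of the type set -/
  TT : Finset (Plc K S)
  m : Plc K S → ℝ
  one_le_n : ∀ a, 1 ≤ n a
  one_le_h : ∀ a, 1 ≤ h a
  T_le : ∀ a, T ≤ n a * h a
  le_T : ∀ a, n a * h a ≤ 2 * T
  one_le_M0 : 1 ≤ M0
  n_le : ∀ a, (n a : ℝ) ≤ M0
  one_le_κ : ∀ a, 1 ≤ κ a
  nκ_le : ∀ a, n a * κ a ≤ D * M0
  bb_ne : ∀ s, bb s ≠ 0
  bb_le : ∀ s, |(bb s : ℝ)| ≤ Real.exp (D * κ (ca s))
  pp_cls : ∀ s i, ∀ ν ∈ (pp s i).support, ∀ u, ν u ≠ 0 → Sum.elim cy cz u = ca s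
  pp_deg : ∀ s i, (pp s i).totalDegree ≤ D
  pp_L1 : ∀ s i, L1 (pp s i) ≤ Real.exp (D * κ (ca s))
  eqn : ∀ s, (bb s : MvPowerSeries β K) * F (Sum.inl s) ^ D =
    ∑ i : Fin D, MvPolynomial.eval₂ (Int.castRingHom (MvPowerSeries β K))
      (fun u => F (Sum.inr u)) (pp s i) * F (Sum.inl s) ^ (i : ℕ)
  F0 : ∀ u, MvPowerSeries.constantCoeff (F u) ≠ 0
  intOff : ∀ u i, IntOff S (MvPowerSeries.coeff i (F u))
  Q_nonneg : ∀ v b, 0 ≤ Q v b
  sum_Q : ∀ b, ∑ v, Q v b ≤ D * h (cb b)
  coeff_le : ∀ u v i, MvPowerSeries.coeff i (F u) ≠ 0 → lam v (MvPowerSeries.coeff i (F u)) ≤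
    lam v (MvPowerSeries.constantCoeff (F u)) + ∑ b, (i b : ℝ) * Q v b + D * LAll.wt v
  m_nonneg : ∀ v, 0 ≤ m v
  sum_m : ∑ v, m v ≤ D
  mass : μ ≤ ∑ v ∈ TT, m v
  lamY : ∀ y, ∀ v ∈ TT, lam v (MvPowerSeries.constantCoeff (F (Sum.inr (Sum.inl y)))) ≤
    -(ε * h (cy y) * m v)
  lamF : ∀ u, ∀ v ∈ TT, lam v (MvPowerSeries.constantCoeff (F u)) ≤
    δ * h (Sum.elim ca (Sum.elim cy cz) u) * m v

/-- The auxiliary function with the coefficients `c` and the exponents `al`. -/
noncomputable def Lvl.aux [DecidableEq β] {cb : β → M} {ca : A → M} {cy : YY → M} {cz : ZZ → M}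
    {D : ℕ} {ε μ δ : ℝ} {K : Type} [Field K] [NumberField K] {S : Finset (FinitePlace K)}
    (L : Lvl cb ca cy cz D ε μ δ K S) {z B : ℕ} (al : XI z B L.n cb → A → ℕ)
    (c : XI z B L.n cb → ℤ) : MvPowerSeries β K :=
  ∑ x, (c x : MvPowerSeries β K) * ∏ s, L.F (Sum.inl s) ^ al x s

end

end Pool.Agent.LSharp
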