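import Pool.Agent.LSharp.CONorm

set_option autoImplicit false

/-! Package CO6: the estimate at an arbitrary place.

PROOF. Write `p = card A`, `q = card β`. Put
`C = CB + q + (D + q) * (p * D * B) + ((card ZZ + 1) * B + q)`.
`coeff i (L.aux al c) = ∑ x, (c x : K) * coeff i (∏ s, F (inl s) ^ al x s)` (`map_sum`,
`MvPowerSeries.coeff_C_mul` after writing the integer as `C (c x : K)`: `map_intCast`). Apply
`lam_sum_le` with `M = exp (((card ZZ + 1) * B + q) * M0) ≥ card (XI ..) = B ^ (card ZZ + 1) ∏ b, n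
(cb b)`
(`B ≤ exp B`, `n ≤ M0 ≤ exp M0`, `1 ≤ M0`). For a nonzero term: `lam_mul`,
`lam v (c x) ≤ wt v * log |c x| ≤ wt v * (CB * M0)` (`lam_int_le`, `wt_nonneg`), and
`lam_coeff_prod` with `F j = L.F (inl j)`, `c j = lam v (constantCoeff (L.F (inl j)))`
(`L.coeff_le`),
`e = al x`: `∑ s, al x s * lam v (constantCoeff ..) = lam v (∏ ..) ≤ t` (`lam_prod`, `lam_pow`,
`L.F0`).
`∑ b, (i b : ℝ) ≤ q * M0`: `i b / n (cb b) ≤ wtn L.n cb i ≤ 1` (`Finset.single_le_sum`), so
`i b ≤ n (cb b) ≤ M0`. `∑ s, (al x s : ℝ) ≤ p * D * B * M0` by `hal`. -/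

namespace Pool.Agent.LSharp

open NumberField Pool.Agent.LAll MvPowerSeries

private theorem coeff_int_mul {β K : Type} [Field K] (z : ℤ) (f : MvPowerSeries β K)
    (i : β →₀ ℕ) : coeff i ((z : MvPowerSeries β K) * f) = (z : K) * coeff i f := by
  rw [← zsmul_eq_mul, map_zsmul, zsmul_eq_mul]

private theorem expo_le {M β : Type} [Fintype β] {n : M → ℕ} {cb : β → M} {i : β →₀ ℕ}
    (hn : ∀ a, 1 ≤ n a) (hi : wtn n cb i ≤ 1) (b : β) : (i b : ℝ) ≤ n (cb b) := by
  have h0 : (0 : ℝ) < n (cb b) := by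
    exact_mod_cast hn (cb b)
  have h1 : (i b : ℝ) / n (cb b) ≤ wtn n cb i :=
    Finset.single_le_sum (f := fun b => (i b : ℝ) / n (cb b))
      (fun b _ => div_nonneg (Nat.cast_nonneg _) (Nat.cast_nonneg _)) (Finset.mem_univ b)
  have h2 := h1.trans hi
  rwa [div_le_one h0] at h2

private theorem log_le_of_abs {z : ℤ} (hz : z ≠ 0) {X : ℝ} (h : |(z : ℝ)| ≤ Real.exp X) :
    Real.log |(z : ℝ)| ≤ X := by
  have h1 : 0 < |(z : ℝ)| := abs_pos.2 (Int.cast_ne_zero.2 hz)
  rw [← Real.log_exp X]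
  exact Real.log_le_log h1 h

private theorem card_XI_le {M β : Type} [Fintype β] [DecidableEq β] {n : M → ℕ} {cb : β → M}
    {M0 : ℝ} (h1 : 1 ≤ M0) (hn : ∀ a, (n a : ℝ) ≤ M0) (z B : ℕ) :
    ((Finset.univ : Finset (XI z B n cb)).card : ℝ) ≤
      Real.exp ((((z : ℝ) + 1) * B + Fintype.card β) * M0) := by
  have h2 : ((Finset.univ : Finset (XI z B n cb)).card : ℝ) =
      (B : ℝ) ^ (z + 1) * ∏ b, (n (cb b) : ℝ) := by
    rw [Finset.card_univ, Fintype.card_prod, Fintype.card_fun, Fintype.card_fin, Fintype.card_fin,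
      Fintype.card_pi]
    simp only [Fintype.card_fin]
    push_cast
    rfl
  have h3 : (B : ℝ) ^ (z + 1) ≤ Real.exp (((z : ℝ) + 1) * B) := by
    have h4 : (B : ℝ) ≤ Real.exp B := by
      have := Real.add_one_le_exp (B : ℝ)
      linarith
    calc (B : ℝ) ^ (z + 1) ≤ Real.exp B ^ (z + 1) :=
          pow_le_pow_left₀ (Nat.cast_nonneg _) h4 _
      _ = Real.exp (((z : ℝ) + 1) * B) := by
          rw [← Real.exp_nat_mul]
          push_cast
          rfl
  have h5 : ∏ b, (n (cb b) : ℝ) ≤ Real.exp (Fintype.card β * M0) := by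
    calc ∏ b, (n (cb b) : ℝ) ≤ ∏ _b : β, Real.exp M0 := by
          refine Finset.prod_le_prod (fun b _ => Nat.cast_nonneg _) fun b _ => ?_
          have := Real.add_one_le_exp M0
          linarith [hn (cb b)]
      _ = Real.exp (Fintype.card β * M0) := by
          rw [Finset.prod_const, Finset.card_univ, ← Real.exp_nat_mul]
  rw [h2]
  calc (B : ℝ) ^ (z + 1) * ∏ b, (n (cb b) : ℝ)
      ≤ Real.exp (((z : ℝ) + 1) * B) * Real.exp (Fintype.card β * M0) :=
        mul_le_mul h3 h5 (Finset.prod_nonneg fun b _ => Nat.cast_nonneg _) (Real.exp_pos _).le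
    _ = Real.exp (((z : ℝ) + 1) * B + Fintype.card β * M0) := (Real.exp_add _ _).symm
    _ ≤ Real.exp ((((z : ℝ) + 1) * B + Fintype.card β) * M0) := by
        refine Real.exp_le_exp.2 ?_
        have h6 : (0 : ℝ) ≤ ((z : ℝ) + 1) * B := by positivity
        nlinarith

/-- **Estimate at an arbitrary place.** -/
theorem est_all {M β A YY ZZ : Type} [Fintype β] [Fintype A] [Fintype YY] [Fintype ZZ]
    [DecidableEq M] [DecidableEq β] (cb : β → M) (ca : A → M) (cy : YY → M) (cz : ZZ → M)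
    (D B : ℕ) (ε μ CB : ℝ) (hCB : 0 ≤ CB) :
    ∃ C : ℝ, 0 ≤ C ∧ ∀ (δ : ℝ) (K : Type) [Field K] [NumberField K] (S : Finset (FinitePlace K))
      (L : Lvl cb ca cy cz D ε μ δ K S) (al : XI (Fintype.card ZZ) B L.n cb → A → ℕ)
      (c : XI (Fintype.card ZZ) B L.n cb → ℤ) (v : Plc K S) (t : ℝ) (i : β →₀ ℕ),
      (∀ x s, al x s ≤ D * B * L.n (ca s)) → (∀ x, |(c x : ℝ)| ≤ Real.exp (CB * L.M0)) →
      (∀ x, lam v (∏ s, constantCoeff (L.F (Sum.inl s)) ^ al x s) ≤ t) → wtn L.n cb i ≤ 1 →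
      coeff i (L.aux al c) ≠ 0 →
      lam v (coeff i (L.aux al c)) ≤
        t + ∑ b, (i b : ℝ) * L.Q v b + LAll.wt v * (C * L.M0) := by
  classical
  have hp0 : (0 : ℝ) ≤ (Fintype.card A : ℝ) := Nat.cast_nonneg _
  have hq0 : (0 : ℝ) ≤ (Fintype.card β : ℝ) := Nat.cast_nonneg _
  refine ⟨CB + Fintype.card β + (D + Fintype.card β) * (Fintype.card A * D * B) +
    (((Fintype.card ZZ : ℝ) + 1) * B + Fintype.card β), by positivity, ?_⟩
  intro δ K _ _ S L al c v t i hal hc ht hi hne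
  have hM0 : 0 ≤ L.M0 := zero_le_one.trans L.one_le_M0
  have hcoe : coeff i (L.aux al c) =
      ∑ x, (c x : K) * coeff i (∏ s, L.F (Sum.inl s) ^ al x s) := by
    unfold Lvl.aux
    rw [map_sum]
    exact Finset.sum_congr rfl fun x _ => coeff_int_mul _ _ _
  rw [hcoe] at hne ⊢
  have hib : ∑ b, (i b : ℝ) ≤ Fintype.card β * L.M0 := by
    calc ∑ b, (i b : ℝ) ≤ ∑ _b : β, L.M0 :=
          Finset.sum_le_sum fun b _ => (expo_le L.one_le_n hi b).trans (L.n_le _)
      _ = Fintype.card β * L.M0 := by rw [Finset.sum_const, Finset.card_univ, nsmul_eq_mul]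
  have hterm : ∀ x ∈ (Finset.univ : Finset (XI (Fintype.card ZZ) B L.n cb)),
      (c x : K) * coeff i (∏ s, L.F (Sum.inl s) ^ al x s) ≠ 0 →
      lam v ((c x : K) * coeff i (∏ s, L.F (Sum.inl s) ^ al x s)) ≤
        t + ∑ b, (i b : ℝ) * L.Q v b + LAll.wt v * ((CB + Fintype.card β +
          (D + Fintype.card β) * (Fintype.card A * D * B)) * L.M0) := by
    intro x _ hx
    obtain ⟨hx1, hx2⟩ := mul_ne_zero_iff.1 hx
    have hcx : c x ≠ 0 := by
      intro h0
      rw [h0, Int.cast_zero] at hx1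
      exact hx1 rfl
    rw [lam_mul v hx1 hx2]
    have h1 : lam v ((c x : ℤ) : K) ≤ LAll.wt v * (CB * L.M0) :=
      (lam_int_le v (c x) hcx).trans
        (mul_le_mul_of_nonneg_left (log_le_of_abs hcx (hc x)) (LAll.wt_nonneg v))
    have h2 := lam_coeff_prod v (fun j => L.F (Sum.inl j))
      (fun j => lam v (constantCoeff (L.F (Sum.inl j)))) (D : ℝ) (Nat.cast_nonneg D) (L.Q v)
      (L.Q_nonneg v) (fun j i h => L.coeff_le (Sum.inl j) v i h) (al x) i hx2
    have h3 : ∑ j, (al x j : ℝ) * lam v (constantCoeff (L.F (Sum.inl j))) ≤ t := by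
      refine le_trans (le_of_eq ?_) (ht x)
      rw [lam_prod v Finset.univ _ fun s _ => pow_ne_zero _ (L.F0 (Sum.inl s))]
      exact Finset.sum_congr rfl fun s _ => (lam_pow v _ _).symm
    have h4 : ∑ s, (al x s : ℝ) ≤ Fintype.card A * D * B * L.M0 := by
      calc ∑ s, (al x s : ℝ) ≤ ∑ _s : A, (D : ℝ) * B * L.M0 := by
            refine Finset.sum_le_sum fun s _ => ?_
            have h5 : (al x s : ℝ) ≤ (D : ℝ) * B * L.n (ca s) := by exact_mod_cast hal x s
            exact h5.trans (mul_le_mul_of_nonneg_left (L.n_le _) (by positivity))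
        _ = Fintype.card A * D * B * L.M0 := by
            rw [Finset.sum_const, Finset.card_univ, nsmul_eq_mul]
            ring
    have h6 : LAll.wt v * (∑ b, (i b : ℝ) + ((D : ℝ) + Fintype.card β) * ∑ j, (al x j : ℝ)) ≤
        LAll.wt v * (Fintype.card β * L.M0 +
          (D + Fintype.card β) * (Fintype.card A * D * B * L.M0)) := by
      refine mul_le_mul_of_nonneg_left (add_le_add hib ?_) (LAll.wt_nonneg v)
      exact mul_le_mul_of_nonneg_left h4 (by positivity)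
    calc lam v ((c x : ℤ) : K) + lam v (coeff i (∏ s, L.F (Sum.inl s) ^ al x s))
        ≤ LAll.wt v * (CB * L.M0) + (t + ∑ b, (i b : ℝ) * L.Q v b +
          LAll.wt v * (Fintype.card β * L.M0 +
            (D + Fintype.card β) * (Fintype.card A * D * B * L.M0))) := by
          linarith
      _ = _ := by ring
  have hfin := lam_sum_le v Finset.univ _ _ _ (card_XI_le L.one_le_M0 L.n_le (Fintype.card ZZ) B)
    hterm hne
  rw [Real.log_exp] at hfin
  refine hfin.trans (le_of_eq ?_)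
  ring

end Pool.Agent.LSharp
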