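import Pool.Agent.LSharp.CONorm

set_option autoImplicit false

/-! Package CO7: the estimate at a place of the type set.

PROOF. Write `p = card A`, `q = card β`, `U = YY ⊕ ZZ`, `E = D * (D * B)` (so `ν u ≤ E * n (class
u)` for all `ν ∈ (P k).support`, from `hCD` and `ν u ≤ cdeg ..`, `Finset.single_le_sum`).
`coeff i (bt * G) = bt * coeff i G` and, expanding `aeval` (`MvPolynomial.aeval_def`,
`MvPolynomial.eval₂_eq'` or `MvPolynomial.as_sum`), it is the sum over the pairs `(k, ν)`,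
`ν ∈ (P k).support`, of `(coeff ν (P k) : K) * coeff i (∏ u, F (inr u) ^ ν u * ∏ s, F (inl s) ^ k
s)`. The number of pairs is at most `D ^ p * ∏ u, (E * n u + 1) ≤ exp (C' * M0)`: the supports lie
in
`Finset.Iic f`, `f u = E * n (class u)` (`Finsupp.card_Iic`), `E n + 1 ≤ exp (E M0)`, `D ^ p ≤ exp
(D p)`. Use `Finset.sum_sigma'` and `lam_sum_le`. A nonzero term has, by `lam_coeff_prod` with `I =
A ⊕ U`,
`F = L.F`, `e = Sum.elim (fun s => k s) ν` (`Fintype.prod_sum_type`), `c j = lam v (constantCoeff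
..)`,
`lam v ≤ wt v log |coeff ν (P k)| + ∑ y, ν (inl y) lam v (Y_y (0)) + ∑ z, ν (inr z) lam v (Z_z (0))
+ ∑ s, k s lam v (F_s (0)) + ∑ b, i b Q v b + wt v * (∑ b, i b + (D + q) (∑ s, k s + ∑ u, ν u))`,
where * `∑ y, ν (inl y) lam v (Y_y (0)) ≤ - ε m v ∑ y, ν (inl y) h (cy y)` (`L.lamY`), and
  `h (cy y) ≥ T / n (cy y)` (`L.T_le`), so it is `≤ - ε m v T wy ν ≤ - ε m v T Θ`;
* `∑ z, ν (inr z) lam v (Z_z (0)) ≤ δ m v ∑ z, E n (cz z) h (cz z) ≤ δ m v card ZZ * E * 2 T`;
* `∑ s, k s lam v (F_s (0)) ≤ δ m v ∑ s, D h (ca s) ≤ δ m v p D 2 T` (`h ≤ n h ≤ 2 T`);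
* `∑ b, i b ≤ q M0`, `∑ s, k s ≤ p D`, `∑ u, ν u ≤ E * card U * M0`, `log |coeff| ≤ C1 M0`.
Finally `lam v (bt * coeff i G) = lam v bt + lam v (coeff i G)` (`lam_mul`, `bt ≠ 0`). -/

namespace Pool.Agent.LSharp

open NumberField Pool.Agent.LAll MvPowerSeries

private theorem coeff_int_mul {β K : Type} [Field K] (z : ℤ) (f : MvPowerSeries β K)
    (i : β →₀ ℕ) : coeff i ((z : MvPowerSeries β K) * f) = (z : K) * coeff i f := by
  rw [← zsmul_eq_mul, map_zsmul, zsmul_eq_mul]

private theorem expo_le {M β : Type} [Fintype β] {n : M → ℕ} {cb : β → M} {i : β →₀ ℕ}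
    (hn : ∀ a, 1 ≤ n a) (hi : wtn n cb i ≤ 1) (b : β) : (i b : ℝ) ≤ n (cb b) := by
  have h0 : (0 : ℝ) < n (cb b) := by
    exact_mod_cast hn (cb b)
  have h1 : (i b : ℝ) / n (cb b) ≤ wtn n cb i :=
    Finset.single_le_sum (f := fun b => (i b : ℝ) / n (cb b))
      (fun b _ => div_nonneg (Nat.cast_nonneg _) (Nat.cast_nonneg _)) (Finset.mem_univ b)
  have h2 := h1.trans hi
  rwa [div_le_one h0] at h2

private theorem log_le_of_abs {z : ℤ} (hz : z ≠ 0) {X : ℝ} (h : |(z : ℝ)| ≤ Real.exp X) :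
    Real.log |(z : ℝ)| ≤ X := by
  have h1 : 0 < |(z : ℝ)| := abs_pos.2 (Int.cast_ne_zero.2 hz)
  rw [← Real.log_exp X]
  exact Real.log_le_log h1 h

/-- Number of monomials of bounded degrees. -/
private theorem card_supp_le {U : Type} [Fintype U] {P : MvPolynomial U ℤ} {f : U → ℕ}
    (h : ∀ ν ∈ P.support, ∀ u, ν u ≤ f u) : P.support.card ≤ ∏ u, (f u + 1) := by
  classical
  have h1 : P.support ⊆ (Finset.univ : Finset (∀ u, Fin (f u + 1))).image
      (fun g => Finsupp.equivFunOnFinite.symm fun u => (g u : ℕ)) := by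
    intro ν hν
    refine Finset.mem_image.2 ⟨fun u => ⟨ν u, Nat.lt_succ_of_le (h ν hν u)⟩,
      Finset.mem_univ _, ?_⟩
    ext u
    rfl
  refine (Finset.card_le_card h1).trans (Finset.card_image_le.trans (le_of_eq ?_))
  rw [Finset.card_univ, Fintype.card_pi]
  exact Finset.prod_congr rfl fun u _ => Fintype.card_fin _

/-- Number of pairs. -/
private theorem card_pairs_le {A U : Type} [Fintype A] [DecidableEq A] [Fintype U] {D : ℕ}
    {P : (A → Fin D) → MvPolynomial U ℤ} {E : ℕ} {nn : U → ℕ} {M0 : ℝ} (h1 : 1 ≤ M0)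
    (hn : ∀ u, (nn u : ℝ) ≤ M0) (h : ∀ k, ∀ ν ∈ (P k).support, ∀ u, ν u ≤ E * nn u) :
    (((Finset.univ : Finset (A → Fin D)).sigma fun k => (P k).support).card : ℝ) ≤
      Real.exp ((Fintype.card A * D + E * Fintype.card U) * M0) := by
  rw [Finset.card_sigma]
  push_cast
  have h2 : ∀ k ∈ (Finset.univ : Finset (A → Fin D)), (((P k).support.card : ℕ) : ℝ) ≤
      Real.exp (E * Fintype.card U * M0) := by
    intro k _
    calc (((P k).support.card : ℕ) : ℝ) ≤ ((∏ u, (E * nn u + 1) : ℕ) : ℝ) := by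
          exact_mod_cast card_supp_le (h k)
      _ = ∏ u, ((E : ℝ) * nn u + 1) := by push_cast; rfl
      _ ≤ ∏ _u : U, Real.exp (E * M0) := by
          refine Finset.prod_le_prod (fun u _ => by positivity) fun u _ => ?_
          refine (Real.add_one_le_exp _).trans (Real.exp_le_exp.2 ?_)
          exact mul_le_mul_of_nonneg_left (hn u) (Nat.cast_nonneg _)
      _ = Real.exp (E * Fintype.card U * M0) := by
          rw [Finset.prod_const, Finset.card_univ, ← Real.exp_nat_mul]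
          congr 1
          ring
  refine (Finset.sum_le_sum h2).trans ?_
  rw [Finset.sum_const, Finset.card_univ, Fintype.card_fun, Fintype.card_fin, nsmul_eq_mul]
  push_cast
  have h3 : (D : ℝ) ^ Fintype.card A ≤ Real.exp (Fintype.card A * D * M0) := by
    have h4 : (D : ℝ) ≤ Real.exp D := by
      have := Real.add_one_le_exp (D : ℝ)
      linarith
    calc (D : ℝ) ^ Fintype.card A ≤ Real.exp D ^ Fintype.card A :=
          pow_le_pow_left₀ (Nat.cast_nonneg _) h4 _
      _ = Real.exp (Fintype.card A * D) := by rw [← Real.exp_nat_mul]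
      _ ≤ Real.exp (Fintype.card A * D * M0) := by
          refine Real.exp_le_exp.2 ?_
          have h6 : (0 : ℝ) ≤ (Fintype.card A : ℝ) * D := by positivity
          nlinarith
  calc (D : ℝ) ^ Fintype.card A * Real.exp (E * Fintype.card U * M0)
      ≤ Real.exp (Fintype.card A * D * M0) * Real.exp (E * Fintype.card U * M0) :=
        mul_le_mul_of_nonneg_right h3 (Real.exp_pos _).le
    _ = _ := by
        rw [← Real.exp_add]
        congr 1
        ring

/-- **Estimate at a place of the type set.** -/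
theorem est_TT {M β A YY ZZ : Type} [Fintype β] [Fintype A] [Fintype YY] [Fintype ZZ]
    [DecidableEq M] [DecidableEq β] [DecidableEq A] (cb : β → M) (ca : A → M) (cy : YY → M)
    (cz : ZZ → M) (D Θ B : ℕ) (ε μ C1 : ℝ) (hε : 0 < ε) (hC1 : 0 ≤ C1) :
    ∃ C : ℝ, 0 ≤ C ∧ ∀ (δ : ℝ) (K : Type) [Field K] [NumberField K] (S : Finset (FinitePlace K))
      (L : Lvl cb ca cy cz D ε μ δ K S) (G : MvPowerSeries β K) (bt : ℤ)
      (P : (A → Fin D) → MvPolynomial (YY ⊕ ZZ) ℤ) (v : Plc K S) (i : β →₀ ℕ),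
      0 ≤ δ → 0 < L.T → bt ≠ 0 →
      (∀ k, CD (Sum.elim cy cz) (P k) (fun a => D * (D * B * L.n a))) →
      (∀ k ν, |(((P k).coeff ν : ℤ) : ℝ)| ≤ Real.exp (C1 * L.M0)) →
      (∀ k, ∀ ν ∈ (P k).support, (Θ : ℝ) ≤ wy L.n cy ν) →
      ((bt : MvPowerSeries β K) * G = ∑ k : A → Fin D,
        MvPolynomial.aeval (fun u => L.F (Sum.inr u)) (P k) * ∏ s, L.F (Sum.inl s) ^ (k s : ℕ)) →
      v ∈ L.TT → wtn L.n cb i ≤ 1 → coeff i G ≠ 0 →
      lam v (coeff i G) ≤ -(ε * Θ * (L.m v * L.T)) + δ * C * (L.m v * L.T) +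
        ∑ b, (i b : ℝ) * L.Q v b + LAll.wt v * (C * L.M0) - lam v (bt : K) := by
  classical
  have hA0 : (0 : ℝ) ≤ (Fintype.card A : ℝ) := Nat.cast_nonneg _
  obtain ⟨E, hE⟩ : ∃ E : ℕ, E = D * (D * B) := ⟨_, rfl⟩
  refine ⟨(Fintype.card A * D * 2 + Fintype.card ZZ * E * 2) + (C1 + Fintype.card β +
    (D + Fintype.card β) * (Fintype.card A * D + E * Fintype.card (YY ⊕ ZZ)) +
    (Fintype.card A * D + E * Fintype.card (YY ⊕ ZZ))), by positivity, ?_⟩
  intro δ K _ _ S L G bt P v i hδ hT hbt hCD hco hwy heq hv hi hne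
  have hM0 : 0 ≤ L.M0 := zero_le_one.trans L.one_le_M0
  have hmT : 0 ≤ L.m v * L.T := mul_nonneg (L.m_nonneg v) hT.le
  have hdeg : ∀ k, ∀ ν ∈ (P k).support, ∀ u, ν u ≤ E * L.n (Sum.elim cy cz u) := by
    intro k ν hν u
    have h1 := hCD k ν hν (Sum.elim cy cz u)
    have h2 : ν u ≤ cdeg (Sum.elim cy cz) ν (Sum.elim cy cz u) :=
      Finset.single_le_sum (f := fun u => ν u) (fun _ _ => Nat.zero_le _)
        (Finset.mem_filter.2 ⟨Finset.mem_univ u, rfl⟩)
    refine h2.trans (h1.trans (le_of_eq ?_))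
    rw [hE]
    ring
  have hib : ∑ b, (i b : ℝ) ≤ Fintype.card β * L.M0 := by
    calc ∑ b, (i b : ℝ) ≤ ∑ _b : β, L.M0 :=
          Finset.sum_le_sum fun b _ => (expo_le L.one_le_n hi b).trans (L.n_le _)
      _ = Fintype.card β * L.M0 := by rw [Finset.sum_const, Finset.card_univ, nsmul_eq_mul]
  have hh : ∀ a, L.h a ≤ 2 * L.T := by
    intro a
    have h1 : (1 : ℝ) ≤ L.n a := by exact_mod_cast L.one_le_n a
    have h2 := L.one_le_h a
    have h3 := L.le_T a
    nlinarith
  have hh0 : ∀ a, 0 ≤ L.h a := fun a => zero_le_one.trans (L.one_le_h a)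
  -- the coefficient
  have hcoe : (bt : K) * coeff i G = ∑ x ∈ (Finset.univ : Finset (A → Fin D)).sigma
      (fun k => (P k).support), (((P x.1).coeff x.2 : ℤ) : K) * coeff i
        (∏ j, L.F j ^ (Sum.elim (fun s => (x.1 s : ℕ)) x.2 j)) := by
    rw [← coeff_int_mul, heq, map_sum, Finset.sum_sigma]
    refine Finset.sum_congr rfl fun k _ => ?_
    rw [MvPolynomial.aeval_def, MvPolynomial.eval₂_eq', Finset.sum_mul, map_sum]
    refine Finset.sum_congr rfl fun ν _ => ?_
    rw [mul_assoc]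
    have h1 : (∏ u, L.F (Sum.inr u) ^ ν u) * ∏ s, L.F (Sum.inl s) ^ (k s : ℕ) =
        ∏ j, L.F j ^ (Sum.elim (fun s => (k s : ℕ)) ν j) := by
      have h3 := Fintype.prod_sum_type
        (fun j => L.F j ^ (Sum.elim (fun s => (k s : ℕ)) ν j))
      rw [h3, mul_comm]
      rfl
    rw [h1]
    have h2 : (algebraMap ℤ (MvPowerSeries β K)) ((P k).coeff ν) =
        (((P k).coeff ν : ℤ) : MvPowerSeries β K) := eq_intCast _ _
    rw [h2]
    exact coeff_int_mul _ _ _
  have hbtK : (bt : K) ≠ 0 := Int.cast_ne_zero.2 hbt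
  have hne' : (bt : K) * coeff i G ≠ 0 := mul_ne_zero hbtK hne
  have hlam := lam_mul v hbtK hne
  rw [hcoe] at hne' hlam
  have hterm : ∀ x ∈ (Finset.univ : Finset (A → Fin D)).sigma (fun k => (P k).support),
      (((P x.1).coeff x.2 : ℤ) : K) * coeff i
        (∏ j, L.F j ^ (Sum.elim (fun s => (x.1 s : ℕ)) x.2 j)) ≠ 0 →
      lam v ((((P x.1).coeff x.2 : ℤ) : K) * coeff i
        (∏ j, L.F j ^ (Sum.elim (fun s => (x.1 s : ℕ)) x.2 j))) ≤
        -(ε * Θ * (L.m v * L.T)) +
          δ * (Fintype.card A * D * 2 + Fintype.card ZZ * E * 2) * (L.m v * L.T) +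
          ∑ b, (i b : ℝ) * L.Q v b + LAll.wt v * ((C1 + Fintype.card β +
            (D + Fintype.card β) * (Fintype.card A * D + E * Fintype.card (YY ⊕ ZZ))) * L.M0) := by
    rintro ⟨k, ν⟩ hx hx0
    have hν : ν ∈ (P k).support := (Finset.mem_sigma.1 hx).2
    obtain ⟨hx1, hx2⟩ := mul_ne_zero_iff.1 hx0
    have hc0 : (P k).coeff ν ≠ 0 := MvPolynomial.mem_support_iff.1 hν
    rw [lam_mul v hx1 hx2]
    have h1 : lam v ((((P k).coeff ν : ℤ)) : K) ≤ LAll.wt v * (C1 * L.M0) :=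
      (lam_int_le v _ hc0).trans
        (mul_le_mul_of_nonneg_left (log_le_of_abs hc0 (hco k ν)) (LAll.wt_nonneg v))
    have h2 := lam_coeff_prod v L.F (fun j => lam v (constantCoeff (L.F j))) (D : ℝ)
      (Nat.cast_nonneg D) (L.Q v) (L.Q_nonneg v) (fun j i h => L.coeff_le j v i h)
      (Sum.elim (fun s => (k s : ℕ)) ν) i hx2
    rw [Fintype.sum_sum_type, Fintype.sum_sum_type, Fintype.sum_sum_type] at h2
    simp only [Sum.elim_inl, Sum.elim_inr] at h2
    have h3 : ∑ s, ((k s : ℕ) : ℝ) * lam v (constantCoeff (L.F (Sum.inl s))) ≤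
        δ * (Fintype.card A * D * 2) * (L.m v * L.T) := by
      calc ∑ s, ((k s : ℕ) : ℝ) * lam v (constantCoeff (L.F (Sum.inl s)))
          ≤ ∑ _s : A, δ * (D * 2) * (L.m v * L.T) := by
            refine Finset.sum_le_sum fun s _ => ?_
            have h4 := L.lamF (Sum.inl s) v hv
            rw [Sum.elim_inl] at h4
            have h5 : ((k s : ℕ) : ℝ) ≤ D := by exact_mod_cast (k s).2.le
            have h6 : 0 ≤ δ * L.h (ca s) * L.m v :=
              mul_nonneg (mul_nonneg hδ (hh0 _)) (L.m_nonneg v)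
            calc ((k s : ℕ) : ℝ) * lam v (constantCoeff (L.F (Sum.inl s)))
                ≤ ((k s : ℕ) : ℝ) * (δ * L.h (ca s) * L.m v) :=
                  mul_le_mul_of_nonneg_left h4 (Nat.cast_nonneg _)
              _ ≤ D * (δ * L.h (ca s) * L.m v) := mul_le_mul_of_nonneg_right h5 h6
              _ = (D * δ * L.m v) * L.h (ca s) := by ring
              _ ≤ (D * δ * L.m v) * (2 * L.T) :=
                  mul_le_mul_of_nonneg_left (hh _)
                    (mul_nonneg (mul_nonneg (Nat.cast_nonneg _) hδ) (L.m_nonneg v))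
              _ = δ * (D * 2) * (L.m v * L.T) := by ring
        _ = δ * (Fintype.card A * D * 2) * (L.m v * L.T) := by
            rw [Finset.sum_const, Finset.card_univ, nsmul_eq_mul]
            ring
    have h7 : ∑ y, (ν (Sum.inl y) : ℝ) * lam v (constantCoeff (L.F (Sum.inr (Sum.inl y)))) ≤
        -(ε * Θ * (L.m v * L.T)) := by
      have h8 : ∑ y, (ν (Sum.inl y) : ℝ) * lam v (constantCoeff (L.F (Sum.inr (Sum.inl y)))) ≤
          ∑ y, -(ε * (L.m v * L.T)) * ((ν (Sum.inl y) : ℝ) / L.n (cy y)) := by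
        refine Finset.sum_le_sum fun y _ => ?_
        have hn0 : (0 : ℝ) < L.n (cy y) := by exact_mod_cast L.one_le_n (cy y)
        have h9 := L.lamY y v hv
        have h10 : L.T / L.n (cy y) ≤ L.h (cy y) := by
          rw [div_le_iff₀ hn0, mul_comm]
          exact L.T_le _
        have h11 : lam v (constantCoeff (L.F (Sum.inr (Sum.inl y)))) ≤
            -(ε * (L.T / L.n (cy y)) * L.m v) := by
          refine h9.trans (neg_le_neg ?_)
          exact mul_le_mul_of_nonneg_right (mul_le_mul_of_nonneg_left h10 hε.le) (L.m_nonneg v)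
        refine (mul_le_mul_of_nonneg_left h11 (Nat.cast_nonneg _)).trans (le_of_eq ?_)
        ring
      refine h8.trans ?_
      rw [← Finset.mul_sum]
      have h12 : (Θ : ℝ) ≤ ∑ y, (ν (Sum.inl y) : ℝ) / L.n (cy y) := hwy k ν hν
      have h13 := mul_le_mul_of_nonneg_left h12 (mul_nonneg hε.le hmT)
      linarith
    have h14 : ∑ z, (ν (Sum.inr z) : ℝ) * lam v (constantCoeff (L.F (Sum.inr (Sum.inr z)))) ≤
        δ * (Fintype.card ZZ * E * 2) * (L.m v * L.T) := by
      calc ∑ z, (ν (Sum.inr z) : ℝ) * lam v (constantCoeff (L.F (Sum.inr (Sum.inr z))))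
          ≤ ∑ _z : ZZ, δ * (E * 2) * (L.m v * L.T) := by
            refine Finset.sum_le_sum fun z _ => ?_
            have h4 := L.lamF (Sum.inr (Sum.inr z)) v hv
            rw [Sum.elim_inr, Sum.elim_inr] at h4
            have h5 : (ν (Sum.inr z) : ℝ) ≤ E * L.n (cz z) := by
              exact_mod_cast hdeg k ν hν (Sum.inr z)
            have h6 : 0 ≤ δ * L.h (cz z) * L.m v :=
              mul_nonneg (mul_nonneg hδ (hh0 _)) (L.m_nonneg v)
            calc (ν (Sum.inr z) : ℝ) * lam v (constantCoeff (L.F (Sum.inr (Sum.inr z))))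
                ≤ (ν (Sum.inr z) : ℝ) * (δ * L.h (cz z) * L.m v) :=
                  mul_le_mul_of_nonneg_left h4 (Nat.cast_nonneg _)
              _ ≤ (E * L.n (cz z)) * (δ * L.h (cz z) * L.m v) :=
                  mul_le_mul_of_nonneg_right h5 h6
              _ = (E * δ * L.m v) * (L.n (cz z) * L.h (cz z)) := by ring
              _ ≤ (E * δ * L.m v) * (2 * L.T) :=
                  mul_le_mul_of_nonneg_left (L.le_T _)
                    (mul_nonneg (mul_nonneg (Nat.cast_nonneg _) hδ) (L.m_nonneg v))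
              _ = δ * (E * 2) * (L.m v * L.T) := by ring
        _ = δ * (Fintype.card ZZ * E * 2) * (L.m v * L.T) := by
            rw [Finset.sum_const, Finset.card_univ, nsmul_eq_mul]
            ring
    have h15 : ∑ s, ((k s : ℕ) : ℝ) + ∑ u, (ν (Sum.inl u) : ℝ) + ∑ u, (ν (Sum.inr u) : ℝ) ≤
        (Fintype.card A * D + E * Fintype.card (YY ⊕ ZZ)) * L.M0 := by
      have h16 : ∑ s, ((k s : ℕ) : ℝ) ≤ Fintype.card A * D := by
        calc ∑ s, ((k s : ℕ) : ℝ) ≤ ∑ _s : A, (D : ℝ) :=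
              Finset.sum_le_sum fun s _ => by exact_mod_cast (k s).2.le
          _ = Fintype.card A * D := by rw [Finset.sum_const, Finset.card_univ, nsmul_eq_mul]
      have h17 : ∀ u, (ν u : ℝ) ≤ E * L.M0 := by
        intro u
        have h5 : (ν u : ℝ) ≤ E * L.n (Sum.elim cy cz u) := by exact_mod_cast hdeg k ν hν u
        exact h5.trans (mul_le_mul_of_nonneg_left (L.n_le _) (Nat.cast_nonneg _))
      have h18 : ∑ u, (ν (Sum.inl u) : ℝ) ≤ Fintype.card YY * (E * L.M0) := by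
        calc ∑ u, (ν (Sum.inl u) : ℝ) ≤ ∑ _u : YY, (E * L.M0 : ℝ) :=
              Finset.sum_le_sum fun u _ => h17 _
          _ = _ := by rw [Finset.sum_const, Finset.card_univ, nsmul_eq_mul]
      have h19 : ∑ u, (ν (Sum.inr u) : ℝ) ≤ Fintype.card ZZ * (E * L.M0) := by
        calc ∑ u, (ν (Sum.inr u) : ℝ) ≤ ∑ _u : ZZ, (E * L.M0 : ℝ) :=
              Finset.sum_le_sum fun u _ => h17 _
          _ = _ := by rw [Finset.sum_const, Finset.card_univ, nsmul_eq_mul]
      have h20 : (Fintype.card A * D : ℝ) ≤ Fintype.card A * D * L.M0 := by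
        have h6 : (0 : ℝ) ≤ (Fintype.card A : ℝ) * D := by positivity
        nlinarith [L.one_le_M0]
      rw [Fintype.card_sum]
      push_cast
      linarith
    have h21 : LAll.wt v * (∑ b, (i b : ℝ) + ((D : ℝ) + Fintype.card β) *
        (∑ s, ((k s : ℕ) : ℝ) + ∑ u : YY ⊕ ZZ, (ν u : ℝ))) ≤
        LAll.wt v * (Fintype.card β * L.M0 + (D + Fintype.card β) *
          ((Fintype.card A * D + E * Fintype.card (YY ⊕ ZZ)) * L.M0)) := by
      refine mul_le_mul_of_nonneg_left (add_le_add hib ?_) (LAll.wt_nonneg v)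
      refine mul_le_mul_of_nonneg_left ?_ (by positivity)
      rw [Fintype.sum_sum_type]
      linarith
    have h22 := h2.trans (add_le_add (add_le_add (add_le_add h3 (add_le_add h7 h14)) le_rfl) h21)
    refine (add_le_add h1 h22).trans (le_of_eq ?_)
    ring
  have hfin := lam_sum_le v _ _ _ _ (card_pairs_le (P := P) (E := E)
    (nn := fun u => L.n (Sum.elim cy cz u)) L.one_le_M0 (fun u => L.n_le _) hdeg) hterm hne'
  rw [Real.log_exp, hlam] at hfin
  have hw := LAll.wt_nonneg v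
  have hX : 0 ≤ δ * (C1 + Fintype.card β +
    (D + Fintype.card β) * (Fintype.card A * D + E * Fintype.card (YY ⊕ ZZ)) +
    (Fintype.card A * D + E * Fintype.card (YY ⊕ ZZ))) * (L.m v * L.T) :=
    mul_nonneg (mul_nonneg hδ (by positivity)) hmT
  have hY : 0 ≤ LAll.wt v * ((Fintype.card A * D * 2 + Fintype.card ZZ * E * 2) * L.M0) :=
    mul_nonneg hw (by positivity)
  have hZ : lam v (coeff i G) ≤ -(ε * Θ * (L.m v * L.T)) +
      δ * (Fintype.card A * D * 2 + Fintype.card ZZ * E * 2) * (L.m v * L.T) +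
      ∑ b, (i b : ℝ) * L.Q v b + LAll.wt v * ((C1 + Fintype.card β +
        (D + Fintype.card β) * (Fintype.card A * D + E * Fintype.card (YY ⊕ ZZ))) * L.M0) +
      LAll.wt v * ((Fintype.card A * D + E * Fintype.card (YY ⊕ ZZ)) * L.M0) -
        lam v (bt : K) := by
    linarith
  refine (hZ.trans (le_add_of_nonneg_right (add_nonneg hX hY))).trans (le_of_eq ?_)
  ring

end Pool.Agent.LSharp
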