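import Pool.Agent.LSharp.CODefs

set_option autoImplicit false

/-! Package CO5: integrality of coefficients, and the logarithms of an integer.

PROOFS. `intOff_coeff_prod`: the series all of whose coefficients are `IntOff S` are closed under
products (`MvPowerSeries.coeff_mul`, `IntOff.sum`, `IntOff.mul`) and contain `1`
(`MvPowerSeries.coeff_one`, `intOff_int`); induction (`Finset.prod_induction`, powers by induction).
`sum_neg_lam_int`: let `b ≠ 0` be an integer. `lam v b ≤ wt v * log |b|` (`lam_int_le`), with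
equality at infinite places, and `lam v b ≤ 0` at finite places. `∑ v, lam v b ≥ 0`
(`sum_lam_nonneg`,
`intOff_int`). So `∑ v ∈ s, - lam v b ≤ ∑ v ∈ s, (wt v log |b| - lam v b) ≤ ∑ v, (wt v log |b| -
lam v b) ≤ log |b|` (`sum_wt`; the terms are nonnegative by `lam_int_le`; the first step uses `0 ≤
wt v log |b|`). -/

namespace Pool.Agent.LSharp

open NumberField Pool.Agent.LAll MvPowerSeries

private theorem coi_sum {K : Type} [Field K] [NumberField K] {S : Finset (FinitePlace K)}
    {α : Type} (s : Finset α) (z : α → K) (h : ∀ a ∈ s, IntOff S (z a)) :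
    IntOff S (∑ a ∈ s, z a) := by
  classical
  exact IntOff.sum s z h

theorem intOff_coeff_prod {β I K : Type} [Fintype I] [Field K] [NumberField K]
    {S : Finset (FinitePlace K)} (F : I → MvPowerSeries β K)
    (h : ∀ j i, IntOff S (coeff i (F j))) (e : I → ℕ) (i : β →₀ ℕ) :
    IntOff S (coeff i (∏ j, F j ^ e j)) := by
  classical
  have h1 : ∀ i, IntOff S (coeff i (1 : MvPowerSeries β K)) := by
    intro i
    rw [MvPowerSeries.coeff_one]
    split_ifs
    · simpa using intOff_int (S := S) (K := K) 1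
    · simpa using intOff_int (S := S) (K := K) 0
  have hm : ∀ f g : MvPowerSeries β K, (∀ i, IntOff S (coeff i f)) →
      (∀ i, IntOff S (coeff i g)) → ∀ i, IntOff S (coeff i (f * g)) := by
    intro f g hf hg i
    rw [MvPowerSeries.coeff_mul]
    refine coi_sum _ _ fun p _ => (hf p.1).mul (hg p.2)
  have hp : ∀ (f : MvPowerSeries β K), (∀ i, IntOff S (coeff i f)) → ∀ n : ℕ,
      ∀ i, IntOff S (coeff i (f ^ n)) := by
    intro f hf n
    induction n with
    | zero =>
      rw [pow_zero]
      exact h1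
    | succ n ih =>
      rw [pow_succ]
      exact hm _ _ ih hf
  exact Finset.prod_induction (fun j => F j ^ e j)
    (fun f => ∀ i, IntOff S (coeff i f)) hm h1 (fun j _ => hp _ (h j) (e j)) i

theorem sum_neg_lam_int {K : Type} [Field K] [NumberField K] {S : Finset (FinitePlace K)} (b : ℤ)
    (hb : b ≠ 0) (s : Finset (Plc K S)) :
    ∑ v ∈ s, -lam v (b : K) ≤ Real.log |(b : ℝ)| := by
  classical
  have hlog : 0 ≤ Real.log |(b : ℝ)| := by
    refine Real.log_nonneg ?_
    rw [← Int.cast_abs]
    exact_mod_cast Int.one_le_abs hb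
  have hbK : (b : K) ≠ 0 := Int.cast_ne_zero.2 hb
  have h1 : ∑ v ∈ s, -lam v (b : K) ≤
      ∑ v ∈ s, (LAll.wt v * Real.log |(b : ℝ)| - lam v (b : K)) := by
    refine Finset.sum_le_sum fun v _ => ?_
    have := mul_nonneg (LAll.wt_nonneg v) hlog
    linarith
  have h2 : ∑ v ∈ s, (LAll.wt v * Real.log |(b : ℝ)| - lam v (b : K)) ≤
      ∑ v : Plc K S, (LAll.wt v * Real.log |(b : ℝ)| - lam v (b : K)) := by
    refine Finset.sum_le_sum_of_subset_of_nonneg (Finset.subset_univ s) fun v _ _ => ?_
    exact sub_nonneg.2 (lam_int_le v b hb)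
  have h3 : 0 ≤ ∑ v : Plc K S, lam v (b : K) := sum_lam_nonneg hbK (intOff_int b)
  have h4 : ∑ v : Plc K S, (LAll.wt v * Real.log |(b : ℝ)| - lam v (b : K)) =
      Real.log |(b : ℝ)| - ∑ v : Plc K S, lam v (b : K) := by
    rw [Finset.sum_sub_distrib, ← Finset.sum_mul, sum_wt, one_mul]
  linarith

end Pool.Agent.LSharp
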