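import Pool.Agent.LSharp.CONfA
import Pool.Agent.LSharp.COAux
import Pool.Agent.LSharp.COInt
import Pool.Agent.LSharp.COEstA
import Pool.Agent.LSharp.COEstT

set_option autoImplicit false

/-! Block CORE, assembly. -/

namespace Pool.Agent.LSharp

open NumberField Pool.Agent.LAll MvPowerSeries

/-- The number of unknowns. -/
theorem card_XI_le {M β : Type} [Fintype β] [DecidableEq β] (cb : β → M) (z B : ℕ) (n : M → ℕ)
    (M0 : ℝ) (hM : 1 ≤ M0) (hn : ∀ a, (n a : ℝ) ≤ M0) :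
    (Fintype.card (XI z B n cb) : ℝ) ≤ Real.exp (((z + 1) * B + Fintype.card β) * M0) := by
  have h1 : (Fintype.card (XI z B n cb) : ℝ) = (B : ℝ) ^ (z + 1) * ∏ b, (n (cb b) : ℝ) := by
    simp [XI, Fintype.card_prod, Fintype.card_pi]
  rw [h1, add_mul, Real.exp_add]
  refine mul_le_mul ?_ ?_ (Finset.prod_nonneg fun b _ => Nat.cast_nonneg _) (Real.exp_pos _).le
  · have hB : (B : ℝ) ≤ Real.exp B := by
      have := Real.add_one_le_exp (B : ℝ)
      linarith
    calc (B : ℝ) ^ (z + 1) ≤ Real.exp B ^ (z + 1) := pow_le_pow_left₀ (Nat.cast_nonneg _) hB _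
      _ = Real.exp ((z + 1) * B) := by
        rw [← Real.exp_nat_mul]
        push_cast
        rfl
      _ ≤ Real.exp ((z + 1) * B * M0) := by
        apply Real.exp_le_exp.2
        have h0 : (0 : ℝ) ≤ (z + 1) * B := by positivity
        nlinarith
  · calc ∏ b, (n (cb b) : ℝ) ≤ ∏ _b : β, Real.exp M0 := by
          refine Finset.prod_le_prod (fun b _ => Nat.cast_nonneg _) fun b _ => ?_
          refine (hn (cb b)).trans ?_
          have := Real.add_one_le_exp M0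
          linarith
      _ = Real.exp (Fintype.card β * M0) := by
        rw [Finset.prod_const, Finset.card_univ, ← Real.exp_nat_mul]

/-- All `ℤ`-algebra structures are equal. -/
theorem aeval_eq_eval₂ {U R : Type} [CommRing R] [alg : Algebra ℤ R] (φ : U → R)
    (p : MvPolynomial U ℤ) :
    MvPolynomial.aeval φ p = MvPolynomial.eval₂ (Int.castRingHom R) φ p := by
  rw [MvPolynomial.aeval_def]
  congr 1
  exact Subsingleton.elim _ _

/-- **The auxiliary functions.** -/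
theorem core {M β A YY ZZ : Type} [Fintype M] [Fintype β] [Fintype A] [Fintype YY] [Fintype ZZ]
    [DecidableEq M] [DecidableEq β] [DecidableEq A] (cb : β → M) (ca : A → M) (cy : YY → M)
    (cz : ZZ → M)
    (hcard : ∀ a, (Finset.univ.filter fun y => cy y = a).card +
      (Finset.univ.filter fun z => cz z = a).card = (Finset.univ.filter fun b => cb b = a).card)
    (D : ℕ) (hD : 0 < D) (ε μ : ℝ) (hε : 0 < ε) (hμ : 0 < μ) :
    ∃ B : ℕ, 1 ≤ B ∧ ∃ δ η CB : ℝ, 0 < δ ∧ 0 < η ∧ 0 ≤ CB ∧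
      ∀ (K : Type) [Field K] [NumberField K] (S : Finset (FinitePlace K))
      (L : Lvl cb ca cy cz D ε μ δ K S) (al : XI (Fintype.card ZZ) B L.n cb → A → ℕ)
      (bet : Plc K S → ℝ), L.M0 ≤ η * L.T →
      (∀ x a, ∑ s with ca s = a, al x s ≤ D * B * L.n a) → (∀ v, 0 ≤ bet v) →
      ∑ v, bet v ≤ D * L.T →
      (∀ x v, lam v (∏ s, constantCoeff (L.F (Sum.inl s)) ^ al x s) ≤ bet v) →
      ∃ c : XI (Fintype.card ZZ) B L.n cb → ℤ, c ≠ 0 ∧
        (∀ x, |(c x : ℝ)| ≤ Real.exp (CB * L.M0)) ∧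
        ∀ i, coeff i (L.aux al c) ≠ 0 → 1 < wtn L.n cb i := by
  obtain ⟨Θ, hΘ⟩ : ∃ Θ : ℕ, 3 * (D : ℝ) + 3 ≤ ε * μ * Θ := by
    refine ⟨⌈(3 * (D : ℝ) + 3) / (ε * μ)⌉₊, ?_⟩
    have h1 := Nat.le_ceil ((3 * (D : ℝ) + 3) / (ε * μ))
    rw [div_le_iff₀ (mul_pos hε hμ)] at h1
    linarith
  obtain ⟨B, hB⟩ : ∃ B : ℕ, B = 2 * D ^ Fintype.card A * (Θ + 1) ^ Fintype.card YY *
      (D * D + 1) ^ Fintype.card ZZ := ⟨_, rfl⟩
  have hB1 : 1 ≤ B := by
    rw [hB]
    exact Nat.succ_le_of_lt (by positivity)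
  obtain ⟨C1, hC1⟩ : ∃ C1 : ℝ, C1 = (D + 1) * Fintype.card A * (D * B) * D := ⟨_, rfl⟩
  have hC10 : 0 ≤ C1 := by
    rw [hC1]
    positivity
  obtain ⟨CB, hCB⟩ : ∃ CB : ℝ, CB = (Fintype.card ZZ + 1) * B + Fintype.card β + C1 := ⟨_, rfl⟩
  have hCB0 : 0 ≤ CB := by
    rw [hCB]
    positivity
  obtain ⟨CA, hCA0, hA⟩ := est_all cb ca cy cz D B ε μ CB hCB0
  obtain ⟨C2, hC2⟩ : ∃ C2 : ℝ, C2 = (Fintype.card ZZ + 1) * B + Fintype.card β + CB + C1 :=
    ⟨_, rfl⟩
  have hC20 : 0 ≤ C2 := by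
    rw [hC2]
    positivity
  obtain ⟨CT, hCT0, hTT⟩ := est_TT cb ca cy cz D Θ B ε μ C2 hε hC20
  obtain ⟨C3, hC3⟩ : ∃ C3 : ℝ, C3 = CA + CT + Fintype.card A * (D * D * (D * B)) := ⟨_, rfl⟩
  have hC30 : 0 ≤ C3 := by
    rw [hC3]
    positivity
  refine ⟨B, hB1, 1 / (CT * D + 1), 1 / (C3 + 1), CB, by positivity, by positivity, hCB0, ?_⟩
  intro K _ _ S L al bet hM hal hbet0 hbet hlam
  have hT0 : 0 < L.T := by
    have h1 := L.one_le_M0
    by_contra h2
    have h3 : 1 / (C3 + 1) * L.T ≤ 0 :=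
      mul_nonpos_of_nonneg_of_nonpos (by positivity) (not_lt.1 h2)
    linarith
  have hal' : ∀ x s, al x s ≤ D * B * L.n (ca s) := fun x s => by
    refine le_trans ?_ (hal x (ca s))
    exact Finset.single_le_sum (f := fun s => al x s) (fun _ _ => Nat.zero_le _)
      (Finset.mem_filter.2 ⟨Finset.mem_univ s, rfl⟩)
  obtain ⟨bt, P, hbt0, hbt1, hP⟩ := nf_all (Sum.elim cy cz) ca (fun u => L.F (Sum.inr u))
    (fun s => L.F (Sum.inl s)) D hD L.κ L.one_le_κ L.bb L.bb_ne L.bb_le L.pp L.pp_cls L.pp_deg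
    L.pp_L1 (fun s => by
      simp only [aeval_eq_eval₂]
      exact L.eqn s) (fun a => D * B * L.n a)
  have hE : ∑ s, ((D : ℝ) + 1) * L.κ (ca s) * ((D * B * L.n (ca s) : ℕ) : ℝ) ≤ C1 * L.M0 := by
    calc ∑ s, ((D : ℝ) + 1) * L.κ (ca s) * ((D * B * L.n (ca s) : ℕ) : ℝ)
        ≤ ∑ _s : A, ((D : ℝ) + 1) * (D * B) * (D * L.M0) := by
          refine Finset.sum_le_sum fun s _ => ?_
          have h1 := L.nκ_le (ca s)
          have h2 : (0 : ℝ) ≤ ((D : ℝ) + 1) * (D * B) := by positivity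
          push_cast
          nlinarith [mul_le_mul_of_nonneg_left h1 h2]
      _ = C1 * L.M0 := by
          rw [Finset.sum_const, Finset.card_univ, nsmul_eq_mul, hC1]
          ring
  have hE2 : ∑ s, (D : ℝ) * L.κ (ca s) * ((D * B * L.n (ca s) : ℕ) : ℝ) ≤
      Fintype.card A * (D * D * (D * B)) * L.M0 := by
    calc ∑ s, (D : ℝ) * L.κ (ca s) * ((D * B * L.n (ca s) : ℕ) : ℝ)
        ≤ ∑ _s : A, (D : ℝ) * (D * B) * (D * L.M0) := by
          refine Finset.sum_le_sum fun s _ => ?_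
          have h1 := L.nκ_le (ca s)
          have h2 : (0 : ℝ) ≤ (D : ℝ) * (D * B) := by positivity
          push_cast
          nlinarith [mul_le_mul_of_nonneg_left h1 h2]
      _ = Fintype.card A * (D * D * (D * B)) * L.M0 := by
          rw [Finset.sum_const, Finset.card_univ, nsmul_eq_mul]
          ring
  have hPCD : ∀ x k, CD (Sum.elim cy cz) (P (al x) k) (fun a => D * (D * B * L.n a)) :=
    fun x k => ((hP (al x) (hal' x)).1 k).mono fun a => Nat.mul_le_mul_left D (hal x a)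
  have hPL : ∀ x k ν, |(((P (al x) k).coeff ν : ℤ) : ℝ)| ≤ Real.exp (C1 * L.M0) := fun x k ν =>
    (abs_coeff_le_L1 _ _).trans (((hP (al x) (hal' x)).2.1 k).trans (Real.exp_le_exp.2 hE))
  obtain ⟨c, hc0, hc1, hc2⟩ := aux cb cy cz hcard D Θ B (le_of_eq hB.symm) hB1 L.n L.M0 C1
    L.one_le_n L.one_le_M0 L.n_le hC10 (fun x k ν => (P (al x) k).coeff ν)
    (fun x k ν h => hPCD x k ν (MvPolynomial.mem_support_iff.2 h)) hPL
  have hc1' : ∀ x, |(c x : ℝ)| ≤ Real.exp (CB * L.M0) := fun x => by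
    rw [hCB]
    exact hc1 x
  refine ⟨c, hc0, hc1', fun i hne => ?_⟩
  by_contra hw
  rw [not_lt] at hw
  -- the polynomials of the combination
  obtain ⟨Pk, hPk⟩ : ∃ Pk : (A → Fin D) → MvPolynomial (YY ⊕ ZZ) ℤ,
      ∀ k, Pk k = ∑ x, MvPolynomial.C (c x) * P (al x) k := ⟨_, fun k => rfl⟩
  have hcoef : ∀ k ν, (Pk k).coeff ν = ∑ x, c x * (P (al x) k).coeff ν := by
    intro k ν
    rw [hPk, MvPolynomial.coeff_sum]
    exact Finset.sum_congr rfl fun x _ => MvPolynomial.coeff_C_mul _ _ _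
  have hPkCD : ∀ k, CD (Sum.elim cy cz) (Pk k) (fun a => D * (D * B * L.n a)) := by
    intro k ν hν a
    rw [MvPolynomial.mem_support_iff, hcoef] at hν
    obtain ⟨x, -, hx⟩ := Finset.exists_ne_zero_of_sum_ne_zero hν
    exact hPCD x k ν (MvPolynomial.mem_support_iff.2 (right_ne_zero_of_mul hx)) a
  have hPk1 : ∀ k ν, |(((Pk k).coeff ν : ℤ) : ℝ)| ≤ Real.exp (C2 * L.M0) := by
    intro k ν
    rw [hcoef]
    push_cast
    calc |∑ x, (c x : ℝ) * (((P (al x) k).coeff ν : ℤ) : ℝ)|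
        ≤ ∑ x, |(c x : ℝ) * (((P (al x) k).coeff ν : ℤ) : ℝ)| := Finset.abs_sum_le_sum_abs _ _
      _ ≤ ∑ _x : XI (Fintype.card ZZ) B L.n cb,
          Real.exp (CB * L.M0) * Real.exp (C1 * L.M0) := by
          refine Finset.sum_le_sum fun x _ => ?_
          rw [abs_mul]
          exact mul_le_mul (hc1' x) (hPL x k ν) (abs_nonneg _) (Real.exp_pos _).le
      _ = Fintype.card (XI (Fintype.card ZZ) B L.n cb) *
          (Real.exp (CB * L.M0) * Real.exp (C1 * L.M0)) := by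
          rw [Finset.sum_const, Finset.card_univ, nsmul_eq_mul]
      _ ≤ Real.exp (((Fintype.card ZZ + 1) * B + Fintype.card β) * L.M0) *
          (Real.exp (CB * L.M0) * Real.exp (C1 * L.M0)) := by
          refine mul_le_mul_of_nonneg_right ?_ (by positivity)
          exact_mod_cast card_XI_le cb (Fintype.card ZZ) B L.n L.M0 L.one_le_M0 L.n_le
      _ = Real.exp (C2 * L.M0) := by
          rw [← Real.exp_add, ← Real.exp_add, hC2]
          ring_nf
  have hPkΘ : ∀ k, ∀ ν ∈ (Pk k).support, (Θ : ℝ) ≤ wy L.n cy ν := by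
    intro k ν hν
    by_contra hlt
    rw [MvPolynomial.mem_support_iff, hcoef] at hν
    exact hν (hc2 k ν (not_le.1 hlt))
  have hG : (bt : MvPowerSeries β K) * L.aux al c = ∑ k : A → Fin D,
      MvPolynomial.aeval (fun u => L.F (Sum.inr u)) (Pk k) *
        ∏ s, L.F (Sum.inl s) ^ (k s : ℕ) := by
    have h1 : (bt : MvPowerSeries β K) * L.aux al c =
        ∑ x, (c x : MvPowerSeries β K) * ∑ k : A → Fin D,
          MvPolynomial.eval₂ (Int.castRingHom (MvPowerSeries β K))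
            (fun u => L.F (Sum.inr u)) (P (al x) k) * ∏ s, L.F (Sum.inl s) ^ (k s : ℕ) := by
      rw [Lvl.aux, Finset.mul_sum]
      refine Finset.sum_congr rfl fun x _ => ?_
      have h2 := (hP (al x) (hal' x)).2.2
      simp only [aeval_eq_eval₂] at h2
      rw [← h2]
      ring
    rw [h1]
    simp only [Finset.mul_sum]
    rw [Finset.sum_comm]
    refine Finset.sum_congr rfl fun k _ => ?_
    rw [aeval_eq_eval₂, hPk, MvPolynomial.eval₂_sum, Finset.sum_mul]
    refine Finset.sum_congr rfl fun x _ => ?_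
    rw [MvPolynomial.eval₂_mul, MvPolynomial.eval₂_C]
    simp only [eq_intCast]
    ring
  -- the coefficient is integral outside `S`
  have hint : IntOff S (coeff i (L.aux al c)) := by
    rw [Lvl.aux, map_sum]
    refine IntOff.sum _ _ fun x _ => ?_
    have h1 : coeff i ((c x : MvPowerSeries β K) * ∏ s, L.F (Sum.inl s) ^ al x s) =
        (c x : K) * coeff i (∏ s, L.F (Sum.inl s) ^ al x s) := by
      rw [← MvPowerSeries.coeff_C_mul, map_intCast]
    rw [h1]
    exact (intOff_int _).mul (intOff_coeff_prod _ (fun s => L.intOff (Sum.inl s)) _ _)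
  have hsum := sum_lam_nonneg hne hint
  -- the sum of the estimates
  obtain ⟨q, hq⟩ : ∃ q : Plc K S → ℝ, ∀ v, q v = ∑ b, (i b : ℝ) * L.Q v b := ⟨_, fun v => rfl⟩
  have hq0 : ∀ v, 0 ≤ q v := fun v => by
    rw [hq]
    exact Finset.sum_nonneg fun b _ => mul_nonneg (Nat.cast_nonneg _) (L.Q_nonneg v b)
  have hqs : ∑ v, q v ≤ 2 * D * L.T := by
    calc ∑ v, q v = ∑ b, (i b : ℝ) * ∑ v, L.Q v b := by
          simp only [hq, Finset.mul_sum]
          rw [Finset.sum_comm]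
      _ ≤ ∑ b, (i b : ℝ) / L.n (cb b) * (2 * D * L.T) := by
          refine Finset.sum_le_sum fun b _ => ?_
          have hn : (0 : ℝ) < L.n (cb b) := by exact_mod_cast L.one_le_n (cb b)
          have h1 := mul_le_mul_of_nonneg_left (L.sum_Q b) (Nat.cast_nonneg (α := ℝ) (i b))
          refine h1.trans ?_
          have h2 := mul_le_mul_of_nonneg_left (L.le_T (cb b))
            (show (0 : ℝ) ≤ (i b : ℝ) / L.n (cb b) * D by positivity)
          have h3 : (i b : ℝ) / L.n (cb b) * D * (L.n (cb b) * L.h (cb b)) =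
              (i b : ℝ) * (D * L.h (cb b)) := by
            field_simp
          rw [h3] at h2
          refine h2.trans (le_of_eq ?_)
          ring
      _ = wtn L.n cb i * (2 * D * L.T) := by rw [← Finset.sum_mul]; rfl
      _ ≤ 1 * (2 * D * L.T) := mul_le_mul_of_nonneg_right hw (by positivity)
      _ = 2 * D * L.T := one_mul _
  obtain ⟨g, hg⟩ : ∃ g : Plc K S → ℝ, ∀ v, g v = lam v (coeff i (L.aux al c)) := ⟨_, fun v => rfl⟩
  simp only [← hg] at hsum
  have hgA : ∀ v, g v ≤ bet v + q v + LAll.wt v * (CA * L.M0) := fun v => by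
    rw [hg, hq]
    exact hA _ K S L al c v (bet v) i hal' hc1' (fun x => hlam x v) hw hne
  obtain ⟨δ, hδ⟩ : ∃ δ : ℝ, δ = 1 / (CT * D + 1) := ⟨_, rfl⟩
  have hδ0 : 0 ≤ δ := by
    rw [hδ]
    positivity
  have hgT : ∀ v ∈ L.TT, g v ≤ -(ε * Θ * (L.m v * L.T)) + δ * CT * (L.m v * L.T) + q v +
      LAll.wt v * (CT * L.M0) - lam v (bt : K) := fun v hv => by
    rw [hg, hq, hδ]
    exact hTT _ K S L (L.aux al c) bt Pk v i (by positivity) hT0 hbt0 hPkCD hPk1 hPkΘ hG hv hw hne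
  have hM0 : 0 ≤ L.M0 := zero_le_one.trans L.one_le_M0
  have hX : ∀ v, 0 ≤ bet v + q v + LAll.wt v * ((CA + CT) * L.M0) := fun v =>
    add_nonneg (add_nonneg (hbet0 v) (hq0 v)) (mul_nonneg (wt_nonneg v) (by positivity))
  have hsplit : ∑ v, g v ≤ ∑ v, (bet v + q v + LAll.wt v * ((CA + CT) * L.M0)) +
      ∑ v ∈ L.TT, (-(ε * Θ * (L.m v * L.T)) + δ * CT * (L.m v * L.T) - lam v (bt : K)) := by
    classical
    rw [← Finset.sum_add_sum_compl L.TT g, ← Finset.sum_add_sum_compl L.TT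
      (fun v => bet v + q v + LAll.wt v * ((CA + CT) * L.M0))]
    have h1 : ∑ v ∈ L.TT, g v ≤ ∑ v ∈ L.TT, (bet v + q v + LAll.wt v * ((CA + CT) * L.M0)) +
        ∑ v ∈ L.TT, (-(ε * Θ * (L.m v * L.T)) + δ * CT * (L.m v * L.T) - lam v (bt : K)) := by
      rw [← Finset.sum_add_distrib]
      refine Finset.sum_le_sum fun v hv => (hgT v hv).trans ?_
      have h2 := hbet0 v
      have h3 : 0 ≤ LAll.wt v * (CA * L.M0) := mul_nonneg (wt_nonneg v) (by positivity)
      nlinarith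
    have h2 : ∑ v ∈ L.TTᶜ, g v ≤ ∑ v ∈ L.TTᶜ, (bet v + q v + LAll.wt v * ((CA + CT) * L.M0)) := by
      refine Finset.sum_le_sum fun v _ => (hgA v).trans ?_
      have h3 : 0 ≤ LAll.wt v * (CT * L.M0) := mul_nonneg (wt_nonneg v) (by positivity)
      nlinarith
    linarith
  have hs1 : ∑ v, (bet v + q v + LAll.wt v * ((CA + CT) * L.M0)) ≤
      D * L.T + 2 * D * L.T + (CA + CT) * L.M0 := by
    rw [Finset.sum_add_distrib, Finset.sum_add_distrib, ← Finset.sum_mul, sum_wt, one_mul]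
    linarith
  have hs2 : ∑ v ∈ L.TT, (-(ε * Θ * (L.m v * L.T)) + δ * CT * (L.m v * L.T) - lam v (bt : K)) ≤
      -(ε * Θ * μ * L.T) + δ * CT * D * L.T + Fintype.card A * (D * D * (D * B)) * L.M0 := by
    have h1 := sum_neg_lam_int (S := S) bt hbt0 L.TT
    have h2 : Real.log |(bt : ℝ)| ≤ Fintype.card A * (D * D * (D * B)) * L.M0 := by
      have h3 : (0 : ℝ) < |(bt : ℝ)| := abs_pos.2 (by exact_mod_cast hbt0)
      rw [Real.log_le_iff_le_exp h3]
      refine hbt1.trans (Real.exp_le_exp.2 ?_)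
      exact_mod_cast hE2
    have h3 : ∑ v ∈ L.TT, (-(ε * Θ * (L.m v * L.T)) + δ * CT * (L.m v * L.T) - lam v (bt : K)) =
        -(ε * Θ * L.T * ∑ v ∈ L.TT, L.m v) + δ * CT * L.T * ∑ v ∈ L.TT, L.m v +
          ∑ v ∈ L.TT, -lam v (bt : K) := by
      rw [Finset.mul_sum, Finset.mul_sum, ← Finset.sum_neg_distrib, ← Finset.sum_add_distrib,
        ← Finset.sum_add_distrib]
      refine Finset.sum_congr rfl fun v _ => ?_
      ring
    have h4 : ∑ v ∈ L.TT, L.m v ≤ D := by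
      refine le_trans ?_ L.sum_m
      exact Finset.sum_le_sum_of_subset_of_nonneg (Finset.subset_univ _)
        fun v _ _ => L.m_nonneg v
    have h5 := mul_le_mul_of_nonneg_left L.mass (show 0 ≤ ε * Θ * L.T by positivity)
    have h6 := mul_le_mul_of_nonneg_left h4 (show 0 ≤ δ * CT * L.T by positivity)
    rw [h3]
    nlinarith
  have hδ1 : δ * CT * D ≤ 1 := by
    rw [hδ]
    have h1 : 1 / (CT * D + 1) * CT * D = CT * D / (CT * D + 1) := by ring
    rw [h1, div_le_one (by positivity)]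
    linarith
  have hη : C3 * L.M0 ≤ L.T := by
    have h1 := mul_le_mul_of_nonneg_left hM hC30
    have h2 : C3 * (1 / (C3 + 1) * L.T) = C3 / (C3 + 1) * L.T := by ring
    rw [h2] at h1
    refine h1.trans ?_
    have h3 : C3 / (C3 + 1) ≤ 1 := by
      rw [div_le_one (by positivity)]
      linarith
    nlinarith
  have h7 : δ * CT * D * L.T ≤ 1 * L.T := mul_le_mul_of_nonneg_right hδ1 hT0.le
  have h8 : (3 * (D : ℝ) + 3) * L.T ≤ ε * μ * Θ * L.T := mul_le_mul_of_nonneg_right hΘ hT0.le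
  rw [hC3] at hη
  nlinarith

end Pool.Agent.LSharp
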