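import Pool.Agent.LSharp.CODefs

set_option autoImplicit false

/-! Package CO1: the normal form of the powers of one generator.

PROOF (induction on `e`). Extend `P` by `P i = 0` for the unused indices.
`e = 0`: `P 0 = 1`, `P i = 0` for `i ≠ 0` (`0 < D`): `g ^ 0 = aeval φ 1 * g ^ 0`.
Step: let `P` be the polynomials for `e`. Then
`b ^ (e+1) g ^ (e+1) = b g (∑ i, P i (φ) g ^ i) = ∑ i, b P i (φ) g ^ (i+1)`; the term with `i = D -
1` is
`P (D-1) (φ) * (b g ^ D) = ∑ i, P (D-1) (φ) p i (φ) g ^ i`. So the new polynomials are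
`P' i = (if i = 0 then 0 else C b * P (i-1)) + P (D-1) * p i`.
To have no trouble with `Fin D` write `D = D' + 1` (`obtain ⟨D', rfl⟩ :=
Nat.exists_eq_succ_of_ne_zero`), use `Fin.sum_univ_castSucc` for the first sum and
`Fin.sum_univ_succ` for the new one:
`P' = Fin.cons (P (last) * p 0) (fun i : Fin D' => C b * P (castSucc i) + P last * p (succ i))`.
Class degrees: `CD c (p i) (fun a => if a = a0 then D else 0)` (for `a = a0` the class degree is at
most the total degree: `MvPolynomial.le_totalDegree`, `Finsupp.sum_fintype`; for `a ≠ a0` all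
exponents
`ν u`, `c u = a`, vanish by `hp`); then `CD.add`, `CD.mul`, `CD.C`, `CD.mono`.
`ℓ¹`-norms (`L1_add`, `L1_mul`; `L1 (C b) ≤ |b|` from the definition or `L1_mul`/`support_C`):
`L1 (P' i) ≤ exp (D κ) L1 (P (i-1)) + L1 (P (D-1)) exp (D κ) ≤ 2 exp (D κ) exp ((D+1) κ e)`
`≤ exp ((D + 1) κ (e + 1))`, because `2 ≤ exp 1 ≤ exp κ`. -/

namespace Pool.Agent.LSharp

open MvPolynomial Pool.Agent.LAll

private theorem coL1_C {U : Type} (b : ℤ) :
    L1 (MvPolynomial.C b : MvPolynomial U ℤ) ≤ |(b : ℝ)| := by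
  classical
  rw [L1_eq_sum (MvPolynomial.C b : MvPolynomial U ℤ) {0} (by
    intro i hi
    rw [mem_support_iff, coeff_C] at hi
    rw [Finset.mem_singleton]
    by_contra h
    exact hi (if_neg (Ne.symm h)))]
  rw [Finset.sum_singleton, coeff_C, if_pos rfl]

private theorem coCD_p {M U : Type} [Fintype U] [DecidableEq M] (c : U → M) (a0 : M) (D : ℕ)
    (p : MvPolynomial U ℤ) (hp : ∀ ν ∈ p.support, ∀ u, ν u ≠ 0 → c u = a0)
    (hdeg : p.totalDegree ≤ D) : CD c p (fun a => if a = a0 then D else 0) := by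
  intro ν hν a
  by_cases h : a = a0
  · simp only [if_pos h]
    have h1 : cdeg c ν a ≤ ∑ u, ν u := by
      rw [cdeg]
      exact Finset.sum_le_sum_of_subset (Finset.filter_subset _ _)
    have h2 := le_totalDegree hν
    rw [Finsupp.sum_fintype _ _ (fun _ => rfl)] at h2
    exact h1.trans (h2.trans hdeg)
  · simp only [if_neg h]
    rw [cdeg, Nat.le_zero]
    refine Finset.sum_eq_zero fun u hu => ?_
    by_contra h0
    exact h ((Finset.mem_filter.1 hu).2.symm.trans (hp ν hν u h0))

/-- **Normal form of `g ^ e`**, `g` integral over the ring generated by the `φ u`. -/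
theorem nf_one {M U R : Type} [Fintype U] [DecidableEq M] [CommRing R] (c : U → M) (φ : U → R)
    (g : R) (a0 : M) (D : ℕ) (hD : 0 < D) (κ : ℝ) (hκ : 1 ≤ κ) (b : ℤ)
    (hb : |(b : ℝ)| ≤ Real.exp (D * κ)) (p : Fin D → MvPolynomial U ℤ)
    (hp : ∀ i, ∀ ν ∈ (p i).support, ∀ u, ν u ≠ 0 → c u = a0)
    (hdeg : ∀ i, (p i).totalDegree ≤ D) (hL : ∀ i, L1 (p i) ≤ Real.exp (D * κ))
    (hg : (b : R) * g ^ D = ∑ i : Fin D, aeval φ (p i) * g ^ (i : ℕ)) (e : ℕ) :
    ∃ P : Fin D → MvPolynomial U ℤ,
      (∀ i, CD c (P i) (fun a => if a = a0 then D * e else 0)) ∧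
      (∀ i, L1 (P i) ≤ Real.exp ((D + 1) * κ * e)) ∧
      (b : R) ^ e * g ^ e = ∑ i : Fin D, aeval φ (P i) * g ^ (i : ℕ) := by
  obtain ⟨D', rfl⟩ := Nat.exists_eq_succ_of_ne_zero hD.ne'
  induction e with
  | zero =>
    refine ⟨Fin.cons 1 (fun _ => 0), ?_, ?_, ?_⟩
    · intro i
      refine Fin.cases ?_ (fun i => ?_) i
      · rw [Fin.cons_zero, ← map_one (MvPolynomial.C : ℤ →+* MvPolynomial U ℤ)]
        exact CD.C 1
      · rw [Fin.cons_succ]
        exact CD.zero
    · intro i
      have hexp : Real.exp (((D'.succ : ℕ) + 1) * κ * ((0 : ℕ) : ℝ)) = 1 := by simp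
      rw [hexp]
      refine Fin.cases ?_ (fun i => ?_) i
      · rw [Fin.cons_zero, ← map_one (MvPolynomial.C : ℤ →+* MvPolynomial U ℤ)]
        refine (coL1_C 1).trans ?_
        simp
      · rw [Fin.cons_succ, L1_zero]
        exact zero_le_one
    · rw [Fin.sum_univ_succ]
      simp
  | succ e ih =>
    obtain ⟨P, hP1, hP2, hP3⟩ := ih
    have hpc : ∀ i, CD c (p i) (fun a => if a = a0 then D'.succ else 0) :=
      fun i => coCD_p c a0 _ (p i) (hp i) (hdeg i)
    have hle1 : ((fun a => if a = a0 then D'.succ * e else 0) +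
        (fun a => if a = a0 then D'.succ else 0) : M → ℕ) ≤
        (fun a => if a = a0 then D'.succ * (e + 1) else 0) := by
      intro a
      simp only [Pi.add_apply]
      split_ifs
      · exact (Nat.mul_succ _ _).ge
      · exact le_rfl
    have hle0 : ((0 : M → ℕ) + (fun a => if a = a0 then D'.succ * e else 0) : M → ℕ) ≤
        (fun a => if a = a0 then D'.succ * (e + 1) else 0) := by
      intro a
      simp only [Pi.add_apply, Pi.zero_apply, zero_add]
      split_ifs
      · exact Nat.mul_le_mul_left _ (Nat.le_succ e)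
      · exact le_rfl
    have hX : 0 < Real.exp (((D'.succ : ℕ) + 1) * κ * (e : ℝ)) := Real.exp_pos _
    have hE : 0 < Real.exp ((D'.succ : ℕ) * κ) := Real.exp_pos _
    have h2 : (2 : ℝ) ≤ Real.exp κ := by
      have := Real.add_one_le_exp κ
      linarith
    have hsplit : Real.exp (((D'.succ : ℕ) + 1) * κ * ((e + 1 : ℕ) : ℝ)) =
        Real.exp κ * (Real.exp ((D'.succ : ℕ) * κ) *
          Real.exp (((D'.succ : ℕ) + 1) * κ * (e : ℝ))) := by
      rw [← Real.exp_add, ← Real.exp_add]
      congr 1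
      push_cast
      ring
    have hmul : ∀ i, L1 (P (Fin.last D') * p i) ≤ Real.exp ((D'.succ : ℕ) * κ) *
        Real.exp (((D'.succ : ℕ) + 1) * κ * (e : ℝ)) := by
      intro i
      refine (L1_mul _ _).trans ?_
      rw [mul_comm]
      exact mul_le_mul (hL i) (hP2 _) (L1_nonneg _) hE.le
    refine ⟨Fin.cons (P (Fin.last D') * p 0) (fun i : Fin D' =>
      MvPolynomial.C b * P i.castSucc + P (Fin.last D') * p i.succ), ?_, ?_, ?_⟩
    · intro i
      refine Fin.cases ?_ (fun i => ?_) i
      · rw [Fin.cons_zero]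
        exact ((hP1 _).mul (hpc 0)).mono hle1
      · rw [Fin.cons_succ]
        exact (((CD.C b (d := 0)).mul (hP1 _)).mono hle0).add
          (((hP1 _).mul (hpc _)).mono hle1)
    · intro i
      rw [hsplit]
      refine Fin.cases ?_ (fun i => ?_) i
      · rw [Fin.cons_zero]
        refine (hmul 0).trans ?_
        have h3 := mul_pos hE hX
        nlinarith
      · rw [Fin.cons_succ]
        refine (L1_add _ _).trans ?_
        have h3 : L1 (MvPolynomial.C b * P i.castSucc) ≤ Real.exp ((D'.succ : ℕ) * κ) *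
            Real.exp (((D'.succ : ℕ) + 1) * κ * (e : ℝ)) := by
          refine (L1_mul _ _).trans ?_
          exact mul_le_mul ((coL1_C b).trans hb) (hP2 _) (L1_nonneg _) hE.le
        have h4 := hmul i.succ
        have h5 := mul_pos hE hX
        nlinarith
    · rw [Fin.sum_univ_succ]
      simp only [Fin.cons_zero, Fin.cons_succ, map_add, map_mul, Fin.val_zero, pow_zero, mul_one,
        Fin.val_succ]
      have h3 : (b : R) ^ (e + 1) * g ^ (e + 1) =
          (∑ i : Fin (D' + 1), aeval φ (P i) * g ^ (i : ℕ)) * ((b : R) * g) := by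
        rw [← hP3]
        ring
      rw [h3, Fin.sum_univ_castSucc, add_mul, Finset.sum_mul]
      have h4 : aeval φ (P (Fin.last D')) * g ^ ((Fin.last D' : Fin (D' + 1)) : ℕ) *
          ((b : R) * g) = aeval φ (P (Fin.last D')) * ((b : R) * g ^ (D' + 1)) := by
        rw [Fin.val_last]
        ring
      rw [h4, hg, Fin.sum_univ_succ, mul_add, Finset.mul_sum]
      simp only [Fin.val_zero, pow_zero, mul_one, Fin.val_succ, Fin.val_castSucc]
      rw [add_left_comm, ← Finset.sum_add_distrib]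
      congr 1
      refine Finset.sum_congr rfl fun i _ => ?_
      have h5 : aeval φ (MvPolynomial.C b : MvPolynomial U ℤ) = (b : R) := by
        rw [aeval_C]
        simp
      rw [h5]
      ring

end Pool.Agent.LSharp
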