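import Pool.Agent.LSharp.CONf1

set_option autoImplicit false

/-! Package CO2: the normal form of the monomials in all generators, with a common denominator.

PROOF. For `s : A` and `e ≤ E (ca s)` let `P s e : Fin D → MvPolynomial U ℤ` be the polynomials of
`nf_one` (with `a0 = ca s`, `κ = κ (ca s)`; use `choose`). Put `bt = ∏ s, bb s ^ E (ca s)` and
`Pt al k = ∏ s, (C (bb s ^ (E (ca s) - al s)) * P s (al s) (k s))`.
IDENTITY: `bt * ∏ s, g s ^ al s = ∏ s, (bb s ^ (E - al s) * (bb s ^ al s * g s ^ al s))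
= ∏ s, ∑ i : Fin D, (bb s ^ (E - al s) * aeval φ (P s (al s) i)) * g s ^ i`, and
`Finset.prod_univ_sum` (`∏ i, ∑ j ∈ t i, f i j = ∑ x ∈ Fintype.piFinset t, ∏ i, f i (x i)`,
`Fintype.piFinset_univ`) gives the sum over `k : A → Fin D`; `Finset.prod_mul_distrib`, `map_prod`.
CLASS DEGREES: `CD.prod`, each factor has `CD` bound `fun a => if a = ca s then D * al s else 0`,
and
`∑ s, (if a = ca s then D * al s else 0) = D * ∑ s with ca s = a, al s` (`Finset.sum_filter`,
`Finset.mul_sum`, `Finset.sum_apply`).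
`ℓ¹`-NORMS: `L1_prod`, `L1_mul`: the factor `s` has norm at most `|bb s| ^ (E - al s) exp ((D+1) κ
al s)`
`≤ exp (D κ (E - al s)) exp ((D+1) κ al s) ≤ exp ((D+1) κ (ca s) E (ca s))`.
`|bt| ≤ ∏ exp (D κ (ca s) E (ca s))`. -/

namespace Pool.Agent.LSharp

open MvPolynomial Pool.Agent.LAll

private theorem L1_C_le {U : Type} (z : ℤ) : L1 (C z : MvPolynomial U ℤ) ≤ |(z : ℝ)| := by
  classical
  have h : (C z : MvPolynomial U ℤ).support ⊆ {0} := by
    intro ν hν
    rw [mem_support_iff, coeff_C] at hν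
    rw [Finset.mem_singleton]
    by_contra h0
    rw [if_neg (Ne.symm h0)] at hν
    exact hν rfl
  rw [L1_eq_sum _ _ h, Finset.sum_singleton, coeff_C, if_pos rfl]

private theorem abs_pow_le {b : ℤ} {x : ℝ} (h : |(b : ℝ)| ≤ Real.exp x) (m : ℕ) :
    |((b ^ m : ℤ) : ℝ)| ≤ Real.exp (m * x) := by
  rw [Int.cast_pow, abs_pow, Real.exp_nat_mul]
  exact pow_le_pow_left₀ (abs_nonneg _) h m

/-- **Normal form of the monomials.** -/
theorem nf_all {M U R A : Type} [Fintype U] [Fintype A] [DecidableEq A] [DecidableEq M]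
    [CommRing R] (c : U → M) (ca : A → M) (φ : U → R) (g : A → R) (D : ℕ) (hD : 0 < D)
    (κ : M → ℝ) (hκ : ∀ a, 1 ≤ κ a)
    (bb : A → ℤ) (hb0 : ∀ s, bb s ≠ 0) (hb : ∀ s, |(bb s : ℝ)| ≤ Real.exp (D * κ (ca s)))
    (pp : A → Fin D → MvPolynomial U ℤ)
    (hp : ∀ s i, ∀ ν ∈ (pp s i).support, ∀ u, ν u ≠ 0 → c u = ca s)
    (hdeg : ∀ s i, (pp s i).totalDegree ≤ D) (hL : ∀ s i, L1 (pp s i) ≤ Real.exp (D * κ (ca s)))
    (hg : ∀ s, (bb s : R) * g s ^ D = ∑ i : Fin D, aeval φ (pp s i) * g s ^ (i : ℕ))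
    (E : M → ℕ) :
    ∃ (bt : ℤ) (P : (A → ℕ) → (A → Fin D) → MvPolynomial U ℤ), bt ≠ 0 ∧
      |(bt : ℝ)| ≤ Real.exp (∑ s, D * κ (ca s) * E (ca s)) ∧
      ∀ al : A → ℕ, (∀ s, al s ≤ E (ca s)) →
        (∀ k, CD c (P al k) (fun a => D * ∑ s with ca s = a, al s)) ∧
        (∀ k, L1 (P al k) ≤ Real.exp (∑ s, (D + 1) * κ (ca s) * E (ca s))) ∧
        (bt : R) * ∏ s, g s ^ al s = ∑ k : A → Fin D, aeval φ (P al k) * ∏ s, g s ^ (k s : ℕ) := by
  classical
  choose P hPcd hPL hPid using fun (s : A) (e : ℕ) =>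
    nf_one c φ (g s) (ca s) D hD (κ (ca s)) (hκ _) (bb s) (hb s) (pp s) (hp s) (hdeg s) (hL s)
      (hg s) e
  refine ⟨∏ s, bb s ^ E (ca s), fun al k => ∏ s, (C (bb s ^ (E (ca s) - al s)) * P s (al s) (k s)),
    Finset.prod_ne_zero_iff.2 fun s _ => pow_ne_zero _ (hb0 s), ?_, ?_⟩
  · rw [Int.cast_prod, Finset.abs_prod, Real.exp_sum]
    refine Finset.prod_le_prod (fun _ _ => abs_nonneg _) fun s _ => ?_
    refine (abs_pow_le (hb s) _).trans (le_of_eq ?_)
    congr 1
    ring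
  · intro al hal
    refine ⟨fun k => ?_, fun k => ?_, ?_⟩
    · have h1 : CD c (∏ s, (C (bb s ^ (E (ca s) - al s)) * P s (al s) (k s)))
          (∑ s, fun a => if a = ca s then D * al s else 0) := by
        refine CD.prod _ fun s _ => ?_
        have h2 := (CD.C (c := c) (bb s ^ (E (ca s) - al s)) (d := 0)).mul (hPcd s (al s) (k s))
        rw [zero_add] at h2
        exact h2
      refine h1.mono fun a => le_of_eq ?_
      rw [Finset.sum_apply, Finset.sum_filter, Finset.mul_sum]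
      refine Finset.sum_congr rfl fun s _ => ?_
      by_cases h : a = ca s
      · rw [if_pos h, if_pos h.symm]
      · rw [if_neg h, if_neg (Ne.symm h), mul_zero]
    · refine (L1_prod _ _).trans ?_
      rw [Real.exp_sum]
      refine Finset.prod_le_prod (fun _ _ => L1_nonneg _) fun s _ => ?_
      refine (L1_mul _ _).trans ?_
      have h1 : L1 (C (bb s ^ (E (ca s) - al s)) : MvPolynomial U ℤ) ≤
          Real.exp (((E (ca s) - al s : ℕ) : ℝ) * (D * κ (ca s))) :=
        (L1_C_le _).trans (abs_pow_le (hb s) _)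
      refine (mul_le_mul h1 (hPL s (al s) (k s)) (L1_nonneg _) (Real.exp_nonneg _)).trans ?_
      rw [← Real.exp_add]
      refine Real.exp_le_exp.2 ?_
      rw [Nat.cast_sub (hal s)]
      have h2 : (al s : ℝ) ≤ E (ca s) := by exact_mod_cast hal s
      have h3 : (0 : ℝ) ≤ κ (ca s) := zero_le_one.trans (hκ _)
      nlinarith [mul_nonneg h3 (sub_nonneg.2 h2)]
    · have h1 : ((∏ s, bb s ^ E (ca s) : ℤ) : R) * ∏ s, g s ^ al s =
          ∏ s, ∑ i : Fin D, ((bb s : R) ^ (E (ca s) - al s) * aeval φ (P s (al s) i)) *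
            g s ^ (i : ℕ) := by
        rw [Int.cast_prod, ← Finset.prod_mul_distrib]
        refine Finset.prod_congr rfl fun s _ => ?_
        have h2 := hPid s (al s)
        have h3 : (bb s : R) ^ E (ca s) = (bb s : R) ^ (E (ca s) - al s) * (bb s : R) ^ al s := by
          rw [← pow_add, Nat.sub_add_cancel (hal s)]
        rw [Int.cast_pow, h3, mul_assoc, h2, Finset.mul_sum]
        refine Finset.sum_congr rfl fun i _ => ?_
        rw [mul_assoc]
      rw [h1, Finset.prod_univ_sum, Fintype.piFinset_univ]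
      refine Finset.sum_congr rfl fun k _ => ?_
      rw [Finset.prod_mul_distrib, map_prod]
      congr 1
      refine Finset.prod_congr rfl fun s _ => ?_
      rw [map_mul, aeval_C]
      congr 1
      simp

end Pool.Agent.LSharp
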