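import Pool.Agent.LSharp.CODefs

set_option autoImplicit false

/-! Package CO4: the coefficients of a product of many power series.

PROOF. For a place `v`, `r : β → ℝ` with `0 < r b`, and `C : ℝ`, let `NB v r C F` be the statement
* infinite `v`: `∀ s : Finset (β →₀ ℕ), ∑ i ∈ s, ab v (coeff i F) * ∏ b, r b ^ i b ≤ C`,
* finite `v`: `∀ i, ab v (coeff i F) * ∏ b, r b ^ i b ≤ C`.
(a) `NB v r 1 1`; (b) `NB v r C F` and `NB v r C' F'` imply `NB v r (C * C') (F * F')`
(`MvPowerSeries.coeff_mul`, sum over `Finset.antidiagonal i`). Infinite `v`: the pairs `(p, q)` with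
`p + q ∈ s` lie in `s' ×ˢ s'`, `s'` the set of all `p ≤ i`, `i ∈ s` (`Finset.Iic`, biUnion),
different
`i` give different pairs (`Finset.sum_sigma'`), and `ab v` is subadditive and multiplicative. Finite
`v`: ultrametric inequality (`FinitePlace.add_le`). Hence (c) `NB v r (∏ C_j ^ e_j) (∏ F_j ^ e_j)`.
(d) START: let `Λ = finrank ℚ K / dg v > 0`, so `ab v z = exp (Λ * lam v z)` for `z ≠ 0`, and
`Λ * wt v = 1` for infinite, `= 0` for finite `v`. Put `r b = exp (-Λ (q b + wt v * log 2))`. If all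
nonzero coefficients satisfy `lam v (coeff i F) ≤ c + ∑ b, i b * q b + D * wt v` then
`ab v (coeff i F) ∏ r b ^ i b ≤ exp (Λ (c + D wt v)) * ∏ b, (exp (-Λ wt v log 2)) ^ i b`; for
finite `v` the last factor is `1`; for infinite `v` it is `2 ^ (- ∑ i b)`, whose sum over any
finite set of exponents is at most `2 ^ card β`: the set is contained in a box `∀ b, i b ≤ N` and
`∑ over the box = ∏ b, ∑ t ≤ N, 2 ^ (-t) ≤ 2 ^ card β` (`Finset.prod_univ_sum`). So
`NB v r (exp (Λ (c + (D + card β * log 2) * wt v))) F`.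
(e) END: `NB v r C F` with `s = {i}` and `C = exp (Λ X)` gives
`lam v (coeff i F) ≤ X + ∑ b, i b * (q b + wt v * log 2)` if `coeff i F ≠ 0`. -/

namespace Pool.Agent.LSharp

open NumberField Pool.Agent.LAll MvPowerSeries

private theorem nb_prod {β I K : Type} [Fintype I] [Field K]
    (P : ℝ → MvPowerSeries β K → Prop) (h1 : P 1 1)
    (hm : ∀ C C' F F', P C F → P C' F' → P (C * C') (F * F')) (F : I → MvPowerSeries β K)
    (C : I → ℝ) (h : ∀ j, P (C j) (F j)) (e : I → ℕ) :
    P (∏ j, C j ^ e j) (∏ j, F j ^ e j) := by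
  classical
  have hp : ∀ (C : ℝ) (F : MvPowerSeries β K), P C F → ∀ n : ℕ, P (C ^ n) (F ^ n) := by
    intro C F hC n
    induction n with
    | zero =>
      rw [pow_zero, pow_zero]
      exact h1
    | succ n ih =>
      rw [pow_succ, pow_succ]
      exact hm _ _ _ _ ih hC
  have hs : ∀ s : Finset I, P (∏ j ∈ s, C j ^ e j) (∏ j ∈ s, F j ^ e j) := by
    intro s
    induction s using Finset.induction_on with
    | empty =>
      rw [Finset.prod_empty, Finset.prod_empty]
      exact h1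
    | insert a s ha ih =>
      rw [Finset.prod_insert ha, Finset.prod_insert ha]
      exact hm _ _ _ _ (hp _ _ (h a) (e a)) ih
  exact hs Finset.univ

section

variable {β K : Type} [Fintype β] [Field K]

private noncomputable def mm (r : β → ℝ) (i : β →₀ ℕ) : ℝ := ∏ b, r b ^ i b

private theorem mm_zero (r : β → ℝ) : mm r 0 = 1 := by
  simp [mm]

private theorem mm_add (r : β → ℝ) (p q : β →₀ ℕ) : mm r (p + q) = mm r p * mm r q := by
  unfold mm
  rw [← Finset.prod_mul_distrib]
  exact Finset.prod_congr rfl fun b _ => by rw [Finsupp.add_apply, pow_add]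

private theorem mm_pos {r : β → ℝ} (hr : ∀ b, 0 < r b) (i : β →₀ ℕ) : 0 < mm r i :=
  Finset.prod_pos fun b _ => pow_pos (hr b) _

private theorem inf_one (a : K → ℝ) (ha0 : a 0 = 0) (ha1 : a 1 = 1) (r : β → ℝ)
    (s : Finset (β →₀ ℕ)) :
    ∑ i ∈ s, a (coeff i (1 : MvPowerSeries β K)) * mm r i ≤ 1 := by
  classical
  have h : ∀ i ∈ s, i ≠ 0 → a (coeff i (1 : MvPowerSeries β K)) * mm r i = 0 := by
    intro i _ hi
    rw [coeff_one, if_neg hi, ha0, zero_mul]
  by_cases h0 : (0 : β →₀ ℕ) ∈ s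
  · rw [Finset.sum_eq_single_of_mem 0 h0 (fun i hi hne => h i hi hne), coeff_one, if_pos rfl, ha1,
      mm_zero, one_mul]
  · rw [Finset.sum_eq_zero fun i hi => h i hi fun hi0 => h0 (hi0 ▸ hi)]
    exact zero_le_one

private theorem inf_mul (a : K → ℝ) (ha : ∀ x, 0 ≤ a x) (ham : ∀ x y, a (x * y) = a x * a y)
    (has : ∀ x y, a (x + y) ≤ a x + a y) (ha0 : a 0 = 0) {r : β → ℝ} (hr : ∀ b, 0 < r b)
    {C C' : ℝ} {F F' : MvPowerSeries β K}
    (h : ∀ s : Finset (β →₀ ℕ), ∑ i ∈ s, a (coeff i F) * mm r i ≤ C)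
    (h' : ∀ s : Finset (β →₀ ℕ), ∑ i ∈ s, a (coeff i F') * mm r i ≤ C')
    (s : Finset (β →₀ ℕ)) : ∑ i ∈ s, a (coeff i (F * F')) * mm r i ≤ C * C' := by
  classical
  have hsum : ∀ (t : Finset ((β →₀ ℕ) × (β →₀ ℕ))) (f : (β →₀ ℕ) × (β →₀ ℕ) → K),
      a (∑ x ∈ t, f x) ≤ ∑ x ∈ t, a (f x) := by
    intro t f
    induction t using Finset.induction_on with
    | empty => simp [ha0]
    | insert x t hx ih =>
      rw [Finset.sum_insert hx, Finset.sum_insert hx]
      exact (has _ _).trans (by linarith)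
  set s' : Finset (β →₀ ℕ) := s.biUnion fun i =>
    (Finset.HasAntidiagonal.antidiagonal i).image Prod.fst ∪
      (Finset.HasAntidiagonal.antidiagonal i).image Prod.snd with hs'
  have e1 : ∑ i ∈ s, a (coeff i (F * F')) * mm r i ≤
      ∑ i ∈ s, ∑ x ∈ Finset.HasAntidiagonal.antidiagonal i,
        (a (coeff x.1 F) * mm r x.1) * (a (coeff x.2 F') * mm r x.2) := by
    refine Finset.sum_le_sum fun i _ => ?_
    rw [coeff_mul]
    refine (mul_le_mul_of_nonneg_right (hsum _ _) (mm_pos hr i).le).trans (le_of_eq ?_)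
    rw [Finset.sum_mul]
    refine Finset.sum_congr rfl fun x hx => ?_
    rw [Finset.HasAntidiagonal.mem_antidiagonal] at hx
    rw [ham, ← hx, mm_add]
    ring
  refine e1.trans ?_
  rw [Finset.sum_sigma']
  have hinj : Set.InjOn (fun x : (_ : β →₀ ℕ) × ((β →₀ ℕ) × (β →₀ ℕ)) => x.2)
      (s.sigma fun i => Finset.HasAntidiagonal.antidiagonal i) := by
    rintro ⟨i, x⟩ hx ⟨j, y⟩ hy hxy
    simp only at hxy
    subst hxy
    have h1 := (Finset.mem_sigma.1 (Finset.mem_coe.1 hx)).2
    have h2 := (Finset.mem_sigma.1 (Finset.mem_coe.1 hy)).2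
    rw [Finset.HasAntidiagonal.mem_antidiagonal] at h1 h2
    simp only at h1 h2
    rw [← h1, ← h2]
  have e2 : ∑ x ∈ s.sigma fun i => Finset.HasAntidiagonal.antidiagonal i,
      (a (coeff x.2.1 F) * mm r x.2.1) * (a (coeff x.2.2 F') * mm r x.2.2)
      = ∑ y ∈ (s.sigma fun i => Finset.HasAntidiagonal.antidiagonal i).image
          (fun x : (_ : β →₀ ℕ) × ((β →₀ ℕ) × (β →₀ ℕ)) => x.2),
        (a (coeff y.1 F) * mm r y.1) * (a (coeff y.2 F') * mm r y.2) := by
    rw [Finset.sum_image hinj]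
  rw [e2]
  have e3 : (s.sigma fun i => Finset.HasAntidiagonal.antidiagonal i).image
      (fun x : (_ : β →₀ ℕ) × ((β →₀ ℕ) × (β →₀ ℕ)) => x.2) ⊆ s' ×ˢ s' := by
    intro y hy
    obtain ⟨⟨i, x⟩, hx, rfl⟩ := Finset.mem_image.1 hy
    obtain ⟨h1, h2⟩ := Finset.mem_sigma.1 hx
    rw [Finset.mem_product]
    constructor
    · exact Finset.mem_biUnion.2 ⟨i, h1, Finset.mem_union_left _
        (Finset.mem_image.2 ⟨x, h2, rfl⟩)⟩
    · exact Finset.mem_biUnion.2 ⟨i, h1, Finset.mem_union_right _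
        (Finset.mem_image.2 ⟨x, h2, rfl⟩)⟩
  refine (Finset.sum_le_sum_of_subset_of_nonneg e3 fun y _ _ => ?_).trans ?_
  · exact mul_nonneg (mul_nonneg (ha _) (mm_pos hr _).le) (mul_nonneg (ha _) (mm_pos hr _).le)
  · rw [Finset.sum_product]
    simp only []
    rw [← Finset.sum_mul_sum]
    refine mul_le_mul (h s') (h' s') ?_ ?_
    · exact Finset.sum_nonneg fun i _ => mul_nonneg (ha _) (mm_pos hr _).le
    · simpa using h ∅

private theorem fin_one (a : K → ℝ) (ha0 : a 0 = 0) (ha1 : a 1 = 1) (r : β → ℝ) (i : β →₀ ℕ) :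
    a (coeff i (1 : MvPowerSeries β K)) * mm r i ≤ 1 := by
  classical
  rw [coeff_one]
  split_ifs with h
  · rw [h, ha1, mm_zero, one_mul]
  · rw [ha0, zero_mul]
    exact zero_le_one

private theorem fin_mul (a : K → ℝ) (ha : ∀ x, 0 ≤ a x) (ham : ∀ x y, a (x * y) = a x * a y)
    (has : ∀ x y, a (x + y) ≤ max (a x) (a y)) (ha0 : a 0 = 0) {r : β → ℝ} (hr : ∀ b, 0 < r b)
    {C C' : ℝ} {F F' : MvPowerSeries β K}
    (h : ∀ i : β →₀ ℕ, a (coeff i F) * mm r i ≤ C)
    (h' : ∀ i : β →₀ ℕ, a (coeff i F') * mm r i ≤ C')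
    (i : β →₀ ℕ) : a (coeff i (F * F')) * mm r i ≤ C * C' := by
  classical
  have hC : 0 ≤ C := (mul_nonneg (ha _) (mm_pos hr 0).le).trans (h 0)
  have hC' : 0 ≤ C' := (mul_nonneg (ha _) (mm_pos hr 0).le).trans (h' 0)
  have hsum : ∀ (t : Finset ((β →₀ ℕ) × (β →₀ ℕ))) (f : (β →₀ ℕ) × (β →₀ ℕ) → K) (B : ℝ),
      0 ≤ B → (∀ x ∈ t, a (f x) ≤ B) → a (∑ x ∈ t, f x) ≤ B := by
    intro t f B hB
    induction t using Finset.induction_on with
    | empty =>
      intro _
      rw [Finset.sum_empty, ha0]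
      exact hB
    | insert x t hx ih =>
      intro hf
      rw [Finset.sum_insert hx]
      exact (has _ _).trans (max_le (hf x (Finset.mem_insert_self x t))
        (ih fun y hy => hf y (Finset.mem_insert_of_mem hy)))
  have hmi := mm_pos hr i
  rw [coeff_mul, ← le_div_iff₀ hmi]
  refine hsum _ _ _ (by positivity) fun x hx => ?_
  rw [Finset.HasAntidiagonal.mem_antidiagonal] at hx
  rw [le_div_iff₀ hmi, ham, ← hx, mm_add]
  calc a (coeff x.1 F) * a (coeff x.2 F') * (mm r x.1 * mm r x.2)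
      = (a (coeff x.1 F) * mm r x.1) * (a (coeff x.2 F') * mm r x.2) := by ring
    _ ≤ C * C' := mul_le_mul (h _) (h' _) (mul_nonneg (ha _) (mm_pos hr _).le) hC

end

/-- Sums of powers of one half. -/
private theorem half_sum {β : Type} [Fintype β] (s : Finset (β →₀ ℕ)) :
    ∑ i ∈ s, ∏ b, ((1 : ℝ) / 2) ^ i b ≤ 2 ^ Fintype.card β := by
  classical
  set N : ℕ := s.sup fun i => Finset.univ.sup fun b => i b with hN
  have hgeo : ∑ t ∈ Finset.range (N + 1), ((1 : ℝ) / 2) ^ t ≤ 2 := by
    have := Summable.sum_le_tsum (f := fun n : ℕ => ((1 : ℝ) / 2) ^ n) (Finset.range (N + 1))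
      (fun _ _ => by positivity) summable_geometric_two
    rwa [tsum_geometric_two] at this
  have hinj : Set.InjOn (fun i : β →₀ ℕ => (i : β → ℕ)) s :=
    fun i _ j _ hij => DFunLike.coe_injective hij
  have e1 : ∑ i ∈ s, ∏ b, ((1 : ℝ) / 2) ^ i b
      = ∑ f ∈ s.image (fun i : β →₀ ℕ => (i : β → ℕ)), ∏ b, ((1 : ℝ) / 2) ^ f b := by
    rw [Finset.sum_image hinj]
  have e2 : s.image (fun i : β →₀ ℕ => (i : β → ℕ)) ⊆
      Fintype.piFinset fun _ : β => Finset.range (N + 1) := by
    intro f hf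
    obtain ⟨i, hi, rfl⟩ := Finset.mem_image.1 hf
    rw [Fintype.mem_piFinset]
    intro b
    rw [Finset.mem_range]
    have h1 : i b ≤ Finset.univ.sup fun b => i b :=
      Finset.le_sup (f := fun b => i b) (Finset.mem_univ b)
    have h2 : (Finset.univ.sup fun b => i b) ≤ N :=
      Finset.le_sup (f := fun i : β →₀ ℕ => Finset.univ.sup fun b => i b) hi
    omega
  rw [e1]
  refine (Finset.sum_le_sum_of_subset_of_nonneg e2 fun f _ _ => ?_).trans ?_
  · exact Finset.prod_nonneg fun b _ => by positivity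
  · rw [← Finset.prod_univ_sum (fun _ : β => Finset.range (N + 1))
      (fun _ t => ((1 : ℝ) / 2) ^ t), Finset.prod_const, Finset.card_univ]
    refine pow_le_pow_left₀ ?_ hgeo _
    exact Finset.sum_nonneg fun t _ => by positivity

private theorem fr_pos' (K : Type) [Field K] [NumberField K] :
    (0 : ℝ) < Module.finrank ℚ K := by
  exact_mod_cast Module.finrank_pos

private theorem dg_pos' {K : Type} [Field K] [NumberField K] {S : Finset (FinitePlace K)}
    (v : Plc K S) : 0 < dg v := by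
  rcases v with v | v
  · change (0 : ℝ) < (v.mult : ℝ)
    exact_mod_cast InfinitePlace.mult_pos
  · exact one_pos

/-- **The coefficients of a product of powers of power series.** -/
theorem lam_coeff_prod {β I K : Type} [Fintype β] [Fintype I] [Field K] [NumberField K]
    {S : Finset (FinitePlace K)} (v : Plc K S) (F : I → MvPowerSeries β K) (c : I → ℝ) (D : ℝ)
    (hD : 0 ≤ D) (q : β → ℝ) (hq : ∀ b, 0 ≤ q b)
    (h : ∀ j i, coeff i (F j) ≠ 0 → lam v (coeff i (F j)) ≤
      c j + ∑ b, (i b : ℝ) * q b + D * LAll.wt v)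
    (e : I → ℕ) (i : β →₀ ℕ) (hne : coeff i (∏ j, F j ^ e j) ≠ 0) :
    lam v (coeff i (∏ j, F j ^ e j)) ≤ ∑ j, e j * c j + ∑ b, (i b : ℝ) * q b +
      LAll.wt v * (∑ b, (i b : ℝ) + (D + Fintype.card β) * ∑ j, (e j : ℝ)) := by
  classical
  have hfr := fr_pos' K
  have hdg := dg_pos' v
  set Λ : ℝ := Module.finrank ℚ K / dg v with hΛ
  have hΛ0 : 0 < Λ := div_pos hfr hdg
  have hab : ∀ z : K, z ≠ 0 → ab v z = Real.exp (Λ * lam v z) := by
    intro z hz
    have h1 : Λ * lam v z = Real.log (ab v z) := by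
      rw [hΛ]
      unfold lam
      field_simp
    rw [h1, Real.exp_log (ab_pos v hz)]
  set r : β → ℝ := fun b => Real.exp (-(Λ * (q b + LAll.wt v * Real.log 2))) with hr
  have hr0 : ∀ b, 0 < r b := fun b => Real.exp_pos _
  have hmm : ∀ i : β →₀ ℕ, mm r i
      = Real.exp (-(Λ * ∑ b, (i b : ℝ) * (q b + LAll.wt v * Real.log 2))) := by
    intro i
    unfold mm
    rw [Finset.mul_sum, ← Finset.sum_neg_distrib, Real.exp_sum]
    refine Finset.prod_congr rfl fun b _ => ?_
    rw [hr, ← Real.exp_nat_mul]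
    congr 1
    ring
  have hlog2 : 0 ≤ Real.log 2 := Real.log_nonneg (by norm_num)
  have hlog2' : Real.log 2 ≤ 1 := by
    have := Real.log_le_sub_one_of_pos (show (0 : ℝ) < 2 by norm_num)
    linarith
  have hwt := wt_nonneg v
  set CC : I → ℝ := fun j =>
    Real.exp (Λ * (c j + (D + Fintype.card β * Real.log 2) * LAll.wt v)) with hCC
  -- one term
  have hterm : ∀ j (i : β →₀ ℕ), ab v (coeff i (F j)) * mm r i ≤
      Real.exp (Λ * (c j + D * LAll.wt v)) *
        ∏ b, Real.exp (-(Λ * LAll.wt v * Real.log 2)) ^ i b := by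
    intro j i
    by_cases h0 : coeff i (F j) = 0
    · have : ab v (coeff i (F j)) = 0 := by
        rw [h0]
        rcases v with v | v
        · exact map_zero v
        · exact map_zero v.1
      rw [this, zero_mul]
      exact mul_nonneg (Real.exp_pos _).le (Finset.prod_nonneg fun b _ => by positivity)
    · have h1 := h j i h0
      have h2 : ∏ b, Real.exp (-(Λ * LAll.wt v * Real.log 2)) ^ i b
          = Real.exp (-(Λ * ∑ b, (i b : ℝ) * (LAll.wt v * Real.log 2))) := by
        rw [Finset.mul_sum, ← Finset.sum_neg_distrib, Real.exp_sum]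
        refine Finset.prod_congr rfl fun b _ => ?_
        rw [← Real.exp_nat_mul]
        congr 1
        ring
      rw [hab _ h0, hmm, h2, ← Real.exp_add, ← Real.exp_add, Real.exp_le_exp]
      have h3 : ∑ b, (i b : ℝ) * (q b + LAll.wt v * Real.log 2)
          = ∑ b, (i b : ℝ) * q b + ∑ b, (i b : ℝ) * (LAll.wt v * Real.log 2) := by
        rw [← Finset.sum_add_distrib]
        exact Finset.sum_congr rfl fun b _ => by ring
      rw [h3]
      have h4 := mul_le_mul_of_nonneg_left h1 hΛ0.le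
      nlinarith
  -- the bound for the product
  have key : ab v (coeff i (∏ j, F j ^ e j)) * mm r i ≤ ∏ j, CC j ^ e j := by
    rcases v with v | v
    · -- infinite places
      have hΛwt : Λ * LAll.wt (Sum.inl v : Plc K S) = 1 := by
        rw [hΛ]
        change (Module.finrank ℚ K : ℝ) / (v.mult : ℝ) * ((v.mult : ℝ) / Module.finrank ℚ K) = 1
        have hm : (0 : ℝ) < v.mult := hdg
        field_simp
      have hall := nb_prod (β := β) (K := K)
        (fun C F => ∀ s : Finset (β →₀ ℕ),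
          ∑ i ∈ s, ab (Sum.inl v : Plc K S) (coeff i F) * mm r i ≤ C)
        (fun s => inf_one _ (map_zero v) (map_one v) r s)
        (fun C C' F F' h h' s => inf_mul (ab (Sum.inl v : Plc K S)) (fun x => ab_nonneg _ x)
          (fun x y => ab_mul _ x y) (fun x y => v.1.add_le x y) (map_zero v) hr0 h h' s)
        F CC ?_ e
      · have h1 := hall {i}
        rwa [Finset.sum_singleton] at h1
      · intro j s
        have hhalf : Real.exp (-(Λ * LAll.wt (Sum.inl v : Plc K S) * Real.log 2)) = 1 / 2 := by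
          rw [hΛwt, one_mul, Real.exp_neg, Real.exp_log (by norm_num)]
          norm_num
        calc ∑ i ∈ s, ab (Sum.inl v : Plc K S) (coeff i (F j)) * mm r i
            ≤ ∑ i ∈ s, Real.exp (Λ * (c j + D * LAll.wt (Sum.inl v : Plc K S))) *
              ∏ b, ((1 : ℝ) / 2) ^ i b := by
              refine Finset.sum_le_sum fun i _ => ?_
              have := hterm j i
              rwa [hhalf] at this
          _ = Real.exp (Λ * (c j + D * LAll.wt (Sum.inl v : Plc K S))) *
              ∑ i ∈ s, ∏ b, ((1 : ℝ) / 2) ^ i b := by rw [Finset.mul_sum]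
          _ ≤ Real.exp (Λ * (c j + D * LAll.wt (Sum.inl v : Plc K S))) *
              2 ^ Fintype.card β :=
              mul_le_mul_of_nonneg_left (half_sum s) (Real.exp_pos _).le
          _ = CC j := by
              have h2 : (2 : ℝ) ^ Fintype.card β
                  = Real.exp ((Fintype.card β : ℝ) * Real.log 2) := by
                rw [Real.exp_nat_mul, Real.exp_log (by norm_num)]
              rw [h2, ← Real.exp_add, hCC]
              congr 1
              have h3 : Λ * (c j + (D + Fintype.card β * Real.log 2) *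
                  LAll.wt (Sum.inl v : Plc K S))
                  = Λ * (c j + D * LAll.wt (Sum.inl v : Plc K S)) +
                    (Λ * LAll.wt (Sum.inl v : Plc K S)) * (Fintype.card β * Real.log 2) := by
                ring
              rw [h3, hΛwt, one_mul]
    · -- finite places
      have hwt0 : LAll.wt (Sum.inr v : Plc K S) = 0 := rfl
      have hall := nb_prod (β := β) (K := K)
        (fun C F => ∀ i : β →₀ ℕ, ab (Sum.inr v : Plc K S) (coeff i F) * mm r i ≤ C)
        (fun i => fin_one _ (map_zero v.1) (map_one v.1) r i)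
        (fun C C' F F' h h' i => fin_mul (ab (Sum.inr v : Plc K S)) (fun x => ab_nonneg _ x)
          (fun x y => ab_mul _ x y) (fun x y => v.1.add_le x y) (map_zero v.1) hr0 h h' i)
        F CC ?_ e
      · exact hall i
      · intro j i
        refine (hterm j i).trans (le_of_eq ?_)
        rw [hCC, hwt0]
        simp
  -- the end
  rw [hab _ hne, hmm, ← Real.exp_add] at key
  have hprod : ∏ j, CC j ^ e j
      = Real.exp (∑ j, (e j : ℝ) * (Λ * (c j + (D + Fintype.card β * Real.log 2) *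
        LAll.wt v))) := by
    rw [Real.exp_sum]
    refine Finset.prod_congr rfl fun j _ => ?_
    rw [hCC, ← Real.exp_nat_mul]
  rw [hprod, Real.exp_le_exp] at key
  have e1 : ∑ j, (e j : ℝ) * (Λ * (c j + (D + Fintype.card β * Real.log 2) * LAll.wt v))
      = Λ * (∑ j, e j * c j + (D + Fintype.card β * Real.log 2) * LAll.wt v * ∑ j, (e j : ℝ)) := by
    rw [mul_add, Finset.mul_sum, Finset.mul_sum, Finset.mul_sum, ← Finset.sum_add_distrib]
    exact Finset.sum_congr rfl fun j _ => by ring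
  have e2 : ∑ b, (i b : ℝ) * (q b + LAll.wt v * Real.log 2)
      = ∑ b, (i b : ℝ) * q b + LAll.wt v * Real.log 2 * ∑ b, (i b : ℝ) := by
    rw [Finset.mul_sum, ← Finset.sum_add_distrib]
    exact Finset.sum_congr rfl fun b _ => by ring
  rw [e1, e2] at key
  have key2 : lam v (coeff i (∏ j, F j ^ e j)) ≤ ∑ j, e j * c j +
      (D + Fintype.card β * Real.log 2) * LAll.wt v * ∑ j, (e j : ℝ) +
      (∑ b, (i b : ℝ) * q b + LAll.wt v * Real.log 2 * ∑ b, (i b : ℝ)) := by
    have h5 : Λ * (lam v (coeff i (∏ j, F j ^ e j)) -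
        (∑ b, (i b : ℝ) * q b + LAll.wt v * Real.log 2 * ∑ b, (i b : ℝ))) ≤
        Λ * (∑ j, e j * c j + (D + Fintype.card β * Real.log 2) * LAll.wt v * ∑ j, (e j : ℝ)) := by
      linarith
    have h6 := le_of_mul_le_mul_left h5 hΛ0
    linarith
  have hE : 0 ≤ ∑ j, (e j : ℝ) := Finset.sum_nonneg fun j _ => Nat.cast_nonneg _
  have hI : 0 ≤ ∑ b, (i b : ℝ) := Finset.sum_nonneg fun b _ => Nat.cast_nonneg _
  have hβ : (0 : ℝ) ≤ Fintype.card β := Nat.cast_nonneg _
  have f1 : LAll.wt v * Real.log 2 * ∑ b, (i b : ℝ) ≤ LAll.wt v * ∑ b, (i b : ℝ) := by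
    refine mul_le_mul_of_nonneg_right ?_ hI
    nlinarith
  have f2 : (D + Fintype.card β * Real.log 2) * LAll.wt v * ∑ j, (e j : ℝ) ≤
      (D + Fintype.card β) * LAll.wt v * ∑ j, (e j : ℝ) := by
    refine mul_le_mul_of_nonneg_right (mul_le_mul_of_nonneg_right ?_ hwt) hE
    nlinarith
  calc lam v (coeff i (∏ j, F j ^ e j)) ≤ _ := key2
    _ ≤ ∑ j, e j * c j + (D + Fintype.card β) * LAll.wt v * ∑ j, (e j : ℝ) +
      (∑ b, (i b : ℝ) * q b + LAll.wt v * ∑ b, (i b : ℝ)) := by linarith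
    _ = _ := by ring

end Pool.Agent.LSharp
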