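import Mathlib

set_option autoImplicit false

/-! HC12. Counting: a lowest block and one element of each higher class. -/

namespace Pool.Agent.LSharp

/-- **Counting.** `R` is an equivalence relation (the same class), `L` a strict order of the classes
outside `B` (lower class). For every class `W₁ ⊆ Bᶜ` and every set `W` consisting of `W₁` and at most one
element of each class which is higher than `W₁` the bounds of the hypothesis hold; then
`|ι| ≤ ρ (ρ - 1) / 2 + 1`.

Proof. Let `C_1, ..., C_s` be the classes in `Bᶜ` from the lowest to the highest, `u_i = |C_i|`. For each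
`i` the set `W = C_i ∪ {a representative of C_j : j > i}` has `u_i + s - i` elements. If `B = ∅`:
`u_i ≤ ρ - 1 - (s - i)`, so `|ι| = ∑ u_i ≤ ∑_{t < s} (ρ - 1 - t) ≤ ρ (ρ - 1) / 2` (`s ≤ ρ - 1` from `i = 1`,
if there is any class). If `b = |B| ≥ 1`: `u_i ≤ ρ - b - (s - i)` and `b ≤ ρ` (`W = ∅`), so with
`m = ρ - b`: `|ι| ≤ b + m (m + 1) / 2 ≤ 1 + ρ (ρ - 1) / 2`, because
`ρ (ρ - 1) - m (m + 1) - 2 (b - 1) = (b - 1) (b + 2 m - 2) ≥ 0`.
(An induction that removes the highest class, or the lowest class, avoids the enumeration of the classes: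
e.g. by strong induction on the number of elements prove for finite sets `A ⊆ Bᶜ` which are unions of
classes, closed upwards, with `N` classes: `|A| ≤ ∑_{t < N} (c - t)` for `c = ρ - max b 1` and `N ≤ c`.) -/
theorem count_blockchain {ι : Type} [Fintype ι] [DecidableEq ι] (B : Finset ι) (R L : ι → ι → Prop)
    (hR : Equivalence R) (hLR : ∀ k l, L k l → ¬ R k l)
    (htrans : ∀ k l m, L k l → L l m → L k m) (hRL : ∀ k k' l l', R k k' → R l l' → L k l → L k' l')
    (htri : ∀ k ∉ B, ∀ l ∉ B, R k l ∨ L k l ∨ L l k) (ρ : ℕ) (hρ : 1 ≤ ρ)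
    (h : ∀ W W₁ : Finset ι, W ⊆ Bᶜ → W₁ ⊆ W → (W.Nonempty → W₁.Nonempty) →
      (∀ k ∈ W₁, ∀ l ∈ W₁, R k l) → (∀ k ∈ W₁, ∀ l ∈ W \ W₁, L k l) →
      (∀ k ∈ W \ W₁, ∀ l ∈ W \ W₁, k ≠ l → L k l ∨ L l k) →
      (W.Nonempty → W.card + 1 ≤ ρ) ∧ (B.Nonempty → W.card + B.card ≤ ρ)) :
    Fintype.card ι ≤ ρ * (ρ - 1) / 2 + 1 := by
  classical
  have hirr : ∀ k, ¬ L k k := fun k hk => hLR k k hk (hR.refl k)
  have wf : WellFounded L := by
    have i1 : IsTrans ι L := ⟨htrans⟩
    have i2 : Std.Irrefl L := ⟨hirr⟩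
    exact Finite.wellFounded_of_trans_of_irrefl L
  -- the bound for a set consisting of one class and higher representatives
  obtain ⟨c, hc⟩ : ∃ c, c = ρ - max B.card 1 := ⟨_, rfl⟩
  have hW : ∀ W W₁ : Finset ι, W ⊆ Bᶜ → W₁ ⊆ W → W₁.Nonempty →
      (∀ k ∈ W₁, ∀ l ∈ W₁, R k l) → (∀ k ∈ W₁, ∀ l ∈ W \ W₁, L k l) →
      (∀ k ∈ W \ W₁, ∀ l ∈ W \ W₁, k ≠ l → L k l ∨ L l k) → W.card ≤ c := by
    intro W W₁ h1 h2 h3 h4 h5 h6
    obtain ⟨h7, h8⟩ := h W W₁ h1 h2 (fun _ => h3) h4 h5 h6
    have h9 := h7 (h3.mono h2)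
    rcases Finset.eq_empty_or_nonempty B with hB | hB
    · rw [hB, Finset.card_empty] at hc
      omega
    · have h10 := h8 hB
      have h11 := hB.card_pos
      omega
  have key : ∀ (N : ℕ) (A : Finset ι), A.card = N → A ⊆ Bᶜ → ∃ T ⊆ A,
      (∀ k ∈ T, ∀ l ∈ T, k ≠ l → L k l ∨ L l k) ∧ T.card ≤ c ∧
      2 * A.card + (c - T.card) * (c - T.card + 1) ≤ c * (c + 1) := by
    intro N
    induction N using Nat.strong_induction_on with
    | _ N ih =>
      intro A hAN hAB
      rcases Finset.eq_empty_or_nonempty A with hA | hA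
      · refine ⟨∅, Finset.empty_subset _, by simp, by simp, ?_⟩
        rw [hA, Finset.card_empty]
        simp
      · obtain ⟨k, hkA, hmin⟩ := wf.has_min (A : Set ι) hA
        obtain ⟨C, hC⟩ : ∃ C, C = A.filter fun l => R k l := ⟨_, rfl⟩
        have hCA : C ⊆ A := by
          rw [hC]
          exact Finset.filter_subset _ _
        have hmC : ∀ l, l ∈ C ↔ l ∈ A ∧ R k l := by
          intro l
          rw [hC, Finset.mem_filter]
        have hkC : k ∈ C := (hmC k).2 ⟨hkA, hR.refl k⟩
        have hlow : ∀ l ∈ A \ C, L k l := by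
          intro l hl
          rw [Finset.mem_sdiff] at hl
          rcases htri k (Finset.mem_compl.1 (hAB hkA)) l (Finset.mem_compl.1 (hAB hl.1)) with
            h1 | h1 | h1
          · exact absurd ((hmC l).2 ⟨hl.1, h1⟩) hl.2
          · exact h1
          · exact absurd h1 (hmin l hl.1)
        have hcard : (A \ C).card + C.card = A.card := Finset.card_sdiff_add_card_eq_card hCA
        have hCpos : 0 < C.card := Finset.card_pos.2 ⟨k, hkC⟩
        obtain ⟨T, hTA, hT1, hT2, hT3⟩ := ih (A \ C).card (by omega) (A \ C) rfl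
          (Finset.sdiff_subset.trans hAB)
        have hTC : Disjoint C T := by
          rw [Finset.disjoint_left]
          intro l h1 h2
          exact (Finset.mem_sdiff.1 (hTA h2)).2 h1
        have hsd : (C ∪ T) \ C = T := by
          rw [Finset.union_sdiff_left]
          exact Finset.sdiff_eq_self_of_disjoint hTC.symm
        have hWc : (C ∪ T).card ≤ c := by
          refine hW (C ∪ T) C ?_ Finset.subset_union_left ⟨k, hkC⟩ ?_ ?_ ?_
          · exact (Finset.union_subset hCA (hTA.trans Finset.sdiff_subset)).trans hAB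
          · intro a ha b hb
            exact hR.trans (hR.symm ((hmC a).1 ha).2) ((hmC b).1 hb).2
          · intro a ha b hb
            rw [hsd] at hb
            exact hRL k a b b ((hmC a).1 ha).2 (hR.refl b) (hlow b (hTA hb))
          · rw [hsd]
            exact hT1
        rw [Finset.card_union_of_disjoint hTC] at hWc
        have hkT : k ∉ T := fun h1 => (Finset.mem_sdiff.1 (hTA h1)).2 hkC
        refine ⟨insert k T, ?_, ?_, ?_, ?_⟩
        · exact Finset.insert_subset hkA (hTA.trans Finset.sdiff_subset)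
        · intro a ha b hb hab
          rcases Finset.mem_insert.1 ha with ha1 | ha1
          · rcases Finset.mem_insert.1 hb with hb1 | hb1
            · exact absurd (ha1.trans hb1.symm) hab
            · rw [ha1]
              exact Or.inl (hlow b (hTA hb1))
          · rcases Finset.mem_insert.1 hb with hb1 | hb1
            · rw [hb1]
              exact Or.inr (hlow a (hTA ha1))
            · exact hT1 a ha1 b hb1 hab
        · rw [Finset.card_insert_of_notMem hkT]
          omega
        · rw [Finset.card_insert_of_notMem hkT]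
          obtain ⟨m, hm⟩ : ∃ m, c = T.card + 1 + m := ⟨c - (T.card + 1), by omega⟩
          have e1 : c - T.card = m + 1 := by omega
          have e2 : c - (T.card + 1) = m := by omega
          rw [e1] at hT3
          rw [e2]
          have e3 : C.card ≤ m + 1 := by omega
          have e4 : (m + 1) * (m + 1 + 1) = m * (m + 1) + 2 * (m + 1) := by ring
          omega
  obtain ⟨T, -, -, -, hT⟩ := key _ Bᶜ rfl subset_rfl
  have hB : B.card + Bᶜ.card = Fintype.card ι := Finset.card_add_card_compl B
  have hBc : 2 * Bᶜ.card ≤ c * (c + 1) := by omega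
  rcases Finset.eq_empty_or_nonempty B with hB0 | hB0
  · have h1 : B.card = 0 := by rw [hB0, Finset.card_empty]
    have h2 : c = ρ - 1 := by
      rw [hc, h1]
      simp
    have h3 : c + 1 = ρ := by omega
    rw [h3, h2] at hBc
    have h4 : Fintype.card ι ≤ ρ * (ρ - 1) / 2 := by
      rw [Nat.le_div_iff_mul_le (by norm_num), mul_comm ρ]
      omega
    omega
  · have h1 := (h ∅ ∅ (Finset.empty_subset _) (Finset.empty_subset _) (fun h => h)
      (by simp) (by simp) (by simp)).2 hB0
    rw [Finset.card_empty, zero_add] at h1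
    have h2 := hB0.card_pos
    obtain ⟨b, hb⟩ : ∃ b, B.card = b + 1 := ⟨B.card - 1, by omega⟩
    have h3 : c = ρ - (b + 1) := by
      rw [hc, hb, max_eq_left (by omega)]
    have h4 : ρ = c + b + 1 := by omega
    have h5 : b + Bᶜ.card ≤ ρ * (ρ - 1) / 2 := by
      rw [Nat.le_div_iff_mul_le (by norm_num)]
      have h6 : ρ * (ρ - 1) = (c + b + 1) * (c + b) := by
        rw [h4]
        congr 1
      rw [h6]
      have h7 : b ≤ b * b := Nat.le_mul_self b
      nlinarith [Nat.zero_le (c * b)]
    omega

end Pool.Agent.LSharp
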