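import Pool.Agent.LSharp.UDefs
import Pool.Agent.LSharp.HCDefs

set_option autoImplicit false

/-! FR1. Genericity of the transcendence bases: the condition `Free` of the zero estimate. -/

namespace Pool.Agent.LSharp

open MvPolynomial Pool.Agent.LAll NumberField Filter Topology

variable {J β M : Type} [Fintype β] [DecidableEq β] {𝒰 : Ultrafilter J} {K : J → Type}
  [∀ j, Field (K j)] [∀ j, NumberField (K j)]

/-- The height of an integer. -/
private theorem ht_int_le {F : Type} [Field F] [NumberField F] (z : ℤ) :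
    ht (z : F) ≤ Real.log (max 1 |(z : ℝ)|) := by
  rcases eq_or_ne z 0 with rfl | hz
  · have h0 : ht ((0 : ℤ) : F) = 0 := by
      rw [Int.cast_zero]
      unfold ht
      rw [Height.logHeight₁_zero, zero_div]
    rw [h0]
    exact Real.log_nonneg (le_max_left _ _)
  · have hz' : (z : F) ≠ 0 := Int.cast_ne_zero.2 hz
    have h1 : (1 : ℝ) ≤ |(z : ℝ)| := by
      have : (1 : ℤ) ≤ |z| := Int.one_le_abs hz
      exact_mod_cast this
    rw [max_eq_right h1, ← sum_max_lam (S := ∅) hz' (intOff_int z)]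
    have h2 : ∀ v : Plc F ∅, max (lam v (z : F)) 0 ≤ LAll.wt v * Real.log |(z : ℝ)| := by
      intro v
      exact max_le (lam_int_le v z hz) (mul_nonneg (wt_nonneg v) (Real.log_nonneg h1))
    refine (Finset.sum_le_sum fun v _ => h2 v).trans (le_of_eq ?_)
    rw [← Finset.sum_mul, sum_wt, one_mul]

/-- The exponent of a bounded function. -/
private noncomputable def ex {B : Type} [Finite B] {N : ℕ} (e : B → Fin (N + 1)) : B →₀ ℕ :=
  Finsupp.equivFunOnFinite.symm fun b => (e b : ℕ)

private theorem ex_apply {B : Type} [Finite B] {N : ℕ} (e : B → Fin (N + 1)) (b : B) :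
    ex e b = (e b : ℕ) := rfl

private theorem ex_inj {B : Type} [Finite B] {N : ℕ} :
    Function.Injective (ex : (B → Fin (N + 1)) → (B →₀ ℕ)) := by
  intro e e' h
  funext b
  have := DFunLike.congr_fun h b
  exact Fin.ext this

private theorem ex_surj {B : Type} [Finite B] {N : ℕ} (m : B →₀ ℕ) (hm : ∀ b, m b ≤ N) :
    ∃ e : B → Fin (N + 1), ex e = m :=
  ⟨fun b => ⟨m b, Nat.lt_succ_of_le (hm b)⟩, Finsupp.ext fun _ => rfl⟩

private theorem aeval_ex {B : Type} [Fintype B] [DecidableEq B] {N : ℕ} {R S : Type} [CommRing R] [CommRing S]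
    [Algebra R S] (q : MvPolynomial B R) (hq : ∀ b, q.degreeOf b ≤ N) (x : B → S) :
    aeval x q = ∑ e : B → Fin (N + 1), algebraMap R S (q.coeff (ex e)) *
      ∏ b, x b ^ (e b : ℕ) := by
  classical
  rw [aeval_def, eval₂_eq']
  have h1 : q.support ⊆ Finset.univ.map ⟨ex, ex_inj (B := B) (N := N)⟩ := by
    intro m hm
    obtain ⟨e, he⟩ := ex_surj (N := N) m fun b => (monomial_le_degreeOf b hm).trans (hq b)
    exact Finset.mem_map.2 ⟨e, Finset.mem_univ _, he⟩
  rw [Finset.sum_subset h1 (fun m _ hm => by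
    rw [notMem_support_iff.1 hm, map_zero, zero_mul]), Finset.sum_map]
  rfl

/-- **Free.** The `t b` of each class `a` are algebraically independent over `kf 𝒰 K (rr a)`, the degrees
`n j a` of different classes have a ratio tending to `0` (one of the two), and `M₁ j ≤ C n j a max 1 (rr a j)`.
Then `t.rep j` is `Free` with `n j (cb b)`, `M₁ j` and any `A`, for most `j`.

Proof. Otherwise (ultrafilter) for most `j` there are `P_j ≠ 0`, `l_j ∈ vars P_j` with the largest `n`,
`Bd (fun b => n j (cb b)) (M₁ j) (A / n j (cb l_j)) P_j`, `aeval (t.rep j) P_j = 0`. `β` is finite: `l_j = l` for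
most `j`. For `k ∈ vars P_j`: `1 ≤ degreeOf k ≤ A n_k / n_l` (so `n_l ≤ A n_k`, in particular `n_l, n_k ≥ 1`) and
`n_k ≤ n_l`; if `cb k ≠ cb l` this is impossible for most `j` by `hn`. So for most `j`
`vars P_j ⊆ {b | cb b = cb l}` and all degrees are `≤ A` (`n_k = n_l` as numbers `n j (cb l)`), and
`|coeff| ≤ L1 P_j ≤ exp (A M₁ / n_l) ≤ exp (A C max 1 (rr (cb l) j))`. Consider the finite set `E` of the exponents `m`
with support in `{b | cb b = cb l}` and entries `≤ A`; for `m ∈ E` the family `j ↦ coeff m P_j` is in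
`kf 𝒰 K (rr (cb l))` (height of an integer `z ≠ 0`: `≤ log |z|`; `logHeight₁` of integers in `K j`, or
`sum_max_lam` with `lam_int_le`). Let `Q = ∑_{m ∈ E} monomial m (class)` in `MvPolynomial {b // cb b = cb l} (kf ..)`.
`Q ≠ 0`: `P_j ≠ 0` has a monomial in `E` for most `j`, finitely many `m`: the same `m` for most `j`. Its value at
the `t b` is the class of `aeval (t.rep j) P_j = 0`: contradiction to `hind`. -/
theorem free_of_indep (cb : β → M) (rr : M → J → ℝ) (t : β → Ult 𝒰 K)
    (hind : ∀ a, AlgebraicIndependent (kf 𝒰 K (rr a)) (fun b : {b // cb b = a} => t b))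
    (n : J → M → ℕ) (M₁ : J → ℝ)
    (hn : ∀ a a', a ≠ a' → Tendsto (fun j => (n j a : ℝ) / n j a') (𝒰 : Filter J) (𝓝 0) ∨
      Tendsto (fun j => (n j a' : ℝ) / n j a) (𝒰 : Filter J) (𝓝 0))
    (hM : ∀ a, ∃ C : ℝ, ∀ᶠ j in (𝒰 : Filter J), M₁ j ≤ C * (n j a * max 1 (rr a j))) (A : ℝ) :
    ∀ᶠ j in (𝒰 : Filter J), Free (fun b => n j (cb b)) (M₁ j) (fun b => (t b).rep j) A := by
  classical
  by_contra hcon
  rw [← Ultrafilter.eventually_not] at hcon
  -- the bad polynomials
  have h1 : ∀ᶠ j in (𝒰 : Filter J), ∃ l : β, ∃ P : MvPolynomial β ℤ, P ≠ 0 ∧ l ∈ P.vars ∧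
      (∀ k ∈ P.vars, n j (cb k) ≤ n j (cb l)) ∧
      Bd (fun b => n j (cb b)) (M₁ j) (A / n j (cb l)) P ∧
      aeval (fun b => (t b).rep j) P = 0 := by
    filter_upwards [hcon] with j hj
    unfold Free at hj
    push Not at hj
    obtain ⟨P, h1, l, h2, h3, h4, h5⟩ := hj
    exact ⟨l, P, h1, h2, h3, h4, h5⟩
  obtain ⟨l, h2⟩ := Ultrafilter.eventually_exists_iff.1 h1
  obtain ⟨P, hP⟩ := h2.choice
  set a : M := cb l with ha
  -- a variable of degree at least one
  have hdeg1 : ∀ᶠ j in (𝒰 : Filter J), 1 ≤ A ∧ n j a ≠ 0 ∧ ∀ b ∈ (P j).vars,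
      1 ≤ A * ((n j (cb b) : ℝ) / n j a) ∧ n j (cb b) ≤ n j a := by
    filter_upwards [hP] with j hj
    obtain ⟨_, h2, h3, h4, _⟩ := hj
    have h6 : ∀ b ∈ (P j).vars, (1 : ℝ) ≤ A / n j a * n j (cb b) := by
      intro b hb
      refine le_trans ?_ (h4.1 b)
      have h7 : (P j).degreeOf b ≠ 0 := mem_vars_iff_degreeOf_ne_zero.1 hb
      exact_mod_cast Nat.one_le_iff_ne_zero.2 h7
    have h8 := h6 l h2
    have h9 : n j a ≠ 0 := by
      intro h0
      rw [← ha, h0] at h8
      simp at h8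
      linarith
    have h10 : (0 : ℝ) < n j a := by exact_mod_cast Nat.pos_of_ne_zero h9
    refine ⟨?_, h9, fun b hb => ⟨?_, h3 b hb⟩⟩
    · rw [← ha] at h8
      rwa [div_mul_cancel₀ _ h10.ne'] at h8
    · have h11 := h6 b hb
      rw [← mul_div_assoc]
      rwa [div_mul_eq_mul_div] at h11
  -- all variables are in the class of `l`
  have hvar : ∀ᶠ j in (𝒰 : Filter J), ∀ b : β, cb b ≠ a → b ∉ (P j).vars := by
    rw [Filter.eventually_all]
    intro b
    by_cases hb : cb b = a
    · exact Filter.Eventually.of_forall fun j h => absurd hb h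
    · rcases hn a (cb b) (Ne.symm hb) with h3 | h3
      · have h4 : ∀ᶠ j in (𝒰 : Filter J), (n j a : ℝ) / n j (cb b) < 1 :=
          h3.eventually (gt_mem_nhds one_pos)
        filter_upwards [h4, hdeg1] with j h5 h6 _ h7
        obtain ⟨_, h8, h9⟩ := h6
        obtain ⟨h10, h11⟩ := h9 b h7
        have h12 : n j (cb b) ≠ 0 := by
          intro h0
          rw [h0] at h10
          simp at h10
          linarith
        have h13 : (0 : ℝ) < n j (cb b) := by exact_mod_cast Nat.pos_of_ne_zero h12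
        rw [div_lt_one h13] at h5
        have h14 : n j a < n j (cb b) := by exact_mod_cast h5
        omega
      · have h4 : Tendsto (fun j => A * ((n j (cb b) : ℝ) / n j a)) (𝒰 : Filter J) (𝓝 (A * 0)) :=
          h3.const_mul _
        rw [mul_zero] at h4
        have h5 : ∀ᶠ j in (𝒰 : Filter J), A * ((n j (cb b) : ℝ) / n j a) < 1 :=
          h4.eventually (gt_mem_nhds one_pos)
        filter_upwards [h5, hdeg1] with j h5 h6 _ h7
        exact absurd (h6.2.2 b h7).1 (not_le.2 h5)
  obtain ⟨C, hC⟩ := hM a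
  -- the polynomials in the variables of the class
  let B : Type := {b // cb b = a}
  have : Fintype B := Fintype.ofFinite B
  set N : ℕ := ⌊A⌋₊ with hN
  have hq : ∀ᶠ j in (𝒰 : Filter J), ∃ q : MvPolynomial B ℤ, q ≠ 0 ∧ (∀ b, q.degreeOf b ≤ N) ∧
      (∀ m, |((q.coeff m : ℤ) : ℝ)| ≤ Real.exp (|A * C| * max 1 (rr a j))) ∧
      aeval (fun b : B => (t b).rep j) q = 0 := by
    filter_upwards [hP, hdeg1, hvar, hC] with j hj hd hv hCj
    obtain ⟨h1, h2, h3, h4, h5⟩ := hj
    obtain ⟨hA1, hn0, _⟩ := hd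
    have hnp : (0 : ℝ) < n j a := by exact_mod_cast Nat.pos_of_ne_zero hn0
    obtain ⟨q, hq⟩ := exists_rename_eq_of_vars_subset_range (P j) (Subtype.val : B → β)
      Subtype.val_injective (by
        intro b hb
        by_contra h6
        refine hv b (fun h7 => h6 ⟨⟨b, h7⟩, rfl⟩) hb)
    refine ⟨q, ?_, ?_, ?_, ?_⟩
    · rintro rfl
      rw [map_zero] at hq
      exact h1 hq.symm
    · intro b
      have h6 := degreeOf_rename_of_injective (p := q) (f := (Subtype.val : B → β))
        Subtype.val_injective b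
      rw [hq] at h6
      rw [← h6]
      have h7 : ((P j).degreeOf b.1 : ℝ) ≤ A / n j (cb l) * n j (cb b.1) := h4.1 b.1
      rw [b.2, ← ha, div_mul_cancel₀ _ hnp.ne'] at h7
      exact Nat.le_floor h7
    · intro m
      have h6 := coeff_rename_mapDomain (Subtype.val : B → β) Subtype.val_injective q m
      rw [hq] at h6
      rw [← h6]
      have h7 : |(((P j).coeff (m.mapDomain Subtype.val) : ℤ) : ℝ)| ≤ L1 (P j) := by
        unfold L1
        by_cases h8 : m.mapDomain Subtype.val ∈ (P j).support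
        · exact Finset.single_le_sum
            (f := fun i => |(((P j).coeff i : ℤ) : ℝ)|) (fun i _ => abs_nonneg _) h8
        · rw [notMem_support_iff.1 h8, Int.cast_zero, abs_zero]
          exact Finset.sum_nonneg fun i _ => abs_nonneg _
      refine h7.trans (h4.2.trans (Real.exp_le_exp.2 ?_))
      have h8 : A / n j a * M₁ j ≤ A / n j a * (C * (n j a * max 1 (rr a j))) :=
        mul_le_mul_of_nonneg_left hCj (div_nonneg (by linarith) hnp.le)
      refine h8.trans ?_
      have h9 : A / n j a * (C * (n j a * max 1 (rr a j))) = A * C * max 1 (rr a j) := by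
        field_simp
      rw [h9]
      exact mul_le_mul_of_nonneg_right (le_abs_self _) (zero_le_one.trans (le_max_left _ _))
    · rw [← hq, aeval_rename] at h5
      exact h5
  obtain ⟨q, hq⟩ := hq.choice
  -- the coefficients
  have hcmem : ∀ m : B →₀ ℕ, Ult.mk 𝒰 K (fun j => (((q j).coeff m : ℤ) : K j)) ∈
      kf 𝒰 K (rr a) := by
    intro m
    refine ⟨fun j => (((q j).coeff m : ℤ) : ℚ), ?_, |A * C|, ?_⟩
    · congr 1
      funext j
      exact Rat.cast_intCast _
    · filter_upwards [hq] with j hj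
      have h3 := hj.2.2.1 m
      rw [Rat.cast_intCast]
      refine (ht_int_le _).trans ?_
      have h4 : (0 : ℝ) ≤ |A * C| * max 1 (rr a j) :=
        mul_nonneg (abs_nonneg _) (zero_le_one.trans (le_max_left _ _))
      rw [Real.log_le_iff_le_exp (lt_of_lt_of_le one_pos (le_max_left _ _))]
      exact max_le (Real.one_le_exp h4) h3
  let c : (B →₀ ℕ) → kf 𝒰 K (rr a) := fun m => ⟨_, hcmem m⟩
  let Q : MvPolynomial B (kf 𝒰 K (rr a)) :=
    ∑ e : B → Fin (N + 1), monomial (ex e) (c (ex e))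
  have hQcoeff : ∀ e : B → Fin (N + 1), Q.coeff (ex e) = c (ex e) := by
    intro e
    simp only [Q, coeff_sum, coeff_monomial]
    rw [Finset.sum_eq_single e]
    · rw [if_pos rfl]
    · intro e' _ he'
      rw [if_neg fun h => he' (ex_inj h)]
    · intro h
      exact absurd (Finset.mem_univ _) h
  have hQ0 : Q ≠ 0 := by
    have h3 : ∀ᶠ j in (𝒰 : Filter J), ∃ e : B → Fin (N + 1), (q j).coeff (ex e) ≠ 0 := by
      filter_upwards [hq] with j hj
      obtain ⟨h4, h5, _⟩ := hj
      obtain ⟨m, hm⟩ := ne_zero_iff.1 h4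
      obtain ⟨e, he⟩ := ex_surj (N := N) m fun b =>
        (monomial_le_degreeOf b (mem_support_iff.2 hm)).trans (h5 b)
      exact ⟨e, by rwa [he]⟩
    obtain ⟨e, he⟩ := Ultrafilter.eventually_exists_iff.1 h3
    intro hQ
    have h4 : c (ex e) = 0 := by rw [← hQcoeff e, hQ, coeff_zero]
    have h5 : Ult.mk 𝒰 K (fun j => (((q j).coeff (ex e) : ℤ) : K j)) = 0 :=
      congrArg Subtype.val h4
    obtain ⟨j, hj1, hj2⟩ := ((Ult.mk_eq_zero.1 h5).and he).exists
    exact hj2 (Int.cast_eq_zero.1 hj1)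
  refine hQ0 ((hind a).eq_zero_of_aeval_eq_zero Q ?_)
  have h3 : aeval (fun b : {b // cb b = a} => t b) Q =
      Ult.mk 𝒰 K (∑ e : B → Fin (N + 1), (fun j => (((q j).coeff (ex e) : ℤ) : K j)) *
        ∏ b : B, (t b).rep ^ (e b : ℕ)) := by
    simp only [Q, map_sum, aeval_monomial, map_mul, map_prod, map_pow, Ult.mk_rep]
    refine Finset.sum_congr rfl fun e _ => ?_
    rw [Finsupp.prod_fintype _ _ (fun b => pow_zero _)]
    rfl
  rw [h3, Ult.mk_eq_zero]
  filter_upwards [hq] with j hj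
  obtain ⟨_, h5, _, h6⟩ := hj
  rw [aeval_ex (N := N) (q j) h5] at h6
  rw [← h6]
  simp only [Finset.sum_apply, Pi.mul_apply, Finset.prod_apply, Pi.pow_apply]
  rfl

end Pool.Agent.LSharp
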