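import Pool.Agent.LSharp.Torus

set_option autoImplicit false

/-! HC5. The norm of a factor (Gelfond's inequality in several variables). -/

namespace Pool.Agent.LSharp

open MvPolynomial Pool.Agent.LAll

private theorem gf_mahler_pow (p : Polynomial ℂ) (e : ℕ) :
    (p ^ e).mahlerMeasure = p.mahlerMeasure ^ e := by
  induction e with
  | zero =>
    rw [pow_zero, pow_zero]
    exact Polynomial.mahlerMeasure_one
  | succ e ih => rw [pow_succ, pow_succ, Polynomial.mahlerMeasure_mul, ih]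

/-- One step: `U = P ^ e B` in `ℤ[X_0, ..., X_d]`, `p_i` the coefficient of `X_0^i` in `P`, `b` the
leading coefficient of `B` with respect to `X_0`. Then for `θ` on the unit torus in the variables
`X_1, ..., X_d`: `|p_i(θ)|^e |b(θ)| ≤ 2^(e f) L1 U`, `f` the degree of `P` in `X_0`.

Proof. If `p_i(θ) = 0` or `b(θ) = 0` this is clear (`e > 0`). Otherwise let `p, β, u` be the complex
polynomials in `X_0` obtained by specialising at `θ` (`Polynomial.map` of `finSuccEquiv` by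
`aeval θ`), `u = p ^ e β`, all nonzero. `‖p.coeff i‖ ≤ choose * M(p) ≤ 2^f M(p)`
(`Polynomial.norm_coeff_le_choose_mul_mahlerMeasure`), `|b(θ)| = ‖leadingCoeff β‖ ≤ M(β)`
(`Polynomial.leadingCoeff_le_mahlerMeasure`), `M(u) = M(p)^e M(β)` (`Polynomial.mahlerMeasure_mul`),
`M(u) ≤ ∑ ‖coeff‖ ≤ L1 U` (`Polynomial.mahlerMeasure_le_sum_norm_coeff`, `norm_aeval_le_L1`,
`L1_finSucc`). -/
theorem gelfond_step (d : ℕ) (P B U : MvPolynomial (Fin (d + 1)) ℤ) (e : ℕ) (he : 0 < e)
    (hU : U ≠ 0) (hPB : U = P ^ e * B) (i : ℕ) (θ : Fin d → ℂ) (hθ : ∀ k, ‖θ k‖ = 1) :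
    ‖aeval θ ((finSuccEquiv ℤ d P).coeff i ^ e * (finSuccEquiv ℤ d B).leadingCoeff)‖ ≤
      2 ^ (e * P.degreeOf 0) * L1 U := by
  have hR : 0 ≤ 2 ^ (e * P.degreeOf 0) * L1 U := mul_nonneg (by positivity) (L1_nonneg U)
  set φ : MvPolynomial (Fin d) ℤ →+* ℂ :=
    ((aeval θ : MvPolynomial (Fin d) ℤ →ₐ[ℤ] ℂ) : MvPolynomial (Fin d) ℤ →+* ℂ) with hφ
  have hφa : ∀ F, (aeval θ : MvPolynomial (Fin d) ℤ →ₐ[ℤ] ℂ) F = φ F := fun F => rfl
  rw [hφa, map_mul, map_pow]
  by_cases hb : φ (finSuccEquiv ℤ d B).leadingCoeff = 0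
  · rw [hb, mul_zero, norm_zero]
    exact hR
  by_cases hp : φ ((finSuccEquiv ℤ d P).coeff i) = 0
  · rw [hp, zero_pow he.ne', zero_mul, norm_zero]
    exact hR
  set p : Polynomial ℂ := (finSuccEquiv ℤ d P).map φ with hpd
  set β : Polynomial ℂ := (finSuccEquiv ℤ d B).map φ with hβd
  set u : Polynomial ℂ := (finSuccEquiv ℤ d U).map φ with hud
  have hu : u = p ^ e * β := by
    rw [hud, hPB, map_mul, map_pow, Polynomial.map_mul, Polynomial.map_pow]
  have h1 : ‖φ ((finSuccEquiv ℤ d P).coeff i)‖ ≤ 2 ^ P.degreeOf 0 * p.mahlerMeasure := by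
    have e1 : φ ((finSuccEquiv ℤ d P).coeff i) = p.coeff i := by
      rw [hpd, Polynomial.coeff_map]
    rw [e1]
    refine (Polynomial.norm_coeff_le_choose_mul_mahlerMeasure i p).trans
      (mul_le_mul_of_nonneg_right ?_ (Polynomial.mahlerMeasure_nonneg p))
    have e2 : p.natDegree ≤ P.degreeOf 0 := by
      rw [← natDegree_finSuccEquiv]
      exact Polynomial.natDegree_map_le
    have e3 : p.natDegree.choose i ≤ 2 ^ P.degreeOf 0 :=
      (Nat.choose_le_two_pow _ _).trans (Nat.pow_le_pow_right (by norm_num) e2)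
    exact_mod_cast e3
  have h2 : ‖φ (finSuccEquiv ℤ d B).leadingCoeff‖ ≤ β.mahlerMeasure := by
    rw [← Polynomial.leadingCoeff_map_of_leadingCoeff_ne_zero φ hb]
    exact Polynomial.leadingCoeff_le_mahlerMeasure β
  have h3 : u.mahlerMeasure ≤ L1 U := by
    refine (Polynomial.mahlerMeasure_le_sum_norm_coeff u).trans ?_
    have e4 : u.natDegree < U.degreeOf 0 + 1 := by
      rw [← natDegree_finSuccEquiv]
      exact Nat.lt_succ_of_le Polynomial.natDegree_map_le
    rw [Polynomial.sum_over_range' u (fun n => norm_zero) _ e4, L1_finSucc U _ le_rfl]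
    refine Finset.sum_le_sum fun j _ => ?_
    rw [hud, Polynomial.coeff_map]
    exact norm_aeval_le_L1 d _ θ hθ
  rw [norm_mul, norm_pow]
  calc ‖φ ((finSuccEquiv ℤ d P).coeff i)‖ ^ e * ‖φ (finSuccEquiv ℤ d B).leadingCoeff‖
      ≤ (2 ^ P.degreeOf 0 * p.mahlerMeasure) ^ e * β.mahlerMeasure :=
        mul_le_mul (pow_le_pow_left₀ (norm_nonneg _) h1 e) h2 (norm_nonneg _)
          (pow_nonneg (mul_nonneg (by positivity) (Polynomial.mahlerMeasure_nonneg p)) _)
    _ = 2 ^ (e * P.degreeOf 0) * u.mahlerMeasure := by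
        rw [hu, Polynomial.mahlerMeasure_mul, gf_mahler_pow, mul_pow, ← pow_mul, mul_assoc,
          mul_comm (P.degreeOf 0) e]
    _ ≤ 2 ^ (e * P.degreeOf 0) * L1 U := mul_le_mul_of_nonneg_left h3 (by positivity)

private theorem gf_L1_C (a : ℤ) : L1 (C a : MvPolynomial (Fin 0) ℤ) = |(a : ℝ)| := by
  classical
  rw [L1_eq_sum (C a) {0} (by
    intro i hi
    rw [Finset.mem_singleton]
    exact Subsingleton.elim _ _), Finset.sum_singleton, coeff_C, if_pos rfl]

/-- **The norm of a factor.** `U = P ^ e B ≠ 0`: `L1 P ^ e ≤ exp (c ∑ deg_k U) L1 U`.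

Proof. Induction on `d`, `c = 3 d` will do. `d = 0`: constants, `|p|^e ≤ |p|^e |b|` as `|b| ≥ 1`.
`d + 1`: for `i` with `p_i ≠ 0` let `U_i = p_i ^ e b ≠ 0`; by `gelfond_step` and `L1_le_of_torus`:
`L1 U_i ≤ 2^(∑_{k ≥ 1} deg_k U_i) 2^(e f) L1 U`, `deg_k U_i ≤ e deg_(k+1) P + deg_(k+1) B = deg_(k+1) U`
(`degreeOf_coeff_finSuccEquiv`, `MvPolynomial.degreeOf_mul_eq` in a domain), `e f ≤ deg_0 U`. By the
induction hypothesis `L1 p_i ^ e ≤ exp (c_d ∑ deg) L1 U_i`. Finally `L1 P = ∑_(i ≤ f) L1 p_i ≤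
(f + 1) max ≤ 2^f max`, so `L1 P ^ e ≤ 2^(e f) max L1 p_i ^ e`. -/
theorem gelfond (d : ℕ) : ∃ c : ℝ, 0 ≤ c ∧ ∀ (P B U : MvPolynomial (Fin d) ℤ) (e : ℕ), 0 < e →
    U ≠ 0 → U = P ^ e * B →
    L1 P ^ e ≤ Real.exp (c * ∑ k, (U.degreeOf k : ℝ)) * L1 U := by
  induction d with
  | zero =>
    refine ⟨0, le_rfl, fun P B U e he hU hPB => ?_⟩
    rw [zero_mul, Real.exp_zero, one_mul]
    obtain ⟨p, rfl⟩ : ∃ p, P = C p := ⟨_, eq_C_of_isEmpty P⟩
    obtain ⟨b, rfl⟩ : ∃ b, B = C b := ⟨_, eq_C_of_isEmpty B⟩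
    have hb : b ≠ 0 := by
      rintro rfl
      rw [map_zero, mul_zero] at hPB
      exact hU hPB
    have h1 : (1 : ℝ) ≤ |(b : ℝ)| := by
      rw [← Int.cast_abs]
      exact_mod_cast Int.one_le_abs hb
    rw [hPB, ← map_pow, ← map_mul, gf_L1_C, gf_L1_C]
    push_cast
    rw [abs_mul, abs_pow]
    exact le_mul_of_one_le_right (by positivity) h1
  | succ d ih =>
    obtain ⟨c, hc, ih⟩ := ih
    refine ⟨c + 2, by linarith, fun P B U e he hU hPB => ?_⟩
    have hP : P ≠ 0 := by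
      rintro rfl
      rw [zero_pow he.ne', zero_mul] at hPB
      exact hU hPB
    have hB : B ≠ 0 := by
      rintro rfl
      rw [mul_zero] at hPB
      exact hU hPB
    have hdeg : ∀ k, U.degreeOf k = e * P.degreeOf k + B.degreeOf k := by
      intro k
      rw [hPB, degreeOf_mul_eq (pow_ne_zero _ hP) hB, degreeOf_pow_eq _ _ _ hP]
    set b := (finSuccEquiv ℤ d B).leadingCoeff with hbd
    have hb : b ≠ 0 := by
      rw [hbd, Polynomial.leadingCoeff_ne_zero]
      exact (map_ne_zero_iff _ (finSuccEquiv ℤ d).injective).2 hB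
    -- the largest coefficient
    obtain ⟨i₀, -, hi₀⟩ := Finset.exists_max_image (Finset.range (P.degreeOf 0 + 1))
      (fun i => L1 ((finSuccEquiv ℤ d P).coeff i)) ⟨0, Finset.mem_range.2 (Nat.succ_pos _)⟩
    set q := (finSuccEquiv ℤ d P).coeff i₀ with hq
    have hPq : L1 P ≤ 2 ^ P.degreeOf 0 * L1 q := by
      rw [L1_finSucc P _ le_rfl]
      calc ∑ i ∈ Finset.range (P.degreeOf 0 + 1), L1 ((finSuccEquiv ℤ d P).coeff i)
          ≤ ∑ _i ∈ Finset.range (P.degreeOf 0 + 1), L1 q :=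
            Finset.sum_le_sum fun i hi => hi₀ i hi
        _ = ((P.degreeOf 0 + 1 : ℕ) : ℝ) * L1 q := by
            rw [Finset.sum_const, Finset.card_range, nsmul_eq_mul]
        _ ≤ 2 ^ P.degreeOf 0 * L1 q := by
            refine mul_le_mul_of_nonneg_right ?_ (L1_nonneg q)
            have : P.degreeOf 0 + 1 ≤ 2 ^ P.degreeOf 0 := Nat.lt_two_pow_self
            exact_mod_cast this
    have hq0 : q ≠ 0 := by
      intro h0
      rw [h0, L1_zero, mul_zero] at hPq
      have := one_le_L1 P hP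
      linarith
    have hU0 : q ^ e * b ≠ 0 := mul_ne_zero (pow_ne_zero _ hq0) hb
    have h1 := L1_le_of_torus d (q ^ e * b) (2 ^ (e * P.degreeOf 0) * L1 U)
      fun θ hθ => gelfond_step d P B U e he hU hPB i₀ θ hθ
    have h2 := ih q b (q ^ e * b) e he hU0 rfl
    have hdk : ∀ k : Fin d, (q ^ e * b).degreeOf k ≤ U.degreeOf k.succ := by
      intro k
      rw [degreeOf_mul_eq (pow_ne_zero _ hq0) hb, degreeOf_pow_eq _ _ _ hq0, hdeg]
      refine Nat.add_le_add (Nat.mul_le_mul_left _ ?_) ?_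
      · exact degreeOf_coeff_finSuccEquiv P k i₀
      · exact degreeOf_coeff_finSuccEquiv B k _
    set D' : ℕ := ∑ k : Fin d, U.degreeOf k.succ with hD'
    have hsum : ∑ k, (q ^ e * b).degreeOf k ≤ D' := Finset.sum_le_sum fun k _ => hdk k
    have hsumR : (∑ k, ((q ^ e * b).degreeOf k : ℝ)) ≤ D' := by exact_mod_cast hsum
    have htot : (∑ k, (U.degreeOf k : ℝ)) = U.degreeOf 0 + D' := by
      rw [Fin.sum_univ_succ, hD']
      push_cast
      rfl
    have hef : e * P.degreeOf 0 ≤ U.degreeOf 0 := by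
      rw [hdeg]
      exact Nat.le_add_right _ _
    have hL := L1_nonneg U
    have htwo : ∀ m : ℕ, (2 : ℝ) ^ m ≤ Real.exp m := by
      intro m
      have h3 : (2 : ℝ) ≤ Real.exp 1 := by
        have := Real.add_one_le_exp (1 : ℝ)
        linarith
      calc (2 : ℝ) ^ m ≤ Real.exp 1 ^ m := pow_le_pow_left₀ (by norm_num) h3 m
        _ = Real.exp m := by rw [← Real.exp_nat_mul, mul_one]
    calc L1 P ^ e ≤ (2 ^ P.degreeOf 0 * L1 q) ^ e := pow_le_pow_left₀ (L1_nonneg P) hPq e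
      _ = 2 ^ (e * P.degreeOf 0) * L1 q ^ e := by
          rw [mul_pow, ← pow_mul, mul_comm (P.degreeOf 0) e]
      _ ≤ 2 ^ (e * P.degreeOf 0) * (Real.exp (c * D') * (2 ^ D' *
            (2 ^ (e * P.degreeOf 0) * L1 U))) := by
          refine mul_le_mul_of_nonneg_left (h2.trans ?_) (by positivity)
          refine mul_le_mul (Real.exp_le_exp.2 (mul_le_mul_of_nonneg_left hsumR hc))
            (h1.trans ?_) (L1_nonneg _) (Real.exp_pos _).le
          refine mul_le_mul_of_nonneg_right ?_ (mul_nonneg (by positivity) hL)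
          exact pow_le_pow_right₀ (by norm_num) hsum
      _ ≤ Real.exp (U.degreeOf 0) * (Real.exp (c * D') * (Real.exp D' *
            (Real.exp (U.degreeOf 0) * L1 U))) := by
          have h4 : (2 : ℝ) ^ (e * P.degreeOf 0) ≤ Real.exp (U.degreeOf 0) :=
            (pow_le_pow_right₀ (by norm_num) hef).trans (htwo _)
          have h5 := htwo D'
          refine mul_le_mul h4 (mul_le_mul_of_nonneg_left (mul_le_mul h5
            (mul_le_mul_of_nonneg_right h4 hL) (mul_nonneg (by positivity) hL)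
            (Real.exp_pos _).le) (Real.exp_pos _).le) (by positivity) (Real.exp_pos _).le
      _ = Real.exp (U.degreeOf 0 + c * D' + D' + U.degreeOf 0) * L1 U := by
          rw [Real.exp_add, Real.exp_add, Real.exp_add]
          ring
      _ ≤ Real.exp ((c + 2) * ∑ k, (U.degreeOf k : ℝ)) * L1 U := by
          refine mul_le_mul_of_nonneg_right (Real.exp_le_exp.2 ?_) hL
          rw [htot]
          have h6 : (0 : ℝ) ≤ U.degreeOf 0 := Nat.cast_nonneg _
          have h7 : (0 : ℝ) ≤ D' := Nat.cast_nonneg _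
          nlinarith [mul_nonneg hc h6]

/-- **Bounds for a factor.** `deg_k P ≤ deg_k F / e`; `L1 P ^ e ≤ exp (c ∑ s n_k + s M)` and
`∑ n_k ≤ M`; take `c + 1`. -/
theorem factor_bound (d : ℕ) : ∃ c : ℝ, 1 ≤ c ∧ ∀ (n : Fin d → ℕ) (M s : ℝ),
    ∑ k, (n k : ℝ) ≤ M → 0 ≤ s → ∀ (P B F : MvPolynomial (Fin d) ℤ) (e : ℕ), 0 < e → F ≠ 0 →
    F = P ^ e * B → Bd n M s F → Bd n M (c * s / e) P := by
  obtain ⟨c, hc, h⟩ := gelfond d
  refine ⟨c + 1, by linarith, fun n M s hM hs P B F e he hF hPB hBd => ?_⟩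
  have heR : (0 : ℝ) < e := by exact_mod_cast he
  have hP : P ≠ 0 := by
    rintro rfl
    rw [zero_pow he.ne', zero_mul] at hPB
    exact hF hPB
  have hB : B ≠ 0 := by
    rintro rfl
    rw [mul_zero] at hPB
    exact hF hPB
  refine ⟨fun k => ?_, ?_⟩
  · have h1 : e * P.degreeOf k ≤ F.degreeOf k := by
      rw [hPB, degreeOf_mul_eq (pow_ne_zero _ hP) hB, degreeOf_pow_eq _ _ _ hP]
      exact Nat.le_add_right _ _
    have h2 : (e : ℝ) * P.degreeOf k ≤ s * n k := by
      refine le_trans ?_ (hBd.1 k)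
      exact_mod_cast h1
    have h3 : (0 : ℝ) ≤ n k := Nat.cast_nonneg _
    have h4 : (P.degreeOf k : ℝ) ≤ s * n k / e := by
      rw [le_div_iff₀ heR, mul_comm]
      exact h2
    refine h4.trans ?_
    have h5 : (c + 1) * s / e * n k = (c + 1) * (s * n k / e) := by ring
    rw [h5]
    exact le_mul_of_one_le_left (by positivity) (by linarith)
  · have h1 := h P B F e he hF hPB
    have h2 : (∑ k, (F.degreeOf k : ℝ)) ≤ s * M := by
      calc (∑ k, (F.degreeOf k : ℝ)) ≤ ∑ k, s * (n k : ℝ) := Finset.sum_le_sum fun k _ => hBd.1 k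
        _ = s * ∑ k, (n k : ℝ) := by rw [Finset.mul_sum]
        _ ≤ s * M := mul_le_mul_of_nonneg_left hM hs
    have h3 : L1 P ^ e ≤ Real.exp ((c + 1) * s / e * M) ^ e := by
      refine h1.trans ?_
      calc Real.exp (c * ∑ k, (F.degreeOf k : ℝ)) * L1 F
          ≤ Real.exp (c * (s * M)) * Real.exp (s * M) :=
            mul_le_mul (Real.exp_le_exp.2 (mul_le_mul_of_nonneg_left h2 hc)) hBd.2
              (L1_nonneg F) (Real.exp_pos _).le
        _ = Real.exp ((c + 1) * s / e * M) ^ e := by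
            rw [← Real.exp_add, ← Real.exp_nat_mul]
            congr 1
            field_simp
    exact (pow_le_pow_iff_left₀ (L1_nonneg P) (Real.exp_pos _).le he.ne').1 h3

end Pool.Agent.LSharp
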