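import Pool.Agent.LSharp.ResNe
import Pool.Agent.LSharp.L1

set_option autoImplicit false

/-! HC7. Degrees and norm of the resultant. -/

namespace Pool.Agent.LSharp

open MvPolynomial Pool.Agent.LAll

private theorem degreeOf_det_le {σ : Type} {m : ℕ}
    (M : Matrix (Fin m) (Fin m) (MvPolynomial σ ℤ)) (k : σ) (c : Fin m → ℕ)
    (h : ∀ i j, (M i j).degreeOf k ≤ c j) : M.det.degreeOf k ≤ ∑ j, c j := by
  classical
  rw [Matrix.det_apply]
  refine (degreeOf_sum_le _ _ _).trans (Finset.sup_le fun g _ => ?_)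
  have h1 : (∏ i, M (g i) i).degreeOf k ≤ ∑ j, c j :=
    (degreeOf_prod_le _ _ _).trans (Finset.sum_le_sum fun j _ => h _ _)
  rcases Int.units_eq_one_or (Equiv.Perm.sign g) with h2 | h2
  · rw [h2, one_smul]
    exact h1
  · rw [h2, Units.neg_smul, one_smul, degreeOf_neg]
    exact h1

/-- One column. -/
private theorem col_le (φ : ℕ → ℝ) (hφ : ∀ t, 0 ≤ φ t) (N a n : ℕ) :
    ∑ i : Fin N, (if (i : ℕ) ∈ Set.Icc a (a + n) then φ (i - a) else 0) ≤
      ∑ t ∈ Finset.range (n + 1), φ t := by
  classical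
  rw [Finset.sum_range (fun i => φ i), ← Finset.sum_range (fun i => φ i),
    ← Finset.sum_range (fun i => if i ∈ Set.Icc a (a + n) then φ (i - a) else 0),
    ← Finset.sum_filter]
  have hi : Set.InjOn (fun i : ℕ => i - a)
      ((Finset.range N).filter fun i => i ∈ Set.Icc a (a + n)) := by
    intro i hi j hj hij
    rw [Finset.mem_coe, Finset.mem_filter] at hi hj
    have h1 := hi.2.1
    have h2 := hj.2.1
    change i - a = j - a at hij
    omega
  rw [← Finset.sum_image (f := φ) hi]
  refine Finset.sum_le_sum_of_subset_of_nonneg ?_ fun t _ _ => hφ t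
  intro t ht
  obtain ⟨i, hi2, rfl⟩ := Finset.mem_image.1 ht
  have h1 := (Finset.mem_filter.1 hi2).2.2
  rw [Finset.mem_range]
  omega

/-- **Degrees**: the determinant of the Sylvester matrix; `g = deg_0 B` of its columns contain
coefficients of `A` and `f = deg_0 A` columns contain coefficients of `B` (see the definition of
`Polynomial.sylvester`; the coefficients have degree `≤ degreeOf k.succ A` resp. `B`:
`degreeOf_coeff_finSuccEquiv`). -/
theorem degreeOf_res_le {d : ℕ} (A B : MvPolynomial (Fin (d + 1)) ℤ) (k : Fin d) :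
    (res A B).degreeOf k ≤
      B.degreeOf 0 * A.degreeOf k.succ + A.degreeOf 0 * B.degreeOf k.succ := by
  classical
  have h1 := degreeOf_det_le
    (Polynomial.sylvester (finSuccEquiv ℤ d A) (finSuccEquiv ℤ d B)
      (finSuccEquiv ℤ d A).natDegree (finSuccEquiv ℤ d B).natDegree) k
    (fun j => Fin.addCases (fun _ => B.degreeOf k.succ) (fun _ => A.degreeOf k.succ) j) ?_
  · refine h1.trans (le_of_eq ?_)
    rw [Fin.sum_univ_add]
    simp only [Fin.addCases_left, Fin.addCases_right, Finset.sum_const, Finset.card_univ,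
      Fintype.card_fin, smul_eq_mul, natDegree_finSuccEquiv]
    ring
  · intro i j
    refine Fin.addCases (fun j₁ => ?_) (fun j₁ => ?_) j
    · rw [Polynomial.sylvester, Matrix.of_apply, Fin.addCases_left, Fin.addCases_left]
      split_ifs
      · exact degreeOf_coeff_finSuccEquiv _ _ _
      · simp
    · rw [Polynomial.sylvester, Matrix.of_apply, Fin.addCases_right, Fin.addCases_right]
      split_ifs
      · exact degreeOf_coeff_finSuccEquiv _ _ _
      · simp

/-- **Norm**: `L1_det`, `L1_finSucc`. -/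
theorem L1_res_le {d : ℕ} (A B : MvPolynomial (Fin (d + 1)) ℤ) :
    L1 (res A B) ≤ L1 A ^ B.degreeOf 0 * L1 B ^ A.degreeOf 0 := by
  classical
  refine (L1_det (Polynomial.sylvester (finSuccEquiv ℤ d A) (finSuccEquiv ℤ d B)
      (finSuccEquiv ℤ d A).natDegree (finSuccEquiv ℤ d B).natDegree)).trans ?_
  rw [Fin.prod_univ_add, mul_comm (L1 A ^ _)]
  have hA : ∀ P : MvPolynomial (Fin (d + 1)) ℤ, ∀ N a : ℕ,
      ∑ i : Fin N, L1 (if (i : ℕ) ∈ Set.Icc a (a + (finSuccEquiv ℤ d P).natDegree) then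
        (finSuccEquiv ℤ d P).coeff (i - a) else 0) ≤ L1 P := by
    intro P N a
    rw [L1_finSucc P (finSuccEquiv ℤ d P).natDegree (natDegree_finSuccEquiv P).ge]
    refine le_trans (le_of_eq ?_) (col_le (fun t => L1 ((finSuccEquiv ℤ d P).coeff t))
      (fun t => L1_nonneg _) N a (finSuccEquiv ℤ d P).natDegree)
    refine Finset.sum_congr rfl fun i _ => ?_
    split_ifs
    · rfl
    · exact L1_zero
  refine mul_le_mul ?_ ?_ (Finset.prod_nonneg fun j _ => Finset.sum_nonneg fun i _ => L1_nonneg _)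
    (pow_nonneg (L1_nonneg _) _)
  · have h1 : ∀ j₁ : Fin (finSuccEquiv ℤ d A).natDegree,
        ∑ i, L1 (Polynomial.sylvester (finSuccEquiv ℤ d A) (finSuccEquiv ℤ d B)
          (finSuccEquiv ℤ d A).natDegree (finSuccEquiv ℤ d B).natDegree i
          (Fin.castAdd (finSuccEquiv ℤ d B).natDegree j₁)) ≤ L1 B := by
      intro j₁
      simp only [Polynomial.sylvester, Matrix.of_apply, Fin.addCases_left]
      exact hA B _ _
    refine (Finset.prod_le_prod (fun j _ => Finset.sum_nonneg fun i _ => L1_nonneg _)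
      fun j _ => h1 j).trans (le_of_eq ?_)
    rw [Finset.prod_const, Finset.card_univ, Fintype.card_fin, natDegree_finSuccEquiv]
  · have h1 : ∀ j₁ : Fin (finSuccEquiv ℤ d B).natDegree,
        ∑ i, L1 (Polynomial.sylvester (finSuccEquiv ℤ d A) (finSuccEquiv ℤ d B)
          (finSuccEquiv ℤ d A).natDegree (finSuccEquiv ℤ d B).natDegree i
          (Fin.natAdd (finSuccEquiv ℤ d A).natDegree j₁)) ≤ L1 A := by
      intro j₁
      simp only [Polynomial.sylvester, Matrix.of_apply, Fin.addCases_right]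
      exact hA A _ _
    refine (Finset.prod_le_prod (fun j _ => Finset.sum_nonneg fun i _ => L1_nonneg _)
      fun j _ => h1 j).trans (le_of_eq ?_)
    rw [Finset.prod_const, Finset.card_univ, Fintype.card_fin, natDegree_finSuccEquiv]

/-- Both together: if `A` and `B` satisfy `Bd n M s`, then `res A B` satisfies
`Bd (n ∘ succ) M (N s)`, `N = deg_0 A + deg_0 B`. -/
theorem Bd_res {d : ℕ} (n : Fin (d + 1) → ℕ) (M s : ℝ) (A B : MvPolynomial (Fin (d + 1)) ℤ)
    (hA : Bd n M s A) (hB : Bd n M s B) :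
    Bd (fun k : Fin d => n k.succ) M (((A.degreeOf 0 + B.degreeOf 0 : ℕ) : ℝ) * s) (res A B) := by
  constructor
  · intro k
    have h1 : ((res A B).degreeOf k : ℝ) ≤
        B.degreeOf 0 * A.degreeOf k.succ + A.degreeOf 0 * B.degreeOf k.succ := by
      exact_mod_cast degreeOf_res_le A B k
    have h2 := mul_le_mul_of_nonneg_left (hA.1 k.succ) (Nat.cast_nonneg (α := ℝ) (B.degreeOf 0))
    have h3 := mul_le_mul_of_nonneg_left (hB.1 k.succ) (Nat.cast_nonneg (α := ℝ) (A.degreeOf 0))
    push_cast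
    nlinarith
  · refine (L1_res_le A B).trans ?_
    have h1 : L1 A ^ B.degreeOf 0 ≤ Real.exp (s * M) ^ B.degreeOf 0 :=
      pow_le_pow_left₀ (L1_nonneg _) hA.2 _
    have h2 : L1 B ^ A.degreeOf 0 ≤ Real.exp (s * M) ^ A.degreeOf 0 :=
      pow_le_pow_left₀ (L1_nonneg _) hB.2 _
    refine (mul_le_mul h1 h2 (pow_nonneg (L1_nonneg _) _) (by positivity)).trans (le_of_eq ?_)
    rw [← Real.exp_nat_mul, ← Real.exp_nat_mul, ← Real.exp_add]
    congr 1
    push_cast
    ring

end Pool.Agent.LSharp
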