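import Pool.Agent.LSharp.HCDefs

set_option autoImplicit false

/-! HC2. Orders of vanishing. `tay t F = F (X + t)` (`LAll.tay`), `Van n t w F`: all Taylor coefficients
of weight `< w` vanish. -/

namespace Pool.Agent.LSharp

open MvPolynomial Pool.Agent.LAll

variable {σ K : Type} [Fintype σ] [Field K]

theorem wt_nonneg (n : σ → ℕ) (i : σ →₀ ℕ) : 0 ≤ wt n i :=
  Finset.sum_nonneg fun _ _ => div_nonneg (Nat.cast_nonneg _) (Nat.cast_nonneg _)

theorem wt_add (n : σ → ℕ) (i j : σ →₀ ℕ) : wt n (i + j) = wt n i + wt n j := by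
  unfold wt
  rw [← Finset.sum_add_distrib]
  refine Finset.sum_congr rfl fun k _ => ?_
  rw [Finsupp.add_apply, Nat.cast_add, add_div]

omit [Fintype σ] in
private theorem tay_inv (t : σ → K) (F : MvPolynomial σ ℤ) :
    aeval (fun k => X k - C (t k) : σ → MvPolynomial σ K) (tay t F) =
      map (Int.castRingHom K) F := by
  unfold tay
  induction F using MvPolynomial.induction_on with
  | C a => simp
  | add p q hp hq => rw [map_add, map_add, map_add, hp, hq]
  | mul_X p i hp =>
    rw [map_mul, map_mul, map_mul, hp]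
    simp

/-- `tay t` is injective in characteristic `0` (inverse substitution; the coefficients are mapped
injectively from `ℤ` to `K`). -/
theorem tay_ne_zero [CharZero K] (t : σ → K) (F : MvPolynomial σ ℤ) (hF : F ≠ 0) :
    tay t F ≠ 0 := by
  intro h
  have h1 := tay_inv t F
  rw [h, map_zero] at h1
  refine hF (map_injective (Int.castRingHom K) Int.cast_injective ?_)
  rw [← h1, map_zero]

/-- The coefficient at `0` is the value at `t`. -/
theorem coeff_zero_tay (t : σ → K) (F : MvPolynomial σ ℤ) : (tay t F).coeff 0 = aeval t F := by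
  rw [← constantCoeff_eq]
  unfold tay
  induction F using MvPolynomial.induction_on with
  | C a => simp
  | add p q hp hq => rw [map_add, map_add, map_add, hp, hq]
  | mul_X p i hp =>
    rw [map_mul, map_mul, map_mul, hp]
    simp

theorem Van.mono {n : σ → ℕ} {t : σ → K} {w w' : ℝ} {F : MvPolynomial σ ℤ} (h : Van n t w F)
    (hw : w' ≤ w) : Van n t w' F := fun i hi => hw.trans (h i hi)

/-- Positive order implies a zero. -/
theorem Van.aeval_eq_zero {n : σ → ℕ} {t : σ → K} {w : ℝ} {F : MvPolynomial σ ℤ}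
    (h : Van n t w F) (hw : 0 < w) : aeval t F = 0 := by
  rw [← coeff_zero_tay]
  by_contra h1
  have h2 := h 0 h1
  have h3 : wt n 0 = 0 := by simp [wt]
  linarith

/-- Every nonzero polynomial has a finite order `o`: `Van n t w F` if and only if `w ≤ o`. -/
theorem exists_ord [CharZero K] (n : σ → ℕ) (t : σ → K) (F : MvPolynomial σ ℤ) (hF : F ≠ 0) :
    ∃ o : ℝ, 0 ≤ o ∧ ∀ w, Van n t w F ↔ w ≤ o := by
  have hne : (tay t F).support.Nonempty := by
    rw [Finset.nonempty_iff_ne_empty]
    intro h
    exact tay_ne_zero t F hF (support_eq_empty.1 h)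
  refine ⟨(tay t F).support.inf' hne (wt n), ?_, fun w => ?_⟩
  · rw [Finset.le_inf'_iff]
    exact fun i _ => wt_nonneg n i
  · rw [Finset.le_inf'_iff]
    exact ⟨fun h i hi => h i (mem_support_iff.1 hi), fun h i hi => h i (mem_support_iff.2 hi)⟩

/-- The part of the weight `o`. -/
private noncomputable def low (n : σ → ℕ) (o : ℝ) (P : MvPolynomial σ K) : MvPolynomial σ K :=
  open Classical in ∑ i ∈ P.support.filter (fun i => wt n i = o), monomial i (P.coeff i)

open Classical in
private theorem coeff_low (n : σ → ℕ) (o : ℝ) (P : MvPolynomial σ K) (j : σ →₀ ℕ) :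
    (low n o P).coeff j = if wt n j = o then P.coeff j else 0 := by
  unfold low
  rw [coeff_sum]
  simp only [coeff_monomial]
  rw [Finset.sum_ite_eq' _ j]
  by_cases h1 : P.coeff j = 0
  · simp [h1]
  · simp [Finset.mem_filter, h1]

private theorem low_ne_zero {n : σ → ℕ} {t : σ → K} {o : ℝ} {F : MvPolynomial σ ℤ}
    (hF : tay t F ≠ 0) (h : ∀ w, Van n t w F ↔ w ≤ o) : low n o (tay t F) ≠ 0 := by
  have hne : (tay t F).support.Nonempty := by
    rw [Finset.nonempty_iff_ne_empty]
    intro h
    exact hF (support_eq_empty.1 h)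
  obtain ⟨i, hi, hmin⟩ := Finset.exists_min_image _ (wt n) hne
  have h1 : wt n i ≤ o := (h _).1 fun j hj => hmin j (mem_support_iff.2 hj)
  have h2 : o ≤ wt n i := (h o).2 le_rfl i (mem_support_iff.1 hi)
  intro h0
  have h3 := coeff_low n o (tay t F) i
  rw [h0, coeff_zero, if_pos (le_antisymm h1 h2)] at h3
  exact mem_support_iff.1 hi h3.symm

/-- **The order is additive.** (`≥` is clear. For `≤`: let `P`, `Q` be the parts of `tay t F`,
`tay t G` of the lowest weights `o₁`, `o₂` (sums of the monomials of weight exactly `o₁`, `o₂`); the part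
of weight `o₁ + o₂` of the product is `P Q ≠ 0`, as `MvPolynomial σ K` is a domain. Alternatively use a
lexicographic order refining the weight.) -/
theorem ord_mul [CharZero K] (n : σ → ℕ) (t : σ → K) (F G : MvPolynomial σ ℤ) (hF : F ≠ 0)
    (hG : G ≠ 0) (o₁ o₂ : ℝ) (h₁ : ∀ w, Van n t w F ↔ w ≤ o₁) (h₂ : ∀ w, Van n t w G ↔ w ≤ o₂) :
    ∀ w, Van n t w (F * G) ↔ w ≤ o₁ + o₂ := by
  classical
  intro w
  have e₁ : ∀ i, (tay t F).coeff i ≠ 0 → o₁ ≤ wt n i := (h₁ o₁).2 le_rfl
  have e₂ : ∀ i, (tay t G).coeff i ≠ 0 → o₂ ≤ wt n i := (h₂ o₂).2 le_rfl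
  constructor
  · intro h
    have h0 : low n o₁ (tay t F) * low n o₂ (tay t G) ≠ 0 :=
      mul_ne_zero (low_ne_zero (tay_ne_zero t F hF) h₁) (low_ne_zero (tay_ne_zero t G hG) h₂)
    obtain ⟨d, hd⟩ := ne_zero_iff.1 h0
    rw [coeff_mul] at hd
    -- the weight of `d`
    obtain ⟨p, hp, hp0⟩ := Finset.exists_ne_zero_of_sum_ne_zero hd
    have hp1 : wt n p.1 = o₁ := by
      by_contra h1
      rw [coeff_low, if_neg h1, zero_mul] at hp0
      exact hp0 rfl
    have hp2 : wt n p.2 = o₂ := by
      by_contra h1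
      rw [coeff_low n o₂, if_neg h1, mul_zero] at hp0
      exact hp0 rfl
    have hwd : wt n d = o₁ + o₂ := by
      rw [← Finset.HasAntidiagonal.mem_antidiagonal.1 hp, wt_add, hp1, hp2]
    have h3 : (tay t (F * G)).coeff d ≠ 0 := by
      rw [tay_mul, coeff_mul]
      convert hd using 1
      refine Finset.sum_congr rfl fun q hq => ?_
      have hq' := Finset.HasAntidiagonal.mem_antidiagonal.1 hq
      have hqw : wt n q.1 + wt n q.2 = o₁ + o₂ := by rw [← wt_add, hq', hwd]
      rw [coeff_low, coeff_low]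
      by_cases h4 : (tay t F).coeff q.1 = 0
      · simp [h4]
      by_cases h5 : (tay t G).coeff q.2 = 0
      · simp [h5]
      have h6 := e₁ _ h4
      have h7 := e₂ _ h5
      rw [if_pos (by linarith), if_pos (by linarith)]
    have h4 := h d h3
    rwa [hwd] at h4
  · intro hw i hi
    rw [tay_mul, coeff_mul] at hi
    obtain ⟨p, hp, hp0⟩ := Finset.exists_ne_zero_of_sum_ne_zero hi
    have h1 := e₁ _ (left_ne_zero_of_mul hp0)
    have h2 := e₂ _ (right_ne_zero_of_mul hp0)
    rw [← Finset.HasAntidiagonal.mem_antidiagonal.1 hp, wt_add]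
    linarith

omit [Fintype σ] in
private theorem tay_pderiv (t : σ → K) (F : MvPolynomial σ ℤ) (k : σ) :
    tay t (MvPolynomial.pderiv k F) = MvPolynomial.pderiv k (tay t F) := by
  classical
  have hC : ∀ a : ℤ, tay t (C a) = C (a : K) := by
    intro a
    unfold tay
    simp
  have hX : ∀ i, tay t (X i) = X i + C (t i) := by
    intro i
    unfold tay
    simp
  induction F using MvPolynomial.induction_on with
  | C a =>
    rw [hC, pderiv_C, pderiv_C]
    exact map_zero _
  | add p q hp hq => rw [tay_add, map_add, map_add, tay_add, hp, hq]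
  | mul_X p i hp =>
    rw [tay_mul, pderiv_mul, pderiv_mul, tay_add, tay_mul, tay_mul, hp, hX, map_add, pderiv_C,
      add_zero, pderiv_X, pderiv_X]
    congr 2
    by_cases h : i = k
    · subst h
      rw [Pi.single_eq_same, Pi.single_eq_same]
      exact map_one _
    · rw [Pi.single_eq_of_ne h, Pi.single_eq_of_ne h]
      exact map_zero _

/-- A derivative in the variable `k` lowers the order by at most `1 / n_k`
(`tay t (pderiv k F) = pderiv k (tay t F)`). -/
theorem Van.pderiv {n : σ → ℕ} {t : σ → K} {w : ℝ} {F : MvPolynomial σ ℤ} (h : Van n t w F)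
    (k : σ) : Van n t (w - 1 / n k) (pderiv k F) := by
  classical
  intro i hi
  rw [tay_pderiv, coeff_pderiv] at hi
  have h1 := h _ (left_ne_zero_of_mul hi)
  have h2 : wt n (Finsupp.single k 1) = 1 / n k := by
    unfold wt
    rw [Finset.sum_eq_single k]
    · simp
    · intro j _ hj
      rw [Finsupp.single_apply, if_neg (Ne.symm hj)]
      simp
    · intro hk
      exact absurd (Finset.mem_univ k) hk
  rw [wt_add, h2] at h1
  linarith

end Pool.Agent.LSharp
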