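import Pool.Agent.LSharp.ResNe
import Pool.Agent.LSharp.Ord

set_option autoImplicit false

/-! HC8. The order of vanishing of the resultant. -/

namespace Pool.Agent.LSharp

open MvPolynomial Pool.Agent.LAll

private theorem rv_sum_lower (s : Finset ℕ) :
    (s.card : ℝ) * ((s.card : ℝ) - 1) / 2 ≤ ∑ x ∈ s, (x : ℝ) := by
  induction s using Finset.induction_on_max with
  | empty => simp
  | insert a s hs ih =>
    have ha : a ∉ s := fun h => lt_irrefl _ (hs a h)
    have hcard : s.card ≤ a := by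
      have h1 : s ⊆ Finset.range a := fun x hx => Finset.mem_range.2 (hs x hx)
      simpa using Finset.card_le_card h1
    have hcard' : (s.card : ℝ) ≤ a := by exact_mod_cast hcard
    rw [Finset.card_insert_of_notMem ha, Finset.sum_insert ha]
    push_cast
    nlinarith

private theorem rv_sum_lower' {k : ℕ} (s : Finset (Fin k)) :
    (s.card : ℝ) * ((s.card : ℝ) - 1) / 2 ≤ ∑ x ∈ s, ((x : ℕ) : ℝ) := by
  have h := rv_sum_lower (s.map Fin.valEmbedding)
  rw [Finset.card_map, Finset.sum_map] at h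
  exact h

private theorem rv_range (τ : ℕ) :
    ∑ x ∈ Finset.range τ, (x : ℝ) = (τ : ℝ) * ((τ : ℝ) - 1) / 2 := by
  induction τ with
  | zero => simp
  | succ k ih =>
    rw [Finset.sum_range_succ, ih]
    push_cast
    ring

private theorem rv_key (f g : ℕ) (c : Fin g ⊕ Fin f → Fin (g + f)) (hc : Function.Injective c)
    (τ : ℕ) (hτ : τ ≤ g + f) (h : ℕ → ℝ) :
    ∑ p ∈ Finset.univ.filter (fun p : Fin g => ((c (Sum.inl p) : ℕ) < τ)), h (c (Sum.inl p)) +
      ∑ p ∈ Finset.univ.filter (fun p : Fin f => ((c (Sum.inr p) : ℕ) < τ)), h (c (Sum.inr p)) =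
      ∑ x ∈ Finset.range τ, h x := by
  have hb : Function.Bijective c :=
    (Fintype.bijective_iff_injective_and_card c).2 ⟨hc, by simp⟩
  calc _ = ∑ s : Fin g ⊕ Fin f, if (c s : ℕ) < τ then h (c s) else 0 := by
        rw [Fintype.sum_sum_type, Finset.sum_filter, Finset.sum_filter]
    _ = ∑ x : Fin (g + f), if (x : ℕ) < τ then h x else 0 :=
        hb.sum_comp (fun x : Fin (g + f) => if (x : ℕ) < τ then h x else 0)
    _ = ∑ x ∈ Finset.range (g + f), if x < τ then h x else 0 :=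
        Fin.sum_univ_eq_sum_range (fun x => if x < τ then h x else 0) _
    _ = ∑ x ∈ Finset.range τ, h x := by
        rw [← Finset.sum_filter]
        congr 1
        ext x
        simp only [Finset.mem_filter, Finset.mem_range]
        omega

private theorem rv_tau (f g : ℕ) (c : Fin g ⊕ Fin f → Fin (g + f)) (hc : Function.Injective c)
    (α : ℝ) (τ : ℕ) (hτ : τ ≤ g + f) :
    (τ : ℝ) * α - (τ : ℝ) ^ 2 / 4 ≤
      ∑ p : Fin g, max 0 (α + (p : ℕ) - ((c (Sum.inl p) : ℕ) : ℝ)) +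
        ∑ p : Fin f, max 0 (α + (p : ℕ) - ((c (Sum.inr p) : ℕ) : ℝ)) := by
  set P : Finset (Fin g) := Finset.univ.filter (fun p : Fin g => ((c (Sum.inl p) : ℕ) < τ))
  set Q : Finset (Fin f) := Finset.univ.filter (fun p : Fin f => ((c (Sum.inr p) : ℕ) < τ))
  have h1 : ∑ p ∈ P, (α + (p : ℕ) - ((c (Sum.inl p) : ℕ) : ℝ)) ≤
      ∑ p : Fin g, max 0 (α + (p : ℕ) - ((c (Sum.inl p) : ℕ) : ℝ)) :=
    (Finset.sum_le_sum fun p _ => le_max_right _ _).trans
      (Finset.sum_le_univ_sum_of_nonneg fun p => le_max_left _ _)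
  have h2 : ∑ p ∈ Q, (α + (p : ℕ) - ((c (Sum.inr p) : ℕ) : ℝ)) ≤
      ∑ p : Fin f, max 0 (α + (p : ℕ) - ((c (Sum.inr p) : ℕ) : ℝ)) :=
    (Finset.sum_le_sum fun p _ => le_max_right _ _).trans
      (Finset.sum_le_univ_sum_of_nonneg fun p => le_max_left _ _)
  have h3 : (P.card : ℝ) + Q.card = τ := by
    have := rv_key f g c hc τ hτ (fun _ => 1)
    simpa [P, Q] using this
  have h4 := rv_key f g c hc τ hτ (fun x => (x : ℝ))
  rw [rv_range] at h4
  change ∑ p ∈ P, (((c (Sum.inl p) : ℕ)) : ℝ) + ∑ p ∈ Q, (((c (Sum.inr p) : ℕ)) : ℝ) = _ at h4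
  have h5 := rv_sum_lower' P
  have h6 := rv_sum_lower' Q
  rw [Finset.sum_sub_distrib, Finset.sum_add_distrib, Finset.sum_const, nsmul_eq_mul] at h1 h2
  have h7 : (P.card : ℝ) * Q.card ≤ (τ : ℝ) ^ 2 / 4 := by
    rw [← h3]
    nlinarith [sq_nonneg ((P.card : ℝ) - Q.card)]
  have h8 : (τ : ℝ) * α = P.card * α + Q.card * α := by rw [← h3]; ring
  have h9 : (τ : ℝ) * ((τ : ℝ) - 1) / 2 = (P.card : ℝ) * ((P.card : ℝ) - 1) / 2 +
      (Q.card : ℝ) * ((Q.card : ℝ) - 1) / 2 + P.card * Q.card := by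
    rw [← h3]
    ring
  linarith

/-- **The combinatorial inequality.** `N` places `0, ..., N - 1` are distributed injectively (so
bijectively) by `c : Fin g ⊕ Fin f → Fin N`, `N = g + f`. Then
`∑_p (α + p - c (inl p))⁺ + ∑_p (α + p - c (inr p))⁺ ≥ min (N α / 2) (3 α² / 4)` for `α ≥ 1`.

Proof. For every integer `0 ≤ τ ≤ N` there are exactly `τ` rows with `c < τ`, `τ₁` of the first and
`τ₂` of the second kind. The sum is at least the sum of `α + p - c` over these rows, and the `p` are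
distinct within each kind, so `∑ p ≥ τ₁ (τ₁ - 1) / 2 + τ₂ (τ₂ - 1) / 2 ≥ τ² / 4 - τ / 2`, and `∑ c =
τ (τ - 1) / 2`. So the sum is `≥ τ α - τ² / 4`. If `2 α ≥ N` take `τ = N`: `N α - N² / 4 ≥ N α / 2`.
Otherwise take `τ = ⌊2 α⌋`: `τ α - τ² / 4 = α² - (τ/2 - α)² ≥ α² - 1/4 ≥ 3 α² / 4`. -/
theorem comb_ineq (f g : ℕ) (c : Fin g ⊕ Fin f → Fin (g + f)) (hc : Function.Injective c) (α : ℝ)
    (hα : 1 ≤ α) :
    min ((g + f : ℕ) * α / 2) (3 / 4 * α ^ 2) ≤
      ∑ p : Fin g, max 0 (α + (p : ℕ) - ((c (Sum.inl p) : ℕ) : ℝ)) +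
        ∑ p : Fin f, max 0 (α + (p : ℕ) - ((c (Sum.inr p) : ℕ) : ℝ)) := by
  by_cases h : ((g + f : ℕ) : ℝ) ≤ 2 * α
  · refine (min_le_left _ _).trans (le_trans ?_ (rv_tau f g c hc α (g + f) le_rfl))
    have h0 : (0 : ℝ) ≤ ((g + f : ℕ) : ℝ) := Nat.cast_nonneg _
    nlinarith
  · push Not at h
    have hα0 : 0 ≤ 2 * α := by linarith
    have h1 : ((⌊2 * α⌋₊ : ℕ) : ℝ) ≤ 2 * α := Nat.floor_le hα0
    have h2 : 2 * α < ((⌊2 * α⌋₊ : ℕ) : ℝ) + 1 := Nat.lt_floor_add_one _
    have h3 : ⌊2 * α⌋₊ ≤ g + f := by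
      have : ((⌊2 * α⌋₊ : ℕ) : ℝ) ≤ ((g + f : ℕ) : ℝ) := h1.trans h.le
      exact_mod_cast this
    refine (min_le_right _ _).trans (le_trans ?_ (rv_tau f g c hc α _ h3))
    set x : ℝ := ((⌊2 * α⌋₊ : ℕ) : ℝ)
    nlinarith [mul_nonneg (sub_nonneg.2 h1) (sub_nonneg.2 h2.le)]

section WGE

variable {d : ℕ} {K : Type} [Field K]

/-- Every exponent which occurs in `F` has weight at least `w`. -/
private def WGE (n : Fin d → ℕ) (w : ℝ) (F : MvPolynomial (Fin d) K) : Prop :=
  ∀ i, F.coeff i ≠ 0 → w ≤ wt n i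

private theorem WGE.zero {n : Fin d → ℕ} {w : ℝ} : WGE n w (0 : MvPolynomial (Fin d) K) :=
  fun i hi => absurd (coeff_zero i) hi

private theorem WGE.mono {n : Fin d → ℕ} {w w' : ℝ} {F : MvPolynomial (Fin d) K} (h : WGE n w F)
    (hw : w' ≤ w) : WGE n w' F := fun i hi => hw.trans (h i hi)

private theorem WGE.add {n : Fin d → ℕ} {w : ℝ} {F G : MvPolynomial (Fin d) K} (hF : WGE n w F)
    (hG : WGE n w G) : WGE n w (F + G) := by
  intro i hi
  by_cases h : F.coeff i = 0
  · refine hG i fun h' => hi ?_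
    rw [coeff_add, h, h', add_zero]
  · exact hF i h

private theorem WGE.neg {n : Fin d → ℕ} {w : ℝ} {F : MvPolynomial (Fin d) K} (hF : WGE n w F) :
    WGE n w (-F) := by
  intro i hi
  refine hF i fun h => hi ?_
  rw [coeff_neg, h, neg_zero]

private theorem WGE.sum {ι : Type} {n : Fin d → ℕ} {w : ℝ} (s : Finset ι)
    (F : ι → MvPolynomial (Fin d) K) (hF : ∀ a ∈ s, WGE n w (F a)) : WGE n w (∑ a ∈ s, F a) := by
  classical
  induction s using Finset.induction_on with
  | empty => simpa using WGE.zero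
  | insert a s ha ih =>
    rw [Finset.sum_insert ha]
    exact (hF a (Finset.mem_insert_self _ _)).add
      (ih fun b hb => hF b (Finset.mem_insert_of_mem hb))

private theorem WGE.mul {n : Fin d → ℕ} {w w' : ℝ} {F G : MvPolynomial (Fin d) K}
    (hF : WGE n w F) (hG : WGE n w' G) : WGE n (w + w') (F * G) := by
  classical
  intro i hi
  have hi' : i ∈ (F * G).support := mem_support_iff.2 hi
  obtain ⟨a, ha, b, hb, rfl⟩ := Finset.mem_add.mp (support_mul F G hi')
  rw [wt_add]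
  exact add_le_add (hF a (mem_support_iff.1 ha)) (hG b (mem_support_iff.1 hb))

private theorem WGE.one {n : Fin d → ℕ} : WGE n 0 (1 : MvPolynomial (Fin d) K) :=
  fun i _ => wt_nonneg n i

private theorem WGE.prod {ι : Type} {n : Fin d → ℕ} (w : ι → ℝ) (s : Finset ι)
    (F : ι → MvPolynomial (Fin d) K) (hF : ∀ a ∈ s, WGE n (w a) (F a)) :
    WGE n (∑ a ∈ s, w a) (∏ a ∈ s, F a) := by
  classical
  induction s using Finset.induction_on with
  | empty => simpa using WGE.one
  | insert a s ha ih =>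
    rw [Finset.sum_insert ha, Finset.prod_insert ha]
    exact (hF a (Finset.mem_insert_self _ _)).mul
      (ih fun b hb => hF b (Finset.mem_insert_of_mem hb))

private theorem WGE.det {N : ℕ} {n : Fin d → ℕ} {w : ℝ} (θ : Fin N → Fin N → ℝ)
    (M : Matrix (Fin N) (Fin N) (MvPolynomial (Fin d) K)) (hM : ∀ i j, WGE n (θ i j) (M i j))
    (hw : ∀ σ : Equiv.Perm (Fin N), w ≤ ∑ j, θ (σ j) j) : WGE n w M.det := by
  rw [Matrix.det_apply]
  refine WGE.sum _ _ fun σ _ => ?_
  have h1 : WGE n w (∏ i, M (σ i) i) :=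
    (WGE.prod (fun j => θ (σ j) j) Finset.univ _ fun i _ => hM _ _).mono (hw σ)
  rcases Int.units_eq_one_or (Equiv.Perm.sign σ) with h | h
  · rw [h, one_smul]; exact h1
  · rw [h, Units.neg_smul, one_smul]; exact h1.neg

end WGE

private theorem rv_wt_cons {d : ℕ} (n : Fin (d + 1) → ℕ) (i : ℕ) (j : Fin d →₀ ℕ) :
    wt n (j.cons i) = (i : ℝ) / n 0 + wt (fun k : Fin d => n k.succ) j := by
  unfold wt
  rw [Fin.sum_univ_succ]
  simp

private theorem rv_coeff {d : ℕ} {K : Type} [Field K] (n : Fin (d + 1) → ℕ)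
    (hn : 0 < n 0) (t : Fin (d + 1) → K) (A : MvPolynomial (Fin (d + 1)) ℤ) (α : ℝ)
    (hA : Van n t (α / n 0) A) (i : ℕ) :
    WGE (fun k : Fin d => n k.succ) (max 0 (α - i) / n 0)
      ((finSuccEquiv K d (tay t A)).coeff i) := by
  intro j hj
  rw [finSuccEquiv_coeff_coeff] at hj
  have h1 := hA _ hj
  rw [rv_wt_cons] at h1
  have hn' : (0 : ℝ) < n 0 := by exact_mod_cast hn
  have h2 := wt_nonneg (fun k : Fin d => n k.succ) j
  rw [div_le_iff₀ hn']
  refine max_le (mul_nonneg h2 hn'.le) ?_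
  rw [div_le_iff₀ hn', add_mul, div_mul_cancel₀ _ hn'.ne'] at h1
  linarith

private theorem rv_fse_C {d : ℕ} {K : Type} [Field K] (a : K) :
    finSuccEquiv K d (C a) = Polynomial.C (C a) := by
  have h : (finSuccEquiv K d).symm (Polynomial.C (C a)) = C a :=
    congrArg (fun Ψ => Ψ a) (finSuccEquiv_comp_C_eq_C (R := K) d)
  rw [← h, AlgEquiv.apply_symm_apply]

private theorem rv_taylor {d : ℕ} {K : Type} [Field K] (t : Fin (d + 1) → K)
    (F : MvPolynomial (Fin (d + 1)) ℤ) :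
    Polynomial.taylor (C (t 0)) ((finSuccEquiv ℤ d F).map
      (aeval (fun k : Fin d => X k + C (t k.succ)) :
        MvPolynomial (Fin d) ℤ →ₐ[ℤ] MvPolynomial (Fin d) K).toRingHom) =
      finSuccEquiv K d (tay t F) := by
  let φ : MvPolynomial (Fin d) ℤ →+* MvPolynomial (Fin d) K :=
    (aeval (fun k : Fin d => X k + C (t k.succ)) :
      MvPolynomial (Fin d) ℤ →ₐ[ℤ] MvPolynomial (Fin d) K).toRingHom
  let Ψ₁ : MvPolynomial (Fin (d + 1)) ℤ →+* Polynomial (MvPolynomial (Fin d) K) :=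
    ((Polynomial.taylorAlgHom (C (t 0) : MvPolynomial (Fin d) K)).toRingHom.comp
      (Polynomial.mapRingHom φ)).comp ((finSuccEquiv ℤ d).toAlgHom.toRingHom)
  let Ψ₂ : MvPolynomial (Fin (d + 1)) ℤ →+* Polynomial (MvPolynomial (Fin d) K) :=
    ((finSuccEquiv K d).toAlgHom.toRingHom).comp
      (aeval (fun k => X k + C (t k)) :
        MvPolynomial (Fin (d + 1)) ℤ →ₐ[ℤ] MvPolynomial (Fin (d + 1)) K).toRingHom
  have h : Ψ₁ = Ψ₂ := by
    refine MvPolynomial.ringHom_ext ?_ ?_
    · intro a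
      exact (map_intCast Ψ₁ a).trans (map_intCast Ψ₂ a).symm
    · intro k
      refine Fin.cases ?_ (fun k => ?_) k
      · simp [Ψ₁, Ψ₂, φ, finSuccEquiv_X_zero, Polynomial.taylorAlgHom]
        exact (rv_fse_C _).symm
      · simp [Ψ₁, Ψ₂, φ, finSuccEquiv_X_succ, Polynomial.taylorAlgHom]
        exact (rv_fse_C _).symm
  exact congrArg (fun Ψ => Ψ F) h

/-- **Order of the resultant.** If `A` and `B` vanish at `t` to the order `α / n_0`, `α ≥ 1`, then
`res A B` vanishes at `t' = (t_1, ..., t_d)` to the order `min (N α / 2) (3 α² / 4) / n_0`,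
`N = deg_0 A + deg_0 B`.

Proof. Let `a(X) = finSuccEquiv (A)` mapped to `K[X_1..X_d][X]` (over `K`, via `Int.castRingHom`). The
resultant does not change if `X` is replaced by `X + t_0` (`Polynomial.resultant_taylor`,
`Polynomial.resultant_map_map`), and the Taylor expansion `tay t' (res A B)` is the resultant of the
polynomials `a'(X) = finSuccEquiv (tay t A)`, `b'(X) = finSuccEquiv (tay t B)` in `K[X_1..X_d][X]`
(degrees `deg_0 A`, `deg_0 B`; ring homomorphisms commute with the resultant with fixed size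
arguments). The coefficient `a'_i` of `X^i` in `a'` contains only monomials `X'^j` with
`wt j ≥ α / n_0 - i / n_0` (as `Van n t (α / n_0) A` and `wt (cons i j) = i / n_0 + wt j`). Every term of
the determinant of the Sylvester matrix (`Polynomial.sylvester`: the entry in row `i`, column `j` is
`b'_(i - j)` for the first `deg_0 A` columns and `a'_(i - j)` for the other ones) is a product over the
columns of entries in the rows `c(j)`, `c` a permutation; all monomials of the term have weight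
`≥ ∑_columns max 0 (α - (c(j) - j)) / n_0`; `comb_ineq`. (The LGE-calculus of
`Pool.Agent.DD7719.RothSize` can be imitated for the predicate: all `i` in the support have
`w ≤ wt n i`.) -/
theorem van_res {d : ℕ} {K : Type} [Field K] [CharZero K] (n : Fin (d + 1) → ℕ)
    (hn : 0 < n 0) (t : Fin (d + 1) → K) (A B : MvPolynomial (Fin (d + 1)) ℤ) (α : ℝ) (hα : 1 ≤ α)
    (hA : Van n t (α / n 0) A) (hB : Van n t (α / n 0) B) :
    Van (fun k : Fin d => n k.succ) (fun k => t k.succ)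
      (min (((A.degreeOf 0 + B.degreeOf 0 : ℕ) : ℝ) * α / 2) (3 / 4 * α ^ 2) / n 0) (res A B) := by
  set φ : MvPolynomial (Fin d) ℤ →+* MvPolynomial (Fin d) K :=
    (aeval (fun k : Fin d => X k + C (t k.succ)) :
      MvPolynomial (Fin d) ℤ →ₐ[ℤ] MvPolynomial (Fin d) K).toRingHom with hφdef
  have hφ : ∀ F, φ F = tay (fun k : Fin d => t k.succ) F := fun F => rfl
  have hφi : Function.Injective φ := (injective_iff_map_eq_zero φ).2 fun F hF => by
    by_contra h
    exact tay_ne_zero (fun k : Fin d => t k.succ) F h hF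
  set a := finSuccEquiv K d (tay t A) with ha
  set b := finSuccEquiv K d (tay t B) with hb
  have ha' : Polynomial.taylor (C (t 0)) ((finSuccEquiv ℤ d A).map φ) = a := rv_taylor t A
  have hb' : Polynomial.taylor (C (t 0)) ((finSuccEquiv ℤ d B).map φ) = b := rv_taylor t B
  have hda : ((finSuccEquiv ℤ d A).map φ).natDegree = A.degreeOf 0 := by
    rw [Polynomial.natDegree_map_eq_of_injective hφi, natDegree_finSuccEquiv]
  have hdb : ((finSuccEquiv ℤ d B).map φ).natDegree = B.degreeOf 0 := by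
    rw [Polynomial.natDegree_map_eq_of_injective hφi, natDegree_finSuccEquiv]
  have hres : tay (fun k : Fin d => t k.succ) (res A B) =
      (Polynomial.sylvester a b (A.degreeOf 0) (B.degreeOf 0)).det := by
    rw [← hφ]
    unfold res
    rw [← Polynomial.resultant_map_map, natDegree_finSuccEquiv, natDegree_finSuccEquiv]
    have h1 := Polynomial.resultant_taylor ((finSuccEquiv ℤ d A).map φ)
      ((finSuccEquiv ℤ d B).map φ) (C (t 0))
    rw [Polynomial.natDegree_taylor, Polynomial.natDegree_taylor, hda, hdb, ha', hb'] at h1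
    exact h1.symm
  suffices h : WGE (fun k : Fin d => n k.succ)
      (min (((A.degreeOf 0 + B.degreeOf 0 : ℕ) : ℝ) * α / 2) (3 / 4 * α ^ 2) / n 0)
      (Polynomial.sylvester a b (A.degreeOf 0) (B.degreeOf 0)).det by
    intro i hi
    rw [hres] at hi
    exact h i hi
  have hn' : (0 : ℝ) < n 0 := by exact_mod_cast hn
  have hca := rv_coeff n hn t A α hA
  have hcb := rv_coeff n hn t B α hB
  set N₁ := A.degreeOf 0
  set N₂ := B.degreeOf 0
  refine WGE.det (fun i j => j.addCases (fun p : Fin N₁ => max 0 (α + (p : ℕ) - (i : ℕ)) / n 0)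
    (fun p : Fin N₂ => max 0 (α + (p : ℕ) - (i : ℕ)) / n 0)) _ ?_ ?_
  · intro i j
    unfold Polynomial.sylvester
    induction j using Fin.addCases with
    | left p =>
      rw [Matrix.of_apply, Fin.addCases_left, Fin.addCases_left]
      split_ifs with h
      · obtain ⟨h1, -⟩ := h
        have h2 := hcb ((i : ℕ) - p)
        rw [Nat.cast_sub h1] at h2
        have e : α - (((i : ℕ) : ℝ) - ((p : ℕ) : ℝ)) = α + (p : ℕ) - (i : ℕ) := by ring
        rwa [e] at h2
      · exact WGE.zero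
    | right p =>
      rw [Matrix.of_apply, Fin.addCases_right, Fin.addCases_right]
      split_ifs with h
      · obtain ⟨h1, -⟩ := h
        have h2 := hca ((i : ℕ) - p)
        rw [Nat.cast_sub h1] at h2
        have e : α - (((i : ℕ) : ℝ) - ((p : ℕ) : ℝ)) = α + (p : ℕ) - (i : ℕ) := by ring
        rwa [e] at h2
      · exact WGE.zero
  · intro σ
    have h1 := comb_ineq N₂ N₁ (fun s => σ (finSumFinEquiv s))
      (σ.injective.comp finSumFinEquiv.injective) α hα
    have h2 : ∑ j : Fin (N₁ + N₂), (j.addCases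
        (fun p : Fin N₁ => max 0 (α + (p : ℕ) - ((σ j : Fin (N₁ + N₂)) : ℕ)) / n 0)
        (fun p : Fin N₂ => max 0 (α + (p : ℕ) - ((σ j : Fin (N₁ + N₂)) : ℕ)) / n 0) : ℝ) =
        (∑ p : Fin N₁, max 0 (α + (p : ℕ) - ((σ (finSumFinEquiv (Sum.inl p)) : ℕ) : ℝ)) +
        ∑ p : Fin N₂, max 0 (α + (p : ℕ) - ((σ (finSumFinEquiv (Sum.inr p)) : ℕ) : ℝ))) / n 0 := by
      rw [← finSumFinEquiv.sum_comp, Fintype.sum_sum_type, add_div, Finset.sum_div, Finset.sum_div]
      simp
    refine le_trans ?_ (le_of_eq h2.symm)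
    exact div_le_div_of_nonneg_right h1 hn'.le

end Pool.Agent.LSharp
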