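import Pool.Agent.LSharp.Ord

set_option autoImplicit false

/-! HC3. A polynomial of large order has either one irreducible factor or two coprime factors of large
order. -/

namespace Pool.Agent.LSharp

open MvPolynomial Pool.Agent.LAll

private theorem split_sum {R : Type} [DecidableEq R] (a : R → ℝ) (w : ℝ) (hw : 0 < w)
    (s : Finset R) (ha : ∀ x ∈ s, a x < w / 3) :
    ∑ x ∈ s, a x < w / 3 ∨ ∃ T ⊆ s, w / 3 ≤ ∑ x ∈ T, a x ∧ ∑ x ∈ T, a x < 2 * (w / 3) := by
  induction s using Finset.induction_on with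
  | empty =>
    left
    rw [Finset.sum_empty]
    positivity
  | insert x s hx ih =>
    rcases ih fun y hy => ha y (Finset.mem_insert_of_mem hy) with h | ⟨T, hT, h1, h2⟩
    · rcases lt_or_ge (∑ y ∈ insert x s, a y) (w / 3) with h3 | h3
      · exact Or.inl h3
      · refine Or.inr ⟨_, subset_rfl, h3, ?_⟩
        rw [Finset.sum_insert hx]
        have := ha x (Finset.mem_insert_self _ _)
        linarith
    · exact Or.inr ⟨T, hT.trans (Finset.subset_insert _ _), h1, h2⟩

private theorem split_aux {R : Type} [CommRing R] [IsDomain R] [UniqueFactorizationMonoid R]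
    (o : R → ℝ) (h0 : ∀ a, a ≠ 0 → 0 ≤ o a)
    (hm : ∀ a b, a ≠ 0 → b ≠ 0 → o (a * b) = o a + o b) (F : R) (hF : F ≠ 0) (w : ℝ)
    (hw : 0 < w) (hV : w ≤ o F) :
    (∃ (P B : R) (e : ℕ), Irreducible P ∧ 0 < e ∧ F = P ^ e * B ∧ w / (3 * e) ≤ o P) ∨
    (∃ A B G : R, F = A * B * G ∧ IsRelPrime A B ∧ w / 3 ≤ o A ∧ w / 3 ≤ o B) := by
  classical
  let _ : StrongNormalizationMonoid R := UniqueFactorizationMonoid.normalizationMonoid
  have h1 : o 1 = 0 := by
    have := hm 1 1 one_ne_zero one_ne_zero
    rw [mul_one] at this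
    linarith
  have hu : ∀ u : Rˣ, o (u : R) = 0 := by
    intro u
    have h2 := hm (u : R) ((u⁻¹ : Rˣ) : R) u.ne_zero (u⁻¹ : Rˣ).ne_zero
    rw [Units.mul_inv, h1] at h2
    have h3 := h0 _ u.ne_zero
    have h4 := h0 _ (u⁻¹ : Rˣ).ne_zero
    linarith
  have hpow : ∀ (a : R) (n : ℕ), a ≠ 0 → o (a ^ n) = n * o a := by
    intro a n ha
    induction n with
    | zero => rw [pow_zero, h1, Nat.cast_zero, zero_mul]
    | succ n ih =>
      rw [pow_succ, hm _ _ (pow_ne_zero _ ha) ha, ih]
      push_cast
      ring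
  set m := UniqueFactorizationMonoid.normalizedFactors F with hmdef
  obtain ⟨u, hu'⟩ := UniqueFactorizationMonoid.prod_normalizedFactors hF
  rw [← hmdef, Finset.prod_multiset_count] at hu'
  have hirr : ∀ P ∈ m.toFinset, Irreducible P := fun P hP =>
    UniqueFactorizationMonoid.irreducible_of_normalized_factor P (Multiset.mem_toFinset.1 hP)
  have hne : ∀ P ∈ m.toFinset, P ^ m.count P ≠ 0 := fun P hP =>
    pow_ne_zero _ (hirr P hP).ne_zero
  have hprod : ∀ T ⊆ m.toFinset, o (∏ P ∈ T, P ^ m.count P) = ∑ P ∈ T, (m.count P : ℝ) * o P := by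
    intro T
    induction T using Finset.induction_on with
    | empty =>
      intro _
      rw [Finset.prod_empty, Finset.sum_empty, h1]
    | insert P T hP ih =>
      intro hT
      have hT' : T ⊆ m.toFinset := (Finset.subset_insert _ _).trans hT
      have hP' : P ∈ m.toFinset := hT (Finset.mem_insert_self _ _)
      rw [Finset.prod_insert hP, Finset.sum_insert hP,
        hm _ _ (hne P hP') (Finset.prod_ne_zero_iff.2 fun Q hQ => hne Q (hT' hQ)), ih hT',
        hpow _ _ (hirr P hP').ne_zero]
  have hsum : o F = ∑ P ∈ m.toFinset, (m.count P : ℝ) * o P := by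
    rw [← hprod _ subset_rfl, ← hu', hm _ _ (Finset.prod_ne_zero_iff.2 hne) u.ne_zero, hu,
      add_zero]
  by_cases hc : ∃ P ∈ m.toFinset, w / 3 ≤ (m.count P : ℝ) * o P
  · left
    obtain ⟨P, hP, h2⟩ := hc
    have he : 0 < m.count P := Multiset.count_pos.2 (Multiset.mem_toFinset.1 hP)
    refine ⟨P, (∏ Q ∈ m.toFinset.erase P, Q ^ m.count Q) * u, m.count P, hirr P hP, he, ?_, ?_⟩
    · rw [← mul_assoc, Finset.mul_prod_erase _ (fun Q => Q ^ m.count Q) hP, hu']
    · have he' : (0 : ℝ) < m.count P := by exact_mod_cast he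
      rw [← div_div, div_le_iff₀ he', mul_comm]
      exact h2
  · right
    push Not at hc
    rcases split_sum (fun P => (m.count P : ℝ) * o P) w hw m.toFinset hc with h2 | ⟨T, hT, h2, h3⟩
    · rw [← hsum] at h2
      linarith
    · refine ⟨∏ P ∈ T, P ^ m.count P, ∏ P ∈ m.toFinset \ T, P ^ m.count P, u, ?_, ?_, ?_, ?_⟩
      · rw [mul_comm (∏ P ∈ T, P ^ m.count P), Finset.prod_sdiff hT, hu']
      · refine IsRelPrime.prod_left fun P hP => IsRelPrime.prod_right fun Q hQ =>
          IsRelPrime.pow ?_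
        rw [Finset.mem_sdiff] at hQ
        rw [(hirr P (hT hP)).isRelPrime_iff_not_dvd]
        intro hd
        have h4 : Associated P Q := (hirr P (hT hP)).associated_of_dvd (hirr Q hQ.1) hd
        have h5 : P = Q := by
          have e1 := UniqueFactorizationMonoid.normalize_normalized_factor P
            (Multiset.mem_toFinset.1 (hT hP))
          have e2 := UniqueFactorizationMonoid.normalize_normalized_factor Q
            (Multiset.mem_toFinset.1 hQ.1)
          rw [← e1, ← e2]
          exact normalize_eq_normalize_iff_associated.2 h4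
        rw [h5] at hP
        exact hQ.2 hP
      · rw [hprod T hT]
        exact h2
      · rw [hprod _ Finset.sdiff_subset]
        have h4 := Finset.sum_sdiff (f := fun P => (m.count P : ℝ) * o P) hT
        rw [← hsum] at h4
        linarith

/-- Let `F ≠ 0` have order `≥ w > 0` at `t`. Write `F = u ∏ P_i ^ e_i` with pairwise non associated
irreducible `P_i` (`UniqueFactorizationMonoid`, `MvPolynomial σ ℤ`; e.g.
`UniqueFactorizationMonoid.normalizedFactors`-free version: multiset `factors F`, `toFinset` of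
associates; or induction with `UniqueFactorizationMonoid.induction_on_coprime`), `a_i = e_i ord (P_i)`,
`∑ a_i ≥ w` by `ord_mul`. If some `a_i ≥ w / 3`: first alternative (`B` the product of the other
factors). Otherwise all `a_i < w / 3`; add up the `a_i` one after the other until the sum is `≥ w / 3`
for the first time; it is then `< 2 w / 3`, so the rest is `≥ w / 3` too: second alternative with
`A = ∏ P_i ^ e_i` over the first group and `B` the product over the other group, `G` a unit.

Suggestion: prove by `UniqueFactorizationMonoid.induction_on_coprime` the more flexible statement: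
for every `F ≠ 0` there are a finite list of pairwise relatively prime factors ... -/
theorem split_factor {σ K : Type} [Fintype σ] [Field K] [CharZero K] (n : σ → ℕ) (t : σ → K)
    (F : MvPolynomial σ ℤ) (hF : F ≠ 0) (w : ℝ) (hw : 0 < w) (hV : Van n t w F) :
    (∃ (P B : MvPolynomial σ ℤ) (e : ℕ), Irreducible P ∧ 0 < e ∧ F = P ^ e * B ∧
      Van n t (w / (3 * e)) P) ∨
    (∃ A B G : MvPolynomial σ ℤ, F = A * B * G ∧ IsRelPrime A B ∧
      Van n t (w / 3) A ∧ Van n t (w / 3) B) := by
  classical
  have hex : ∀ F : MvPolynomial σ ℤ, ∃ o : ℝ, F ≠ 0 → 0 ≤ o ∧ ∀ w, Van n t w F ↔ w ≤ o := by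
    intro F
    by_cases h : F = 0
    · exact ⟨0, fun h' => absurd h h'⟩
    · obtain ⟨o, ho⟩ := exists_ord n t F h
      exact ⟨o, fun _ => ho⟩
  choose o ho using hex
  have hm : ∀ a b : MvPolynomial σ ℤ, a ≠ 0 → b ≠ 0 → o (a * b) = o a + o b := by
    intro a b ha hb
    have h1 := (ho (a * b) (mul_ne_zero ha hb)).2
    have h2 := ord_mul n t a b ha hb (o a) (o b) (ho a ha).2 (ho b hb).2
    refine le_antisymm ?_ ?_
    · exact (h2 _).1 ((h1 _).2 le_rfl)
    · exact (h1 _).1 ((h2 _).2 le_rfl)
  rcases split_aux o (fun a ha => (ho a ha).1) hm F hF w hw (((ho F hF).2 w).1 hV) with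
    ⟨P, B, e, h1, h2, h3, h4⟩ | ⟨A, B, G, h1, h2, h3, h4⟩
  · exact Or.inl ⟨P, B, e, h1, h2, h3, ((ho P h1.ne_zero).2 _).2 h4⟩
  · have hA : A ≠ 0 := by
      rintro rfl
      exact hF (by rw [h1, zero_mul, zero_mul])
    have hB : B ≠ 0 := by
      rintro rfl
      exact hF (by rw [h1, mul_zero, zero_mul])
    exact Or.inr ⟨A, B, G, h1, h2, ((ho A hA).2 _).2 h3, ((ho B hB).2 _).2 h4⟩

end Pool.Agent.LSharp
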