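import Pool.Agent.LSharp.Gelfond
import Pool.Agent.LSharp.Split
import Pool.Agent.LSharp.ResBd
import Pool.Agent.LSharp.ResVan

set_option autoImplicit false

/-! HC9. The zero estimate. -/

namespace Pool.Agent.LSharp

open MvPolynomial Pool.Agent.LAll

private lemma Bd_mono {σ : Type} {n : σ → ℕ} {M s s' : ℝ} {F : MvPolynomial σ ℤ} (hM : 0 ≤ M)
    (hs : s ≤ s') (h : Bd n M s F) : Bd n M s' F :=
  ⟨fun k => (h.1 k).trans (mul_le_mul_of_nonneg_right hs (Nat.cast_nonneg _)),
    h.2.trans (Real.exp_le_exp.2 (mul_le_mul_of_nonneg_right hs hM))⟩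

private lemma degreeOf_zero_rename {d : ℕ} (P : MvPolynomial (Fin d) ℤ) :
    (rename Fin.succ P).degreeOf 0 = 0 := by
  classical
  by_contra h
  have h1 := vars_rename Fin.succ P (mem_vars_iff_degreeOf_ne_zero.2 h)
  obtain ⟨k, -, hk⟩ := Finset.mem_image.1 h1
  exact Fin.succ_ne_zero k hk

private lemma degreeOf_pderiv_le' {σ : Type} (P : MvPolynomial σ ℤ) (i k : σ) :
    (pderiv i P).degreeOf k ≤ P.degreeOf k := by
  classical
  rw [degreeOf_le_iff]
  intro m hm
  rw [mem_support_iff, coeff_pderiv] at hm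
  have h1 : m + Finsupp.single i 1 ∈ P.support := by
    rw [mem_support_iff]
    exact left_ne_zero_of_mul hm
  refine le_trans ?_ (monomial_le_degreeOf k h1)
  rw [Finsupp.add_apply]
  exact Nat.le_add_right _ _

private lemma wt_tail {d : ℕ} (n : Fin (d + 1) → ℕ) (i : Fin d →₀ ℕ) :
    wt n (i.mapDomain Fin.succ) = wt (fun k : Fin d => n k.succ) i := by
  have hinj : Function.Injective (Fin.succ : Fin d → Fin (d + 1)) := Fin.succ_injective d
  unfold wt
  rw [Fin.sum_univ_succ]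
  have h0 : (i.mapDomain Fin.succ) 0 = 0 := by
    refine Finsupp.mapDomain_of_notMem_range _ _ ?_
    rintro ⟨k, hk⟩
    exact Fin.succ_ne_zero k hk
  rw [h0, Nat.cast_zero, zero_div, zero_add]
  exact Finset.sum_congr rfl fun k _ => by rw [Finsupp.mapDomain_apply hinj]

private lemma tay_tail {d : ℕ} {K : Type} [Field K] (t : Fin (d + 1) → K)
    (G : MvPolynomial (Fin d) ℤ) :
    tay t (rename Fin.succ G) = rename Fin.succ (tay (fun k : Fin d => t k.succ) G) := by
  induction G using MvPolynomial.induction_on with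
  | C a => simp [tay]
  | add p q hp hq =>
    rw [map_add, tay_add, hp, hq, tay_add, map_add]
  | mul_X p k hp =>
    rw [map_mul, tay_mul, hp, tay_mul, map_mul]
    congr 1
    simp [tay]

/-- `Free` is inherited by the last variables (`P` in the last variables is `rename succ P`;
`L1_rename`, degrees and `aeval` of a renamed polynomial, `vars`). -/
theorem free_tail {d : ℕ} {K : Type} [Field K] (n : Fin (d + 1) → ℕ) (M : ℝ)
    (t : Fin (d + 1) → K) (A : ℝ) (h : Free n M t A) :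
    Free (fun k : Fin d => n k.succ) M (fun k => t k.succ) A := by
  intro P hP l hl hmax hB
  have hinj : Function.Injective (Fin.succ : Fin d → Fin (d + 1)) := Fin.succ_injective d
  have hP' : rename Fin.succ P ≠ 0 := by
    intro h0
    exact hP (rename_injective _ hinj (h0.trans (map_zero _).symm))
  have hdeg : ∀ k : Fin d, (rename Fin.succ P).degreeOf k.succ = P.degreeOf k := fun k =>
    degreeOf_rename_of_injective hinj k
  have hdeg0 : (rename Fin.succ P).degreeOf 0 = 0 := degreeOf_zero_rename P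
  have hA : 0 < A / (n l.succ : ℝ) := by
    have h1 : (1 : ℝ) ≤ (P.degreeOf l : ℝ) := by
      exact_mod_cast Nat.one_le_iff_ne_zero.2 (mem_vars_iff_degreeOf_ne_zero.1 hl)
    have h2 : (P.degreeOf l : ℝ) ≤ A / (n l.succ : ℝ) * (n l.succ : ℝ) := hB.1 l
    have h3 : (0 : ℝ) ≤ (n l.succ : ℝ) := Nat.cast_nonneg _
    by_contra hcon
    push Not at hcon
    have h4 := mul_nonpos_of_nonpos_of_nonneg hcon h3
    linarith
  have h1 := h (rename Fin.succ P) hP' l.succ
    (by
      rw [mem_vars_iff_degreeOf_ne_zero, hdeg]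
      exact mem_vars_iff_degreeOf_ne_zero.1 hl)
    (by
      intro k hk
      rw [mem_vars_iff_degreeOf_ne_zero] at hk
      refine Fin.cases (fun hk => absurd hdeg0 hk) (fun j hj => ?_) k hk
      rw [hdeg] at hj
      exact hmax j (mem_vars_iff_degreeOf_ne_zero.2 hj))
    (by
      refine ⟨fun k => ?_, ?_⟩
      · refine Fin.cases ?_ (fun j => ?_) k
        · rw [hdeg0, Nat.cast_zero]
          exact mul_nonneg hA.le (Nat.cast_nonneg _)
        · rw [hdeg]
          exact hB.1 j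
      · rw [L1_rename _ hinj]
        exact hB.2)
  rw [aeval_rename] at h1
  exact h1

theorem Free.mono {σ K : Type} [Field K] {n : σ → ℕ} {M : ℝ} {t : σ → K} {A A' : ℝ}
    (h : Free n M t A) (hA : A' ≤ A) (hM : 0 ≤ M) : Free n M t A' := by
  intro P hP l hl hmax hB
  refine h P hP l hl hmax (Bd_mono hM ?_ hB)
  exact div_le_div_of_nonneg_right hA (Nat.cast_nonneg _)

/-- A polynomial without the first variable is a renamed polynomial in the other ones, with the same
bounds and the same order. -/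
theorem exists_tail {d : ℕ} {K : Type} [Field K] (n : Fin (d + 1) → ℕ) (M s w : ℝ)
    (t : Fin (d + 1) → K) (F : MvPolynomial (Fin (d + 1)) ℤ) (hF : F ≠ 0)
    (h0 : F.degreeOf 0 = 0) (hB : Bd n M s F) (hV : Van n t w F) :
    ∃ G : MvPolynomial (Fin d) ℤ, G ≠ 0 ∧ Bd (fun k : Fin d => n k.succ) M s G ∧
      Van (fun k : Fin d => n k.succ) (fun k => t k.succ) w G := by
  have hinj : Function.Injective (Fin.succ : Fin d → Fin (d + 1)) := Fin.succ_injective d
  obtain ⟨G, rfl⟩ := exists_rename_eq_of_vars_subset_range F Fin.succ hinj (by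
    intro k hk
    have hk' := mem_vars_iff_degreeOf_ne_zero.1 (Finset.mem_coe.1 hk)
    refine Fin.cases (fun h => absurd h0 h) (fun j _ => ⟨j, rfl⟩) k hk')
  refine ⟨G, ?_, ⟨fun k => ?_, ?_⟩, ?_⟩
  · rintro rfl
    exact hF (map_zero _)
  · rw [← degreeOf_rename_of_injective hinj k]
    exact hB.1 k.succ
  · rw [← L1_rename _ hinj G]
    exact hB.2
  · intro i hi
    rw [← wt_tail n i]
    apply hV
    rw [tay_tail, coeff_rename_mapDomain _ hinj]
    exact hi

/-- **The zero estimate (HC).** For every `κ > 0` there is `A` such that: `n_1 ≥ ... ≥ n_d ≥ 1`,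
`∑ n_k ≤ M`, `t` generic (`Free n M t A`); then no nonzero `F` with degrees `≤ s n_k` and norm
`≤ exp (s M)` vanishes at `t` to the order `κ s`. (No condition on the ratios of the `n_k`, and none on
the heights of the `t_k`.)

Proof. Induction on `d`. `d = 0`: `F` is a nonzero constant, its Taylor coefficient at `0` is `≠ 0`
(characteristic `0`) and has weight `0 < κ s`.

`d + 1`. Let `c ≥ 1` be the constant of `factor_bound (d + 1)`, `κ > 0`, `κ₁ = κ / (3 c)` and
`κ' = min (κ / (6 c)) (κ² / (12 c)) , κ₁ / 8, 3 κ₁² / 64, κ₁, κ₁ / 4` (the minimum of all; or simply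
`κ' = κ₁² / 64` if `κ ≤ 1`, which we may assume: `Van.mono`), `A'` the constant for `d` and `κ'`,
`A = max A' (max (3 c / κ) (2 / κ₁))`. Suppose `F` as above with `Van n t (κ s) F`. By `split_factor`
with `w = κ s` there are two cases. In the following, tail means the variables `1, ..., d`; the induction
hypothesis (IH) for `κ'` says: no `G ≠ 0` in the tail with `Bd (s')` and `Van (κ' s')`, `s' > 0`.

CASE 1: `F = A₁ B₁ G₁`, `A₁, B₁` relatively prime, both with `Van (κ s / 3)`. `Bd (c s)` for both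
(`factor_bound` with `e = 1`). If `deg_0 A₁ = 0`: `exists_tail` and IH with `s' = c s`
(`κ' c s ≤ κ s / 3`). Likewise `B₁`. Otherwise `N = deg_0 A₁ + deg_0 B₁ ≤ deg_0 F ≤ s n_0`.
Let `α = κ s n_0 / 3`. If `α < 1`: `c s ≤ 3 c / (κ n_0) ≤ A / n_0`, so `Bd (A / n_0)` for `A₁`, the
variable `l = 0` occurs in `A₁` and `n_k ≤ n_0` for all `k`: `Free` says `A₁(t) ≠ 0`, but
`Van (κ s / 3)` with `κ s / 3 > 0` says `A₁(t) = 0`. If `α ≥ 1`: `R = res A₁ B₁ ≠ 0`
(`res_ne_zero`), `Bd (N c s)` (`Bd_res`), order `≥ min (N α / 2) (3 α² / 4) / n_0` (`van_res`), and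
`N α / (2 n_0) = N κ s / 6 ≥ κ' N c s`, `3 α² / (4 n_0) = κ² s² n_0 / 12 ≥ κ² s N / 12 ≥ κ' N c s`:
IH with `s' = N c s`.

CASE 2: `F = P ^ e B`, `P` irreducible, `e ≥ 1`, `Van (κ s / (3 e)) P`. Let `s_P = c s / e > 0`;
`Bd s_P` for `P` (`factor_bound`), `Van (κ₁ s_P)`. If `deg_0 P = 0`: `exists_tail`, IH. Otherwise: if
`κ₁ s_P n_0 < 2`: `s_P ≤ 2 / (κ₁ n_0) ≤ A / n_0`, `Free` and `Van` contradict each other as above. If
`κ₁ s_P n_0 ≥ 2`: `Q = ∂_0 P` (`isRelPrime_pderiv`), `Van (κ₁ s_P - 1 / n_0)`, so `Van (κ₁ s_P / 2)`;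
`L1 Q ≤ deg_0 P * L1 P ≤ exp (2 s_P M)` (`deg_0 P ≤ s_P n_0 ≤ s_P M`, `x ≤ exp x`), so `Bd (2 s_P) Q`. If
`deg_0 Q = 0`: `exists_tail`, IH with `s' = 2 s_P`. Otherwise `R = res P Q`, `N = deg_0 P + deg_0 Q
≤ 2 s_P n_0`, `Bd (2 N s_P)`, `α = κ₁ s_P n_0 / 2 ≥ 1`, order `≥ min (N κ₁ s_P / 4)
(3 κ₁² s_P² n_0 / 16) ≥ min (N κ₁ s_P / 4) (3 κ₁² s_P N / 32) ≥ κ' (2 N s_P)`: IH. -/
theorem hc (d : ℕ) : ∀ κ : ℝ, 0 < κ → ∃ A : ℝ, ∀ (K : Type) [Field K] [CharZero K]
    (n : Fin d → ℕ) (M : ℝ) (t : Fin d → K), (∀ k, 0 < n k) → Antitone n → ∑ k, (n k : ℝ) ≤ M →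
    Free n M t A → ∀ (F : MvPolynomial (Fin d) ℤ) (s : ℝ), F ≠ 0 → 0 < s → Bd n M s F →
    ¬ Van n t (κ * s) F := by
  induction d with
  | zero =>
    intro κ hκ
    refine ⟨0, ?_⟩
    intro K _ _ n M t hn hanti hM hfree F s hF hs hB hV
    have h1 := tay_ne_zero t F hF
    obtain ⟨i, hi⟩ := ne_zero_iff.1 h1
    have h2 := hV i hi
    have h3 : wt n i = 0 := by
      unfold wt
      exact Finset.sum_of_isEmpty _
    rw [h3] at h2
    have h4 : 0 < κ * s := mul_pos hκ hs
    linarith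
  | succ d ih =>
    suffices hmain : ∀ κ : ℝ, 0 < κ → κ ≤ 1 → ∃ A : ℝ, ∀ (K : Type) [Field K] [CharZero K]
        (n : Fin (d + 1) → ℕ) (M : ℝ) (t : Fin (d + 1) → K), (∀ k, 0 < n k) → Antitone n →
        ∑ k, (n k : ℝ) ≤ M → Free n M t A → ∀ (F : MvPolynomial (Fin (d + 1)) ℤ) (s : ℝ),
        F ≠ 0 → 0 < s → Bd n M s F → ¬ Van n t (κ * s) F by
      intro κ hκ
      obtain ⟨A, hA⟩ := hmain (min κ 1) (lt_min hκ one_pos) (min_le_right _ _)
      refine ⟨A, ?_⟩
      intro K _ _ n M t hn hanti hM hfree F s hF hs hB hV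
      refine hA K n M t hn hanti hM hfree F s hF hs hB (hV.mono ?_)
      exact mul_le_mul_of_nonneg_right (min_le_left _ _) hs.le
    intro κ hκ hκ1
    obtain ⟨c, hc1, hc⟩ := factor_bound (d + 1)
    have hc0 : 0 < c := by linarith
    obtain ⟨κ₁, hκ₁⟩ : ∃ κ₁ : ℝ, κ₁ = κ / (3 * c) := ⟨_, rfl⟩
    have hκ₁0 : 0 < κ₁ := by rw [hκ₁]; positivity
    have hκc : κ = 3 * c * κ₁ := by
      rw [hκ₁]
      field_simp
    have hκ₁1 : κ₁ ≤ 1 / 3 := by
      rw [hκ₁, div_le_div_iff₀ (by positivity) (by norm_num)]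
      nlinarith
    obtain ⟨A', hA'⟩ := ih (κ₁ ^ 2 / 64) (by positivity)
    refine ⟨max A' (2 / κ₁), ?_⟩
    intro K _ _ n M t hn hanti hM hfree F s hF hs hB hV
    have hn0 : (0 : ℝ) < n 0 := by exact_mod_cast hn 0
    have hnM : (n 0 : ℝ) ≤ M :=
      (Finset.single_le_sum (f := fun k => (n k : ℝ)) (fun k _ => Nat.cast_nonneg _)
        (Finset.mem_univ 0)).trans hM
    have hM0 : 0 ≤ M := hn0.le.trans hnM
    -- the induction hypothesis for the tail
    have hIH : ∀ (G : MvPolynomial (Fin d) ℤ) (s' w : ℝ), G ≠ 0 → 0 < s' →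
        Bd (fun k : Fin d => n k.succ) M s' G → κ₁ ^ 2 / 64 * s' ≤ w →
        Van (fun k : Fin d => n k.succ) (fun k => t k.succ) w G → False := by
      intro G s' w hG hs' hBG hw hVG
      refine hA' K (fun k : Fin d => n k.succ) M (fun k => t k.succ) (fun k => hn _)
        (fun i j hij => hanti (Fin.succ_le_succ_iff.2 hij)) ?_ ?_ G s' hG hs' hBG (hVG.mono hw)
      · rw [Fin.sum_univ_succ] at hM
        linarith
      · exact (free_tail n M t _ hfree).mono (le_max_left _ _) hM0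
    have htail : ∀ (P : MvPolynomial (Fin (d + 1)) ℤ) (s' w : ℝ), P ≠ 0 → P.degreeOf 0 = 0 →
        0 < s' → Bd n M s' P → κ₁ ^ 2 / 64 * s' ≤ w → Van n t w P → False := by
      intro P s' w hP h0 hs' hBP hw hVP
      obtain ⟨G, hG, hBG, hVG⟩ := exists_tail n M s' w t P hP h0 hBP hVP
      exact hIH G s' w hG hs' hBG hw hVG
    have hbig : ∀ (P : MvPolynomial (Fin (d + 1)) ℤ) (s' w : ℝ), P ≠ 0 → P.degreeOf 0 ≠ 0 →
        Bd n M s' P → s' ≤ 2 / κ₁ / n 0 → 0 < w → Van n t w P → False := by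
      intro P s' w hP h0 hBP hs' hw hVP
      refine hfree P hP 0 (mem_vars_iff_degreeOf_ne_zero.2 h0) (fun k _ => hanti (Fin.zero_le k))
        (Bd_mono hM0 (hs'.trans ?_) hBP) (hVP.aeval_eq_zero hw)
      exact div_le_div_of_nonneg_right (le_max_right _ _) hn0.le
    rcases split_factor n t F hF (κ * s) (mul_pos hκ hs) hV with
      ⟨P, B, e, hPirr, he, hFe, hVP⟩ | ⟨A₁, B₁, G₁, hFe, hrel, hVA, hVB⟩
    · -- one irreducible factor
      have he0 : (0 : ℝ) < e := by exact_mod_cast he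
      have hP0 : P ≠ 0 := hPirr.ne_zero
      obtain ⟨r, hr⟩ : ∃ r : ℝ, r = c * s / e := ⟨_, rfl⟩
      have hr0 : 0 < r := by rw [hr]; positivity
      have hBP : Bd n M r P := by
        rw [hr]
        exact hc n M s hM hs.le P B F e he hF hFe hB
      have hVP' : Van n t (κ₁ * r) P := by
        have h1 : κ₁ * r = κ * s / (3 * e) := by
          rw [hκc, hr]
          field_simp
        rw [h1]
        exact hVP
      by_cases h0 : P.degreeOf 0 = 0
      · exact htail P r _ hP0 h0 hr0 hBP (by nlinarith [mul_pos hκ₁0 hr0]) hVP'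
      by_cases hsm : κ₁ * r * n 0 < 2
      · refine hbig P r (κ₁ * r) hP0 h0 hBP ?_ (mul_pos hκ₁0 hr0) hVP'
        rw [div_div, le_div_iff₀ (by positivity)]
        nlinarith
      push Not at hsm
      obtain ⟨hQ0, hQdeg, hrel⟩ := isRelPrime_pderiv P hPirr (Nat.pos_of_ne_zero h0)
      have hPdeg : (P.degreeOf 0 : ℝ) ≤ r * n 0 := hBP.1 0
      have hVQ : Van n t (κ₁ * r / 2) (pderiv 0 P) := by
        refine (hVP'.pderiv 0).mono ?_
        have h1 : 1 / (n 0 : ℝ) ≤ κ₁ * r / 2 := by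
          rw [div_le_div_iff₀ hn0 (by norm_num)]
          linarith
        linarith
      have hBQ : Bd n M (2 * r) (pderiv 0 P) := by
        refine ⟨fun k => ?_, ?_⟩
        · have h1 : ((pderiv 0 P).degreeOf k : ℝ) ≤ (P.degreeOf k : ℝ) := by
            exact_mod_cast degreeOf_pderiv_le' P 0 k
          have h2 := hBP.1 k
          have h3 : 0 ≤ r * (n k : ℝ) := by positivity
          linarith
        · refine (L1_pderiv P 0).trans ?_
          have h1 : (P.degreeOf 0 : ℝ) ≤ Real.exp (r * M) := by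
            have h2 : r * (n 0 : ℝ) ≤ r * M := mul_le_mul_of_nonneg_left hnM hr0.le
            have h3 := Real.add_one_le_exp (r * M)
            linarith
          calc (P.degreeOf 0 : ℝ) * L1 P ≤ Real.exp (r * M) * Real.exp (r * M) :=
                mul_le_mul h1 hBP.2 (L1_nonneg P) (Real.exp_pos _).le
            _ = Real.exp (2 * r * M) := by rw [← Real.exp_add]; congr 1; ring
      by_cases h0Q : (pderiv 0 P).degreeOf 0 = 0
      · exact htail _ (2 * r) _ hQ0 h0Q (by positivity) hBQ (by nlinarith [mul_pos hκ₁0 hr0]) hVQ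
      obtain ⟨N, hN⟩ : ∃ N : ℕ, N = P.degreeOf 0 + (pderiv 0 P).degreeOf 0 := ⟨_, rfl⟩
      have hN0 : (0 : ℝ) < N := by
        have : 0 < N := by omega
        exact_mod_cast this
      have hNle : (N : ℝ) ≤ 2 * (r * n 0) := by
        have h1 : (N : ℝ) ≤ 2 * (P.degreeOf 0 : ℝ) := by
          have : N ≤ 2 * P.degreeOf 0 := by omega
          exact_mod_cast this
        linarith
      have hBR := Bd_res n M (2 * r) P (pderiv 0 P) (Bd_mono hM0 (by linarith) hBP) hBQ
      have hR0 := res_ne_zero P (pderiv 0 P) hP0 hQ0 hrel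
      have hα : (1 : ℝ) ≤ κ₁ * r * n 0 / 2 := by linarith
      have hαn : κ₁ * r * n 0 / 2 / n 0 = κ₁ * r / 2 := by
        field_simp
      have hVR := van_res n (hn 0) t P (pderiv 0 P) (κ₁ * r * n 0 / 2) hα
        (by
          rw [hαn]
          exact hVP'.mono (by nlinarith [mul_pos hκ₁0 hr0]))
        (by
          rw [hαn]
          exact hVQ)
      rw [← hN] at hBR hVR
      refine hIH _ _ _ hR0 (by positivity) hBR ?_ hVR
      rw [le_div_iff₀ hn0, le_min_iff]
      have hx : 0 < r * n 0 := by positivity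
      constructor
      · have h1 : 0 ≤ (N : ℝ) * (r * n 0) * κ₁ := by positivity
        have h2 : (N : ℝ) * (r * n 0) * κ₁ * κ₁ ≤ (N : ℝ) * (r * n 0) * κ₁ * (1 / 3) :=
          mul_le_mul_of_nonneg_left hκ₁1 h1
        nlinarith
      · have h1 : (N : ℝ) * (r * n 0) ≤ 2 * (r * n 0) * (r * n 0) :=
          mul_le_mul_of_nonneg_right hNle hx.le
        have h2 : κ₁ ^ 2 * ((N : ℝ) * (r * n 0)) ≤ κ₁ ^ 2 * (2 * (r * n 0) * (r * n 0)) :=
          mul_le_mul_of_nonneg_left h1 (by positivity)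
        have h3 : 0 ≤ κ₁ ^ 2 * ((r * n 0) * (r * n 0)) := by positivity
        nlinarith
    · -- two relatively prime factors
      have hA0 : A₁ ≠ 0 := by
        rintro rfl
        exact hF (by rw [hFe, zero_mul, zero_mul])
      have hB0 : B₁ ≠ 0 := by
        rintro rfl
        exact hF (by rw [hFe, mul_zero, zero_mul])
      have hG0 : G₁ ≠ 0 := by
        rintro rfl
        exact hF (by rw [hFe, mul_zero])
      have hcs : 0 < c * s := mul_pos hc0 hs
      have hBA : Bd n M (c * s) A₁ := by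
        have h1 := hc n M s hM hs.le A₁ (B₁ * G₁) F 1 one_pos hF (by rw [hFe]; ring) hB
        rwa [Nat.cast_one, div_one] at h1
      have hBB : Bd n M (c * s) B₁ := by
        have h1 := hc n M s hM hs.le B₁ (A₁ * G₁) F 1 one_pos hF (by rw [hFe]; ring) hB
        rwa [Nat.cast_one, div_one] at h1
      have hks : 0 < κ * s := mul_pos hκ hs
      have hw : κ₁ ^ 2 / 64 * (c * s) ≤ κ * s / 3 := by
        rw [hκc]
        have h1 : 0 < κ₁ * (c * s) := by positivity
        nlinarith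
      by_cases h0A : A₁.degreeOf 0 = 0
      · exact htail A₁ (c * s) _ hA0 h0A hcs hBA hw hVA
      by_cases h0B : B₁.degreeOf 0 = 0
      · exact htail B₁ (c * s) _ hB0 h0B hcs hBB hw hVB
      by_cases hsm : κ * s * n 0 / 3 < 1
      · refine hbig A₁ (c * s) _ hA0 h0A hBA ?_ (by positivity) hVA
        rw [div_div, le_div_iff₀ (by positivity)]
        have h1 : κ * s * n 0 / 3 = c * s * (κ₁ * n 0) := by
          rw [hκc]
          ring
        rw [h1] at hsm
        linarith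
      push Not at hsm
      obtain ⟨N, hN⟩ : ∃ N : ℕ, N = A₁.degreeOf 0 + B₁.degreeOf 0 := ⟨_, rfl⟩
      have hN0 : (0 : ℝ) < N := by
        have : 0 < N := by omega
        exact_mod_cast this
      have hNle : (N : ℝ) ≤ s * n 0 := by
        have h1 : F.degreeOf 0 = A₁.degreeOf 0 + B₁.degreeOf 0 + G₁.degreeOf 0 := by
          rw [hFe, degreeOf_mul_eq (mul_ne_zero hA0 hB0) hG0, degreeOf_mul_eq hA0 hB0]
        have h2 : (N : ℝ) ≤ (F.degreeOf 0 : ℝ) := by
          have : N ≤ F.degreeOf 0 := by omega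
          exact_mod_cast this
        exact h2.trans (hB.1 0)
      have hBR := Bd_res n M (c * s) A₁ B₁ hBA hBB
      have hR0 := res_ne_zero A₁ B₁ hA0 hB0 hrel
      have hαn : κ * s * n 0 / 3 / n 0 = κ * s / 3 := by
        field_simp
      have hVR := van_res n (hn 0) t A₁ B₁ (κ * s * n 0 / 3) hsm
        (by
          rw [hαn]
          exact hVA)
        (by
          rw [hαn]
          exact hVB)
      rw [← hN] at hBR hVR
      refine hIH _ _ _ hR0 (by positivity) hBR ?_ hVR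
      rw [le_div_iff₀ hn0, le_min_iff, hκc]
      have hx : 0 < s * n 0 := by positivity
      constructor
      · have h1 : 0 ≤ (N : ℝ) * (s * n 0) * c * κ₁ := by positivity
        have h2 : (N : ℝ) * (s * n 0) * c * κ₁ * κ₁ ≤ (N : ℝ) * (s * n 0) * c * κ₁ * (1 / 3) :=
          mul_le_mul_of_nonneg_left hκ₁1 h1
        nlinarith
      · have h1 : (N : ℝ) * (s * n 0) ≤ (s * n 0) * (s * n 0) :=
          mul_le_mul_of_nonneg_right hNle hx.le
        have h2 : κ₁ ^ 2 * c * ((N : ℝ) * (s * n 0)) ≤ κ₁ ^ 2 * c * ((s * n 0) * (s * n 0)) :=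
          mul_le_mul_of_nonneg_left h1 (by positivity)
        have h3 : 0 ≤ κ₁ ^ 2 * c * ((s * n 0) * (s * n 0)) := by positivity
        have h4 : κ₁ ^ 2 * c * ((s * n 0) * (s * n 0)) ≤
            κ₁ ^ 2 * c * ((s * n 0) * (s * n 0)) * c := le_mul_of_one_le_right h3 hc1
        nlinarith

end Pool.Agent.LSharp
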