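import Pool.Agent.LSharp.HC
import Pool.Agent.LAll.NVChain

set_option autoImplicit false

/-! HC10. The zero estimate for any finite index set, and the property `NV`. -/

namespace Pool.Agent.LSharp

open MvPolynomial Pool.Agent.LAll Filter

/-- The zero estimate for a finite index set: sort the index set by decreasing `n`
(an equivalence `e : σ ≃ Fin d` with `n ∘ e.symm` antitone: `Tuple.sort` or
`Pool.Agent.DD7719.M.exists_sort`) and rename; `LAll.coeff_tay_rename` (in `NVChain`). -/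
theorem hc_fintype (σ : Type) [Fintype σ] (κ : ℝ) (hκ : 0 < κ) :
    ∃ A : ℝ, ∀ (K : Type) [Field K] [CharZero K] (n : σ → ℕ) (M : ℝ) (t : σ → K),
    (∀ k, 0 < n k) → ∑ k, (n k : ℝ) ≤ M → Free n M t A →
    ∀ (F : MvPolynomial σ ℤ) (s : ℝ), F ≠ 0 → 0 < s → Bd n M s F → ¬ Van n t (κ * s) F := by
  classical
  obtain ⟨A, hA⟩ := hc (Fintype.card σ) κ hκ
  refine ⟨A, fun K _ _ n M t hn hM hfree F s hF hs hB hV => ?_⟩
  obtain ⟨e, he⟩ := DD7719.M.exists_sort (Fintype.equivFin σ) fun k : σ => -(n k : ℝ)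
  refine hA K (fun h => n (e.symm h)) M (fun h => t (e.symm h)) (fun h => hn _) ?_ ?_ ?_
    (rename e F) s (fun h => hF (rename_injective _ e.injective (by rw [h, map_zero]))) hs ?_ ?_
  · intro h h' hh
    have h1 := he hh
    simp only [neg_le_neg_iff, Nat.cast_le] at h1
    exact h1
  · rw [Equiv.sum_comp e.symm fun k => (n k : ℝ)]
    exact hM
  · intro P hP l hl hmax hBP h0
    refine hfree (rename e.symm P)
      (fun h => hP (rename_injective _ e.symm.injective (by rw [h, map_zero])))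
      (e.symm l) ?_ ?_ ⟨?_, ?_⟩ ?_
    · have h1 := vars_rename e (rename e.symm P)
      have h2 : rename e (rename e.symm P) = P := by
        rw [rename_rename, Equiv.self_comp_symm, rename_id]
        rfl
      rw [h2] at h1
      obtain ⟨k, hk, hkl⟩ := Finset.mem_image.1 (h1 hl)
      rw [← hkl, Equiv.symm_apply_apply]
      exact hk
    · intro k hk
      obtain ⟨k', hk', rfl⟩ := Finset.mem_image.1 (vars_rename e.symm P hk)
      exact hmax k' hk'
    · intro k
      have h2 := degreeOf_rename_of_injective (p := P) e.symm.injective (e k)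
      rw [Equiv.symm_apply_apply] at h2
      rw [h2]
      have h3 := hBP.1 (e k)
      simp only [Equiv.symm_apply_apply] at h3
      exact h3
    · rw [L1_rename _ e.symm.injective]
      exact hBP.2
    · rw [aeval_rename]
      exact h0
  · refine ⟨fun h => ?_, ?_⟩
    · have h2 := degreeOf_rename_of_injective (p := F) e.injective (e.symm h)
      rw [Equiv.apply_symm_apply] at h2
      rw [h2]
      exact hB.1 (e.symm h)
    · rw [L1_rename _ e.injective]
      exact hB.2
  · intro i hi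
    rw [coeff_tay_rename] at hi
    refine (hV _ hi).trans (le_of_eq ?_)
    unfold wt
    rw [← Equiv.sum_comp e.symm fun k : σ => ((Finsupp.equivMapDomain e.symm i k : ℕ) : ℝ) / n k]
    refine Finset.sum_congr rfl fun h _ => ?_
    rw [Finsupp.equivMapDomain_apply, Equiv.symm_symm, Equiv.apply_symm_apply]

/-- **NV from genericity.** Suppose that for all `c`, `q ≥ 1` and `A` the point `t_k = tt (c k) (x k)`,
`k ∈ W`, is `Free` for most `j` with `n_k = P.n W q k`, `M = ∑ n_k`. Then `NV`. Proof: given `C` (we may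
assume `C ≥ 1`), `F` has `L1 F ≤ ∏ (deg + 1) exp (C ∑ n) ≤ exp (2 C ∑ n)` (`L1_le_of_coeff`,
`deg + 1 ≤ exp deg`), so `Bd n M (2 C) F`; `hc_fintype` with `κ = 1 / (2 C)`, `s = 2 C`; `P.n W q k ≥ 1`
for most `j` since the heights are positive (`Pt.n_bounds`). -/
theorem nv_of_free {ι J : Type} [Fintype ι] [DecidableEq ι] (𝒰 : Ultrafilter J) (P : J → Pt ι)
    (W : Finset ι) (h1 : ∀ k ∈ W, Tendsto (fun j => (P j).H k) (𝒰 : Filter J) atTop)
    (hfree : ∀ (c : ι → Fin 3) (q A : ℝ), 1 ≤ q → ∀ᶠ j in (𝒰 : Filter J),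
      Free (fun k : {k // k ∈ W} => (P j).n W q k) (∑ k : {k // k ∈ W}, ((P j).n W q k : ℝ))
        (fun k : {k // k ∈ W} => tt (c k) ((P j).x k)) A) : NV 𝒰 P W := by
  classical
  intro c C q hq
  obtain ⟨C', hC'⟩ : ∃ C' : ℝ, C' = max C 1 := ⟨_, rfl⟩
  have hC1 : 1 ≤ C' := by rw [hC']; exact le_max_right _ _
  have hCC : C ≤ C' := by rw [hC']; exact le_max_left _ _
  have hC0 : 0 < C' := by linarith
  obtain ⟨A, hA⟩ := hc_fintype {k // k ∈ W} (1 / (2 * C')) (by positivity)
  have E1 : ∀ᶠ j in (𝒰 : Filter J), ∀ k ∈ W, 1 ≤ (P j).H k :=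
    (Filter.eventually_all_finset W).2 fun k hk => (h1 k hk).eventually_ge_atTop _
  filter_upwards [E1, hfree c q A hq] with j hE1 hF1 F hF hdeg hcoef
  have hn0 : ∀ k : {k // k ∈ W}, (1 : ℝ) ≤ (P j).n W q k := fun k =>
    hq.trans ((P j).n_bounds W q hq k k.2 hE1).2.1
  have hsum0 : (0 : ℝ) ≤ ∑ k : {k // k ∈ W}, ((P j).n W q k : ℝ) :=
    Finset.sum_nonneg fun k _ => Nat.cast_nonneg _
  have hd1 : ∀ k, (F.degreeOf k : ℝ) ≤ C' * (P j).n W q k := fun k =>
    (hdeg k).trans (mul_le_mul_of_nonneg_right hCC (Nat.cast_nonneg _))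
  have hL1 : L1 F ≤ Real.exp (2 * C' * ∑ k : {k // k ∈ W}, ((P j).n W q k : ℝ)) := by
    have h2 := L1_le_of_coeff F (fun k => F.degreeOf k) (fun k => le_rfl) _ hcoef
    refine h2.trans ?_
    have h3 : (∏ k : {k // k ∈ W}, ((F.degreeOf k : ℝ) + 1)) ≤
        Real.exp (C' * ∑ k : {k // k ∈ W}, ((P j).n W q k : ℝ)) := by
      rw [Finset.mul_sum, Real.exp_sum]
      refine Finset.prod_le_prod (fun k _ => by positivity) fun k _ => ?_
      exact (Real.add_one_le_exp _).trans (Real.exp_le_exp.2 (hd1 k))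
    refine (mul_le_mul h3 (Real.exp_le_exp.2 (mul_le_mul_of_nonneg_right hCC hsum0))
      (Real.exp_pos _).le (Real.exp_pos _).le).trans (le_of_eq ?_)
    rw [← Real.exp_add]
    congr 1
    ring
  have hB : Bd (fun k : {k // k ∈ W} => (P j).n W q k)
      (∑ k : {k // k ∈ W}, ((P j).n W q k : ℝ)) (2 * C') F := by
    refine ⟨fun k => (hd1 k).trans ?_, hL1⟩
    have h3 := hn0 k
    simp only
    nlinarith
  have hnV := hA (P j).K (fun k : {k // k ∈ W} => (P j).n W q k)
    (∑ k : {k // k ∈ W}, ((P j).n W q k : ℝ))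
    (fun k : {k // k ∈ W} => tt (c k) ((P j).x k))
    (fun k => by
      have h3 := hn0 k
      have h4 : 1 ≤ (P j).n W q k := by exact_mod_cast h3
      exact h4) le_rfl hF1 F (2 * C') hF (by positivity) hB
  by_contra hcon
  refine hnV fun i hi => ?_
  have h5 : 1 / (2 * C') * (2 * C') = 1 := by field_simp
  rw [h5]
  by_contra h6
  exact hcon ⟨i, (not_le.1 h6).le, hi⟩

end Pool.Agent.LSharp
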