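import Pool.Agent.LSharp.NVXInit
import Pool.Agent.LSharp.HCF

set_option autoImplicit false

/-! NVX5. **Nonvanishing on a branch.** -/

namespace Pool.Agent.LSharp

open MvPowerSeries

variable {β M A : Type} [Fintype β] [Fintype M] [Fintype A] [DecidableEq β] [DecidableEq M]
  [DecidableEq A]

/-- the constants -/
private theorem nvx_C_int {σ : Type} (r : ℤ) :
    (MvPolynomial.C r : MvPolynomial σ ℤ) = (r : MvPolynomial σ ℤ) :=
  map_intCast MvPolynomial.C r

/-- the Taylor expansion of a nonzero polynomial is not zero -/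
private theorem nvx_tay_ne_zero {F : Type} [Field F] [CharZero F] (t : β → F)
    (Q : MvPolynomial β ℤ) (hQ : Q ≠ 0) : Pool.Agent.LAll.tay t Q ≠ 0 := by
  intro h0
  apply hQ
  have h1 : (MvPolynomial.aeval (R := F) fun k => (MvPolynomial.X k - MvPolynomial.C (t k) :
      MvPolynomial β F)) (Pool.Agent.LAll.tay t Q) =
      MvPolynomial.map (Int.castRingHom F) Q := by
    have h2 : ((MvPolynomial.aeval (R := F) fun k => (MvPolynomial.X k - MvPolynomial.C (t k) :
        MvPolynomial β F)).toRingHom).comp ((MvPolynomial.aeval (R := ℤ) fun k =>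
          (MvPolynomial.X k + MvPolynomial.C (t k) : MvPolynomial β F)).toRingHom) =
        MvPolynomial.map (Int.castRingHom F) := by
      refine MvPolynomial.ringHom_ext (fun r => ?_) fun b => ?_
      · rw [nvx_C_int r, map_intCast, map_intCast]
      · show (MvPolynomial.aeval (R := F) fun k => (MvPolynomial.X k - MvPolynomial.C (t k) :
          MvPolynomial β F)) ((MvPolynomial.aeval (R := ℤ) fun k =>
          (MvPolynomial.X k + MvPolynomial.C (t k) : MvPolynomial β F)) (MvPolynomial.X b)) = _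
        rw [MvPolynomial.aeval_X, map_add, MvPolynomial.aeval_X, MvPolynomial.map_X]
        have h3 : (MvPolynomial.aeval (R := F) fun k => (MvPolynomial.X k -
            MvPolynomial.C (t k) : MvPolynomial β F)) (MvPolynomial.C (t b)) =
            MvPolynomial.C (t b) := MvPolynomial.aeval_C _ _
        rw [h3, sub_add_cancel]
    exact RingHom.congr_fun h2 Q
  rw [h0, map_zero] at h1
  exact MvPolynomial.map_injective _ Int.cast_injective (by rw [← h1, map_zero])

/-- `evT t` is injective and its coefficients are the Taylor coefficients (`tay` is the substitution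
`X_b + t_b` with values in polynomials; compare the two homomorphisms, `MvPolynomial.coe`,
`MvPolynomial.coeff_coe`; `tay_ne_zero`). -/
theorem coeff_evT {F : Type} [Field F] (t : β → F) (Q : MvPolynomial β ℤ) (i : β →₀ ℕ) :
    coeff i (evT t Q) = (Pool.Agent.LAll.tay t Q).coeff i := by
  have h1 : (evT t : MvPolynomial β ℤ →+* MvPowerSeries β F) =
      (MvPolynomial.coeToMvPowerSeries.ringHom (R := F) (σ := β)).comp
        ((MvPolynomial.aeval (R := ℤ) fun k => (MvPolynomial.X k + MvPolynomial.C (t k) :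
          MvPolynomial β F)).toRingHom) := by
    refine MvPolynomial.ringHom_ext (fun r => ?_) fun b => ?_
    · rw [nvx_C_int r, map_intCast, map_intCast]
    · show (MvPolynomial.aeval (R := ℤ) fun b =>
        (MvPowerSeries.C (t b) + MvPowerSeries.X b : MvPowerSeries β F)) (MvPolynomial.X b) =
        MvPolynomial.coeToMvPowerSeries.ringHom ((MvPolynomial.aeval (R := ℤ) fun k =>
          (MvPolynomial.X k + MvPolynomial.C (t k) : MvPolynomial β F)) (MvPolynomial.X b))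
      rw [MvPolynomial.aeval_X, MvPolynomial.aeval_X,
        MvPolynomial.coeToMvPowerSeries.ringHom_apply, MvPolynomial.coe_add, MvPolynomial.coe_X,
        MvPolynomial.coe_C, add_comm]
  rw [h1]
  exact MvPolynomial.coeff_coe _ _

theorem evT_ne_zero {F : Type} [Field F] [CharZero F] (t : β → F) (Q : MvPolynomial β ℤ)
    (hQ : Q ≠ 0) : evT t Q ≠ 0 := by
  intro h0
  apply nvx_tay_ne_zero t Q hQ
  ext i
  rw [← coeff_evT, h0, map_zero, MvPolynomial.coeff_zero]

/-- **Nonvanishing.** For all constants there is `A₀` such that: if `t` is `Free` (with `A₀`), the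
auxiliary function `∑ x, c x * ∏ s, FA s ^ al x s` on the branch is zero or has a coefficient `≠ 0` of weight
`< 1`.

Proof. Suppose it is `≠ 0` and in `ordI`. `init_poly` gives `G`, `evTZ t Θ G` = (product of the
`evT t (Δ a) ^ E a`, which are `≠ 0` by `evT_ne_zero`; domain) * (function), so it is `≠ 0` and in `ordI`;
`eliminate` (its `C₁` is the `C₂` of `init_poly`) gives `Q` with `Van (fun b => n (cb b)) t 1 Q` (`coeff_evT`) and
`Bd (fun b => n (cb b)) M C₂ Q` with `M = card β * D * M0 + M0` (so `∑_b n (cb b) ≤ M` as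
`n a ≤ n a κ a ≤ D M0`, and `M ≥ M0`; `C₂ > 0` may be assumed). `hc_fintype β κ'` with `κ' = 1 / C₂` and
`s = C₂`: contradiction to `Free` with its `A`. -/
theorem nvx (cb : β → M) (ca : A → M) (D : ℕ) (C₁ : ℝ) (hC₁ : 0 ≤ C₁) : ∃ A₀ : ℝ,
    ∀ (F : Type) [Field F] [CharZero F] (t : β → F) (n : M → ℕ) (κ : M → ℝ) (M0 : ℝ),
    (∀ a, 1 ≤ n a) → (∀ a, 1 ≤ κ a) → (∀ a, n a * κ a ≤ D * M0) → 0 ≤ M0 →
    Free (fun b => n (cb b)) (Fintype.card β * D * M0 + M0) t A₀ →
    ∀ (Θ : M → MvPowerSeries β F) (Pi : M → Polynomial (MvPolynomial β ℤ))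
      (Δ : M → MvPolynomial β ℤ) (N : A → Polynomial (MvPolynomial β ℤ))
      (FA : A → MvPowerSeries β F),
    (∀ a, 0 < (Pi a).natDegree ∧ (Pi a).natDegree ≤ D) →
    (∀ a k, (∀ b ∈ ((Pi a).coeff k).vars, cb b = a) ∧ ((Pi a).coeff k).totalDegree ≤ D ∧
      L1 ((Pi a).coeff k) ≤ Real.exp (D * κ a)) →
    (∀ a, (Pi a).eval₂ (evT t) (Θ a) = 0) →
    (∀ a, Δ a ≠ 0 ∧ (∀ b ∈ (Δ a).vars, cb b = a) ∧ (Δ a).totalDegree ≤ D ∧
      L1 (Δ a) ≤ Real.exp (D * κ a)) →
    (∀ s, (N s).natDegree ≤ D) →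
    (∀ s k, (∀ b ∈ ((N s).coeff k).vars, cb b = ca s) ∧ ((N s).coeff k).totalDegree ≤ D ∧
      L1 ((N s).coeff k) ≤ Real.exp (D * κ (ca s))) →
    (∀ s, evT t (Δ (ca s)) * FA s = (N s).eval₂ (evT t) (Θ (ca s))) →
    ∀ (X : Type) [Fintype X] (c : X → ℤ) (al : X → A → ℕ),
      (∀ x, |(c x : ℝ)| ≤ Real.exp (C₁ * M0)) → (Fintype.card X : ℝ) ≤ Real.exp (C₁ * M0) →
      (∀ x a, ((∑ s, if ca s = a then al x s else 0 : ℕ) : ℝ) ≤ C₁ * n a) →
      (∀ i, coeff i (∑ x, (c x : MvPowerSeries β F) * ∏ s, FA s ^ al x s) ≠ 0 →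
        1 ≤ wt (fun b => n (cb b)) i) →
      ∑ x, (c x : MvPowerSeries β F) * ∏ s, FA s ^ al x s = 0 := by
  obtain ⟨C₂, hC₂, hinit⟩ := init_poly cb ca D C₁ hC₁
  obtain ⟨C₃, hC₃, helim⟩ := eliminate cb D C₂ hC₂
  set C : ℝ := max C₃ 1 with hC
  have hC1 : 1 ≤ C := le_max_right _ _
  have hC3 : C₃ ≤ C := le_max_left _ _
  have hC0 : 0 < C := by linarith
  obtain ⟨A₀, hA₀⟩ := hc_fintype β (1 / C) (by positivity)
  refine ⟨A₀, ?_⟩
  intro F _ _ t n κ M0 hn hκ hnκ hM0 hfree Θ Pi Δ N FA hPi1 hPi2 hPi3 hΔ hN1 hN2 hFA X _ c al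
    hc hX hal hord
  by_contra hne
  obtain ⟨G, E, hG, hGe⟩ := hinit F t n κ M0 hn hκ hnκ hM0 Θ Δ N FA (fun a => (hΔ a).2) hN1 hN2
    hFA X c al hc hX hal
  have hprod : (∏ a, evT t (Δ a) ^ E a) ≠ 0 :=
    Finset.prod_ne_zero_iff.2 fun a _ => pow_ne_zero _ (evT_ne_zero t _ (hΔ a).1)
  have hG0 : evTZ t Θ G ≠ 0 := by
    rw [hGe]
    exact mul_ne_zero hprod hne
  have hGI : evTZ t Θ G ∈ ordI (F := F) (fun b => n (cb b)) := by
    rw [hGe]
    refine Ideal.mul_mem_left _ _ ?_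
    exact hord
  obtain ⟨Q, hQ0, hQI, hQd, hQL⟩ := helim F t n κ M0 hn hκ hnκ hM0 Θ Pi hPi1 hPi2 hPi3 G hG hG0
    hGI
  have hQne : Q ≠ 0 := by
    rintro rfl
    exact hQ0 (map_zero _)
  have hD0 : (0 : ℝ) ≤ D := Nat.cast_nonneg _
  have hM : M0 ≤ Fintype.card β * D * M0 + M0 := by
    have : (0 : ℝ) ≤ Fintype.card β * D * M0 := by positivity
    linarith
  have hna : ∀ a, (n a : ℝ) ≤ D * M0 := by
    intro a
    refine le_trans ?_ (hnκ a)
    have h1 : (0 : ℝ) ≤ n a := Nat.cast_nonneg _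
    have h2 := hκ a
    nlinarith
  have hsum : ∑ b, (n (cb b) : ℝ) ≤ Fintype.card β * D * M0 + M0 := by
    calc ∑ b, (n (cb b) : ℝ) ≤ ∑ _b : β, (D * M0 : ℝ) := Finset.sum_le_sum fun b _ => hna _
      _ = Fintype.card β * D * M0 := by
        rw [Finset.sum_const, nsmul_eq_mul, Finset.card_univ]
        ring
      _ ≤ _ := by linarith
  refine hA₀ F (fun b => n (cb b)) (Fintype.card β * D * M0 + M0) t (fun b => hn _) hsum hfree Q C
    hQne hC0 ⟨fun b => ?_, ?_⟩ ?_
  · exact (hQd b).trans (mul_le_mul_of_nonneg_right hC3 (Nat.cast_nonneg _))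
  · refine hQL.trans (Real.exp_le_exp.2 ?_)
    exact mul_le_mul hC3 hM hM0 hC0.le
  · intro i hi
    rw [← coeff_evT] at hi
    have h1 : 1 / C * C = 1 := by field_simp
    rw [h1]
    exact hQI i hi

end Pool.Agent.LSharp
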