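import Pool.Agent.LSharp.NVXNorm
import Pool.Agent.LSharp.Ord

set_option autoImplicit false

/-! NVX3. Elimination of the primitive elements of all classes. -/

namespace Pool.Agent.LSharp

open MvPowerSeries

variable {β M F : Type} [Fintype β] [Fintype M] [DecidableEq β] [DecidableEq M] [Field F]

/-- The evaluation of integral polynomials in the `T_b` and the `Z_a` at `t + ζ` and `Θ`. -/
noncomputable def evTZ (t : β → F) (Θ : M → MvPowerSeries β F) :
    MvPolynomial (β ⊕ M) ℤ →+* MvPowerSeries β F :=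
  (MvPolynomial.aeval (R := ℤ) (Sum.elim
    (fun b => (MvPowerSeries.C (t b) + MvPowerSeries.X b : MvPowerSeries β F)) Θ)).toRingHom

/-- The bounds of a polynomial in the `T_b`, `Z_a`. -/
def Bz (cb : β → M) (n : M → ℕ) (M0 C : ℝ) (G : MvPolynomial (β ⊕ M) ℤ) : Prop :=
  (∀ b, (G.degreeOf (Sum.inl b) : ℝ) ≤ C * n (cb b)) ∧
    (∀ a, (G.degreeOf (Sum.inr a) : ℝ) ≤ C * n a) ∧ L1 G ≤ Real.exp (C * M0)

omit [Fintype β] [DecidableEq β] in
private theorem evT_eq (t : β → F) (Q : MvPolynomial β ℤ) :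
    evT t Q = ((Pool.Agent.LAll.tay t Q : MvPolynomial β F) : MvPowerSeries β F) := by
  unfold evT Pool.Agent.LAll.tay
  simp only [AlgHom.toRingHom_eq_coe, RingHom.coe_coe]
  induction Q using MvPolynomial.induction_on with
  | C a =>
    simp only [eq_intCast, map_intCast]
    exact (map_intCast (MvPolynomial.coeToMvPowerSeries.ringHom (R := F) (σ := β)) a).symm
  | add p q hp hq => rw [map_add, map_add, MvPolynomial.coe_add, hp, hq]
  | mul_X p i hp =>
    rw [map_mul, map_mul, MvPolynomial.coe_mul, hp]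
    simp [add_comm]

omit [DecidableEq β] in
private theorem evT_ne [CharZero F] (t : β → F) (Q : MvPolynomial β ℤ) (hQ : Q ≠ 0) :
    evT t Q ≠ 0 := by
  rw [evT_eq]
  intro h
  refine tay_ne_zero t Q hQ (MvPolynomial.coe_injective β F ?_)
  rw [h, MvPolynomial.coe_zero]

omit [Fintype β] [Fintype M] [DecidableEq β] [DecidableEq M] in
private theorem evTZ_inl (t : β → F) (Θ : M → MvPowerSeries β F) (Q : MvPolynomial β ℤ) :
    evTZ t Θ (MvPolynomial.rename Sum.inl Q) = evT t Q := by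
  unfold evTZ evT
  simp only [AlgHom.toRingHom_eq_coe, RingHom.coe_coe]
  rw [MvPolynomial.aeval_rename]
  rfl

omit [Fintype β] [Fintype M] [DecidableEq β] [DecidableEq M] in
private theorem evTZ_inr (t : β → F) (Θ : M → MvPowerSeries β F) (a : M) :
    evTZ t Θ (MvPolynomial.X (Sum.inr a)) = Θ a := by
  unfold evTZ
  simp

/-- The bound of the norm. -/
private theorem norm_bd (D g E na : ℕ) (C₁ κ M0 X : ℝ) (hC₁ : 0 ≤ C₁) (hg : 0 < g) (hgD : g ≤ D)
    (hna : 1 ≤ na) (hκ : 1 ≤ κ) (hM : na * κ ≤ D * M0) (hM0 : 0 ≤ M0) (hE : (E : ℝ) ≤ C₁ * na)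
    (hX0 : 0 ≤ X) (hX : X ≤ Real.exp (C₁ * M0)) :
    (g.factorial : ℝ) * (1 + X * (2 * ((D + 1) * Real.exp (D * κ))) ^ (E + g)) ^ g ≤
      Real.exp ((D ^ 3 + D * (D + C₁ + (C₁ + D) * (3 * D + 2) * D)) * M0) := by
  have hD : (1 : ℝ) ≤ D := by exact_mod_cast hg.trans_le hgD
  have hna' : (1 : ℝ) ≤ na := by exact_mod_cast hna
  have h1 : (1 : ℝ) ≤ D * M0 := by nlinarith
  -- the power
  have h2 : (2 : ℝ) * ((D + 1) * Real.exp (D * κ)) ≤ Real.exp ((3 * D + 2) * κ) := by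
    have h3 : (2 * (D + 1) : ℝ) ≤ Real.exp ((2 * D + 2) * κ) := by
      have h4 := Real.add_one_le_exp ((2 * D + 2) * κ : ℝ)
      nlinarith
    calc (2 : ℝ) * ((D + 1) * Real.exp (D * κ)) = (2 * (D + 1)) * Real.exp (D * κ) := by ring
      _ ≤ Real.exp ((2 * D + 2) * κ) * Real.exp (D * κ) :=
        mul_le_mul_of_nonneg_right h3 (Real.exp_pos _).le
      _ = Real.exp ((3 * D + 2) * κ) := by rw [← Real.exp_add]; ring_nf
  have h5 : ((2 : ℝ) * ((D + 1) * Real.exp (D * κ))) ^ (E + g) ≤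
      Real.exp ((C₁ + D) * (3 * D + 2) * D * M0) := by
    refine (pow_le_pow_left₀ (by positivity) h2 _).trans ?_
    rw [← Real.exp_nat_mul]
    refine Real.exp_le_exp.2 ?_
    have h6 : ((E + g : ℕ) : ℝ) ≤ (C₁ + D) * na := by
      push_cast
      have : (g : ℝ) ≤ D := by exact_mod_cast hgD
      nlinarith
    calc ((E + g : ℕ) : ℝ) * ((3 * D + 2) * κ) ≤ ((C₁ + D) * na) * ((3 * D + 2) * κ) :=
          mul_le_mul_of_nonneg_right h6 (by positivity)
      _ = (C₁ + D) * (3 * D + 2) * (na * κ) := by ring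
      _ ≤ (C₁ + D) * (3 * D + 2) * (D * M0) := mul_le_mul_of_nonneg_left hM (by positivity)
      _ = _ := by ring
  set K1 : ℝ := (C₁ + D) * (3 * D + 2) * D with hK1
  have hK10 : 0 ≤ K1 := by positivity
  have h7 : 1 + X * (2 * ((D + 1) * Real.exp (D * κ))) ^ (E + g) ≤
      Real.exp ((D + C₁ + K1) * M0) := by
    have h8 : X * (2 * ((D + 1) * Real.exp (D * κ))) ^ (E + g) ≤
        Real.exp (C₁ * M0) * Real.exp (K1 * M0) :=
      mul_le_mul hX h5 (by positivity) (Real.exp_pos _).le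
    rw [← Real.exp_add] at h8
    have h9 : (1 : ℝ) ≤ Real.exp (C₁ * M0 + K1 * M0) := Real.one_le_exp (by positivity)
    have h10 : (2 : ℝ) ≤ Real.exp (D * M0) := by
      have := Real.add_one_le_exp (D * M0 : ℝ)
      linarith
    calc 1 + X * (2 * ((D + 1) * Real.exp (D * κ))) ^ (E + g)
        ≤ 2 * Real.exp (C₁ * M0 + K1 * M0) := by linarith
      _ ≤ Real.exp (D * M0) * Real.exp (C₁ * M0 + K1 * M0) :=
        mul_le_mul_of_nonneg_right h10 (Real.exp_pos _).le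
      _ = _ := by rw [← Real.exp_add]; ring_nf
  have h11 : (1 + X * (2 * ((D + 1) * Real.exp (D * κ))) ^ (E + g)) ^ g ≤
      Real.exp (D * (D + C₁ + K1) * M0) := by
    refine (pow_le_pow_left₀ (by positivity) h7 _).trans ?_
    rw [← Real.exp_nat_mul]
    refine Real.exp_le_exp.2 ?_
    have : (g : ℝ) ≤ D := by exact_mod_cast hgD
    calc (g : ℝ) * ((D + C₁ + K1) * M0) ≤ D * ((D + C₁ + K1) * M0) :=
          mul_le_mul_of_nonneg_right this (by positivity)
      _ = _ := by ring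
  have h12 : (g.factorial : ℝ) ≤ Real.exp (D ^ 3 * M0) := by
    have h13 : (g.factorial : ℝ) ≤ (D : ℝ) ^ D := by
      have h14 : g.factorial ≤ D ^ D :=
        (Nat.factorial_le hgD).trans (Nat.factorial_le_pow D)
      exact_mod_cast h14
    have h15 : (D : ℝ) ≤ Real.exp D := by
      have := Real.add_one_le_exp (D : ℝ)
      linarith
    refine h13.trans ((pow_le_pow_left₀ (by positivity) h15 _).trans ?_)
    rw [← Real.exp_nat_mul]
    refine Real.exp_le_exp.2 ?_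
    calc (D : ℝ) * D = D ^ 2 * 1 := by ring
      _ ≤ D ^ 2 * (D * M0) := mul_le_mul_of_nonneg_left h1 (by positivity)
      _ = _ := by ring
  calc (g.factorial : ℝ) * (1 + X * (2 * ((D + 1) * Real.exp (D * κ))) ^ (E + g)) ^ g
      ≤ Real.exp (D ^ 3 * M0) * Real.exp (D * (D + C₁ + K1) * M0) :=
        mul_le_mul h12 h11 (by positivity) (Real.exp_pos _).le
    _ = _ := by rw [← Real.exp_add]; ring_nf

omit [Fintype M] in
/-- One step. -/
private theorem elim_step (cb : β → M) (D : ℕ) (C₁ : ℝ) (hC₁ : 0 ≤ C₁) (a : M) : ∃ C₂ : ℝ, 0 ≤ C₂ ∧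
    ∀ (F : Type) [Field F] [CharZero F] (t : β → F) (n : M → ℕ) (κ : M → ℝ) (M0 : ℝ),
    (∀ a, 1 ≤ n a) → (∀ a, 1 ≤ κ a) → (∀ a, n a * κ a ≤ D * M0) → 0 ≤ M0 →
    ∀ (Θ : M → MvPowerSeries β F) (Pi : M → Polynomial (MvPolynomial β ℤ)),
    (∀ a, 0 < (Pi a).natDegree ∧ (Pi a).natDegree ≤ D) →
    (∀ a k, (∀ b ∈ ((Pi a).coeff k).vars, cb b = a) ∧ ((Pi a).coeff k).totalDegree ≤ D ∧
      L1 ((Pi a).coeff k) ≤ Real.exp (D * κ a)) →
    (∀ a, (Pi a).eval₂ (evT t) (Θ a) = 0) →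
    ∀ G : MvPolynomial (β ⊕ M) ℤ, Bz cb n M0 C₁ G → evTZ t Θ G ≠ 0 →
      evTZ t Θ G ∈ ordI (F := F) (fun b => n (cb b)) →
      ∃ Q : MvPolynomial (β ⊕ M) ℤ, Bz cb n M0 C₂ Q ∧ evTZ t Θ Q ≠ 0 ∧
        evTZ t Θ Q ∈ ordI (F := F) (fun b => n (cb b)) ∧ Q.degreeOf (Sum.inr a) = 0 ∧
        ∀ a', G.degreeOf (Sum.inr a') = 0 → Q.degreeOf (Sum.inr a') = 0 := by
  refine ⟨D * (C₁ + (C₁ + D) * D) + (D ^ 3 + D * (D + C₁ + (C₁ + D) * (3 * D + 2) * D)),
    by positivity, ?_⟩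
  intro F _ _ t n κ M0 hn hκ hM hM0 Θ Pi hPi hcoef hroot G hG hG0 hGI
  obtain ⟨N, hNdeg, hNB, hNev⟩ := extract G (Sum.inr a)
  have hinj : Function.Injective (MvPolynomial.rename (R := ℤ) (Sum.inl : β → β ⊕ M)) :=
    MvPolynomial.rename_injective _ Sum.inl_injective
  let ρ : MvPolynomial β ℤ →+* MvPolynomial (β ⊕ M) ℤ :=
    (MvPolynomial.rename (R := ℤ) (Sum.inl : β → β ⊕ M)).toRingHom
  have hρ : Function.Injective ρ := hinj
  set P : Polynomial (MvPolynomial (β ⊕ M) ℤ) := (Pi a).map ρ with hPdef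
  have hPdeg : P.natDegree = (Pi a).natDegree := Polynomial.natDegree_map_eq_of_injective hρ _
  have hPne : Pi a ≠ 0 := by
    intro h
    have := (hPi a).1
    rw [h, Polynomial.natDegree_zero] at this
    omega
  have hcomp : (evTZ t Θ).comp ρ = evT t := RingHom.ext fun q => evTZ_inl t Θ q
  have hlead : evTZ t Θ P.leadingCoeff ≠ 0 := by
    rw [hPdef, Polynomial.leadingCoeff_map_of_injective hρ, ← RingHom.comp_apply, hcomp]
    exact evT_ne t _ (Polynomial.leadingCoeff_ne_zero.2 hPne)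
  have hPr : P.eval₂ (evTZ t Θ) (Θ a) = 0 := by
    rw [hPdef, Polynomial.eval₂_map, hcomp]
    exact hroot a
  have hNe : N.eval₂ (evTZ t Θ) (Θ a) = evTZ t Θ G := by
    rw [← evTZ_inr t Θ a]
    exact hNev _ _
  have hPB : PB (fun x : β ⊕ M => Sum.elim (fun b => if cb b = a then D else 0) (fun _ => 0) x)
      ((D + 1) * Real.exp (D * κ a)) P := by
    have hc : ∀ k, P.coeff k = MvPolynomial.rename Sum.inl ((Pi a).coeff k) := fun k => by
      rw [hPdef, Polynomial.coeff_map]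
      rfl
    constructor
    · rintro k (b | b)
      · rw [hc, MvPolynomial.degreeOf_rename_of_injective Sum.inl_injective]
        simp only [Sum.elim_inl]
        split_ifs with h
        · exact (MvPolynomial.degreeOf_le_totalDegree _ _).trans (hcoef a k).2.1
        · refine Nat.le_zero.2 ?_
          by_contra hne
          exact h ((hcoef a k).1 b (MvPolynomial.mem_vars_iff_degreeOf_ne_zero.2 hne))
      · rw [hc]
        simp only [Sum.elim_inr]
        refine Nat.le_zero.2 ?_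
        by_contra hne
        have h1 : (Sum.inr b : β ⊕ M) ∈ (MvPolynomial.rename Sum.inl ((Pi a).coeff k)).vars :=
          MvPolynomial.mem_vars_iff_degreeOf_ne_zero.2 hne
        have h2 := MvPolynomial.vars_rename _ _ h1
        rw [Finset.mem_image] at h2
        obtain ⟨c, -, hc⟩ := h2
        cases hc
    · calc ∑ k ∈ P.support, L1 (P.coeff k) ≤ ∑ k ∈ P.support, Real.exp (D * κ a) := by
            refine Finset.sum_le_sum fun k _ => ?_
            rw [hc, L1_rename _ Sum.inl_injective]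
            exact (hcoef a k).2.2
        _ = (P.support.card : ℝ) * Real.exp (D * κ a) := by
            rw [Finset.sum_const, nsmul_eq_mul]
        _ ≤ (D + 1) * Real.exp (D * κ a) := by
            refine mul_le_mul_of_nonneg_right ?_ (Real.exp_pos _).le
            have h1 : P.support.card ≤ P.natDegree + 1 := by
              have := Finset.card_le_card P.supp_subset_range_natDegree_succ
              rwa [Finset.card_range] at this
            have h2 : P.support.card ≤ D + 1 := by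
              have := (hPi a).2
              omega
            exact_mod_cast h2
  have : IsDomain (MvPowerSeries β F) := NoZeroDivisors.to_isDomain _
  obtain ⟨c, hc0, hcdvd, hcdeg, hcL⟩ := norm_step (evTZ t Θ) (Θ a) P N (hPdeg ▸ (hPi a).1) hlead hPr
    (G.degreeOf (Sum.inr a)) hNdeg (hNe ▸ hG0) _ _ _ _ hNB hPB
  rw [hNe] at hcdvd
  rw [hPdeg] at hcdeg hcL
  set g := (Pi a).natDegree with hg
  have hgD : g ≤ D := (hPi a).2
  have hgD' : (g : ℝ) ≤ D := by exact_mod_cast hgD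
  have hE := hG.2.1 a
  have hna : ∀ a, (1 : ℝ) ≤ n a := fun a => by exact_mod_cast hn a
  have hpos : (0 : ℝ) ≤ D ^ 3 + D * (D + C₁ + (C₁ + D) * (3 * D + 2) * D) := by positivity
  refine ⟨c, ⟨?_, ?_, ?_⟩, hc0, ?_, ?_, ?_⟩
  · intro b
    have h1 := hcdeg (Sum.inl b)
    simp only [reduceCtorEq, if_false, Sum.elim_inl] at h1
    have h2 := hG.1 b
    have h3 : (c.degreeOf (Sum.inl b) : ℝ) ≤ g * (G.degreeOf (Sum.inl b) +
        (G.degreeOf (Sum.inr a) + g) * (if cb b = a then D else 0 : ℕ)) := by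
      exact_mod_cast h1
    have hnb := hna (cb b)
    have h4 : (c.degreeOf (Sum.inl b) : ℝ) ≤ D * (C₁ + (C₁ + D) * D) * n (cb b) := by
      refine h3.trans ?_
      have h5 : ((G.degreeOf (Sum.inr a) + g) * (if cb b = a then D else 0 : ℕ) : ℝ) ≤
          (C₁ + D) * D * n (cb b) := by
        split_ifs with h
        · rw [h]
          have h6 : (G.degreeOf (Sum.inr a) : ℝ) + g ≤ (C₁ + D) * n a := by
            have := hna a
            nlinarith
          calc ((G.degreeOf (Sum.inr a) : ℝ) + g) * D ≤ (C₁ + D) * n a * D :=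
                mul_le_mul_of_nonneg_right h6 (Nat.cast_nonneg _)
            _ = _ := by ring
        · rw [Nat.cast_zero, mul_zero]
          positivity
      calc (g : ℝ) * (G.degreeOf (Sum.inl b) +
            (G.degreeOf (Sum.inr a) + g) * (if cb b = a then D else 0 : ℕ))
          ≤ D * (C₁ * n (cb b) + (C₁ + D) * D * n (cb b)) :=
            mul_le_mul hgD' (add_le_add h2 h5) (by positivity) (Nat.cast_nonneg _)
        _ = _ := by ring
    refine h4.trans (mul_le_mul_of_nonneg_right ?_ (Nat.cast_nonneg _))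
    linarith
  · intro a'
    have h1 := hcdeg (Sum.inr a')
    simp only [Sum.elim_inr, mul_zero, add_zero] at h1
    have h3 : (c.degreeOf (Sum.inr a') : ℝ) ≤ D * C₁ * n a' := by
      split_ifs at h1 with h
      · rw [mul_zero] at h1
        rw [Nat.le_zero.1 h1, Nat.cast_zero]
        positivity
      · have h2 := hG.2.1 a'
        calc (c.degreeOf (Sum.inr a') : ℝ) ≤ g * G.degreeOf (Sum.inr a') := by exact_mod_cast h1
          _ ≤ D * (C₁ * n a') := mul_le_mul hgD' h2 (Nat.cast_nonneg _) (Nat.cast_nonneg _)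
          _ = _ := by ring
    refine h3.trans (mul_le_mul_of_nonneg_right ?_ (Nat.cast_nonneg _))
    have : (0 : ℝ) ≤ D * ((C₁ + D) * D) := by positivity
    nlinarith
  · have h1 := norm_bd D g (G.degreeOf (Sum.inr a)) (n a) C₁ (κ a) M0 (L1 G) hC₁ (hPi a).1 hgD
      (hn a) (hκ a) (hM a) hM0 hE (L1_nonneg G) hG.2.2
    refine hcL.trans (h1.trans (Real.exp_le_exp.2 (mul_le_mul_of_nonneg_right ?_ hM0)))
    have : (0 : ℝ) ≤ D * (C₁ + (C₁ + D) * D) := by positivity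
    linarith
  · obtain ⟨w, hw⟩ := hcdvd
    rw [hw]
    exact Ideal.mul_mem_right _ _ hGI
  · have h1 := hcdeg (Sum.inr a)
    simpa using h1
  · intro a' ha'
    have h1 := hcdeg (Sum.inr a')
    simp only [Sum.elim_inr, mul_zero, add_zero, ha', ite_self] at h1
    exact Nat.le_zero.1 h1

omit [Fintype M] in
/-- The induction over the classes. -/
private theorem elim_set (cb : β → M) (D : ℕ) (C₁ : ℝ) (hC₁ : 0 ≤ C₁) (s : Finset M) :
    ∃ C₂ : ℝ, 0 ≤ C₂ ∧
    ∀ (F : Type) [Field F] [CharZero F] (t : β → F) (n : M → ℕ) (κ : M → ℝ) (M0 : ℝ),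
    (∀ a, 1 ≤ n a) → (∀ a, 1 ≤ κ a) → (∀ a, n a * κ a ≤ D * M0) → 0 ≤ M0 →
    ∀ (Θ : M → MvPowerSeries β F) (Pi : M → Polynomial (MvPolynomial β ℤ)),
    (∀ a, 0 < (Pi a).natDegree ∧ (Pi a).natDegree ≤ D) →
    (∀ a k, (∀ b ∈ ((Pi a).coeff k).vars, cb b = a) ∧ ((Pi a).coeff k).totalDegree ≤ D ∧
      L1 ((Pi a).coeff k) ≤ Real.exp (D * κ a)) →
    (∀ a, (Pi a).eval₂ (evT t) (Θ a) = 0) →
    ∀ G : MvPolynomial (β ⊕ M) ℤ, Bz cb n M0 C₁ G → evTZ t Θ G ≠ 0 →
      evTZ t Θ G ∈ ordI (F := F) (fun b => n (cb b)) →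
      ∃ Q : MvPolynomial (β ⊕ M) ℤ, Bz cb n M0 C₂ Q ∧ evTZ t Θ Q ≠ 0 ∧
        evTZ t Θ Q ∈ ordI (F := F) (fun b => n (cb b)) ∧
        ∀ a ∈ s, Q.degreeOf (Sum.inr a) = 0 := by
  induction s using Finset.induction_on with
  | empty =>
    refine ⟨C₁, hC₁, ?_⟩
    intro F _ _ t n κ M0 hn hκ hM hM0 Θ Pi hPi hcoef hroot G hG hG0 hGI
    exact ⟨G, hG, hG0, hGI, fun a ha => by simp at ha⟩
  | insert a s _ ih =>
    obtain ⟨C', hC', h'⟩ := ih
    obtain ⟨C₂, hC₂, h₂⟩ := elim_step cb D C' hC' a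
    refine ⟨C₂, hC₂, ?_⟩
    intro F _ _ t n κ M0 hn hκ hM hM0 Θ Pi hPi hcoef hroot G hG hG0 hGI
    obtain ⟨Q, hQ, hQ0, hQI, hQs⟩ := h' F t n κ M0 hn hκ hM hM0 Θ Pi hPi hcoef hroot G hG hG0 hGI
    obtain ⟨Q', hQ', hQ0', hQI', hQa, hQs'⟩ :=
      h₂ F t n κ M0 hn hκ hM hM0 Θ Pi hPi hcoef hroot Q hQ hQ0 hQI
    refine ⟨Q', hQ', hQ0', hQI', fun a' ha' => ?_⟩
    rcases Finset.mem_insert.1 ha' with rfl | h
    · exact hQa
    · exact hQs' a' (hQs a' h)

/-- **Elimination of all `Z_a`.** For constants `D` (all relations) and `C₁` there is `C₂` such that: if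
`G` is an integral polynomial in the `T_b`, `Z_a` with `Bz .. C₁ G`, whose value at `(t + ζ, Θ)` is `≠ 0` and in
`ordI`, then there is an integral polynomial `Q` in the `T_b` with `evT t Q ≠ 0`, `evT t Q ∈ ordI`, degrees
`≤ C₂ n (cb b)` and `L1 Q ≤ exp (C₂ M0)`.

Proof. Induction over a finite set `s` of classes (`Finset.induction_on`): there are `C_s` (depending on `D`,
`C₁` and `s` only) and, for all data, `G_s` with `Bz .. C_s G_s`, value `≠ 0` in `ordI`, and
`G_s.degreeOf (inr a) = 0` for `a ∈ s`. Step for `a ∉ s`: `extract` for the variable `inr a` gives `N` with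
natDegree `≤ E = degreeOf (inr a) G_s ≤ C_s n a`; `norm_step` with `S = MvPowerSeries β F` (a domain),
`φ = evTZ t Θ`, `θ = Θ a`, `P = (Pi a).map (rename inl)`, `d` = the degrees of `N` (`0` at `inr a`),
`e = D` at `inl b` with `cb b = a` and `0` at the other variables (the coefficients of `Pi a` only contain the
`T_b` of the class `a`, `degreeOf = 0` for variables not in `vars`), `X = L1 G_s`,
`Y = (D + 1) exp (D κ a)`. The result `c` has degree `0` in `inr a` and in `inr a'`, `a' ∈ s`;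
degree `≤ D C_s n a'` in the other `inr a'`; in `inl b`: `≤ D (C_s n (cb b) + (E + D) e)`, where `e ≠ 0` only for
`cb b = a` and then `E + D ≤ (C_s + D) n a`; `L1 c ≤ D! (1 + exp (C_s M0) (2 (D+1) exp (D κ a)) ^ (E + D)) ^ D`
with `(E + D) κ a ≤ (C_s + D) n a κ a ≤ (C_s + D) D M0` and `M0 ≥ 1 / D`-like lower bounds (`1 ≤ n a κ a ≤ D M0`;
if `M` is empty there is nothing to do): all of this is `≤ exp (C_(s ∪ a) M0)`. `evTZ c` is divisible by
the value of `G_s` (`ordI` is an ideal). For `s = univ` all degrees in the `inr a` are `0`: `G_univ` is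
`rename inl Q` (`MvPolynomial.exists_rename_eq_of_vars_subset_range` or similar), `evT t Q = evTZ t Θ G_univ`,
`L1_rename`, `degreeOf_rename_of_injective`. -/
theorem eliminate (cb : β → M) (D : ℕ) (C₁ : ℝ) (hC₁ : 0 ≤ C₁) : ∃ C₂ : ℝ, 0 ≤ C₂ ∧
    ∀ (F : Type) [Field F] [CharZero F] (t : β → F) (n : M → ℕ) (κ : M → ℝ) (M0 : ℝ),
    (∀ a, 1 ≤ n a) → (∀ a, 1 ≤ κ a) → (∀ a, n a * κ a ≤ D * M0) → 0 ≤ M0 →
    ∀ (Θ : M → MvPowerSeries β F) (Pi : M → Polynomial (MvPolynomial β ℤ)),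
    (∀ a, 0 < (Pi a).natDegree ∧ (Pi a).natDegree ≤ D) →
    (∀ a k, (∀ b ∈ ((Pi a).coeff k).vars, cb b = a) ∧ ((Pi a).coeff k).totalDegree ≤ D ∧
      L1 ((Pi a).coeff k) ≤ Real.exp (D * κ a)) →
    (∀ a, (Pi a).eval₂ (evT t) (Θ a) = 0) →
    ∀ G : MvPolynomial (β ⊕ M) ℤ, Bz cb n M0 C₁ G → evTZ t Θ G ≠ 0 →
      evTZ t Θ G ∈ ordI (F := F) (fun b => n (cb b)) →
      ∃ Q : MvPolynomial β ℤ, evT t Q ≠ 0 ∧ evT t Q ∈ ordI (F := F) (fun b => n (cb b)) ∧
        (∀ b, (Q.degreeOf b : ℝ) ≤ C₂ * n (cb b)) ∧ L1 Q ≤ Real.exp (C₂ * M0) := by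
  obtain ⟨C₂, hC₂, h₂⟩ := elim_set cb D C₁ hC₁ Finset.univ
  refine ⟨C₂, hC₂, ?_⟩
  intro F _ _ t n κ M0 hn hκ hM hM0 Θ Pi hPi hcoef hroot G hG hG0 hGI
  obtain ⟨R, hR, hR0, hRI, hRs⟩ := h₂ F t n κ M0 hn hκ hM hM0 Θ Pi hPi hcoef hroot G hG hG0 hGI
  have hv : (R.vars : Set (β ⊕ M)) ⊆ Set.range (Sum.inl : β → β ⊕ M) := by
    rintro (b | a) hx
    · exact ⟨b, rfl⟩
    · exfalso
      exact MvPolynomial.mem_vars_iff_degreeOf_ne_zero.1 (Finset.mem_coe.1 hx)
        (hRs a (Finset.mem_univ a))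
  obtain ⟨Q, hQ⟩ := MvPolynomial.exists_rename_eq_of_vars_subset_range R Sum.inl Sum.inl_injective hv
  have hev : evTZ t Θ R = evT t Q := by rw [← hQ, evTZ_inl]
  refine ⟨Q, hev ▸ hR0, hev ▸ hRI, fun b => ?_, ?_⟩
  · have := hR.1 b
    rwa [← hQ, MvPolynomial.degreeOf_rename_of_injective Sum.inl_injective] at this
  · have := hR.2.2
    rwa [← hQ, L1_rename _ Sum.inl_injective] at this

end Pool.Agent.LSharp
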