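import Pool.Agent.LSharp.HCDefs

set_option autoImplicit false

/-! Theorem U# , block NVX (nonvanishing on a branch): definitions. -/

namespace Pool.Agent.LSharp

open MvPowerSeries

section

variable {β F : Type} [Field F]

/-- The evaluation of integral polynomials at `t + ζ`. -/
noncomputable def evT (t : β → F) : MvPolynomial β ℤ →+* MvPowerSeries β F :=
  (MvPolynomial.aeval (R := ℤ) fun b =>
    (MvPowerSeries.C (t b) + MvPowerSeries.X b : MvPowerSeries β F)).toRingHom

/-- The ideal of the power series all of whose coefficients of weight `< 1` vanish. -/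
def ordI [Fintype β] (n : β → ℕ) : Ideal (MvPowerSeries β F) where
  carrier := {f | ∀ i, coeff i f ≠ 0 → 1 ≤ wt n i}
  zero_mem' := fun i hi => absurd (by simp) hi
  add_mem' := fun {f g} hf hg i hi => by
    by_cases h : coeff i f = 0
    · refine hg i fun h' => hi ?_
      rw [map_add, h, h', add_zero]
    · exact hf i h
  smul_mem' := by
    classical
    intro c f hf i hi
    rw [smul_eq_mul, coeff_mul] at hi
    obtain ⟨⟨a, b⟩, hab, hne⟩ := Finset.exists_ne_zero_of_sum_ne_zero hi
    rw [Finset.HasAntidiagonal.mem_antidiagonal] at hab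
    have h1 := hf b (right_ne_zero_of_mul hne)
    have h2 : wt n b ≤ wt n i := by
      unfold wt
      refine Finset.sum_le_sum fun k _ => ?_
      refine div_le_div_of_nonneg_right ?_ (Nat.cast_nonneg _)
      rw [← hab]
      simp
    exact h1.trans h2

end

/-- The coefficients of `N` have degrees `≤ d x` in the variable `x`, the sum of their `ℓ¹`-norms is
`≤ X`. -/
def PB {τ : Type} (d : τ → ℕ) (X : ℝ) (N : Polynomial (MvPolynomial τ ℤ)) : Prop :=
  (∀ n x, (N.coeff n).degreeOf x ≤ d x) ∧ ∑ n ∈ N.support, L1 (N.coeff n) ≤ X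

end Pool.Agent.LSharp
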