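import Pool.Agent.LSharp.NVXDefs
import Pool.Agent.LSharp.L1

set_option autoImplicit false

/-! NVX1. Pseudodivision and the characteristic polynomial, with bounds. -/

namespace Pool.Agent.LSharp

variable {τ : Type}

open MvPolynomial

private noncomputable def SS (N : Polynomial (MvPolynomial τ ℤ)) : ℝ :=
  ∑ n ∈ N.support, L1 (N.coeff n)

private theorem SS_nonneg (N : Polynomial (MvPolynomial τ ℤ)) : 0 ≤ SS N :=
  Finset.sum_nonneg fun _ _ => L1_nonneg _

private theorem SS_eq (N : Polynomial (MvPolynomial τ ℤ)) (s : Finset ℕ) (hs : N.support ⊆ s) :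
    SS N = ∑ n ∈ s, L1 (N.coeff n) := by
  refine Finset.sum_subset hs fun i _ hi => ?_
  rw [Polynomial.notMem_support_iff.mp hi, L1_zero]

private theorem SS_add (N N' : Polynomial (MvPolynomial τ ℤ)) : SS (N + N') ≤ SS N + SS N' := by
  classical
  rw [SS_eq (N + N') (N.support ∪ N'.support) Polynomial.support_add,
    SS_eq N (N.support ∪ N'.support) Finset.subset_union_left,
    SS_eq N' (N.support ∪ N'.support) Finset.subset_union_right, ← Finset.sum_add_distrib]
  refine Finset.sum_le_sum fun i _ => ?_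
  rw [Polynomial.coeff_add]
  exact L1_add _ _

private theorem SS_zero : SS (0 : Polynomial (MvPolynomial τ ℤ)) = 0 := by
  simp [SS]

private theorem SS_neg (N : Polynomial (MvPolynomial τ ℤ)) : SS (-N) = SS N := by
  unfold SS
  rw [Polynomial.support_neg]
  exact Finset.sum_congr rfl fun i _ => by rw [Polynomial.coeff_neg, L1_neg]

private theorem SS_sum {ι : Type*} (s : Finset ι) (f : ι → Polynomial (MvPolynomial τ ℤ)) :
    SS (∑ a ∈ s, f a) ≤ ∑ a ∈ s, SS (f a) := by
  classical
  induction s using Finset.induction_on with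
  | empty => simp [SS_zero]
  | insert a s ha ih =>
    rw [Finset.sum_insert ha, Finset.sum_insert ha]
    exact (SS_add _ _).trans (by linarith)

private theorem SS_monomial_mul (i : ℕ) (a : MvPolynomial τ ℤ)
    (N : Polynomial (MvPolynomial τ ℤ)) : SS (Polynomial.monomial i a * N) ≤ L1 a * SS N := by
  classical
  have h0 : ∀ j, (Polynomial.monomial i a * N).coeff (j + i) = a * N.coeff j := by
    intro j
    rw [← Polynomial.C_mul_X_pow_eq_monomial, mul_assoc, Polynomial.coeff_C_mul,
      Polynomial.coeff_X_pow_mul]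
  have h0' : ∀ j, j < i → (Polynomial.monomial i a * N).coeff j = 0 := by
    intro j hj
    rw [← Polynomial.C_mul_X_pow_eq_monomial, mul_assoc, Polynomial.coeff_C_mul,
      Polynomial.coeff_X_pow_mul', if_neg (by omega), mul_zero]
  have h1 : (Polynomial.monomial i a * N).support ⊆ N.support.map (addRightEmbedding i) := by
    intro j hj
    rw [Polynomial.mem_support_iff] at hj
    rw [Finset.mem_map]
    rcases lt_or_ge j i with h | h
    · exact absurd (h0' j h) hj
    · refine ⟨j - i, ?_, by simp [Nat.sub_add_cancel h]⟩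
      rw [Polynomial.mem_support_iff]
      intro h3
      apply hj
      have := h0 (j - i)
      rw [Nat.sub_add_cancel h, h3, mul_zero] at this
      exact this
  rw [SS_eq _ _ h1, Finset.sum_map, SS, Finset.mul_sum]
  refine Finset.sum_le_sum fun j _ => ?_
  rw [addRightEmbedding_apply, h0]
  exact L1_mul _ _

private theorem SS_mul (N N' : Polynomial (MvPolynomial τ ℤ)) : SS (N * N') ≤ SS N * SS N' := by
  classical
  have h1 : N * N' = ∑ i ∈ N.support, Polynomial.monomial i (N.coeff i) * N' := by
    rw [← Finset.sum_mul]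
    congr 1
    exact N.as_sum_support
  rw [h1]
  refine (SS_sum _ _).trans ?_
  rw [SS, Finset.sum_mul]
  exact Finset.sum_le_sum fun i _ => SS_monomial_mul i _ N'

private theorem PB_iff {d : τ → ℕ} {X : ℝ} {N : Polynomial (MvPolynomial τ ℤ)} :
    PB d X N ↔ (∀ n x, (N.coeff n).degreeOf x ≤ d x) ∧ SS N ≤ X := Iff.rfl

private theorem deg_neg (x : τ) (F : MvPolynomial τ ℤ) : (-F).degreeOf x = F.degreeOf x := by
  classical
  rw [degreeOf_def, degreeOf_def, degrees_neg]

/-- `ℓ¹`-norm of products and sums of polynomials over `MvPolynomial τ ℤ`. (`L1_mul`, `L1_add`.) -/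
theorem PB.mul {d e : τ → ℕ} {X Y : ℝ} {N N' : Polynomial (MvPolynomial τ ℤ)} (h : PB d X N)
    (h' : PB e Y N') : PB (fun x => d x + e x) (X * Y) (N * N') := by
  classical
  refine ⟨fun n x => ?_, ?_⟩
  · rw [Polynomial.coeff_mul]
    refine (degreeOf_sum_le _ _ _).trans (Finset.sup_le fun p _ => ?_)
    exact (degreeOf_mul_le _ _ _).trans (add_le_add (h.1 _ _) (h'.1 _ _))
  · have h1 : SS N ≤ X := h.2
    have h2 : SS N' ≤ Y := h'.2
    exact (SS_mul N N').trans (mul_le_mul h1 h2 (SS_nonneg _) ((SS_nonneg _).trans h1))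

private theorem PB_mono {d e : τ → ℕ} {X Y : ℝ} {N : Polynomial (MvPolynomial τ ℤ)}
    (h : PB d X N) (hde : ∀ x, d x ≤ e x) (hXY : X ≤ Y) : PB e Y N :=
  ⟨fun n x => (h.1 n x).trans (hde x), h.2.trans hXY⟩

private theorem PB_add {d : τ → ℕ} {X Y : ℝ} {N N' : Polynomial (MvPolynomial τ ℤ)}
    (h : PB d X N) (h' : PB d Y N') : PB d (X + Y) (N + N') := by
  refine ⟨fun n x => ?_, ?_⟩
  · rw [Polynomial.coeff_add]
    exact (degreeOf_add_le _ _ _).trans (max_le (h.1 _ _) (h'.1 _ _))
  · exact (SS_add N N').trans (add_le_add h.2 h'.2)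

private theorem PB_neg {d : τ → ℕ} {X : ℝ} {N : Polynomial (MvPolynomial τ ℤ)}
    (h : PB d X N) : PB d X (-N) := by
  refine ⟨fun n x => ?_, ?_⟩
  · rw [Polynomial.coeff_neg, deg_neg]
    exact h.1 _ _
  · exact (SS_neg N).le.trans h.2

theorem PB.sub {d : τ → ℕ} {X Y : ℝ} {N N' : Polynomial (MvPolynomial τ ℤ)} (h : PB d X N)
    (h' : PB d Y N') : PB d (X + Y) (N - N') := by
  rw [sub_eq_add_neg]
  exact PB_add h (PB_neg h')

private theorem SS_C (a : MvPolynomial τ ℤ) : SS (Polynomial.C a) ≤ L1 a := by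
  have h := SS_eq (Polynomial.C a) {0} (Polynomial.support_C_subset a)
  rw [h, Finset.sum_singleton, Polynomial.coeff_C_zero]

private theorem PB_C {d : τ → ℕ} {X : ℝ} {a : MvPolynomial τ ℤ} (hd : ∀ x, a.degreeOf x ≤ d x)
    (hX : L1 a ≤ X) : PB d X (Polynomial.C a) := by
  refine ⟨fun n x => ?_, (SS_C a).trans hX⟩
  rw [Polynomial.coeff_C]
  split_ifs
  · exact hd x
  · rw [degreeOf_zero]
    exact Nat.zero_le _

private theorem L1_one' : L1 (1 : MvPolynomial τ ℤ) ≤ 1 := by
  have := L1_pow (0 : MvPolynomial τ ℤ) 0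
  simpa using this

private theorem PB_one : PB (fun _ : τ => 0) 1 (1 : Polynomial (MvPolynomial τ ℤ)) := by
  rw [← Polynomial.C_1]
  refine PB_C (fun x => ?_) L1_one'
  rw [degreeOf_one]

private theorem PB_X : PB (fun _ : τ => 0) 1 (Polynomial.X : Polynomial (MvPolynomial τ ℤ)) := by
  refine ⟨fun n x => ?_, ?_⟩
  · rw [Polynomial.coeff_X]
    split_ifs
    · rw [degreeOf_one]
    · rw [degreeOf_zero]
  · have h := SS_monomial_mul (τ := τ) 1 1 1
    rw [mul_one] at h
    have h2 : SS (1 : Polynomial (MvPolynomial τ ℤ)) ≤ 1 := PB_one.2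
    have h3 : (Polynomial.X : Polynomial (MvPolynomial τ ℤ)) = Polynomial.monomial 1 1 := rfl
    rw [h3]
    refine h.trans ?_
    have := mul_le_mul (L1_one' (τ := τ)) h2 (SS_nonneg _) zero_le_one
    linarith

private theorem PB_pow {d : τ → ℕ} {X : ℝ} {N : Polynomial (MvPolynomial τ ℤ)}
    (h : PB d X N) (k : ℕ) : PB (fun x => k * d x) (X ^ k) (N ^ k) := by
  induction k with
  | zero =>
    rw [pow_zero, pow_zero]
    exact PB_mono PB_one (fun x => Nat.zero_le _) le_rfl
  | succ k ih =>
    rw [pow_succ, pow_succ]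
    exact PB_mono (ih.mul h) (fun x => by ring_nf; exact le_rfl) le_rfl

private theorem PB_prod {ι : Type*} (s : Finset ι) (f : ι → Polynomial (MvPolynomial τ ℤ))
    {d : τ → ℕ} {X : ℝ} (h : ∀ a ∈ s, PB d X (f a)) :
    PB (fun x => s.card * d x) (X ^ s.card) (∏ a ∈ s, f a) := by
  classical
  induction s using Finset.induction_on with
  | empty =>
    rw [Finset.prod_empty, Finset.card_empty, pow_zero]
    exact PB_mono PB_one (fun x => Nat.zero_le _) le_rfl
  | insert a s ha ih =>
    rw [Finset.prod_insert ha, Finset.card_insert_of_notMem ha]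
    have h1 := ih fun b hb => h b (Finset.mem_insert_of_mem hb)
    have h2 := h a (Finset.mem_insert_self a s)
    exact PB_mono (h2.mul h1) (fun x => by ring_nf; exact le_rfl) (by rw [pow_succ'])

private theorem PB_sum {ι : Type*} (s : Finset ι) (f : ι → Polynomial (MvPolynomial τ ℤ))
    {d : τ → ℕ} {X : ℝ} (h : ∀ a ∈ s, PB d X (f a)) : PB d (s.card * X) (∑ a ∈ s, f a) := by
  classical
  induction s using Finset.induction_on with
  | empty =>
    rw [Finset.sum_empty, Finset.card_empty, Nat.cast_zero, zero_mul]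
    refine ⟨fun n x => ?_, ?_⟩
    · rw [Polynomial.coeff_zero, degreeOf_zero]
      exact Nat.zero_le _
    · exact SS_zero.le
  | insert a s ha ih =>
    rw [Finset.sum_insert ha, Finset.card_insert_of_notMem ha]
    have h1 := ih fun b hb => h b (Finset.mem_insert_of_mem hb)
    have h2 := h a (Finset.mem_insert_self a s)
    refine PB_mono (PB_add h2 h1) (fun x => le_rfl) ?_
    push_cast
    linarith

private theorem coeff_le {d : τ → ℕ} {X : ℝ} {N : Polynomial (MvPolynomial τ ℤ)}
    (h : PB d X N) (n : ℕ) : L1 (N.coeff n) ≤ X := by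
  by_cases hn : n ∈ N.support
  · exact (Finset.single_le_sum (f := fun n => L1 (N.coeff n)) (fun _ _ => L1_nonneg _) hn).trans
      h.2
  · rw [Polynomial.notMem_support_iff.mp hn, L1_zero]
    exact (SS_nonneg N).trans h.2

/-- **Pseudodivision.** `ℓ ^ E * N = r + P * Q` with `ℓ` the leading coefficient of `P`,
`natDegree r < natDegree P`, if `natDegree N ≤ E`; with bounds.

Proof. Induction on `E`. If `natDegree N < g = natDegree P`: `r = ℓ ^ E * N`, `Q = 0`. Otherwise put
`N' = ℓ * N - (leading coefficient of N) * Z ^ (natDegree N - g) * P`, `natDegree N' ≤ E - 1`, with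
`PB (d + e) (2 * Y * X) N'`, and use induction: `ℓ ^ (E - 1) * N' = r + P * Q'`. (`X ≥ 0`, `Y ≥ 1` because
`P ≠ 0`: `one_le_L1`.) -/
theorem pseudo_div (P N : Polynomial (MvPolynomial τ ℤ)) (hP : 0 < P.natDegree) (E : ℕ)
    (hE : N.natDegree ≤ E) (d e : τ → ℕ) (X Y : ℝ) (hN : PB d X N) (hPB : PB e Y P) :
    ∃ r Q : Polynomial (MvPolynomial τ ℤ), r.natDegree < P.natDegree ∧
      Polynomial.C (P.leadingCoeff ^ E) * N = r + P * Q ∧
      PB (fun x => d x + E * e x) (X * (2 * Y) ^ E) r := by
  have hP0 : P ≠ 0 := by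
    intro h
    rw [h, Polynomial.natDegree_zero] at hP
    exact absurd hP (lt_irrefl _)
  have hlc0 : P.leadingCoeff ≠ 0 := Polynomial.leadingCoeff_ne_zero.2 hP0
  have hY1 : 1 ≤ Y := (one_le_L1 _ hlc0).trans (coeff_le hPB _)
  have hC : PB e Y (Polynomial.C P.leadingCoeff) :=
    PB_C (fun x => hPB.1 _ x) (coeff_le hPB _)
  induction E generalizing N d X with
  | zero =>
    refine ⟨N, 0, by omega, ?_, ?_⟩
    · rw [pow_zero, Polynomial.C_1, one_mul, mul_zero, add_zero]
    · exact PB_mono hN (fun x => Nat.le_add_right _ _) (by rw [pow_zero, mul_one])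
  | succ E ih =>
    have hX0 : 0 ≤ X := (SS_nonneg N).trans hN.2
    rcases lt_or_ge N.natDegree P.natDegree with hlt | hge
    · refine ⟨Polynomial.C (P.leadingCoeff ^ (E + 1)) * N, 0, ?_, ?_, ?_⟩
      · exact lt_of_le_of_lt (Polynomial.natDegree_C_mul_le _ _) hlt
      · rw [mul_zero, add_zero]
      · have h1 := (PB_pow hC (E + 1)).mul hN
        rw [← map_pow] at h1
        refine PB_mono h1 (fun x => by rw [add_comm]) ?_
        rw [mul_comm]
        refine mul_le_mul_of_nonneg_left ?_ hX0
        exact pow_le_pow_left₀ (by linarith) (by linarith) _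
    · set k := N.natDegree - P.natDegree with hk
      have hlN : PB d X (Polynomial.C N.leadingCoeff) :=
        PB_C (fun x => hN.1 _ x) (coeff_le hN _)
      have hT : PB (fun x => d x + e x) (X * Y)
          (Polynomial.C N.leadingCoeff * Polynomial.X ^ k * P) := by
        have h1 := (hlN.mul (PB_pow PB_X k)).mul hPB
        exact PB_mono h1 (fun x => by simp) (by rw [one_pow, mul_one])
      have hN1 : PB (fun x => d x + e x) (X * Y) (Polynomial.C P.leadingCoeff * N) :=
        PB_mono (hC.mul hN) (fun x => by rw [add_comm]) (by rw [mul_comm])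
      set N' := Polynomial.C P.leadingCoeff * N
        - Polynomial.C N.leadingCoeff * Polynomial.X ^ k * P with hN'
      have hPBN' : PB (fun x => d x + e x) (X * Y + X * Y) N' := hN1.sub hT
      have hdeg : N'.natDegree ≤ E := by
        rw [Polynomial.natDegree_le_iff_coeff_eq_zero]
        intro m hm
        have hmN : N.natDegree ≤ m := by omega
        have hcT : (Polynomial.C N.leadingCoeff * Polynomial.X ^ k * P).coeff m
            = N.leadingCoeff * P.coeff (m - k) := by
          rw [mul_assoc, Polynomial.coeff_C_mul, Polynomial.coeff_X_pow_mul', if_pos (by omega)]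
        rw [hN', Polynomial.coeff_sub, Polynomial.coeff_C_mul, hcT]
        rcases Nat.eq_or_lt_of_le hmN with h | h
        · have h2 : m - k = P.natDegree := by omega
          rw [← h] at h2 ⊢
          rw [h2]
          simp only [Polynomial.leadingCoeff]
          ring
        · rw [Polynomial.coeff_eq_zero_of_natDegree_lt h,
            Polynomial.coeff_eq_zero_of_natDegree_lt (show P.natDegree < m - k by omega)]
          ring
      obtain ⟨r, Q', hr, hQ, hPBr⟩ := ih N' hdeg (fun x => d x + e x) (X * Y + X * Y) hPBN'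
      refine ⟨r, Q' + Polynomial.C (P.leadingCoeff ^ E) * (Polynomial.C N.leadingCoeff
        * Polynomial.X ^ k), hr, ?_, ?_⟩
      · have h1 : Polynomial.C (P.leadingCoeff ^ (E + 1)) * N
            = Polynomial.C (P.leadingCoeff ^ E) * N' + Polynomial.C (P.leadingCoeff ^ E)
              * (Polynomial.C N.leadingCoeff * Polynomial.X ^ k * P) := by
          rw [hN', pow_succ, Polynomial.C_mul]
          ring
        rw [h1, hQ]
        ring
      · refine PB_mono hPBr (fun x => ?_) (le_of_eq ?_)
        · ring_nf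
          exact le_rfl
        · rw [pow_succ]
          ring

/-- **Coefficients of the characteristic polynomial**: degrees `≤ g d`, `ℓ¹`-norms `≤ g! (1 + X) ^ g`
for a `g × g`-matrix with entries of degrees `≤ d x` and norms `≤ X`. (`Matrix.charpoly` is the sum over the
permutations of products of `g` entries of `charmatrix`, each of them with `PB d (1 + X)`; `PB.mul` for
products over `Fin g`, coefficients of a sum.) -/
theorem charpoly_bd (g : ℕ) (M : Matrix (Fin g) (Fin g) (MvPolynomial τ ℤ)) (d : τ → ℕ) (X : ℝ)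
    (hd : ∀ i k x, (M i k).degreeOf x ≤ d x) (hX : ∀ i k, L1 (M i k) ≤ X) (n : ℕ) :
    (∀ x, (M.charpoly.coeff n).degreeOf x ≤ g * d x) ∧
      L1 (M.charpoly.coeff n) ≤ g.factorial * (1 + X) ^ g := by
  classical
  have hent : ∀ i k, PB d (1 + X) (Matrix.charmatrix M i k) := by
    intro i k
    have hX0 : 0 ≤ X := (L1_nonneg _).trans (hX i k)
    by_cases hik : i = k
    · subst hik
      rw [Matrix.charmatrix_apply_eq]
      exact (PB_mono PB_X (fun x => Nat.zero_le _) le_rfl).sub (PB_C (hd i i) (hX i i))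
    · rw [Matrix.charmatrix_apply_ne M i k hik]
      exact PB_mono (PB_neg (PB_C (hd i k) (hX i k))) (fun x => le_rfl) (by linarith)
  have hmain : PB (fun x => g * d x) (g.factorial * (1 + X) ^ g) M.charpoly := by
    unfold Matrix.charpoly
    rw [Matrix.det_apply]
    have h1 : ∀ σ ∈ (Finset.univ : Finset (Equiv.Perm (Fin g))),
        PB (fun x => g * d x) ((1 + X) ^ g)
          (Equiv.Perm.sign σ • ∏ i, Matrix.charmatrix M (σ i) i) := by
      intro σ _
      have h2 : PB (fun x => g * d x) ((1 + X) ^ g) (∏ i, Matrix.charmatrix M (σ i) i) := by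
        have h3 := PB_prod (Finset.univ : Finset (Fin g))
          (fun i => Matrix.charmatrix M (σ i) i) (fun i _ => hent (σ i) i)
        rwa [Finset.card_univ, Fintype.card_fin] at h3
      rcases Int.units_eq_one_or (Equiv.Perm.sign σ) with h | h
      · rw [h, one_smul]
        exact h2
      · rw [h, Units.neg_smul, one_smul]
        exact PB_neg h2
    have h4 := PB_sum (Finset.univ : Finset (Equiv.Perm (Fin g))) _ h1
    rwa [Finset.card_univ, Fintype.card_perm, Fintype.card_fin] at h4
  exact ⟨fun x => hmain.1 n x, coeff_le hmain n⟩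

end Pool.Agent.LSharp
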