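import Pool.Agent.LSharp.NVXChain

set_option autoImplicit false

/-! NVX4. The auxiliary function as a polynomial in `T_b`, `Z_a`. -/

namespace Pool.Agent.LSharp

open MvPowerSeries

variable {β M A : Type} [Fintype β] [Fintype M] [Fintype A] [DecidableEq β] [DecidableEq M]
  [DecidableEq A]

/-- Degrees at most `d`, norm at most `exp L`. -/
private def DL {τ : Type} (d : τ → ℕ) (L : ℝ) (f : MvPolynomial τ ℤ) : Prop :=
  (∀ v, f.degreeOf v ≤ d v) ∧ L1 f ≤ Real.exp L

private theorem DL_mul {τ : Type} {d e : τ → ℕ} {L K : ℝ} {f g : MvPolynomial τ ℤ}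
    (hf : DL d L f) (hg : DL e K g) : DL (d + e) (L + K) (f * g) := by
  refine ⟨fun v => (MvPolynomial.degreeOf_mul_le v f g).trans (add_le_add (hf.1 v) (hg.1 v)), ?_⟩
  rw [Real.exp_add]
  exact (L1_mul _ _).trans (mul_le_mul hf.2 hg.2 (L1_nonneg _) (Real.exp_pos _).le)

private theorem DL_mono {τ : Type} {d e : τ → ℕ} {L K : ℝ} {f : MvPolynomial τ ℤ}
    (hf : DL d L f) (hd : ∀ v, d v ≤ e v) (hL : L ≤ K) : DL e K f :=
  ⟨fun v => (hf.1 v).trans (hd v), hf.2.trans (Real.exp_le_exp.2 hL)⟩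

private theorem DL_C {τ : Type} (c : ℤ) (L : ℝ) (h : |(c : ℝ)| ≤ Real.exp L) :
    DL (0 : τ → ℕ) L (MvPolynomial.C c : MvPolynomial τ ℤ) := by
  classical
  refine ⟨fun v => by rw [MvPolynomial.degreeOf_C]; exact Nat.zero_le _, ?_⟩
  by_cases hc : c = 0
  · rw [hc, MvPolynomial.C_0, L1_zero]
    exact (Real.exp_pos _).le
  · have h1 : (MvPolynomial.C c : MvPolynomial τ ℤ).support ⊆ {0} := by
      intro i hi
      rw [MvPolynomial.mem_support_iff, MvPolynomial.coeff_C] at hi
      rw [Finset.mem_singleton]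
      by_contra h2
      exact hi (if_neg (Ne.symm h2))
    rw [L1_eq_sum _ _ h1, Finset.sum_singleton, MvPolynomial.coeff_C, if_pos rfl]
    exact h

private theorem DL_pow {τ : Type} {d : τ → ℕ} {L : ℝ} {f : MvPolynomial τ ℤ}
    (hf : DL d L f) (k : ℕ) : DL (fun v => k * d v) (k * L) (f ^ k) := by
  refine ⟨fun v => (MvPolynomial.degreeOf_pow_le v f k).trans
    (Nat.mul_le_mul_left _ (hf.1 v)), ?_⟩
  rw [Real.exp_nat_mul]
  exact (L1_pow _ _).trans (pow_le_pow_left₀ (L1_nonneg _) hf.2 k)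

private theorem DL_prod {τ ι : Type} (s : Finset ι) (d : ι → τ → ℕ) (L : ι → ℝ)
    (f : ι → MvPolynomial τ ℤ) (hf : ∀ i ∈ s, DL (d i) (L i) (f i)) :
    DL (fun v => ∑ i ∈ s, d i v) (∑ i ∈ s, L i) (∏ i ∈ s, f i) := by
  refine ⟨fun v => (MvPolynomial.degreeOf_prod_le v s f).trans
    (Finset.sum_le_sum fun i hi => (hf i hi).1 v), ?_⟩
  rw [Real.exp_sum]
  exact (L1_prod _ _).trans (Finset.prod_le_prod (fun i _ => L1_nonneg _) fun i hi => (hf i hi).2)

private theorem DL_sum {τ ι : Type} (s : Finset ι) (d : τ → ℕ) (L K : ℝ)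
    (f : ι → MvPolynomial τ ℤ) (hf : ∀ i ∈ s, DL d L (f i)) (hs : (s.card : ℝ) ≤ Real.exp K) :
    DL d (K + L) (∑ i ∈ s, f i) := by
  refine ⟨fun v => (MvPolynomial.degreeOf_sum_le v s f).trans
    (Finset.sup_le fun i hi => (hf i hi).1 v), ?_⟩
  refine (L1_sum _ _).trans ((Finset.sum_le_sum fun i hi => (hf i hi).2).trans ?_)
  rw [Finset.sum_const, nsmul_eq_mul, Real.exp_add]
  exact mul_le_mul_of_nonneg_right hs (Real.exp_pos _).le

private theorem DL_rename {β M : Type} (f : MvPolynomial β ℤ) (cb : β → M) (a : M) (D : ℕ) (L : ℝ)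
    [DecidableEq M]
    (hv : ∀ b ∈ f.vars, cb b = a) (hd : f.totalDegree ≤ D) (hL : L1 f ≤ Real.exp L) :
    DL (Sum.elim (fun b => if cb b = a then D else 0) (fun _ : M => 0)) L
      (MvPolynomial.rename (Sum.inl : β → β ⊕ M) f) := by
  classical
  refine ⟨?_, by rw [L1_rename _ Sum.inl_injective]; exact hL⟩
  rintro (b | m)
  · rw [MvPolynomial.degreeOf_rename_of_injective Sum.inl_injective]
    simp only [Sum.elim_inl]
    split_ifs with h
    · exact (MvPolynomial.degreeOf_le_totalDegree _ _).trans hd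
    · rw [Nat.le_zero]
      by_contra h0
      exact h (hv b (by
        rw [MvPolynomial.vars_def, Multiset.mem_toFinset, ← Multiset.count_pos]
        exact Nat.pos_of_ne_zero (by rwa [MvPolynomial.degreeOf_def] at h0)))
  · simp only [Sum.elim_inr, Nat.le_zero]
    by_contra h0
    have h1 : Sum.inr m ∈ (MvPolynomial.rename (Sum.inl : β → β ⊕ M) f).vars := by
      rw [MvPolynomial.vars_def, Multiset.mem_toFinset, ← Multiset.count_pos]
      exact Nat.pos_of_ne_zero (by rwa [MvPolynomial.degreeOf_def] at h0)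
    have h2 := MvPolynomial.vars_rename (Sum.inl : β → β ⊕ M) f h1
    rw [Finset.mem_image] at h2
    obtain ⟨b, _, hb⟩ := h2
    cases hb

private theorem DL_X {β M : Type} [DecidableEq M] (a : M) :
    DL (Sum.elim (fun _ : β => 0) (fun m : M => if m = a then 1 else 0)) 0
      (MvPolynomial.X (Sum.inr a) : MvPolynomial (β ⊕ M) ℤ) := by
  classical
  refine ⟨?_, ?_⟩
  · rintro (b | m)
    · rw [MvPolynomial.degreeOf_X, if_neg (by simp)]
      exact Nat.zero_le _
    · rw [MvPolynomial.degreeOf_X]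
      simp only [Sum.elim_inr, Sum.inr.injEq]
      exact le_rfl
  · have h1 : (MvPolynomial.X (Sum.inr a) : MvPolynomial (β ⊕ M) ℤ).support ⊆
        {Finsupp.single (Sum.inr a) 1} := by
      rw [MvPolynomial.support_X]
    rw [L1_eq_sum _ _ h1, Finset.sum_singleton, MvPolynomial.coeff_X, Real.exp_zero]
    simp

private theorem evTZ_rename {β M F : Type} [Field F] (t : β → F) (Θ : M → MvPowerSeries β F)
    (p : MvPolynomial β ℤ) : evTZ t Θ (MvPolynomial.rename Sum.inl p) = evT t p := by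
  change MvPolynomial.aeval _ (MvPolynomial.rename Sum.inl p) = MvPolynomial.aeval _ p
  rw [MvPolynomial.aeval_rename]
  rfl

private theorem evTZ_inr {β M F : Type} [Field F] (t : β → F) (Θ : M → MvPowerSeries β F)
    (a : M) : evTZ t Θ (MvPolynomial.X (Sum.inr a)) = Θ a := by
  change MvPolynomial.aeval _ (MvPolynomial.X (Sum.inr a)) = _
  rw [MvPolynomial.aeval_X]
  rfl

/-- The numerator as a polynomial in the `T_b` and `Z_a`. -/
private noncomputable def NP {β M : Type} (D : ℕ) (a : M) (N : Polynomial (MvPolynomial β ℤ)) :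
    MvPolynomial (β ⊕ M) ℤ :=
  ∑ k ∈ Finset.range (D + 1),
    MvPolynomial.rename Sum.inl (N.coeff k) * MvPolynomial.X (Sum.inr a) ^ k

private theorem evTZ_NP {β M F : Type} [Field F] (t : β → F) (Θ : M → MvPowerSeries β F)
    (D : ℕ) (a : M) (N : Polynomial (MvPolynomial β ℤ)) (hN : N.natDegree ≤ D) :
    evTZ t Θ (NP D a N) = N.eval₂ (evT t) (Θ a) := by
  rw [Polynomial.eval₂_eq_sum_range' _ (Nat.lt_succ_of_le hN), NP, map_sum]
  refine Finset.sum_congr rfl fun k _ => ?_
  rw [map_mul, map_pow, evTZ_rename, evTZ_inr]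

private theorem DL_NP {β M : Type} [DecidableEq M] (cb : β → M) (D : ℕ) (a : M) (L : ℝ)
    (N : Polynomial (MvPolynomial β ℤ))
    (h : ∀ k, (∀ b ∈ (N.coeff k).vars, cb b = a) ∧ (N.coeff k).totalDegree ≤ D ∧
      L1 (N.coeff k) ≤ Real.exp L) :
    DL (Sum.elim (fun b => if cb b = a then D else 0) (fun m : M => if m = a then D else 0))
      (D + L) (NP D a N) := by
  refine DL_sum _ _ L D _ ?_ ?_
  · intro k hk
    rw [Finset.mem_range] at hk
    refine DL_mono (DL_mul (DL_rename (N.coeff k) cb a D L (h k).1 (h k).2.1 (h k).2.2)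
      (DL_pow (DL_X (β := β) a) k)) ?_ (by simp)
    rintro (b | m)
    · simp
    · simp only [Pi.add_apply, Sum.elim_inr, zero_add]
      split_ifs
      · omega
      · simp
  · rw [Finset.card_range]
    push_cast
    exact Real.add_one_le_exp _

/-- **The auxiliary function as a polynomial.** `FA s`, `s : A` (class `ca s`), are power series with
`Δ_a(t + ζ) * FA s = N_s(t + ζ, Θ_a)`, `a = ca s`. Then
`(∏_a Δ_a(t + ζ) ^ (E_a)) * ∑ x, c x * ∏ s, FA s ^ al x s` is the value at `(t + ζ, Θ)` of an integral polynomial with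
bounds.

Proof. `E_a = ⌊C₁ n a⌋₊`; `G = ∑ x, c x * ∏_a (rename inl Δ_a) ^ (E_a - ∑_{s of class a} al x s) *
∏_s (N'_s) ^ (al x s)`, where `N'_s = ∑_k rename inl ((N s).coeff k) * X (inr (ca s)) ^ k`. Degrees: in `inl b`
only the factors of the class `cb b` contribute: `≤ D E_a + D C₁ n a`; in `inr a`: `≤ D ∑ al ≤ D C₁ n a`. `L1`:
`L1_mul`, `L1_pow`, `L1_prod`, `L1 (N'_s) ≤ (D + 1) exp (D κ a)`, so the product is
`≤ ∏_a ((D + 1) exp (D κ a)) ^ (2 C₁ n a) ≤ exp (C M0)` (`n a κ a ≤ D M0`, `n a ≤ D M0`), the sum over `x` adds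
`card X * max |c x| ≤ exp (2 C₁ M0)`. -/
theorem init_poly (cb : β → M) (ca : A → M) (D : ℕ) (C₁ : ℝ) (hC₁ : 0 ≤ C₁) : ∃ C₂ : ℝ, 0 ≤ C₂ ∧
    ∀ (F : Type) [Field F] [CharZero F] (t : β → F) (n : M → ℕ) (κ : M → ℝ) (M0 : ℝ),
    (∀ a, 1 ≤ n a) → (∀ a, 1 ≤ κ a) → (∀ a, n a * κ a ≤ D * M0) → 0 ≤ M0 →
    ∀ (Θ : M → MvPowerSeries β F) (Δ : M → MvPolynomial β ℤ)
      (N : A → Polynomial (MvPolynomial β ℤ)) (FA : A → MvPowerSeries β F),
    (∀ a, (∀ b ∈ (Δ a).vars, cb b = a) ∧ (Δ a).totalDegree ≤ D ∧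
      L1 (Δ a) ≤ Real.exp (D * κ a)) →
    (∀ s, (N s).natDegree ≤ D) →
    (∀ s k, (∀ b ∈ ((N s).coeff k).vars, cb b = ca s) ∧ ((N s).coeff k).totalDegree ≤ D ∧
      L1 ((N s).coeff k) ≤ Real.exp (D * κ (ca s))) →
    (∀ s, evT t (Δ (ca s)) * FA s = (N s).eval₂ (evT t) (Θ (ca s))) →
    ∀ (X : Type) [Fintype X] (c : X → ℤ) (al : X → A → ℕ),
      (∀ x, |(c x : ℝ)| ≤ Real.exp (C₁ * M0)) → (Fintype.card X : ℝ) ≤ Real.exp (C₁ * M0) →
      (∀ x a, ((∑ s, if ca s = a then al x s else 0 : ℕ) : ℝ) ≤ C₁ * n a) →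
      ∃ (G : MvPolynomial (β ⊕ M) ℤ) (E : M → ℕ), Bz cb n M0 C₂ G ∧
        evTZ t Θ G = (∏ a, evT t (Δ a) ^ E a) *
          ∑ x, (c x : MvPowerSeries β F) * ∏ s, FA s ^ al x s := by
  classical
  set mM : ℝ := (Fintype.card M : ℝ) with hmM
  refine ⟨2 * D * C₁ + 2 * C₁ + 3 * (D * (C₁ * (mM * D))), by positivity, ?_⟩
  intro F _ _ t n κ M0 hn hκ hnκ hM0 Θ Δ N FA hΔ hN hNc hFA X _ c al hc hX hal
  set E : M → ℕ := fun a => ⌊C₁ * n a⌋₊ with hE
  have hE1 : ∀ a, (E a : ℝ) ≤ C₁ * n a := fun a =>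
    Nat.floor_le (mul_nonneg hC₁ (Nat.cast_nonneg _))
  set S : X → M → ℕ := fun x a => ∑ s, if ca s = a then al x s else 0 with hS
  have hS1 : ∀ x a, S x a ≤ E a := fun x a => Nat.le_floor (hal x a)
  set T : X → MvPolynomial (β ⊕ M) ℤ := fun x => MvPolynomial.C (c x) *
    ((∏ a, MvPolynomial.rename Sum.inl (Δ a) ^ (E a - S x a)) *
      ∏ s, NP D (ca s) (N s) ^ al x s) with hT
  -- the sum of the products `n a * κ a`
  have hsum : ∑ a, (n a : ℝ) * κ a ≤ mM * D * M0 := by
    refine (Finset.sum_le_sum fun a _ => hnκ a).trans ?_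
    rw [Finset.sum_const, nsmul_eq_mul, Finset.card_univ, ← hmM]
    exact le_of_eq (by ring)
  have hκ0 : ∀ a, 0 ≤ κ a := fun a => zero_le_one.trans (hκ a)
  have hTd : ∀ x, DL (Sum.elim (fun b => 2 * (E (cb b) * D)) (fun m => E m * D))
      (C₁ * M0 + 3 * (D * (C₁ * (mM * D))) * M0) (T x) := by
    intro x
    have h1 := DL_C (τ := β ⊕ M) (c x) (C₁ * M0) (hc x)
    have h2 := DL_prod (Finset.univ : Finset M) _ _
      (fun a => MvPolynomial.rename (Sum.inl : β → β ⊕ M) (Δ a) ^ (E a - S x a))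
      fun a _ => DL_pow (DL_rename (Δ a) cb a D (D * κ a) (hΔ a).1 (hΔ a).2.1 (hΔ a).2.2)
        (E a - S x a)
    have h3 := DL_prod (Finset.univ : Finset A) _ _
      (fun s => NP D (ca s) (N s) ^ al x s)
      fun s _ => DL_pow (DL_NP cb D (ca s) (D * κ (ca s)) (N s) (hNc s)) (al x s)
    refine DL_mono (DL_mul h1 (DL_mul h2 h3)) ?_ ?_
    · have h4 : ∀ m, ∑ s, al x s * (if m = ca s then D else 0) ≤ E m * D := by
        intro m
        refine le_trans (le_of_eq ?_) (Nat.mul_le_mul_right D (hS1 x m))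
        rw [hS, Finset.sum_mul]
        refine Finset.sum_congr rfl fun s _ => ?_
        by_cases h : m = ca s
        · rw [if_pos h, if_pos h.symm]
        · rw [if_neg h, if_neg (Ne.symm h), mul_zero, zero_mul]
      rintro (b | m)
      · simp only [Pi.add_apply, Sum.elim_inl, Pi.zero_apply, zero_add]
        have h5 : ∑ a, (E a - S x a) * (if cb b = a then D else 0) ≤ E (cb b) * D := by
          rw [Finset.sum_eq_single (cb b)]
          · rw [if_pos rfl]
            exact Nat.mul_le_mul_right D (Nat.sub_le _ _)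
          · intro a _ ha
            rw [if_neg (Ne.symm ha), mul_zero]
          · intro h
            exact absurd (Finset.mem_univ _) h
        have h6 := h4 (cb b)
        omega
      · simp only [Pi.add_apply, Sum.elim_inr, Pi.zero_apply, zero_add, mul_zero,
          Finset.sum_const_zero]
        exact h4 m
    · have h7 : ∑ a, ((E a - S x a : ℕ) : ℝ) * (D * κ a) ≤ D * (C₁ * (mM * D)) * M0 := by
        calc ∑ a, ((E a - S x a : ℕ) : ℝ) * (D * κ a)
            ≤ ∑ a, D * (C₁ * (n a * κ a)) := by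
              refine Finset.sum_le_sum fun a _ => ?_
              have h8 : ((E a - S x a : ℕ) : ℝ) ≤ C₁ * n a :=
                le_trans (by exact_mod_cast Nat.sub_le _ _) (hE1 a)
              calc ((E a - S x a : ℕ) : ℝ) * (D * κ a) ≤ C₁ * n a * (D * κ a) :=
                    mul_le_mul_of_nonneg_right h8 (mul_nonneg (Nat.cast_nonneg _) (hκ0 a))
                _ = D * (C₁ * (n a * κ a)) := by ring
          _ = D * (C₁ * ∑ a, (n a : ℝ) * κ a) := by rw [Finset.mul_sum, Finset.mul_sum]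
          _ ≤ D * (C₁ * (mM * D * M0)) :=
              mul_le_mul_of_nonneg_left (mul_le_mul_of_nonneg_left hsum hC₁)
                (Nat.cast_nonneg _)
          _ = D * (C₁ * (mM * D)) * M0 := by ring
      have h9 : ∑ s, (al x s : ℝ) * (D + D * κ (ca s)) ≤ 2 * (D * (C₁ * (mM * D))) * M0 := by
        calc ∑ s, (al x s : ℝ) * (D + D * κ (ca s))
            ≤ ∑ s, 2 * D * (al x s * κ (ca s)) := by
              refine Finset.sum_le_sum fun s _ => ?_
              have h10 : (D : ℝ) + D * κ (ca s) ≤ 2 * D * κ (ca s) := by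
                nlinarith [hκ (ca s), (Nat.cast_nonneg D : (0 : ℝ) ≤ D)]
              calc (al x s : ℝ) * (D + D * κ (ca s)) ≤ al x s * (2 * D * κ (ca s)) :=
                    mul_le_mul_of_nonneg_left h10 (Nat.cast_nonneg _)
                _ = 2 * D * (al x s * κ (ca s)) := by ring
          _ = 2 * D * ∑ s, (al x s : ℝ) * κ (ca s) := by rw [Finset.mul_sum]
          _ = 2 * D * ∑ a, (S x a : ℝ) * κ a := by
              congr 1
              simp only [hS, Nat.cast_sum, Finset.sum_mul]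
              rw [Finset.sum_comm]
              refine Finset.sum_congr rfl fun s _ => ?_
              rw [Finset.sum_eq_single (ca s)]
              · rw [if_pos rfl]
              · intro a _ ha
                rw [if_neg (Ne.symm ha), Nat.cast_zero, zero_mul]
              · intro h
                exact absurd (Finset.mem_univ _) h
          _ ≤ 2 * D * ∑ a, C₁ * (n a * κ a) := by
              refine mul_le_mul_of_nonneg_left (Finset.sum_le_sum fun a _ => ?_)
                (by positivity)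
              calc (S x a : ℝ) * κ a ≤ C₁ * n a * κ a :=
                    mul_le_mul_of_nonneg_right (hal x a) (hκ0 a)
                _ = C₁ * (n a * κ a) := by ring
          _ = 2 * D * (C₁ * ∑ a, (n a : ℝ) * κ a) := by rw [← Finset.mul_sum]
          _ ≤ 2 * D * (C₁ * (mM * D * M0)) :=
              mul_le_mul_of_nonneg_left (mul_le_mul_of_nonneg_left hsum hC₁) (by positivity)
          _ = 2 * (D * (C₁ * (mM * D))) * M0 := by ring
      linarith
  refine ⟨∑ x, T x, E, ?_, ?_⟩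
  · have h1 := DL_sum (Finset.univ : Finset X) _ _ (C₁ * M0) T (fun x _ => hTd x)
      (by rw [Finset.card_univ]; exact hX)
    have hc0 : 0 ≤ 2 * C₁ + 3 * (D * (C₁ * (mM * D))) := by positivity
    have hc1 : 0 ≤ 3 * (D * (C₁ * (mM * D))) := by positivity
    have hc2 : 0 ≤ 2 * D * C₁ := by positivity
    refine ⟨fun b => ?_, fun a => ?_, ?_⟩
    · have h2 := h1.1 (Sum.inl b)
      simp only [Sum.elim_inl] at h2
      have h3 : ((MvPolynomial.degreeOf (Sum.inl b) (∑ x, T x) : ℕ) : ℝ) ≤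
          2 * (E (cb b) * D) := by exact_mod_cast h2
      refine h3.trans ?_
      have h4 := mul_le_mul_of_nonneg_right (hE1 (cb b)) (Nat.cast_nonneg D : (0 : ℝ) ≤ D)
      have h5 := mul_nonneg hc0 (Nat.cast_nonneg (n (cb b)) : (0 : ℝ) ≤ n (cb b))
      nlinarith
    · have h2 := h1.1 (Sum.inr a)
      simp only [Sum.elim_inr] at h2
      have h3 : ((MvPolynomial.degreeOf (Sum.inr a) (∑ x, T x) : ℕ) : ℝ) ≤
          E a * D := by exact_mod_cast h2
      refine h3.trans ?_
      have h4 := mul_le_mul_of_nonneg_right (hE1 a) (Nat.cast_nonneg D : (0 : ℝ) ≤ D)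
      have h5 := mul_nonneg hc0 (Nat.cast_nonneg (n a) : (0 : ℝ) ≤ n a)
      have h6 := mul_nonneg hc2 (Nat.cast_nonneg (n a) : (0 : ℝ) ≤ n a)
      nlinarith
    · refine h1.2.trans (Real.exp_le_exp.2 ?_)
      have h5 := mul_nonneg hc2 hM0
      nlinarith
  · rw [map_sum, Finset.mul_sum]
    refine Finset.sum_congr rfl fun x _ => ?_
    simp only [hT, map_mul, map_prod, map_pow, evTZ_rename]
    have h1 : ∀ s, evTZ t Θ (NP D (ca s) (N s)) = evT t (Δ (ca s)) * FA s := fun s => by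
      rw [evTZ_NP t Θ D (ca s) (N s) (hN s), hFA s]
    simp only [h1, mul_pow, Finset.prod_mul_distrib]
    have h2 : ∏ s, evT t (Δ (ca s)) ^ al x s = ∏ a, evT t (Δ a) ^ S x a := by
      have h5 : ∀ a, evT t (Δ a) ^ S x a =
          ∏ s, evT t (Δ a) ^ (if ca s = a then al x s else 0) := fun a => by
        rw [Finset.prod_pow_eq_pow_sum]
      simp only [h5]
      rw [Finset.prod_comm]
      refine Finset.prod_congr rfl fun s _ => ?_
      rw [Finset.prod_eq_single (ca s)]
      · rw [if_pos rfl]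
      · intro a _ ha
        rw [if_neg (Ne.symm ha), pow_zero]
      · intro h
        exact absurd (Finset.mem_univ _) h
    have h3 : (∏ a, evT t (Δ a) ^ (E a - S x a)) * ∏ a, evT t (Δ a) ^ S x a =
        ∏ a, evT t (Δ a) ^ E a := by
      rw [← Finset.prod_mul_distrib]
      refine Finset.prod_congr rfl fun a _ => ?_
      rw [← pow_add, Nat.sub_add_cancel (hS1 x a)]
    have h4 : evTZ t Θ (MvPolynomial.C (c x)) = (c x : MvPowerSeries β F) := by
      rw [show (MvPolynomial.C (c x) : MvPolynomial (β ⊕ M) ℤ) = ((c x : ℤ) :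
        MvPolynomial (β ⊕ M) ℤ) from eq_intCast _ _, map_intCast]
    rw [h4, h2, ← h3]
    ring

end Pool.Agent.LSharp
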