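import Pool.Agent.LSharp.NVXDiv

set_option autoImplicit false

/-! NVX2. One norm. -/

namespace Pool.Agent.LSharp

variable {τ : Type}

private theorem nvx_sum_eq (N : Polynomial (MvPolynomial τ ℤ)) {m : ℕ} (hm : N.natDegree < m) :
    ∑ n ∈ N.support, L1 (N.coeff n) = ∑ n ∈ Finset.range m, L1 (N.coeff n) := by
  refine Finset.sum_subset (fun n hn => ?_) fun n _ hn => ?_
  · rw [Finset.mem_range]
    exact (Polynomial.le_natDegree_of_mem_supp n hn).trans_lt hm
  · rw [Polynomial.notMem_support_iff.1 hn, L1_zero]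

private theorem nvx_coeff_le {N : Polynomial (MvPolynomial τ ℤ)} {d : τ → ℕ} {X : ℝ}
    (h : PB d X N) (n : ℕ) : L1 (N.coeff n) ≤ X := by
  by_cases hn : n ∈ N.support
  · exact (Finset.single_le_sum (f := fun n => L1 (N.coeff n)) (fun _ _ => L1_nonneg _) hn).trans
      h.2
  · rw [Polynomial.notMem_support_iff.1 hn, L1_zero]
    exact (Finset.sum_nonneg fun _ _ => L1_nonneg _).trans h.2

private theorem nvx_pow_mul {N : Polynomial (MvPolynomial τ ℤ)} {d : τ → ℕ} {X : ℝ}
    (h : PB d X N) (k : ℕ) : PB d X (Polynomial.X ^ k * N) := by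
  refine ⟨fun n x => ?_, ?_⟩
  · rw [Polynomial.coeff_X_pow_mul']
    split_ifs with h1
    · exact h.1 _ x
    · rw [MvPolynomial.degreeOf_zero]
      exact Nat.zero_le _
  · have hd : (Polynomial.X ^ k * N).natDegree < k + (N.natDegree + 1) := by
      have h1 := Polynomial.natDegree_mul_le (p := (Polynomial.X : Polynomial
        (MvPolynomial τ ℤ)) ^ k) (q := N)
      rw [Polynomial.natDegree_X_pow] at h1
      omega
    rw [nvx_sum_eq _ hd, Finset.sum_range_add]
    have h1 : ∑ x ∈ Finset.range k, L1 ((Polynomial.X ^ k * N).coeff x) = 0 := by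
      refine Finset.sum_eq_zero fun x hx => ?_
      rw [Finset.mem_range] at hx
      rw [Polynomial.coeff_X_pow_mul', if_neg (by omega), L1_zero]
    have h2 : ∑ x ∈ Finset.range (N.natDegree + 1), L1 ((Polynomial.X ^ k * N).coeff (k + x)) =
        ∑ x ∈ Finset.range (N.natDegree + 1), L1 (N.coeff x) := by
      refine Finset.sum_congr rfl fun x _ => ?_
      rw [add_comm k x, Polynomial.coeff_X_pow_mul]
    rw [h1, h2, zero_add, ← nvx_sum_eq _ (Nat.lt_succ_self _)]
    exact h.2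

private theorem nvx_dvd_coeff {S : Type} [CommRing S] [IsDomain S] {lam : S} (hlam : lam ≠ 0)
    (n : ℕ) : ∀ p : Polynomial S, p.natDegree ≤ n → p ≠ 0 → p.eval lam = 0 →
    ∃ i, p.coeff i ≠ 0 ∧ lam ∣ p.coeff i := by
  induction n with
  | zero =>
    intro p hn hp he
    exfalso
    rw [Polynomial.eq_C_of_natDegree_le_zero hn, Polynomial.eval_C] at he
    apply hp
    rw [Polynomial.eq_C_of_natDegree_le_zero hn, he, map_zero]
  | succ n ih =>
    intro p hn hp he
    by_cases h0 : p.coeff 0 = 0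
    · have h1 := p.divX_mul_X_add
      rw [h0, map_zero, add_zero] at h1
      have h2 : p.divX ≠ 0 := by
        intro h
        rw [h, zero_mul] at h1
        exact hp h1.symm
      have h3 : p.divX.eval lam = 0 := by
        rw [← h1, Polynomial.eval_mul, Polynomial.eval_X] at he
        exact (mul_eq_zero.1 he).resolve_right hlam
      obtain ⟨i, hi, hi'⟩ := ih p.divX (by
        rw [Polynomial.natDegree_divX_eq_natDegree_tsub_one]
        omega) h2 h3
      rw [Polynomial.coeff_divX] at hi hi'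
      exact ⟨i + 1, hi, hi'⟩
    · refine ⟨0, h0, ?_⟩
      rw [← p.divX_mul_X_add, Polynomial.eval_add, Polynomial.eval_mul, Polynomial.eval_X,
        Polynomial.eval_C] at he
      exact ⟨-p.divX.eval lam, by linear_combination he⟩

private theorem nvx_L1_monomial (i : τ →₀ ℕ) (a : ℤ) :
    L1 (MvPolynomial.monomial i a) ≤ |(a : ℝ)| := by
  classical
  rw [L1_eq_sum _ {i} MvPolynomial.support_monomial_subset, Finset.sum_singleton,
    MvPolynomial.coeff_monomial, if_pos rfl]

/-- **Norm step.** `S` a domain, `φ : MvPolynomial τ ℤ → S`, `θ ∈ S` a root of `P` (`φ (lead P) ≠ 0`), `N` a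
polynomial with `N(θ) ≠ 0`. There is a polynomial `c` with `φ c ≠ 0`, divisible by `N(θ)`, with bounds.

Proof. Let `g = natDegree P`, `ℓ` the leading coefficient, `E' = E + g`. For `k < g` apply `pseudo_div` to
`Z ^ k * N` (natDegree `≤ E'`, same `PB`): `ℓ ^ E' Z ^ k N = r_k + P Q_k`, `r_k = ∑_{l < g} M k l Z ^ l`. Evaluate
at `θ` (`Polynomial.eval₂ φ θ`): with `lam = φ ℓ ^ E' * N(θ) ≠ 0` and `v l = θ ^ l`:
`∑_l φ (M k l) v l = lam * v k`, `v 0 = 1`. So `lam` is an eigenvalue of `M.map φ`: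
`(M.map φ).charpoly.eval lam = 0` (`Matrix.charpoly`, `Matrix.exists_mulVec_eq_zero_iff` in the domain `S`:
`det (lam - M) = 0`; `Matrix.eval_charpoly` or so), i.e. `∑_i φ (c_i) lam ^ i = 0` with
`c_i = M.charpoly.coeff i` (`Matrix.charpoly_map`), `c_g = 1`. Let `i₀` be minimal with `φ (c_(i₀)) ≠ 0`; as
`lam ≠ 0`, `i₀ < g`, and dividing by `lam ^ i₀`: `φ (c_(i₀)) = - lam * ∑_{i > i₀} φ (c_i) lam ^ (i - i₀ - 1)`. Take
`c = c_(i₀)`; bounds from `charpoly_bd` with `d + E' e` and `X (2 Y) ^ E'`. -/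
theorem norm_step {S : Type} [CommRing S] [IsDomain S] (φ : MvPolynomial τ ℤ →+* S) (θ : S)
    (P N : Polynomial (MvPolynomial τ ℤ)) (hP : 0 < P.natDegree) (hℓ : φ P.leadingCoeff ≠ 0)
    (hθ : P.eval₂ φ θ = 0) (E : ℕ) (hE : N.natDegree ≤ E) (hN : N.eval₂ φ θ ≠ 0)
    (d e : τ → ℕ) (X Y : ℝ) (hNB : PB d X N) (hPB : PB e Y P) :
    ∃ c : MvPolynomial τ ℤ, φ c ≠ 0 ∧ N.eval₂ φ θ ∣ φ c ∧
      (∀ x, c.degreeOf x ≤ P.natDegree * (d x + (E + P.natDegree) * e x)) ∧
      L1 c ≤ P.natDegree.factorial * (1 + X * (2 * Y) ^ (E + P.natDegree)) ^ P.natDegree := by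
  classical
  set g := P.natDegree with hg
  have hdiv : ∀ k : Fin g, ∃ r Q : Polynomial (MvPolynomial τ ℤ), r.natDegree < g ∧
      Polynomial.C (P.leadingCoeff ^ (E + g)) * (Polynomial.X ^ (k : ℕ) * N) = r + P * Q ∧
      PB (fun x => d x + (E + g) * e x) (X * (2 * Y) ^ (E + g)) r := by
    intro k
    refine pseudo_div P _ hP (E + g) ?_ d e X Y (nvx_pow_mul hNB k) hPB
    have h1 := Polynomial.natDegree_mul_le (p := (Polynomial.X : Polynomial
      (MvPolynomial τ ℤ)) ^ (k : ℕ)) (q := N)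
    rw [Polynomial.natDegree_X_pow] at h1
    have h2 := k.2
    omega
  choose r Q hr hrQ hrB using hdiv
  let M : Matrix (Fin g) (Fin g) (MvPolynomial τ ℤ) := fun k l => (r k).coeff l
  set lam : S := φ P.leadingCoeff ^ (E + g) * N.eval₂ φ θ with hlam
  have hlam0 : lam ≠ 0 := mul_ne_zero (pow_ne_zero _ hℓ) hN
  have hev : ∀ k : Fin g, ∑ l : Fin g, φ (M k l) * θ ^ (l : ℕ) = lam * θ ^ (k : ℕ) := by
    intro k
    have h1 := congrArg (Polynomial.eval₂ φ θ) (hrQ k)
    rw [Polynomial.eval₂_mul, Polynomial.eval₂_mul, Polynomial.eval₂_add, Polynomial.eval₂_mul,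
      hθ, zero_mul, add_zero, Polynomial.eval₂_C, map_pow, Polynomial.eval₂_pow,
      Polynomial.eval₂_X, Polynomial.eval₂_eq_sum_range' φ (hr k)] at h1
    rw [Fin.sum_univ_eq_sum_range (fun l => φ ((r k).coeff l) * θ ^ l) g, ← h1, hlam]
    ring
  have hdet : (Matrix.scalar (Fin g) lam - M.map φ).det = 0 := by
    rw [← Matrix.exists_mulVec_eq_zero_iff]
    refine ⟨fun l => θ ^ (l : ℕ), fun h => ?_, ?_⟩
    · have h1 := congrFun h ⟨0, hP⟩
      simp at h1
    · funext k
      rw [Matrix.sub_mulVec, Pi.sub_apply, Pi.zero_apply, sub_eq_zero]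
      have h1 : (Matrix.scalar (Fin g) lam).mulVec (fun l : Fin g => θ ^ (l : ℕ)) k =
          lam * θ ^ (k : ℕ) := by
        rw [Matrix.scalar_apply, Matrix.mulVec_diagonal]
      rw [h1, ← hev k]
      rfl
  have hroot : (M.charpoly.map φ).eval lam = 0 := by
    rw [← Matrix.charpoly_map, Matrix.eval_charpoly]
    exact hdet
  have hmon : M.charpoly.map φ ≠ 0 := ((Matrix.charpoly_monic M).map φ).ne_zero
  obtain ⟨i, hi, hi'⟩ := nvx_dvd_coeff hlam0 _ _ le_rfl hmon hroot
  rw [Polynomial.coeff_map] at hi hi'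
  obtain ⟨hb1, hb2⟩ := charpoly_bd g M (fun x => d x + (E + g) * e x)
    (X * (2 * Y) ^ (E + g)) (fun k l x => (hrB k).1 l x) (fun k l => nvx_coeff_le (hrB k) l) i
  exact ⟨M.charpoly.coeff i, hi, (Dvd.intro_left _ rfl).trans hi', hb1, hb2⟩

/-- **A polynomial as a polynomial in one variable.** -/
theorem extract [DecidableEq τ] (F : MvPolynomial τ ℤ) (a : τ) :
    ∃ N : Polynomial (MvPolynomial τ ℤ), N.natDegree ≤ F.degreeOf a ∧
      PB (fun x => if x = a then 0 else F.degreeOf x) (L1 F) N ∧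
      ∀ (S : Type) [CommRing S] (φ : MvPolynomial τ ℤ →+* S),
        N.eval₂ φ (φ (MvPolynomial.X a)) = φ F := by
  classical
  set c : (τ →₀ ℕ) → MvPolynomial τ ℤ := fun m =>
    MvPolynomial.monomial (m.erase a) (F.coeff m) with hc
  set N : Polynomial (MvPolynomial τ ℤ) := ∑ m ∈ F.support, Polynomial.monomial (m a) (c m)
    with hN
  have hcoeff : ∀ n, N.coeff n = ∑ m ∈ F.support with m a = n, c m := by
    intro n
    rw [hN, Polynomial.finsetSum_coeff, Finset.sum_filter]
    refine Finset.sum_congr rfl fun m _ => ?_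
    rw [Polynomial.coeff_monomial]
  have hL : ∀ n, L1 (N.coeff n) ≤ ∑ m ∈ F.support with m a = n, |((F.coeff m : ℤ) : ℝ)| := by
    intro n
    rw [hcoeff n]
    exact (L1_sum _ _).trans (Finset.sum_le_sum fun m _ => nvx_L1_monomial _ _)
  refine ⟨N, ?_, ⟨fun n x => ?_, ?_⟩, fun S _ φ => ?_⟩
  · rw [hN]
    refine Polynomial.natDegree_sum_le_of_forall_le _ _ fun m hm => ?_
    exact (Polynomial.natDegree_monomial_le _).trans (MvPolynomial.monomial_le_degreeOf a hm)
  · rw [hcoeff n]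
    refine (MvPolynomial.degreeOf_sum_le x _ _).trans (Finset.sup_le fun m hm => ?_)
    have hm' : m ∈ F.support := (Finset.mem_filter.1 hm).1
    show MvPolynomial.degreeOf x (MvPolynomial.monomial (m.erase a) (F.coeff m)) ≤
      if x = a then 0 else F.degreeOf x
    rw [MvPolynomial.degreeOf_monomial_eq _ _ (MvPolynomial.mem_support_iff.1 hm'),
      Finsupp.erase_apply]
    by_cases hx : x = a
    · rw [if_pos hx]
      exact Nat.zero_le _
    · rw [if_neg hx, if_neg hx]
      exact MvPolynomial.monomial_le_degreeOf x hm'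
  · refine (Finset.sum_le_sum fun n _ => hL n).trans ?_
    have h1 : ∑ n ∈ N.support, ∑ m ∈ F.support with m a = n, |((F.coeff m : ℤ) : ℝ)| =
        ∑ m ∈ F.support with m a ∈ N.support, |((F.coeff m : ℤ) : ℝ)| := by
      rw [← Finset.sum_fiberwise_of_maps_to (s := F.support.filter fun m => m a ∈ N.support)
        (t := N.support) (g := fun m => m a) (fun m hm => (Finset.mem_filter.1 hm).2)]
      refine Finset.sum_congr rfl fun n hn => Finset.sum_congr ?_ fun _ _ => rfl
      ext m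
      simp only [Finset.mem_filter]
      constructor
      · rintro ⟨h1, h2⟩
        exact ⟨⟨h1, h2 ▸ hn⟩, h2⟩
      · rintro ⟨⟨h1, -⟩, h2⟩
        exact ⟨h1, h2⟩
    rw [h1]
    exact Finset.sum_le_sum_of_subset_of_nonneg (Finset.filter_subset _ _)
      fun _ _ _ => abs_nonneg _
  · rw [hN, Polynomial.eval₂_finsetSum]
    conv_rhs => rw [← MvPolynomial.support_sum_monomial_coeff F, map_sum]
    refine Finset.sum_congr rfl fun m _ => ?_
    rw [Polynomial.eval₂_monomial, ← map_pow, ← map_mul, hc]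
    congr 1
    have h2 : (MvPolynomial.X a : MvPolynomial τ ℤ) ^ m a =
        MvPolynomial.monomial (Finsupp.single a (m a)) 1 := MvPolynomial.X_pow_eq_monomial
    rw [h2, MvPolynomial.monomial_mul, mul_one, Finsupp.erase_add_single a m]

end Pool.Agent.LSharp
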