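import Pool.Agent.LSharp.HCDefs

set_option autoImplicit false

/-! HC6. The resultant of two coprime polynomials does not vanish. -/

namespace Pool.Agent.LSharp

open MvPolynomial Pool.Agent.LAll

/-- The resultant with respect to the first variable. -/
noncomputable def res {d : ℕ} (A B : MvPolynomial (Fin (d + 1)) ℤ) : MvPolynomial (Fin d) ℤ :=
  Polynomial.resultant (finSuccEquiv ℤ d A) (finSuccEquiv ℤ d B)

/-- Gauss' lemma: relatively prime in `R[X]`, `R` a unique factorisation domain, implies coprime over
the field of fractions. Proof: let `f, g ≠ 0` (otherwise one of them is a unit or both statements are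
trivial: `f = 0` and relatively prime to `g` means `g` a unit). If `f, g` have a common factor of
positive degree over the field of fractions, clear denominators and take its primitive part `h`
(`IsPrimitive`): `h ∣ f` and `h ∣ g` over the fraction field imply `h ∣ f`, `h ∣ g` in `R[X]`
(`Polynomial.IsPrimitive.dvd_of_fraction_map_dvd_fraction_map` needs `h` primitive; `f` any), and `h` is
not a unit. Mathlib has `Polynomial.IsPrimitive...` in `Mathlib/RingTheory/Polynomial/GaussLemma.lean`. -/
theorem isCoprime_map_of_isRelPrime {R L : Type} [CommRing R] [IsDomain R]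
    [UniqueFactorizationMonoid R] [Field L] [Algebra R L] [IsFractionRing R L]
    (f g : Polynomial R) (hf : f ≠ 0) (hg : g ≠ 0) (h : IsRelPrime f g) :
    IsCoprime (f.map (algebraMap R L)) (g.map (algebraMap R L)) := by
  classical
  have hinj : Function.Injective (algebraMap R L) := IsFractionRing.injective R L
  rw [← isRelPrime_iff_isCoprime]
  intro d hd1 hd2
  have hf' : f.map (algebraMap R L) ≠ 0 := (Polynomial.map_ne_zero_iff hinj).2 hf
  have hd0 : d ≠ 0 := fun h0 => hf' (zero_dvd_iff.1 (h0 ▸ hd1))
  let _ : NormalizedGCDMonoid R := Nonempty.some inferInstance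
  obtain ⟨c, c0, hc⟩ := IsLocalization.integerNormalization_spec (nonZeroDivisors R) d
  have hc0 : c ≠ 0 := nonZeroDivisors.ne_zero c0
  set e := IsLocalization.integerNormalization (nonZeroDivisors R) d with he
  have h1 : e.primPart.map (algebraMap R L) ∣ d := by
    have h2 : e.primPart.map (algebraMap R L) ∣ e.map (algebraMap R L) :=
      Polynomial.map_dvd _ (Polynomial.primPart_dvd e)
    have h3 : e.map (algebraMap R L) = Polynomial.C (algebraMap R L c) * d := by
      rw [hc, Algebra.smul_def, Polynomial.algebraMap_apply]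
    rw [h3] at h2
    have hu : IsUnit (Polynomial.C (algebraMap R L c)) := by
      rw [Polynomial.isUnit_C, isUnit_iff_ne_zero]
      exact fun h4 => hc0 (hinj (h4.trans (map_zero _).symm))
    exact (hu.dvd_mul_left).1 h2
  have hp : e.primPart.IsPrimitive := Polynomial.isPrimitive_primPart e
  have h2 : e.primPart ∣ f := hp.dvd_of_fraction_map_dvd_fraction_map (h1.trans hd1)
  have h3 : e.primPart ∣ g := hp.dvd_of_fraction_map_dvd_fraction_map (h1.trans hd2)
  exact Polynomial.isUnit_or_eq_zero_of_isUnit_integerNormalization_primPart hd0 (h h2 h3)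

/-- `Polynomial.resultant_map_map`, `Polynomial.resultant_ne_zero` over the field of fractions
(`natDegree` does not change under the injective map); `finSuccEquiv` is an isomorphism, so relative
primality is preserved. -/
theorem res_ne_zero {d : ℕ} (A B : MvPolynomial (Fin (d + 1)) ℤ) (hA : A ≠ 0) (hB : B ≠ 0)
    (h : IsRelPrime A B) : res A B ≠ 0 := by
  let L := FractionRing (MvPolynomial (Fin d) ℤ)
  have hinj : Function.Injective (algebraMap (MvPolynomial (Fin d) ℤ) L) :=
    IsFractionRing.injective _ _
  have hA' : finSuccEquiv ℤ d A ≠ 0 := by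
    simpa using hA
  have hB' : finSuccEquiv ℤ d B ≠ 0 := by
    simpa using hB
  have hrel : IsRelPrime (finSuccEquiv ℤ d A) (finSuccEquiv ℤ d B) := by
    intro x hx1 hx2
    have key : ∀ C : MvPolynomial (Fin (d + 1)) ℤ, x ∣ finSuccEquiv ℤ d C →
        (finSuccEquiv ℤ d).symm x ∣ C := by
      intro C hC
      have h1 := map_dvd (finSuccEquiv ℤ d).symm hC
      rwa [AlgEquiv.symm_apply_apply] at h1
    have h1 := h (key A hx1) (key B hx2)
    have h2 := h1.map (finSuccEquiv ℤ d)
    rwa [AlgEquiv.apply_symm_apply] at h2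
  have hcop := isCoprime_map_of_isRelPrime (L := L) _ _ hA' hB' hrel
  have h1 := Polynomial.resultant_ne_zero _ _ hcop
  rw [Polynomial.natDegree_map_eq_of_injective hinj, Polynomial.natDegree_map_eq_of_injective hinj,
    Polynomial.resultant_map_map] at h1
  intro h0
  apply h1
  unfold res at h0
  rw [h0, map_zero]

/-- An irreducible `P` which involves the first variable is relatively prime to `∂_0 P`, and
`∂_0 P ≠ 0` (its degree in `X_0` is smaller, so `P` does not divide it: `Irreducible` implies
`IsRelPrime` or divisibility, `Irreducible.isRelPrime_iff_not_dvd`). -/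
theorem isRelPrime_pderiv {d : ℕ} (P : MvPolynomial (Fin (d + 1)) ℤ) (hP : Irreducible P)
    (h0 : 0 < P.degreeOf 0) :
    pderiv 0 P ≠ 0 ∧ (pderiv 0 P).degreeOf 0 < P.degreeOf 0 ∧ IsRelPrime P (pderiv 0 P) := by
  have hlt : (pderiv 0 P).degreeOf 0 < P.degreeOf 0 := by
    rw [degreeOf_lt_iff h0]
    intro m hm
    rw [mem_support_iff, coeff_pderiv] at hm
    have h1 : m + Finsupp.single 0 1 ∈ P.support := by
      rw [mem_support_iff]
      exact left_ne_zero_of_mul hm
    have h2 := monomial_le_degreeOf 0 h1
    simp only [Finsupp.add_apply, Finsupp.single_eq_same] at h2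
    omega
  have hne : pderiv 0 P ≠ 0 := by
    have h1 : ¬ P.degreeOf 0 ≤ 0 := by omega
    rw [degreeOf_le_iff] at h1
    push Not at h1
    obtain ⟨m, hm, hm0⟩ := h1
    intro h2
    have h3 := coeff_pderiv (i := 0) P (m - Finsupp.single 0 1)
    have h4 : m - Finsupp.single 0 1 + Finsupp.single 0 1 = m := by
      apply tsub_add_cancel_of_le
      rw [Finsupp.single_le_iff]
      omega
    rw [h2, h4, coeff_zero] at h3
    rw [mem_support_iff] at hm
    have h5 : (((m - Finsupp.single 0 1 : Fin (d + 1) →₀ ℕ) 0 : ℕ) : ℤ) + 1 ≠ 0 := by positivity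
    exact mul_ne_zero hm h5 h3.symm
  refine ⟨hne, hlt, hP.isRelPrime_iff_not_dvd.2 ?_⟩
  rintro ⟨Q, hQ⟩
  have hP0 : P ≠ 0 := hP.ne_zero
  have hQ0 : Q ≠ 0 := by
    rintro rfl
    rw [mul_zero] at hQ
    exact hne hQ
  have h1 := degreeOf_mul_eq (n := (0 : Fin (d + 1))) hP0 hQ0
  rw [← hQ] at h1
  omega

end Pool.Agent.LSharp
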