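import Pool.Agent.LSharp.TSDefs

set_option autoImplicit false

/-! TS: a basis of the weights adapted to the classes. -/

namespace Pool.Agent.LSharp

/-- A rational number given as a quotient of bounded integers is bounded. -/
private theorem ts_rat_bd (D' : ℕ) (a b : ℤ) (hb : b ≠ 0) (ha : |a| ≤ D') (hb' : |b| ≤ D') :
    |((a : ℚ) / b).num| ≤ D' ∧ ((a : ℚ) / b).den ≤ D' := by
  have e1 : ((a : ℚ) / b) = Rat.divInt a b := (Rat.divInt_eq_div a b).symm
  rw [e1]
  constructor
  · rcases eq_or_ne a 0 with rfl | ha0
    · simp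
    · have h := Rat.num_dvd a hb
      have h2 : (Rat.divInt a b).num.natAbs ∣ a.natAbs := Int.natAbs_dvd_natAbs.mpr h
      have h3 := Nat.le_of_dvd (Int.natAbs_pos.mpr ha0) h2
      have h4 : |(Rat.divInt a b).num| ≤ |a| := by
        rw [Int.abs_eq_natAbs, Int.abs_eq_natAbs]
        exact_mod_cast h3
      exact h4.trans ha
  · have h := Rat.den_dvd a b
    have h2 : (Rat.divInt a b).den ∣ b.natAbs := by
      have := Int.natAbs_dvd_natAbs.mpr h
      simpa using this
    have h3 := Nat.le_of_dvd (Int.natAbs_pos.mpr hb) h2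
    have h4 : ((b.natAbs : ℕ) : ℤ) ≤ D' := by
      rw [← Int.abs_eq_natAbs]; exact hb'
    have h5 : b.natAbs ≤ D' := by exact_mod_cast h4
    exact h3.trans h5

/-- A relation supported on an independent set is trivial. -/
private theorem ts_zero {ι : Type} [Fintype ι] [DecidableEq ι] {t : ι → ℝ} {A : Finset ι}
    (hA : LinearIndepOn ℚ t (A : Set ι)) {e : ι → ℤ} (he : ∀ l ∉ A, e l = 0) (hp : pr e t = 0) :
    e = 0 := by
  have h1 := linearIndepOn_finset_iff.mp hA (fun l => (e l : ℚ))
  have h2 : ∑ l ∈ A, (e l : ℚ) • t l = 0 := by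
    rw [pr, ← Finset.sum_subset (Finset.subset_univ A)] at hp
    · rw [← hp]
      refine Finset.sum_congr rfl fun l _ => ?_
      rw [Rat.smul_def]
      push_cast
      ring
    · intro l _ hl
      rw [he l hl]
      simp
  funext l
  by_cases hl : l ∈ A
  · have := h1 h2 l hl
    exact_mod_cast this
  · exact he l hl

/-- Maximal independent subsets of the classes. -/
private theorem ts_max {β ι M : Type} [Fintype β] [Fintype ι] [DecidableEq ι]
    [DecidableEq M] (t : ι → ℝ) (cl : ι → M) (cb : β → M) (D' : ℕ)
    (hdep : ∀ (m : M) (A : Finset ι), (∀ l ∈ A, cl l = m) →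
      A.card = (Finset.univ.filter fun b => cb b = m).card + 1 →
      ∃ e : ι → ℤ, e ≠ 0 ∧ (∀ l, |e l| ≤ D') ∧ (∀ l ∉ A, e l = 0) ∧ pr e t = 0) (m : M) :
    ∃ B : Finset ι, (∀ l ∈ B, cl l = m) ∧ LinearIndepOn ℚ t (B : Set ι) ∧
      (∀ l, cl l = m → t l ∈ Submodule.span ℚ (t '' (B : Set ι))) ∧
      B.card ≤ (Finset.univ.filter fun b => cb b = m).card := by
  obtain ⟨b, hb1, _, hb3, hb4⟩ := exists_linearIndepOn_extension
    (linearIndepOn_empty ℚ t) (Set.empty_subset {l | cl l = m})
  have hf : b.Finite := Set.toFinite b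
  refine ⟨hf.toFinset, ?_, ?_, ?_, ?_⟩
  · intro l hl
    exact hb1 (hf.mem_toFinset.mp hl)
  · rw [hf.coe_toFinset]; exact hb4
  · intro l hl
    rw [hf.coe_toFinset]
    exact hb3 ⟨l, hl, rfl⟩
  · by_contra hlt
    push Not at hlt
    obtain ⟨A, hA, hAc⟩ := Finset.exists_subset_card_eq (Nat.succ_le_of_lt hlt)
    obtain ⟨e, he0, _, he2, he3⟩ := hdep m A
      (fun l hl => hb1 (hf.mem_toFinset.mp (hA hl))) hAc
    refine he0 (ts_zero (t := t) (A := A) ?_ he2 he3)
    refine hb4.mono ?_
    intro l hl
    exact hf.mem_toFinset.mp (hA hl)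

/-- **Adapted basis.** `t l` are real weights, `cl l` the class of `l`, `cb b` the class of `b`.

Proof. Write `k0 = IntermediateField.adjoin ℚ S`, `d m` = number of the `b` with `cb b = m`. For every class `m` let
`B m ⊆ {l | cl l = m}` be maximal such that the `t l`, `l ∈ B m`, are independent over `ℚ`. `card (B m) ≤ d m`:
otherwise a subset `A` with `d m + 1` elements satisfies a relation `pr e t = 0` with `e ≠ 0` supported on `A`
(`hdep`). By maximality every `t l` with `cl l = m` is in the `ℚ`-span of the `t` of `B m`. So the `ℚ`-span of all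
`t l` has dimension `≤ ∑ m, card (B m) ≤ ∑ m, d m = card β`; the `k0`-span of the `t l` has at most this dimension
over `k0`, and it contains the `θ i` (`ht`, `hrr`), which are independent over `k0`: it has dimension
`≥ card β`. So `card (B m) = d m` for all `m` (also `B m = ∅` if `d m = 0`), and the `t l`, `l` in the union `B` of the
`B m`, are independent over `ℚ`. Choose a bijection `g : β → B` with `cl (g b) = cb b`. For `l` with `cl l = m`: if
`l = g b` let `q l` be the unit vector of `b`; otherwise `hdep` for `A = insert l (B m)` gives `e` with `e l ≠ 0` (else a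
relation between the `t` of `B m`): `q l b = - e (g b) / e l` if `cb b = m` and `0` otherwise; numerator and
denominator are at most `D'`. The determinant: `∑ b, (∑ l, rr i l q l b) t (g b) = θ i`. The matrix has
entries in `k0`; if it is singular there is `c ≠ 0` in `k0^β` with `∑ i, c i * (∑ l, rr i l q l b) = 0` for all
`b`, so `∑ c i θ i = 0`, a contradiction. -/
theorem exists_q {β ι M : Type} [Fintype β] [DecidableEq β] [Fintype ι] [DecidableEq ι]
    [DecidableEq M] (S : Set ℝ) (rr : β → ι → ℝ) (hrr : ∀ i l, rr i l ∈ S) (θ : β → ℝ)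
    (hθ : LinearIndependent (IntermediateField.adjoin ℚ S) θ) (t : ι → ℝ)
    (ht : ∀ i, ∑ l, rr i l * t l = θ i) (cl : ι → M) (cb : β → M) (D' : ℕ) (hD : 1 ≤ D')
    (hdep : ∀ (m : M) (A : Finset ι), (∀ l ∈ A, cl l = m) →
      A.card = (Finset.univ.filter fun b => cb b = m).card + 1 →
      ∃ e : ι → ℤ, e ≠ 0 ∧ (∀ l, |e l| ≤ D') ∧ (∀ l ∉ A, e l = 0) ∧ pr e t = 0) :
    ∃ (g : β → ι) (q : ι → β → ℚ), (∀ b, cl (g b) = cb b) ∧ (∀ l b, q l b ≠ 0 → cl l = cb b) ∧
      (∀ l b, |(q l b).num| ≤ D' ∧ (q l b).den ≤ D') ∧
      (∀ l, t l = ∑ b, (q l b : ℝ) * t (g b)) ∧ LinearIndependent ℚ (fun b => t (g b)) ∧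
      (Matrix.of fun i b => ∑ l, rr i l * (q l b : ℝ)).det ≠ 0 := by
  classical
  choose B hB1 hB2 hB3 hB4 using ts_max t cl cb D' hdep
  set U : Finset ι := Finset.univ.filter fun l => l ∈ B (cl l) with hU
  have hUB : ∀ m, U.filter (fun l => cl l = m) = B m := by
    intro m
    ext l
    simp only [hU, Finset.mem_filter, Finset.mem_univ, true_and]
    constructor
    · rintro ⟨h1, h2⟩
      rw [← h2]; exact h1
    · intro h
      have := hB1 m l h
      exact ⟨by rw [this]; exact h, this⟩
  set C : Finset M := Finset.univ.image cl ∪ Finset.univ.image cb with hC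
  have cU : U.card = ∑ m ∈ C, (B m).card := by
    rw [Finset.card_eq_sum_card_fiberwise (f := cl) (t := C)]
    · refine Finset.sum_congr rfl fun m _ => ?_
      rw [hUB]
    · intro l _
      simp [hC]
  have cβ : Fintype.card β = ∑ m ∈ C, (Finset.univ.filter fun b => cb b = m).card := by
    rw [← Finset.card_univ, Finset.card_eq_sum_card_fiberwise (f := cb) (t := C)]
    intro l _
    simp [hC]
  -- the span over `k0`
  have hspan : ∀ l, t l ∈ Submodule.span (IntermediateField.adjoin ℚ S)
      (Set.range fun l : U => t l) := by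
    intro l
    have h1 := hB3 (cl l) l rfl
    have h2 : Submodule.span ℚ (t '' (B (cl l) : Set ι)) ≤
        (Submodule.span (IntermediateField.adjoin ℚ S)
          (Set.range fun l : U => t l)).restrictScalars ℚ := by
      rw [Submodule.span_le]
      rintro _ ⟨l', hl', rfl⟩
      refine Submodule.subset_span ⟨⟨l', ?_⟩, rfl⟩
      have := hB1 _ l' hl'
      simp only [hU, Finset.mem_filter, Finset.mem_univ, true_and]
      rw [this]; exact hl'
    exact h2 h1
  have hθs : ∀ i, θ i ∈ Submodule.span (IntermediateField.adjoin ℚ S)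
      (Set.range fun l : U => t l) := by
    intro i
    rw [← ht i]
    refine Submodule.sum_mem _ fun l _ => ?_
    have : rr i l * t l =
        (⟨rr i l, IntermediateField.subset_adjoin ℚ S (hrr i l)⟩ :
          IntermediateField.adjoin ℚ S) • t l := rfl
    rw [this]
    exact Submodule.smul_mem _ _ (hspan l)
  have hfin : Module.Finite (IntermediateField.adjoin ℚ S)
      (Submodule.span (IntermediateField.adjoin ℚ S) (Set.range fun l : U => t l)) :=
    Module.Finite.span_of_finite _ (Set.finite_range _)
  have hcard1 : Fintype.card β ≤ (Set.range fun l : U => t l).finrank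
      (IntermediateField.adjoin ℚ S) := by
    have h1 : LinearIndependent (IntermediateField.adjoin ℚ S)
        (fun i => (⟨θ i, hθs i⟩ : Submodule.span (IntermediateField.adjoin ℚ S)
          (Set.range fun l : U => t l))) := by
      refine LinearIndependent.of_comp (Submodule.subtype _) ?_
      exact hθ
    exact h1.fintype_card_le_finrank
  have hcard2 : (Set.range fun l : U => t l).finrank (IntermediateField.adjoin ℚ S) ≤
      Fintype.card U := finrank_range_le_card _
  have hcU : Fintype.card U = U.card := Fintype.card_coe U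
  have hsum : ∑ m ∈ C, (B m).card =
      ∑ m ∈ C, (Finset.univ.filter fun b => cb b = m).card := by
    apply le_antisymm
    · exact Finset.sum_le_sum fun m _ => hB4 m
    · rw [← cU, ← cβ, ← hcU]
      exact hcard1.trans hcard2
  have hBc : ∀ m, (B m).card = (Finset.univ.filter fun b => cb b = m).card := by
    intro m
    by_cases hm : m ∈ C
    · exact (Finset.sum_eq_sum_iff_of_le fun m _ => hB4 m).mp hsum m hm
    · have h0 : (Finset.univ.filter fun b => cb b = m) = ∅ := by
        rw [Finset.filter_eq_empty_iff]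
        intro b _ hb
        apply hm
        simp only [hC, Finset.mem_union, Finset.mem_image, Finset.mem_univ, true_and]
        exact Or.inr ⟨b, hb⟩
      have := hB4 m
      rw [h0, Finset.card_empty] at this
      rw [h0, Finset.card_empty]
      omega
  have hindU : LinearIndependent ℚ (fun l : U => t l) := by
    have h1 : LinearIndependent (IntermediateField.adjoin ℚ S) (fun l : U => t l) := by
      rw [linearIndependent_iff_card_le_finrank_span, hcU, cU, hsum, ← cβ]
      exact hcard1
    exact h1.restrict_scalars' ℚ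
  -- the bijection
  have hequiv : ∀ m, Nonempty ({b // cb b = m} ≃ {l // l ∈ B m}) := by
    intro m
    rw [← Fintype.card_eq, Fintype.card_coe, Fintype.card_subtype, hBc m]
  have E : ∀ m, {b // cb b = m} ≃ {l // l ∈ B m} := fun m => (hequiv m).some
  set g : β → ι := fun b => ((E (cb b) ⟨b, rfl⟩ : {l // l ∈ B (cb b)}) : ι) with hg
  have hgE : ∀ m (b : β) (hb : cb b = m), g b = (E m ⟨b, hb⟩ : {l // l ∈ B m}) := by
    rintro m b rfl
    rfl
  have hgB : ∀ b, g b ∈ B (cb b) := fun b => (E (cb b) ⟨b, rfl⟩).2
  have hgc : ∀ b, cl (g b) = cb b := fun b => hB1 _ _ (hgB b)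
  have hgU : ∀ b, g b ∈ U := by
    intro b
    simp only [hU, Finset.mem_filter, Finset.mem_univ, true_and]
    rw [hgc]; exact hgB b
  have hgi : Function.Injective g := by
    intro b b' h
    have h1 : cb b' = cb b := by rw [← hgc b', ← hgc b, h]
    have h2 : (E (cb b) ⟨b, rfl⟩ : {l // l ∈ B (cb b)}) = E (cb b) ⟨b', h1⟩ := by
      apply Subtype.ext
      rw [← hgE (cb b) b rfl, ← hgE (cb b) b' h1, h]
    have h3 := (E (cb b)).injective h2
    exact congrArg Subtype.val h3
  have hgs : ∀ m, B m = (Finset.univ.filter fun b => cb b = m).image g := by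
    intro m
    ext l
    simp only [Finset.mem_image, Finset.mem_filter, Finset.mem_univ, true_and]
    constructor
    · intro hl
      obtain ⟨⟨b, hb⟩, hb2⟩ := (E m).surjective ⟨l, hl⟩
      exact ⟨b, hb, by rw [hgE m b hb, hb2]⟩
    · rintro ⟨b, hb, rfl⟩
      rw [← hb]; exact hgB b
  have hindg : LinearIndependent ℚ (fun b => t (g b)) := by
    have := hindU.comp (fun b => (⟨g b, hgU b⟩ : U)) (by
      intro b b' h
      exact hgi (congrArg Subtype.val h))
    exact this
  -- the coefficients
  have hq : ∀ l, ∃ q : β → ℚ, (∀ b, q b ≠ 0 → cl l = cb b) ∧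
      (∀ b, |(q b).num| ≤ D' ∧ (q b).den ≤ D') ∧ t l = ∑ b, (q b : ℝ) * t (g b) := by
    intro l
    by_cases hl : l ∈ B (cl l)
    · rw [hgs] at hl
      simp only [Finset.mem_image, Finset.mem_filter, Finset.mem_univ, true_and] at hl
      obtain ⟨b0, hb0, hb1⟩ := hl
      refine ⟨Pi.single b0 1, ?_, ?_, ?_⟩
      · intro b hb
        by_cases h : b = b0
        · rw [h]; exact hb0.symm
        · exact absurd (Pi.single_eq_of_ne h _) hb
      · intro b
        by_cases h : b = b0
        · rw [h, Pi.single_eq_same]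
          constructor
          · simpa using hD
          · simpa using hD
        · rw [Pi.single_eq_of_ne h]
          constructor
          · simp
          · simpa using hD
      · rw [Finset.sum_eq_single b0]
        · rw [Pi.single_eq_same, hb1]; simp
        · intro b _ h
          rw [Pi.single_eq_of_ne h]; simp
        · intro h; exact absurd (Finset.mem_univ _) h
    · obtain ⟨e, he0, he1, he2, he3⟩ := hdep (cl l) (insert l (B (cl l)))
        (by
          intro l' hl'
          rcases Finset.mem_insert.mp hl' with rfl | h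
          · rfl
          · exact hB1 _ _ h)
        (by rw [Finset.card_insert_of_notMem hl, hBc])
      have hel : e l ≠ 0 := by
        intro h
        refine he0 (ts_zero (hB2 (cl l)) ?_ he3)
        intro l' hl'
        by_cases h2 : l' = l
        · rw [h2]; exact h
        · exact he2 l' (by
            intro h3
            rcases Finset.mem_insert.mp h3 with h4 | h4
            · exact h2 h4
            · exact hl' h4)
      refine ⟨fun b => if cb b = cl l then (((-(e (g b)) : ℤ) : ℚ)) / (e l : ℚ) else 0, ?_, ?_, ?_⟩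
      · intro b hb
        by_contra h
        exact hb (if_neg fun h2 => h h2.symm)
      · intro b
        dsimp only
        split_ifs with h
        · exact ts_rat_bd D' _ _ hel (by rw [abs_neg]; exact he1 _) (he1 _)
        · constructor
          · simp
          · simpa using hD
      · have h1 : pr e t = (e l : ℝ) * t l + ∑ b, if cb b = cl l then (e (g b) : ℝ) * t (g b)
            else 0 := by
          rw [pr, ← Finset.sum_subset (Finset.subset_univ (insert l (B (cl l))))]
          · rw [Finset.sum_insert hl]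
            congr 1
            rw [hgs (cl l), Finset.sum_image (fun b _ b' _ h => hgi h), Finset.sum_filter]
          · intro l' _ hl'
            rw [he2 l' hl']; simp
        rw [he3] at h1
        have hel' : (e l : ℝ) ≠ 0 := by exact_mod_cast hel
        have h2 : (e l : ℝ) * t l = -∑ b, if cb b = cl l then (e (g b) : ℝ) * t (g b) else 0 := by
          linarith
        have h3 : ∑ b, (((if cb b = cl l then (((-(e (g b)) : ℤ) : ℚ)) / (e l : ℚ) else 0 : ℚ)) : ℝ)
            * t (g b) = (-∑ b, if cb b = cl l then (e (g b) : ℝ) * t (g b) else 0) / (e l : ℝ) := by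
          rw [← Finset.sum_neg_distrib, Finset.sum_div]
          refine Finset.sum_congr rfl fun b _ => ?_
          split_ifs
          · push_cast; ring
          · simp
        rw [h3, ← h2, mul_div_cancel_left₀ _ hel']
  choose q hq1 hq2 hq3 using hq
  refine ⟨g, q, hgc, hq1, hq2, hq3, hindg, ?_⟩
  -- the determinant
  intro hdet
  have hmem : ∀ i b, ∑ l, rr i l * (q l b : ℝ) ∈ IntermediateField.adjoin ℚ S := by
    intro i b
    refine sum_mem fun l _ => mul_mem (IntermediateField.subset_adjoin ℚ S (hrr i l)) ?_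
    exact (IntermediateField.adjoin ℚ S).algebraMap_mem (q l b)
  set N : Matrix β β (IntermediateField.adjoin ℚ S) :=
    Matrix.of fun i b => ⟨∑ l, rr i l * (q l b : ℝ), hmem i b⟩ with hN
  have hNd : N.det = 0 := by
    have h1 : algebraMap (IntermediateField.adjoin ℚ S) ℝ N.det = 0 := by
      rw [RingHom.map_det, ← hdet]
      rfl
    exact (map_eq_zero_iff _ (algebraMap (IntermediateField.adjoin ℚ S) ℝ).injective).mp h1
  obtain ⟨c, hc0, hc1⟩ := Matrix.exists_vecMul_eq_zero_iff.mpr hNd
  apply hc0
  have hlin := Fintype.linearIndependent_iff.mp hθ c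
  funext i
  refine hlin ?_ i
  have h2 : ∀ i, θ i = ∑ b, (∑ l, rr i l * (q l b : ℝ)) * t (g b) := by
    intro i
    rw [← ht i]
    simp_rw [Finset.sum_mul]
    rw [Finset.sum_comm]
    refine Finset.sum_congr rfl fun l _ => ?_
    conv_lhs => rw [hq3 l]
    rw [Finset.mul_sum]
    refine Finset.sum_congr rfl fun b _ => ?_
    ring
  have h3 : ∀ b, ∑ i, (c i : ℝ) * (∑ l, rr i l * (q l b : ℝ)) = 0 := by
    intro b
    have h4 := congrFun hc1 b
    have h5 := congrArg (fun x : IntermediateField.adjoin ℚ S => (x : ℝ)) h4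
    simp only [Matrix.vecMul, dotProduct, hN, Matrix.of_apply] at h5
    push_cast at h5
    exact h5
  calc ∑ i, c i • θ i = ∑ i, ∑ b, (c i : ℝ) * ((∑ l, rr i l * (q l b : ℝ)) * t (g b)) := by
        refine Finset.sum_congr rfl fun i _ => ?_
        conv_lhs => rw [h2 i]
        rw [← Finset.mul_sum]
        rfl
    _ = ∑ b, (∑ i, (c i : ℝ) * (∑ l, rr i l * (q l b : ℝ))) * t (g b) := by
        rw [Finset.sum_comm]
        refine Finset.sum_congr rfl fun b _ => ?_
        rw [Finset.sum_mul]
        refine Finset.sum_congr rfl fun i _ => ?_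
        ring
    _ = 0 := by
        refine Finset.sum_eq_zero fun b _ => ?_
        rw [h3 b, zero_mul]

/-- Proof. Finitely many numerators and denominators. -/
theorem finite_q {β ι : Type} [Finite β] [Finite ι] (D' : ℕ) :
    {q : ι → β → ℚ | ∀ l b, |(q l b).num| ≤ D' ∧ (q l b).den ≤ D'}.Finite := by
  have h1 : {x : ℚ | |x.num| ≤ D' ∧ x.den ≤ D'}.Finite := by
    have h2 : ((Set.Icc (-(D' : ℤ)) D') ×ˢ (Set.Iic D')).Finite :=
      (Set.finite_Icc _ _).prod (Set.finite_Iic _)
    refine Set.Finite.of_finite_image (f := fun x : ℚ => (x.num, x.den)) (h2.subset ?_) ?_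
    · rintro _ ⟨x, ⟨h3, h4⟩, rfl⟩
      exact ⟨abs_le.mp h3, h4⟩
    · intro x _ y _ hxy
      have h5 := (Prod.mk.inj hxy).1
      have h6 := (Prod.mk.inj hxy).2
      exact Rat.ext h5 h6
  have h2 : (Set.univ.pi fun _ : ι => Set.univ.pi fun _ : β =>
      {x : ℚ | |x.num| ≤ D' ∧ x.den ≤ D'}).Finite :=
    Set.Finite.pi fun _ => Set.Finite.pi fun _ => h1
  refine h2.subset ?_
  intro q hq l _ b _
  exact hq l b

end Pool.Agent.LSharp
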