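import Pool.Agent.LSharp.TSDefs

set_option autoImplicit false

/-! TS: evaluation of convergent power series. -/

namespace Pool.Agent.LSharp

open MvPolynomial

section

variable {K β : Type} [Field K] [Fintype β]

private theorem ts_deg (i : β →₀ ℕ) : i.degree = ∑ b, i b := Finsupp.degree_eq_sum i

private theorem ts_geo (β : Type) [Fintype β] :
    Summable fun i : β →₀ ℕ => (1 / 2 : ℝ) ^ i.degree := by
  classical
  refine summable_of_sum_le (c := 2 ^ Fintype.card β) (fun i => by positivity) fun u => ?_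
  obtain ⟨N, hN⟩ : ∃ N : ℕ, ∀ i ∈ u, ∀ b, i b < N := by
    refine ⟨(u.sup fun i => Finset.univ.sup fun b => i b) + 1, fun i hi b => ?_⟩
    have h1 : (Finset.univ.sup fun b => i b) ≤ u.sup fun i => Finset.univ.sup fun b => i b :=
      Finset.le_sup (f := fun i : β →₀ ℕ => Finset.univ.sup fun b => i b) hi
    have h2 : i b ≤ Finset.univ.sup fun b => i b :=
      Finset.le_sup (f := fun b => i b) (Finset.mem_univ b)
    omega
  calc ∑ i ∈ u, (1 / 2 : ℝ) ^ i.degree = ∑ i ∈ u, ∏ b, (1 / 2 : ℝ) ^ (i b) := by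
        refine Finset.sum_congr rfl fun i _ => ?_
        rw [ts_deg, Finset.prod_pow_eq_pow_sum]
    _ = ∑ x ∈ u.image (fun i : β →₀ ℕ => (i : β → ℕ)), ∏ b, (1 / 2 : ℝ) ^ (x b) := by
        rw [Finset.sum_image]
        intro i _ j _ hij
        exact DFunLike.coe_injective hij
    _ ≤ ∑ x ∈ Fintype.piFinset (fun _ : β => Finset.range N), ∏ b, (1 / 2 : ℝ) ^ (x b) := by
        refine Finset.sum_le_sum_of_subset_of_nonneg ?_ fun x _ _ => by positivity
        intro x hx
        obtain ⟨i, hi, rfl⟩ := Finset.mem_image.1 hx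
        rw [Fintype.mem_piFinset]
        intro b
        exact Finset.mem_range.2 (hN i hi b)
    _ = ∏ _b : β, ∑ n ∈ Finset.range N, (1 / 2 : ℝ) ^ n := by
        rw [Finset.prod_univ_sum]
    _ ≤ ∏ _b : β, (2 : ℝ) := by
        refine Finset.prod_le_prod (fun b _ => by positivity) fun b _ => ?_
        exact sum_geometric_two_le N
    _ = 2 ^ Fintype.card β := by
        rw [Finset.prod_const, Finset.card_univ]

/-- Proof. Comparison. -/
theorem cv_mono (s : K →+* ℂ) {ρ ρ' : ℝ} (h0 : 0 ≤ ρ') (h : ρ' ≤ ρ) {f : MvPowerSeries β K}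
    (hf : Cv s ρ f) : Cv s ρ' f := by
  unfold Cv at hf ⊢
  refine Summable.of_nonneg_of_le (fun i => by positivity) (fun i => ?_) hf
  exact mul_le_mul_of_nonneg_left (pow_le_pow_left₀ h0 h _) (norm_nonneg _)

/-- Proof. The number of the `i : β →₀ ℕ` of degree `n` is at most `(n + 1) ^ card β`; or: for
`ρ = 1 / (2 max C 1)` the summand is at most `C (1/2)^|i| = C ∏ b (1/2)^(i b)`, a product of
geometric series (`Finsupp`/`Pi` sums: `summable_prod...`; `i.degree = ∑ b, i b`). -/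
theorem cv_of_growth (s : K →+* ℂ) (C : ℝ) : ∃ ρ : ℝ, 0 < ρ ∧ ∀ f : MvPowerSeries β K,
    (∀ i, ‖s (MvPowerSeries.coeff i f)‖ ≤ C ^ (i.degree + 1)) → Cv s ρ f := by
  obtain ⟨D, hD, hCD⟩ : ∃ D : ℝ, 0 < D ∧ |C| ≤ D := ⟨|C| + 1, by positivity, by linarith⟩
  refine ⟨1 / (2 * D), by positivity, fun f hf => ?_⟩
  unfold Cv
  refine Summable.of_nonneg_of_le (fun i => by positivity) (fun i => ?_) ((ts_geo β).mul_left D)
  have h1 : ‖s (MvPowerSeries.coeff i f)‖ ≤ D ^ (i.degree + 1) := by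
    refine (hf i).trans ((le_abs_self _).trans ?_)
    rw [abs_pow]
    exact pow_le_pow_left₀ (abs_nonneg _) hCD _
  calc ‖s (MvPowerSeries.coeff i f)‖ * (1 / (2 * D)) ^ i.degree
      ≤ D ^ (i.degree + 1) * (1 / (2 * D)) ^ i.degree :=
        mul_le_mul_of_nonneg_right h1 (by positivity)
    _ = D * (1 / 2) ^ i.degree := by
        rw [pow_succ, one_div_pow, one_div_pow, mul_pow]
        field_simp

theorem cv_C (s : K →+* ℂ) (ρ : ℝ) (a : K) : Cv s ρ (MvPowerSeries.C a : MvPowerSeries β K) := by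
  classical
  unfold Cv
  refine summable_of_ne_finset_zero (s := {0}) fun i hi => ?_
  rw [MvPowerSeries.coeff_C, if_neg (by simpa using hi), map_zero, norm_zero, zero_mul]

theorem cv_X (s : K →+* ℂ) (ρ : ℝ) (b : β) : Cv s ρ (MvPowerSeries.X b : MvPowerSeries β K) := by
  classical
  unfold Cv
  refine summable_of_ne_finset_zero (s := {Finsupp.single b 1}) fun i hi => ?_
  rw [MvPowerSeries.coeff_X, if_neg (by simpa using hi), map_zero, norm_zero, zero_mul]

theorem cv_add (s : K →+* ℂ) {ρ : ℝ} (hρ : 0 ≤ ρ) {f g : MvPowerSeries β K} (hf : Cv s ρ f)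
    (hg : Cv s ρ g) : Cv s ρ (f + g) := by
  unfold Cv at hf hg ⊢
  refine Summable.of_nonneg_of_le (fun i => by positivity) (fun i => ?_) (hf.add hg)
  rw [map_add, map_add, ← add_mul]
  exact mul_le_mul_of_nonneg_right (norm_add_le _ _) (by positivity)

/-- Proof. Cauchy product: `summable_norm_sum_mul_antidiagonal_of_summable_norm` for the additive
monoid `β →₀ ℕ` (`HasAntidiagonal`), applied to `i ↦ s (coeff i f) * ρ^|i|`; `coeff i (f g)` is
the sum over the antidiagonal and `|i| = |j| + |k|`. -/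
theorem cv_mul (s : K →+* ℂ) {ρ : ℝ} (hρ : 0 ≤ ρ) {f g : MvPowerSeries β K} (hf : Cv s ρ f)
    (hg : Cv s ρ g) : Cv s ρ (f * g) := by
  classical
  unfold Cv at hf hg ⊢
  have h0 : Summable fun x : (β →₀ ℕ) × (β →₀ ℕ) =>
      (‖s (MvPowerSeries.coeff x.1 f)‖ * ρ ^ x.1.degree) *
        (‖s (MvPowerSeries.coeff x.2 g)‖ * ρ ^ x.2.degree) :=
    hf.mul_of_nonneg hg (fun i => by positivity) fun i => by positivity
  have h := summable_sum_mul_antidiagonal_of_summable_mul (A := β →₀ ℕ)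
    (f := fun i => ‖s (MvPowerSeries.coeff i f)‖ * ρ ^ i.degree)
    (g := fun i => ‖s (MvPowerSeries.coeff i g)‖ * ρ ^ i.degree) h0
  refine Summable.of_nonneg_of_le (fun i => by positivity) (fun i => ?_) h
  rw [MvPowerSeries.coeff_mul, map_sum]
  refine (mul_le_mul_of_nonneg_right (norm_sum_le _ _) (by positivity)).trans (le_of_eq ?_)
  rw [Finset.sum_mul]
  refine Finset.sum_congr rfl fun p hp => ?_
  have hp' : p.1 + p.2 = i := Finset.HasAntidiagonal.mem_antidiagonal.1 hp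
  rw [map_mul, norm_mul, ← hp', map_add, pow_add]
  ring

theorem evf_C (s : K →+* ℂ) (z : β → ℂ) (a : K) :
    evf s z (MvPowerSeries.C a : MvPowerSeries β K) = s a := by
  classical
  unfold evf
  rw [tsum_eq_single 0]
  · simp
  · intro i hi
    rw [MvPowerSeries.coeff_C, if_neg hi, map_zero, zero_mul]

theorem evf_X (s : K →+* ℂ) (z : β → ℂ) (b : β) :
    evf s z (MvPowerSeries.X b : MvPowerSeries β K) = z b := by
  classical
  unfold evf
  rw [tsum_eq_single (Finsupp.single b 1)]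
  · rw [MvPowerSeries.coeff_X, if_pos rfl, map_one, one_mul, Finset.prod_eq_single b]
    · simp
    · intro c _ hc
      rw [Finsupp.single_eq_of_ne hc, pow_zero]
    · intro hb
      exact absurd (Finset.mem_univ b) hb
  · intro i hi
    rw [MvPowerSeries.coeff_X, if_neg hi, map_zero, zero_mul]

/-- The summands of `evf s z f` are absolutely summable. -/
theorem evf_summable (s : K →+* ℂ) {ρ : ℝ} {f : MvPowerSeries β K} (hf : Cv s ρ f) {z : β → ℂ}
    (hz : ∀ b, ‖z b‖ ≤ ρ) :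
    Summable fun i : β →₀ ℕ => ‖s (MvPowerSeries.coeff i f) * ∏ b, z b ^ i b‖ := by
  unfold Cv at hf
  refine Summable.of_nonneg_of_le (fun i => by positivity) (fun i => ?_) hf
  rw [norm_mul, norm_prod]
  refine mul_le_mul_of_nonneg_left ?_ (norm_nonneg _)
  rw [ts_deg, ← Finset.prod_pow_eq_pow_sum]
  refine Finset.prod_le_prod (fun b _ => norm_nonneg _) fun b _ => ?_
  rw [norm_pow]
  exact pow_le_pow_left₀ (norm_nonneg _) (hz b) _

theorem evf_add (s : K →+* ℂ) {ρ : ℝ} {f g : MvPowerSeries β K} (hf : Cv s ρ f)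
    (hg : Cv s ρ g) {z : β → ℂ} (hz : ∀ b, ‖z b‖ ≤ ρ) :
    evf s z (f + g) = evf s z f + evf s z g := by
  unfold evf
  rw [← Summable.tsum_add (evf_summable s hf hz).of_norm (evf_summable s hg hz).of_norm]
  refine tsum_congr fun i => ?_
  rw [map_add, map_add, add_mul]

/-- Proof. `tsum_mul_tsum_eq_tsum_sum_antidiagonal_of_summable_norm`. -/
theorem evf_mul (s : K →+* ℂ) {ρ : ℝ} {f g : MvPowerSeries β K} (hf : Cv s ρ f)
    (hg : Cv s ρ g) {z : β → ℂ} (hz : ∀ b, ‖z b‖ ≤ ρ) :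
    evf s z (f * g) = evf s z f * evf s z g := by
  classical
  unfold evf
  obtain ⟨F, hF⟩ : ∃ F : (β →₀ ℕ) → ℂ, F = fun i => s (MvPowerSeries.coeff i f) * ∏ b, z b ^ i b :=
    ⟨_, rfl⟩
  obtain ⟨G, hG⟩ : ∃ G : (β →₀ ℕ) → ℂ, G = fun i => s (MvPowerSeries.coeff i g) * ∏ b, z b ^ i b :=
    ⟨_, rfl⟩
  have h1 : Summable fun i => ‖F i‖ := by
    rw [hF]
    exact evf_summable s hf hz
  have h2 : Summable fun i => ‖G i‖ := by
    rw [hG]
    exact evf_summable s hg hz
  have h := Summable.tsum_mul_tsum_eq_tsum_sum_antidiagonal h1.of_norm h2.of_norm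
    (summable_mul_of_summable_norm h1 h2)
  rw [← hF, ← hG]
  rw [h]
  refine tsum_congr fun i => ?_
  rw [MvPowerSeries.coeff_mul, map_sum, Finset.sum_mul]
  refine Finset.sum_congr rfl fun p hp => ?_
  have hp' : p.1 + p.2 = i := Finset.HasAntidiagonal.mem_antidiagonal.1 hp
  have h3 : ∏ b, z b ^ i b = (∏ b, z b ^ p.1 b) * ∏ b, z b ^ p.2 b := by
    rw [← Finset.prod_mul_distrib]
    refine Finset.prod_congr rfl fun b _ => ?_
    rw [← hp', Finsupp.add_apply, pow_add]
  rw [map_mul, h3, hF, hG]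
  ring

/-- Proof. Only the summand `i = 0`. -/
theorem evf_zero (s : K →+* ℂ) (f : MvPowerSeries β K) :
    evf s 0 f = s (MvPowerSeries.constantCoeff f) := by
  classical
  unfold evf
  rw [tsum_eq_single 0]
  · simp
  · intro i hi
    obtain ⟨b, hb⟩ : ∃ b, i b ≠ 0 := by
      by_contra h
      push Not at h
      exact hi (Finsupp.ext h)
    rw [Finset.prod_eq_zero (Finset.mem_univ b), mul_zero]
    exact zero_pow hb

/-- Polynomials in convergent power series.

Proof. `MvPolynomial.induction_on`. -/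
theorem evf_aeval (s : K →+* ℂ) {ρ : ℝ} (hρ : 0 ≤ ρ) {ι : Type} (w : ι → MvPowerSeries β K)
    (hw : ∀ l, Cv s ρ (w l)) (P : MvPolynomial ι K) : Cv s ρ (aeval w P) ∧
      ∀ z : β → ℂ, (∀ b, ‖z b‖ ≤ ρ) →
        evf s z (aeval w P) = eval₂ s (fun l => evf s z (w l)) P := by
  induction P using MvPolynomial.induction_on with
  | C a =>
    rw [aeval_C]
    refine ⟨cv_C s ρ a, fun z _ => ?_⟩
    rw [eval₂_C]
    exact evf_C s z a
  | add p q hp hq =>
    rw [map_add]
    refine ⟨cv_add s hρ hp.1 hq.1, fun z hz => ?_⟩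
    rw [evf_add s hp.1 hq.1 hz, hp.2 z hz, hq.2 z hz, eval₂_add]
  | mul_X p l hp =>
    rw [map_mul, aeval_X]
    refine ⟨cv_mul s hρ hp.1 (hw l), fun z hz => ?_⟩
    rw [evf_mul s hp.1 (hw l) hz, hp.2 z hz, eval₂_mul, eval₂_X]

end

end Pool.Agent.LSharp
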