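import Pool.Agent.LSharp.TSVal

set_option autoImplicit false

/-! TS: the powers of an element of large value are independent over small combinations. -/

namespace Pool.Agent.LSharp

open MvPolynomial Module Matrix Pool.Agent.CITLines Pool.Agent.Srf5

/-- The exponent of a family of small numbers. -/
private noncomputable def tsE {β : Type} [Fintype β] {E : ℕ} (e : β → Fin E) : β →₀ ℕ :=
  Finsupp.equivFunOnFinite.symm (fun i => (e i : ℕ))

private theorem tsE_apply {β : Type} [Fintype β] {E : ℕ} (e : β → Fin E) (i : β) :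
    tsE e i = (e i : ℕ) := by
  simp [tsE]

private theorem tsE_inj {β : Type} [Fintype β] {E : ℕ} :
    Function.Injective (tsE : (β → Fin E) → (β →₀ ℕ)) := by
  intro a b hab
  funext i
  apply Fin.ext
  have := DFunLike.congr_fun hab i
  simpa [tsE_apply] using this

/-- The polynomial with given coefficients. -/
private noncomputable def tsG {K β : Type} [Field K] [Fintype β] [DecidableEq β] {E : ℕ}
    (k : (β → Fin E) → K) : MvPolynomial β K :=
  ∑ e, MvPolynomial.monomial (tsE e) (k e)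

private theorem tsG_aeval {K A β : Type} [Field K] [Field A] [Algebra K A] [Fintype β]
    [DecidableEq β] {E : ℕ} (k : (β → Fin E) → K) (c : β → A) :
    aeval c (tsG k) = ∑ e : β → Fin E, algebraMap K A (k e) * ∏ i, c i ^ (e i : ℕ) := by
  unfold tsG
  rw [map_sum]
  refine Finset.sum_congr rfl fun e _ => ?_
  rw [MvPolynomial.aeval_monomial, Finsupp.prod_fintype _ _ (by simp)]
  simp [tsE_apply]

private theorem tsG_coeff {K β : Type} [Field K] [Fintype β] [DecidableEq β] {E : ℕ}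
    (k : (β → Fin E) → K) (e : β → Fin E) : MvPolynomial.coeff (tsE e) (tsG k) = k e := by
  unfold tsG
  rw [MvPolynomial.coeff_sum, Finset.sum_eq_single e]
  · simp
  · intro b _ hb
    rw [MvPolynomial.coeff_monomial, if_neg (fun hh => hb (tsE_inj hh))]
  · simp

private theorem tsG_supp {K β : Type} [Field K] [Fintype β] [DecidableEq β] {E : ℕ}
    (k : (β → Fin E) → K) {m : β →₀ ℕ} (hm : m ∈ (tsG k).support) :
    ∃ e : β → Fin E, m = tsE e := by
  rw [MvPolynomial.mem_support_iff] at hm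
  unfold tsG at hm
  rw [MvPolynomial.coeff_sum] at hm
  obtain ⟨e, _, he⟩ := Finset.exists_ne_zero_of_sum_ne_zero hm
  rw [MvPolynomial.coeff_monomial] at he
  by_cases h : tsE e = m
  · exact ⟨e, h.symm⟩
  · simp [h] at he

private theorem tsG_val {K Ω β : Type} [Field K] [Field Ω] [Algebra K Ω]
    [Fintype β] [DecidableEq β] {v : Ω → ℝ} (h : RV K v) (c : β → Ω) (hc : ∀ i, c i ≠ 0)
    (Θ : β → ℝ) (hΘ : LinearIndependent ℚ Θ) (hv : ∀ i, v (c i) = Θ i) {E : ℕ}
    (k : (β → Fin E) → K) (hk : tsG k ≠ 0) :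
    aeval c (tsG k) ≠ 0 ∧ |v (aeval c (tsG k))| ≤ E * ∑ i, |Θ i| := by
  obtain ⟨h1, m, hm, h2⟩ := rv_poly h c hc Θ hΘ hv (tsG k) hk
  refine ⟨h1, ?_⟩
  obtain ⟨e, rfl⟩ := tsG_supp k hm
  rw [h2, Finset.mul_sum]
  refine (Finset.abs_sum_le_sum_abs _ _).trans (Finset.sum_le_sum fun i _ => ?_)
  rw [abs_mul, tsE_apply]
  refine mul_le_mul_of_nonneg_right ?_ (abs_nonneg _)
  rw [abs_of_nonneg (by positivity)]
  exact_mod_cast (e i).2.le

/-- **Independence.** `S` is a finite set of embeddings with `σ s (φ i) = c i` and `v (σ s u) < -ω`; `b` is a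
family with invertible matrix of values `Mt s t = σ s (b t)`, `CN` bounds the values of the entries of `Mt` and
its inverse.

Proof. Let `Θ' = ∑ i, |Θ i|`. A relation is a family `κ (f, e, t)` in `K`; put
`g_f,t = ∑ e, κ (f, e, t) Y^e ∈ K[Y]` and `h_f = ∑ t, g_f,t (φ) * b t`, so `∑ f, u^(f F0) h_f = 0`.
(1) For every `f` and `s` with `σ s (h_f) ≠ 0`: `v (σ s h_f) ≥ -E Θ' - CN`: `σ s h_f` is the sum over
`t, e` of `κ c^e σ s (b t)`, each summand (if not zero) has value `≥ -E Θ' - CN` (`e i < E`), use `rv_sum`.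
(2) If some `κ (f, ·, ·) ≠ 0` then some `g_f,t ≠ 0`, so `g_f,t (c) ≠ 0` with
`v (g_f,t (c)) ≤ E Θ'` (`rv_poly`: value `∑ e i Θ i`). By Cramer `g_f,t (c) = ∑ s, Mt⁻¹ t s * σ s h_f`
(`Matrix.mulVec`, `Mt *ᵥ (g_f,· (c)) = (σ s h_f)_s`), so by `rv_sum` some `s` has `Mt⁻¹ t s ≠ 0`, `σ s h_f ≠ 0` and
`v (σ s h_f) ≤ E Θ' + CN`.
(3) Suppose the relation is not trivial, let `f` be the LARGEST with `κ (f, ·, ·) ≠ 0` and `s` from (2).
Apply `σ s` to `∑ f', u^(f' F0) h_f' = 0`: for `f' < f` with `σ s h_f' ≠ 0` the value of the summand is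
`f' F0 v (σ s u) + v (σ s h_f') ≥ f' F0 v (σ s u) - E Θ' - CN`, and the value of the summand `f` is at most
`f F0 v (σ s u) + E Θ' + CN`; the difference is at least
`-(f - f') F0 v (σ s u) - 2 (E Θ' + CN) ≥ F0 ω - 2 (E Θ' + CN) > 0`. So the summand `f` is dominant
(`rv_dom`), the sum is not zero, a contradiction. -/
theorem ts_ind {K F Ω β : Type} [Field K] [Field F] [Field Ω] [Algebra K F] [Algebra K Ω]
    [Fintype β] [DecidableEq β] {v : Ω → ℝ} (h : RV K v) (c : β → Ω) (hc : ∀ i, c i ≠ 0)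
    (Θ : β → ℝ) (hΘ : LinearIndependent ℚ Θ) (hv : ∀ i, v (c i) = Θ i) (φ : β → F) (u : F)
    (hu0 : u ≠ 0) {S : Type} [Fintype S] [DecidableEq S] (σ : S → F →ₐ[K] Ω)
    (hφ : ∀ s i, σ s (φ i) = c i) (b : S → F)
    (hdet : (Matrix.of fun s t => σ s (b t)).det ≠ 0) (ω CN : ℝ) (hω : 0 < ω)
    (hu : ∀ s, v (σ s u) < -ω) (hCN0 : 0 ≤ CN)
    (hCN : ∀ s t, σ s (b t) ≠ 0 → |v (σ s (b t))| ≤ CN)
    (hCN' : ∀ s t, (Matrix.of fun s t => σ s (b t))⁻¹ s t ≠ 0 →
      |v ((Matrix.of fun s t => σ s (b t))⁻¹ s t)| ≤ CN) (E F0 f1 : ℕ)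
    (hF : 2 * (E * ∑ i, |Θ i|) + 2 * CN < F0 * ω) :
    LinearIndependent K (fun x : Fin f1 × (β → Fin E) × S =>
      u ^ ((x.1 : ℕ) * F0) * (∏ i, φ i ^ (x.2.1 i : ℕ)) * b x.2.2) := by
  classical
  set Θ' : ℝ := ∑ i, |Θ i| with hΘ'
  set Mt : Matrix S S Ω := Matrix.of fun s t => σ s (b t) with hMt
  rw [Fintype.linearIndependent_iff]
  intro κ hκ
  by_contra hne
  push Not at hne
  obtain ⟨x0, hx0⟩ := hne
  -- the polynomials
  set g : Fin f1 → S → MvPolynomial β K := fun f t => tsG fun e => κ (f, e, t) with hg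
  set H : Fin f1 → F := fun f => ∑ t, aeval φ (g f t) * b t with hH
  -- the relation
  have hrel : ∑ f : Fin f1, u ^ ((f : ℕ) * F0) * H f = 0 := by
    rw [← hκ, Fintype.sum_prod_type]
    refine Finset.sum_congr rfl fun f _ => ?_
    rw [Fintype.sum_prod_type, Finset.sum_comm, hH]
    simp only
    rw [Finset.mul_sum]
    refine Finset.sum_congr rfl fun t _ => ?_
    rw [hg]
    simp only
    rw [tsG_aeval, Finset.sum_mul, Finset.mul_sum]
    refine Finset.sum_congr rfl fun e _ => ?_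
    rw [Algebra.smul_def]
    ring
  have hσg : ∀ s f t, σ s (aeval φ (g f t)) = aeval c (g f t) := by
    intro s f t
    have h1 : (σ s).comp (aeval φ) = (aeval c : MvPolynomial β K →ₐ[K] Ω) := by
      refine MvPolynomial.algHom_ext fun i => ?_
      simp [hφ s i]
    exact DFunLike.congr_fun h1 (g f t)
  have hσH : ∀ s f, σ s (H f) = ∑ t, aeval c (g f t) * σ s (b t) := by
    intro s f
    rw [hH]
    simp only
    rw [map_sum]
    refine Finset.sum_congr rfl fun t _ => ?_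
    rw [map_mul, hσg]
  -- step 1
  have hlow : ∀ f s, σ s (H f) ≠ 0 → -(E * Θ') - CN ≤ v (σ s (H f)) := by
    intro f s hne
    rw [hσH] at hne ⊢
    obtain ⟨t, _, ht0, ht⟩ := rv_sum h Finset.univ _ hne
    have ha : aeval c (g f t) ≠ 0 := left_ne_zero_of_mul ht0
    have hb : σ s (b t) ≠ 0 := right_ne_zero_of_mul ht0
    have hg0 : g f t ≠ 0 := by
      intro h0
      apply ha
      rw [h0, map_zero]
    rw [h.mul _ _ ha hb] at ht
    have h1 := (tsG_val h c hc Θ hΘ hv (fun e => κ (f, e, t)) hg0).2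
    have h2 := hCN s t hb
    rw [abs_le] at h1 h2
    have h3 : -(E * Θ') ≤ v (aeval c (g f t)) := h1.1
    linarith [h2.1]
  -- the largest index
  obtain ⟨f, hf, hmax⟩ : ∃ f : Fin f1, (∃ e t, κ (f, e, t) ≠ 0) ∧
      ∀ f', f < f' → ∀ e t, κ (f', e, t) = 0 := by
    have hne : (Finset.univ.filter fun f : Fin f1 => ∃ e t, κ (f, e, t) ≠ 0).Nonempty :=
      ⟨x0.1, by simp only [Finset.mem_filter, Finset.mem_univ, true_and]; exact ⟨_, _, hx0⟩⟩
    refine ⟨Finset.max' _ hne, ?_, ?_⟩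
    · have := Finset.max'_mem _ hne
      simpa using this
    · intro f' hf' e t
      by_contra hcon
      have : f' ≤ Finset.max' _ hne :=
        Finset.le_max' _ _ (by
          simp only [Finset.mem_filter, Finset.mem_univ, true_and]; exact ⟨_, _, hcon⟩)
      exact absurd hf' (not_lt.mpr this)
  obtain ⟨e0, t0, het⟩ := hf
  have hgne : g f t0 ≠ 0 := by
    intro h0
    apply het
    have h1 := tsG_coeff (fun e => κ (f, e, t0)) e0
    have h2 : tsG (fun e => κ (f, e, t0)) = 0 := h0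
    rw [h2, MvPolynomial.coeff_zero] at h1
    exact h1.symm
  -- step 2
  obtain ⟨s, hs0, hs⟩ : ∃ s, σ s (H f) ≠ 0 ∧ v (σ s (H f)) ≤ E * Θ' + CN := by
    have hmv : (fun s => σ s (H f)) = Mt *ᵥ (fun t => aeval c (g f t)) := by
      funext s
      rw [hσH]
      simp only [Matrix.mulVec, dotProduct, hMt, Matrix.of_apply]
      exact Finset.sum_congr rfl fun t _ => mul_comm _ _
    have hinv : Mt⁻¹ *ᵥ (fun s => σ s (H f)) = fun t => aeval c (g f t) := by
      rw [hmv, Matrix.mulVec_mulVec, Matrix.nonsing_inv_mul _ (isUnit_iff_ne_zero.mpr hdet),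
        Matrix.one_mulVec]
    have ht := congrFun hinv t0
    simp only [Matrix.mulVec, dotProduct] at ht
    obtain ⟨ha, hval⟩ := tsG_val h c hc Θ hΘ hv (fun e => κ (f, e, t0)) hgne
    have hne : ∑ s, Mt⁻¹ t0 s * σ s (H f) ≠ 0 := by
      rw [ht]
      exact ha
    obtain ⟨s, _, hs0, hs⟩ := rv_sum h Finset.univ _ hne
    have hm : Mt⁻¹ t0 s ≠ 0 := left_ne_zero_of_mul hs0
    have hh : σ s (H f) ≠ 0 := right_ne_zero_of_mul hs0
    refine ⟨s, hh, ?_⟩
    rw [ht, h.mul _ _ hm hh] at hs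
    have h2 := hCN' t0 s hm
    have h1 : |v (aeval c (g f t0))| ≤ E * Θ' := hval
    rw [abs_le] at h1 h2
    linarith [h1.2, h2.1]
  -- step 3
  have hσu0 : σ s u ≠ 0 := by
    rw [Ne, map_eq_zero]
    exact hu0
  have hval : ∀ f', σ s (H f') ≠ 0 → v (σ s u ^ ((f' : ℕ) * F0) * σ s (H f')) =
      ((f' : ℕ) : ℝ) * F0 * v (σ s u) + v (σ s (H f')) := by
    intro f' hf'
    rw [h.mul _ _ (pow_ne_zero _ hσu0) hf', rv_pow h hσu0]
    push_cast
    ring
  have hdom := rv_dom h Finset.univ (fun f' : Fin f1 => σ s u ^ ((f' : ℕ) * F0) * σ s (H f'))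
    f (Finset.mem_univ _) (mul_ne_zero (pow_ne_zero _ hσu0) hs0) (by
      intro f' _ hf' hx
      have hH' : σ s (H f') ≠ 0 := right_ne_zero_of_mul hx
      have hlt : f' < f := by
        rcases lt_trichotomy f' f with h1 | h1 | h1
        · exact h1
        · exact absurd h1 hf'
        · exfalso
          apply hH'
          rw [hσH]
          refine Finset.sum_eq_zero fun t _ => ?_
          have : g f' t = 0 := by
            rw [hg]
            simp only
            unfold tsG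
            refine Finset.sum_eq_zero fun e _ => ?_
            simp only [hmax f' h1 e t, map_zero]
          rw [this, map_zero, zero_mul]
      rw [hval f' hH', hval f hs0]
      have h1 := hlow f' s hH'
      have h2 : (1 : ℝ) ≤ ((f : ℕ) : ℝ) - ((f' : ℕ) : ℝ) := by
        have : (f' : ℕ) + 1 ≤ (f : ℕ) := hlt
        have h3 : (((f' : ℕ) + 1 : ℕ) : ℝ) ≤ ((f : ℕ) : ℝ) := by exact_mod_cast this
        push_cast at h3
        linarith
      have h4 : ω ≤ - v (σ s u) := by linarith [hu s]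
      have h5 : (F0 : ℝ) * ω ≤ (((f : ℕ) : ℝ) - ((f' : ℕ) : ℝ)) * (F0 * - v (σ s u)) := by
        have h6 : (F0 : ℝ) * ω ≤ F0 * - v (σ s u) :=
          mul_le_mul_of_nonneg_left h4 (Nat.cast_nonneg _)
        have h7 : (0 : ℝ) ≤ F0 * ω := by positivity
        nlinarith [mul_le_mul_of_nonneg_right h2 (h7.trans h6)]
      have h8 : (((f : ℕ) : ℝ) - ((f' : ℕ) : ℝ)) * (F0 * - v (σ s u)) =
        ((f' : ℕ) : ℝ) * F0 * v (σ s u) - ((f : ℕ) : ℝ) * F0 * v (σ s u) := by ring
      linarith)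
  apply hdom.1
  have := congrArg (σ s) hrel
  rw [map_sum, map_zero] at this
  rw [← this]
  refine Finset.sum_congr rfl fun f' _ => ?_
  rw [map_mul, map_pow]

end Pool.Agent.LSharp
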