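import Pool.Agent.LSharp.TSEval
import Pool.Agent.LSharp.TSInd

set_option autoImplicit false

/-! TS: many embeddings over a point with large values: one of them has moderate values. -/

namespace Pool.Agent.LSharp

open MvPolynomial Module Pool.Agent.CITLines Pool.Agent.Srf5

section

variable {K F ι : Type} [Field K] [Field F] [Algebra K F] [Fintype ι]

private theorem ts_one_mem (w : ι → F) : (1 : F) ∈ Mn K w 0 := by
  have h := mon_mem (K := K) w (N := 0) (y := 0) (fun l => by simp)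
  rwa [mon_zero] at h

private theorem ts_pow_mem (w : ι → F) (hw : ∀ l, w l ≠ 0) {N : ℕ} {x : F} (hx : x ∈ Mn K w N)
    (k : ℕ) : x ^ k ∈ Mn K w (k * N) := by
  induction k with
  | zero =>
    rw [pow_zero, Nat.zero_mul]
    exact ts_one_mem w
  | succ k ih =>
    rw [pow_succ, Nat.succ_mul]
    exact mn_mul w hw ih hx

private theorem ts_prod_mem (w : ι → F) (hw : ∀ l, w l ≠ 0) {α : Type} (s : Finset α)
    (x : α → F) (N : α → ℕ) (hx : ∀ i ∈ s, x i ∈ Mn K w (N i)) :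
    ∏ i ∈ s, x i ∈ Mn K w (∑ i ∈ s, N i) := by
  classical
  induction s using Finset.induction_on with
  | empty =>
    rw [Finset.prod_empty, Finset.sum_empty]
    exact ts_one_mem w
  | insert a s ha ih =>
    rw [Finset.prod_insert ha, Finset.sum_insert ha]
    exact mn_mul w hw (hx a (Finset.mem_insert_self a s))
      (ih fun i hi => hx i (Finset.mem_insert_of_mem hi))

private theorem ts_unit_mem (w : ι → F) (l : ι) (b : Bool) :
    (bif b then (w l)⁻¹ else w l) ∈ Mn K w 1 := by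
  classical
  have h1 : ∀ k : ℤ, mon w (Pi.single l k) = w l ^ k := by
    intro k
    unfold mon
    rw [Finset.prod_eq_single l]
    · rw [Pi.single_eq_same]
    · intro j _ hj
      rw [Pi.single_eq_of_ne hj, zpow_zero]
    · intro h
      exact absurd (Finset.mem_univ l) h
  have h2 : ∀ k : ℤ, |k| ≤ 1 → ∀ j, |(Pi.single l k : ι → ℤ) j| ≤ ((1 : ℕ) : ℤ) := by
    intro k hk j
    by_cases hj : j = l
    · rw [hj, Pi.single_eq_same]
      exact_mod_cast hk
    · rw [Pi.single_eq_of_ne hj]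
      simp
  cases b with
  | false =>
    have h3 := mon_mem (K := K) w (N := 1) (h2 1 (by norm_num))
    rw [h1, zpow_one] at h3
    exact h3
  | true =>
    have h3 := mon_mem (K := K) w (N := 1) (h2 (-1) (by norm_num))
    rw [h1, zpow_neg_one] at h3
    exact h3

end

/-- Pigeonhole. -/
private theorem ts_pigeon {T κ : Type} [Fintype T] [Fintype κ] [DecidableEq κ] (g : T → κ)
    (n : ℕ) (hn : Fintype.card κ < n) (X : ℝ) (hX : 0 < X) (hT : X ≤ Fintype.card T) :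
    ∃ k, X ≤ n * Fintype.card {x // g x = k} := by
  classical
  by_contra hcon
  push Not at hcon
  have h1 : (Fintype.card T : ℝ) = ∑ k, (Fintype.card {x // g x = k} : ℝ) := by
    have h2 : Fintype.card T = ∑ k, Fintype.card {x // g x = k} := by
      rw [← Fintype.card_sigma]
      exact Fintype.card_congr (Equiv.sigmaFiberEquiv g).symm
    exact_mod_cast h2
  have h3 : (n : ℝ) * Fintype.card T ≤ Fintype.card κ * X := by
    rw [h1, Finset.mul_sum]
    calc ∑ k, (n : ℝ) * Fintype.card {x // g x = k} ≤ ∑ _k : κ, X :=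
          Finset.sum_le_sum fun k _ => (hcon k).le
      _ = _ := by rw [Finset.sum_const, nsmul_eq_mul, Finset.card_univ]
  have h4 : (Fintype.card κ : ℝ) < n := by exact_mod_cast hn
  have h5 : (0 : ℝ) < n := lt_of_le_of_lt (Nat.cast_nonneg _) h4
  nlinarith

/-- The final inequality. -/
private theorem ts_ineq (d f1 CX n X0 N E F0 Y S : ℕ) (Θ' Cr CN m ω0 : ℝ)
    (hN : 1 ≤ N) (hΘ : 0 ≤ Θ') (hCN : 0 ≤ CN) (hf1 : 2 ≤ f1) (hω : ω0 = f1 + 1)
    (hE : 2 * CN + f1 + X0 + 1 ≤ E) (hF0 : (F0 : ℝ) ≤ (2 * (E * (N * Θ')) + 2 * CN) / ω0 + 1)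
    (hY : (Y : ℝ) ≤ |Cr| * N + 1) (hS : m * N ^ d ≤ n * S)
    (hle : (f1 : ℝ) * (E ^ d * S) ≤ CX * ((f1 * F0 + d * E * Y + X0 : ℕ) + 1) ^ d) :
    (f1 : ℝ) * m ≤ n * CX * (2 * Θ' + d * (|Cr| + 1) + 1) ^ d := by
  have hN' : (1 : ℝ) ≤ N := by exact_mod_cast hN
  have hf1' : (2 : ℝ) ≤ f1 := by exact_mod_cast hf1
  have hE1 : (1 : ℝ) ≤ E := by
    have : (0 : ℝ) ≤ X0 := Nat.cast_nonneg _
    linarith
  have hEN : (0 : ℝ) < E * N := by positivity
  have h1 : (f1 : ℝ) * F0 ≤ 2 * (E * (N * Θ')) + 2 * CN + f1 := by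
    have hω0 : (0 : ℝ) < ω0 := by linarith
    have h2 : (f1 : ℝ) * ((2 * (E * (N * Θ')) + 2 * CN) / ω0) ≤ 2 * (E * (N * Θ')) + 2 * CN := by
      rw [mul_div_assoc', div_le_iff₀ hω0]
      have h3 : (0 : ℝ) ≤ 2 * (E * (N * Θ')) + 2 * CN := by positivity
      nlinarith
    calc (f1 : ℝ) * F0 ≤ f1 * ((2 * (E * (N * Θ')) + 2 * CN) / ω0 + 1) :=
          mul_le_mul_of_nonneg_left hF0 (by linarith)
      _ = f1 * ((2 * (E * (N * Θ')) + 2 * CN) / ω0) + f1 := by ring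
      _ ≤ _ := by linarith
  have h4 : (d : ℝ) * E * Y ≤ d * (|Cr| + 1) * (E * N) := by
    have h5 : (Y : ℝ) ≤ (|Cr| + 1) * N := by
      calc (Y : ℝ) ≤ |Cr| * N + 1 := hY
        _ ≤ |Cr| * N + N := by linarith
        _ = _ := by ring
    calc (d : ℝ) * E * Y ≤ d * E * ((|Cr| + 1) * N) :=
          mul_le_mul_of_nonneg_left h5 (by positivity)
      _ = _ := by ring
  have h6 : (((f1 * F0 + d * E * Y + X0 : ℕ) : ℝ) + 1) ≤
      (E * N) * (2 * Θ' + d * (|Cr| + 1) + 1) := by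
    push_cast
    have h7 : (E : ℝ) ≤ E * N := by nlinarith
    nlinarith
  have h8 : (f1 : ℝ) * (E ^ d * S) ≤ CX * ((E * N) * (2 * Θ' + d * (|Cr| + 1) + 1)) ^ d :=
    hle.trans (mul_le_mul_of_nonneg_left (pow_le_pow_left₀ (by positivity) h6 _)
      (Nat.cast_nonneg _))
  have h9 : (f1 : ℝ) * m * (E * N) ^ d ≤
      n * CX * (2 * Θ' + d * (|Cr| + 1) + 1) ^ d * (E * N) ^ d := by
    calc (f1 : ℝ) * m * (E * N) ^ d = f1 * E ^ d * (m * N ^ d) := by rw [mul_pow]; ring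
      _ ≤ f1 * E ^ d * (n * S) := mul_le_mul_of_nonneg_left hS (by positivity)
      _ = n * (f1 * (E ^ d * S)) := by ring
      _ ≤ n * (CX * ((E * N) * (2 * Θ' + d * (|Cr| + 1) + 1)) ^ d) :=
        mul_le_mul_of_nonneg_left h8 (Nat.cast_nonneg _)
      _ = _ := by rw [mul_pow ((E : ℝ) * N)]; ring
  exact le_of_mul_le_mul_right h9 (by positivity)

/-- **The claim.**

Proof. `finrank_Mn_gen` gives `CX ≥ 1` with `finrank (Mn K w X) ≤ CX (X+1)^d`, `d = card β`. Let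
`Θ' = ∑ |θ i|` and choose an integer `f1 ≥ 2` with `f1 * m > 2 n CX (2 Θ' + d (Cr + 1) + 2)^d`, `n = card ι + 1`,
and `ω0 = f1 + 1` (a real number `≥ f1`). Suppose that every `x : T` has some `l` with `|v (σ x (w l))| > ω0`. By
pigeonhole (`2 card ι` classes: `l` and a sign) there are `l` and `u = w l` or `(w l)⁻¹` such that
`S = {x | v (σ x u) < -ω0}` has at least `m N^d / (2 card ι)` elements (`ι` is nonempty if `T` is, and `T` is
nonempty as `m N^d > 0`). `exists_minor` for the `σ x`, `x ∈ S`, gives `b` in `Mn K w X0`; let `CN` be the maximum of the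
absolute values of the finitely many values. For every `E ≥ 1` let
`F0 = ⌊(2 E N Θ' + 2 CN) / ω0⌋ + 1`. By `ts_ind` (with `Θ = N θ`, `φ i = mon w (y i)`) the
`f1 E^d card S` elements `u^(f F0) φ^e b x` are linearly independent. They are in `Mn K w X` with
`X = f1 F0 + d E ⌈Cr N⌉ + X0` (`mn_mul`, `mon_mem`), and `f1 F0 ≤ 2 E N Θ' + 2 CN + f1` because `f1 ≤ ω0`. So
`f1 E^d m N^d / (2 card ι) ≤ CX (X + 1)^d` with `X + 1 ≤ E N (2 Θ' + d (Cr + 1)) + C'`, `C'` independent of `E`.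
Divide by `(E N)^d` and let `E → ∞` (or take one large `E` with `C' ≤ E N`):
`f1 m / (2 card ι) ≤ CX (2 Θ' + d (Cr + 1) + 1)^d`, a contradiction. -/
theorem ts_claim {K F β ι : Type} [Field K] [CharZero K] [Field F] [Algebra K F] [Fintype ι]
    [Fintype β] (w : ι → F) (hw : ∀ l, w l ≠ 0)
    (htop : IntermediateField.adjoin K (Set.range w) = ⊤)
    (hdim : dm (kr K w) = Fintype.card β) (m Cr : ℝ) (hm : 0 < m) (θ : β → ℝ)
    (hθ : LinearIndependent ℚ θ) : ∃ ω0 : ℝ, 0 < ω0 ∧ ∀ N : ℕ, 1 ≤ N → ∀ y : β → ι → ℤ,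
      (∀ i l, |(y i l : ℝ)| ≤ Cr * N) → ∀ (Ω : Type) [Field Ω] [Algebra K Ω] (v : Ω → ℝ)
      (c : β → Ω), RV K v → (∀ i, c i ≠ 0) → (∀ i, v (c i) = N * θ i) →
      ∀ (T : Type) [Fintype T] (σ : T → F →ₐ[K] Ω), Function.Injective σ →
        (∀ x i, σ x (mon w (y i)) = c i) → m * N ^ Fintype.card β ≤ Fintype.card T →
        ∃ x, ∀ l, |v (σ x (w l))| ≤ ω0 := by
  classical
  obtain ⟨CX, hCX⟩ := finrank_Mn_gen (K := K) w hw
  rw [hdim] at hCX
  set d := Fintype.card β with hd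
  set Θ' : ℝ := ∑ i, |θ i| with hΘ'
  have hΘ0 : 0 ≤ Θ' := Finset.sum_nonneg fun _ _ => abs_nonneg _
  set n : ℕ := 2 * Fintype.card ι + 1 with hn
  obtain ⟨f0, hf0⟩ := exists_nat_gt ((n * CX * (2 * Θ' + d * (|Cr| + 1) + 1) ^ d) / m)
  set f1 : ℕ := f0 + 2 with hf1
  have hf1m : n * CX * (2 * Θ' + d * (|Cr| + 1) + 1) ^ d < f1 * m := by
    rw [div_lt_iff₀ hm] at hf0
    rw [hf1]
    push_cast
    nlinarith
  refine ⟨f1 + 1, by positivity, ?_⟩
  intro N hN y hy Ω _ _ v c hv hc hvc T _ σ hσ hσc hT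
  by_contra hcon
  push Not at hcon
  have hN' : (0 : ℝ) < N := by exact_mod_cast hN
  -- the classes
  have h1 : ∀ x, ∃ k : ι × Bool,
      v (σ x (bif k.2 then (w k.1)⁻¹ else w k.1)) < -((f1 : ℝ) + 1) := by
    intro x
    obtain ⟨l, hl⟩ := hcon x
    have hne : σ x (w l) ≠ 0 := (map_ne_zero (σ x)).2 (hw l)
    rcases lt_abs.1 hl with h | h
    · refine ⟨(l, true), ?_⟩
      simp only [cond_true, map_inv₀]
      rw [rv_inv hv hne]
      linarith
    · refine ⟨(l, false), ?_⟩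
      simp only [cond_false]
      linarith
  choose g hg using h1
  obtain ⟨k, hk⟩ := ts_pigeon g n (by rw [Fintype.card_prod, Fintype.card_bool]; omega)
    (m * N ^ d) (by positivity) hT
  set u : F := bif k.2 then (w k.1)⁻¹ else w k.1 with hu
  have hu0 : u ≠ 0 := by
    rw [hu]
    cases k.2
    · exact hw _
    · exact inv_ne_zero (hw _)
  let S : Type := {x // g x = k}
  let τ : S → F →ₐ[K] Ω := fun s => σ s.1
  have hτ : Function.Injective τ := fun s s' h => Subtype.ext (hσ h)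
  have hτu : ∀ s, v (τ s u) < -((f1 : ℝ) + 1) := by
    intro s
    have := hg s.1
    rw [s.2] at this
    exact this
  obtain ⟨b, X0, hb, hdet⟩ := exists_minor w hw htop τ hτ
  set Mt : Matrix S S Ω := Matrix.of fun s t => τ s (b t) with hMt
  set CN : ℝ := ∑ s, ∑ t, |v (τ s (b t))| + ∑ s, ∑ t, |v (Mt⁻¹ s t)| with hCN
  have hp1 : ∀ s t, |v (τ s (b t))| ≤ ∑ s, ∑ t, |v (τ s (b t))| := fun s t =>
    (Finset.single_le_sum (f := fun t => |v (τ s (b t))|) (fun _ _ => abs_nonneg _)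
      (Finset.mem_univ t)).trans (Finset.single_le_sum
        (f := fun s => ∑ t, |v (τ s (b t))|)
        (fun _ _ => Finset.sum_nonneg fun _ _ => abs_nonneg _) (Finset.mem_univ s))
  have hp2 : ∀ s t, |v (Mt⁻¹ s t)| ≤ ∑ s, ∑ t, |v (Mt⁻¹ s t)| := fun s t =>
    (Finset.single_le_sum (f := fun t => |v (Mt⁻¹ s t)|) (fun _ _ => abs_nonneg _)
      (Finset.mem_univ t)).trans (Finset.single_le_sum
        (f := fun s => ∑ t, |v (Mt⁻¹ s t)|)
        (fun _ _ => Finset.sum_nonneg fun _ _ => abs_nonneg _) (Finset.mem_univ s))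
  have hn1 : (0 : ℝ) ≤ ∑ s, ∑ t, |v (τ s (b t))| :=
    Finset.sum_nonneg fun _ _ => Finset.sum_nonneg fun _ _ => abs_nonneg _
  have hn2 : (0 : ℝ) ≤ ∑ s, ∑ t, |v (Mt⁻¹ s t)| :=
    Finset.sum_nonneg fun _ _ => Finset.sum_nonneg fun _ _ => abs_nonneg _
  have hCN0 : 0 ≤ CN := add_nonneg hn1 hn2
  obtain ⟨E, hE⟩ := exists_nat_ge (2 * CN + f1 + X0 + 1)
  set q : ℝ := (2 * (E * (N * Θ')) + 2 * CN) / (f1 + 1) with hq
  have hq0 : 0 ≤ q := by positivity
  set F0 : ℕ := ⌊q⌋₊ + 1 with hF0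
  have hF01 : (F0 : ℝ) ≤ q + 1 := by
    rw [hF0]
    push_cast
    linarith [Nat.floor_le hq0]
  have hF02 : 2 * (E * ∑ i, |(N * θ i : ℝ)|) + 2 * CN < F0 * (f1 + 1) := by
    have h2 : ∑ i, |(N * θ i : ℝ)| = N * Θ' := by
      rw [hΘ', Finset.mul_sum]
      refine Finset.sum_congr rfl fun i _ => ?_
      rw [abs_mul, abs_of_pos hN']
    rw [h2, ← div_lt_iff₀ (by positivity)]
    have h3 := Nat.lt_floor_add_one q
    rw [hF0]
    push_cast
    exact h3
  have hΘN : LinearIndependent ℚ (fun i => (N * θ i : ℝ)) := by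
    have h2 := hθ.units_smul (fun _ => Units.mk0 (N : ℚ) (by positivity))
    convert h2 using 1
    funext i
    simp [Units.smul_def, Algebra.smul_def]
  have hind := ts_ind hv c hc (fun i => (N * θ i : ℝ)) hΘN hvc (fun i => mon w (y i)) u hu0 τ
    (fun s i => hσc s.1 i) b hdet (f1 + 1) CN (by positivity) hτu hCN0
    (fun s t _ => (hp1 s t).trans (le_add_of_nonneg_right hn2))
    (fun s t _ => (hp2 s t).trans (le_add_of_nonneg_left hn1)) E F0 f1 hF02
  set Y : ℕ := ⌈|Cr| * N⌉₊ with hY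
  have hmemy : ∀ i, mon w (y i) ∈ Mn K w Y := by
    intro i
    refine mon_mem w fun l => ?_
    have h2 := hy i l
    have h3 : |(y i l : ℝ)| ≤ Y := by
      refine h2.trans (le_trans ?_ (Nat.le_ceil _))
      exact mul_le_mul_of_nonneg_right (le_abs_self Cr) hN'.le
    exact_mod_cast h3
  set X : ℕ := f1 * F0 + d * E * Y + X0 with hX
  have := (hCX X).1
  have hmem : ∀ x : Fin f1 × (β → Fin E) × S,
      u ^ ((x.1 : ℕ) * F0) * (∏ i, mon w (y i) ^ (x.2.1 i : ℕ)) * b x.2.2 ∈ Mn K w X := by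
    intro x
    have h2 : u ^ ((x.1 : ℕ) * F0) ∈ Mn K w ((x.1 : ℕ) * F0 * 1) :=
      ts_pow_mem w hw (ts_unit_mem w k.1 k.2) _
    have h3 : (∏ i, mon w (y i) ^ (x.2.1 i : ℕ)) ∈ Mn K w (∑ i, (x.2.1 i : ℕ) * Y) :=
      ts_prod_mem w hw _ _ _ fun i _ => ts_pow_mem w hw (hmemy i) _
    have h4 := mn_mul w hw (mn_mul w hw h2 h3) (hb x.2.2)
    refine mn_mono w ?_ h4
    rw [hX]
    have h5 : (x.1 : ℕ) * F0 * 1 ≤ f1 * F0 := by
      rw [mul_one]
      exact Nat.mul_le_mul_right _ x.1.2.le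
    have h6 : ∑ i, (x.2.1 i : ℕ) * Y ≤ d * E * Y := by
      calc ∑ i, (x.2.1 i : ℕ) * Y ≤ ∑ _i : β, E * Y :=
            Finset.sum_le_sum fun i _ => Nat.mul_le_mul_right _ (x.2.1 i).2.le
        _ = _ := by rw [Finset.sum_const, Finset.card_univ, smul_eq_mul, mul_assoc]
    omega
  have hcard := card_le_finrank_mn w X _ hmem hind
  have hcard2 := hcard.trans (hCX X).2
  rw [Fintype.card_prod, Fintype.card_prod, Fintype.card_fun, Fintype.card_fin,
    Fintype.card_fin, ← hd] at hcard2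
  have hle : (f1 : ℝ) * (E ^ d * (Fintype.card S : ℕ)) ≤
      CX * ((f1 * F0 + d * E * Y + X0 : ℕ) + 1) ^ d := by
    exact_mod_cast hcard2
  refine absurd (ts_ineq d f1 CX n X0 N E F0 Y (Fintype.card S) Θ' Cr CN m (f1 + 1) hN hΘ0
    hCN0 (by omega) rfl hE hF01 ?_ hk hle) (not_le.2 hf1m)
  exact (Nat.ceil_lt_add_one (by positivity)).le

end Pool.Agent.LSharp
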