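import Pool.Agent.Srf5.Defs
import Pool.Agent.LAll.Defs

set_option autoImplicit false

/-! Block TS of the sharp theorem U (MP_b7926e_nt): definitions.

`t k` (`k : W`) are power series over a number field `K` in the variables `β` (the branch of a variety at a
point), `un t (k, i)` are the units `t k`, `1 - t k`, `t k - 2`, `wu t` the same in the fraction field. -/

namespace Pool.Agent.LSharp

open MvPolynomial Pool.Agent.CITLines Pool.Agent.Srf5

/-- The pairing of integer exponents and real weights. -/
noncomputable def pr {ι : Type} [Fintype ι] (y : ι → ℤ) (t : ι → ℝ) : ℝ := ∑ l, (y l : ℝ) * t l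

/-- A real valuation on the nonzero elements of `Ω`, trivial on `K`. -/
structure RV (K : Type) {Ω : Type} [Field K] [Field Ω] [Algebra K Ω] (v : Ω → ℝ) : Prop where
  mul : ∀ x y : Ω, x ≠ 0 → y ≠ 0 → v (x * y) = v x + v y
  add : ∀ x y : Ω, x ≠ 0 → y ≠ 0 → x + y ≠ 0 → min (v x) (v y) ≤ v (x + y)
  triv : ∀ k : K, k ≠ 0 → v (algebraMap K Ω k) = 0

/-- There are at least `X` embeddings of `F` over `K` which send the monomials with exponents `y i` to
given algebraically independent elements. -/
def Many (K : Type) {F β ι : Type} [Field K] [Field F] [Algebra K F] [Fintype ι] (w : ι → F)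
    (y : β → ι → ℤ) (X : ℝ) : Prop :=
  ∃ (T C1 : Type) (_ : Fintype T) (_ : Field C1) (_ : Algebra K C1) (σ : T → F →ₐ[K] C1)
    (c1 : β → C1), Function.Injective σ ∧ (∀ x i, σ x (mon w (y i)) = c1 i) ∧
    AlgebraicIndependent K c1 ∧ X ≤ Fintype.card T

/-- Monomials with different weights are linearly independent. -/
def Sep (K : Type) {F ι : Type} [Field K] [Field F] [Algebra K F] [Fintype ι] (w : ι → F)
    (t : ι → ℝ) : Prop :=
  ∀ S : Finset (ι → ℤ), Set.InjOn (fun y => pr y t) (S : Set (ι → ℤ)) →
    LinearIndependent K (fun y : S => mon w (y : ι → ℤ))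

/-- The value of a power series at `z` through the embedding `s`. -/
noncomputable def evf {K β : Type} [Field K] [Fintype β] (s : K →+* ℂ) (z : β → ℂ)
    (f : MvPowerSeries β K) : ℂ :=
  ∑' i : β →₀ ℕ, s (MvPowerSeries.coeff i f) * ∏ b, z b ^ i b

/-- Absolute convergence on the closed polydisc of radius `ρ`. -/
def Cv {K β : Type} [Field K] [Fintype β] (s : K →+* ℂ) (ρ : ℝ) (f : MvPowerSeries β K) : Prop :=
  Summable fun i : β →₀ ℕ => ‖s (MvPowerSeries.coeff i f)‖ * ρ ^ i.degree

/-- The units. -/
noncomputable def un {K β W : Type} [Field K] (t : W → MvPowerSeries β K) (l : W × Fin 3) :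
    MvPowerSeries β K :=
  ![t l.1, 1 - t l.1, t l.1 - 2] l.2

/-- The units in the fraction field. -/
noncomputable def wu {K β W : Type} [Field K] (t : W → MvPowerSeries β K) (l : W × Fin 3) :
    FractionRing (MvPowerSeries β K) :=
  algebraMap (MvPowerSeries β K) (FractionRing (MvPowerSeries β K)) (un t l)

/-- The field generated by the units. -/
abbrev FF {K β W : Type} [Field K] (t : W → MvPowerSeries β K) : Type :=
  ↥(IntermediateField.adjoin K (Set.range (wu t)))

/-- The units as elements of the field which they generate. -/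
noncomputable def wF {K β W : Type} [Field K] (t : W → MvPowerSeries β K) (l : W × Fin 3) : FF t :=
  ⟨wu t l, IntermediateField.subset_adjoin _ _ ⟨l, rfl⟩⟩

/-- The logarithmic derivatives of the units at the origin. -/
noncomputable def dl {K β W : Type} [Field K] (s : K →+* ℂ) (t : W → MvPowerSeries β K)
    (l : W × Fin 3) (b : β) : ℂ :=
  s (MvPowerSeries.coeff (Finsupp.single b 1) (un t l)) /
    s (MvPowerSeries.constantCoeff (un t l))

/-- The data at one level. -/
structure Lv (K : Type) [Field K] {W β M : Type} [Fintype β]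
    (t : W → MvPowerSeries β K) (bs : β → W) (cls : W → M) (D : ℕ) : Prop where
  h1 : ∀ b, t (bs b) =
    MvPowerSeries.C (MvPowerSeries.constantCoeff (t (bs b))) + MvPowerSeries.X b
  h2 : ∀ k, ∃ p : MvPolynomial (Option β) K, p ≠ 0 ∧ p.totalDegree ≤ D ∧
    (∀ b, some b ∈ p.vars → cls (bs b) = cls k) ∧
    aeval (fun o : Option β => o.elim (t k) (fun b => t (bs b))) p = 0
  h3 : ∀ s : K →+* ℂ, ∃ C : ℝ, ∀ k i, ‖s (MvPowerSeries.coeff i (t k))‖ ≤ C ^ (i.degree + 1)
  g0 : ∀ k, MvPowerSeries.constantCoeff (t k) ≠ 0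
  g1 : ∀ k, MvPowerSeries.constantCoeff (t k) ≠ 1
  g2 : ∀ k, MvPowerSeries.constantCoeff (t k) ≠ 2

end Pool.Agent.LSharp
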