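import Pool.Agent.LSharp.TSDefs

set_option autoImplicit false

/-! TS: algebraic relations give relations between the weights. -/

namespace Pool.Agent.LSharp

open MvPolynomial Pool.Agent.CITLines Pool.Agent.Srf5

/-- Proof. Let `S` be the set of the exponents of `P` (as integer vectors). `∑ e ∈ S, coeff e P • mon w e = 0` is a
nontrivial relation, so by `hs` the pairing with `t` is not injective on `S`: there are different exponents
`e1, e2` of `P` with `pr e1 t = pr e2 t`; take `e1 - e2`. -/
theorem dep_int {K F ι : Type} [Field K] [Field F] [Algebra K F] [Fintype ι] (w : ι → F)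
    (t : ι → ℝ) (hs : Sep K w t) (A : Finset ι) (P : MvPolynomial ι K) (hP : P ≠ 0)
    (hA : P.vars ⊆ A) (D' : ℕ) (hd : ∀ l, P.degreeOf l ≤ D') (h0 : aeval w P = 0) :
    ∃ e : ι → ℤ, e ≠ 0 ∧ (∀ l, |e l| ≤ D') ∧ (∀ l ∉ A, e l = 0) ∧ pr e t = 0 := by
  classical
  let φ : (ι →₀ ℕ) → ι → ℤ := fun e l => (e l : ℤ)
  have hφ : Function.Injective φ := by
    intro e e' h
    ext l
    have := congrFun h l
    exact Int.natCast_inj.1 this
  let S : Finset (ι → ℤ) := P.support.image φ
  have hnot : ¬ Set.InjOn (fun y => pr y t) (S : Set (ι → ℤ)) := by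
    intro hinj
    have h1 := hs S hinj
    have h2 : LinearIndependent K fun e : P.support => mon w (φ e) :=
      h1.comp (fun e : P.support => (⟨φ e, Finset.mem_image_of_mem φ e.2⟩ : S))
        (fun e e' h => Subtype.ext (hφ (congrArg Subtype.val h)))
    rw [Fintype.linearIndependent_iff] at h2
    have h3 : ∑ e : P.support, coeff (e : ι →₀ ℕ) P • mon w (φ e) = 0 := by
      rw [Finset.sum_coe_sort P.support fun e => coeff e P • mon w (φ e), ← h0,
        aeval_def, eval₂_eq']
      refine Finset.sum_congr rfl fun e _ => ?_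
      rw [Algebra.smul_def]
      congr 1
      unfold mon
      exact Finset.prod_congr rfl fun i _ => zpow_natCast _ _
    have h4 := h2 (fun e => coeff (e : ι →₀ ℕ) P) h3
    obtain ⟨e, he⟩ := MvPolynomial.ne_zero_iff.1 hP
    exact he (h4 ⟨e, MvPolynomial.mem_support_iff.2 he⟩)
  unfold Set.InjOn at hnot
  push Not at hnot
  obtain ⟨y1, hy1, y2, hy2, hpr, hne⟩ := hnot
  obtain ⟨e1, he1, rfl⟩ := Finset.mem_image.1 (Finset.mem_coe.1 hy1)
  obtain ⟨e2, he2, rfl⟩ := Finset.mem_image.1 (Finset.mem_coe.1 hy2)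
  refine ⟨φ e1 - φ e2, sub_ne_zero.2 hne, fun l => ?_, fun l hl => ?_, ?_⟩
  · have h1 := (monomial_le_degreeOf l he1).trans (hd l)
    have h2 := (monomial_le_degreeOf l he2).trans (hd l)
    rw [Pi.sub_apply, abs_le]
    constructor <;> simp only [φ] <;> omega
  · have h1 : ∀ e ∈ P.support, e l = 0 := by
      intro e he
      by_contra h
      exact hl (hA ((mem_vars_iff_mem_support l).2 ⟨e, he, Finsupp.mem_support_iff.2 h⟩))
    simp only [Pi.sub_apply, φ, h1 e1 he1, h1 e2 he2, sub_self]
  · have h1 : pr (φ e1) t = pr (φ e2) t := hpr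
    unfold pr at h1 ⊢
    simp only [Pi.sub_apply, Int.cast_sub, sub_mul, Finset.sum_sub_distrib]
    rw [h1, sub_self]

end Pool.Agent.LSharp
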