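import Pool.Agent.LSharp.TSDefs

set_option autoImplicit false

/-! TS: the value of a convergent power series is strictly differentiable at the origin. -/

namespace Pool.Agent.LSharp

private theorem ts_norm_le {β : Type} [Fintype β] (z : β → ℂ) {r : ℝ} (hz : ‖z‖ ≤ r)
    (i : β →₀ ℕ) : ‖∏ b, z b ^ i b‖ ≤ r ^ i.degree := by
  rw [norm_prod, Finsupp.degree_eq_sum, ← Finset.prod_pow_eq_pow_sum]
  refine Finset.prod_le_prod (fun b _ => norm_nonneg _) fun b _ => ?_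
  rw [norm_pow]
  exact pow_le_pow_left₀ (norm_nonneg _) ((norm_le_pi_norm z b).trans hz) _

private theorem ts_diff {β : Type} [Fintype β] (z z' : β → ℂ) {r : ℝ} (hz : ‖z‖ ≤ r)
    (hz' : ‖z'‖ ≤ r) : ∀ (n : ℕ) (i : β →₀ ℕ), i.degree = n →
      ‖(∏ b, z b ^ i b) - ∏ b, z' b ^ i b‖ ≤ n * r ^ (n - 1) * ‖z - z'‖
  | 0, i, hi => by
    rw [(Finsupp.degree_eq_zero_iff i).1 hi]
    simp
  | n + 1, i, hi => by
    classical
    have hr : 0 ≤ r := (norm_nonneg z).trans hz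
    obtain ⟨b, hb⟩ : ∃ b, i b ≠ 0 := by
      by_contra h
      push Not at h
      have h0 : i = 0 := Finsupp.ext h
      rw [h0] at hi
      simp at hi
    have hj := Finsupp.sub_add_single_one_cancel hb
    obtain ⟨j, hjd⟩ : ∃ j, j = i - Finsupp.single b 1 := ⟨_, rfl⟩
    rw [← hjd] at hj
    have hdeg : j.degree = n := by
      have h1 : (j + Finsupp.single b 1).degree = n + 1 := by rw [hj, hi]
      rw [map_add, Finsupp.degree_single] at h1
      omega
    have e : ∀ y : β → ℂ, ∏ c, y c ^ i c = (∏ c, y c ^ j c) * y b := by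
      intro y
      rw [← hj]
      simp only [Finsupp.add_apply, pow_add, Finset.prod_mul_distrib]
      congr 1
      rw [Finset.prod_eq_single b]
      · simp
      · intro c _ hc
        rw [Finsupp.single_eq_of_ne hc, pow_zero]
      · intro h
        exact absurd (Finset.mem_univ b) h
    have ih := ts_diff z z' hz hz' n j hdeg
    rw [e, e]
    have e2 : (∏ c, z c ^ j c) * z b - (∏ c, z' c ^ j c) * z' b =
        ((∏ c, z c ^ j c) - ∏ c, z' c ^ j c) * z b + (∏ c, z' c ^ j c) * (z b - z' b) := by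
      ring
    rw [e2]
    refine (norm_add_le _ _).trans ?_
    rw [norm_mul, norm_mul]
    have h1 : ‖z b‖ ≤ r := (norm_le_pi_norm z b).trans hz
    have h2 : ‖z b - z' b‖ ≤ ‖z - z'‖ := norm_le_pi_norm (z - z') b
    have h3 := ts_norm_le z' hz' j
    rw [hdeg] at h3
    have h4 : ‖(∏ c, z c ^ j c) - ∏ c, z' c ^ j c‖ * ‖z b‖ ≤
        n * r ^ (n - 1) * ‖z - z'‖ * r := mul_le_mul ih h1 (norm_nonneg _) (by positivity)
    have h5 : ‖∏ c, z' c ^ j c‖ * ‖z b - z' b‖ ≤ r ^ n * ‖z - z'‖ :=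
      mul_le_mul h3 h2 (norm_nonneg _) (by positivity)
    have h6 : (n : ℝ) * r ^ (n - 1) * ‖z - z'‖ * r = n * r ^ n * ‖z - z'‖ := by
      rcases n with _ | m
      · simp
      · rw [Nat.add_sub_cancel, pow_succ]
        ring
    rw [Nat.add_sub_cancel]
    push_cast
    nlinarith [h4, h5, h6]

/-- The bound for the terms of degree at least two. -/
private theorem ts_bound {ρ δ : ℝ} (hρ : 0 < ρ) (hδ : 0 ≤ δ) (hδ' : δ ≤ ρ / 2) {n : ℕ}
    (hn : 2 ≤ n) : (n : ℝ) * δ ^ (n - 1) ≤ 4 / ρ ^ 2 * δ * ρ ^ n := by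
  obtain ⟨m, rfl⟩ : ∃ m, n = m + 2 := ⟨n - 2, by omega⟩
  have h1 : δ ^ m ≤ (ρ / 2) ^ m := pow_le_pow_left₀ hδ hδ' m
  have h2 : ((m + 2 : ℕ) : ℝ) ≤ 2 ^ (m + 2) := by
    exact_mod_cast (Nat.lt_two_pow_self (n := m + 2)).le
  have h3 : m + 2 - 1 = m + 1 := rfl
  rw [h3]
  have h4 : 4 / ρ ^ 2 * δ * ρ ^ (m + 2) = δ * (2 ^ (m + 2) * (ρ / 2) ^ m) := by
    rw [div_pow, pow_add, pow_add]
    field_simp
    ring
  rw [h4, pow_succ]
  have h5 : ((m + 2 : ℕ) : ℝ) * δ ^ m ≤ 2 ^ (m + 2) * (ρ / 2) ^ m :=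
    mul_le_mul h2 h1 (by positivity) (by positivity)
  nlinarith [mul_le_mul_of_nonneg_left h5 hδ]

private theorem ts_degree_one {β : Type} [Fintype β] {i : β →₀ ℕ} (hi : i.degree = 1) :
    ∃ b, i = Finsupp.single b 1 := by
  classical
  obtain ⟨b, hb⟩ : ∃ b, i b ≠ 0 := by
    by_contra h
    push Not at h
    have h0 : i = 0 := Finsupp.ext h
    rw [h0] at hi
    simp at hi
  have hj := Finsupp.sub_add_single_one_cancel hb
  have h1 : (i - Finsupp.single b 1).degree + 1 = 1 := by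
    have h2 : (i - Finsupp.single b 1 + Finsupp.single b 1).degree = 1 := by rw [hj, hi]
    rwa [map_add, Finsupp.degree_single] at h2
  have h3 : i - Finsupp.single b 1 = 0 := (Finsupp.degree_eq_zero_iff _).1 (by omega)
  rw [h3, zero_add] at hj
  exact ⟨b, hj.symm⟩

private theorem ts_summable {K β : Type} [Field K] [Fintype β] (s : K →+* ℂ) {ρ : ℝ}
    {f : MvPowerSeries β K} (hf : Cv s ρ f) {z : β → ℂ} (hz : ‖z‖ ≤ ρ) :
    Summable fun i : β →₀ ℕ => s (MvPowerSeries.coeff i f) * ∏ b, z b ^ i b := by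
  refine Summable.of_norm_bounded hf fun i => ?_
  rw [norm_mul]
  exact mul_le_mul_of_nonneg_left (ts_norm_le z hz i) (norm_nonneg _)

private theorem ts_main {K β : Type} [Field K] [Fintype β] (s : K →+* ℂ) {ρ : ℝ} (hρ : 0 < ρ)
    {f : MvPowerSeries β K} (hf : Cv s ρ f) {z z' : β → ℂ} {δ : ℝ} (hδ : δ ≤ ρ / 2)
    (hz : ‖z‖ ≤ δ) (hz' : ‖z'‖ ≤ δ) :
    ‖evf s z f - evf s z' f - ∑ b, s (MvPowerSeries.coeff (Finsupp.single b 1) f) *
      (z b - z' b)‖ ≤ 4 / ρ ^ 2 * (∑' i : β →₀ ℕ, ‖s (MvPowerSeries.coeff i f)‖ *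
        ρ ^ i.degree) * δ * ‖z - z'‖ := by
  classical
  have hδ0 : 0 ≤ δ := (norm_nonneg z).trans hz
  have s1 := ts_summable s hf (z := z) (by linarith)
  have s2 := ts_summable s hf (z := z') (by linarith)
  obtain ⟨T, hT⟩ : ∃ T : Finset (β →₀ ℕ), T =
    Finset.univ.image (fun b : β => Finsupp.single b 1) := ⟨_, rfl⟩
  have hmem : ∀ i : β →₀ ℕ, i ∉ T → i.degree ≠ 1 := by
    intro i hi h1
    obtain ⟨b, rfl⟩ := ts_degree_one h1
    exact hi (by rw [hT]; exact Finset.mem_image_of_mem _ (Finset.mem_univ b))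
  have hlin : ∑ b, s (MvPowerSeries.coeff (Finsupp.single b 1) f) * (z b - z' b) =
      ∑ i ∈ T, s (MvPowerSeries.coeff i f) * ((∏ b, z b ^ i b) - ∏ b, z' b ^ i b) := by
    rw [hT, Finset.sum_image (fun a _ b _ hab => Finsupp.single_left_injective one_ne_zero hab)]
    refine Finset.sum_congr rfl fun b _ => ?_
    have e : ∀ y : β → ℂ, ∏ c, y c ^ (Finsupp.single b 1 : β →₀ ℕ) c = y b := by
      intro y
      rw [Finset.prod_eq_single b]
      · simp
      · intro c _ hc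
        rw [Finsupp.single_eq_of_ne hc, pow_zero]
      · intro h
        exact absurd (Finset.mem_univ b) h
    rw [e, e]
  obtain ⟨g, hg⟩ : ∃ g : (β →₀ ℕ) → ℂ, ∀ i, g i = s (MvPowerSeries.coeff i f) *
      ((∏ b, z b ^ i b) - ∏ b, z' b ^ i b) := ⟨_, fun _ => rfl⟩
  have hgs : HasSum g (evf s z f - evf s z' f) := by
    have h1 := s1.hasSum.sub s2.hasSum
    have h2 : g = fun i : β →₀ ℕ => s (MvPowerSeries.coeff i f) * (∏ b, z b ^ i b) -
        s (MvPowerSeries.coeff i f) * ∏ b, z' b ^ i b := by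
      funext i
      rw [hg]
      ring
    rw [h2]
    exact h1
  have hts : HasSum (fun i => if i ∈ T then g i else 0) (∑ i ∈ T, g i) := by
    have h1 : HasSum (fun i => if i ∈ T then g i else 0) (∑ i ∈ T, if i ∈ T then g i else 0) :=
      hasSum_sum_of_ne_finset_zero fun i hi => if_neg hi
    rwa [Finset.sum_congr rfl fun i hi => if_pos hi] at h1
  rw [hlin, Finset.sum_congr rfl fun i _ => (hg i).symm]
  have hcv : Summable fun i : β →₀ ℕ => ‖s (MvPowerSeries.coeff i f)‖ * ρ ^ i.degree := hf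
  have hbd := (hgs.sub hts).norm_le_of_bounded
    (hcv.hasSum.mul_left (4 / ρ ^ 2 * δ * ‖z - z'‖)) ?_
  · refine hbd.trans (le_of_eq ?_)
    ring
  · intro i
    have hpos : 0 ≤ 4 / ρ ^ 2 * δ * ‖z - z'‖ * (‖s (MvPowerSeries.coeff i f)‖ *
        ρ ^ i.degree) := by positivity
    by_cases hi : i ∈ T
    · rw [if_pos hi, sub_self, norm_zero]
      exact hpos
    · rw [if_neg hi, sub_zero, hg, norm_mul]
      have h1 := ts_diff z z' hz hz' _ i rfl
      rcases Nat.lt_or_ge i.degree 2 with h2 | h2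
      · have h3 : i.degree = 0 := by
          have := hmem i hi
          omega
        rw [h3] at h1
        have h4 : ‖(∏ b, z b ^ i b) - ∏ b, z' b ^ i b‖ = 0 := by
          refine le_antisymm ?_ (norm_nonneg _)
          simpa using h1
        rw [h4, mul_zero]
        exact hpos
      · have h3 := ts_bound hρ hδ0 hδ h2
        have h4 : ‖(∏ b, z b ^ i b) - ∏ b, z' b ^ i b‖ ≤
            4 / ρ ^ 2 * δ * ρ ^ i.degree * ‖z - z'‖ :=
          h1.trans (mul_le_mul_of_nonneg_right h3 (norm_nonneg _))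
        refine (mul_le_mul_of_nonneg_left h4 (norm_nonneg _)).trans (le_of_eq ?_)
        ring

/-- **Strict derivative at the origin.**

Proof. Let `c i = s (coeff i f)`, `ρ > 0`. For `z, z'` in the polydisc of radius `δ ≤ ρ / 2`:
`evf s z f - evf s z' f - ∑ b, c (single b 1) (z b - z' b) = ∑ over |i| ≥ 2 of c i (z^i - z'^i)`, and
`‖z^i - z'^i‖ ≤ |i| δ^(|i|-1) max_b ‖z b - z' b‖` (telescoping, induction). As `|i| δ^(|i|-1) ≤
|i| δ (ρ/2)^(|i|-2) ≤ δ (4 / ρ^2) |i| 2^(-|i|) ρ^|i| ≤ C δ ρ^|i|`, the sum is at most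
`C δ (∑ ‖c i‖ ρ^|i|) ‖z - z'‖`: `hasStrictFDerivAt_iff_isLittleO` or the definition. -/
theorem evf_strict {K β : Type} [Field K] [Fintype β] (s : K →+* ℂ) {ρ : ℝ} (hρ : 0 < ρ)
    {f : MvPowerSeries β K} (hf : Cv s ρ f) :
    HasStrictFDerivAt (fun z : β → ℂ => evf s z f)
      (∑ b, s (MvPowerSeries.coeff (Finsupp.single b 1) f) •
        (ContinuousLinearMap.proj b : (β → ℂ) →L[ℂ] ℂ)) 0 := by
  rw [hasStrictFDerivAt_iff_isLittleO, Asymptotics.isLittleO_iff]
  intro ε hε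
  obtain ⟨C, hC⟩ : ∃ C, C = 4 / ρ ^ 2 * (∑' i : β →₀ ℕ, ‖s (MvPowerSeries.coeff i f)‖ *
    ρ ^ i.degree) := ⟨_, rfl⟩
  have hC0 : 0 ≤ C := by
    rw [hC]
    exact mul_nonneg (by positivity) (tsum_nonneg fun i => by positivity)
  have hη : 0 < min (ρ / 2) (ε / (C + 1)) := by positivity
  filter_upwards [Metric.ball_mem_nhds ((0 : β → ℂ), (0 : β → ℂ)) hη] with q hq
  have hq' : ‖q‖ < min (ρ / 2) (ε / (C + 1)) := by
    rw [Metric.mem_ball, dist_eq_norm] at hq
    have h1 : q - ((0 : β → ℂ), (0 : β → ℂ)) = q := sub_zero q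
    rwa [h1] at hq
  have h1 := ts_main s hρ hf (z := q.1) (z' := q.2) (δ := ‖q‖)
    (hq'.le.trans (min_le_left _ _)) (norm_fst_le q) (norm_snd_le q)
  rw [← hC] at h1
  have h2 : (∑ b, s (MvPowerSeries.coeff (Finsupp.single b 1) f) •
      (ContinuousLinearMap.proj b : (β → ℂ) →L[ℂ] ℂ)) (q.1 - q.2) =
      ∑ b, s (MvPowerSeries.coeff (Finsupp.single b 1) f) * (q.1 b - q.2 b) := by
    rw [ContinuousLinearMap.sum_apply]
    rfl
  rw [h2]
  refine h1.trans (mul_le_mul_of_nonneg_right ?_ (norm_nonneg _))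
  have h3 : ‖q‖ ≤ ε / (C + 1) := hq'.le.trans (min_le_right _ _)
  have h4 : (C + 1) * ‖q‖ ≤ ε := by
    rw [le_div_iff₀ (by positivity)] at h3
    linarith
  nlinarith [norm_nonneg q]

end Pool.Agent.LSharp
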