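import Pool.Agent.LSharp.TSDefs

set_option autoImplicit false

/-! TS: transfer of embeddings. -/

namespace Pool.Agent.LSharp

open MvPolynomial Module Pool.Agent.CITLines Pool.Agent.Srf5

private theorem ts_count {E F C1 Ω T : Type} [Field E] [Field F] [Algebra E F]
    [FiniteDimensional E F] [CharZero E] [Field C1] [Algebra E C1] [Field Ω] [IsAlgClosed Ω]
    [Algebra E Ω] [Fintype T] (σ : T → F →ₐ[E] C1) (hσ : Function.Injective σ) :
    ∃ τ : T → F →ₐ[E] Ω, Function.Injective τ := by
  have h1 : Nat.card T ≤ Nat.card (F →ₐ[E] C1) := Nat.card_le_card_of_injective σ hσ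
  have h2 : Nat.card (F →ₐ[E] C1) ≤ Module.finrank E F := card_algHom_le_finrank E F C1
  have h3 : Nat.card (F →ₐ[E] Ω) = Module.finrank E F :=
    AlgHom.natCard_of_splits E F Ω (fun _ => IsAlgClosed.splits _)
  have h4 : Nat.card T ≤ Nat.card (F →ₐ[E] Ω) := by
    rw [h3]
    exact h1.trans h2
  have hft : Fintype (F →ₐ[E] Ω) := Fintype.ofFinite _
  rw [Nat.card_eq_fintype_card, Nat.card_eq_fintype_card] at h4
  obtain ⟨f⟩ := Function.Embedding.nonempty_of_card_le h4
  exact ⟨f, f.injective⟩

/-- Every element is algebraic over the field generated by `φ`. -/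
private theorem ts_alg {K F β ι : Type} [Field K] [Field F] [Algebra K F] [Fintype ι]
    [Fintype β] (w : ι → F) (htop : IntermediateField.adjoin K (Set.range w) = ⊤)
    (hdim : dm (kr K w) = Fintype.card β) (φ : β → F) (hφ : AlgebraicIndependent K φ) (a : F) :
    IsAlgebraic (IntermediateField.adjoin K (Set.range φ)) a := by
  rw [IntermediateField.isAlgebraic_adjoin_iff]
  by_contra h
  have h1 := (hφ.option_iff_transcendental a).2 h
  have h2 := rk_range_of_indep _ h1
  rw [Fintype.card_option] at h2
  have h3 : rk K (Set.range fun o : Option β => o.elim a φ) ≤ rk K (Set.range w) := by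
    refine rk_le_of_algebraic fun b _ => ?_
    rw [← IntermediateField.isAlgebraic_adjoin_iff, htop]
    exact isAlgebraic_algebraMap (⟨b, IntermediateField.mem_top⟩ : (⊤ : IntermediateField K F))
  rw [h2, ← dm_kr, hdim] at h3
  have h4 : Fintype.card β + 1 ≤ Fintype.card β := by exact_mod_cast h3
  omega

/-- **Transfer of embeddings** from one field `C1` to an algebraically closed field `Ω`.

Proof. `φ i = mon w (y i)` are algebraically independent over `K` (their images `c1` under one `σ
x` are; if `T` is empty there is nothing to prove). Let `E = IntermediateField.adjoin K (range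
φ)`. `F` has transcendence degree `card β` over `K` (`hdim`, `dm_kr`, `htop`), so it is algebraic
over `E`, and finitely generated, so finite (`IntermediateField`/`Algebra`:
`finiteDimensional_of_...adjoin`, `essFiniteType`), separable because of characteristic zero. All
the `σ x` agree on `E`; with `C1` an `E`-algebra by one of them, the `σ x` are `card T` different
elements of `F →ₐ[E] C1`, so `card T ≤ finrank E F` (`AlgHom.card_le` or similar). Make `Ω` an
`E`-algebra by `φ i ↦ c i` (both families are algebraically independent). Then `Fintype.card (F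
→ₐ[E] Ω) = finrank E F ≥ card T` (`AlgHom.card`); restrict scalars to `K`. -/
theorem emb_transfer {K F β ι C1 Ω : Type} [Field K] [CharZero K] [Field F] [Algebra K F]
    [Field C1] [Algebra K C1] [Field Ω] [IsAlgClosed Ω] [Algebra K Ω] [Fintype ι] [Fintype β]
    (w : ι → F) (htop : IntermediateField.adjoin K (Set.range w) = ⊤)
    (hdim : dm (kr K w) = Fintype.card β) (φ : β → F) {T : Type} [Fintype T]
    (σ : T → F →ₐ[K] C1) (hσ : Function.Injective σ) (c1 : β → C1)
    (h1 : ∀ x i, σ x (φ i) = c1 i) (hc1 : AlgebraicIndependent K c1) (c : β → Ω)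
    (hc : AlgebraicIndependent K c) :
    ∃ τ : T → F →ₐ[K] Ω, Function.Injective τ ∧ ∀ x i, τ x (φ i) = c i := by
  classical
  rcases isEmpty_or_nonempty T with hT | ⟨⟨x0⟩⟩
  · exact ⟨fun x => isEmptyElim x, fun x => isEmptyElim x, fun x => isEmptyElim x⟩
  have hφ : AlgebraicIndependent K φ := by
    refine AlgebraicIndependent.of_comp (σ x0) ?_
    have h2 : σ x0 ∘ φ = c1 := by
      funext i
      exact h1 x0 i
    rw [h2]
    exact hc1
  obtain ⟨E, hE⟩ : ∃ E : IntermediateField K F, E = IntermediateField.adjoin K (Set.range φ) :=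
    ⟨_, rfl⟩
  have halg : ∀ a : F, IsAlgebraic E a := by
    rw [hE]
    exact ts_alg w htop hdim φ hφ
  have hmem : ∀ i, φ i ∈ E := fun i => by
    rw [hE]
    exact IntermediateField.subset_adjoin _ _ ⟨i, rfl⟩
  -- finite dimension
  have hfd : FiniteDimensional E F := by
    have h2 : FiniteDimensional E (IntermediateField.adjoin E (Set.range w)) :=
      IntermediateField.finiteDimensional_adjoin fun x _ => (halg x).isIntegral
    have h3 : IntermediateField.adjoin E (Set.range w) = ⊤ := by
      rw [eq_top_iff]
      intro x _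
      have h4 : IntermediateField.adjoin K (Set.range w) ≤
          (IntermediateField.adjoin E (Set.range w)).restrictScalars K := by
        rw [IntermediateField.adjoin_le_iff]
        exact IntermediateField.subset_adjoin _ _
      rw [htop] at h4
      exact h4 IntermediateField.mem_top
    rw [h3] at h2
    exact LinearEquiv.finiteDimensional
      (IntermediateField.topEquiv (F := E) (E := F)).toLinearEquiv
  -- the embedding of `E` into `Ω`
  obtain ⟨g, hg⟩ : ∃ g : E →ₐ[K] Ω, ∀ i, g ⟨φ i, hmem i⟩ = c i := by
    subst hE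
    let l : FractionRing (MvPolynomial β K) →ₐ[K] Ω :=
      IsFractionRing.liftAlgHom (K := FractionRing (MvPolynomial β K))
        (algebraicIndependent_iff_injective_aeval.2 hc)
    refine ⟨l.comp (hφ.aevalEquivField.symm : _ →ₐ[K] _), fun i => ?_⟩
    have h2 : hφ.aevalEquivField
        (algebraMap (MvPolynomial β K) (FractionRing (MvPolynomial β K)) (X i)) =
        (⟨φ i, IntermediateField.subset_adjoin _ _ ⟨i, rfl⟩⟩ :
          IntermediateField.adjoin K (Set.range φ)) := by
      apply Subtype.ext
      rw [hφ.aevalEquivField_algebraMap_apply_coe, aeval_X]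
    rw [← h2]
    change l (hφ.aevalEquivField.symm (hφ.aevalEquivField
      (algebraMap (MvPolynomial β K) (FractionRing (MvPolynomial β K)) (X i)))) = c i
    rw [AlgEquiv.symm_apply_apply]
    have h3 : l (algebraMap (MvPolynomial β K) (FractionRing (MvPolynomial β K)) (X i)) =
        aeval c (X i) :=
      IsFractionRing.lift_algebraMap (algebraicIndependent_iff_injective_aeval.2 hc) _
    exact h3.trans (aeval_X _ _)
  let iΩ : Algebra E Ω := g.toRingHom.toAlgebra
  have tΩ : IsScalarTower K E Ω := IsScalarTower.of_algebraMap_eq fun k => (g.commutes k).symm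
  let iC : Algebra E C1 := ((σ x0).comp E.val).toRingHom.toAlgebra
  have hres : ∀ x, (σ x).comp E.val = (σ x0).comp E.val := by
    intro x
    refine IntermediateField.algHom_ext_of_eq_adjoin K hE ?_
    rintro _ ⟨i, rfl⟩
    exact (h1 x i).trans (h1 x0 i).symm
  let σ' : T → F →ₐ[E] C1 := fun x =>
    { (σ x) with
      commutes' := fun e => DFunLike.congr_fun (hres x) e }
  have hσ' : Function.Injective σ' := by
    intro x y hxy
    apply hσ
    ext z
    exact DFunLike.congr_fun hxy z
  obtain ⟨τ, hτ⟩ := ts_count (Ω := Ω) σ' hσ'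
  refine ⟨fun x => (τ x).restrictScalars K, fun x y hxy => hτ ?_, fun x i => ?_⟩
  · ext z
    exact DFunLike.congr_fun hxy z
  · have h2 := (τ x).commutes ⟨φ i, hmem i⟩
    exact h2.trans (hg i)

end Pool.Agent.LSharp
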