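import Pool.Agent.LSharp.TSMn

set_option autoImplicit false

/-! TS: different embeddings are separated by finitely many elements. -/

namespace Pool.Agent.LSharp

open MvPolynomial Module Pool.Agent.CITLines Pool.Agent.Srf5

/-- A linearly independent finite family of functions has an invertible matrix of values. -/
private theorem ts_minor {Ω S A : Type} [Field Ω] [Fintype S] [DecidableEq S] (g : S → A → Ω)
    (hg : LinearIndependent Ω g) :
    ∃ b : S → A, (Matrix.of fun s t => g s (b t)).det ≠ 0 := by
  classical
  set v : A → S → Ω := fun a s => g s a with hv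
  have htop : Submodule.span Ω (Set.range v) = ⊤ := by
    by_contra hne
    obtain ⟨f, hf0, hf⟩ := Submodule.exists_le_ker_of_lt_top _ (lt_top_iff_ne_top.mpr hne)
    apply hf0
    have h1 : ∀ a : A, ∑ s, f (Pi.single s 1) * g s a = 0 := by
      intro a
      have h2 : f (v a) = 0 := hf (Submodule.subset_span ⟨a, rfl⟩)
      have h3 : v a = ∑ s, g s a • (Pi.single s (1 : Ω) : S → Ω) := by
        funext s'
        simp [hv, Finset.sum_apply, Pi.single_apply]
      rw [h3, map_sum] at h2
      rw [← h2]
      refine Finset.sum_congr rfl fun s _ => ?_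
      rw [map_smul, smul_eq_mul, mul_comm]
    have h4 := Fintype.linearIndependent_iff.1 hg (fun s => f (Pi.single s 1)) (by
      funext a
      simpa [Finset.sum_apply] using h1 a)
    apply LinearMap.pi_ext'
    intro s
    apply LinearMap.ext_ring
    simpa using h4 s
  obtain ⟨B, hB, hsp, hli⟩ := exists_linearIndependent Ω (Set.range v)
  have hspB : ⊤ ≤ Submodule.span Ω (Set.range (Subtype.val : B → S → Ω)) := by
    rw [Subtype.range_coe, hsp, htop]
  let bas : Basis B Ω (S → Ω) := Basis.mk hli hspB
  have : Fintype B := FiniteDimensional.fintypeBasisIndex bas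
  have hcard : Fintype.card S = Fintype.card B := by
    rw [← Module.finrank_eq_card_basis bas, Module.finrank_fintype_fun_eq_card]
  let e : S ≃ B := Fintype.equivOfCardEq hcard
  choose a ha using fun t : S => hB (e t).2
  refine ⟨a, ?_⟩
  have h5 : LinearIndependent Ω (fun t : S => v (a t)) := by
    have h6 : (fun t : S => v (a t)) = (Subtype.val : B → S → Ω) ∘ e := by
      funext t
      exact ha t
    rw [h6]
    exact hli.comp e e.injective
  have h7 : IsUnit (Matrix.of fun s t => g s (a t)) := by
    rw [← Matrix.linearIndependent_cols_iff_isUnit]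
    exact h5
  exact ((Matrix.isUnit_iff_isUnit_det _).1 h7).ne_zero

/-- **An invertible matrix of values.**

Proof. Let `A = Algebra.adjoin K (range w)`. Two `K`-homomorphisms `F → Ω` which agree on the `w l` agree on
`F` (`htop`), so the restrictions of the `σ s` to `A` are different monoid homomorphisms `A → Ω`, hence
linearly independent over `Ω` as functions on `A` (`linearIndependent_monoidHom`). A linearly independent
finite family of functions `S → (A → Ω)` has an invertible evaluation matrix (the evaluations at the points of
`A` span the dual space of `Ω^S`, so a finite subfamily is a basis; or induction on `S` by expansion along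
a row; compare `Leh2/DetSel.lean`). The chosen elements are in some `Mn K w N` (`adjoin_mn`, `mn_mono`). -/
theorem exists_minor {K F Ω ι : Type} [Field K] [Field F] [Field Ω] [Algebra K F] [Algebra K Ω]
    [Fintype ι] (w : ι → F) (hw : ∀ l, w l ≠ 0)
    (htop : IntermediateField.adjoin K (Set.range w) = ⊤) {S : Type} [Fintype S] [DecidableEq S]
    (σ : S → F →ₐ[K] Ω) (hσ : Function.Injective σ) :
    ∃ (b : S → F) (N : ℕ), (∀ s, b s ∈ Mn K w N) ∧
      (Matrix.of fun s t => σ s (b t)).det ≠ 0 := by
  classical
  set A := Algebra.adjoin K (Set.range w) with hA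
  let f : S → (A →* Ω) := fun s => (((σ s).comp A.val : A →ₐ[K] Ω) : A →* Ω)
  have hf : Function.Injective f := by
    intro s t hst
    apply hσ
    apply AlgHom.ext
    intro x
    have hx : x ∈ IntermediateField.adjoin K (Set.range w) := htop ▸ IntermediateField.mem_top
    induction hx using IntermediateField.adjoin_induction with
    | mem x hx => exact DFunLike.congr_fun hst (⟨x, Algebra.subset_adjoin hx⟩ : A)
    | algebraMap x => rw [AlgHom.commutes, AlgHom.commutes]
    | add x y _ _ h1 h2 => rw [map_add, map_add, h1, h2]
    | inv x _ h1 => rw [map_inv₀, map_inv₀, h1]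
    | mul x y _ _ h1 h2 => rw [map_mul, map_mul, h1, h2]
  have hli : LinearIndependent Ω (fun s : S => (f s : A → Ω)) :=
    (linearIndependent_monoidHom A Ω).comp f hf
  obtain ⟨b, hb⟩ := ts_minor (fun s : S => (f s : A → Ω)) hli
  choose N hN using fun s => adjoin_mn w hw (b s : F) (b s).2
  refine ⟨fun s => (b s : F), Finset.univ.sup N, fun s => ?_, hb⟩
  exact mn_mono w (Finset.le_sup (Finset.mem_univ s)) (hN s)

end Pool.Agent.LSharp
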