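import Mathlib

set_option autoImplicit false

/-! TS: normal form of the powers of algebraic elements. -/

namespace Pool.Agent.LSharp

open MvPolynomial Module

/-- The span of the monomials with bounded exponents. -/
noncomputable def Sp (K : Type) {A β W : Type} [Field K] [CommRing A] [Algebra K A] [Fintype β]
    [Fintype W] (x : β → A) (y : W → A) (X I : ℕ) : Submodule K A :=
  Submodule.span K ((fun p : (β → ℕ) × (W → ℕ) => (∏ b, x b ^ p.1 b) * ∏ k, y k ^ p.2 k) ''
    {p | (∀ b, p.1 b ≤ X) ∧ ∀ k, p.2 k ≤ I})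

section

variable {K A β W : Type} [Field K] [CommRing A] [Algebra K A] [Fintype β] [Fintype W]

theorem sp_finite (x : β → A) (y : W → A) (X I : ℕ) : FiniteDimensional K (Sp K x y X I) := by
  refine FiniteDimensional.span_of_finite K (Set.Finite.image _ ?_)
  have h1 : ({f : β → ℕ | ∀ b, f b ≤ X}).Finite := by
    have h := Set.Finite.pi' (fun _ : β => Set.finite_Iic X)
    exact h
  have h2 : ({f : W → ℕ | ∀ k, f k ≤ I}).Finite := by
    have h := Set.Finite.pi' (fun _ : W => Set.finite_Iic I)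
    exact h
  exact (h1.prod h2).subset fun p hp => ⟨hp.1, hp.2⟩

/-- Proof. The number of generators. -/
theorem sp_finrank (x : β → A) (y : W → A) (X I : ℕ) :
    finrank K (Sp K x y X I) ≤ (X + 1) ^ Fintype.card β * (I + 1) ^ Fintype.card W := by
  classical
  have h0 : Sp K x y X I = Submodule.span K (Set.range
      (fun q : (β → Fin (X + 1)) × (W → Fin (I + 1)) =>
        (∏ b, x b ^ (q.1 b : ℕ)) * ∏ k, y k ^ (q.2 k : ℕ))) := by
    unfold Sp
    congr 1
    ext z
    constructor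
    · rintro ⟨p, ⟨h1, h2⟩, rfl⟩
      exact ⟨(fun b => ⟨p.1 b, Nat.lt_succ_of_le (h1 b)⟩,
        fun k => ⟨p.2 k, Nat.lt_succ_of_le (h2 k)⟩), rfl⟩
    · rintro ⟨q, rfl⟩
      exact ⟨(fun b => (q.1 b : ℕ), fun k => (q.2 k : ℕ)),
        ⟨fun b => Nat.le_of_lt_succ (q.1 b).2, fun k => Nat.le_of_lt_succ (q.2 k).2⟩, rfl⟩
  rw [h0]
  refine (finrank_range_le_card _).trans (le_of_eq ?_)
  simp

/-- Monomials. -/
private noncomputable def tsMono (x : β → A) (y : W → A) (p : (β → ℕ) × (W → ℕ)) : A :=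
  (∏ b, x b ^ p.1 b) * ∏ k, y k ^ p.2 k

/-- The span of the monomials with exponents in a region. -/
private noncomputable def tsSp (K : Type) {A β W : Type} [Field K] [CommRing A] [Algebra K A]
    [Fintype β] [Fintype W] (x : β → A) (y : W → A) (P : Set ((β → ℕ) × (W → ℕ))) :
    Submodule K A :=
  Submodule.span K (tsMono x y '' P)

private theorem tsMono_add (x : β → A) (y : W → A) (p q : (β → ℕ) × (W → ℕ)) :
    tsMono x y (p + q) = tsMono x y p * tsMono x y q := by
  unfold tsMono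
  simp only [Prod.fst_add, Prod.snd_add, Pi.add_apply, pow_add, Finset.prod_mul_distrib]
  ring

private theorem tsMono_mem (x : β → A) (y : W → A) {P : Set ((β → ℕ) × (W → ℕ))}
    {p : (β → ℕ) × (W → ℕ)} (hp : p ∈ P) : tsMono x y p ∈ tsSp K x y P :=
  Submodule.subset_span ⟨p, hp, rfl⟩

private theorem tsSp_mono (x : β → A) (y : W → A) {P Q : Set ((β → ℕ) × (W → ℕ))}
    (h : P ⊆ Q) : tsSp K x y P ≤ tsSp K x y Q :=
  Submodule.span_mono (Set.image_mono h)

private theorem tsSp_mul (x : β → A) (y : W → A) {P Q R : Set ((β → ℕ) × (W → ℕ))}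
    (h : ∀ p ∈ P, ∀ q ∈ Q, p + q ∈ R) {u v : A} (hu : u ∈ tsSp K x y P)
    (hv : v ∈ tsSp K x y Q) : u * v ∈ tsSp K x y R := by
  have h1 := Submodule.mul_mem_mul hu hv
  unfold tsSp at h1
  rw [Submodule.span_mul_span] at h1
  refine (Submodule.span_le.2 ?_) h1
  rintro _ ⟨_, ⟨p, hp, rfl⟩, _, ⟨q, hq, rfl⟩, rfl⟩
  change tsMono x y p * tsMono x y q ∈ tsSp K x y R
  rw [← tsMono_add]
  exact tsMono_mem x y (h p hp q hq)

/-- Values of polynomials of bounded degrees. -/
private theorem ts_aeval (x : β → A) (y : W → A) (D : ℕ) (f : MvPolynomial β K)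
    (hf : ∀ b, degreeOf b f ≤ D) :
    aeval x f ∈ tsSp K x y {p | (∀ b, p.1 b ≤ D) ∧ p.2 = 0} := by
  rw [aeval_def, eval₂_eq']
  refine Submodule.sum_mem _ fun d hd => ?_
  rw [← Algebra.smul_def]
  refine Submodule.smul_mem _ _ ?_
  have h1 : ∏ i, x i ^ d i = tsMono x y (fun b => d b, 0) := by
    unfold tsMono
    simp
  rw [h1]
  refine tsMono_mem x y ⟨fun b => ?_, rfl⟩
  exact (degreeOf_le_iff.1 (hf b)) d hd

private theorem tsMono_single [DecidableEq W] (x : β → A) (y : W → A) (k : W) (i : ℕ) :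
    tsMono x y (0, Pi.single k i) = y k ^ i := by
  unfold tsMono
  have h1 : ∏ l, y l ^ (Pi.single k i : W → ℕ) l = y k ^ i := by
    rw [Finset.prod_eq_single k]
    · simp
    · intro l _ hl
      simp [Pi.single_eq_of_ne hl]
    · intro h
      exact absurd (Finset.mem_univ k) h
  simp [h1]

/-- The region of one generator. -/
private def tsV (β : Type) {W : Type} (k : W) (R N : ℕ) : Set ((β → ℕ) × (W → ℕ)) :=
  {p | (∀ b, p.1 b ≤ R) ∧ p.2 k < N ∧ ∀ l, l ≠ k → p.2 l = 0}

private theorem ts_step (x : β → A) (y : W → A) (D : ℕ) (k : W) (n : ℕ)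
    (c : ℕ → MvPolynomial β K) (hc : ∀ i b, degreeOf b (c i) ≤ D)
    (hrel : ∑ i ∈ Finset.range (n + 1), aeval x (c i) * y k ^ i = 0) (R : ℕ) {v : A}
    (hv : v ∈ tsSp K x y (tsV β k R n)) :
    aeval x (c n) * y k * v ∈ tsSp K x y (tsV β k (R + D) n) := by
  classical
  have key : (tsSp K x y (tsV β k R n)).map (LinearMap.mulLeft K (aeval x (c n) * y k)) ≤
      tsSp K x y (tsV β k (R + D) n) := by
    unfold tsSp
    rw [Submodule.map_span_le]
    rintro _ ⟨p, ⟨hp1, hp2, hp3⟩, rfl⟩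
    rw [LinearMap.mulLeft_apply]
    have hps : p.2 = Pi.single k (p.2 k) := by
      funext l
      by_cases hl : l = k
      · subst hl
        simp
      · rw [Pi.single_eq_of_ne hl, hp3 l hl]
    have hy : ∀ i, y k ^ i * tsMono x y (p.1, 0) = tsMono x y (p.1, Pi.single k i) := by
      intro i
      rw [← tsMono_single (x := x) y k i, ← tsMono_add]
      congr 1
      ext l <;> simp
    have hterm : ∀ i j, i < n → aeval x (c j) * tsMono x y (p.1, Pi.single k i) ∈
        tsSp K x y (tsV β k (R + D) n) := by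
      intro i j hi
      refine tsSp_mul x y (Q := {(p.1, (Pi.single k i : W → ℕ))}) ?_
        (ts_aeval x y D (c j) (hc j)) (tsMono_mem x y (Set.mem_singleton _))
      rintro q ⟨hq1, hq2⟩ r hr
      rw [Set.mem_singleton_iff] at hr
      subst hr
      refine ⟨fun b => ?_, ?_, fun l hl => ?_⟩
      · have h1 := hq1 b
        have h2 := hp1 b
        simp only [Prod.fst_add, Pi.add_apply]
        omega
      · simp [hq2, hi]
      · simp [hq2, Pi.single_eq_of_ne hl]
    have hmono : tsMono x y p = y k ^ (p.2 k) * tsMono x y (p.1, 0) := by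
      rw [hy, ← hps]
    by_cases hi : p.2 k + 1 < n
    · have h1 : aeval x (c n) * y k * tsMono x y p =
          aeval x (c n) * tsMono x y (p.1, Pi.single k (p.2 k + 1)) := by
        rw [← hy, hmono]
        ring
      rw [h1]
      exact hterm _ _ hi
    · have hn : n = p.2 k + 1 := by omega
      have h1 : aeval x (c n) * y k ^ n = - ∑ i ∈ Finset.range n, aeval x (c i) * y k ^ i := by
        rw [Finset.sum_range_succ] at hrel
        exact eq_neg_of_add_eq_zero_right hrel
      have h2 : aeval x (c n) * y k * tsMono x y p =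
          - ∑ i ∈ Finset.range n, aeval x (c i) * tsMono x y (p.1, Pi.single k i) := by
        calc aeval x (c n) * y k * tsMono x y p
            = (aeval x (c n) * y k ^ n) * tsMono x y (p.1, 0) := by
              rw [hmono]
              nth_rewrite 3 [hn]
              ring
          _ = _ := by
              rw [h1, neg_mul, Finset.sum_mul]
              congr 1
              refine Finset.sum_congr rfl fun i _ => ?_
              rw [← hy]
              ring
      rw [h2]
      exact Submodule.neg_mem _ (Submodule.sum_mem _ fun i hi' =>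
        hterm _ _ (Finset.mem_range.1 hi'))
  exact key (Submodule.mem_map.2 ⟨v, hv, rfl⟩)

private theorem ts_one (x : β → A) (y : W → A) (D : ℕ) (k : W) (n : ℕ) (hn : 1 ≤ n)
    (c : ℕ → MvPolynomial β K) (hc : ∀ i b, degreeOf b (c i) ≤ D)
    (hrel : ∑ i ∈ Finset.range (n + 1), aeval x (c i) * y k ^ i = 0) (j : ℕ) :
    aeval x (c n) ^ j * y k ^ j ∈ tsSp K x y (tsV β k (D * j) n) := by
  induction j with
  | zero =>
    have h1 : aeval x (c n) ^ 0 * y k ^ 0 = tsMono x y (0, 0) := by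
      unfold tsMono
      simp
    rw [h1]
    exact tsMono_mem x y ⟨fun b => by simp, Nat.lt_of_lt_of_le Nat.zero_lt_one hn, fun l _ => rfl⟩
  | succ j ih =>
    have h1 := ts_step x y D k n c hc hrel _ ih
    have h2 : aeval x (c n) ^ (j + 1) * y k ^ (j + 1) =
        aeval x (c n) * y k * (aeval x (c n) ^ j * y k ^ j) := by ring
    rw [h2, Nat.mul_succ]
    exact h1

private theorem ts_pow (x : β → A) (y : W → A) (D : ℕ) (f : MvPolynomial β K)
    (hf : ∀ b, degreeOf b f ≤ D) (j : ℕ) :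
    aeval x f ^ j ∈ tsSp K x y {p | (∀ b, p.1 b ≤ D * j) ∧ p.2 = 0} := by
  induction j with
  | zero =>
    have h1 : aeval x f ^ 0 = tsMono x y (0, 0) := by
      unfold tsMono
      simp
    rw [h1]
    exact tsMono_mem x y ⟨fun b => by simp, rfl⟩
  | succ j ih =>
    rw [pow_succ]
    refine tsSp_mul x y ?_ ih (ts_aeval x y D f hf)
    rintro p ⟨h1, h2⟩ q ⟨h3, h4⟩
    refine ⟨fun b => ?_, by simp [h2, h4]⟩
    have h5 := h1 b
    have h6 := h3 b
    simp only [Prod.fst_add, Pi.add_apply, Nat.mul_succ]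
    omega

private theorem ts_le (x : β → A) (y : W → A) (D : ℕ) (k : W) (n : ℕ) (hn : 1 ≤ n)
    (c : ℕ → MvPolynomial β K) (hc : ∀ i b, degreeOf b (c i) ≤ D)
    (hrel : ∑ i ∈ Finset.range (n + 1), aeval x (c i) * y k ^ i = 0) {j X : ℕ} (hj : j ≤ X) :
    aeval x (c n) ^ X * y k ^ j ∈ tsSp K x y (tsV β k (D * X) n) := by
  obtain ⟨r, rfl⟩ := Nat.exists_eq_add_of_le hj
  have h1 : aeval x (c n) ^ (j + r) * y k ^ j =
      aeval x (c n) ^ r * (aeval x (c n) ^ j * y k ^ j) := by ring
  rw [h1]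
  refine tsSp_mul x y ?_ (ts_pow x y D (c n) (hc n) r) (ts_one x y D k n hn c hc hrel j)
  rintro p ⟨h1, h2⟩ q ⟨h3, h4, h5⟩
  refine ⟨fun b => ?_, ?_, fun l hl => ?_⟩
  · have h6 := h1 b
    have h7 := h3 b
    simp only [Prod.fst_add, Pi.add_apply, Nat.mul_add]
    omega
  · simp [h2, h4]
  · simp [h2, h5 l hl]

private theorem ts_prod [DecidableEq W] (x : β → A) (y : W → A) (D R : ℕ) (n : W → ℕ)
    (hn : ∀ k, n k ≤ D) (z : W → A)
    (hz : ∀ k, z k ∈ tsSp K x y (tsV β k R (n k))) (s : Finset W) :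
    ∏ k ∈ s, z k ∈ tsSp K x y {p | (∀ b, p.1 b ≤ s.card * R) ∧ (∀ k, p.2 k ≤ D) ∧
      ∀ k, k ∉ s → p.2 k = 0} := by
  induction s using Finset.induction_on with
  | empty =>
    have h1 : ∏ k ∈ (∅ : Finset W), z k = tsMono x y (0, 0) := by
      unfold tsMono
      simp
    rw [h1]
    exact tsMono_mem x y ⟨fun b => by simp, fun k => Nat.zero_le _, fun k _ => rfl⟩
  | insert a s ha ih =>
    rw [Finset.prod_insert ha]
    refine tsSp_mul x y ?_ (hz a) ih
    rintro p ⟨h1, h2, h3⟩ q ⟨h4, h5, h6⟩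
    refine ⟨fun b => ?_, fun k => ?_, fun k hk => ?_⟩
    · have h7 := h1 b
      have h8 := h4 b
      rw [Finset.card_insert_of_notMem ha]
      simp only [Prod.fst_add, Pi.add_apply, Nat.succ_mul]
      omega
    · simp only [Prod.snd_add, Pi.add_apply]
      by_cases hk : k = a
      · subst hk
        rw [h6 k ha]
        have := hn k
        omega
      · rw [h3 k hk]
        have := h5 k
        omega
    · rw [Finset.mem_insert, not_or] at hk
      simp only [Prod.snd_add, Pi.add_apply]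
      rw [h3 k hk.1, h6 k hk.2]

/-- **Normal form.** Every `y k` satisfies `∑ i ≤ n k, c k i (x) y_k^i = 0` with `1 ≤ n k ≤ D` and
coefficients of degrees at most `D`.

Proof. For one `k` and `j`: `c k (n k) (x)^j * y_k^j` is in the span of the `x^α y_k^i`,
`α b ≤ D j`, `i < n k`: induction on `j`; multiply by `c k (n k) (x) * y_k`: the term
`x^α y_k^(i+1) c k (n k) (x)` is fine if `i + 1 < n k` (degrees `+ D`), and for `i + 1 = n k` use
`c k (n k) (x) y_k^(n k) = - ∑ i < n k, c k i (x) y_k^i`. For `j ≤ X` multiply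
by `c k (n k) (x)^(X - j)` (`α b ≤ D X`). Then the product over all `k`:
`α b ≤ card W * (D X)`, `i_k < n k ≤ D`. -/
theorem sp_mem (x : β → A) (y : W → A) (D : ℕ) (n : W → ℕ) (c : W → ℕ → MvPolynomial β K)
    (hn : ∀ k, 1 ≤ n k ∧ n k ≤ D) (hc : ∀ k i b, degreeOf b (c k i) ≤ D)
    (hrel : ∀ k, ∑ i ∈ Finset.range (n k + 1), aeval x (c k i) * y k ^ i = 0) (X : ℕ)
    (j : W → ℕ) (hj : ∀ k, j k ≤ X) :
    (∏ k, aeval x (c k (n k)) ^ X) * ∏ k, y k ^ j k ∈ Sp K x y (Fintype.card W * (D * X)) D := by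
  classical
  rw [← Finset.prod_mul_distrib]
  have h1 := ts_prod (K := K) x y D (D * X) n (fun k => (hn k).2)
    (fun k => aeval x (c k (n k)) ^ X * y k ^ j k)
    (fun k => ts_le x y D k (n k) (hn k).1 (c k) (hc k) (hrel k) (hj k)) Finset.univ
  have h2 : tsSp K x y {p | (∀ b, p.1 b ≤ (Finset.univ : Finset W).card * (D * X)) ∧
      (∀ k, p.2 k ≤ D) ∧ ∀ k, k ∉ (Finset.univ : Finset W) → p.2 k = 0} ≤
      Sp K x y (Fintype.card W * (D * X)) D := by
    refine Submodule.span_mono (Set.image_mono ?_)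
    rintro p ⟨h3, h4, -⟩
    exact ⟨h3, h4⟩
  exact h2 h1

end

end Pool.Agent.LSharp
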