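import Pool.Agent.LSharp.TSDefs
import Pool.Agent.LSharp.TSNF

set_option autoImplicit false

/-! TS: relations of uniformly bounded degree between the units of one class. -/

namespace Pool.Agent.LSharp

open MvPolynomial Module

private theorem ts_elim {K A β : Type} [Field K] [CommRing A] [Algebra K A] (x : β → A) (y : A)
    (q : MvPolynomial (Option β) K) :
    aeval (fun o : Option β => o.elim y x) q =
      ∑ i ∈ Finset.range ((optionEquivLeft K β q).natDegree + 1),
        aeval x ((optionEquivLeft K β q).coeff i) * y ^ i := by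
  have h0 : (optionEquivLeft K β q).eval₂
      ((aeval x : MvPolynomial β K →ₐ[K] A) : MvPolynomial β K →+* A) y =
      ∑ i ∈ Finset.range ((optionEquivLeft K β q).natDegree + 1),
        aeval x ((optionEquivLeft K β q).coeff i) * y ^ i :=
    Polynomial.eval₂_eq_sum_range _ _
  rw [← h0]
  clear h0
  induction q using MvPolynomial.induction_on with
  | C a =>
    rw [aeval_C, optionEquivLeft_C, Polynomial.eval₂_C]
    exact (aeval_C x a).symm
  | add p q hp hq => rw [map_add, map_add, Polynomial.eval₂_add, hp, hq]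
  | mul_X p o hp =>
    rw [map_mul, map_mul, Polynomial.eval₂_mul, hp, aeval_X]
    congr 1
    cases o with
    | none => rw [optionEquivLeft_X_none, Polynomial.eval₂_X]; rfl
    | some b =>
      rw [optionEquivLeft_X_some, Polynomial.eval₂_C]
      exact (aeval_X x b).symm

private theorem ts_indep {K β β' : Type} [Field K] {v : β' → β} (hv : Function.Injective v)
    (c : β → K) {q : MvPolynomial β' K}
    (hq : aeval (fun b : β' => (MvPowerSeries.C (c (v b)) + MvPowerSeries.X (v b) :
      MvPowerSeries β K)) q = 0) : q = 0 := by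
  have h1 : ∀ q : MvPolynomial β' K,
      aeval (fun b : β' => (MvPowerSeries.C (c (v b)) + MvPowerSeries.X (v b) :
        MvPowerSeries β K)) q =
      ((aeval (fun b : β' => (C (c (v b)) + X (v b) : MvPolynomial β K)) q :
        MvPolynomial β K) : MvPowerSeries β K) := by
    intro q
    induction q using MvPolynomial.induction_on with
    | C a =>
      rw [aeval_C, aeval_C, MvPolynomial.algebraMap_eq, coe_C]
      rfl
    | add p q hp hq => rw [map_add, map_add, coe_add, hp, hq]
    | mul_X p o hp => rw [map_mul, map_mul, coe_mul, hp, aeval_X, aeval_X, coe_add, coe_C, coe_X]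
  rw [h1] at hq
  have h2 : aeval (fun b : β' => (C (c (v b)) + X (v b) : MvPolynomial β K)) q = 0 := by
    apply coe_injective β K
    rw [hq, coe_zero]
  have h3 : aeval (fun b : β => (X b - C (c b) : MvPolynomial β K))
      (aeval (fun b : β' => (C (c (v b)) + X (v b) : MvPolynomial β K)) q) = rename v q := by
    rw [comp_aeval_apply]
    have h4 : (fun b : β' => aeval (fun b : β => (X b - C (c b) : MvPolynomial β K))
        (C (c (v b)) + X (v b) : MvPolynomial β K)) = fun b : β' => X (v b) := by
      funext b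
      rw [map_add, aeval_X, aeval_C, MvPolynomial.algebraMap_eq]
      ring
    rw [h4]
    clear h2 hq h4
    induction q using MvPolynomial.induction_on with
    | C a => rw [aeval_C, rename_C, MvPolynomial.algebraMap_eq]
    | add p q hp hq => rw [map_add, map_add, hp, hq]
    | mul_X p o hp => rw [map_mul, map_mul, hp, aeval_X, rename_X]
  rw [h2, map_zero] at h3
  exact rename_injective v hv (by rw [← h3, map_zero])

private theorem ts_arith {w w' b b' D Q : ℕ} (hw : w' ≤ w) (hb : b' ≤ b)
    (hQ : Q = (3 * w * D + 1) ^ b * (D + 1) ^ w) :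
    (w' * (D * (3 * Q)) + 1) ^ b' * (D + 1) ^ w' < (Q + 1) ^ (b' + 1) := by
  have h1 : w' * (D * (3 * Q)) + 1 ≤ (3 * w * D + 1) * (Q + 1) := by
    have h2 : w' * (D * (3 * Q)) ≤ w * (D * (3 * Q)) := Nat.mul_le_mul_right _ hw
    calc w' * (D * (3 * Q)) + 1 ≤ w * (D * (3 * Q)) + 1 := by omega
      _ ≤ w * (D * (3 * Q)) + 1 + (3 * w * D + Q) := Nat.le_add_right _ _
      _ = (3 * w * D + 1) * (Q + 1) := by ring
  calc (w' * (D * (3 * Q)) + 1) ^ b' * (D + 1) ^ w'
      ≤ ((3 * w * D + 1) * (Q + 1)) ^ b' * (D + 1) ^ w :=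
        Nat.mul_le_mul (Nat.pow_le_pow_left h1 _) (Nat.pow_le_pow_right (by omega) hw)
    _ = (3 * w * D + 1) ^ b' * (D + 1) ^ w * (Q + 1) ^ b' := by rw [mul_pow]; ring
    _ ≤ (3 * w * D + 1) ^ b * (D + 1) ^ w * (Q + 1) ^ b' :=
        Nat.mul_le_mul_right _ (Nat.mul_le_mul_right _ (Nat.pow_le_pow_right (by omega) hb))
    _ = Q * (Q + 1) ^ b' := by rw [← hQ]
    _ < (Q + 1) * (Q + 1) ^ b' :=
        Nat.mul_lt_mul_of_pos_right (Nat.lt_succ_self _) (pow_pos (Nat.succ_pos _) _)
    _ = (Q + 1) ^ (b' + 1) := by ring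

/-- **Relations between the units of one class.**

Proof. Let `β' = {b | cls (bs b) = m}`, `W' = {k | cls k = m}`, `x b = t (bs b)` for `b : β'`, `y k = t k` for `k : W'`. By
`h.h2` every `y k` satisfies a relation `∑ i ≤ n k, c k i (x) y_k^i = 0` (`p` written as a polynomial in the variable
`none`; only the variables in `β'` occur), of degrees `≤ D`, `c k (n k) ≠ 0`, and `n k ≥ 1` because the `x b` are
algebraically independent over `K` (`h.h1`: they are `C c_b + X b`); so also `c k (n k) (x) ≠ 0`. For `X : ℕ` let `V` be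
the space of the `P` in the variables of `A` with all degrees `≤ X`: dimension `(X + 1)^(card β' + 1)`. For `P ∈ V`
the element `aeval (un t) P` is a combination of the monomials `∏ y_k^(j k)` with `j k ≤ 3 X` (each unit of `A` is
`t k`, `1 - t k` or `t k - 2`), so by `sp_mem` `(∏ k, c k (n k) (x)^(3 X)) * aeval (un t) P` is in
`Sp K x y (card W' * (D * (3 X))) D`, of dimension at most `(3 card W D X + 1)^(card β') (D + 1)^(card W)`. For
`X + 1 > (3 card W D + 1)^(card β) (D + 1)^(card W)` this is less than `(X + 1)^(card β' + 1)`, so the linear map has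
a nonzero kernel: some `P ≠ 0` in `V` with `aeval (un t) P = 0` (`MvPowerSeries` over a field is a domain and
`c k (n k) (x) ≠ 0`). `D' = X`. -/
theorem rel_unif {W β M : Type} [Fintype W] [Fintype β] [DecidableEq M] (bs : β → W)
    (cls : W → M) (D : ℕ) : ∃ D' : ℕ, 1 ≤ D' ∧ ∀ (K : Type) [Field K]
      (t : W → MvPowerSeries β K), Lv K t bs cls D → ∀ (m : M) (A : Finset (W × Fin 3)),
      (∀ l ∈ A, cls l.1 = m) →
      A.card = (Finset.univ.filter fun b => cls (bs b) = m).card + 1 →
      ∃ P : MvPolynomial (W × Fin 3) K, P ≠ 0 ∧ P.vars ⊆ A ∧ (∀ l, P.degreeOf l ≤ D') ∧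
        aeval (un t) P = 0 := by
  classical
  set w := Fintype.card W with hw
  set Q := (3 * w * D + 1) ^ Fintype.card β * (D + 1) ^ w with hQ
  have hQ1 : 1 ≤ Q := Nat.mul_pos (pow_pos (Nat.succ_pos _) _) (pow_pos (Nat.succ_pos _) _)
  refine ⟨Q, hQ1, ?_⟩
  intro K _ t h m A hA hcard
  let x : {b : β // cls (bs b) = m} → MvPowerSeries β K := fun b => t (bs b.1)
  let y : {k : W // cls k = m} → MvPowerSeries β K := fun k => t k.1
  have hx : ∀ q : MvPolynomial {b : β // cls (bs b) = m} K, aeval x q = 0 → q = 0 := by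
    intro q hq
    refine ts_indep Subtype.val_injective
      (fun b => MvPowerSeries.constantCoeff (t (bs b))) (q := q) ?_
    rw [← hq]
    congr 2
    funext b
    exact (h.h1 b.1).symm
  have hrel : ∀ k : {k : W // cls k = m},
      ∃ P : Polynomial (MvPolynomial {b : β // cls (bs b) = m} K), (1 ≤ P.natDegree ∧
        P.natDegree ≤ D) ∧ (∀ i b, degreeOf b (P.coeff i) ≤ D) ∧ P ≠ 0 ∧
        ∑ i ∈ Finset.range (P.natDegree + 1), aeval x (P.coeff i) * y k ^ i = 0 := by
    intro k
    obtain ⟨p, hp0, hpD, hpv, hp⟩ := h.h2 k.1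
    have hfi : Function.Injective (Option.map (Subtype.val : {b : β // cls (bs b) = m} → β)) :=
      Option.map_injective Subtype.val_injective
    obtain ⟨q, hq⟩ := exists_rename_eq_of_vars_subset_range p
      (Option.map (Subtype.val : {b : β // cls (bs b) = m} → β)) hfi (by
        intro o ho
        cases o with
        | none => exact ⟨none, rfl⟩
        | some b => exact ⟨some ⟨b, by rw [hpv b ho, k.2]⟩, rfl⟩)
    have hdeg : ∀ o, degreeOf o q ≤ D := by
      intro o
      rw [← degreeOf_rename_of_injective hfi o, hq]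
      exact (degreeOf_le_totalDegree p _).trans hpD
    have hsum : ∑ i ∈ Finset.range ((optionEquivLeft K _ q).natDegree + 1),
        aeval x ((optionEquivLeft K _ q).coeff i) * y k ^ i = 0 := by
      rw [← ts_elim, ← hp, ← hq, aeval_rename]
      congr 2
      funext o
      cases o <;> rfl
    have hP0 : optionEquivLeft K {b : β // cls (bs b) = m} q ≠ 0 := by
      intro h0
      rw [map_eq_zero_iff _ (optionEquivLeft K _).injective] at h0
      apply hp0
      rw [← hq, h0, map_zero]
    refine ⟨optionEquivLeft K _ q, ⟨?_, ?_⟩, ?_, hP0, hsum⟩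
    · by_contra hcon
      have h0 : (optionEquivLeft K {b : β // cls (bs b) = m} q).natDegree = 0 := by omega
      rw [h0, zero_add, Finset.sum_range_one, pow_zero, mul_one] at hsum
      apply hP0
      rw [Polynomial.eq_C_of_natDegree_eq_zero h0, hx _ hsum, Polynomial.C_0]
    · rw [natDegree_optionEquivLeft]
      exact hdeg none
    · intro i b
      rw [degreeOf_le_iff]
      intro d hd
      rw [mem_support_coeff_optionEquivLeft] at hd
      have h1 := (monomial_le_degreeOf (some b) hd).trans (hdeg (some b))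
      simpa using h1
  choose P hP1 hP2 hP0 hP using hrel
  set N := Fintype.card {k : W // cls k = m} * (D * (3 * Q)) with hN
  set Z : MvPowerSeries β K := ∏ k, aeval x ((P k).coeff (P k).natDegree) ^ (3 * Q) with hZ
  have hZ0 : Z ≠ 0 := by
    rw [hZ]
    refine Finset.prod_ne_zero_iff.2 fun k _ => pow_ne_zero _ fun h0 => ?_
    exact hP0 k (Polynomial.leadingCoeff_eq_zero.1 (hx _ h0))
  have hmem : ∀ j : {k : W // cls k = m} → ℕ, (∀ k, j k ≤ 3 * Q) →
      Z * ∏ k, y k ^ j k ∈ Sp K x y N D := fun j hj =>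
    sp_mem x y D (fun k => (P k).natDegree) (fun k i => (P k).coeff i) hP1
      (fun k i b => hP2 k i b) hP (3 * Q) j hj
  have hmono : ∀ e : A → Fin (Q + 1), Z * ∏ l : A, un t l.1 ^ (e l : ℕ) ∈ Sp K x y N D := by
    intro e
    let e' : W × Fin 3 → ℕ := fun l => if h : l ∈ A then (e ⟨l, h⟩ : ℕ) else 0
    have he' : ∀ l, e' l ≤ Q := by
      intro l
      change (if h : l ∈ A then (e ⟨l, h⟩ : ℕ) else 0) ≤ Q
      split_ifs with h1
      · exact Nat.lt_succ_iff.1 (e ⟨l, h1⟩).2
      · exact Nat.zero_le _
    have h1 : ∏ l : A, un t l.1 ^ (e l : ℕ) =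
        ∏ k : {k : W // cls k = m}, ∏ i : Fin 3, un t (k.1, i) ^ e' (k.1, i) := by
      rw [← Fintype.prod_prod_type (f := fun z : {k : W // cls k = m} × Fin 3 =>
        un t (z.1.1, z.2) ^ e' (z.1.1, z.2))]
      refine Finset.prod_of_injOn
        (fun l : A => ((⟨l.1.1, hA l.1 l.2⟩, l.1.2) : {k : W // cls k = m} × Fin 3)) ?_ ?_ ?_ ?_
      · intro l _ l' _ hll
        have h2 := congrArg (fun z : {k : W // cls k = m} × Fin 3 => ((z.1.1, z.2) : W × Fin 3)) hll
        exact Subtype.ext h2
      · intro l _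
        exact Finset.mem_coe.2 (Finset.mem_univ _)
      · intro z _ hz
        have h2 : (z.1.1, z.2) ∉ A := by
          intro h3
          exact hz ⟨⟨_, h3⟩, Finset.mem_coe.2 (Finset.mem_univ _), rfl⟩
        have h3 : e' (z.1.1, z.2) = 0 := dif_neg h2
        rw [h3, pow_zero]
      · intro l _
        have h3 : e' (l.1.1, l.1.2) = (e l : ℕ) := dif_pos l.2
        rw [h3]
    have h2 : ∀ k : {k : W // cls k = m}, ∃ G : Polynomial K, G.natDegree < 3 * Q + 1 ∧
        ∏ i : Fin 3, un t (k.1, i) ^ e' (k.1, i) = Polynomial.aeval (y k) G := by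
      intro k
      refine ⟨Polynomial.X ^ e' (k.1, 0) * (1 - Polynomial.X) ^ e' (k.1, 1) *
        (Polynomial.X - 2) ^ e' (k.1, 2), ?_, ?_⟩
      · have h3 : (Polynomial.X ^ e' (k.1, 0) * (1 - Polynomial.X) ^ e' (k.1, 1) *
            (Polynomial.X - 2) ^ e' (k.1, 2) : Polynomial K).natDegree ≤
            e' (k.1, 0) + e' (k.1, 1) + e' (k.1, 2) := by
          refine Polynomial.natDegree_mul_le.trans (add_le_add
            (Polynomial.natDegree_mul_le.trans (add_le_add ?_ ?_)) ?_)
          · exact Polynomial.natDegree_X_pow_le _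
          · exact (Polynomial.natDegree_pow_le_of_le _ (m := 1) (by compute_degree)).trans
              (by rw [mul_one])
          · exact (Polynomial.natDegree_pow_le_of_le _ (m := 1) (by compute_degree)).trans
              (by rw [mul_one])
        have h4 := he' (k.1, 0)
        have h5 := he' (k.1, 1)
        have h6 := he' (k.1, 2)
        omega
      · rw [Fin.prod_univ_three, map_mul, map_mul, map_pow, map_pow, map_pow, map_sub, map_sub,
          map_one, Polynomial.aeval_X, map_ofNat]
        rfl
    choose G hG1 hG2 using h2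
    rw [h1, Finset.prod_congr rfl fun k _ => (hG2 k).trans
      (Polynomial.aeval_eq_sum_range' (hG1 k) (y k)), Finset.prod_univ_sum, Finset.mul_sum]
    refine Submodule.sum_mem _ fun j hj => ?_
    rw [Finset.prod_smul, mul_smul_comm]
    refine Submodule.smul_mem _ _ (hmem j fun k => ?_)
    have h3 := Fintype.mem_piFinset.1 hj k
    exact Nat.lt_succ_iff.1 (Finset.mem_range.1 h3)
  -- linear dependence
  have hfd : FiniteDimensional K (Sp K x y N D) := sp_finite x y N D
  have hdep : ¬ LinearIndependent K (fun e : A → Fin (Q + 1) =>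
      (⟨Z * ∏ l : A, un t l.1 ^ (e l : ℕ), hmono e⟩ : Sp K x y N D)) := by
    intro hli
    have h1 := hli.fintype_card_le_finrank
    have h2 := sp_finrank x y N D (K := K)
    rw [Fintype.card_fun, Fintype.card_fin, Fintype.card_coe, hcard,
      ← Fintype.card_subtype] at h1
    have h3 := ts_arith (w := w) (w' := Fintype.card {k : W // cls k = m})
      (b := Fintype.card β) (b' := Fintype.card {b : β // cls (bs b) = m}) (D := D)
      (Fintype.card_subtype_le _) (Fintype.card_subtype_le _) hQ
    rw [← hN] at h3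
    exact absurd (h1.trans h2) (not_le.2 h3)
  obtain ⟨g, hg0, e0, he0⟩ := Fintype.not_linearIndependent_iff.1 hdep
  let ex : (A → Fin (Q + 1)) → (W × Fin 3) →₀ ℕ := fun e =>
    Finsupp.onFinset A (fun l => if h : l ∈ A then (e ⟨l, h⟩ : ℕ) else 0) (by
      intro l hl
      by_contra h1
      exact hl (dif_neg h1))
  have hex1 : ∀ e (l : A), ex e l.1 = (e l : ℕ) := fun e l => dif_pos l.2
  have hex2 : ∀ e l, ex e l ≤ Q := by
    intro e l
    change (if h : l ∈ A then (e ⟨l, h⟩ : ℕ) else 0) ≤ Q
    split_ifs with h1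
    · exact Nat.lt_succ_iff.1 (e ⟨l, h1⟩).2
    · exact Nat.zero_le _
  have hex3 : ∀ e, (ex e).support ⊆ A := fun e => Finsupp.support_onFinset_subset
  have hexi : Function.Injective ex := by
    intro e e' hee
    funext l
    apply Fin.ext
    rw [← hex1, ← hex1, hee]
  have hco : ∀ d, coeff d (∑ e, monomial (ex e) (g e)) = ∑ e, if ex e = d then g e else 0 := by
    intro d
    rw [coeff_sum]
    exact Finset.sum_congr rfl fun e _ => coeff_monomial _ _ _
  have hsup : ∀ d ∈ (∑ e, monomial (ex e) (g e)).support, ∃ e, ex e = d := by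
    intro d hd
    by_contra hcon
    push Not at hcon
    rw [MvPolynomial.mem_support_iff, hco] at hd
    exact hd (Finset.sum_eq_zero fun e _ => if_neg (hcon e))
  refine ⟨∑ e, monomial (ex e) (g e), ?_, ?_, ?_, ?_⟩
  · intro h0
    apply he0
    have h1 := hco (ex e0)
    rw [h0, coeff_zero, Finset.sum_eq_single e0 (fun e _ he => if_neg fun h2 => he (hexi h2))
      (fun h2 => absurd (Finset.mem_univ _) h2), if_pos rfl] at h1
    exact h1.symm
  · intro l hl
    obtain ⟨d, hd, hld⟩ := (mem_vars_iff_mem_support l).1 hl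
    obtain ⟨e, rfl⟩ := hsup d hd
    exact hex3 e hld
  · intro l
    rw [degreeOf_le_iff]
    intro d hd
    obtain ⟨e, rfl⟩ := hsup d hd
    exact hex2 e l
  · have h1 : Z * aeval (un t) (∑ e, monomial (ex e) (g e)) = 0 := by
      have h2 := congrArg (Submodule.subtype (Sp K x y N D)) hg0
      rw [map_sum, map_zero] at h2
      rw [← h2, map_sum, Finset.mul_sum]
      refine Finset.sum_congr rfl fun e _ => ?_
      rw [map_smul, aeval_monomial, Submodule.subtype_apply, ← Algebra.smul_def, mul_smul_comm]
      congr 2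
      rw [Finsupp.prod_of_support_subset _ (hex3 e) _ (fun _ _ => pow_zero _),
        ← Finset.prod_coe_sort]
      exact Finset.prod_congr rfl fun l _ => by rw [hex1]
    exact (mul_eq_zero.1 h1).resolve_left hZ0

end Pool.Agent.LSharp
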