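import Mathlib

set_option autoImplicit false

/-! TS: real numbers independent over a countable field. -/

namespace Pool.Agent.LSharp

/-- Proof. `k0 = IntermediateField.adjoin ℚ S` is countable; a finite dimensional `k0`-space is
countable, so `ℝ` is not finite dimensional over `k0` and has an infinite basis. -/
theorem exists_theta {β : Type} [Finite β] (S : Set ℝ) (hS : S.Countable) :
    ∃ θ : β → ℝ, LinearIndependent (IntermediateField.adjoin ℚ S) θ := by
  classical
  have hc : Countable (IntermediateField.adjoin ℚ S) := by
    rw [← Cardinal.mk_le_aleph0_iff]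
    have h1 := IntermediateField.cardinalMk_adjoin_le ℚ S
    have h2 : Cardinal.mk S ≤ Cardinal.aleph0 := by
      rw [Cardinal.mk_le_aleph0_iff]
      exact hS.to_subtype
    have h3 : Cardinal.mk ℚ ≤ Cardinal.aleph0 := Cardinal.mk_le_aleph0
    exact h1.trans (sup_le (sup_le h3 h2) le_rfl)
  let b := Module.Basis.ofVectorSpace (IntermediateField.adjoin ℚ S) ℝ
  have hI : Infinite (Module.Basis.ofVectorSpaceIndex (IntermediateField.adjoin ℚ S) ℝ) := by
    by_contra hfin
    rw [not_infinite_iff_finite] at hfin
    have : Countable ℝ := b.equivFun.toEquiv.countable_iff.2 inferInstance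
    exact (Set.not_countable_univ_iff.2 inferInstance : ¬ (Set.univ : Set ℝ).Countable)
      (Set.to_countable _)
  obtain ⟨n, ⟨e⟩⟩ := Finite.exists_equiv_fin β
  let f : β → Module.Basis.ofVectorSpaceIndex (IntermediateField.adjoin ℚ S) ℝ :=
    fun x => Infinite.natEmbedding _ (e x : ℕ)
  have hf : Function.Injective f := fun x y hxy =>
    e.injective (Fin.ext ((Infinite.natEmbedding _).injective hxy))
  exact ⟨b ∘ f, b.linearIndependent.comp f hf⟩

theorem theta_rat {β : Type} (S : Set ℝ) (θ : β → ℝ)
    (h : LinearIndependent (IntermediateField.adjoin ℚ S) θ) : LinearIndependent ℚ θ := by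
  refine h.restrict_scalars (R := ℚ) (fun x y hxy => ?_)
  simpa [Algebra.smul_def] using hxy

end Pool.Agent.LSharp
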