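import Mathlib

set_option autoImplicit false

/-! TS: Sylvester's inequality and a choice of rows. -/

namespace Pool.Agent.LSharp

open Matrix Module

private theorem ts_choose {ι β : Type} [Fintype ι] [Fintype β] (f : ι → β → ℂ) (a : ℕ)
    (h : a ≤ finrank ℂ (Submodule.span ℂ (Set.range f))) :
    ∃ e : Fin a → ι, LinearIndependent ℂ fun p => f (e p) := by
  obtain ⟨g, hg, -, hi⟩ := Submodule.exists_fun_fin_finrank_span_eq ℂ (Set.range f)
  choose e he using hg
  refine ⟨fun p => e (Fin.castLE h p), ?_⟩
  have h1 := hi.comp (Fin.castLE h) (Fin.castLE_injective h)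
  have h2 : (fun p => f (e (Fin.castLE h p))) = g ∘ Fin.castLE h := funext fun p => he _
  rw [h2]
  exact h1

/-- **Sylvester's inequality.**

Proof. `M` has rank `card ι` (rows independent), `Jm` has rank `card β` (columns independent: the rows `bs b` form the
identity matrix). `rank (M * Jm) ≥ rank M + rank Jm - card W`: the kernel of `M` as a map `W → ι` has
dimension `card W - card ι`, the image of `Jm` has dimension `card β`, so the image of `M * Jm` has dimension at least
`card β - (card W - card ι) = a`. A matrix of rank `≥ a` has `a` linearly independent rows (the rows span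
a space of dimension `≥ a`). -/
theorem sylvester {W β ι : Type} [Fintype W] [DecidableEq W] [Fintype β] [DecidableEq β]
    [Fintype ι] [DecidableEq ι] (a : ℕ) (M : Matrix ι W ℂ) (hM : LinearIndependent ℂ M)
    (Jm : Matrix W β ℂ) (bs : β → W) (hJ : ∀ b b', Jm (bs b) b' = if b = b' then 1 else 0)
    (h : Fintype.card ι + Fintype.card β = Fintype.card W + a) :
    ∃ e : Fin a → ι, LinearIndependent ℂ fun p => (M * Jm) (e p) := by
  refine ts_choose (fun i => (M * Jm) i) a ?_
  set T : (W → ℂ) →ₗ[ℂ] (β → ℂ) := Jm.vecMulLinear with hT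
  have hTap : ∀ x : W → ℂ, T x = x ᵥ* Jm := fun x => rfl
  set S : Submodule ℂ (W → ℂ) := Submodule.span ℂ (Set.range M) with hS
  have hS1 : finrank ℂ S = Fintype.card ι := finrank_span_eq_card hM
  have hspan : Submodule.span ℂ (Set.range fun i => (M * Jm) i) = S.map T := by
    have hr : (Set.range fun i => (M * Jm) i) = T '' Set.range M := by
      ext x
      constructor
      · rintro ⟨i, rfl⟩
        exact ⟨M i, ⟨i, rfl⟩, rfl⟩
      · rintro ⟨_, ⟨i, rfl⟩, rfl⟩
        exact ⟨i, rfl⟩
    rw [hr, hS, Submodule.map_span]
  have hsurj : LinearMap.range T = ⊤ := by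
    rw [eq_top_iff, ← (Pi.basisFun ℂ β).span_eq, Submodule.span_le]
    rintro _ ⟨b, rfl⟩
    refine ⟨Pi.single (bs b) 1, ?_⟩
    rw [hTap, Pi.basisFun_apply]
    funext b'
    rw [Matrix.single_one_vecMul]
    change Jm (bs b) b' = _
    rw [hJ, Pi.single_apply]
    simp only [eq_comm]
  have h1 := LinearMap.finrank_range_add_finrank_ker T
  rw [hsurj, finrank_top, finrank_fintype_fun_eq_card, finrank_fintype_fun_eq_card] at h1
  have h2 := LinearMap.finrank_range_add_finrank_ker (T.domRestrict S)
  have h3 : LinearMap.range (T.domRestrict S) = S.map T := by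
    rw [LinearMap.range_domRestrict]
  have h4 : finrank ℂ (LinearMap.ker (T.domRestrict S)) ≤ finrank ℂ (LinearMap.ker T) := by
    let g : LinearMap.ker (T.domRestrict S) →ₗ[ℂ] LinearMap.ker T :=
      LinearMap.codRestrict (LinearMap.ker T)
        (S.subtype ∘ₗ (LinearMap.ker (T.domRestrict S)).subtype) (fun x => by
          have hx := x.2
          rw [LinearMap.mem_ker] at hx ⊢
          exact hx)
    refine LinearMap.finrank_le_finrank_of_injective (f := g) ?_
    intro x y hxy
    have h5 := congrArg (fun z : LinearMap.ker T => (z : W → ℂ)) hxy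
    exact Subtype.ext (Subtype.ext h5)
  rw [h3, hS1] at h2
  rw [hspan]
  omega

/-- **Completion.** `a` independent rows of length `card β` are completed by rows of `Jm` to an invertible
matrix.

Proof. The rows `Jm (bs b)` are the standard basis; Steinitz exchange (`LinearIndependent.extend` inside
the range of `v` and the standard basis, cardinality `card β`): there are an injection `j : Fin a → β` and for every
`i ∉ range j` an element `κ i = bs b` such that the rows `v p` (at `i = j p`) and `Jm (κ i)` (at the other `i`) form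
a basis. -/
theorem complete_rows {W β : Type} [Fintype β] [DecidableEq β] (a : ℕ) (v : Fin a → β → ℂ)
    (hv : LinearIndependent ℂ v) (Jm : Matrix W β ℂ) (bs : β → W)
    (hJ : ∀ b b', Jm (bs b) b' = if b = b' then 1 else 0) :
    ∃ (j : Fin a → β) (κ : β → W), Function.Injective j ∧
      ∀ B : Matrix β β ℂ, (∀ p, B (j p) = v p) →
        (∀ i, i ∉ Set.range j → ∃ c : ℂ, c ≠ 0 ∧ B i = c • Jm (κ i)) → B.det ≠ 0 := by
  classical
  let V : Matrix (Fin a) β ℂ := Matrix.of v
  have hrk : V.rank = a := by
    have h1 : LinearIndependent ℂ V.row := hv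
    rw [h1.rank_matrix, Fintype.card_fin]
  have hfr : a ≤ finrank ℂ (Submodule.span ℂ (Set.range fun (b : β) (p : Fin a) => v p b)) := by
    have h2 := V.rank_eq_finrank_span_cols
    rw [hrk] at h2
    exact h2.le
  obtain ⟨j, hj⟩ := ts_choose (fun (b : β) (p : Fin a) => v p b) a hfr
  refine ⟨j, bs, ?_, fun B hB1 hB2 => ?_⟩
  · intro p q hpq
    refine hj.injective ?_
    change (fun r => v r (j p)) = fun r => v r (j q)
    rw [hpq]
  · intro hdet
    obtain ⟨x, hx0, hx⟩ := Matrix.exists_mulVec_eq_zero_iff.2 hdet
    apply hx0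
    have hx1 : ∀ i, i ∉ Set.range j → x i = 0 := by
      intro i hi
      obtain ⟨c, hc, hBi⟩ := hB2 i hi
      have h3 := congrFun hx i
      rw [Matrix.mulVec, dotProduct] at h3
      have h4 : ∀ b, B i b * x b = if i = b then c * x b else 0 := by
        intro b
        rw [hBi, Pi.smul_apply, hJ, smul_eq_mul]
        split_ifs <;> ring
      rw [Finset.sum_congr rfl fun b _ => h4 b, Finset.sum_ite_eq Finset.univ i,
        if_pos (Finset.mem_univ _), Pi.zero_apply] at h3
      exact (mul_eq_zero.1 h3).resolve_left hc
    have hinj : Function.Injective j := by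
      intro p q hpq
      refine hj.injective ?_
      change (fun r => v r (j p)) = fun r => v r (j q)
      rw [hpq]
    have hx2 : ∀ q, x (j q) = 0 := by
      have h5 : ∑ q, x (j q) • (fun p => v p (j q)) = 0 := by
        funext p
        have h6 := congrFun hx (j p)
        rw [Matrix.mulVec, dotProduct, hB1 p, Pi.zero_apply] at h6
        rw [Finset.sum_apply, Pi.zero_apply, ← h6]
        have h7 : ∑ b, v p b * x b = ∑ b ∈ Finset.univ.image j, v p b * x b := by
          symm
          refine Finset.sum_subset (Finset.subset_univ _) fun b _ hb => ?_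
          rw [hx1 b (fun ⟨q, hq⟩ => hb (Finset.mem_image.2 ⟨q, Finset.mem_univ _, hq⟩)),
            mul_zero]
        rw [h7, Finset.sum_image fun q _ r _ hqr => hinj hqr]
        refine Finset.sum_congr rfl fun q _ => ?_
        rw [Pi.smul_apply, smul_eq_mul, mul_comm]
      exact Fintype.linearIndependent_iff.1 hj (fun q => x (j q)) h5
    funext i
    by_cases hi : i ∈ Set.range j
    · obtain ⟨q, rfl⟩ := hi
      exact hx2 q
    · exact hx1 i hi

end Pool.Agent.LSharp
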