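import Pool.Agent.LSharp.TSRado
import Pool.Agent.LSharp.TSDefs
import Pool.Agent.LSharp.TSSylv

set_option autoImplicit false

/-! TS: the wedge at the actual points. -/

namespace Pool.Agent.LSharp

open MvPolynomial Module LAll Filter

/-- The rows of the wedge. -/
private noncomputable def tsRow {W β : Type} [DecidableEq W] {a : ℕ} (r : Fin a → E W)
    (e : Fin a → β) (κ : β → W) (i : β) : W × Fin 3 → ℝ :=
  open Classical in
  if h : ∃ p, e p = i then
    fun l => ![r h.choose l.1 0, r h.choose l.1 1, 0] l.2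
  else Pi.single (κ i, 2) 1

private theorem tsRow_apply {W β : Type} [DecidableEq W] {a : ℕ} (r : Fin a → E W)
    (e : Fin a → β) (he : Function.Injective e) (κ : β → W) (p : Fin a) (l : W × Fin 3) :
    tsRow r e κ (e p) l = ![r p l.1 0, r p l.1 1, 0] l.2 := by
  have h : ∃ q, e q = e p := ⟨p, rfl⟩
  have h1 : h.choose = p := he h.choose_spec
  unfold tsRow
  rw [dif_pos h, h1]

private theorem tsRow_not {W β : Type} [DecidableEq W] {a : ℕ} (r : Fin a → E W)
    (e : Fin a → β) (κ : β → W) (i : β) (hi : i ∉ Set.range e) :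
    tsRow r e κ i = Pi.single (κ i, 2) 1 := by
  unfold tsRow
  exact dif_neg hi

private theorem ts_coeff_ne {K β : Type} [Field K] (b : β) :
    MvPowerSeries.coeff (Finsupp.single b 1) (1 : MvPowerSeries β K) = 0 ∧
    MvPowerSeries.coeff (Finsupp.single b 1) (2 : MvPowerSeries β K) = 0 := by
  classical
  have h0 : (Finsupp.single b 1 : β →₀ ℕ) ≠ 0 := by
    rw [Ne, Finsupp.single_eq_zero]
    exact one_ne_zero
  constructor
  · rw [MvPowerSeries.coeff_one, if_neg h0]
  · have h2 : (2 : MvPowerSeries β K) = MvPowerSeries.C 2 := by rw [map_ofNat]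
    rw [h2, MvPowerSeries.coeff_C, if_neg h0]

private theorem dl_zero {K β W : Type} [Field K] (s : K →+* ℂ) (t : W → MvPowerSeries β K)
    (k : W) (b : β) : dl s t (k, 0) b = s (MvPowerSeries.coeff (Finsupp.single b 1) (t k)) /
      s (MvPowerSeries.constantCoeff (t k)) := rfl

private theorem dl_one {K β W : Type} [Field K] (s : K →+* ℂ) (t : W → MvPowerSeries β K)
    (k : W) (b : β) : dl s t (k, 1) b = - s (MvPowerSeries.coeff (Finsupp.single b 1) (t k)) /
      (1 - s (MvPowerSeries.constantCoeff (t k))) := by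
  have h : dl s t (k, 1) b = s (MvPowerSeries.coeff (Finsupp.single b 1) (1 - t k)) /
      s (MvPowerSeries.constantCoeff (1 - t k)) := rfl
  rw [h, map_sub, (ts_coeff_ne b).1, zero_sub, map_neg, map_sub, map_one, map_sub, map_one]

private theorem dl_two {K β W : Type} [Field K] (s : K →+* ℂ) (t : W → MvPowerSeries β K)
    (k : W) (b : β) : dl s t (k, 2) b = s (MvPowerSeries.coeff (Finsupp.single b 1) (t k)) /
      (s (MvPowerSeries.constantCoeff (t k)) - 2) := by
  have h : dl s t (k, 2) b = s (MvPowerSeries.coeff (Finsupp.single b 1) (t k - 2)) /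
      s (MvPowerSeries.constantCoeff (t k - 2)) := rfl
  rw [h, map_sub, (ts_coeff_ne b).2, sub_zero, map_sub, map_ofNat, map_sub, map_ofNat]

/-- One level. -/
private theorem ts_level {W β ι : Type} [Fintype W] [DecidableEq W]
    [Fintype β] [DecidableEq β] [Fintype ι] [DecidableEq ι] {K : Type} [Field K]
    (t : W → MvPowerSeries β K) (bs : β → W) (s : K →+* ℂ)
    (h1 : ∀ b, t (bs b) =
      MvPowerSeries.C (MvPowerSeries.constantCoeff (t (bs b))) + MvPowerSeries.X b)
    (h2 : ∀ k, MvPowerSeries.constantCoeff (t k) ≠ 2) (a : ℕ) (v : ι → E W)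
    (hcard : Fintype.card ι + Fintype.card β = Fintype.card W + a)
    (hM : LinearIndependent ℂ (fun (i : ι) (k : W) =>
      (v i k 0 : ℂ) / s (MvPowerSeries.constantCoeff (t k)) -
        (v i k 1 : ℂ) / (1 - s (MvPowerSeries.constantCoeff (t k))))) :
    ∃ (e' : Fin a → ι) (e : Fin a → β) (κ : β → W), Function.Injective e ∧
      (Matrix.of fun i b => ∑ l, (tsRow (fun p => v (e' p)) e κ i l : ℂ) * dl s t l b).det ≠ 0 := by
  classical
  set M : Matrix ι W ℂ := Matrix.of fun i k =>
    (v i k 0 : ℂ) / s (MvPowerSeries.constantCoeff (t k)) -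
        (v i k 1 : ℂ) / (1 - s (MvPowerSeries.constantCoeff (t k))) with hMd
  set Jm : Matrix W β ℂ := Matrix.of fun k b =>
    s (MvPowerSeries.coeff (Finsupp.single b 1) (t k)) with hJd
  have hJ : ∀ b b', Jm (bs b) b' = if b = b' then 1 else 0 := by
    intro b b'
    rw [hJd, Matrix.of_apply, h1 b, map_add, MvPowerSeries.coeff_C, MvPowerSeries.coeff_X]
    have h0 : (Finsupp.single b' 1 : β →₀ ℕ) ≠ 0 := by
      rw [Ne, Finsupp.single_eq_zero]
      exact one_ne_zero
    rw [if_neg h0, zero_add]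
    by_cases h : b = b'
    · rw [if_pos (by rw [h]), if_pos h, map_one]
    · rw [if_neg h, if_neg, map_zero]
      intro h'
      exact h ((Finsupp.single_left_injective one_ne_zero h').symm)
  obtain ⟨e', he'⟩ := sylvester a M hM Jm bs hJ hcard
  obtain ⟨e, κ, he, hB⟩ := complete_rows a _ he' Jm bs hJ
  refine ⟨e', e, κ, he, hB _ (fun p => ?_) (fun i hi => ?_)⟩
  · funext b
    rw [Matrix.of_apply, Fintype.sum_prod_type, Matrix.mul_apply]
    refine Finset.sum_congr rfl fun k _ => ?_
    rw [Fin.sum_univ_three, tsRow_apply _ _ he, tsRow_apply _ _ he, tsRow_apply _ _ he,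
      dl_zero, dl_one]
    rw [hMd, hJd, Matrix.of_apply, Matrix.of_apply]
    simp only [Matrix.cons_val_zero, Matrix.cons_val_one, Matrix.cons_val]
    push_cast
    ring
  · refine ⟨1 / (s (MvPowerSeries.constantCoeff (t (κ i))) - 2), ?_, ?_⟩
    · refine one_div_ne_zero fun h => h2 (κ i) ?_
      apply s.injective
      rw [sub_eq_zero] at h
      rw [h, map_ofNat]
    · funext b
      rw [Matrix.of_apply, tsRow_not _ _ _ _ hi, Finset.sum_eq_single (κ i, 2)]
      · rw [Pi.single_eq_same, dl_two, Pi.smul_apply, hJd, Matrix.of_apply, smul_eq_mul]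
        push_cast
        ring
      · intro l _ hl
        rw [Pi.single_eq_of_ne hl]
        simp
      · intro h
        exact absurd (Finset.mem_univ _) h


/-- **The wedge.** Real exponent vectors of the units whose logarithmic derivatives are independent at the points
of almost all levels; the first `a` of them are in `R`.

Proof. Let `b : Fin ρ → E W` be a basis of `R`, `f` from `rado_rank`. For almost all `j` the point
`x k = constantCoeff (t j k)` satisfies `aeval x f ≠ 0` and `x k ≠ 2` (`h4` for `f` and `X k - 2`). Choose an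
embedding `s`. Let `M i k = b i k 0 / s (x k) - b i k 1 / (1 - s (x k))`, `Jm k b = s (coeff (single b 1) (t j k))`; by `h1`
`Jm (bs b)` is a standard basis vector. `sylvester` gives `e' : Fin a → Fin ρ`, `complete_rows` (for
`v p = (M * Jm) (e' p)`) gives `e : Fin a → β` injective and `κ : β → W`. There are finitely many `(e', e, κ)`, so
for almost all `j` they are the same (ultrafilter). Let `r p = b (e' p)`, `rr (e p) (k, 0) = r p k 0`,
`rr (e p) (k, 1) = r p k 1`, `rr (e p) (k, 2) = 0` and, for `i` not in the range of `e`, `rr i = Pi.single (κ i, 2) 1`. Then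
the matrix of the statement has the rows `(M * Jm) (e' p)` (`dl s t (k, 0) b = Jm k b / s (x k)`,
`dl s t (k, 1) b = - Jm k b / (1 - s (x k))`) and `(1 / (s (x (κ i)) - 2)) • Jm (κ i)`, so it is invertible. -/
theorem wedge {J : Type} (U : Ultrafilter J) {W β : Type} [Fintype W] [DecidableEq W]
    [Fintype β] [DecidableEq β] (K : J → Type) [∀ j, Field (K j)] [∀ j, NumberField (K j)]
    (t : (j : J) → W → MvPowerSeries β (K j)) (bs : β → W)
    (h1 : ∀ᶠ j in (U : Filter J), ∀ b, t j (bs b) =
      MvPowerSeries.C (MvPowerSeries.constantCoeff (t j (bs b))) + MvPowerSeries.X b)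
    (h4 : ∀ f : MvPolynomial W ℤ, f ≠ 0 → ∀ᶠ j in (U : Filter J),
      aeval (fun k => MvPowerSeries.constantCoeff (t j k)) f ≠ 0)
    (R : Submodule ℝ (E W)) (a : ℕ)
    (hR : finrank ℝ R + Fintype.card β = Fintype.card W + a)
    (hR' : ∀ A : Finset W, finrank ℝ (R ⊓ supp A : Submodule ℝ (E W)) ≤ A.card) :
    ∃ (r : Fin a → E W) (rr : β → W × Fin 3 → ℝ) (e : Fin a → β), (∀ p, r p ∈ R) ∧
      Function.Injective e ∧
      (∀ p k, rr (e p) (k, 0) = r p k 0 ∧ rr (e p) (k, 1) = r p k 1 ∧ rr (e p) (k, 2) = 0) ∧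
      ∀ᶠ j in (U : Filter J), ∃ s : K j →+* ℂ,
        (Matrix.of fun i b => ∑ l, (rr i l : ℂ) * dl s (t j) l b).det ≠ 0 := by
  classical
  set v : Fin (finrank ℝ R) → E W := fun i => (Module.finBasis ℝ R i : E W) with hv
  have hvi : LinearIndependent ℝ v :=
    (Module.finBasis ℝ R).linearIndependent.map' R.subtype (Submodule.ker_subtype R)
  have hvs : Submodule.span ℝ (Set.range v) = R := by
    have h0 : Set.range v = R.subtype '' Set.range (Module.finBasis ℝ R) := by
      rw [← Set.range_comp]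
      rfl
    rw [h0, ← Submodule.map_span, Basis.span_eq, Submodule.map_subtype_top]
  obtain ⟨f, hf0, hf⟩ := rado_rank v hvi (by rw [hvs]; exact hR')
  have h2 : ∀ᶠ j in (U : Filter J), ∀ k, MvPowerSeries.constantCoeff (t j k) ≠ 2 := by
    rw [Filter.eventually_all]
    intro k
    have hne : (X k - 2 : MvPolynomial W ℤ) ≠ 0 := by
      intro h
      have h1 := congrArg (aeval (fun _ : W => (0 : ℤ))) h
      rw [map_sub, aeval_X, map_zero, map_ofNat] at h1
      norm_num at h1
    filter_upwards [h4 _ hne] with j hj h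
    apply hj
    rw [map_sub, aeval_X, h, map_ofNat, sub_self]
  have key : ∀ᶠ j in (U : Filter J),
      ∃ d : (Fin a → Fin (finrank ℝ R)) × (Fin a → β) × (β → W), Function.Injective d.2.1 ∧
        ∃ s : K j →+* ℂ, (Matrix.of fun i b =>
          ∑ l, (tsRow (fun p => v (d.1 p)) d.2.1 d.2.2 i l : ℂ) * dl s (t j) l b).det ≠ 0 := by
    filter_upwards [h1, h2, h4 f hf0] with j hj1 hj2 hj4
    obtain ⟨s⟩ : Nonempty (K j →+* ℂ) := inferInstance
    obtain ⟨e', e, κ, he, hd⟩ := ts_level (t j) bs s hj1 hj2 a v (by simpa using hR)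
      (hf (K j) _ s hj4)
    exact ⟨(e', e, κ), he, s, hd⟩
  rw [Ultrafilter.eventually_exists_iff] at key
  obtain ⟨⟨e', e, κ⟩, hd⟩ := key
  obtain ⟨j0, he, -⟩ := hd.exists
  refine ⟨fun p => v (e' p), tsRow (fun p => v (e' p)) e κ, e, fun p => (finBasis ℝ R (e' p)).2,
    he, fun p k => ?_, hd.mono fun j hj => hj.2⟩
  rw [tsRow_apply _ _ he, tsRow_apply _ _ he, tsRow_apply _ _ he]
  exact ⟨rfl, rfl, rfl⟩

end Pool.Agent.LSharp
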