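import Pool.Agent.LSharp.TSLevel
import Pool.Agent.LSharp.TSWedge
import Pool.Agent.LSharp.TSTheta
import Pool.Agent.LSharp.TSRelU
import Pool.Agent.LSharp.TSDep
import Pool.Agent.LSharp.TSBas
import Pool.Agent.LSharp.TSScale
import Pool.Agent.CITLines.PushMain
import Pool.Agent.CITLines.Lift1

set_option autoImplicit false

/-! TS: the final theorem of the block. -/

namespace Pool.Agent.LSharp

open MvPolynomial Module LAll Filter Pool.Agent.CITLines Pool.Agent.Srf5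

private theorem ts_pr_add {ι : Type} [Fintype ι] (y z : ι → ℤ) (t : ι → ℝ) :
    pr (y + z) t = pr y t + pr z t := by
  unfold pr
  rw [← Finset.sum_add_distrib]
  refine Finset.sum_congr rfl fun l _ => ?_
  rw [Pi.add_apply, Int.cast_add, add_mul]

private theorem ts_pr_smul {ι : Type} [Fintype ι] (c : ℤ) (y : ι → ℤ) (t : ι → ℝ) :
    pr (c • y) t = c * pr y t := by
  unfold pr
  rw [Finset.mul_sum]
  refine Finset.sum_congr rfl fun l _ => ?_
  rw [Pi.smul_apply, smul_eq_mul, Int.cast_mul, mul_assoc]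

private theorem ts_pr_sum {ι α : Type} [Fintype ι] (s : Finset α) (f : α → ι → ℤ)
    (t : ι → ℝ) : pr (∑ a ∈ s, f a) t = ∑ a ∈ s, pr (f a) t := by
  classical
  induction s using Finset.induction_on with
  | empty => simp [pr]
  | insert a s ha ih => rw [Finset.sum_insert ha, Finset.sum_insert ha, ts_pr_add, ih]

private theorem ts_pr_single {ι : Type} [Fintype ι] [DecidableEq ι] (i : ι) (t : ι → ℝ) :
    pr (Pi.single i 1) t = t i := by
  unfold pr
  rw [Finset.sum_eq_single i]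
  · rw [Pi.single_eq_same, Int.cast_one, one_mul]
  · intro j _ hj
    rw [Pi.single_eq_of_ne hj, Int.cast_zero, zero_mul]
  · intro h
    exact absurd (Finset.mem_univ i) h

/-- exponents of the units -/
private def tsE {W : Type} (y : W → Fin 2 → ℤ) (l : W × Fin 3) : ℤ := ![y l.1 0, y l.1 1, 0] l.2

private theorem ts_mon_tsE {W F : Type} [Fintype W] [Field F] (w : W × Fin 3 → F)
    (y : W → Fin 2 → ℤ) : mon w (tsE y) = ∏ k, ∏ i : Fin 2, w (k, i.castSucc) ^ y k i := by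
  unfold mon tsE
  rw [Fintype.prod_prod_type]
  refine Finset.prod_congr rfl fun k _ => ?_
  rw [Fin.prod_univ_three, Fin.prod_univ_two]
  simp

private theorem ts_pr_tsE {W : Type} [Fintype W] (x : W × Fin 3 → ℝ)
    (y : W → Fin 2 → ℤ) : pr (tsE y) x = ∑ k, ((y k 0 : ℝ) * x (k, 0) + y k 1 * x (k, 1)) := by
  unfold pr tsE
  rw [Fintype.sum_prod_type]
  refine Finset.sum_congr rfl fun k _ => ?_
  rw [Fin.sum_univ_three]
  simp

/-- all exponents -/
private def tsY {W β : Type} [DecidableEq W] [Fintype β] {a : ℕ} (y : Fin a → W → Fin 2 → ℤ)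
    (g : β → W × Fin 3) (u : Fin a → ℕ) (v : β → ℕ) : W × Fin 3 → ℤ :=
  (∑ p, (u p : ℤ) • tsE (y p)) + ∑ b, (v b : ℤ) • Pi.single (g b) 1

private theorem ts_mon_tsY {W β F : Type} [Fintype W] [DecidableEq W] [Fintype β] [Field F]
    {w : W × Fin 3 → F} (hw : ∀ l, w l ≠ 0) {a : ℕ} (y : Fin a → W → Fin 2 → ℤ)
    (g : β → W × Fin 3) (u : Fin a → ℕ) (v : β → ℕ) : mon w (tsY y g u v) =
      (∏ p, (∏ k, ∏ i : Fin 2, w (k, i.castSucc) ^ y p k i) ^ u p) * ∏ b, w (g b) ^ v b := by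
  unfold tsY
  rw [mon_add' hw, mon_sum hw, mon_sum hw]
  congr 1
  · refine Finset.prod_congr rfl fun p _ => ?_
    rw [mon_smul, ts_mon_tsE, zpow_natCast]
  · refine Finset.prod_congr rfl fun b _ => ?_
    rw [mon_smul, mon_single, zpow_natCast]

private theorem ts_pr_tsY {W β : Type} [Fintype W] [DecidableEq W] [Fintype β]
    (x : W × Fin 3 → ℝ) (g : β → W × Fin 3) (q : W × Fin 3 → β → ℚ)
    (hq : ∀ l, x l = ∑ b, (q l b : ℝ) * x (g b)) {a : ℕ} (y : Fin a → W → Fin 2 → ℤ)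
    (u : Fin a → ℕ) (v : β → ℕ) : pr (tsY y g u v) x =
      ∑ b, ((∑ p, ((u p : ℕ) : ℚ) *
        (∑ k, ((y p k 0 : ℚ) * q (k, 0) b + (y p k 1 : ℚ) * q (k, 1) b)) +
          ((v b : ℕ) : ℚ) : ℚ) : ℝ) * x (g b) := by
  unfold tsY
  rw [ts_pr_add, ts_pr_sum, ts_pr_sum]
  simp only [ts_pr_smul, ts_pr_single, ts_pr_tsE]
  push_cast
  simp only [add_mul]
  rw [Finset.sum_add_distrib]
  congr 1
  simp only [Finset.sum_mul]
  rw [Finset.sum_comm]
  refine Finset.sum_congr rfl fun p _ => ?_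
  simp only [mul_assoc]
  rw [← Finset.mul_sum]
  congr 1
  simp only [Finset.sum_mul]
  rw [Finset.sum_comm]
  refine Finset.sum_congr rfl fun k _ => ?_
  rw [hq (k, 0), hq (k, 1), Finset.mul_sum, Finset.mul_sum, ← Finset.sum_add_distrib]
  refine Finset.sum_congr rfl fun b _ => ?_
  ring

private theorem ts_indep (K : Type) [Field K] {W β : Type} [Fintype W] [DecidableEq W]
    [Fintype β] [DecidableEq β] (t : W → MvPowerSeries β K) (hw : ∀ l, wu t l ≠ 0)
    (a B : ℕ) (nb : β → ℕ) (g : β → W × Fin 3) (q : W × Fin 3 → β → ℚ) (x : W × Fin 3 → ℝ)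
    (hs : Sep K (wF t) x) (hq : ∀ l, x l = ∑ b, (q l b : ℝ) * x (g b))
    (hli : LinearIndependent ℚ fun b => x (g b)) (y : Fin a → W → Fin 2 → ℤ)
    (hinj : Function.Injective (fun (x : (Fin a → Fin B) × ((b : β) → Fin (nb b))) (b : β) =>
      ∑ p, ((x.1 p : ℕ) : ℚ) *
        (∑ k, ((y p k 0 : ℚ) * q (k, 0) b + (y p k 1 : ℚ) * q (k, 1) b)) +
          ((x.2 b : ℕ) : ℚ))) :
    LinearIndependent K (fun x : (Fin a → Fin B) × ((b : β) → Fin (nb b)) =>
      (∏ p, (∏ k, ∏ i : Fin 2, wu t (k, i.castSucc) ^ y p k i) ^ (x.1 p : ℕ)) *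
        ∏ b, wu t (g b) ^ (x.2 b : ℕ)) := by
  classical
  let Y : ((Fin a → Fin B) × ((b : β) → Fin (nb b))) → W × Fin 3 → ℤ := fun z =>
    tsY y g (fun p => z.1 p) (fun b => z.2 b)
  have hpr : ∀ z z' : (Fin a → Fin B) × ((b : β) → Fin (nb b)),
      pr (Y z) x = pr (Y z') x → z = z' := by
    intro z z' h
    apply hinj
    simp only [Y] at h
    rw [ts_pr_tsY x g q hq, ts_pr_tsY x g q hq, ← sub_eq_zero, ← Finset.sum_sub_distrib] at h
    funext b
    have h1 := Fintype.linearIndependent_iff.1 hli (fun b =>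
      (∑ p, ((z.1 p : ℕ) : ℚ) *
        (∑ k, ((y p k 0 : ℚ) * q (k, 0) b + (y p k 1 : ℚ) * q (k, 1) b)) +
          ((z.2 b : ℕ) : ℚ)) - (∑ p, ((z'.1 p : ℕ) : ℚ) *
        (∑ k, ((y p k 0 : ℚ) * q (k, 0) b + (y p k 1 : ℚ) * q (k, 1) b)) +
          ((z'.2 b : ℕ) : ℚ))) (by
        rw [← h]
        refine Finset.sum_congr rfl fun b _ => ?_
        rw [Rat.smul_def, Rat.cast_sub, sub_mul]) b
    exact sub_eq_zero.1 h1
  let S : Finset (W × Fin 3 → ℤ) := Finset.univ.image Y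
  have hS : ∀ z, Y z ∈ S := fun z => Finset.mem_image_of_mem _ (Finset.mem_univ z)
  have h1 := hs S (by
    intro y1 h1 y2 h2 h12
    obtain ⟨z1, -, rfl⟩ := Finset.mem_image.1 (Finset.mem_coe.1 h1)
    obtain ⟨z2, -, rfl⟩ := Finset.mem_image.1 (Finset.mem_coe.1 h2)
    rw [hpr z1 z2 h12])
  have h2 : LinearIndependent K (fun z => mon (wF t) (Y z)) := by
    refine h1.comp (fun z => (⟨Y z, hS z⟩ : S)) ?_
    intro z z' hz
    have h3 : Y z = Y z' := congrArg Subtype.val hz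
    exact hpr z z' (by rw [h3])
  have h3 := h2.map' ((IntermediateField.adjoin K (Set.range (wu t))).val.toLinearMap)
    (LinearMap.ker_eq_bot.2 Subtype.val_injective)
  have h4 : (fun x : (Fin a → Fin B) × ((b : β) → Fin (nb b)) =>
      (∏ p, (∏ k, ∏ i : Fin 2, wu t (k, i.castSucc) ^ y p k i) ^ (x.1 p : ℕ)) *
        ∏ b, wu t (g b) ^ (x.2 b : ℕ)) =
      (IntermediateField.adjoin K (Set.range (wu t))).val.toLinearMap ∘
        fun z => mon (wF t) (Y z) := by
    funext z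
    rw [← ts_mon_tsY hw y g (fun p => (z.1 p : ℕ)) (fun b => (z.2 b : ℕ))]
    exact mon_map (IntermediateField.adjoin K (Set.range (wu t))).val.toRingHom (wF t) (Y z)
  rw [h4]
  exact h3

private theorem ts_aeval_wF {K W β : Type} [Field K] (t : W → MvPowerSeries β K)
    (P : MvPolynomial (W × Fin 3) K) (h : aeval (un t) P = 0) : aeval (wF t) P = 0 := by
  have h1 : aeval (wu t) P = 0 := by
    have h2 := MvPolynomial.aeval_algebraMap_apply
      (B := FractionRing (MvPowerSeries β K)) (un t) P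
    rw [h, map_zero] at h2
    exact h2
  have h3 : (IntermediateField.adjoin K (Set.range (wu t))).val (aeval (wF t) P) =
      aeval (wu t) P :=
    MvPolynomial.comp_aeval_apply (φ := (IntermediateField.adjoin K (Set.range (wu t))).val)
      (wF t) P
  rw [h1] at h3
  exact Subtype.ext h3

/-- **Independence of the auxiliary functions.**

Proof. By `h4` for `X k`, `X k - 1`, `X k - 2`, and `h1, h2, h3`: `Lv (K j) (t j) bs cls D` for almost all `j`. `wedge`
gives `r0, rr, e`. Let `S` be the (finite) set of the `rr i l`, `θ` from `exists_theta`, `D'` from `rel_unif`. For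
almost all `j`: `level` (with `theta_rat`) gives weights `x_j` with `∑ l, rr i l * x_j l = θ i` and
`Sep (K j) (wF (t j)) x_j`; `rel_unif` and `dep_int` (`aeval (un t) P = 0` implies `aeval (wF t) P = 0`) give the
hypothesis of `exists_q` (`cl l = cls l.1`, `cb b = cls (bs b)`), so we get `g_j, q_j`. There are finitely many
`(g, q)` (`finite_q`), so one of them occurs for almost all `j` (ultrafilter). `scale` gives `lam`. Let
`r p = lam • r0 p` and `g`. For `C, B` take `n0` from `scale`. For `x` in the index type let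
`Y_x (k, i) = ∑ p, x.1 p * y p k i + ∑ b with g b = (k, i), x.2 b` (`i < 2`) and `Y_x (k, 2) = ∑ b with g b = (k, 2), x.2 b`.
The function of the statement is the image of `mon (wF (t j)) Y_x`. `pr Y_x x_j = ∑ b, c_b * x_j (g b)` with the
rational numbers `c_b` of `scale` (`x_j l = ∑ b, q l b * x_j (g b)`, and `q (g b)` is the unit vector of `b` because the
`x_j (g b)` are independent over `ℚ`), so it is injective in `x`; by `Sep` (for the image of `x ↦ Y_x`) the
`mon (wF (t j)) Y_x` are linearly independent over `K j` (`LinearIndependent` of an injective reindexing),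
and the inclusion of `FF (t j)` is injective. -/
theorem ts_final {J : Type} (U : Ultrafilter J) {W β M : Type} [Fintype W] [DecidableEq W]
    [Fintype β] [DecidableEq β] [DecidableEq M] (K : J → Type) [∀ j, Field (K j)]
    [∀ j, NumberField (K j)] (t : (j : J) → W → MvPowerSeries β (K j)) (bs : β → W)
    (cls : W → M)
    (h1 : ∀ᶠ j in (U : Filter J), ∀ b, t j (bs b) =
      MvPowerSeries.C (MvPowerSeries.constantCoeff (t j (bs b))) + MvPowerSeries.X b)
    (h2 : ∃ D : ℕ, ∀ᶠ j in (U : Filter J), ∀ k, ∃ p : MvPolynomial (Option β) (K j), p ≠ 0 ∧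
      p.totalDegree ≤ D ∧ (∀ b, some b ∈ p.vars → cls (bs b) = cls k) ∧
      aeval (fun o : Option β => o.elim (t j k) (fun b => t j (bs b))) p = 0)
    (h3 : ∀ᶠ j in (U : Filter J), ∀ s : K j →+* ℂ, ∃ C : ℝ, ∀ k i,
      ‖s (MvPowerSeries.coeff i (t j k))‖ ≤ C ^ (i.degree + 1))
    (h4 : ∀ f : MvPolynomial W ℤ, f ≠ 0 → ∀ᶠ j in (U : Filter J),
      aeval (fun k => MvPowerSeries.constantCoeff (t j k)) f ≠ 0)
    (R : Submodule ℝ (E W)) (a : ℕ)
    (hR : finrank ℝ R + Fintype.card β = Fintype.card W + a)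
    (hR' : ∀ A : Finset W, finrank ℝ (R ⊓ supp A : Submodule ℝ (E W)) ≤ A.card) :
    ∃ (r : Fin a → E W) (g : β → W × Fin 3), (∀ p, r p ∈ R) ∧
      (∀ b, cls (g b).1 = cls (bs b)) ∧
      ∀ (C : ℝ) (B : ℕ), ∃ n0 : ℕ, ∀ᶠ j in (U : Filter J), ∀ n : M → ℕ, (∀ m, n0 ≤ n m) →
        ∀ y : Fin a → W → Fin 2 → ℤ, (∀ p k i, |(y p k i : ℝ) - n (cls k) * r p k i| ≤ C) →
          LinearIndependent (K j)
            (fun x : (Fin a → Fin B) × ((b : β) → Fin (n (cls (bs b)))) =>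
              (∏ p, (∏ k, ∏ i : Fin 2, wu (t j) (k, i.castSucc) ^ y p k i) ^ (x.1 p : ℕ)) *
                ∏ b, wu (t j) (g b) ^ (x.2 b : ℕ)) := by
  classical
  obtain ⟨D, hD⟩ := h2
  have hg : ∀ (f : W → MvPolynomial W ℤ), (∀ k, f k ≠ 0) → ∀ᶠ j in (U : Filter J), ∀ k,
      aeval (fun k => MvPowerSeries.constantCoeff (t j k)) (f k) ≠ 0 := fun f hf =>
    Filter.eventually_all.2 fun k => h4 (f k) (hf k)
  have hX0 : ∀ k : W, (X k : MvPolynomial W ℤ) ≠ 0 := fun k => X_ne_zero k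
  have hXc : ∀ (c : ℤ) (k : W), (X k - C c : MvPolynomial W ℤ) ≠ 0 := by
    intro c k h
    have h5 := congrArg (eval (fun _ => c + 1)) h
    simp at h5
  have hLv : ∀ᶠ j in (U : Filter J), Lv (K j) (t j) bs cls D := by
    filter_upwards [h1, hD, h3, hg _ hX0, hg _ (hXc 1), hg _ (hXc 2)] with j a1 a2 a3 a4 a5 a6
    refine ⟨a1, a2, a3, ?_, ?_, ?_⟩
    · intro k hk
      exact a4 k (by rw [aeval_X, hk])
    · intro k hk
      exact a5 k (by simp [hk])
    · intro k hk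
      exact a6 k (by simp [hk])
  obtain ⟨r0, rr, e, hr0, he, hrr, hw⟩ := wedge U K t bs h1 h4 R a hR hR'
  let S : Set ℝ := Set.range fun z : β × (W × Fin 3) => rr z.1 z.2
  have hSm : ∀ i l, rr i l ∈ S := fun i l => ⟨(i, l), rfl⟩
  obtain ⟨θ, hθ⟩ := exists_theta (β := β) S (Set.finite_range _).countable
  obtain ⟨D', hD1, hD'⟩ := rel_unif bs cls D
  have hfin : ({z : (β → W × Fin 3) × (W × Fin 3 → β → ℚ) |
      ∀ l b, |(z.2 l b).num| ≤ D' ∧ (z.2 l b).den ≤ D'}).Finite := by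
    refine ((Set.finite_univ (α := β → W × Fin 3)).prod
      (finite_q (β := β) (ι := W × Fin 3) D')).subset ?_
    rintro ⟨z1, z2⟩ hz
    exact ⟨Set.mem_univ _, hz⟩
  have hex : ∀ᶠ j in (U : Filter J), ∃ z ∈ {z : (β → W × Fin 3) × (W × Fin 3 → β → ℚ) |
      ∀ l b, |(z.2 l b).num| ≤ D' ∧ (z.2 l b).den ≤ D'}, ∃ x : W × Fin 3 → ℝ,
      Sep (K j) (wF (t j)) x ∧ (∀ b, cls (z.1 b).1 = cls (bs b)) ∧
      (∀ l b, z.2 l b ≠ 0 → cls l.1 = cls (bs b)) ∧
      (∀ l, x l = ∑ b, (z.2 l b : ℝ) * x (z.1 b)) ∧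
      LinearIndependent ℚ (fun b => x (z.1 b)) ∧
      (Matrix.of fun i b => ∑ l, rr i l * (z.2 l b : ℝ)).det ≠ 0 := by
    filter_upwards [hLv, hw] with j b1 b2
    obtain ⟨s, hs⟩ := b2
    obtain ⟨x, hx1, hx2⟩ := level (K j) b1 s rr hs θ (theta_rat S θ hθ)
    obtain ⟨g, q, c1, c2, c3, c4, c5, c6⟩ := exists_q S rr hSm θ hθ x hx1
      (fun l : W × Fin 3 => cls l.1) (fun b => cls (bs b)) D' hD1 (by
        intro m A hA hcard
        obtain ⟨P, d1, d2, d3, d4⟩ := hD' (K j) (t j) b1 m A hA hcard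
        exact dep_int (wF (t j)) x hx2 A P d1 d2 D' d3 (ts_aeval_wF (t j) P d4))
    exact ⟨(g, q), c3, x, hx2, c1, c2, c4, c5, c6⟩
  obtain ⟨⟨g, q⟩, -, hgq⟩ := (Ultrafilter.eventually_exists_mem_iff hfin).1 hex
  obtain ⟨j0, x0, -, hgc, hqc, -, -, hdet⟩ := hgq.exists
  obtain ⟨lam, hlam, hsc⟩ := scale a r0 rr e he hrr q cls (fun b => cls (bs b)) hqc hdet
  refine ⟨fun p => lam • r0 p, g, fun p => R.smul_mem _ (hr0 p), hgc, ?_⟩
  intro C B
  obtain ⟨n0, hn0⟩ := hsc C B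
  refine ⟨n0, ?_⟩
  filter_upwards [hLv, hgq] with j b1 b2
  obtain ⟨x, c1, -, -, c2, c3, -⟩ := b2
  intro n hn y hy
  exact ts_indep (K j) (t j) (wu_ne b1) a B (fun b => n (cls (bs b))) g q x c1 c2 c3 y
    (hn0 n hn y hy)

end Pool.Agent.LSharp
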