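import Mathlib

set_option autoImplicit false

/-! TS: generic points in small balls; polynomials vanishing on open sets. -/

namespace Pool.Agent.LSharp

open MvPolynomial

private theorem tsAeval {K β : Type} [Field K] [Algebra K ℂ] (P : MvPolynomial β K)
    (x : β → ℂ) : aeval x P = eval x (MvPolynomial.map (algebraMap K ℂ) P) := by
  rw [eval_map, aeval_def]

private theorem tsZero {K β : Type} [Field K] [Algebra K ℂ] [Fintype β] (P : MvPolynomial β K)
    (V : Set (β → ℂ)) (hV : IsOpen V) (hne : V.Nonempty) (h : ∀ x ∈ V, aeval x P = 0) :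
    P = 0 := by
  obtain ⟨x₀, hx₀⟩ := hne
  obtain ⟨ε, hε, hb⟩ := Metric.isOpen_iff.1 hV x₀ hx₀
  have hinf : ∀ i : β, (Metric.ball (x₀ i) ε).Infinite := fun i =>
    infinite_of_mem_nhds (x₀ i) (Metric.ball_mem_nhds _ hε)
  have h1 : MvPolynomial.map (algebraMap K ℂ) P = 0 := by
    refine funext_set (fun i : β => Metric.ball (x₀ i) ε) hinf fun x hx => ?_
    rw [← tsAeval, map_zero]
    refine h x (hb ?_)
    rw [ball_pi _ hε]
    exact hx
  exact MvPolynomial.map_injective _ (algebraMap K ℂ).injective (h1.trans (map_zero _).symm)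

/-- Proof. `K` is countable, so the set of the zeros of all nonzero polynomials of `MvPolynomial β K` is a
countable union of closed sets with empty interior (`eq_zero_of_open`); Baire. Or choose the coordinates one
after the other: the algebraic closure of a countable field is countable, a disc is not. -/
theorem exists_generic {K β : Type} [Field K] [NumberField K] [Algebra K ℂ] [Fintype β] (δ : ℝ)
    (hδ : 0 < δ) : ∃ p : β → ℂ, ‖p‖ < δ ∧ AlgebraicIndependent K p := by
  have hK : Countable K :=
    (Module.finBasis ℚ K).equivFun.injective.countable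
  have hC : Countable (MvPolynomial β K) :=
    (basisMonomials β K).repr.toEquiv.injective.countable
  have ho : ∀ P : {P : MvPolynomial β K // P ≠ 0}, IsOpen {x : β → ℂ | aeval x P.1 ≠ 0} := by
    intro P
    have h1 : Continuous fun x : β → ℂ => aeval x P.1 := by
      have h2 : (fun x : β → ℂ => aeval x P.1) =
          fun x => eval x (MvPolynomial.map (algebraMap K ℂ) P.1) :=
        funext fun x => tsAeval P.1 x
      rw [h2]
      exact MvPolynomial.continuous_eval _
    exact isOpen_ne_fun h1 continuous_const
  have hd : ∀ P : {P : MvPolynomial β K // P ≠ 0}, Dense {x : β → ℂ | aeval x P.1 ≠ 0} := by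
    intro P
    rw [dense_iff_inter_open]
    intro U hU hne
    by_contra hcon
    refine P.2 (tsZero P.1 U hU hne fun x hx => ?_)
    by_contra h
    exact hcon ⟨x, hx, h⟩
  have h := dense_iInter_of_isOpen ho hd
  obtain ⟨p, hp, hp'⟩ := dense_iff_inter_open.1 h (Metric.ball 0 δ) Metric.isOpen_ball
    ⟨0, Metric.mem_ball_self hδ⟩
  refine ⟨p, by simpa using hp, algebraicIndependent_iff.2 fun P hP => ?_⟩
  by_contra hne
  exact Set.mem_iInter.1 hp' ⟨P, hne⟩ hP

/-- Proof. `V` contains a product of infinite sets; `MvPolynomial.funext_set`, or analytic continuation, or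
induction. The map `MvPolynomial β K → MvPolynomial β ℂ` is injective. -/
theorem eq_zero_of_open {K β : Type} [Field K] [Algebra K ℂ] [Fintype β] (P : MvPolynomial β K)
    (V : Set (β → ℂ)) (hV : IsOpen V) (hne : V.Nonempty) (h : ∀ x ∈ V, aeval x P = 0) :
    P = 0 := tsZero P V hV hne h

end Pool.Agent.LSharp
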