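import Pool.Agent.LSharp.TSDefs

set_option autoImplicit false

/-! TS: the ultrapower of the complex numbers. -/

namespace Pool.Agent.LSharp

open Filter

/-- The ultrapower of `ℂ`. -/
abbrev UC : Type := Filter.Germ (hyperfilter ℕ : Filter ℕ) ℂ

/-- **The ultrapower of `ℂ` is algebraically closed.**

Proof. `IsAlgClosed.of_exists_root` (monic irreducible polynomials): let `p = X^n + ∑ i < n, a_i X^i`,
`n ≥ 1`. Choose representatives `a_i = [T ↦ a_i(T)]` (`Germ.inductionOn`, `Quotient.out`), let `r(T)` be a root of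
`X^n + ∑ a_i(T) X^i` in `ℂ` (`IsAlgClosed.exists_root`); then `[r]` is a root of `p`. -/
instance isAlgClosed_UC : IsAlgClosed UC := by
  refine IsAlgClosed.of_exists_root UC fun p hp hirr => ?_
  have hn : 0 < p.natDegree := hirr.natDegree_pos
  -- representatives of the coefficients
  have hb : ∀ i, ∃ b : ℕ → ℂ, (Germ.coeRingHom (hyperfilter ℕ : Filter ℕ) b : UC) = p.coeff i := by
    intro i
    obtain ⟨b, hb⟩ := Quotient.exists_rep (p.coeff i)
    exact ⟨b, hb⟩
  choose b hb using hb
  -- the roots
  have hr : ∀ T : ℕ, ∃ z : ℂ, z ^ p.natDegree +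
      ∑ i ∈ Finset.range p.natDegree, b i T * z ^ i = 0 := by
    intro T
    have hd : (∑ i ∈ Finset.range p.natDegree,
        Polynomial.C (b i T) * Polynomial.X ^ i : Polynomial ℂ).degree < p.natDegree := by
      refine (Polynomial.degree_sum_le _ _).trans_lt ((Finset.sup_lt_iff ?_).2 fun i hi => ?_)
      · exact WithBot.bot_lt_coe _
      · exact (Polynomial.degree_C_mul_X_pow_le _ _).trans_lt
          (by exact_mod_cast Finset.mem_range.1 hi)
    have hdeg : ((Polynomial.X ^ p.natDegree + ∑ i ∈ Finset.range p.natDegree,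
        Polynomial.C (b i T) * Polynomial.X ^ i : Polynomial ℂ)).degree = p.natDegree := by
      rw [Polynomial.degree_add_eq_left_of_degree_lt (by rwa [Polynomial.degree_X_pow]),
        Polynomial.degree_X_pow]
    obtain ⟨z, hz⟩ := IsAlgClosed.exists_root (Polynomial.X ^ p.natDegree +
      ∑ i ∈ Finset.range p.natDegree, Polynomial.C (b i T) * Polynomial.X ^ i : Polynomial ℂ) (by
        rw [hdeg]
        exact_mod_cast hn.ne')
    refine ⟨z, ?_⟩
    have h1 := hz.eq_zero
    simpa [Polynomial.eval_finsetSum] using h1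
  choose r hr using hr
  refine ⟨Germ.coeRingHom (hyperfilter ℕ : Filter ℕ) r, ?_⟩
  have h1 : (Germ.coeRingHom (hyperfilter ℕ : Filter ℕ)) (r ^ p.natDegree +
      ∑ i ∈ Finset.range p.natDegree, b i * r ^ i) = (0 : UC) := by
    have h2 : r ^ p.natDegree + ∑ i ∈ Finset.range p.natDegree, b i * r ^ i = 0 := by
      funext T
      rw [Pi.add_apply, Finset.sum_apply]
      exact hr T
    rw [h2, map_zero]
  rw [map_add, map_pow, map_sum] at h1
  conv_lhs => rw [hp.as_sum]
  rw [Polynomial.eval_add, Polynomial.eval_pow, Polynomial.eval_X, Polynomial.eval_finsetSum]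
  rw [← h1]
  congr 1
  refine Finset.sum_congr rfl fun i _ => ?_
  rw [Polynomial.eval_mul, Polynomial.eval_C, Polynomial.eval_pow, Polynomial.eval_X, map_mul,
    map_pow, hb]

end Pool.Agent.LSharp
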