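import Pool.Agent.LSharp.TSDefs
import Pool.Agent.Srf5.ALau
import Pool.Agent.CITLines.Push

set_option autoImplicit false

/-! TS: embeddings from equality of the prime ideals. -/

namespace Pool.Agent.LSharp

open MvPolynomial Pool.Agent.CITLines Pool.Agent.Srf5

section

variable {K F C1 ι : Type} [Field K] [Field F] [Algebra K F] [Field C1] [Algebra K C1]

/-- Proof. `Algebra.adjoin K (range w)` is `MvPolynomial ι K / kr K w`, maps injectively to `C1` and `F` is its
fraction field (`htop`): `IsFractionRing.liftAlgHom`, or `IntermediateField.adjoin` and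
`AlgEquiv` of the fields generated by `w` and `P`. (Compare `CITLines`, `Srf5`, for an existing
version.) -/
theorem exists_hom (w : ι → F) (htop : IntermediateField.adjoin K (Set.range w) = ⊤) (P : ι → C1)
    (h : kr K w = kr K P) : ∃ σ : F →ₐ[K] C1, ∀ l, σ (w l) = P l := by
  have hPz : ∀ f ∈ kr K w, (aeval P : MvPolynomial ι K →ₐ[K] C1) f = 0 := by
    intro f hf
    rw [h] at hf
    exact mem_kr.mp hf
  let A := MvPolynomial ι K ⧸ kr K w
  let φ : A →ₐ[K] F :=
    Ideal.Quotient.liftₐ (kr K w) (aeval w) (fun a ha => ha)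
  let g : A →ₐ[K] C1 := Ideal.Quotient.liftₐ (kr K w) (aeval P) hPz
  have hφ : Function.Injective φ := by
    rw [injective_iff_map_eq_zero]
    intro a ha
    obtain ⟨b, rfl⟩ := Ideal.Quotient.mk_surjective a
    exact Ideal.Quotient.eq_zero_iff_mem.mpr ha
  have hg : Function.Injective g := by
    rw [injective_iff_map_eq_zero]
    intro a ha
    obtain ⟨b, rfl⟩ := Ideal.Quotient.mk_surjective a
    refine Ideal.Quotient.eq_zero_iff_mem.mpr ?_
    rw [h]
    exact ha
  have hφa : ∀ f, φ (Ideal.Quotient.mk _ f) = aeval w f := fun f => rfl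
  have hga : ∀ f, g (Ideal.Quotient.mk _ f) = aeval P f := fun f => rfl
  let _ : Algebra A F := φ.toRingHom.toAlgebra
  have hmap : ∀ a, algebraMap A F a = φ a := fun a => rfl
  have : IsScalarTower K A F := IsScalarTower.of_algebraMap_eq fun x => (φ.commutes x).symm
  have : FaithfulSMul A F := (faithfulSMul_iff_algebraMap_injective A F).2 hφ
  have : IsFractionRing A F := by
    refine IsFractionRing.of_field A F fun z => ?_
    have hz : z ∈ IntermediateField.adjoin K (Set.range w) := by
      rw [htop]; exact IntermediateField.mem_top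
    obtain ⟨r, s, hrs⟩ := (IntermediateField.mem_adjoin_range_iff K w z).1 hz
    exact ⟨Ideal.Quotient.mk _ r, Ideal.Quotient.mk _ s, hrs⟩
  refine ⟨IsFractionRing.liftAlgHom (K := F) hg, fun l => ?_⟩
  have h1 : w l = algebraMap A F (Ideal.Quotient.mk _ (X l)) := by
    rw [hmap, hφa, aeval_X]
  have h2 := IsFractionRing.lift_algebraMap (K := F) hg (Ideal.Quotient.mk _ (X l))
  rw [IsFractionRing.liftAlgHom_apply, h1]
  rw [h2]
  change g (Ideal.Quotient.mk _ (X l)) = P l
  rw [hga, aeval_X]

/-- Proof. `dm_strictAnti`. -/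
theorem kr_eq [Fintype ι] (w : ι → F) (P : ι → C1) (hle : kr K w ≤ kr K P)
    (hdm : dm (kr K w) ≤ dm (kr K P)) : kr K w = kr K P := by
  by_contra hne
  have := dm_strictAnti (lt_of_le_of_ne hle hne)
  omega

/-- Proof. The `c1 i = mon P (y i)` are in the field generated by the `P l`: `isAlgebraic_mon`, `rk_pm_le`,
`rk_range_of_indep`, `dm_kr`. -/
theorem card_le_dm_mon [Fintype ι] {β : Type} [Fintype β] (P : ι → C1) (y : β → ι → ℤ)
    (h : AlgebraicIndependent K fun i => mon P (y i)) : Fintype.card β ≤ dm (kr K P) := by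
  have h1 := rk_range_of_indep _ h
  have h2 : rk K (Set.range (pm y P)) ≤ rk K (Set.range P) := rk_pm_le (k := K) P y
  have h3 : (Fintype.card β : ℕ∞) ≤ (dm (kr K P) : ℕ∞) := by
    rw [dm_kr, ← h1]
    exact h2
  exact_mod_cast h3

private theorem ts_indep_of [Fintype ι] {β : Type} [Fintype β] {F C1 : Type} [Field F]
    [Algebra K F] [Field C1] [Algebra K C1] (w : ι → F) (P : ι → C1)
    (hw : ∀ l, w l ≠ 0) (hP : ∀ l, P l ≠ 0) (h : kr K w ≤ kr K P) (y : β → ι → ℤ)
    (hi : AlgebraicIndependent K fun i => mon P (y i)) :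
    AlgebraicIndependent K fun i => mon w (y i) := by
  classical
  let e := Fintype.equivFin β
  have hi' : AlgebraicIndependent K fun j => mon P (y (e.symm j)) :=
    hi.comp e.symm e.symm.injective
  have h2 : AlgebraicIndependent K fun j => mon w (y (e.symm j)) := by
    rw [algebraicIndependent_iff]
    intro f hf
    have h3 := spec hw hP h (fun j => y (e.symm j)) f hf
    exact (algebraicIndependent_iff.1 hi') f h3
  have h4 := h2.comp e e.injective
  have e5 : (fun j => mon w (y (e.symm j))) ∘ e = fun i => mon w (y i) := by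
    funext i
    simp
  rw [e5] at h4
  exact h4

/-- Algebraic independence of monomials depends only on the prime ideal.

Proof. `Srf5.spec` (or `laurent`) in both directions. -/
theorem indep_mon_iff [Fintype ι] {β : Type} [Fintype β] (w : ι → F) (P : ι → C1)
    (hw : ∀ l, w l ≠ 0) (hP : ∀ l, P l ≠ 0) (h : kr K w = kr K P) (y : β → ι → ℤ) :
    (AlgebraicIndependent K fun i => mon w (y i)) ↔
      AlgebraicIndependent K fun i => mon P (y i) :=
  ⟨ts_indep_of P w hP hw h.ge y, ts_indep_of w P hw hP h.le y⟩

end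

end Pool.Agent.LSharp
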