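import Pool.Agent.LSharp.TSVex
import Pool.Agent.LSharp.TSCount
import Pool.Agent.LSharp.TSEmb

set_option autoImplicit false

/-! TS: theorem T*. -/

namespace Pool.Agent.LSharp

open MvPolynomial Module Filter Topology Pool.Agent.CITLines Pool.Agent.Srf5

private theorem ts_map_mon {K F Ω ι : Type} [Field K] [Field F] [Algebra K F] [Field Ω]
    [Algebra K Ω] [Fintype ι] (τ : F →ₐ[K] Ω) (w : ι → F) (y : ι → ℤ) :
    τ (mon w y) = mon (fun l => τ (w l)) y := by
  simp only [mon, map_prod, map_zpow₀]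

private theorem ts_step (K : Type) [Field K] [NumberField K] {F β ι : Type} [Field F] [Algebra K F]
    [Fintype ι] [Fintype β] (w : ι → F) (hw : ∀ l, w l ≠ 0)
    (htop : IntermediateField.adjoin K (Set.range w) = ⊤)
    (hdim : dm (kr K w) = Fintype.card β) (r : β → ι → ℝ) (m : ℝ) (hm : 0 < m) (N0 : ℕ)
    (hmany : ∀ N : ℕ, N0 ≤ N → ∀ y : β → ι → ℤ, (∀ i l, |(y i l : ℝ) - N * r i l| ≤ 1) →
      Many K w y (m * N ^ Fintype.card β)) (θ : β → ℝ) (hθ : LinearIndependent ℚ θ) :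
    ∃ ω0 : ℝ, ∀ N : ℕ, N0 ≤ N → 1 ≤ N → ∃ t : ι → ℝ, (∀ l, |t l| ≤ ω0) ∧
      (∀ i, ∑ l, (⌊(N : ℝ) * r i l⌋ : ℝ) * t l = N * θ i) ∧ Sep K w t := by
  obtain ⟨ω0, -, hω⟩ := ts_claim w hw htop hdim m (1 + ∑ i, ∑ l, |r i l|) hm θ hθ
  refine ⟨ω0, fun N hN0 hN1 => ?_⟩
  have hNR : (1 : ℝ) ≤ N := by exact_mod_cast hN1
  have hy : ∀ i l, |((⌊(N : ℝ) * r i l⌋ : ℤ) : ℝ) - N * r i l| ≤ 1 := by
    intro i l
    have h1 := Int.floor_le ((N : ℝ) * r i l)
    have h2 := (Int.lt_floor_add_one ((N : ℝ) * r i l)).le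
    rw [abs_le]
    constructor <;> linarith
  have hyb : ∀ i l, |((⌊(N : ℝ) * r i l⌋ : ℤ) : ℝ)| ≤ (1 + ∑ i, ∑ l, |r i l|) * N := by
    intro i l
    have h1 : |r i l| ≤ ∑ i, ∑ l, |r i l| :=
      (Finset.single_le_sum (f := fun l => |r i l|) (fun l _ => abs_nonneg _)
        (Finset.mem_univ l)).trans
        (Finset.single_le_sum (f := fun i => ∑ l, |r i l|)
          (fun i _ => Finset.sum_nonneg fun l _ => abs_nonneg _) (Finset.mem_univ i))
    have h2 := hy i l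
    have h3 : |(N : ℝ) * r i l| = N * |r i l| := by
      rw [abs_mul, abs_of_nonneg (by linarith)]
    have h4 : |((⌊(N : ℝ) * r i l⌋ : ℤ) : ℝ)| ≤
        |((⌊(N : ℝ) * r i l⌋ : ℤ) : ℝ) - N * r i l| + |(N : ℝ) * r i l| := by
      have := abs_add_le (((⌊(N : ℝ) * r i l⌋ : ℤ) : ℝ) - N * r i l) ((N : ℝ) * r i l)
      rwa [sub_add_cancel] at this
    have h5 : (N : ℝ) * |r i l| ≤ N * ∑ i, ∑ l, |r i l| :=
      mul_le_mul_of_nonneg_left h1 (by linarith)
    rw [h3] at h4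
    nlinarith
  obtain ⟨T, C1, _, _, _, σ, c1, hσ, h1, hc1, hcard⟩ := hmany N hN0 _ hy
  have hθN : LinearIndependent ℚ (fun i => (N : ℝ) * θ i) := by
    have hN' : (N : ℚ) ≠ 0 := by
      have : N ≠ 0 := by omega
      exact_mod_cast this
    have h2 := hθ.units_smul (fun _ => Units.mk0 (N : ℚ) hN')
    have h3 : ((fun _ : β => Units.mk0 (N : ℚ) hN') • θ) = fun i => (N : ℝ) * θ i := by
      ext i
      change (N : ℚ) • θ i = _
      rw [Rat.smul_def]
      norm_num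
    rwa [h3] at h2
  obtain ⟨Ω, _, _, _, v, c, hv, hc0, hvc⟩ := exists_rv K (fun i => (N : ℝ) * θ i) hθN
  have hcI := rv_indep hv c hc0 _ hθN hvc
  obtain ⟨τ, hτ, hτc⟩ := emb_transfer w htop hdim _ σ hσ c1 h1 hc1 c hcI
  obtain ⟨x, hx⟩ := hω N hN1 _ hyb Ω v c hv hc0 hvc T τ hτ hτc hcard
  have hw' : ∀ l, τ x (w l) ≠ 0 := fun l h => hw l ((τ x).toRingHom.injective (by
    rw [map_zero]; exact h))
  refine ⟨fun l => v (τ x (w l)), hx, fun i => ?_, fun S hS => ?_⟩
  · have h2 := hτc x i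
    rw [ts_map_mon] at h2
    have h3 := rv_mon hv (fun l => τ x (w l)) hw' (fun l => ⌊(N : ℝ) * r i l⌋)
    rw [h2, hvc] at h3
    rw [h3]
    rfl
  · refine LinearIndependent.of_comp (τ x).toLinearMap ?_
    refine rv_linind hv _ (fun y => ?_) fun y y' hyy => ?_
    · change τ x (mon w (y : ι → ℤ)) ≠ 0
      rw [ts_map_mon]
      exact Finset.prod_ne_zero_iff.2 fun l _ => zpow_ne_zero _ (hw' l)
    · change v (τ x (mon w (y : ι → ℤ))) = v (τ x (mon w (y' : ι → ℤ))) at hyy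
      rw [ts_map_mon, ts_map_mon, rv_mon hv _ hw', rv_mon hv _ hw'] at hyy
      exact Subtype.ext (hS y.2 y'.2 hyy)

/-- **Theorem T***, algebraic part: if there are at least `m N^d` embeddings over the monomials with
exponents
close to `N r i` then there are weights `t` with `r i . t = θ i` such that monomials with different
weights
are linearly independent.

Proof. `Cr = 1 + max |r i l|`, `ω0` from `ts_claim`. For `N ≥ max N0 1` let `y i l` be the integer
part of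
`N * r i l`. `hmany` gives `T, C1, σ, c1`; `exists_rv` for `N θ` (linearly independent too) gives
`Ω, v, c`;
`rv_indep`: `c` is algebraically independent; `emb_transfer` gives `τ`, and `ts_claim` an `x = x_N`
with
`|t_N l| ≤ ω0`, `t_N l = v (τ x (w l))`. By `rv_mon` `∑ l, y i l * t_N l = v (c i) = N θ i`. The
`t_N` are in a
compact set; let `t` be the limit of a subsequence. Dividing by `N`: `∑ l, r i l * t l = θ i`.
`Sep`: let `S` be
finite with `pr · t` injective on `S`; for `N` large in the subsequence `pr · t_N` is injective on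
`S`. So
the elements `τ x (mon w y) = mon (τ x ∘ w) y`, `y ∈ S`, of `Ω` have different values and are
linearly
independent over `K` (`rv_linind`), hence also the `mon w y` (`LinearIndependent.of_comp`). -/
theorem tstar (K : Type) [Field K] [NumberField K] {F β ι : Type} [Field F] [Algebra K F]
    [Fintype ι] [Fintype β] (w : ι → F) (hw : ∀ l, w l ≠ 0)
    (htop : IntermediateField.adjoin K (Set.range w) = ⊤)
    (hdim : dm (kr K w) = Fintype.card β) (r : β → ι → ℝ) (m : ℝ) (hm : 0 < m) (N0 : ℕ)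
    (hmany : ∀ N : ℕ, N0 ≤ N → ∀ y : β → ι → ℤ, (∀ i l, |(y i l : ℝ) - N * r i l| ≤ 1) →
      Many K w y (m * N ^ Fintype.card β)) (θ : β → ℝ) (hθ : LinearIndependent ℚ θ) :
    ∃ t : ι → ℝ, (∀ i, ∑ l, r i l * t l = θ i) ∧ Sep K w t := by
  classical
  obtain ⟨ω0, hω⟩ := ts_step K w hw htop hdim r m hm N0 hmany θ hθ
  have hex : ∀ n : ℕ, ∃ t : ι → ℝ, (∀ l, |t l| ≤ ω0) ∧
      (∀ i, ∑ l, (⌊((n + N0 + 1 : ℕ) : ℝ) * r i l⌋ : ℝ) * t l = ((n + N0 + 1 : ℕ) : ℝ) * θ i) ∧
      Sep K w t := fun n => hω (n + N0 + 1) (by omega) (by omega)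
  choose t ht1 ht2 ht3 using hex
  have hcpt : IsCompact (Set.Icc (fun _ : ι => -ω0) (fun _ : ι => ω0)) := isCompact_Icc
  obtain ⟨t', -, φ, hφ, hlim⟩ := hcpt.tendsto_subseq (x := t) (fun n =>
    ⟨fun l => (abs_le.1 (ht1 n l)).1, fun l => (abs_le.1 (ht1 n l)).2⟩)
  have hlim' : ∀ l, Tendsto (fun n => t (φ n) l) atTop (𝓝 (t' l)) := fun l =>
    (tendsto_pi_nhds.1 hlim) l
  have hNt : Tendsto (fun n : ℕ => ((φ n + N0 + 1 : ℕ) : ℝ)) atTop atTop := by
    refine tendsto_natCast_atTop_atTop.comp ?_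
    refine tendsto_atTop_mono (fun n => ?_) hφ.tendsto_atTop
    change φ n ≤ φ n + N0 + 1
    omega
  refine ⟨t', fun i => ?_, fun S hS => ?_⟩
  · -- the limit of the equations
    have h1 : ∀ l, Tendsto (fun n : ℕ => (⌊((φ n + N0 + 1 : ℕ) : ℝ) * r i l⌋ : ℝ) /
        ((φ n + N0 + 1 : ℕ) : ℝ)) atTop (𝓝 (r i l)) := by
      intro l
      have h2 : Tendsto (fun n : ℕ => r i l - 1 / ((φ n + N0 + 1 : ℕ) : ℝ)) atTop
          (𝓝 (r i l)) := by
        have h3 : Tendsto (fun n : ℕ => 1 / ((φ n + N0 + 1 : ℕ) : ℝ)) atTop (𝓝 0) := by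
          have := tendsto_inv_atTop_zero.comp hNt
          refine this.congr fun n => ?_
          simp only [Function.comp_apply, one_div]
        simpa using tendsto_const_nhds.sub h3
      refine tendsto_of_tendsto_of_tendsto_of_le_of_le h2 tendsto_const_nhds
        (fun n => ?_) (fun n => ?_)
      · have hpos : (0 : ℝ) < ((φ n + N0 + 1 : ℕ) : ℝ) := by positivity
        change r i l - 1 / ((φ n + N0 + 1 : ℕ) : ℝ) ≤ _
        rw [le_div_iff₀ hpos, sub_mul, one_div, inv_mul_cancel₀ hpos.ne']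
        have := (Int.lt_floor_add_one (((φ n + N0 + 1 : ℕ) : ℝ) * r i l)).le
        linarith
      · have hpos : (0 : ℝ) < ((φ n + N0 + 1 : ℕ) : ℝ) := by positivity
        change _ ≤ r i l
        rw [div_le_iff₀ hpos]
        have := Int.floor_le (((φ n + N0 + 1 : ℕ) : ℝ) * r i l)
        linarith
    have h4 : Tendsto (fun n : ℕ => ∑ l, (⌊((φ n + N0 + 1 : ℕ) : ℝ) * r i l⌋ : ℝ) /
        ((φ n + N0 + 1 : ℕ) : ℝ) * t (φ n) l) atTop (𝓝 (∑ l, r i l * t' l)) :=
      tendsto_finsetSum _ fun l _ => (h1 l).mul (hlim' l)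
    have h5 : (fun n : ℕ => ∑ l, (⌊((φ n + N0 + 1 : ℕ) : ℝ) * r i l⌋ : ℝ) /
        ((φ n + N0 + 1 : ℕ) : ℝ) * t (φ n) l) = fun _ => θ i := by
      ext n
      have hpos : (0 : ℝ) < ((φ n + N0 + 1 : ℕ) : ℝ) := by positivity
      have h6 := ht2 (φ n) i
      have h7 : ∑ l, (⌊((φ n + N0 + 1 : ℕ) : ℝ) * r i l⌋ : ℝ) /
          ((φ n + N0 + 1 : ℕ) : ℝ) * t (φ n) l =
          (∑ l, (⌊((φ n + N0 + 1 : ℕ) : ℝ) * r i l⌋ : ℝ) * t (φ n) l) /
            ((φ n + N0 + 1 : ℕ) : ℝ) := by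
        rw [Finset.sum_div]
        exact Finset.sum_congr rfl fun l _ => div_mul_eq_mul_div _ _ _
      rw [h7, h6, mul_div_cancel_left₀ _ hpos.ne']
    rw [h5] at h4
    exact tendsto_nhds_unique h4 tendsto_const_nhds
  · -- different weights in the limit are different weights before
    have hpr : ∀ y : ι → ℤ, Tendsto (fun n => pr y (t (φ n))) atTop (𝓝 (pr y t')) := fun y =>
      tendsto_finsetSum _ fun l _ => tendsto_const_nhds.mul (hlim' l)
    have hev : ∀ᶠ n in atTop, ∀ y ∈ S, ∀ y' ∈ S, y ≠ y' → pr y (t (φ n)) ≠ pr y' (t (φ n)) := by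
      rw [Filter.eventually_all_finset]
      intro y hy
      rw [Filter.eventually_all_finset]
      intro y' hy'
      by_cases hyy : y = y'
      · exact Filter.Eventually.of_forall fun n h => absurd hyy h
      · have h1 : pr y t' ≠ pr y' t' := fun h => hyy (hS hy hy' h)
        have h2 := (hpr y).sub (hpr y')
        have h3 := h2.eventually_ne (sub_ne_zero.2 h1)
        filter_upwards [h3] with n hn _ h
        exact hn (sub_eq_zero.2 h)
    obtain ⟨n, hn⟩ := hev.exists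
    refine ht3 (φ n) S fun y hy y' hy' h => ?_
    by_contra hne
    exact hn y hy y' hy' hne h

end Pool.Agent.LSharp
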