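import Pool.Agent.LSharp.TSMany
import Pool.Agent.LSharp.TSLim

set_option autoImplicit false

/-! TS: theorem T* at one level. -/

namespace Pool.Agent.LSharp

open MvPolynomial Pool.Agent.CITLines Pool.Agent.Srf5

/-- Proof. `many_level` and `tstar` (with `wF_ne`, `wF_top`, `kr_wF`, `dm_wu`). -/
theorem level (K : Type) [Field K] [NumberField K] {W β M : Type} [Fintype W] [Fintype β]
    [DecidableEq β] {t : W → MvPowerSeries β K} {bs : β → W} {cls : W → M} {D : ℕ}
    (h : Lv K t bs cls D) (s : K →+* ℂ) (r : β → W × Fin 3 → ℝ)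
    (hdet : (Matrix.of fun i b => ∑ l, (r i l : ℂ) * dl s t l b).det ≠ 0) (θ : β → ℝ)
    (hθ : LinearIndependent ℚ θ) :
    ∃ x : W × Fin 3 → ℝ, (∀ i, ∑ l, r i l * x l = θ i) ∧ Sep K (wF t) x := by
  obtain ⟨m, N0, hm, hmany⟩ := many_level K h s r hdet
  refine tstar K (wF t) (wF_ne h) wF_top ?_ r m hm N0 hmany θ hθ
  rw [kr_wF]
  exact dm_wu h

end Pool.Agent.LSharp
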