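import Mathlib

set_option autoImplicit false

/-! TS: local logarithms. -/

namespace Pool.Agent.LSharp

/-- the derivative of the local logarithm -/
private noncomputable def tsD {β ι : Type} [Fintype β] (g : ι → (β → ℂ) → ℂ)
    (D : ι → (β → ℂ) →L[ℂ] ℂ) (l : ι) : (β → ℂ) →L[ℂ] ℂ := (g l 0)⁻¹ • D l

private lemma ts_strict {β ι : Type} [Fintype β]
    (g : ι → (β → ℂ) → ℂ) (D : ι → (β → ℂ) →L[ℂ] ℂ) (hg : ∀ l, HasStrictFDerivAt (g l) (D l) 0)
    (h0 : ∀ l, g l 0 ≠ 0) (l : ι) :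
    HasStrictFDerivAt (fun z => Complex.log (g l z / g l 0) + Complex.log (g l 0))
      (tsD g D l) 0 := by
  have h1 : HasStrictFDerivAt (fun z => g l z / g l 0) (tsD g D l) 0 := by
    have := (hg l).const_mul (g l 0)⁻¹
    have e : (fun z => g l z / g l 0) = fun z => (g l 0)⁻¹ * g l z := by
      funext z; rw [div_eq_mul_inv, mul_comm]
    rw [e]; exact this
  have h2 : g l 0 / g l 0 ∈ Complex.slitPlane := by
    rw [div_self (h0 l)]; exact Complex.one_mem_slitPlane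
  have h3 := (h1.clog h2).add_const (Complex.log (g l 0))
  have e : (g l 0 / g l 0)⁻¹ • tsD g D l = tsD g D l := by
    rw [div_self (h0 l), inv_one, one_smul]
  rw [e] at h3
  exact h3

private lemma ts_exp {β ι : Type} [Fintype β]
    (g : ι → (β → ℂ) → ℂ) (h0 : ∀ l, g l 0 ≠ 0) (l : ι) (z : β → ℂ) (hz : g l z ≠ 0) :
    Complex.exp (Complex.log (g l z / g l 0) + Complex.log (g l 0)) = g l z := by
  rw [Complex.exp_add, Complex.exp_log (div_ne_zero hz (h0 l)), Complex.exp_log (h0 l),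
    div_mul_cancel₀ _ (h0 l)]

private lemma ts_equiv {β ι : Type} [Fintype β] [DecidableEq β] [Fintype ι]
    (g : ι → (β → ℂ) → ℂ) (D : ι → (β → ℂ) →L[ℂ] ℂ) (r : β → ι → ℝ)
    (hdet : (Matrix.of fun i b => ∑ l, (r i l : ℂ) * D l (Pi.single b 1) / g l 0).det ≠ 0) :
    ∃ A : (β → ℂ) ≃L[ℂ] (β → ℂ), ∀ x i, A x i = ∑ l, (r i l : ℂ) * tsD g D l x := by
  set M : Matrix β β ℂ := Matrix.of fun i b => ∑ l, (r i l : ℂ) * D l (Pi.single b 1) / g l 0
    with hM
  have hu : IsUnit M.det := isUnit_iff_ne_zero.2 hdet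
  refine ⟨(Matrix.toLin'OfInv (Matrix.nonsing_inv_mul M hu)
    (Matrix.mul_nonsing_inv M hu)).toContinuousLinearEquiv, fun x i => ?_⟩
  have e1 : (Matrix.toLin'OfInv (Matrix.nonsing_inv_mul M hu)
    (Matrix.mul_nonsing_inv M hu)).toContinuousLinearEquiv x = M.mulVec x := by
    rfl
  rw [e1]
  have e2 : ∀ l, D l x = ∑ b, x b * D l (Pi.single b 1) := by
    intro l
    conv_lhs => rw [← Finset.univ_sum_single x]
    rw [map_sum]
    refine Finset.sum_congr rfl fun b _ => ?_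
    have : (Pi.single b (x b) : β → ℂ) = x b • Pi.single b (1 : ℂ) := by
      rw [← Pi.single_smul, smul_eq_mul, mul_one]
    rw [this, map_smul, smul_eq_mul]
  simp only [Matrix.mulVec, dotProduct, hM, Matrix.of_apply, tsD,
    smul_apply, smul_eq_mul, e2]
  simp only [Finset.sum_mul, Finset.mul_sum]
  rw [Finset.sum_comm]
  refine Finset.sum_congr rfl fun l _ => Finset.sum_congr rfl fun b _ => ?_
  rw [div_eq_mul_inv]; ring

/-- The local logarithms and the strict approximation, for all large `N` at once.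

Proof. `Lg l z = Complex.log (g l z / g l 0) + Complex.log (g l 0)` is strictly differentiable at `0` with
derivative `D l / g l 0` (`HasStrictFDerivAt.clog`, `g l z / g l 0` is near `1`), and `exp (Lg l z) = g l z` where
`g l z ≠ 0`. Let `A : (β → ℂ) ≃L (β → ℂ)` be the map with the invertible matrix of `hdet`
(`(A x) i = ∑ b, ∑ l, r i l * D l (e_b) / g l 0 * x b`). For `c > 0` there is `δ1 ≤ ρ` such that on the ball of
radius `δ1` all `Lg l` approximate their derivatives with constant `c'` small, so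
`Φ_N = fun z i => (1/N) ∑ l, y i l * Lg l z` satisfies
`‖Φ_N z - Φ_N z' - A (z - z')‖ ≤ (∑ l |y i l| / N) c' ‖z - z'‖ + (1/N) (∑ ‖D l / g l 0‖) ‖z - z'‖ ≤ c ‖z - z'‖`
for `N ≥ N0`. -/
theorem log_approx {β ι : Type} [Fintype β] [DecidableEq β] [Fintype ι]
    (g : ι → (β → ℂ) → ℂ) (D : ι → (β → ℂ) →L[ℂ] ℂ) (hg : ∀ l, HasStrictFDerivAt (g l) (D l) 0)
    (h0 : ∀ l, g l 0 ≠ 0) (r : β → ι → ℝ)
    (hdet : (Matrix.of fun i b => ∑ l, (r i l : ℂ) * D l (Pi.single b 1) / g l 0).det ≠ 0)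
    (ρ : ℝ) (hρ : 0 < ρ) : ∃ (A : (β → ℂ) ≃L[ℂ] (β → ℂ)) (Lg : ι → (β → ℂ) → ℂ),
      ∀ c : ℝ, 0 < c → ∃ (δ : ℝ) (N0 : ℕ), 0 < δ ∧ δ ≤ ρ ∧ 1 ≤ N0 ∧
        (∀ z ∈ Metric.ball (0 : β → ℂ) δ, ∀ l, g l z ≠ 0 ∧ Complex.exp (Lg l z) = g l z) ∧
        ∀ N : ℕ, N0 ≤ N → ∀ y : β → ι → ℤ, (∀ i l, |(y i l : ℝ) - N * r i l| ≤ 1) →
          ∀ z ∈ Metric.ball (0 : β → ℂ) δ, ∀ z' ∈ Metric.ball (0 : β → ℂ) δ,
            ‖(fun i => (1 / (N : ℂ)) * ∑ l, (y i l : ℂ) * Lg l z) -
              (fun i => (1 / (N : ℂ)) * ∑ l, (y i l : ℂ) * Lg l z') - A (z - z')‖ ≤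
              c * ‖z - z'‖ := by
  classical
  obtain ⟨A, hA⟩ := ts_equiv g D r hdet
  refine ⟨A, fun l z => Complex.log (g l z / g l 0) + Complex.log (g l 0), fun c hc => ?_⟩
  set R : ℝ := ∑ i, ∑ l, (|r i l| + 1) with hR
  have hR0 : 0 ≤ R := Finset.sum_nonneg fun i _ => Finset.sum_nonneg fun l _ => by positivity
  set S : ℝ := ∑ l, ‖tsD g D l‖ with hS
  have hS0 : 0 ≤ S := Finset.sum_nonneg fun l _ => norm_nonneg _
  set c' : ℝ := c / (2 * (R + 1)) with hc'
  have hc'0 : 0 < c' := by positivity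
  have hRc : R * c' ≤ c / 2 := by
    rw [hc', mul_div_assoc', div_le_div_iff₀ (by positivity) (by norm_num)]
    nlinarith
  have ev1 : ∀ᶠ z in nhds (0 : β → ℂ), ∀ l, g l z ≠ 0 :=
    Filter.eventually_all.2 fun l => (hg l).continuousAt.eventually_ne (h0 l)
  have ev2 : ∀ᶠ p in nhds ((0 : β → ℂ), (0 : β → ℂ)), ∀ l,
      ‖(Complex.log (g l p.1 / g l 0) + Complex.log (g l 0)) -
        (Complex.log (g l p.2 / g l 0) + Complex.log (g l 0)) - tsD g D l (p.1 - p.2)‖ ≤
        c' * ‖p.1 - p.2‖ :=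
    Filter.eventually_all.2 fun l => (ts_strict g D hg h0 l).isLittleO.def hc'0
  obtain ⟨d1, hd1, H1⟩ := Metric.eventually_nhds_iff.1 ev1
  obtain ⟨d2, hd2, H2⟩ := Metric.eventually_nhds_iff.1 ev2
  obtain ⟨N1, hN1⟩ := exists_nat_ge (2 * S / c)
  refine ⟨min ρ (min d1 d2), max 1 N1, lt_min hρ (lt_min hd1 hd2), min_le_left _ _,
    le_max_left _ _, fun z hz l => ?_, fun N hN y hy z hz z' hz' => ?_⟩
  · have hz1 : dist z 0 < d1 := lt_of_lt_of_le (Metric.mem_ball.1 hz)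
      ((min_le_right _ _).trans (min_le_left _ _))
    exact ⟨H1 hz1 l, ts_exp g h0 l z (H1 hz1 l)⟩
  · have hz1 : dist z 0 < d2 := lt_of_lt_of_le (Metric.mem_ball.1 hz)
      ((min_le_right _ _).trans (min_le_right _ _))
    have hz2 : dist z' 0 < d2 := lt_of_lt_of_le (Metric.mem_ball.1 hz')
      ((min_le_right _ _).trans (min_le_right _ _))
    have hd : dist (z, z') ((0 : β → ℂ), (0 : β → ℂ)) < d2 := by
      rw [Prod.dist_eq]; exact max_lt hz1 hz2
    have H3 := H2 hd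
    have hN1' : (1 : ℝ) ≤ N := by exact_mod_cast (le_max_left 1 N1).trans hN
    have hN0 : (0 : ℝ) < N := by linarith
    have hNc : (N : ℂ) ≠ 0 := by exact_mod_cast hN0.ne'
    have hNS : S / N ≤ c / 2 := by
      have h5 : 2 * S / c ≤ N := hN1.trans (by exact_mod_cast (le_max_right 1 N1).trans hN)
      rw [div_le_iff₀ hc] at h5
      rw [div_le_div_iff₀ hN0 (by norm_num)]
      linarith
    rw [pi_norm_le_iff_of_nonneg (by positivity)]
    intro i
    have key : ((fun i => (1 / (N : ℂ)) * ∑ l, (y i l : ℂ) *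
          (Complex.log (g l z / g l 0) + Complex.log (g l 0))) -
        (fun i => (1 / (N : ℂ)) * ∑ l, (y i l : ℂ) *
          (Complex.log (g l z' / g l 0) + Complex.log (g l 0))) - A (z - z')) i =
        ∑ l, (((y i l : ℂ) / N) * ((Complex.log (g l z / g l 0) + Complex.log (g l 0)) -
          (Complex.log (g l z' / g l 0) + Complex.log (g l 0)) - tsD g D l (z - z')) +
          ((y i l : ℂ) / N - r i l) * tsD g D l (z - z')) := by
      simp only [Pi.sub_apply, hA, Finset.mul_sum]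
      rw [← Finset.sum_sub_distrib, ← Finset.sum_sub_distrib]
      refine Finset.sum_congr rfl fun l _ => ?_
      field_simp
      ring
    rw [key]
    have hy1 : ∀ l, |(y i l : ℝ) / N - r i l| ≤ 1 / N := by
      intro l
      have e : (y i l : ℝ) / N - r i l = ((y i l : ℝ) - N * r i l) / N := by
        field_simp
      rw [e, abs_div, abs_of_pos hN0]
      exact div_le_div_of_nonneg_right (hy i l) hN0.le
    have hy2 : ∀ l, |(y i l : ℝ) / N| ≤ |r i l| + 1 := by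
      intro l
      have h6 : (1 : ℝ) / N ≤ 1 := by rw [div_le_one hN0]; exact hN1'
      have h7 := abs_sub_abs_le_abs_sub ((y i l : ℝ) / N) (r i l)
      have h8 := hy1 l
      linarith
    have n1 : ∀ l, ‖(y i l : ℂ) / N‖ ≤ |r i l| + 1 := by
      intro l
      have e : (y i l : ℂ) / N = (((y i l : ℝ) / N : ℝ) : ℂ) := by push_cast; rfl
      rw [e, Complex.norm_real, Real.norm_eq_abs]; exact hy2 l
    have n2 : ∀ l, ‖(y i l : ℂ) / N - r i l‖ ≤ 1 / N := by
      intro l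
      have e : (y i l : ℂ) / N - r i l = (((y i l : ℝ) / N - r i l : ℝ) : ℂ) := by push_cast; rfl
      rw [e, Complex.norm_real, Real.norm_eq_abs]; exact hy1 l
    have b1 : ∀ l, ‖((y i l : ℂ) / N) * ((Complex.log (g l z / g l 0) + Complex.log (g l 0)) -
          (Complex.log (g l z' / g l 0) + Complex.log (g l 0)) - tsD g D l (z - z')) +
          ((y i l : ℂ) / N - r i l) * tsD g D l (z - z')‖ ≤
        (|r i l| + 1) * (c' * ‖z - z'‖) + 1 / N * (‖tsD g D l‖ * ‖z - z'‖) := by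
      intro l
      refine (norm_add_le _ _).trans (add_le_add ?_ ?_)
      · rw [norm_mul]
        exact mul_le_mul (n1 l) (H3 l) (norm_nonneg _) (by positivity)
      · rw [norm_mul]
        exact mul_le_mul (n2 l) ((tsD g D l).le_opNorm _) (norm_nonneg _) (by positivity)
    refine (norm_sum_le _ _).trans ((Finset.sum_le_sum fun l _ => b1 l).trans ?_)
    rw [Finset.sum_add_distrib, ← Finset.sum_mul, ← Finset.mul_sum, ← Finset.sum_mul, ← hS]
    have hRi : ∑ l, (|r i l| + 1) ≤ R := by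
      rw [hR]
      exact Finset.single_le_sum (f := fun i => ∑ l, (|r i l| + 1))
        (fun i _ => Finset.sum_nonneg fun l _ => by positivity) (Finset.mem_univ i)
    have t1 : (∑ l, (|r i l| + 1)) * (c' * ‖z - z'‖) ≤ c / 2 * ‖z - z'‖ := by
      have h9 : (∑ l, (|r i l| + 1)) * c' ≤ c / 2 :=
        (mul_le_mul_of_nonneg_right hRi hc'0.le).trans hRc
      calc (∑ l, (|r i l| + 1)) * (c' * ‖z - z'‖) = (∑ l, (|r i l| + 1)) * c' * ‖z - z'‖ := by
            ring
        _ ≤ c / 2 * ‖z - z'‖ := mul_le_mul_of_nonneg_right h9 (norm_nonneg _)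
    have t2 : 1 / (N : ℝ) * (S * ‖z - z'‖) ≤ c / 2 * ‖z - z'‖ := by
      calc 1 / (N : ℝ) * (S * ‖z - z'‖) = S / N * ‖z - z'‖ := by ring
        _ ≤ c / 2 * ‖z - z'‖ := mul_le_mul_of_nonneg_right hNS (norm_nonneg _)
    linarith

end Pool.Agent.LSharp
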