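import Pool.Agent.LSharp.TSLog

set_option autoImplicit false

/-! TS: many points with the same values of the monomials. -/

namespace Pool.Agent.LSharp

/-- half of the inverse of the norm of the inverse -/
private noncomputable def tsC {β : Type} [Fintype β] (A : (β → ℂ) ≃L[ℂ] (β → ℂ)) : ℝ :=
  1 / (2 * (‖(A.symm : (β → ℂ) →L[ℂ] (β → ℂ))‖ + 1))

private lemma tsC_pos {β : Type} [Fintype β] (A : (β → ℂ) ≃L[ℂ] (β → ℂ)) : 0 < tsC A := by
  unfold tsC
  positivity

private lemma ts_surj {β : Type} [Fintype β] (A : (β → ℂ) ≃L[ℂ] (β → ℂ))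
    (F : (β → ℂ) → (β → ℂ)) (s : Set (β → ℂ))
    (hF : ∀ z ∈ s, ∀ z' ∈ s, ‖F z - F z' - A (z - z')‖ ≤ tsC A * ‖z - z'‖)
    (p : β → ℂ) (ε : ℝ) (hε : 0 ≤ ε) (hs : Metric.closedBall p ε ⊆ s) :
    Set.SurjOn F (Metric.closedBall p ε) (Metric.closedBall (F p) (tsC A * ε)) := by
  let A' : (β → ℂ) →L[ℂ] (β → ℂ) := A
  let B : (β → ℂ) →L[ℂ] (β → ℂ) := A.symm
  let c : NNReal := ⟨tsC A, (tsC_pos A).le⟩
  have h1 : ApproximatesLinearOn F A' s c := fun z hz z' hz' => hF z hz z' hz'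
  let R : A'.NonlinearRightInverse :=
    { toFun := A.symm
      nnnorm := ⟨‖B‖ + 1, by positivity⟩
      bound' := fun y => by
        refine (B.le_opNorm y).trans ?_
        have h0 : ‖B‖ ≤ ‖B‖ + 1 := by linarith
        exact mul_le_mul_of_nonneg_right h0 (norm_nonneg _)
      right_inv' := fun y => A.apply_symm_apply y }
  have h2 := h1.surjOn_closedBall_of_nonlinearRightInverse R hε hs
  have h3 : (((R.nnnorm : NNReal) : ℝ)⁻¹ - (c : ℝ)) * ε = tsC A * ε := by
    have e1 : ((R.nnnorm : NNReal) : ℝ) = ‖B‖ + 1 := rfl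
    have e2 : (c : ℝ) = 1 / (2 * (‖B‖ + 1)) := rfl
    have e3 : tsC A = 1 / (2 * (‖B‖ + 1)) := rfl
    rw [e1, e2, e3]
    have : (0 : ℝ) < ‖B‖ + 1 := by positivity
    field_simp
    ring
  rw [h3] at h2
  exact h2

private lemma ts_open {β : Type} [Fintype β] (A : (β → ℂ) ≃L[ℂ] (β → ℂ))
    (F : (β → ℂ) → (β → ℂ)) (s : Set (β → ℂ)) (hs : IsOpen s)
    (hF : ∀ z ∈ s, ∀ z' ∈ s, ‖F z - F z' - A (z - z')‖ ≤ tsC A * ‖z - z'‖) :
    IsOpen (F '' s) := by
  rw [Metric.isOpen_iff]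
  rintro _ ⟨z, hz, rfl⟩
  obtain ⟨ε, hε, h1⟩ := Metric.nhds_basis_closedBall.mem_iff.1 (hs.mem_nhds hz)
  refine ⟨tsC A * ε, mul_pos (tsC_pos A) hε, fun w hw => ?_⟩
  obtain ⟨x, hx, rfl⟩ := ts_surj A F s hF z ε hε.le h1 (Metric.ball_subset_closedBall hw)
  exact ⟨x, h1 hx, rfl⟩

private lemma ts_prod {β ι : Type} [Fintype ι] (g Lg : ι → (β → ℂ) → ℂ) (z : β → ℂ)
    (h : ∀ l, Complex.exp (Lg l z) = g l z) (y : ι → ℤ) (N : ℕ) (hN : (N : ℂ) ≠ 0) :
    ∏ l, g l z ^ y l = Complex.exp (N * ((1 / (N : ℂ)) * ∑ l, (y l : ℂ) * Lg l z)) := by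
  rw [← mul_assoc, mul_one_div_cancel hN, one_mul, Complex.exp_sum]
  refine Finset.prod_congr rfl fun l _ => ?_
  rw [Complex.exp_int_mul, h l]

/-- **Many points with the same values of the monomials, and an open set of values.**

Proof. `A, Lg` from `log_approx` and `c = 1 / (2 ‖A⁻¹‖ + 1)`, so `Φ_N` is `ApproximatesLinearOn` with
constant `c` on the ball of radius `δ1`: it is injective there, and for `p` in the ball of radius `δ1 / 2` the image of the
closed ball of radius `δ1 / 4` around `p` contains the closed ball of radius `c1 = (‖A⁻¹‖⁻¹ - c) δ1 / 4` around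
`Φ_N p` (`ApproximatesLinearOn.surjOn_closedBall_of_nonlinearRightInverse` or similar). The points
`Φ_N p + 2 π i k / N`, `k : β → ℤ`, `|k b| ≤ ⌊c1 N / (2 π)⌋`, at least `(c1 N / (2 π))^d` many, are the
images of different points `z_k` of the ball of radius `δ1 ≤ ρ`, and
`∏ l, g l z ^ y i l = exp (N (Φ_N z) i)` on the ball, so the values at `z_k` and `p` agree. The open set:
the image of a small ball around `0` under `Φ_N` contains a ball `V'`; `V = {x | x i = exp (N x' i), x' ∈ V'}` is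
open because `exp` is an open map (or has a local inverse), coordinatewise. -/
theorem lattice_points {β ι : Type} [Fintype β] [DecidableEq β] [Fintype ι]
    (g : ι → (β → ℂ) → ℂ) (D : ι → (β → ℂ) →L[ℂ] ℂ) (hg : ∀ l, HasStrictFDerivAt (g l) (D l) 0)
    (h0 : ∀ l, g l 0 ≠ 0) (r : β → ι → ℝ)
    (hdet : (Matrix.of fun i b => ∑ l, (r i l : ℂ) * D l (Pi.single b 1) / g l 0).det ≠ 0)
    (ρ : ℝ) (hρ : 0 < ρ) : ∃ (δ m : ℝ) (N0 : ℕ), 0 < δ ∧ δ ≤ ρ ∧ 0 < m ∧ 1 ≤ N0 ∧
      ∀ N : ℕ, N0 ≤ N → ∀ y : β → ι → ℤ, (∀ i l, |(y i l : ℝ) - N * r i l| ≤ 1) →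
        (∀ p : β → ℂ, ‖p‖ < δ → ∃ T : Finset (β → ℂ), m * N ^ Fintype.card β ≤ T.card ∧
          ∀ z ∈ T, ‖z‖ < ρ ∧ (∀ l, g l z ≠ 0) ∧
            ∀ i, ∏ l, g l z ^ y i l = ∏ l, g l p ^ y i l) ∧
        ∃ V : Set (β → ℂ), IsOpen V ∧ V.Nonempty ∧ ∀ x ∈ V, ∃ z : β → ℂ, ‖z‖ < ρ ∧
          (∀ l, g l z ≠ 0) ∧ ∀ i, ∏ l, g l z ^ y i l = x i := by
  classical
  obtain ⟨A, Lg, hA⟩ := log_approx g D hg h0 r hdet ρ hρ
  obtain ⟨δ, N0, hδ, hδρ, hN0, hgL, hap⟩ := hA (tsC A) (tsC_pos A)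
  set c1 : ℝ := tsC A * (δ / 4) with hc1
  have hc1pos : 0 < c1 := mul_pos (tsC_pos A) (by positivity)
  refine ⟨δ / 2, (c1 / (2 * Real.pi)) ^ Fintype.card β, N0, by positivity, by linarith,
    by positivity, hN0, fun N hN y hy => ?_⟩
  have hN1 : (1 : ℝ) ≤ N := by exact_mod_cast hN0.trans hN
  have hNpos : (0 : ℝ) < N := by linarith
  have hNc : (N : ℂ) ≠ 0 := by exact_mod_cast hNpos.ne'
  set F : (β → ℂ) → (β → ℂ) := fun z i => (1 / (N : ℂ)) * ∑ l, (y i l : ℂ) * Lg l z with hFd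
  have hF : ∀ z ∈ Metric.ball (0 : β → ℂ) δ, ∀ z' ∈ Metric.ball (0 : β → ℂ) δ,
      ‖F z - F z' - A (z - z')‖ ≤ tsC A * ‖z - z'‖ := hap N hN y hy
  have hprod : ∀ z ∈ Metric.ball (0 : β → ℂ) δ, ∀ i,
      ∏ l, g l z ^ y i l = Complex.exp (N * F z i) := fun z hz i =>
    ts_prod g Lg z (fun l => (hgL z hz l).2) (y i) N hNc
  refine ⟨fun p hp => ?_, ?_⟩
  · have hsub : Metric.closedBall p (δ / 4) ⊆ Metric.ball (0 : β → ℂ) δ := by
      intro z hz
      rw [mem_ball_zero_iff]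
      have h1 : ‖z - p‖ ≤ δ / 4 := by
        rw [← dist_eq_norm]
        exact Metric.mem_closedBall.1 hz
      have h2 : ‖z‖ ≤ ‖z - p‖ + ‖p‖ := by
        have := norm_add_le (z - p) p
        rwa [sub_add_cancel] at this
      linarith
    have hpb : p ∈ Metric.ball (0 : β → ℂ) δ := hsub (Metric.mem_closedBall_self (by positivity))
    have hsurj := ts_surj A F _ hF p (δ / 4) (by positivity) hsub
    rw [← hc1] at hsurj
    set L : ℕ := ⌊c1 * N / (2 * Real.pi)⌋₊ with hL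
    set S : Finset (β → ℕ) := Fintype.piFinset (fun _ => Finset.range (L + 1)) with hS
    let q : (β → ℕ) → (β → ℂ) := fun k i => F p i + (k i : ℂ) * (2 * Real.pi * Complex.I) / N
    have hq : ∀ k ∈ S, q k ∈ Metric.closedBall (F p) c1 := by
      intro k hk
      rw [Metric.mem_closedBall, dist_eq_norm, pi_norm_le_iff_of_nonneg hc1pos.le]
      intro i
      have hki : (k i : ℝ) ≤ c1 * N / (2 * Real.pi) := by
        have h3 : k i ≤ L := Nat.lt_succ_iff.1 (Finset.mem_range.1 (Fintype.mem_piFinset.1 hk i))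
        exact (Nat.cast_le.2 h3).trans (Nat.floor_le (by positivity))
      have e1 : (q k - F p) i = (((k i : ℝ) * (2 * Real.pi) / N : ℝ) : ℂ) * Complex.I := by
        simp only [q, Pi.sub_apply]
        push_cast
        ring
      rw [e1, norm_mul, Complex.norm_I, mul_one, Complex.norm_real, Real.norm_eq_abs,
        abs_of_nonneg (by positivity)]
      rw [div_le_iff₀ hNpos]
      rwa [le_div_iff₀ (by positivity)] at hki
    have hex : ∀ k, ∃ z, k ∈ S → z ∈ Metric.closedBall p (δ / 4) ∧ F z = q k := by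
      intro k
      by_cases hk : k ∈ S
      · obtain ⟨z, hz, hz'⟩ := hsurj (hq k hk)
        exact ⟨z, fun _ => ⟨hz, hz'⟩⟩
      · exact ⟨0, fun h => absurd h hk⟩
    choose zz hzz using hex
    have hinj : Set.InjOn zz (S : Set (β → ℕ)) := by
      intro k hk k' hk' h
      have h4 : q k = q k' := by
        rw [← (hzz k hk).2, ← (hzz k' hk').2, h]
      funext i
      have h5 := congrFun h4 i
      simp only [q] at h5
      have h6 : (k i : ℂ) * (2 * Real.pi * Complex.I) / N =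
          (k' i : ℂ) * (2 * Real.pi * Complex.I) / N := add_left_cancel h5
      have h7 : (2 * Real.pi * Complex.I : ℂ) ≠ 0 := Complex.two_pi_I_ne_zero
      have h8 : (k i : ℂ) = k' i := by
        field_simp at h6
        exact h6
      exact_mod_cast h8
    refine ⟨S.image zz, ?_, ?_⟩
    · rw [Finset.card_image_of_injOn hinj, hS, Fintype.card_piFinset]
      simp only [Finset.card_range, Finset.prod_const, Finset.card_univ]
      rw [← mul_pow]
      push_cast
      refine pow_le_pow_left₀ (by positivity) ?_ _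
      have h9 := (Nat.lt_floor_add_one (c1 * N / (2 * Real.pi))).le
      rw [← hL] at h9
      calc c1 / (2 * Real.pi) * N = c1 * N / (2 * Real.pi) := by ring
        _ ≤ L + 1 := h9
    · intro z hz
      obtain ⟨k, hk, rfl⟩ := Finset.mem_image.1 hz
      obtain ⟨hz1, hz2⟩ := hzz k hk
      have hz3 := hsub hz1
      refine ⟨lt_of_lt_of_le (mem_ball_zero_iff.1 hz3) hδρ, fun l => (hgL _ hz3 l).1,
        fun i => ?_⟩
      rw [hprod _ hz3 i, hprod _ hpb i, hz2, Complex.exp_eq_exp_iff_exists_int]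
      refine ⟨(k i : ℤ), ?_⟩
      simp only [q]
      rw [mul_add, mul_div_cancel₀ _ hNc]
      push_cast
      ring
  · refine ⟨(fun w : β → ℂ => fun i => Complex.exp (N * w i)) ''
      (F '' Metric.ball (0 : β → ℂ) δ), ?_, ?_, ?_⟩
    · have h1 : IsOpenMap (fun w : β → ℂ => fun i => Complex.exp (N * w i)) := by
        have h2 : IsOpenMap (fun w : ℂ => Complex.exp (N * w)) :=
          Complex.isOpenMap_exp.comp (Homeomorph.mulLeft₀ (N : ℂ) hNc).isOpenMap
        exact IsOpenMap.piMap (f := fun _ : β => fun w : ℂ => Complex.exp (N * w))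
          (fun _ => h2) (by simp)
      exact h1 _ (ts_open A F _ Metric.isOpen_ball hF)
    · exact ((Metric.nonempty_ball.2 hδ).image _).image _
    · rintro _ ⟨_, ⟨z, hz, rfl⟩, rfl⟩
      exact ⟨z, lt_of_lt_of_le (mem_ball_zero_iff.1 hz) hδρ, fun l => (hgL z hz l).1,
        fun i => hprod z hz i⟩

end Pool.Agent.LSharp
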