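import Pool.Agent.LSharp.TSConv

set_option autoImplicit false

/-! TS: the branch at small points. -/

namespace Pool.Agent.LSharp

open MvPolynomial Pool.Agent.CITLines Pool.Agent.Srf5

/-- The values of the units at `z`. -/
noncomputable def uz {K β W : Type} [Field K] [Algebra K ℂ] [Fintype β]
    (t : W → MvPowerSeries β K) (z : β → ℂ) (l : W × Fin 3) : ℂ :=
  evf (algebraMap K ℂ) z (un t l)

section

variable {K W β M : Type} [Field K] [Fintype W] [Fintype β] {t : W → MvPowerSeries β K}
  {bs : β → W} {cls : W → M} {D : ℕ}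

private theorem ts_const_ne (h : Lv K t bs cls D) (l : W × Fin 3) :
    MvPowerSeries.constantCoeff (un t l) ≠ 0 := by
  obtain ⟨k, i⟩ := l
  fin_cases i
  · exact h.g0 k
  · change MvPowerSeries.constantCoeff (1 - t k) ≠ 0
    rw [map_sub, map_one]
    intro h0
    exact h.g1 k (sub_eq_zero.1 h0).symm
  · change MvPowerSeries.constantCoeff (t k - 2) ≠ 0
    rw [map_sub, map_ofNat]
    intro h0
    exact h.g2 k (sub_eq_zero.1 h0)

/-- Proof. The constant coefficients of the units are not zero (`g0, g1, g2`). -/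
theorem wu_ne (h : Lv K t bs cls D) (l : W × Fin 3) : wu t l ≠ 0 := by
  intro h0
  have h1 : un t l = 0 := by
    refine IsFractionRing.injective (MvPowerSeries β K) (FractionRing (MvPowerSeries β K)) ?_
    rw [map_zero]
    exact h0
  exact ts_const_ne h l (by rw [h1, map_zero])

theorem wF_ne (h : Lv K t bs cls D) (l : W × Fin 3) : wF t l ≠ 0 := fun h0 =>
  wu_ne h l (congrArg Subtype.val h0)

theorem wF_top : IntermediateField.adjoin K (Set.range (wF t)) = ⊤ := by
  rw [eq_top_iff]
  intro x _
  have h1 : (IntermediateField.adjoin K (Set.range (wF t))).map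
      (IntermediateField.val (IntermediateField.adjoin K (Set.range (wu t)))) =
      IntermediateField.adjoin K (Set.range (wu t)) := by
    rw [IntermediateField.adjoin_map, ← Set.range_comp]
    rfl
  have h2 : (x : FractionRing (MvPowerSeries β K)) ∈
      (IntermediateField.adjoin K (Set.range (wF t))).map
      (IntermediateField.val (IntermediateField.adjoin K (Set.range (wu t)))) := by
    rw [h1]
    exact x.2
  obtain ⟨y, hy, hyx⟩ := h2
  have h3 : y = x := Subtype.ext hyx
  rw [← h3]
  exact hy

theorem kr_wF : kr K (wF t) = kr K (wu t) := by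
  ext p
  rw [mem_kr, mem_kr]
  have h1 : aeval (wu t) p =
      IntermediateField.val (IntermediateField.adjoin K (Set.range (wu t)))
        (aeval (wF t) p) := by
    rw [comp_aeval_apply]
    rfl
  rw [h1]
  constructor
  · intro h2
    rw [h2, map_zero]
  · intro h2
    exact Subtype.ext h2

private theorem ts_shift {A : Type} [CommRing A] [Algebra K A] {z : β → A} (c : β → K)
    (hz : AlgebraicIndependent K z) :
    AlgebraicIndependent K (fun b => algebraMap K A (c b) + z b) := by
  rw [algebraicIndependent_iff]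
  intro p hp
  have h1 : aeval z (aeval (fun b => (C (c b) + X b : MvPolynomial β K)) p) = 0 := by
    rw [comp_aeval_apply, ← hp]
    congr 2
    funext b
    rw [map_add, aeval_C, aeval_X]
  have h2 : aeval (fun b => (C (c b) + X b : MvPolynomial β K)) p = 0 :=
    (algebraicIndependent_iff.1 hz) _ h1
  have h3 : aeval (fun b => (X b - C (c b) : MvPolynomial β K))
      (aeval (fun b => (C (c b) + X b : MvPolynomial β K)) p) = p := by
    rw [comp_aeval_apply]
    have h4 : (fun b => (aeval fun b => (X b - C (c b) : MvPolynomial β K))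
        (C (c b) + X b : MvPolynomial β K)) = X := by
      funext b
      rw [map_add, aeval_X, aeval_C]
      exact add_sub_cancel _ _
    rw [h4, aeval_X_left_apply]
  rw [← h3, h2, map_zero]

private theorem ts_indep (h : Lv K t bs cls D) :
    AlgebraicIndependent K (fun b => wu t (bs b, 0)) := by
  have hX : AlgebraicIndependent K (fun b : β =>
      algebraMap (MvPowerSeries β K) (FractionRing (MvPowerSeries β K))
        (MvPowerSeries.X b)) := by
    have h1 := MvPolynomial.algebraicIndependent_X β K
    have hinj : Function.Injective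
        (MvPolynomial.coeToMvPowerSeries.algHom (R := K) (σ := β) K) := by
      intro p q hpq
      rw [MvPolynomial.coeToMvPowerSeries.algHom_apply,
        MvPolynomial.coeToMvPowerSeries.algHom_apply, Algebra.algebraMap_self,
        MvPowerSeries.map_id] at hpq
      exact MvPolynomial.coe_injective β K hpq
    have h2 := h1.map' hinj
    have hinj2 : Function.Injective
        (IsScalarTower.toAlgHom K (MvPowerSeries β K) (FractionRing (MvPowerSeries β K))) :=
      IsFractionRing.injective (MvPowerSeries β K) (FractionRing (MvPowerSeries β K))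
    have h3 := h2.map' hinj2
    have h4 : (fun b : β => algebraMap (MvPowerSeries β K)
        (FractionRing (MvPowerSeries β K)) (MvPowerSeries.X b)) =
        (IsScalarTower.toAlgHom K (MvPowerSeries β K) (FractionRing (MvPowerSeries β K))) ∘
          ((MvPolynomial.coeToMvPowerSeries.algHom (R := K) (σ := β) K) ∘ X) := by
      funext b
      rw [Function.comp_apply, Function.comp_apply,
        MvPolynomial.coeToMvPowerSeries.algHom_apply, Algebra.algebraMap_self,
        MvPowerSeries.map_id, MvPolynomial.coe_X]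
      rfl
    rw [h4]
    exact h3
  have h5 := ts_shift (fun b => MvPowerSeries.constantCoeff (t (bs b))) hX
  have h6 : (fun b => wu t (bs b, 0)) = fun b =>
      algebraMap K (FractionRing (MvPowerSeries β K))
        (MvPowerSeries.constantCoeff (t (bs b))) +
      algebraMap (MvPowerSeries β K) (FractionRing (MvPowerSeries β K))
        (MvPowerSeries.X b) := by
    funext b
    have h7 : wu t (bs b, 0) = algebraMap (MvPowerSeries β K)
        (FractionRing (MvPowerSeries β K)) (t (bs b)) := rfl
    rw [h7]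
    refine (congrArg (algebraMap (MvPowerSeries β K)
      (FractionRing (MvPowerSeries β K))) (h.h1 b)).trans ?_
    rw [map_add, MvPowerSeries.c_eq_algebraMap, ← IsScalarTower.algebraMap_apply]
  rw [h6]
  exact h5

/-- **The dimension.**

Proof. The `t (bs b) = c_b + X b` are algebraically independent over `K` (in the polynomial ring, so in
`MvPowerSeries`); `bs` is injective because of this too. By `h.h2` every `t k` is algebraic over the field
generated by them: in `p` the variable `none` occurs (otherwise a nonzero polynomial relation between the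
`t (bs b)`), and the leading coefficient in this variable is a nonzero polynomial in the `t (bs b)`.
`dm_kr`: the rank of the set of the units is `card β`. -/
theorem dm_wu (h : Lv K t bs cls D) : dm (kr K (wu t)) = Fintype.card β := by
  have hind := ts_indep h
  have h1 : rk K (Set.range (wu t)) = (Fintype.card β : ℕ∞) := by
    rw [← rk_range_of_indep _ hind]
    refine le_antisymm ?_ ?_
    · refine rk_le_of_algebraic ?_
      have key : ∀ k : W, IsAlgebraic (Algebra.adjoin K (Set.range fun b => wu t (bs b, 0)))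
          (wu t (k, 0)) := by
        intro k
        by_contra hcon
        have h2 := (hind.option_iff_transcendental (wu t (k, 0))).2 hcon
        obtain ⟨p, hp0, -, -, hp⟩ := h.h2 k
        refine hp0 ((algebraicIndependent_iff.1 h2) p ?_)
        have h3 : aeval (fun o : Option β => o.elim (wu t (k, 0)) (fun b => wu t (bs b, 0))) p =
            (IsScalarTower.toAlgHom K (MvPowerSeries β K) (FractionRing (MvPowerSeries β K)))
              (aeval (fun o : Option β => o.elim (t k) (fun b => t (bs b))) p) := by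
          rw [comp_aeval_apply]
          congr 2
          funext o
          cases o with
          | none => rfl
          | some b => rfl
        rw [h3, hp, map_zero]
      rintro _ ⟨⟨k, i⟩, rfl⟩
      fin_cases i
      · exact key k
      · have h4 : wu t (k, 1) = 1 - wu t (k, 0) := by
          change algebraMap (MvPowerSeries β K) (FractionRing (MvPowerSeries β K)) (1 - t k) =
            1 - algebraMap (MvPowerSeries β K) (FractionRing (MvPowerSeries β K)) (t k)
          rw [map_sub, map_one]
        change IsAlgebraic _ (wu t (k, 1))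
        rw [h4]
        exact isAlgebraic_one.sub (key k)
      · have h4 : wu t (k, 2) = wu t (k, 0) -
            algebraMap (Algebra.adjoin K (Set.range fun b => wu t (bs b, 0)))
              (FractionRing (MvPowerSeries β K)) 2 := by
          rw [map_ofNat]
          change algebraMap (MvPowerSeries β K) (FractionRing (MvPowerSeries β K)) (t k - 2) =
            algebraMap (MvPowerSeries β K) (FractionRing (MvPowerSeries β K)) (t k) - 2
          rw [map_sub, map_ofNat]
        change IsAlgebraic _ (wu t (k, 2))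
        rw [h4]
        exact (key k).sub (isAlgebraic_algebraMap _)
    · refine rk_mono ?_
      rintro _ ⟨b, rfl⟩
      exact ⟨(bs b, 0), rfl⟩
  have h2 := dm_kr (k := K) (wu t)
  rw [h1] at h2
  exact_mod_cast h2

variable [Algebra K ℂ]

/-- **Small points lie on the variety.**

Proof. `h.h3` for `algebraMap K ℂ` and `cv_of_growth` give `ρ`; `1 - t k`, `t k - 2` converge too (`cv_add`, ...).
At `z = 0` the values of the units are the constant coefficients, not zero; `uz t z l` is continuous at `0`
(`tsum` with the dominating series, or `TSDiff`: here directly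
`‖evf s z f - s (constantCoeff f)‖ ≤ (max ‖z b‖ / ρ) ∑ ‖c i‖ ρ^|i|` for `‖z b‖ ≤ ρ`), so after making `ρ`
smaller they are not zero. If `aeval (wu t) P = 0` then `aeval (un t) P = 0` and `evf_aeval` gives
`aeval (uz t z) P = 0`. -/
theorem spec_small (h : Lv K t bs cls D) : ∃ ρ : ℝ, 0 < ρ ∧
    (∀ l, Cv (algebraMap K ℂ) ρ (un t l)) ∧ ∀ z : β → ℂ, (∀ b, ‖z b‖ ≤ ρ) →
      (∀ l, uz t z l ≠ 0) ∧ kr K (wu t) ≤ kr K (uz t z) := by
  classical
  obtain ⟨C0, hC0⟩ := h.h3 (algebraMap K ℂ)
  obtain ⟨ρ0, hρ0, hcv⟩ := cv_of_growth (β := β) (algebraMap K ℂ) C0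
  have hct : ∀ k, Cv (algebraMap K ℂ) ρ0 (t k) := fun k => hcv _ (hC0 k)
  have hcu : ∀ l, Cv (algebraMap K ℂ) ρ0 (un t l) := by
    rintro ⟨k, i⟩
    fin_cases i
    · exact hct k
    · have h1 : (1 - t k : MvPowerSeries β K) =
          MvPowerSeries.C 1 + MvPowerSeries.C (-1) * t k := by
        rw [map_neg, map_one]
        ring
      change Cv (algebraMap K ℂ) ρ0 (1 - t k)
      rw [h1]
      exact cv_add _ hρ0.le (cv_C _ _ _) (cv_mul _ hρ0.le (cv_C _ _ _) (hct k))
    · have h1 : (t k - 2 : MvPowerSeries β K) = t k + MvPowerSeries.C (-2) := by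
        rw [map_neg, map_ofNat]
        ring
      change Cv (algebraMap K ℂ) ρ0 (t k - 2)
      rw [h1]
      exact cv_add _ hρ0.le (hct k) (cv_C _ _ _)
  -- the values near the origin
  have hval : ∀ (f : MvPowerSeries β K), Cv (algebraMap K ℂ) ρ0 f → ∀ ε : ℝ, 0 ≤ ε → ε ≤ 1 →
      ∀ z : β → ℂ, (∀ b, ‖z b‖ ≤ ε * ρ0) →
      ‖evf (algebraMap K ℂ) z f - algebraMap K ℂ (MvPowerSeries.constantCoeff f)‖ ≤
        ε * ∑' i : β →₀ ℕ, ‖algebraMap K ℂ (MvPowerSeries.coeff i f)‖ * ρ0 ^ i.degree := by
    intro f hf ε hε0 hε1 z hz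
    have hz0 : ∀ b, ‖z b‖ ≤ ρ0 := fun b => (hz b).trans (by nlinarith)
    have hs1 := evf_summable (algebraMap K ℂ) hf hz0
    have hs2 : Summable fun i : β →₀ ℕ =>
        algebraMap K ℂ (MvPowerSeries.coeff i f) * ∏ b, z b ^ i b := hs1.of_norm
    have hbd : ∀ i : β →₀ ℕ,
        ‖(if i = 0 then 0 else algebraMap K ℂ (MvPowerSeries.coeff i f) * ∏ b, z b ^ i b)‖ ≤
        ε * (‖algebraMap K ℂ (MvPowerSeries.coeff i f)‖ * ρ0 ^ i.degree) := by
      intro i
      by_cases hi : i = 0
      · rw [if_pos hi, norm_zero]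
        positivity
      · rw [if_neg hi, norm_mul]
        have h1 : ‖∏ b, z b ^ i b‖ ≤ (ε * ρ0) ^ i.degree := by
          rw [norm_prod, Finsupp.degree_eq_sum, ← Finset.prod_pow_eq_pow_sum]
          refine Finset.prod_le_prod (fun b _ => norm_nonneg _) (fun b _ => ?_)
          rw [norm_pow]
          exact pow_le_pow_left₀ (norm_nonneg _) (hz b) _
        have h2 : (ε * ρ0) ^ i.degree ≤ ε * ρ0 ^ i.degree := by
          rw [mul_pow]
          refine mul_le_mul_of_nonneg_right ?_ (by positivity)
          have h3 : i.degree ≠ 0 := by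
            rw [Ne, Finsupp.degree_eq_zero_iff]
            exact hi
          exact pow_le_of_le_one hε0 hε1 h3
        calc ‖algebraMap K ℂ (MvPowerSeries.coeff i f)‖ * ‖∏ b, z b ^ i b‖
            ≤ ‖algebraMap K ℂ (MvPowerSeries.coeff i f)‖ * (ε * ρ0 ^ i.degree) :=
              mul_le_mul_of_nonneg_left (h1.trans h2) (norm_nonneg _)
          _ = ε * (‖algebraMap K ℂ (MvPowerSeries.coeff i f)‖ * ρ0 ^ i.degree) := by ring
    have hsum : Summable fun i : β →₀ ℕ =>
        ε * (‖algebraMap K ℂ (MvPowerSeries.coeff i f)‖ * ρ0 ^ i.degree) :=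
      Summable.mul_left ε hf
    have h4 : evf (algebraMap K ℂ) z f - algebraMap K ℂ (MvPowerSeries.constantCoeff f) =
        ∑' i : β →₀ ℕ, (if i = 0 then 0 else
          algebraMap K ℂ (MvPowerSeries.coeff i f) * ∏ b, z b ^ i b) := by
      unfold evf
      rw [hs2.tsum_eq_add_tsum_ite 0]
      have h5 : algebraMap K ℂ (MvPowerSeries.coeff (0 : β →₀ ℕ) f) *
          ∏ b, z b ^ (0 : β →₀ ℕ) b =
          algebraMap K ℂ (MvPowerSeries.constantCoeff f) := by
        rw [MvPowerSeries.coeff_zero_eq_constantCoeff_apply]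
        simp
      rw [h5, add_sub_cancel_left]
    rw [h4, ← tsum_mul_left]
    exact tsum_of_norm_bounded hsum.hasSum hbd
  obtain ⟨ε, hε1, hε2⟩ : ∃ ε : ℝ, (0 < ε ∧ ε < 1) ∧ ∀ l : W × Fin 3,
      ε * ∑' i : β →₀ ℕ, ‖algebraMap K ℂ (MvPowerSeries.coeff i (un t l))‖ * ρ0 ^ i.degree <
        ‖algebraMap K ℂ (MvPowerSeries.constantCoeff (un t l))‖ := by
    have h1 : ∀ᶠ ε in nhdsWithin (0 : ℝ) (Set.Ioi 0), 0 < ε ∧ ε < 1 := by
      filter_upwards [Ioo_mem_nhdsGT (zero_lt_one' ℝ)] with ε hε
      exact ⟨hε.1, hε.2⟩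
    have h2 : ∀ᶠ ε in nhdsWithin (0 : ℝ) (Set.Ioi 0), ∀ l : W × Fin 3,
        ε * ∑' i : β →₀ ℕ, ‖algebraMap K ℂ (MvPowerSeries.coeff i (un t l))‖ * ρ0 ^ i.degree <
          ‖algebraMap K ℂ (MvPowerSeries.constantCoeff (un t l))‖ := by
      rw [Filter.eventually_all]
      intro l
      have h3 : 0 < ‖algebraMap K ℂ (MvPowerSeries.constantCoeff (un t l))‖ := by
        rw [norm_pos_iff]
        intro h0
        exact ts_const_ne h l ((map_eq_zero (algebraMap K ℂ)).1 h0)
      have h4 : Filter.Tendsto (fun ε : ℝ => ε *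
          ∑' i : β →₀ ℕ, ‖algebraMap K ℂ (MvPowerSeries.coeff i (un t l))‖ * ρ0 ^ i.degree)
          (nhdsWithin (0 : ℝ) (Set.Ioi 0)) (nhds 0) := by
        have h5 : Filter.Tendsto (fun ε : ℝ => ε *
            ∑' i : β →₀ ℕ, ‖algebraMap K ℂ (MvPowerSeries.coeff i (un t l))‖ *
              ρ0 ^ i.degree) (nhds 0) (nhds (0 *
            ∑' i : β →₀ ℕ, ‖algebraMap K ℂ (MvPowerSeries.coeff i (un t l))‖ *
              ρ0 ^ i.degree)) := Filter.tendsto_id.mul_const _
        rw [zero_mul] at h5
        exact h5.mono_left nhdsWithin_le_nhds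
      exact h4.eventually_lt_const h3
    exact (h1.and h2).exists
  have hερ : ε * ρ0 ≤ ρ0 := by nlinarith [hε1.1, hε1.2]
  refine ⟨ε * ρ0, mul_pos hε1.1 hρ0, fun l => cv_mono _ (mul_pos hε1.1 hρ0).le hερ (hcu l),
    fun z hz => ⟨fun l h0 => ?_, fun P hP => ?_⟩⟩
  · have h1 := hval (un t l) (hcu l) ε hε1.1.le hε1.2.le z hz
    have h2 := hε2 l
    have h3 : evf (algebraMap K ℂ) z (un t l) = 0 := h0
    rw [h3, zero_sub, norm_neg] at h1
    linarith
  · rw [mem_kr] at hP ⊢
    have h1 : aeval (un t) P = 0 := by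
      refine IsFractionRing.injective (MvPowerSeries β K)
        (FractionRing (MvPowerSeries β K)) ?_
      rw [map_zero, ← hP]
      have h2 := comp_aeval_apply (IsScalarTower.toAlgHom K (MvPowerSeries β K)
        (FractionRing (MvPowerSeries β K))) P (f := un t)
      exact h2
    have h2 := (evf_aeval (algebraMap K ℂ) hρ0.le (un t) hcu P).2 z
      (fun b => (hz b).trans hερ)
    have h3 : evf (algebraMap K ℂ) z (0 : MvPowerSeries β K) = 0 := by
      have h4 := evf_C (algebraMap K ℂ) z (0 : K)
      rw [map_zero, map_zero] at h4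
      exact h4
    rw [h1, h3] at h2
    rw [aeval_def]
    exact h2.symm

/-- The coordinates of the point.

Proof. `h.h1`, `evf_add`, `evf_C`, `evf_X`; `un t (k, 0) = t k`. -/
theorem uz_bs (h : Lv K t bs cls D) (z : β → ℂ) (b : β) :
    uz t z (bs b, 0) =
      algebraMap K ℂ (MvPowerSeries.constantCoeff (t (bs b))) + z b := by
  have h1 : uz t z (bs b, 0) = evf (algebraMap K ℂ) z (t (bs b)) := rfl
  have h2 : evf (algebraMap K ℂ) z (t (bs b)) = evf (algebraMap K ℂ) z
      (MvPowerSeries.C (MvPowerSeries.constantCoeff (t (bs b))) + MvPowerSeries.X b) :=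
    congrArg _ (h.h1 b)
  have hz : ∀ b, ‖z b‖ ≤ ∑ b', ‖z b'‖ := fun b =>
    Finset.single_le_sum (f := fun b' => ‖z b'‖) (fun _ _ => norm_nonneg _)
      (Finset.mem_univ b)
  rw [h1, h2, evf_add (algebraMap K ℂ) (cv_C _ _ _) (cv_X _ _ _) hz, evf_C, evf_X]

/-- **Generic small points are generic points of the variety.**

Proof. `kr K (wu t) ≤ kr K (uz t z)` by hypothesis, and `dm (kr K (uz t z)) ≥ card β` because the
`uz t z (bs b, 0) = c_b + z b` are algebraically independent over `K` (`card_le_dm` or `dm_kr` with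
`rk_range_of_indep`); now `dm_wu` and `dm_strictAnti`. -/
theorem kr_generic (h : Lv K t bs cls D) (z : β → ℂ) (hz : AlgebraicIndependent K z)
    (hle : kr K (wu t) ≤ kr K (uz t z)) : kr K (wu t) = kr K (uz t z) := by
  by_contra hne
  have h1 := dm_strictAnti (lt_of_le_of_ne hle hne)
  rw [dm_wu h] at h1
  have h2 := ts_shift (fun b => MvPowerSeries.constantCoeff (t (bs b))) hz
  have h3 : (Fintype.card β : ℕ∞) ≤ (dm (kr K (uz t z)) : ℕ∞) := by
    rw [dm_kr, ← rk_range_of_indep _ h2]
    refine rk_mono ?_
    rintro _ ⟨b, rfl⟩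
    exact ⟨(bs b, 0), uz_bs h z b⟩
  have h4 : Fintype.card β ≤ dm (kr K (uz t z)) := by exact_mod_cast h3
  omega

end

end Pool.Agent.LSharp
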