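import Pool.Agent.LSharp.TSDiff
import Pool.Agent.LSharp.TSPts
import Pool.Agent.LSharp.TSGen
import Pool.Agent.LSharp.TSHom
import Pool.Agent.LSharp.TSSpec

set_option autoImplicit false

/-! TS: many embeddings at one level. -/

namespace Pool.Agent.LSharp

open MvPolynomial Pool.Agent.CITLines Pool.Agent.Srf5

/-- `Srf5.spec` for polynomials in any finite set of variables. -/
private theorem ts_spec {K β ι F F' : Type} [Field K] [Fintype β] [Fintype ι] [Field F]
    [Algebra K F] [Field F'] [Algebra K F'] {w : ι → F} {P : ι → F'} (hw : ∀ i, w i ≠ 0)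
    (hP : ∀ i, P i ≠ 0) (h : kr K w ≤ kr K P) (a : β → ι → ℤ) (f : MvPolynomial β K)
    (hf : aeval (fun j => mon w (a j)) f = 0) : aeval (fun j => mon P (a j)) f = 0 := by
  have e := Fintype.equivFin β
  have e1 : ((fun j => mon w (a (e.symm j))) ∘ e) = fun j => mon w (a j) := by
    funext j
    simp
  have e2 : ((fun j => mon P (a (e.symm j))) ∘ e) = fun j => mon P (a j) := by
    funext j
    simp
  have h1 := Srf5.spec hw hP h (fun j => a (e.symm j)) (rename e f)
    (by rw [aeval_rename, e1]; exact hf)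
  rw [aeval_rename, e2] at h1
  exact h1

/-- **Many embeddings.**

Proof. Make `ℂ` a `K`-algebra by `s` (`letI := s.toAlgebra`), `ρ` from `spec_small`. Apply
`lattice_points` to `g l z = uz t z l` (`evf_strict` gives `D l`, with `D l (Pi.single b 1) = s
(coeff (single b 1) (un t l))`; `g l 0 = s (constantCoeff (un t l))` by `evf_zero`; so the matrix
is the one of `hdet`, see `dl`) and to a radius less than `ρ`; `exists_generic δ` gives `p`. Then
`kr K (wu t) = kr K (uz t p)` (`kr_generic`).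
(1) `c1 i = mon (uz t p) (y i)` are algebraically independent over `K`: let `P (c1) = 0`. By
`Srf5.spec` (with `kr K (uz t p) = kr K (wu t) ≤ kr K (uz t z)`) `P` vanishes at `(mon (uz t z) (y
i))_i` for all small `z`, so on the open set `V` of `lattice_points`, and `P = 0` by
`eq_zero_of_open`.
(2) For `z ∈ T` (`T` from `lattice_points` for `p`): `mon (uz t z) (y i) = c1 i`, so `dm (kr K (uz
t z)) ≥ card β = dm (kr K (wu t))` (`card_le_dm_mon`, `dm_wu`), so the ideals are equal (`kr_eq`)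
and `exists_hom` (with `wF_top`, `kr_wF`) gives `σ z : FF t →ₐ[K] ℂ` with `σ z (wF t l) = uz t z
l`. The `σ z` are different for different `z` (`uz_bs`), and `σ z (mon (wF t) (y i)) = c1 i`. So
`Many` holds with `T`, `C1 = ℂ`. -/
theorem many_level (K : Type) [Field K] [NumberField K] {W β M : Type} [Fintype W] [Fintype β]
    [DecidableEq β] {t : W → MvPowerSeries β K} {bs : β → W} {cls : W → M} {D : ℕ}
    (h : Lv K t bs cls D) (s : K →+* ℂ) (r : β → W × Fin 3 → ℝ)
    (hdet : (Matrix.of fun i b => ∑ l, (r i l : ℂ) * dl s t l b).det ≠ 0) :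
    ∃ (m : ℝ) (N0 : ℕ), 0 < m ∧ ∀ N : ℕ, N0 ≤ N → ∀ y : β → W × Fin 3 → ℤ,
      (∀ i l, |(y i l : ℝ) - N * r i l| ≤ 1) →
      Many K (wF t) y (m * N ^ Fintype.card β) := by
  let _ : Algebra K ℂ := s.toAlgebra
  obtain ⟨ρ, hρ, hcv, hsp⟩ := spec_small h
  have hsp' : ∀ z : β → ℂ, ‖z‖ ≤ ρ → (∀ l, uz t z l ≠ 0) ∧ kr K (wu t) ≤ kr K (uz t z) :=
    fun z hz => hsp z fun b => (norm_le_pi_norm z b).trans hz
  -- the derivatives
  have hg : ∀ l, HasStrictFDerivAt (fun z : β → ℂ => uz t z l)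
      (∑ b, s (MvPowerSeries.coeff (Finsupp.single b 1) (un t l)) •
        (ContinuousLinearMap.proj b : (β → ℂ) →L[ℂ] ℂ)) 0 := fun l => evf_strict s hρ (hcv l)
  have h0 : ∀ l, uz t (0 : β → ℂ) l ≠ 0 := (hsp' 0 (by rw [norm_zero]; exact hρ.le)).1
  have hdet' : (Matrix.of fun (i : β) (b : β) => ∑ l, (r i l : ℂ) *
      (∑ b', s (MvPowerSeries.coeff (Finsupp.single b' 1) (un t l)) •
        (ContinuousLinearMap.proj b' : (β → ℂ) →L[ℂ] ℂ)) (Pi.single b 1) /
      uz t (0 : β → ℂ) l).det ≠ 0 := by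
    have e : (Matrix.of fun (i : β) (b : β) => ∑ l, (r i l : ℂ) *
      (∑ b', s (MvPowerSeries.coeff (Finsupp.single b' 1) (un t l)) •
        (ContinuousLinearMap.proj b' : (β → ℂ) →L[ℂ] ℂ)) (Pi.single b 1) /
      uz t (0 : β → ℂ) l) = Matrix.of fun i b => ∑ l, (r i l : ℂ) * dl s t l b := by
      ext i b
      rw [Matrix.of_apply, Matrix.of_apply]
      refine Finset.sum_congr rfl fun l _ => ?_
      have e1 : (∑ b', s (MvPowerSeries.coeff (Finsupp.single b' 1) (un t l)) •
          (ContinuousLinearMap.proj b' : (β → ℂ) →L[ℂ] ℂ)) (Pi.single b 1) =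
          s (MvPowerSeries.coeff (Finsupp.single b 1) (un t l)) := by
        rw [sum_apply]
        rw [Finset.sum_eq_single b]
        · simp
        · intro b' _ hb'
          simp [hb']
        · intro hb
          exact absurd (Finset.mem_univ b) hb
      have e2 : uz t (0 : β → ℂ) l = s (MvPowerSeries.constantCoeff (un t l)) :=
        evf_zero s (un t l)
      rw [e1, e2, mul_div_assoc]
      rfl
    rw [e]
    exact hdet
  obtain ⟨δ, m, N0, hδ, hδρ, hm, -, H⟩ := lattice_points (fun l z => uz t z l) _ hg h0 r hdet' ρ hρ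
  obtain ⟨p, hp, hpi⟩ := exists_generic (K := K) (β := β) δ hδ
  obtain ⟨hpne, hple⟩ := hsp' p (hp.le.trans hδρ)
  have hkr : kr K (wu t) = kr K (uz t p) := kr_generic h p hpi hple
  refine ⟨m, N0, hm, fun N hN y hy => ?_⟩
  obtain ⟨H1, V, hV, hVne, hVz⟩ := H N hN y hy
  obtain ⟨T, hTc, hT⟩ := H1 p hp
  -- the values are algebraically independent
  have hc1 : AlgebraicIndependent K fun i => mon (uz t p) (y i) := by
    rw [algebraicIndependent_iff]
    intro P hP
    refine eq_zero_of_open P V hV hVne fun x hx => ?_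
    obtain ⟨z, hz, hzne, hzx⟩ := hVz x hx
    have h1 : kr K (uz t p) ≤ kr K (uz t z) := hkr ▸ (hsp' z hz.le).2
    have h2 := ts_spec hpne hzne h1 y P hP
    have h3 : (fun i => mon (uz t z) (y i)) = x := funext hzx
    rwa [h3] at h2
  -- the embeddings
  have hσ : ∀ z : T, ∃ σ : FF t →ₐ[K] ℂ, ∀ l, σ (wF t l) = uz t (z : β → ℂ) l := by
    rintro ⟨z, hz⟩
    obtain ⟨hz1, hz2, hz3⟩ := hT z hz
    have h3 : (fun i => mon (uz t z) (y i)) = fun i => mon (uz t p) (y i) := funext hz3
    have h4 : Fintype.card β ≤ dm (kr K (uz t z)) := card_le_dm_mon (uz t z) y (h3 ▸ hc1)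
    have h5 : kr K (wu t) = kr K (uz t z) :=
      kr_eq (wu t) (uz t z) (hsp' z hz1.le).2 (by rw [dm_wu h]; exact h4)
    exact exists_hom (wF t) wF_top (uz t z) (kr_wF.trans h5)
  choose σ hσl using hσ
  refine ⟨T, ℂ, inferInstance, inferInstance, inferInstance, σ, fun i => mon (uz t p) (y i),
    ?_, ?_, hc1, ?_⟩
  · intro z z' hzz
    refine Subtype.ext (funext fun b => ?_)
    have h1 := hσl z (bs b, 0)
    have h2 := hσl z' (bs b, 0)
    rw [hzz, h2, uz_bs h, uz_bs h] at h1
    exact (add_left_cancel h1).symm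
  · rintro ⟨z, hz⟩ i
    obtain ⟨-, -, hz3⟩ := hT z hz
    have h1 : σ ⟨z, hz⟩ (mon (wF t) (y i)) = mon (uz t z) (y i) := by
      unfold mon
      rw [map_prod]
      refine Finset.prod_congr rfl fun l _ => ?_
      rw [map_zpow₀, hσl]
    rw [h1]
    exact hz3 i
  · rw [Fintype.card_coe]
    exact hTc

end Pool.Agent.LSharp
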