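import Pool.Agent.LSharp.TSDefs
import Pool.Agent.Srf5.HilbUp
import Pool.Agent.Srf5.AMn

set_option autoImplicit false

/-! TS: the spaces of Laurent polynomials, general index set. -/

namespace Pool.Agent.LSharp

open MvPolynomial Module Pool.Agent.CITLines Pool.Agent.Srf5

section

variable {K F ι : Type} [Field K] [Field F] [Algebra K F] [Fintype ι]

private theorem tsMonReindex (w : ι → F) {m : ℕ} (e : ι ≃ Fin m) (y : ι → ℤ) :
    mon w y = mon (w ∘ e.symm) (y ∘ e.symm) := by
  unfold mon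
  exact (Equiv.prod_comp e.symm (fun l => w l ^ y l)).symm

private theorem tsMnReindex (w : ι → F) {m : ℕ} (e : ι ≃ Fin m) (N : ℕ) :
    Mn K w N = Mn K (w ∘ e.symm) N := by
  unfold Mn
  congr 1
  ext x
  constructor
  · rintro ⟨y, hy, rfl⟩
    exact ⟨y ∘ e.symm, fun i => hy _, (tsMonReindex w e y).symm⟩
  · rintro ⟨y, hy, rfl⟩
    refine ⟨y ∘ e, fun i => hy _, ?_⟩
    change mon w (y ∘ e) = mon (w ∘ e.symm) y
    rw [tsMonReindex w e]
    congr 1
    ext i
    simp

/-- Proof. Reindex by `e = Fintype.equivFin ι`: `mon w y = mon (w ∘ e.symm) (y ∘ e.symm)`, so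
`Mn K w N = Mn K (w ∘ e.symm) N`, and `dm (kr K w) = dm (kr K (w ∘ e.symm))` (`dm_kr`: both are
the rank of the same set of elements). Then `finite_Mn`, `finrank_Mn_le`. -/
theorem finrank_Mn_gen (w : ι → F) (hw : ∀ l, w l ≠ 0) :
    ∃ C : ℕ, ∀ N : ℕ, FiniteDimensional K (Mn K w N) ∧
      finrank K (Mn K w N) ≤ C * (N + 1) ^ dm (kr K w) := by
  let e := Fintype.equivFin ι
  have hd : dm (kr K w) = dm (kr K (w ∘ e.symm)) := by
    have h1 := dm_kr (k := K) w
    have h2 := dm_kr (k := K) (w ∘ e.symm)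
    rw [e.symm.surjective.range_comp w, ← h1] at h2
    exact_mod_cast h2.symm
  obtain ⟨C, hC⟩ := finrank_Mn_le (k := K) (w ∘ e.symm) (fun i => hw _)
  refine ⟨C, fun N => ?_⟩
  rw [tsMnReindex w e N, hd]
  exact ⟨finite_Mn K _ N, hC N⟩

theorem mon_mem (w : ι → F) {N : ℕ} {y : ι → ℤ} (hy : ∀ l, |y l| ≤ N) : mon w y ∈ Mn K w N :=
  Submodule.subset_span ⟨y, hy, rfl⟩

theorem mn_mono (w : ι → F) {N N' : ℕ} (h : N ≤ N') : Mn K w N ≤ Mn K w N' := by
  refine Submodule.span_mono (Set.image_mono fun e he i => (he i).trans ?_)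
  exact_mod_cast h

/-- Proof. As `Srf5.mul_mem_Mn` (`Srf5/AMn.lean`), for a general index set. -/
theorem mn_mul (w : ι → F) (hw : ∀ l, w l ≠ 0) {N N' : ℕ} {x y : F} (hx : x ∈ Mn K w N)
    (hy : y ∈ Mn K w N') : x * y ∈ Mn K w (N + N') := by
  unfold Mn at hx
  induction hx using Submodule.span_induction with
  | mem x hx =>
    obtain ⟨e, he, rfl⟩ := hx
    unfold Mn at hy
    induction hy using Submodule.span_induction with
    | mem y hy =>
      obtain ⟨e', he', rfl⟩ := hy
      change mon w e * mon w e' ∈ Mn K w (N + N')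
      rw [← mon_add' hw]
      refine mon_mem w fun i => ?_
      rw [Pi.add_apply]
      refine (abs_add_le _ _).trans ?_
      push_cast
      exact add_le_add (he i) (he' i)
    | zero => rw [mul_zero]; exact Submodule.zero_mem _
    | add u v _ _ hu hv => rw [mul_add]; exact Submodule.add_mem _ hu hv
    | smul c u _ hu => rw [mul_smul_comm]; exact Submodule.smul_mem _ _ hu
  | zero => rw [zero_mul]; exact Submodule.zero_mem _
  | add u v _ _ hu hv => rw [add_mul]; exact Submodule.add_mem _ hu hv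
  | smul c u _ hu => rw [smul_mul_assoc]; exact Submodule.smul_mem _ _ hu

/-- Proof. `Algebra.adjoin_induction`. -/
theorem adjoin_mn (w : ι → F) (hw : ∀ l, w l ≠ 0) (x : F)
    (hx : x ∈ Algebra.adjoin K (Set.range w)) : ∃ N : ℕ, x ∈ Mn K w N := by
  classical
  induction hx using Algebra.adjoin_induction with
  | mem x hx =>
    obtain ⟨l, rfl⟩ := hx
    refine ⟨1, ?_⟩
    have h1 : mon w (Pi.single l 1) = w l := by
      unfold mon
      rw [Finset.prod_eq_single l]
      · rw [Pi.single_eq_same, zpow_one]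
      · intro i _ hi
        rw [Pi.single_eq_of_ne hi, zpow_zero]
      · intro h
        exact absurd (Finset.mem_univ l) h
    rw [← h1]
    refine mon_mem w fun i => ?_
    by_cases hi : i = l
    · rw [hi, Pi.single_eq_same]
      simp
    · rw [Pi.single_eq_of_ne hi]
      simp
  | algebraMap r =>
    refine ⟨0, ?_⟩
    rw [Algebra.algebraMap_eq_smul_one, ← mon_zero w]
    exact Submodule.smul_mem _ _ (mon_mem w fun i => by simp)
  | add x y _ _ hx hy =>
    obtain ⟨N, hN⟩ := hx
    obtain ⟨N', hN'⟩ := hy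
    exact ⟨max N N', Submodule.add_mem _ (mn_mono w (le_max_left _ _) hN)
      (mn_mono w (le_max_right _ _) hN')⟩
  | mul x y _ _ hx hy =>
    obtain ⟨N, hN⟩ := hx
    obtain ⟨N', hN'⟩ := hy
    exact ⟨N + N', mn_mul w hw hN hN'⟩

/-- Linearly independent elements of `Mn K w N` are at most `finrank` many. -/
theorem card_le_finrank_mn (w : ι → F) (N : ℕ) [FiniteDimensional K (Mn K w N)] {T : Type}
    [Fintype T] (x : T → F) (hx : ∀ i, x i ∈ Mn K w N) (h : LinearIndependent K x) :
    Fintype.card T ≤ finrank K (Mn K w N) := by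
  let g : T → Mn K w N := fun i => ⟨x i, hx i⟩
  have h1 : LinearIndependent K g := by
    refine LinearIndependent.of_comp (Submodule.subtype (Mn K w N)) ?_
    exact h
  exact h1.fintype_card_le_finrank

end

end Pool.Agent.LSharp
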