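import Mathlib

set_option autoImplicit false

/-! TS: genericity with real coefficients. -/

namespace Pool.Agent.LSharp

open MvPolynomial Filter

/-- A nonzero polynomial with algebraic coefficients divides a nonzero polynomial with integer coefficients up to
evaluation.

Proof. `MvPolynomial W (AlgebraicClosure ℚ)`-style argument: `g` has coefficients in `ℂ`, algebraic over `ℚ`, so `g` is
integral over `MvPolynomial W ℚ` (each coefficient is algebraic over `ℚ`, sums and products of integral
elements). Take a monic polynomial relation `g^n + ∑ c_i g^i = 0`, `c_i` in `MvPolynomial W ℚ` (mapped to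
`MvPolynomial W ℂ`), with `n` minimal; `c_0 ≠ 0` because `MvPolynomial W ℂ` is a domain. If `g (x) = 0` then
`c_0 (x) = 0`. Clear the denominators of `c_0`. -/
theorem exists_int_poly {W : Type} [Fintype W] (g : MvPolynomial W ℂ) (hg : g ≠ 0)
    (halg : ∀ e, IsAlgebraic ℚ (coeff e g)) : ∃ f : MvPolynomial W ℤ, f ≠ 0 ∧
      ∀ x : W → ℂ, eval x g = 0 → aeval x f = 0 := by
  classical
  have h1 : Algebra.IsAlgebraic ℤ (algebraicClosure ℚ ℂ) :=
    (IsFractionRing.comap_isAlgebraic_iff (A := ℤ) (K := ℚ) (C := algebraicClosure ℚ ℂ)).2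
      (algebraicClosure.isAlgebraic ℚ ℂ)
  let S := algebraicClosure ℚ ℂ
  let g' : MvPolynomial W S := ∑ e ∈ g.support,
    monomial e ⟨coeff e g, (mem_algebraicClosure_iff).2 (halg e)⟩
  have hmap : MvPolynomial.map (algebraMap S ℂ) g' = g := by
    rw [map_sum]
    conv_rhs => rw [← support_sum_monomial_coeff g]
    refine Finset.sum_congr rfl fun e _ => ?_
    rw [map_monomial]
    rfl
  have hg' : g' ≠ 0 := by
    intro h0
    rw [h0, map_zero] at hmap
    exact hg hmap.symm
  obtain ⟨f, hf, hdvd⟩ := MvPolynomial.exists_dvd_map_of_isAlgebraic (R := ℤ) hg'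
  refine ⟨f, hf, fun x hx => ?_⟩
  have h2 : MvPolynomial.map (algebraMap S ℂ) g' ∣
      MvPolynomial.map (algebraMap S ℂ) (MvPolynomial.map (algebraMap ℤ S) f) :=
    map_dvd _ hdvd
  rw [hmap, MvPolynomial.map_map] at h2
  have h3 := map_dvd (eval x) h2
  rw [hx, zero_dvd_iff, eval_map] at h3
  rw [aeval_def, ← h3]
  congr 1

/-- **Generic algebraic points do not satisfy polynomials with real coefficients.**

Proof. Let `g ≠ 0` have real coefficients. Let `Q` be the algebraic closure of `ℚ` in `ℂ`; choose a `Q`-basis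
`b_1, .., b_n` of the `Q`-span of the coefficients of `g` (finite dimensional subspace of `ℂ`), so
`g = ∑ i, b_i g_i` with `g_i` in `MvPolynomial W ℂ` with algebraic coefficients, and some `g_i ≠ 0`. For every
number field `K`, `x : W → K` and embedding `s`: the numbers `eval (s ∘ x) g_i` are algebraic, so
`eval (s ∘ x) g = 0` implies that all of them are zero, and then `aeval (s ∘ x) f = 0` for the integer
polynomial `f` of `exists_int_poly` (for one `i` with `g_i ≠ 0`), so `aeval x f = 0` in `K` (`s` is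
injective). -/
theorem real_generic {W : Type} [Fintype W] (g : MvPolynomial W ℝ) (hg : g ≠ 0) :
    ∃ f : MvPolynomial W ℤ, f ≠ 0 ∧ ∀ (K : Type) [Field K] [NumberField K] (x : W → K)
      (s : K →+* ℂ), aeval (fun k => s (x k)) g = 0 → aeval x f = 0 := by
  classical
  obtain ⟨e₀, he₀⟩ : ∃ e, coeff e g ≠ 0 := by
    by_contra hcon
    push Not at hcon
    exact hg (MvPolynomial.ext _ _ fun e => by rw [hcon e, coeff_zero])
  have hc₀ : ((coeff e₀ g : ℝ) : ℂ) ≠ 0 := by exact_mod_cast he₀
  obtain ⟨lam, hlam⟩ : ∃ lam : Module.Dual (algebraicClosure ℚ ℂ) ℂ,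
      lam ((coeff e₀ g : ℝ) : ℂ) ≠ 0 := by
    by_contra hcon
    push Not at hcon
    exact hc₀ ((Module.forall_dual_apply_eq_zero_iff (algebraicClosure ℚ ℂ) _).1 hcon)
  let h : MvPolynomial W ℂ := ∑ e ∈ g.support,
    monomial e ((lam ((coeff e g : ℝ) : ℂ) : algebraicClosure ℚ ℂ) : ℂ)
  have hcoeff : ∀ e, coeff e h = ((lam ((coeff e g : ℝ) : ℂ) : algebraicClosure ℚ ℂ) : ℂ) := by
    intro e
    simp only [h, coeff_sum, coeff_monomial]
    rw [Finset.sum_ite_eq']
    split_ifs with hs
    · rfl
    · rw [notMem_support_iff.1 hs]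
      simp
  have hh : h ≠ 0 := by
    intro h0
    have := hcoeff e₀
    rw [h0, coeff_zero] at this
    apply hlam
    exact Subtype.ext this.symm
  obtain ⟨f, hf, hfx⟩ := exists_int_poly h hh (fun e => by
    rw [hcoeff e]
    exact mem_algebraicClosure_iff.1 (lam ((coeff e g : ℝ) : ℂ)).2)
  refine ⟨f, hf, fun K _ _ x s hx => ?_⟩
  have hq : ∀ k, s (x k) ∈ algebraicClosure ℚ ℂ := by
    intro k
    rw [mem_algebraicClosure_iff]
    have h1 : IsAlgebraic ℚ (x k) := Algebra.IsAlgebraic.isAlgebraic _
    exact h1.algHom s.toRatAlgHom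
  let q : (W →₀ ℕ) → algebraicClosure ℚ ℂ := fun e => e.prod fun k n => ⟨s (x k), hq k⟩ ^ n
  have hqe : ∀ e : W →₀ ℕ, ((q e : algebraicClosure ℚ ℂ) : ℂ) =
      e.prod fun k n => s (x k) ^ n := by
    intro e
    simp only [q, Finsupp.prod]
    push_cast
    rfl
  have hev : eval (fun k => s (x k)) h = 0 := by
    have h1 : eval (fun k => s (x k)) h =
        ((lam (aeval (fun k => s (x k)) g) : algebraicClosure ℚ ℂ) : ℂ) := by
      simp only [h, map_sum, eval_monomial]
      conv_rhs => rw [← support_sum_monomial_coeff g, map_sum, map_sum]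
      push_cast
      refine Finset.sum_congr rfl fun e _ => ?_
      rw [aeval_monomial, ← hqe e]
      have h2 : (algebraMap ℝ ℂ) (coeff e g) * (q e : ℂ) =
          (q e) • (((coeff e g : ℝ) : ℂ)) := by
        rw [mul_comm]
        rfl
      rw [h2, map_smul, smul_eq_mul, mul_comm]
      push_cast
      rfl
    rw [h1, hx, map_zero]
    rfl
  have h4 := hfx _ hev
  have h5 : s (aeval x f) = aeval (fun k => s (x k)) f := by
    have := MvPolynomial.comp_aeval_apply (R := ℤ) (f := x) s.toIntAlgHom f
    exact this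
  rw [← h5] at h4
  exact (map_eq_zero s).1 h4

end Pool.Agent.LSharp
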