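import Pool.Agent.LAll.Rado
import Pool.Agent.LSharp.TSReal

set_option autoImplicit false

/-! TS: the logarithmic derivatives of the real monomials in `R` are independent at generic points. -/

namespace Pool.Agent.LSharp

open MvPolynomial Module LAll

private theorem ts_one_sub_X {W : Type} (k : W) : (1 - X k : MvPolynomial W ℤ) ≠ 0 := by
  intro h
  have h1 := congrArg (aeval (fun _ : W => (0 : ℤ))) h
  simp at h1

private theorem ts_right_inv {W ι : Type} [Fintype W] [DecidableEq W] [Fintype ι]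
    [DecidableEq ι] (b : ι → E W) (hb : LinearIndependent ℝ b) (c : W → Fin 3)
    (hc2 : ∀ k, c k ≠ 2)
    (hc : ∀ y ∈ Submodule.span ℝ (Set.range b), y ∈ supp Finset.univ →
      (∀ m ∈ Finset.univ, al (c m) (y m) = 0) → y = 0) (v : W → ℝ)
    (hv : ∀ k, v k = if c k = 0 then 0 else 1) :
    ∃ N : Matrix W ι ℝ,
      (Matrix.of fun i k => b i k 0 * (1 - v k) - b i k 1 * v k : Matrix ι W ℝ) * N = 1 := by
  classical
  set M0 : Matrix ι W ℝ := Matrix.of fun i k => b i k 0 * (1 - v k) - b i k 1 * v k with hM0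
  have hinj : LinearMap.ker M0.vecMulLinear = ⊥ := by
    rw [LinearMap.ker_eq_bot']
    intro a ha
    have hy0 : ∑ i, a i • b i = 0 := by
      refine hc _ (Submodule.sum_mem _ fun i _ => Submodule.smul_mem _ _
        (Submodule.subset_span ⟨i, rfl⟩)) (fun k hk => absurd (Finset.mem_univ k) hk)
        (fun k _ => ?_)
      have h1 : ∑ i, a i * M0 i k = 0 := congrFun ha k
      have h2 : al (c k) ((∑ i, a i • b i) k) = ∑ i, a i * al (c k) (b i k) := by
        rw [Finset.sum_apply, map_sum]
        refine Finset.sum_congr rfl fun i _ => ?_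
        rw [Pi.smul_apply, map_smul, smul_eq_mul]
      rw [h2]
      by_cases hk : c k = 0
      · rw [← h1]
        refine Finset.sum_congr rfl fun i _ => ?_
        rw [hM0, Matrix.of_apply, hv k, if_pos hk, hk, al_zero]
        ring
      · have hk1 : c k = 1 := by
          have := hc2 k
          revert hk this
          generalize c k = z
          fin_cases z <;> simp
        rw [← neg_eq_zero, ← h1, ← Finset.sum_neg_distrib]
        refine Finset.sum_congr rfl fun i _ => ?_
        rw [hM0, Matrix.of_apply, hv k, if_neg hk, hk1, al_one]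
        ring
    exact funext fun i => Fintype.linearIndependent_iff.1 hb a hy0 i
  obtain ⟨g, hg⟩ := LinearMap.exists_leftInverse_of_injective M0.vecMulLinear hinj
  refine ⟨fun k j => g (Pi.single k 1) j, ?_⟩
  ext i j
  have h1 : g (M0.vecMulLinear (Pi.single i 1)) = Pi.single i 1 := by
    rw [← LinearMap.comp_apply, hg, LinearMap.id_apply]
  have h2 : M0.vecMulLinear (Pi.single i 1) = ∑ k, M0 i k • (Pi.single k (1 : ℝ) : W → ℝ) := by
    funext k
    simp [Finset.sum_apply, Pi.single_apply]
  rw [h2, map_sum] at h1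
  have h3 := congrFun h1 j
  rw [Finset.sum_apply] at h3
  rw [Matrix.mul_apply, Matrix.one_apply]
  rw [Pi.single_apply] at h3
  simp only [map_smul, Pi.smul_apply, smul_eq_mul] at h3
  rw [h3]
  simp [eq_comm]

/-- **Rank of the matrix of the space `R`.** `b` is a basis of a space `R` of real exponent vectors.

Proof. `LAll.rado` (with `M = univ`, `R = span b`) gives `c : W → {0, 1}` (corners) such that no `y ≠ 0` in
the span has `al (c k) (y k) = 0` for all `k`, where `al 0 y = y 0`, `al 1 y = y 1`. So the real matrix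
`(al (c k) (b i k))_{i, k}` has linearly independent rows and there is an injection `e : ι → W` such that the
square matrix `(al (c (e j)) (b i (e j)))_{i, j}` is invertible. Let `g` be the determinant of the matrix
`(b i (e j) 0 * (1 - X_(e j)) - b i (e j) 1 * X_(e j))_{i, j}` over `MvPolynomial W ℝ`. At the point
`X_k = 0` if `c k = 0`, `X_k = 1` if `c k = 1`, it is the determinant above up to sign, so `g ≠ 0`. Let `f` be
the product of the polynomial of `real_generic` for `g` and all the `X_k` and `1 - X_k`. If `aeval x f ≠ 0`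
then, with `x' k = s (x k)`, the matrix `(b i k 0 / x' k - b i k 1 / (1 - x' k))_{i, k}` has the minor
`g (x') / ∏ x' (1 - x') ≠ 0` at the columns `e j`, so its rows are linearly independent. -/
theorem rado_rank {W ι : Type} [Fintype W] [DecidableEq W] [Fintype ι] [DecidableEq ι]
    (b : ι → E W) (hb : LinearIndependent ℝ b)
    (hR : ∀ A : Finset W,
      finrank ℝ (Submodule.span ℝ (Set.range b) ⊓ supp A : Submodule ℝ (E W)) ≤ A.card) :
    ∃ f : MvPolynomial W ℤ, f ≠ 0 ∧ ∀ (K : Type) [Field K] [NumberField K] (x : W → K)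
      (s : K →+* ℂ), aeval x f ≠ 0 → LinearIndependent ℂ (fun (i : ι) (k : W) =>
        (b i k 0 : ℂ) / s (x k) - (b i k 1 : ℂ) / (1 - s (x k))) := by
  classical
  obtain ⟨c, hc2, hc⟩ := rado Finset.univ (Submodule.span ℝ (Set.range b)) (fun M' _ => hR M')
  obtain ⟨v, hv⟩ : ∃ v : W → ℝ, ∀ k, v k = if c k = 0 then 0 else 1 := ⟨_, fun _ => rfl⟩
  obtain ⟨N, hN⟩ := ts_right_inv b hb c hc2 hc v hv
  let P : Matrix ι W (MvPolynomial W ℝ) := fun i k =>
    C (b i k 0) * (1 - X k) - C (b i k 1) * X k
  let Q : Matrix ι ι (MvPolynomial W ℝ) := P * N.map (C : ℝ →+* MvPolynomial W ℝ)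
  have hQ : Q.det ≠ 0 := by
    intro h0
    have h1 : (eval v) Q.det = 0 := by rw [h0, map_zero]
    rw [RingHom.map_det] at h1
    have h2 : (eval v).mapMatrix Q =
        (Matrix.of fun i k => b i k 0 * (1 - v k) - b i k 1 * v k : Matrix ι W ℝ) * N := by
      ext i j
      simp [Q, P, Matrix.mul_apply]
    rw [h2, hN, Matrix.det_one] at h1
    exact one_ne_zero h1
  obtain ⟨f0, hf0, hf⟩ := real_generic Q.det hQ
  refine ⟨f0 * ∏ k, (X k * (1 - X k)), mul_ne_zero hf0 (Finset.prod_ne_zero_iff.2 fun k _ =>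
    mul_ne_zero (X_ne_zero k) (ts_one_sub_X k)), fun K _ _ x s hx => ?_⟩
  rw [map_mul, map_prod] at hx
  have hx1 := left_ne_zero_of_mul hx
  have hx2 := Finset.prod_ne_zero_iff.1 (right_ne_zero_of_mul hx)
  have hdet : aeval (fun k => s (x k)) Q.det ≠ 0 := fun h => hx1 (hf K x s h)
  have h0 : ∀ k, s (x k) ≠ 0 := by
    intro k hk
    refine hx2 k (Finset.mem_univ k) ?_
    have h1 : x k = 0 := (map_eq_zero s).1 hk
    rw [map_mul, aeval_X, h1, zero_mul]
  have h1 : ∀ k, 1 - s (x k) ≠ 0 := by
    intro k hk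
    refine hx2 k (Finset.mem_univ k) ?_
    have h2 : s (1 - x k) = 0 := by rw [map_sub, map_one, hk]
    have h1 : 1 - x k = 0 := (map_eq_zero s).1 h2
    rw [map_mul, map_sub, map_one, aeval_X, h1, mul_zero]
  rw [AlgHom.map_det] at hdet
  have h2 : (aeval (fun k => s (x k))).mapMatrix Q = (Matrix.of fun i k =>
      (b i k 0 : ℂ) * (1 - s (x k)) - (b i k 1 : ℂ) * s (x k) : Matrix ι W ℂ) *
        N.map (fun r : ℝ => (r : ℂ)) := by
    ext i j
    simp [Q, P, Matrix.mul_apply]
  rw [h2] at hdet
  rw [Fintype.linearIndependent_iff]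
  intro a ha
  have h3 : ∀ k, ∑ i, a i * ((b i k 0 : ℂ) * (1 - s (x k)) - (b i k 1 : ℂ) * s (x k)) = 0 := by
    intro k
    have h4 := congrFun ha k
    rw [Finset.sum_apply] at h4
    have h5 : ∑ i, a i * ((b i k 0 : ℂ) * (1 - s (x k)) - (b i k 1 : ℂ) * s (x k)) =
        (s (x k) * (1 - s (x k))) * ∑ i, (a i • fun k : W =>
          (b i k 0 : ℂ) / s (x k) - (b i k 1 : ℂ) / (1 - s (x k))) k := by
      rw [Finset.mul_sum]
      refine Finset.sum_congr rfl fun i _ => ?_
      rw [Pi.smul_apply, smul_eq_mul]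
      have := h0 k
      have := h1 k
      field_simp
    rw [h5, h4, Pi.zero_apply, mul_zero]
  have h6 : Matrix.vecMul a ((Matrix.of fun i k =>
      (b i k 0 : ℂ) * (1 - s (x k)) - (b i k 1 : ℂ) * s (x k) : Matrix ι W ℂ) *
        N.map (fun r : ℝ => (r : ℂ))) = 0 := by
    rw [← Matrix.vecMul_vecMul]
    have h7 : Matrix.vecMul a (Matrix.of fun i k =>
      (b i k 0 : ℂ) * (1 - s (x k)) - (b i k 1 : ℂ) * s (x k) : Matrix ι W ℂ) = 0 := by
      funext k
      exact h3 k
    rw [h7, Matrix.zero_vecMul]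
  exact fun i => congrFun (Matrix.eq_zero_of_vecMul_eq_zero hdet h6) i

end Pool.Agent.LSharp
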