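import Pool.Agent.LSharp.TSDefs

set_option autoImplicit false

/-! TS: real valuations, elementary facts. -/

namespace Pool.Agent.LSharp

open MvPolynomial Pool.Agent.CITLines Pool.Agent.Srf5

section

variable {K Ω : Type} [Field K] [Field Ω] [Algebra K Ω] {v : Ω → ℝ}

/-- Proof. `1 * 1 = 1`. -/
theorem rv_one (h : RV K v) : v 1 = 0 := by
  have h1 := h.mul 1 1 one_ne_zero one_ne_zero
  rw [mul_one] at h1
  linarith

theorem rv_inv (h : RV K v) {x : Ω} (hx : x ≠ 0) : v x⁻¹ = -v x := by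
  have h1 := h.mul x x⁻¹ hx (inv_ne_zero hx)
  rw [mul_inv_cancel₀ hx, rv_one h] at h1
  linarith

/-- Proof. `v (-1) = 0` (`triv`). -/
theorem rv_neg (h : RV K v) {x : Ω} (hx : x ≠ 0) : v (-x) = v x := by
  have h1 : -x = algebraMap K Ω (-1) * x := by
    rw [map_neg, map_one, neg_one_mul]
  have h2 : (-1 : K) ≠ 0 := neg_ne_zero.mpr one_ne_zero
  have h3 : algebraMap K Ω (-1) ≠ 0 := by
    rw [map_neg, map_one]
    exact neg_ne_zero.mpr one_ne_zero
  rw [h1, h.mul _ _ h3 hx, h.triv _ h2, zero_add]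

theorem rv_pow (h : RV K v) {x : Ω} (hx : x ≠ 0) (n : ℕ) : v (x ^ n) = n * v x := by
  induction n with
  | zero => simp [rv_one h]
  | succ n ih =>
    rw [pow_succ, h.mul _ _ (pow_ne_zero n hx) hx, ih]
    push_cast
    ring

theorem rv_zpow (h : RV K v) {x : Ω} (hx : x ≠ 0) (n : ℤ) : v (x ^ n) = n * v x := by
  rcases n with n | n
  · have h1 := rv_pow h hx n
    simpa using h1
  · rw [zpow_negSucc, rv_inv h (pow_ne_zero _ hx), rv_pow h hx]
    push_cast
    ring

private theorem ts_prod (h : RV K v) {ι : Type} (S : Finset ι) (x : ι → Ω)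
    (hx : ∀ s ∈ S, x s ≠ 0) : v (∏ s ∈ S, x s) = ∑ s ∈ S, v (x s) := by
  classical
  induction S using Finset.induction_on with
  | empty => simp [rv_one h]
  | insert a S ha ih =>
    have h1 : ∀ s ∈ S, x s ≠ 0 := fun s hs => hx s (Finset.mem_insert_of_mem hs)
    rw [Finset.prod_insert ha, Finset.sum_insert ha,
      h.mul _ _ (hx a (Finset.mem_insert_self a S)) (Finset.prod_ne_zero_iff.mpr h1), ih h1]

/-- Proof. `mon P y = ∏ l, P l ^ y l`, induction on the finite product. -/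
theorem rv_mon (h : RV K v) {ι : Type} [Fintype ι] (P : ι → Ω) (hP : ∀ l, P l ≠ 0) (y : ι → ℤ) :
    v (mon P y) = pr y (fun l => v (P l)) := by
  unfold mon pr
  rw [ts_prod h _ _ (fun l _ => zpow_ne_zero _ (hP l))]
  exact Finset.sum_congr rfl (fun l _ => rv_zpow h (hP l) (y l))

/-- A sum which is not zero has a summand of at most the same value.

Proof. Induction on `S`, `h.add`. -/
theorem rv_sum (h : RV K v) {ι : Type} (S : Finset ι) (x : ι → Ω) (hx : ∑ s ∈ S, x s ≠ 0) :
    ∃ s ∈ S, x s ≠ 0 ∧ v (x s) ≤ v (∑ s ∈ S, x s) := by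
  classical
  induction S using Finset.induction_on with
  | empty => exact absurd Finset.sum_empty hx
  | insert a S ha ih =>
    rw [Finset.sum_insert ha] at hx ⊢
    by_cases h0 : ∑ s ∈ S, x s = 0
    · rw [h0, add_zero] at hx ⊢
      exact ⟨a, Finset.mem_insert_self a S, hx, le_refl _⟩
    · obtain ⟨s, hs, hs0, hs1⟩ := ih h0
      by_cases ha0 : x a = 0
      · rw [ha0, zero_add]
        exact ⟨s, Finset.mem_insert_of_mem hs, hs0, hs1⟩
      · have h1 := h.add _ _ ha0 h0 hx
        rcases le_total (v (x a)) (v (∑ s ∈ S, x s)) with h2 | h2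
        · rw [min_eq_left h2] at h1
          exact ⟨a, Finset.mem_insert_self a S, ha0, h1⟩
        · rw [min_eq_right h2] at h1
          exact ⟨s, Finset.mem_insert_of_mem hs, hs0, hs1.trans h1⟩

/-- **Dominant summand.**

Proof. Let `y` be the sum of the others. If `y = 0` clear. Otherwise `v y > v (x s0)` by
`rv_sum`, so `x s0 + y ≠ 0` (otherwise `v y = v (-x s0) = v (x s0)`),
`v (x s0 + y) ≥ v (x s0)` by `h.add`, and `x s0 = (x s0 + y) + (-y)` gives
`v (x s0) ≥ min (v (x s0 + y)) (v y)`, so `v (x s0) ≥ v (x s0 + y)`. -/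
theorem rv_dom (h : RV K v) {ι : Type} (S : Finset ι) (x : ι → Ω) (s0 : ι) (hs0 : s0 ∈ S)
    (hx0 : x s0 ≠ 0) (hlt : ∀ s ∈ S, s ≠ s0 → x s ≠ 0 → v (x s0) < v (x s)) :
    ∑ s ∈ S, x s ≠ 0 ∧ v (∑ s ∈ S, x s) = v (x s0) := by
  classical
  rw [← Finset.add_sum_erase S x hs0]
  by_cases hy : ∑ s ∈ S.erase s0, x s = 0
  · rw [hy, add_zero]
    exact ⟨hx0, rfl⟩
  · obtain ⟨s, hs, hsx, hsv⟩ := rv_sum h (S.erase s0) x hy
    have h1 := hlt s (Finset.mem_of_mem_erase hs) (Finset.ne_of_mem_erase hs) hsx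
    have h2 : v (x s0) < v (∑ s ∈ S.erase s0, x s) := h1.trans_le hsv
    have h3 : x s0 + ∑ s ∈ S.erase s0, x s ≠ 0 := by
      intro h3
      have h4 : ∑ s ∈ S.erase s0, x s = -x s0 := (neg_eq_of_add_eq_zero_right h3).symm
      rw [h4, rv_neg h hx0] at h2
      exact lt_irrefl _ h2
    refine ⟨h3, le_antisymm ?_ ?_⟩
    · have h5 := h.add _ _ h3 (neg_ne_zero.mpr hy) (by rwa [add_neg_cancel_right])
      rw [add_neg_cancel_right, rv_neg h hy] at h5
      rcases min_le_iff.mp h5 with h6 | h6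
      · exact h6
      · exact absurd h6 (not_le.mpr h2)
    · have h5 := h.add _ _ hx0 hy h3
      rwa [min_eq_left h2.le] at h5

/-- **The monomials in elements with `ℚ`-linearly independent values do not cancel.**

Proof. `aeval c g = ∑ e ∈ g.support, algebraMap (coeff e g) * ∏ c i ^ e i`, the values of the
summands are `∑ e i * θ i` (`triv`), different for different `e` by `hθ`; take `s0` with minimal
value, `rv_dom`. -/
theorem rv_poly (h : RV K v) {β : Type} [Fintype β] (c : β → Ω) (hc : ∀ i, c i ≠ 0) (θ : β → ℝ)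
    (hθ : LinearIndependent ℚ θ) (hv : ∀ i, v (c i) = θ i) (g : MvPolynomial β K) (hg : g ≠ 0) :
    aeval c g ≠ 0 ∧ ∃ e ∈ g.support, v (aeval c g) = ∑ i, (e i : ℝ) * θ i := by
  classical
  have ha : aeval c g = ∑ e ∈ g.support, algebraMap K Ω (g.coeff e) * ∏ i, c i ^ e i := by
    rw [aeval_def, eval₂_eq']
  have hk : ∀ e ∈ g.support, algebraMap K Ω (g.coeff e) ≠ 0 := fun e he =>
    (map_ne_zero _).mpr (mem_support_iff.mp he)
  have hp : ∀ e : β →₀ ℕ, ∏ i, c i ^ e i ≠ 0 := fun e =>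
    Finset.prod_ne_zero_iff.mpr (fun i _ => pow_ne_zero _ (hc i))
  have hval : ∀ e ∈ g.support, v (algebraMap K Ω (g.coeff e) * ∏ i, c i ^ e i) =
      ∑ i, (e i : ℝ) * θ i := by
    intro e he
    rw [h.mul _ _ (hk e he) (hp e), h.triv _ (mem_support_iff.mp he), zero_add,
      ts_prod h _ _ (fun i _ => pow_ne_zero _ (hc i))]
    exact Finset.sum_congr rfl (fun i _ => by rw [rv_pow h (hc i), hv i])
  have hinj : ∀ e e' : β →₀ ℕ, ∑ i, (e i : ℝ) * θ i = ∑ i, (e' i : ℝ) * θ i → e = e' := by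
    intro e e' hee
    have h1 : ∑ i, ((e i : ℚ) - (e' i : ℚ)) • θ i = 0 := by
      rw [← sub_eq_zero, ← Finset.sum_sub_distrib] at hee
      rw [← hee]
      refine Finset.sum_congr rfl (fun i _ => ?_)
      rw [Rat.smul_def]
      push_cast
      ring
    have h2 := Fintype.linearIndependent_iff.mp hθ _ h1
    ext i
    have h3 := h2 i
    rw [sub_eq_zero] at h3
    exact_mod_cast h3
  obtain ⟨s0, hs0, hmin⟩ := Finset.exists_min_image g.support
    (fun e => ∑ i, (e i : ℝ) * θ i) (support_nonempty.mpr hg)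
  have hd := rv_dom h g.support (fun e => algebraMap K Ω (g.coeff e) * ∏ i, c i ^ e i) s0 hs0
    (mul_ne_zero (hk s0 hs0) (hp s0)) (by
      intro s hs hne _
      rw [hval s0 hs0, hval s hs]
      exact lt_of_le_of_ne (hmin s hs) (fun h1 => hne (hinj _ _ h1).symm))
  rw [ha]
  exact ⟨hd.1, s0, hs0, by rw [hd.2, hval s0 hs0]⟩

theorem rv_indep (h : RV K v) {β : Type} [Fintype β] (c : β → Ω) (hc : ∀ i, c i ≠ 0) (θ : β → ℝ)
    (hθ : LinearIndependent ℚ θ) (hv : ∀ i, v (c i) = θ i) : AlgebraicIndependent K c := by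
  rw [algebraicIndependent_iff]
  intro g hg
  by_contra h0
  exact (rv_poly h c hc θ hθ hv g h0).1 hg

/-- Monomials with different values are linearly independent over `K`.

Proof. `Fintype.linearIndependent_iff` or `linearIndependent_iff'`; a nontrivial relation has a
summand of smallest value, `rv_dom` (values of the `k * x s`, `k ≠ 0`, are the `v (x s)`). -/
theorem rv_linind (h : RV K v) {ι : Type} (x : ι → Ω) (hx : ∀ s, x s ≠ 0)
    (hv : Function.Injective fun s => v (x s)) : LinearIndependent K x := by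
  classical
  rw [linearIndependent_iff']
  intro S g hS
  by_contra hcon
  push Not at hcon
  obtain ⟨i, hi, hgi⟩ := hcon
  have hne : (S.filter fun j => g j ≠ 0).Nonempty :=
    ⟨i, Finset.mem_filter.mpr ⟨hi, hgi⟩⟩
  obtain ⟨s0, hs0, hmin⟩ := Finset.exists_min_image (S.filter fun j => g j ≠ 0)
    (fun j => v (x j)) hne
  have hk : ∀ j, g j ≠ 0 → algebraMap K Ω (g j) ≠ 0 := fun j hj => (map_ne_zero _).mpr hj
  have hval : ∀ j, g j ≠ 0 → v (g j • x j) = v (x j) := by
    intro j hj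
    rw [Algebra.smul_def, h.mul _ _ (hk j hj) (hx j), h.triv _ hj, zero_add]
  have hg0 := (Finset.mem_filter.mp hs0).2
  have hd := rv_dom h (S.filter fun j => g j ≠ 0) (fun j => g j • x j) s0 hs0
    (smul_ne_zero hg0 (hx s0)) (by
      intro s hs hne' _
      rw [hval s0 hg0, hval s (Finset.mem_filter.mp hs).2]
      exact lt_of_le_of_ne (hmin s hs) (fun h1 => hne' (hv h1).symm))
  apply hd.1
  rw [Finset.sum_filter_of_ne]
  · exact hS
  · intro j _ hj h0
    exact hj (by rw [h0, zero_smul])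

end

end Pool.Agent.LSharp
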