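import Pool.Agent.LSharp.TYDefs

set_option autoImplicit false

/-! TY2. Restrictions of the weights. -/

namespace Pool.Agent.LSharp

open Filter

variable {J : Type} {𝒰 : Ultrafilter J} {V : J → Type} [∀ j, Fintype (V j)]
variable {s : J → ℝ} {w f : (j : J) → V j → ℝ}

/-- There are `η, μ > 0` such that it is not true that for most `j` the mass of
`{η s w < f}` is at most `μ`; by the ultrafilter property for most `j` it is `> μ`
(`Ultrafilter.eventually_not`). Let `w' j v = w j v` if `η * s j * w j v < f j v` and `0` otherwise.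
`∑ v, w' j v` is this mass; and `NgW` for `-f` holds with `ε = η`, the bad set has `w'`-mass `0`:
if `w' j v ≠ 0` then `- f j v < - (η s w)`. -/
theorem exists_restrict (hw : ∀ j v, 0 ≤ w j v) (h : ¬ LeW 𝒰 s w f) :
    ∃ w' : (j : J) → V j → ℝ, Rw 𝒰 w w' ∧ NgW 𝒰 s w' (fun j v => -f j v) := by
  classical
  unfold LeW at h
  push Not at h
  obtain ⟨η, hη, μ, hμ, h⟩ := h
  have h1 : ∀ᶠ j in (𝒰 : Filter J), μ < ms (w j) (fun v => η * s j * w j v < f j v) := h
  refine ⟨fun j v => if η * s j * w j v < f j v then w j v else 0, ⟨?_, ?_, ?_⟩, ?_⟩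
  · intro j v
    split_ifs
    · exact hw j v
    · exact le_rfl
  · intro j v
    split_ifs
    · exact Or.inr rfl
    · exact Or.inl rfl
  · refine ⟨μ, hμ, ?_⟩
    filter_upwards [h1] with j hj
    refine hj.le.trans (le_of_eq ?_)
    unfold ms
    exact Finset.sum_congr rfl fun v _ => by congr
  · refine ⟨η, hη, fun μ' hμ' => Eventually.of_forall fun j => ?_⟩
    refine le_trans (le_of_eq ?_) hμ'.le
    unfold ms
    refine Finset.sum_eq_zero fun v _ => ?_
    simp only
    by_cases h3 : η * s j * w j v < f j v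
    · rw [if_pos h3, if_neg]
      intro h4
      linarith
    · rw [if_neg h3, ite_self]

/-- **Pigeonhole.** For most `j`: `μ ≤ ∑ v, w j v ≤ ∑ b, ms (w j) (p b j)`, so for some `b` the mass of
`p b j` is at least `μ / N`, `N` the number of the `b` (`N > 0` since `μ > 0`). By the ultrafilter property
(`Ultrafilter.eventually_exists_iff`-like, or `Filter.Eventually` over a finite union:
`Ultrafilter.finite_biUnion_mem_iff`, `Ultrafilter.eventually_or`) one `b` works for most `j`.
`w' j v = w j v` if `p b j v`, and `0` otherwise. -/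
theorem exists_pigeon (hw : ∀ j v, 0 ≤ w j v) (hp : PosW 𝒰 w) {β : Type} [Finite β]
    (p : β → (j : J) → V j → Prop)
    (h : ∀ᶠ j in (𝒰 : Filter J), ∀ v, w j v ≠ 0 → ∃ b, p b j v) :
    ∃ (b : β) (w' : (j : J) → V j → ℝ), Rw 𝒰 w w' ∧ ∀ j v, w' j v ≠ 0 → p b j v := by
  classical
  have := Fintype.ofFinite β
  obtain ⟨μ, hμ, hp⟩ := hp
  have hN : (0 : ℝ) < Fintype.card β + 1 := by positivity
  have key : ∃ b, ∀ᶠ j in (𝒰 : Filter J), μ / (Fintype.card β + 1) ≤ ms (w j) (p b j) := by
    by_contra hcon
    push Not at hcon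
    have h1 : ∀ᶠ j in (𝒰 : Filter J), ∀ b, ms (w j) (p b j) < μ / (Fintype.card β + 1) :=
      eventually_all.2 hcon
    obtain ⟨j, hj1, hj2, hj3⟩ := (h1.and (h.and hp)).exists
    have h2 : ∑ v, w j v ≤ ∑ b, ms (w j) (p b j) := by
      unfold ms
      rw [Finset.sum_comm]
      refine Finset.sum_le_sum fun v _ => ?_
      by_cases h0 : w j v = 0
      · rw [h0]
        refine Finset.sum_nonneg fun b _ => ?_
        split_ifs <;> exact le_rfl
      · obtain ⟨b, hb⟩ := hj2 v h0
        have h3 : (if p b j v then w j v else 0) ≤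
            ∑ b, if p b j v then w j v else 0 := by
          refine Finset.single_le_sum (f := fun b => if p b j v then w j v else 0)
            (fun b _ => ?_) (Finset.mem_univ b)
          split_ifs
          · exact hw j v
          · exact le_rfl
        rw [if_pos hb] at h3
        exact h3
    have h4 : ∑ b, ms (w j) (p b j) ≤ ∑ _b : β, μ / (Fintype.card β + 1) :=
      Finset.sum_le_sum fun b _ => (hj1 b).le
    rw [Finset.sum_const, Finset.card_univ, nsmul_eq_mul] at h4
    have h5 : (Fintype.card β : ℝ) * (μ / (Fintype.card β + 1)) < μ := by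
      rw [mul_div_assoc', div_lt_iff₀ hN]
      nlinarith
    linarith
  obtain ⟨b, hb⟩ := key
  refine ⟨b, fun j v => if p b j v then w j v else 0, ⟨?_, ?_, ?_⟩, ?_⟩
  · intro j v
    split_ifs
    · exact hw j v
    · exact le_rfl
  · intro j v
    split_ifs
    · exact Or.inr rfl
    · exact Or.inl rfl
  · refine ⟨μ / (Fintype.card β + 1), by positivity, ?_⟩
    filter_upwards [hb] with j hj
    refine hj.trans (le_of_eq ?_)
    unfold ms
    exact Finset.sum_congr rfl fun v _ => by congr
  · intro j v hv
    by_contra hcon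
    exact hv (if_neg hcon)

end Pool.Agent.LSharp
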