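import Pool.Agent.LSharp.TYOrd
import Pool.Agent.LSharp.TYRes

set_option autoImplicit false

/-! TY10. The inequality of Abhyankar: independent monomials and independent residues are together
algebraically independent. -/

namespace Pool.Agent.LSharp

open Filter NumberField Pool.Agent.LAll

variable {ι J : Type} [Finite ι] {𝒰 : Ultrafilter J} {P : J → Pt ι} {r s : J → ℝ}
  {w : (j : J) → (P j).V → ℝ}

/-- **Two large terms.** `∑ a ∈ t, T a = 0` with at least one term and all `T a ≠ 0`. For most `j` and all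
places `v`: let `a` be such that `lamU (T a) j v` is maximal. `T a = - ∑ b ∈ t.erase a, T b`, so by
`lamU_sum_le`, `lamU_neg` (`t.erase a` is nonempty, because `T a ≠ 0`) there is `b ≠ a` with
`lamU (T a) j v ≤ lamU (T b) j v + wt v * log N`, `N = t.card` (otherwise take for `X` the maximum of the
`lamU (T b) j v`, `b ≠ a`). -/
theorem two_large {α : Type} [DecidableEq α] (t : Finset α) (ht : t.Nonempty)
    (T : α → Ult 𝒰 (Kof P)) (hT : ∀ a ∈ t, T a ≠ 0) (h0 : ∑ a ∈ t, T a = 0) :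
    ∀ᶠ j in (𝒰 : Filter J), ∀ v : (P j).V, ∃ a ∈ t, ∃ b ∈ t, a ≠ b ∧
      |lamU (T a) j v - lamU (T b) j v| ≤ wt v * Real.log t.card := by
  have hS : ∀ a ∈ t, T a = -∑ b ∈ t.erase a, T b := by
    intro a ha
    rw [eq_neg_iff_add_eq_zero, Finset.add_sum_erase t T ha]
    exact h0
  have hS0 : ∀ a ∈ t, ∑ b ∈ t.erase a, T b ≠ 0 := by
    intro a ha h1
    apply hT a ha
    rw [hS a ha, h1, neg_zero]
  have key : ∀ a ∈ t, ∀ᶠ j in (𝒰 : Filter J), ∀ (v : (P j).V) (X : ℝ),
      (∀ b ∈ t.erase a, T b ≠ 0 → lamU (T b) j v ≤ X) →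
        lamU (T a) j v ≤ X + wt v * Real.log (t.erase a).card := by
    intro a ha
    filter_upwards [lamU_neg (∑ b ∈ t.erase a, T b), lamU_sum_le (t.erase a) T (hS0 a ha)]
      with j h1 h2 v X hX
    rw [← hS a ha] at h1
    rw [h1 v]
    exact h2 v X hX
  filter_upwards [(Filter.eventually_all_finset t).2 key] with j hj v
  obtain ⟨a, ha, hmax⟩ := Finset.exists_max_image t (fun a => lamU (T a) j v) ht
  have hne : (t.erase a).Nonempty := by
    rw [Finset.nonempty_iff_ne_empty]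
    intro h1
    exact hS0 a ha (by rw [h1, Finset.sum_empty])
  obtain ⟨b, hb, hbmax⟩ := Finset.exists_max_image (t.erase a) (fun a => lamU (T a) j v) hne
  have h1 := hj a ha v (lamU (T b) j v) (fun c hc _ => hbmax c hc)
  have hbt : b ∈ t := Finset.mem_of_mem_erase hb
  refine ⟨a, ha, b, hbt, (Finset.ne_of_mem_erase hb).symm, ?_⟩
  have h2 : lamU (T b) j v ≤ lamU (T a) j v := hmax b hbt
  have h3 : Real.log (t.erase a).card ≤ Real.log t.card := by
    refine Real.log_le_log (by exact_mod_cast hne.card_pos) ?_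
    exact_mod_cast Finset.card_le_card (Finset.erase_subset a t)
  have h4 := mul_le_mul_of_nonneg_left h3 (wt_nonneg v)
  rw [abs_of_nonneg (by linarith)]
  linarith

/-- Let `F ≠ 0` be a polynomial with `aeval (Sum.elim u z) F = 0`. Write `F` as a polynomial `F'` in the
first variables with coefficients in `MvPolynomial (Fin μ) k` (`MvPolynomial.sumAlgEquiv`,
`MvPolynomial.aeval_sumElim`...): `∑ α ∈ F'.support, c_α * u ^ α = 0` with `c_α = aeval z (F'.coeff α)`. By
`hz` all `c_α ≠ 0` and `Flat (lamU c_α)`; `T α = c_α * ∏ i, u i ^ α i ≠ 0`; the support is nonempty.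
`two_large`; `exists_pigeon` with `β` = the pairs `(α, β)`, `α ≠ β`, of elements of the support:
one pair and a restriction `w'` of `w` such that
`|lamU (T α) - lamU (T β)| ≤ wt v * log N` for most `j` on the support of `w'` (put the condition
`j` is not in the good set into the property, or restrict the weights only for the good `j`:
`p b j v := (j is good) → ...`). For most `j`:
`lamU (∏ i, u i ^ (α i - β i)) = lamU (T α) - lamU (T β) - lamU c_α + lamU c_β` (`lamU_mul`, `lamU_inv`), and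
all three parts (the first one with `leW_wt`) are `Flat` for `w'` (`Flat.restrict`, `LeW.add`, `LeW.of_le`).
This contradicts `hu` for `n = α - β ≠ 0`. -/
theorem algebraicIndependent_of_stable (h : Scl 𝒰 r s w) (hp : PosW 𝒰 w) {q μ : ℕ}
    (u : Fin q → Ult 𝒰 (Kof P)) (hu0 : ∀ i, u i ≠ 0)
    (hu : ∀ (n : Fin q → ℤ) (w' : (j : J) → (P j).V → ℝ), n ≠ 0 → Rw 𝒰 w w' →
      ¬ Flat 𝒰 s w' (lamU (∏ i, u i ^ n i)))
    (z : Fin μ → Ult 𝒰 (Kof P))
    (hz : ∀ p : MvPolynomial (Fin μ) (kf 𝒰 (Kof P) r), p ≠ 0 →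
      MvPolynomial.aeval z p ≠ 0 ∧ Flat 𝒰 s w (lamU (MvPolynomial.aeval z p))) :
    AlgebraicIndependent (kf 𝒰 (Kof P) r) (Sum.elim u z) := by
  classical
  rw [algebraicIndependent_iff]
  intro F hF
  by_contra hF0
  set φ : MvPolynomial (Fin μ) (kf 𝒰 (Kof P) r) →+* Ult 𝒰 (Kof P) :=
    (MvPolynomial.aeval z : MvPolynomial (Fin μ) (kf 𝒰 (Kof P) r) →ₐ[kf 𝒰 (Kof P) r]
      Ult 𝒰 (Kof P)).toRingHom with hφ
  have hφa : ∀ p, φ p = MvPolynomial.aeval z p := fun p => rfl
  have hev : ∀ G : MvPolynomial (Fin q ⊕ Fin μ) (kf 𝒰 (Kof P) r),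
      MvPolynomial.eval₂ φ u (MvPolynomial.sumAlgEquiv (kf 𝒰 (Kof P) r) (Fin q) (Fin μ) G) =
        MvPolynomial.aeval (Sum.elim u z) G := by
    intro G
    induction G using MvPolynomial.induction_on with
    | C a =>
      rw [MvPolynomial.sumAlgEquiv_C_inl, MvPolynomial.eval₂_C, hφa, MvPolynomial.aeval_C,
        MvPolynomial.aeval_C]
    | add p p' hp hp' => rw [map_add, MvPolynomial.eval₂_add, hp, hp', map_add]
    | mul_X p i hp =>
      rw [map_mul, MvPolynomial.eval₂_mul, hp, map_mul, MvPolynomial.aeval_X]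
      congr 1
      rcases i with i | i
      · rw [MvPolynomial.sumAlgEquiv_X_inl, MvPolynomial.eval₂_X, Sum.elim_inl]
      · rw [MvPolynomial.sumAlgEquiv_X_inr, MvPolynomial.eval₂_C, hφa, MvPolynomial.aeval_X,
          Sum.elim_inr]
  set F' := MvPolynomial.sumAlgEquiv (kf 𝒰 (Kof P) r) (Fin q) (Fin μ) F with hF'
  have hF'0 : F' ≠ 0 := by
    intro h1
    apply hF0
    rw [hF'] at h1
    exact (map_eq_zero_iff _ (MvPolynomial.sumAlgEquiv _ _ _).injective).1 h1
  have hsum := hev F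
  rw [← hF', hF, MvPolynomial.eval₂_eq'] at hsum
  set T : (Fin q →₀ ℕ) → Ult 𝒰 (Kof P) := fun d => φ (F'.coeff d) * ∏ i, u i ^ d i with hTdef
  have hc : ∀ d ∈ F'.support, φ (F'.coeff d) ≠ 0 ∧ Flat 𝒰 s w (lamU (φ (F'.coeff d))) :=
    fun d hd => hz _ (MvPolynomial.mem_support_iff.1 hd)
  have hx : ∀ d : Fin q →₀ ℕ, ∏ i, u i ^ d i ≠ 0 := fun d =>
    Finset.prod_ne_zero_iff.2 fun i _ => pow_ne_zero _ (hu0 i)
  have hT : ∀ d ∈ F'.support, T d ≠ 0 := fun d hd => mul_ne_zero (hc d hd).1 (hx d)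
  have hne : F'.support.Nonempty := by
    rw [Finset.nonempty_iff_ne_empty]
    intro h1
    exact hF'0 (MvPolynomial.support_eq_empty.1 h1)
  have htl := two_large F'.support hne T hT hsum
  obtain ⟨b, w', hr, hb⟩ := exists_pigeon h.w0 hp
    (β := {b : ↥F'.support × ↥F'.support // b.1 ≠ b.2})
    (fun b j (v : (P j).V) =>
      |lamU (T b.1.1) j v - lamU (T b.1.2) j v| ≤ wt v * Real.log F'.support.card) (by
      filter_upwards [htl] with j hj v _
      obtain ⟨a, ha, b, hb, hab, h1⟩ := hj v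
      exact ⟨⟨(⟨a, ha⟩, ⟨b, hb⟩), fun h2 => hab (congrArg Subtype.val h2)⟩, h1⟩)
  obtain ⟨⟨⟨α, hα⟩, ⟨β, hβ⟩⟩, hne'⟩ := b
  have hαβ : α ≠ β := fun h1 => hne' (Subtype.ext h1)
  simp only at hb
  have h' : Scl 𝒰 r s w' := h.mono hr
  have hn : (fun i => (α i : ℤ) - (β i : ℤ)) ≠ 0 := by
    intro h1
    apply hαβ
    ext i
    have h2 := congrFun h1 i
    simp only [Pi.zero_apply] at h2
    omega
  refine hu _ w' hn hr ?_
  have hTα := hT α hα
  have hTβ := hT β hβ
  have hcα := hc α hα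
  have hcβ := hc β hβ
  have e1 : ∏ i, u i ^ ((α i : ℤ) - (β i : ℤ)) =
      (T α * (T β)⁻¹) * ((φ (F'.coeff α))⁻¹ * φ (F'.coeff β)) := by
    have e2 : ∏ i, u i ^ ((α i : ℤ) - (β i : ℤ)) = (∏ i, u i ^ α i) * (∏ i, u i ^ β i)⁻¹ := by
      rw [← Finset.prod_inv_distrib, ← Finset.prod_mul_distrib]
      refine Finset.prod_congr rfl fun i _ => ?_
      rw [zpow_sub₀ (hu0 i), zpow_natCast, zpow_natCast, div_eq_mul_inv]
    rw [e2]
    simp only [hTdef]
    have := hcα.1
    have := hcβ.1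
    have := hx α
    have := hx β
    field_simp
  rw [e1]
  have hA : Flat 𝒰 s w' (lamU (T α * (T β)⁻¹)) := by
    have hev2 : ∀ᶠ j in (𝒰 : Filter J), ∀ v : (P j).V,
        lamU (T α * (T β)⁻¹) j v = lamU (T α) j v - lamU (T β) j v := by
      filter_upwards [lamU_mul hTα (inv_ne_zero hTβ), lamU_inv (T β)] with j h1 h2 v
      rw [h1 v, h2 v, sub_eq_add_neg]
    constructor
    · refine LeW.of_le h'.w0 (leW_wt h' (Real.log F'.support.card)) ?_
      filter_upwards [hev2] with j h1 v hv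
      rw [h1 v]
      have h2 := abs_le.1 (hb j v hv)
      linarith [h2.2]
    · refine LeW.of_le h'.w0 (leW_wt h' (Real.log F'.support.card)) ?_
      filter_upwards [hev2] with j h1 v hv
      rw [h1 v]
      have h2 := abs_le.1 (hb j v hv)
      linarith [h2.1]
  exact Flat.mulU h' (mul_ne_zero hTα (inv_ne_zero hTβ))
    (mul_ne_zero (inv_ne_zero hcα.1) hcβ.1) hA
    (Flat.mulU h' (inv_ne_zero hcα.1) hcβ.1 (Flat.invU h' (hcα.2.restrict h.w0 hr))
      (hcβ.2.restrict h.w0 hr))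

end Pool.Agent.LSharp
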