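import Mathlib

set_option autoImplicit false

/-! TY12. Counting algebraically independent elements. -/

namespace Pool.Agent.LSharp

/-- Let `E` be the algebraic closure in `L` of the field generated by `k` and the `t b`. All `x i` are in
`E`, `E` is algebraic over `k(t b)`, so its transcendence degree over `k` is at most the number of the
`t b` (a subfamily of `t` is a transcendence basis of `E`). Mathlib: `Algebra.trdeg`,
`AlgebraicIndependent.lift_cardinalMk_le_trdeg` / `AlgebraicIndependent.cardinalMk_le_trdeg`,
`exists_isTranscendenceBasis_subset`, `IsTranscendenceBasis.cardinalMk_eq`, `AlgebraicIndependent.matroid`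
(the rank in the matroid of algebraic independence: `x` is in the closure of the range of `t`). -/
theorem card_le_of_algebraic {k L α β : Type} [Field k] [Field L] [Algebra k L] [Fintype α]
    [Fintype β] (x : α → L) (hx : AlgebraicIndependent k x) (t : β → L)
    (ht : ∀ i, IsAlgebraic (Algebra.adjoin k (Set.range t)) (x i)) :
    Fintype.card α ≤ Fintype.card β := by
  have h1 : (AlgebraicIndependent.matroid k L).Indep (Set.range x) :=
    AlgebraicIndependent.matroid_indep_iff.2 hx.to_subtype_range
  have h2 : Set.range x ⊆ (AlgebraicIndependent.matroid k L).closure (Set.range t) := by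
    rw [AlgebraicIndependent.matroid_closure_eq]
    rintro _ ⟨i, rfl⟩
    exact ht i
  have h3 : (Set.range x).encard ≤ (Set.range t).encard := by
    rw [← h1.eRk_eq_encard]
    refine (Matroid.eRk_mono _ h2).trans ?_
    rw [Matroid.eRk_closure_eq]
    exact Matroid.eRk_le_encard _ _
  have h4 : (Set.range x).encard = Fintype.card α := by
    rw [← Set.image_univ, hx.injective.encard_image, Set.encard_univ, ENat.card_eq_coe_fintype_card]
  have h5 : (Set.range t).encard ≤ Fintype.card β := by
    rw [← Set.image_univ]
    refine (Set.encard_image_le _ _).trans ?_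
    rw [Set.encard_univ, ENat.card_eq_coe_fintype_card]
  rw [h4] at h3
  exact_mod_cast h3.trans h5

/-- The same for domains: pass to `FractionRing A` (`IsIntegral.map`/`IsAlgebraic` of the images over the
image algebra, `AlgebraicIndependent.map'`). -/
theorem card_le_of_integral {k A α β : Type} [Field k] [CommRing A] [IsDomain A] [Algebra k A]
    [Fintype α] [Fintype β] (x : α → A) (hx : AlgebraicIndependent k x) (t : β → A)
    (ht : ∀ i, IsIntegral (Algebra.adjoin k (Set.range t)) (x i)) :
    Fintype.card α ≤ Fintype.card β := by
  let L := FractionRing A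
  let f : A →ₐ[k] L := IsScalarTower.toAlgHom k A L
  have hf : Function.Injective f := IsFractionRing.injective A L
  refine card_le_of_algebraic (k := k) (L := L) (fun i => f (x i)) (hx.map' hf)
    (fun j => f (t j)) fun i => ?_
  have hmem : ∀ y : Algebra.adjoin k (Set.range t),
      (f.comp (Algebra.adjoin k (Set.range t)).val) y ∈
        Algebra.adjoin k (Set.range fun j => f (t j)) := by
    rintro ⟨y, hy⟩
    have h1 : f y ∈ (Algebra.adjoin k (Set.range t)).map f := ⟨y, hy, rfl⟩
    rw [AlgHom.map_adjoin, ← Set.range_comp] at h1
    exact h1
  have h2 := IsIntegral.map_of_comp_eq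
    ((f.comp (Algebra.adjoin k (Set.range t)).val).codRestrict _ hmem).toRingHom
    (f : A →+* L) (by ext y; rfl) (ht i)
  exact IsIntegral.isAlgebraic h2

/-- Closure property: elements of the field generated by `k` and a set `T`, all of whose elements are
algebraic over the algebra generated by the `t b`, are algebraic over it. (`algebraicClosure`,
`Subalgebra`/`IntermediateField.adjoin_le_iff`: the elements of `L` which are algebraic over
the domain `Algebra.adjoin k (Set.range t)` form a subfield: `IsAlgebraic.add`, `IsAlgebraic.mul`,
`IsAlgebraic.inv`.) -/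
theorem algebraic_of_mem_closure {k L β : Type} [Field k] [Field L] [Algebra k L] (t : β → L)
    (T : Set L) (hT : ∀ y ∈ T, IsAlgebraic (Algebra.adjoin k (Set.range t)) y) {y : L}
    (hy : y ∈ Subfield.closure (Set.range (algebraMap k L) ∪ T)) :
    IsAlgebraic (Algebra.adjoin k (Set.range t)) y := by
  induction hy using Subfield.closure_induction with
  | mem x hx =>
    rcases hx with ⟨c, rfl⟩ | hx
    · exact isAlgebraic_algebraMap (⟨algebraMap k L c,
        (Algebra.adjoin k (Set.range t)).algebraMap_mem c⟩ : Algebra.adjoin k (Set.range t))
    · exact hT x hx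
  | one => exact isAlgebraic_one
  | add x y _ _ hx hy => exact hx.add hy
  | neg x _ hx => exact hx.neg
  | inv x _ hx => exact hx.inv
  | mul x y _ _ hx hy => exact hx.mul hy

end Pool.Agent.LSharp
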