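import Pool.Agent.LSharp.TYTk
import Pool.Agent.LSharp.TYTrd

set_option autoImplicit false

/-! TY16. The elements of `A*` are algebraic over the transcendence basis. -/

namespace Pool.Agent.LSharp

open Filter NumberField Pool.Agent.LAll

variable {ι J : Type} [Fintype ι] [DecidableEq ι] {𝒰 : Ultrafilter J} {P : J → Pt ι}
  {r s : J → ℝ} {w : (j : J) → (P j).V → ℝ}

/-- All elements of `A*` are algebraic over the algebra generated by the `t_b`, `b ∈ BB`: the elements of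
`Ast` are in the field generated by `kf` and the `t_k`, `k ∈ W` (`mon_mem`, inverses),
`algebraic_of_mem_closure`. -/
theorem algebraic_Ast (r : J → ℝ) (W BB : Finset ι) (c : ι → Fin 3)
    (halg : ∀ k ∈ W, IsAlgebraic (Algebra.adjoin (kf 𝒰 (Kof P) r)
      (Set.range fun b : BB => tU 𝒰 P c b)) (tU 𝒰 P c k)) {ρ : ℕ}
    (g : Fin ρ → ι → Fin 2 → ℤ) (hgW : ∀ i k, k ∉ W → g i k = 0) {x : Ult 𝒰 (Kof P)}
    (hx : x ∈ Ast 𝒰 P r c W g) : IsAlgebraic (Algebra.adjoin (kf 𝒰 (Kof P) r)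
      (Set.range fun b : BB => tU 𝒰 P c b)) x := by
  have hT : ∀ y ∈ tU 𝒰 P c '' (W : Set ι), IsAlgebraic (Algebra.adjoin (kf 𝒰 (Kof P) r)
      (Set.range fun b : BB => tU 𝒰 P c b)) y := by
    rintro y ⟨k, hk, rfl⟩
    exact halg k hk
  refine algebraic_of_mem_closure (fun b : BB => tU 𝒰 P c b) (tU 𝒰 P c '' (W : Set ι)) hT ?_
  have htm : ∀ k ∈ W, tU 𝒰 P c k ∈ Subfield.closure
      (Set.range (algebraMap (kf 𝒰 (Kof P) r) (Ult 𝒰 (Kof P))) ∪ tU 𝒰 P c '' (W : Set ι)) :=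
    fun k hk => Subfield.subset_closure (Or.inr ⟨k, hk, rfl⟩)
  have hmm : ∀ i, mon 𝒰 P c (g i) ∈ Subfield.closure
      (Set.range (algebraMap (kf 𝒰 (Kof P) r) (Ult 𝒰 (Kof P))) ∪ tU 𝒰 P c '' (W : Set ι)) :=
    fun i => mon_mem c W (g i) (hgW i) _ htm
  unfold Ast at hx
  induction hx using Algebra.adjoin_induction with
  | mem y hy =>
    rcases hy with ⟨k, hk, rfl⟩ | ⟨i, rfl⟩ | ⟨i, rfl⟩
    · exact htm k hk
    · exact hmm i
    · exact inv_mem (hmm i)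
  | algebraMap a => exact Subfield.subset_closure (Or.inl ⟨a, rfl⟩)
  | add y z _ _ hy hz => exact add_mem hy hz
  | mul y z _ _ hy hz => exact mul_mem hy hz

/-- The same for the monomials in the `t_k`, `1 - t_k`, `k ∈ W`. -/
theorem algebraic_mon (r : J → ℝ) (W BB : Finset ι) (c : ι → Fin 3)
    (halg : ∀ k ∈ W, IsAlgebraic (Algebra.adjoin (kf 𝒰 (Kof P) r)
      (Set.range fun b : BB => tU 𝒰 P c b)) (tU 𝒰 P c k))
    (y : ι → Fin 2 → ℤ) (hy : ∀ k, k ∉ W → y k = 0) :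
    IsAlgebraic (Algebra.adjoin (kf 𝒰 (Kof P) r)
      (Set.range fun b : BB => tU 𝒰 P c b)) (mon 𝒰 P c y) := by
  have hT : ∀ y ∈ tU 𝒰 P c '' (W : Set ι), IsAlgebraic (Algebra.adjoin (kf 𝒰 (Kof P) r)
      (Set.range fun b : BB => tU 𝒰 P c b)) y := by
    rintro y ⟨k, hk, rfl⟩
    exact halg k hk
  refine algebraic_of_mem_closure (fun b : BB => tU 𝒰 P c b) (tU 𝒰 P c '' (W : Set ι)) hT ?_
  exact mon_mem c W y hy _ fun k hk => Subfield.subset_closure (Or.inr ⟨k, hk, rfl⟩)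

end Pool.Agent.LSharp
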