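import Pool.Agent.LSharp.TYMs

set_option autoImplicit false

/-! TY1b. Calculus of `LeW` and `NgW`. -/

namespace Pool.Agent.LSharp

open Filter

section Calc

variable {J : Type} {𝒰 : Ultrafilter J} {V : J → Type} [∀ j, Fintype (V j)]
variable {s : J → ℝ} {w w' f g : (j : J) → V j → ℝ}

/-- `ms_restrict`: where `w' j v ≠ 0`, `w' j v = w j v`. -/
theorem LeW.restrict (hw : ∀ j v, 0 ≤ w j v) (hr : Rw 𝒰 w w') (h : LeW 𝒰 s w f) :
    LeW 𝒰 s w' f := by
  intro η hη μ hμ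
  filter_upwards [h η hη μ hμ] with j hj
  refine (ms_restrict (hw j) (hr.rst j) ?_).trans hj
  intro v hv hp
  rwa [(hr.rst j v).resolve_left hv] at hp

theorem NgW.restrict (hw : ∀ j v, 0 ≤ w j v) (hr : Rw 𝒰 w w') (h : NgW 𝒰 s w f) :
    NgW 𝒰 s w' f := by
  obtain ⟨ε, hε, h⟩ := h
  refine ⟨ε, hε, fun μ hμ => ?_⟩
  filter_upwards [h μ hμ] with j hj
  refine (ms_restrict (hw j) (hr.rst j) ?_).trans hj
  intro v hv hp
  rwa [(hr.rst j v).resolve_left hv] at hp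

theorem Flat.restrict (hw : ∀ j v, 0 ≤ w j v) (hr : Rw 𝒰 w w') (h : Flat 𝒰 s w f) :
    Flat 𝒰 s w' f := ⟨h.1.restrict hw hr, h.2.restrict hw hr⟩

/-- `ms_mono`. -/
theorem LeW.of_le (hw : ∀ j v, 0 ≤ w j v) (h : LeW 𝒰 s w g)
    (hfg : ∀ᶠ j in (𝒰 : Filter J), ∀ v, w j v ≠ 0 → f j v ≤ g j v) : LeW 𝒰 s w f := by
  intro η hη μ hμ
  filter_upwards [h η hη μ hμ, hfg] with j hj h1
  exact (ms_mono (hw j) fun v hv hp => lt_of_lt_of_le hp (h1 v hv)).trans hj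

theorem NgW.of_le (hw : ∀ j v, 0 ≤ w j v) (h : NgW 𝒰 s w g)
    (hfg : ∀ᶠ j in (𝒰 : Filter J), ∀ v, w j v ≠ 0 → f j v ≤ g j v) : NgW 𝒰 s w f := by
  obtain ⟨ε, hε, h⟩ := h
  refine ⟨ε, hε, fun μ hμ => ?_⟩
  filter_upwards [h μ hμ, hfg] with j hj h1
  exact (ms_mono (hw j) fun v hv hp => lt_of_lt_of_le hp (h1 v hv)).trans hj

/-- `{η s w < f + g} ⊆ {η/2 s w < f} ∪ {η/2 s w < g}` (`ms_or_le` with `μ/2` and `μ/2`). -/
theorem LeW.add (hw : ∀ j v, 0 ≤ w j v) (h : LeW 𝒰 s w f) (h' : LeW 𝒰 s w g) :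
    LeW 𝒰 s w (fun j v => f j v + g j v) := by
  intro η hη μ hμ
  filter_upwards [h (η / 2) (half_pos hη) (μ / 2) (half_pos hμ),
    h' (η / 2) (half_pos hη) (μ / 2) (half_pos hμ)] with j h1 h2
  refine (ms_or_le (hw j) (q := fun v => η / 2 * s j * w j v < f j v)
    (r := fun v => η / 2 * s j * w j v < g j v) ?_).trans (by linarith)
  intro v _ hp
  by_contra hc
  rw [not_or, not_lt, not_lt] at hc
  have h3 : η * s j * w j v = η / 2 * s j * w j v + η / 2 * s j * w j v := by ring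
  linarith [hc.1, hc.2]

theorem LeW.max (hw : ∀ j v, 0 ≤ w j v) (h : LeW 𝒰 s w f) (h' : LeW 𝒰 s w g) :
    LeW 𝒰 s w (fun j v => Max.max (f j v) (g j v)) := by
  intro η hη μ hμ
  filter_upwards [h η hη (μ / 2) (half_pos hμ), h' η hη (μ / 2) (half_pos hμ)] with j h1 h2
  refine (ms_or_le (hw j) (q := fun v => η * s j * w j v < f j v)
    (r := fun v => η * s j * w j v < g j v) ?_).trans (by linarith)
  intro v _ hp
  exact lt_max_iff.1 hp

/-- `0 ≤ a`: for `a = 0` the bad set is empty (`s, w ≥ 0`), for `a > 0` use `η / a`. -/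
theorem LeW.smul (hs : ∀ j, 0 ≤ s j) (hw : ∀ j v, 0 ≤ w j v) (h : LeW 𝒰 s w f) {a : ℝ}
    (ha : 0 ≤ a) : LeW 𝒰 s w (fun j v => a * f j v) := by
  intro η hη μ hμ
  rcases ha.eq_or_lt with rfl | ha'
  · refine Filter.Eventually.of_forall fun j => ?_
    refine (ms_mono (hw j) (q := fun _ => False) ?_).trans ?_
    · intro v _ hp
      have hp' : η * s j * w j v < 0 * f j v := hp
      rw [zero_mul] at hp'
      exact absurd hp' (not_lt.2 (mul_nonneg (mul_nonneg hη.le (hs j)) (hw j v)))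
    · have h0 : ms (w j) (fun _ => False) = 0 := by
        unfold ms
        simp
      rw [h0]
      exact hμ.le
  · filter_upwards [h (η / a) (div_pos hη ha') μ hμ] with j hj
    refine (ms_mono (hw j) ?_).trans hj
    intro v _ hp
    have h1 : η / a * s j * w j v = η * s j * w j v / a := by ring
    rw [h1, div_lt_iff₀ ha', mul_comm (f j v)]
    exact hp

/-- **Markov**: on the bad set `w < f / (η s)`, so its mass is at most
`∑ |f| / (η s) ≤ κ / η = μ` for `κ = η μ`. -/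
theorem LeW.of_sum (hs : ∀ j, 0 < s j) (hw : ∀ j v, 0 ≤ w j v)
    (h : ∀ κ : ℝ, 0 < κ → ∀ᶠ j in (𝒰 : Filter J), ∑ v, |f j v| ≤ κ * s j) : LeW 𝒰 s w f := by
  intro η hη μ hμ
  filter_upwards [h (η * μ) (mul_pos hη hμ)] with j hj
  have hη' : 0 < η * s j := mul_pos hη (hs j)
  have h1 : ms (w j) (fun v => η * s j * w j v < f j v) ≤ ∑ v, |f j v| / (η * s j) := by
    unfold ms
    refine Finset.sum_le_sum fun v _ => ?_
    split_ifs with hp
    · rw [le_div_iff₀ hη', mul_comm]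
      exact hp.le.trans (le_abs_self _)
    · exact div_nonneg (abs_nonneg _) hη'.le
  refine h1.trans ?_
  rw [← Finset.sum_div, div_le_iff₀ hη']
  refine hj.trans (le_of_eq ?_)
  ring

/-- With `ε / 2`: `{- ε/2 s w < f + g} ⊆ {- ε s w < f} ∪ {ε/2 s w < g}`. -/
theorem NgW.add (hw : ∀ j v, 0 ≤ w j v) (h : NgW 𝒰 s w f) (h' : LeW 𝒰 s w g) :
    NgW 𝒰 s w (fun j v => f j v + g j v) := by
  obtain ⟨ε, hε, h⟩ := h
  refine ⟨ε / 2, half_pos hε, fun μ hμ => ?_⟩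
  filter_upwards [h (μ / 2) (half_pos hμ), h' (ε / 2) (half_pos hε) (μ / 2) (half_pos hμ)]
    with j h1 h2
  refine (ms_or_le (hw j) (q := fun v => -(ε * s j * w j v) < f j v)
    (r := fun v => ε / 2 * s j * w j v < g j v) ?_).trans (by linarith)
  intro v _ hp
  by_contra hc
  rw [not_or, not_lt, not_lt] at hc
  have h3 : ε * s j * w j v = ε / 2 * s j * w j v + ε / 2 * s j * w j v := by ring
  linarith [hc.1, hc.2]

/-- With the smaller `ε`. -/
theorem NgW.max (hs : ∀ j, 0 ≤ s j) (hw : ∀ j v, 0 ≤ w j v) (h : NgW 𝒰 s w f)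
    (h' : NgW 𝒰 s w g) : NgW 𝒰 s w (fun j v => Max.max (f j v) (g j v)) := by
  obtain ⟨ε₁, hε₁, h⟩ := h
  obtain ⟨ε₂, hε₂, h'⟩ := h'
  refine ⟨min ε₁ ε₂, lt_min hε₁ hε₂, fun μ hμ => ?_⟩
  filter_upwards [h (μ / 2) (half_pos hμ), h' (μ / 2) (half_pos hμ)] with j h1 h2
  refine (ms_or_le (hw j) (q := fun v => -(ε₁ * s j * w j v) < f j v)
    (r := fun v => -(ε₂ * s j * w j v) < g j v) ?_).trans (by linarith)
  intro v _ hp
  have h0 : 0 ≤ s j * w j v := mul_nonneg (hs j) (hw j v)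
  have h3 := mul_le_mul_of_nonneg_right (min_le_left ε₁ ε₂) h0
  have h4 := mul_le_mul_of_nonneg_right (min_le_right ε₁ ε₂) h0
  rw [← mul_assoc, ← mul_assoc] at h3 h4
  rcases lt_max_iff.1 hp with h5 | h5
  · exact Or.inl (by linarith)
  · exact Or.inr (by linarith)

theorem NgW.leW (hs : ∀ j, 0 ≤ s j) (hw : ∀ j v, 0 ≤ w j v) (h : NgW 𝒰 s w f) :
    LeW 𝒰 s w f := by
  obtain ⟨ε, hε, h⟩ := h
  intro η hη μ hμ
  filter_upwards [h μ hμ] with j hj
  refine (ms_mono (hw j) ?_).trans hj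
  intro v _ hp
  have h1 : 0 ≤ ε * s j * w j v := mul_nonneg (mul_nonneg hε.le (hs j)) (hw j v)
  have h2 : 0 ≤ η * s j * w j v := mul_nonneg (mul_nonneg hη.le (hs j)) (hw j v)
  linarith

/-- Let `ε` be from `h`, `μ` from `hp`. For some `j` the masses of `{-ε s w < f}` and of
`{ε/2 s w < -f}` are at most `μ/4`, so there is `v` outside both with `w j v ≠ 0`, `w j v > 0`:
`f ≤ - ε s w` and `-f ≤ ε/2 s w`, so `ε/2 s w ≤ 0`, a contradiction. -/
theorem not_ng_of_le (hs : ∀ j, 0 < s j) (hw : ∀ j v, 0 ≤ w j v) (hp : PosW 𝒰 w)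
    (h : NgW 𝒰 s w f) (h' : LeW 𝒰 s w (fun j v => -f j v)) : False := by
  obtain ⟨ε, hε, h⟩ := h
  obtain ⟨μ, hμ, hp⟩ := hp
  obtain ⟨j, h1, h2, h3⟩ := ((h (μ / 4) (by positivity)).and
    ((h' (ε / 2) (half_pos hε) (μ / 4) (by positivity)).and hp)).exists
  have h4 := sum_le_ms_add (w j) (fun v => -(ε * s j * w j v) < f j v)
  have h5 : ms (w j) (fun v => ¬ -(ε * s j * w j v) < f j v) ≤
      ms (w j) (fun v => ε / 2 * s j * w j v < -f j v) := by
    refine ms_mono (hw j) ?_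
    intro v hv hn
    rw [not_lt] at hn
    have h6 : 0 < w j v := lt_of_le_of_ne (hw j v) (Ne.symm hv)
    have h7 : 0 < ε / 2 * s j * w j v := mul_pos (mul_pos (half_pos hε) (hs j)) h6
    have h8 : ε * s j * w j v = ε / 2 * s j * w j v + ε / 2 * s j * w j v := by ring
    linarith
  linarith

end Calc

end Pool.Agent.LSharp
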