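import Mathlib

set_option autoImplicit false

/-! TY11. Completion of a system of independent vectors. -/

namespace Pool.Agent.LSharp

/-- Let `N` be the submodule of the vectors which are `0` outside `W`: it is free of rank `2 * W.card`
(`N ≃ (W → Fin 2 → ℤ)`). `G` = the span of `g`, a submodule of `N` of rank `ρ` (`finrank_span_eq_card`);
so `ρ ≤ 2 * W.card` (`LinearIndependent.fintype_card_le_finrank` in `N`). The quotient of `N` by `G` has
`finrank` equal to the difference (`Submodule.finrank_quotient_add_finrank`, for the domain `ℤ`), and there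
are `finrank` many linearly independent elements in it
(`exists_linearIndependent_of_le_finrank` or `Module.exists_...`); `y i` = representatives in `N`. If
`∑ n i • y i ∈ G` then its class is `0`, so `n = 0`. (Other way: over `ℚ`, complete `g` to a basis by
unit vectors, Steinitz.) -/
theorem ty_exists_compl {ι : Type} [Fintype ι] [DecidableEq ι] (W : Finset ι) {ρ : ℕ}
    (g : Fin ρ → ι → Fin 2 → ℤ) (hgW : ∀ i k, k ∉ W → g i k = 0) (hg : LinearIndependent ℤ g) :
    ρ ≤ 2 * W.card ∧ ∃ y : Fin (2 * W.card - ρ) → ι → Fin 2 → ℤ, (∀ i k, k ∉ W → y i k = 0) ∧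
      ∀ n : Fin (2 * W.card - ρ) → ℤ, n ≠ 0 →
        ∑ i, n i • y i ∉ Submodule.span ℤ (Set.range g) := by
  classical
  let ext : (W → Fin 2 → ℤ) →ₗ[ℤ] (ι → Fin 2 → ℤ) :=
    { toFun := fun x k => if h : k ∈ W then x ⟨k, h⟩ else 0
      map_add' := by
        intro x y
        funext k
        by_cases h : k ∈ W <;> simp [h]
      map_smul' := by
        intro c x
        funext k
        by_cases h : k ∈ W <;> simp [h] }
  let res : (ι → Fin 2 → ℤ) →ₗ[ℤ] (W → Fin 2 → ℤ) :=
    { toFun := fun x k => x k.1
      map_add' := fun _ _ => rfl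
      map_smul' := fun _ _ => rfl }
  have hext : ∀ x : ι → Fin 2 → ℤ, (∀ k, k ∉ W → x k = 0) → ext (res x) = x := by
    intro x hx
    funext k
    by_cases h : k ∈ W
    · simp [ext, res, h]
    · simp [ext, h, hx k h]
  have hres : ∀ x : W → Fin 2 → ℤ, res (ext x) = x := by
    intro x
    funext k
    simp [ext, res, k.2]
  have hg' : LinearIndependent ℤ (fun i => res (g i)) := by
    apply LinearIndependent.of_comp ext
    have h0 : (⇑ext ∘ fun i => res (g i)) = g := funext fun i => hext _ (hgW i)
    rw [h0]
    exact hg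
  have hfr : Module.finrank ℤ (W → Fin 2 → ℤ) = 2 * W.card := by
    rw [Module.finrank_pi_fintype]
    simp [mul_comm]
  have h1 : ρ ≤ 2 * W.card := by
    have h0 := hg'.fintype_card_le_finrank
    rw [hfr] at h0
    simpa using h0
  refine ⟨h1, ?_⟩
  set G := Submodule.span ℤ (Set.range fun i => res (g i)) with hG
  have hGr : Module.finrank ℤ G = ρ := by
    rw [hG, finrank_span_eq_card hg']
    simp
  have hq := Submodule.finrank_quotient_add_finrank G
  have hq' : 2 * W.card - ρ ≤ Module.finrank ℤ ((W → Fin 2 → ℤ) ⧸ G) := by omega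
  obtain ⟨f, hf⟩ := exists_linearIndependent_of_le_finrank hq'
  choose y hy using fun i => Submodule.mkQ_surjective G (f i)
  refine ⟨fun i => ext (y i), fun i k hk => by simp [ext, hk], fun n hn hmem => hn ?_⟩
  have h2 : res (∑ i, n i • ext (y i)) ∈ G := by
    have h0 := Submodule.mem_map_of_mem (f := res) hmem
    rwa [Submodule.map_span, ← Set.range_comp] at h0
  have h3 : res (∑ i, n i • ext (y i)) = ∑ i, n i • y i := by
    rw [map_sum]
    exact Finset.sum_congr rfl fun i _ => by rw [map_smul, hres]
  rw [h3] at h2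
  have h4 : ∑ i, n i • f i = 0 := by
    have h0 : G.mkQ (∑ i, n i • y i) = 0 := (Submodule.Quotient.mk_eq_zero G).2 h2
    rw [map_sum] at h0
    rw [← h0]
    exact Finset.sum_congr rfl fun i _ => by rw [map_smul, hy]
  exact funext (Fintype.linearIndependent_iff.1 hf n h4)

end Pool.Agent.LSharp
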