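import Pool.Agent.LSharp.TYStQ
import Pool.Agent.LSharp.TYRes

set_option autoImplicit false

/-! TY15. The ideal of `A*` for stable weights. -/

namespace Pool.Agent.LSharp

open Filter NumberField Pool.Agent.LAll

variable {ι J : Type} [Fintype ι] {𝒰 : Ultrafilter J} {P : J → Pt ι} {r s : J → ℝ}
  {w : (j : J) → (P j).V → ℝ}

/-- If `LeW (- lamU x)` fails, `exists_restrict` (for `f = - lamU x`) gives `w'` with `NgW` for
`- (- lamU x) = lamU x`, so `InM s w' x`, so `InM s w x` by stability. -/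
theorem flat_of_not_inM (h : Scl 𝒰 r s w) (W : Finset ι) (c : ι → Fin 3) {ρ : ℕ}
    (g : Fin ρ → ι → Fin 2 → ℤ)
    (hc : ∀ᶠ j in (𝒰 : Filter J), ∀ v, w j v ≠ 0 → ∀ k ∈ W, (P j).cor v k = c k)
    (hg : ∀ i, Flat 𝒰 s w (lamU (mon 𝒰 P c (g i))))
    (hst : ∀ w' : (j : J) → (P j).V → ℝ, Rw 𝒰 w w' → ∀ x ∈ Ast 𝒰 P r c W g,
      InM s w' x → InM s w x) {x : Ult 𝒰 (Kof P)} (hx : x ∈ Ast 𝒰 P r c W g)
    (hn : ¬ InM s w x) : Flat 𝒰 s w (lamU x) := by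
  refine ⟨leU_Ast h c W g hc hg hx, ?_⟩
  by_contra hle
  obtain ⟨w', hr, hng⟩ := exists_restrict h.w0 hle
  have hng' : NgW 𝒰 s w' (lamU x) := by simpa only [neg_neg] using hng
  exact hn (hst w' hr x hx (Or.inr hng'))

/-- `exists_ideal_Ast`; proper by `InM.one_not`; prime: if `x, y ∈ A*` are not in the ideal, both are
nonzero and `Flat` by `flat_of_not_inM`, so `x * y ≠ 0` is `Flat` (`Flat.mulU`) and not in it
(`InM.not_of_le`). -/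
theorem exists_prime_Ast (h : Scl 𝒰 r s w) (hp : PosW 𝒰 w) (W : Finset ι) (c : ι → Fin 3)
    {ρ : ℕ} (g : Fin ρ → ι → Fin 2 → ℤ)
    (hc : ∀ᶠ j in (𝒰 : Filter J), ∀ v, w j v ≠ 0 → ∀ k ∈ W, (P j).cor v k = c k)
    (hg : ∀ i, Flat 𝒰 s w (lamU (mon 𝒰 P c (g i))))
    (hst : ∀ w' : (j : J) → (P j).V → ℝ, Rw 𝒰 w w' → ∀ x ∈ Ast 𝒰 P r c W g,
      InM s w' x → InM s w x) :
    ∃ q : Ideal (Ast 𝒰 P r c W g), q.IsPrime ∧ ∀ x, x ∈ q ↔ InM s w (x : Ult 𝒰 (Kof P)) := by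
  obtain ⟨q, hq⟩ := exists_ideal_Ast h W c g hc hg
  refine ⟨q, ?_, hq⟩
  refine Ideal.isPrime_iff.2 ⟨?_, ?_⟩
  · rw [Ideal.ne_top_iff_one, hq 1]
    exact InM.one_not h hp
  · intro x y hxy
    by_contra hne
    rw [not_or, hq, hq] at hne
    have hx0 : (x : Ult 𝒰 (Kof P)) ≠ 0 := fun h0 => hne.1 (Or.inl h0)
    have hy0 : (y : Ult 𝒰 (Kof P)) ≠ 0 := fun h0 => hne.2 (Or.inl h0)
    have hfx := flat_of_not_inM h W c g hc hg hst x.2 hne.1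
    have hfy := flat_of_not_inM h W c g hc hg hst y.2 hne.2
    have hf := Flat.mulU h hx0 hy0 hfx hfy
    have h1 := (hq _).1 hxy
    exact InM.not_of_le h hp (mul_ne_zero hx0 hy0) hf.2 h1

end Pool.Agent.LSharp
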