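import Pool.Agent.LSharp.TYAlg
import Pool.Agent.LSharp.TYPr
import Pool.Agent.LSharp.TYAbh
import Pool.Agent.LSharp.TYLat

set_option autoImplicit false

/-! TY17. Abhyankar for the type of one class. -/

namespace Pool.Agent.LSharp

open Filter NumberField Pool.Agent.LAll

variable {ι J : Type} [Fintype ι] [DecidableEq ι] {𝒰 : Ultrafilter J} {P : J → Pt ι}
  {r s : J → ℝ} {w : (j : J) → (P j).V → ℝ}

/-- Abhyankar for the type: `Z` independent modulo the ideal. By `ty_exists_compl` there are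
`2 * W.card - ρ` vectors `y i`; `u i = mon (y i)`. `hu` of `algebraicIndependent_of_stable`:
`∏ i, u i ^ n i = mon (∑ n i • y i)` (`mon_sum`), if it were `Flat` for a restriction `w'` then
`∑ n i • y i ∈ span g` by `hgs`. `hz`: `aeval Z p` is in `A*` and not in `InM`, so nonzero, and `Flat`
by `flat_of_not_inM`. Then `card_le_of_algebraic` with `algebraic_mon`, `algebraic_Ast`. -/
theorem type_abhyankar (h : Scl 𝒰 r s w) (hp : PosW 𝒰 w) (W BB : Finset ι) (c : ι → Fin 3)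
    (hc : ∀ᶠ j in (𝒰 : Filter J), ∀ v, w j v ≠ 0 → ∀ k ∈ W, (P j).cor v k = c k)
    (halg : ∀ k ∈ W, IsAlgebraic (Algebra.adjoin (kf 𝒰 (Kof P) r)
      (Set.range fun b : BB => tU 𝒰 P c b)) (tU 𝒰 P c k)) {ρ : ℕ}
    (g : Fin ρ → ι → Fin 2 → ℤ) (hgW : ∀ i k, k ∉ W → g i k = 0) (hgi : LinearIndependent ℤ g)
    (hg : ∀ i, Flat 𝒰 s w (lamU (mon 𝒰 P c (g i))))
    (hgs : ∀ (w' : (j : J) → (P j).V → ℝ) (y : ι → Fin 2 → ℤ), Rw 𝒰 w w' →
      (∀ k, k ∉ W → y k = 0) → Flat 𝒰 s w' (lamU (mon 𝒰 P c y)) →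
      y ∈ Submodule.span ℤ (Set.range g))
    (hst : ∀ w' : (j : J) → (P j).V → ℝ, Rw 𝒰 w w' → ∀ x ∈ Ast 𝒰 P r c W g,
      InM s w' x → InM s w x) {μ : ℕ} (Z : Fin μ → Ult 𝒰 (Kof P))
    (hZ : ∀ i, Z i ∈ Ast 𝒰 P r c W g)
    (hZi : ∀ p : MvPolynomial (Fin μ) (kf 𝒰 (Kof P) r), p ≠ 0 →
      ¬ InM s w (MvPolynomial.aeval Z p)) :
    2 * W.card + μ ≤ ρ + BB.card := by
  obtain ⟨hρ, y, hyW, hy⟩ := ty_exists_compl W g hgW hgi
  have hu : ∀ (n : Fin (2 * W.card - ρ) → ℤ) (w' : (j : J) → (P j).V → ℝ), n ≠ 0 → Rw 𝒰 w w' →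
      ¬ Flat 𝒰 s w' (lamU (∏ i, (fun i => mon 𝒰 P c (y i)) i ^ n i)) := by
    intro n w' hn hr hf
    have e : (∏ i, (fun i => mon 𝒰 P c (y i)) i ^ n i) = mon 𝒰 P c (∑ i, n i • y i) :=
      (mon_sum c Finset.univ n y).symm
    rw [e] at hf
    refine hy n hn (hgs w' _ hr ?_ hf)
    intro k hk
    rw [Finset.sum_apply]
    refine Finset.sum_eq_zero fun i _ => ?_
    rw [Pi.smul_apply, hyW i k hk, smul_zero]
  have hz : ∀ p : MvPolynomial (Fin μ) (kf 𝒰 (Kof P) r), p ≠ 0 →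
      MvPolynomial.aeval Z p ≠ 0 ∧ Flat 𝒰 s w (lamU (MvPolynomial.aeval Z p)) := by
    intro p hp0
    have hn := hZi p hp0
    have hm : MvPolynomial.aeval Z p ∈ Ast 𝒰 P r c W g := by
      have h1 : Algebra.adjoin (kf 𝒰 (Kof P) r) (Set.range Z) ≤ Ast 𝒰 P r c W g := by
        refine Algebra.adjoin_le ?_
        rintro _ ⟨i, rfl⟩
        exact hZ i
      refine h1 ?_
      rw [Algebra.adjoin_range_eq_range_aeval]
      exact ⟨p, rfl⟩
    exact ⟨fun h0 => hn (Or.inl h0), flat_of_not_inM h W c g hc hg hst hm hn⟩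
  have hA := algebraicIndependent_of_stable h hp (fun i => mon 𝒰 P c (y i))
    (fun i => mon_ne_zero c (y i)) hu Z hz
  have hcard := card_le_of_algebraic _ hA (fun b : BB => tU 𝒰 P c b) (by
    rintro (i | i)
    · exact algebraic_mon r W BB c halg (y i) (hyW i)
    · exact algebraic_Ast r W BB c halg g hgW (hZ i))
  rw [Fintype.card_sum, Fintype.card_fin, Fintype.card_fin, Fintype.card_coe] at hcard
  omega

end Pool.Agent.LSharp
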