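import Pool.Agent.LSharp.TYNN
import Pool.Agent.LSharp.TYIne

set_option autoImplicit false

/-! TY18. The type of one class. -/

namespace Pool.Agent.LSharp

open Filter NumberField Pool.Agent.LAll

variable {ι J : Type} [Fintype ι] [DecidableEq ι] {𝒰 : Ultrafilter J} {P : J → Pt ι}
  {r s : J → ℝ} {w : (j : J) → (P j).V → ℝ}

omit [Fintype ι] [DecidableEq ι] in
private theorem integral_val {k L : Type} [Field k] [Field L] [Algebra k L]
    (A : Subalgebra k L) (S : Set A) {a : A} (ha : IsIntegral (Algebra.adjoin k S) a) :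
    IsIntegral (Algebra.adjoin k (Subtype.val '' S : Set L)) (a : L) := by
  have hmem : ∀ y : Algebra.adjoin k S,
      (A.val.comp (Algebra.adjoin k S).val) y ∈ Algebra.adjoin k (Subtype.val '' S : Set L) := by
    intro y
    have h1 : Algebra.adjoin k (Subtype.val '' S : Set L) = (Algebra.adjoin k S).map A.val :=
      (AlgHom.map_adjoin A.val S).symm
    rw [h1]
    exact ⟨y.1, y.2, rfl⟩
  exact IsIntegral.map_of_comp_eq
    ((A.val.comp (Algebra.adjoin k S).val).codRestrict _ hmem).toRingHom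
    A.val.toRingHom (by ext y; rfl) ha

/-- **The type of one class.** `exists_prime_Ast`, `Ast_finiteType`, `adapted_normalization` for
`A = Ast ..` give `cc`, `mu`, `Y`, `Z` (compose with `Subtype.val`; `IsIntegral` over
`Algebra.adjoin k (Set.range Y ∪ Set.range Z)` in `Ult`: image under the injective `Subalgebra.val`).
`Y i` is in the ideal and `≠ 0`, so `NgW`. `cc + mu = BB.card`: `≤` by `card_le_of_algebraic` for the
independent system of `adapted_normalization` (`algebraic_Ast`; independent in `Ult` because `val` is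
injective), `≥` by `card_le_of_integral` or `card_le_of_algebraic` for the `t_b` (`hind`), which are in `A*`
(`hBB`) and integral over `k[Y, Z]`. `type_abhyankar` for `Z`. `leU_Ast`. -/
theorem exists_type_class (h : Scl 𝒰 r s w) (hp : PosW 𝒰 w) (W BB : Finset ι) (hBB : BB ⊆ W)
    (c : ι → Fin 3)
    (hc : ∀ᶠ j in (𝒰 : Filter J), ∀ v, w j v ≠ 0 → ∀ k ∈ W, (P j).cor v k = c k)
    (hind : AlgebraicIndependent (kf 𝒰 (Kof P) r) (fun b : BB => tU 𝒰 P c b))
    (halg : ∀ k ∈ W, IsAlgebraic (Algebra.adjoin (kf 𝒰 (Kof P) r)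
      (Set.range fun b : BB => tU 𝒰 P c b)) (tU 𝒰 P c k)) {ρ : ℕ}
    (g : Fin ρ → ι → Fin 2 → ℤ) (hgW : ∀ i k, k ∉ W → g i k = 0) (hgi : LinearIndependent ℤ g)
    (hg : ∀ i, Flat 𝒰 s w (lamU (mon 𝒰 P c (g i))))
    (hgs : ∀ (w' : (j : J) → (P j).V → ℝ) (y : ι → Fin 2 → ℤ), Rw 𝒰 w w' →
      (∀ k, k ∉ W → y k = 0) → Flat 𝒰 s w' (lamU (mon 𝒰 P c y)) →
      y ∈ Submodule.span ℤ (Set.range g))
    (hst : ∀ w' : (j : J) → (P j).V → ℝ, Rw 𝒰 w w' → ∀ x ∈ Ast 𝒰 P r c W g,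
      InM s w' x → InM s w x) :
    ∃ (cc mu : ℕ) (Y : Fin cc → Ult 𝒰 (Kof P)) (Z : Fin mu → Ult 𝒰 (Kof P)),
      cc + mu = BB.card ∧ 2 * W.card ≤ ρ + cc ∧ (∀ i, Y i ≠ 0) ∧
      (∀ i, Y i ∈ Ast 𝒰 P r c W g) ∧ (∀ i, Z i ∈ Ast 𝒰 P r c W g) ∧
      (∀ x ∈ Ast 𝒰 P r c W g, IsIntegral (Algebra.adjoin (kf 𝒰 (Kof P) r)
        (Set.range Y ∪ Set.range Z)) x) ∧
      (∀ i, NgW 𝒰 s w (lamU (Y i))) ∧ ∀ x ∈ Ast 𝒰 P r c W g, LeW 𝒰 s w (lamU x) := by
  obtain ⟨q, hq, hqm⟩ := exists_prime_Ast h hp W c g hc hg hst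
  obtain ⟨cc, mu, Y, Z, h1, h2, h3, h4, x, hx⟩ :=
    adapted_normalization (Ast_finiteType (𝒰 := 𝒰) (P := P) r c W g) q
  have hint : ∀ y ∈ Ast 𝒰 P r c W g, IsIntegral (Algebra.adjoin (kf 𝒰 (Kof P) r)
      (Set.range (fun i => (Y i : Ult 𝒰 (Kof P))) ∪
        Set.range (fun i => (Z i : Ult 𝒰 (Kof P))))) y := by
    intro y hy
    have h5 := integral_val (Ast 𝒰 P r c W g) (Set.range Y ∪ Set.range Z) (h4 ⟨y, hy⟩)
    have h6 : (Subtype.val '' (Set.range Y ∪ Set.range Z) : Set (Ult 𝒰 (Kof P))) =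
        Set.range (fun i => (Y i : Ult 𝒰 (Kof P))) ∪
          Set.range (fun i => (Z i : Ult 𝒰 (Kof P))) := by
      rw [Set.image_union, ← Set.range_comp, ← Set.range_comp]
      rfl
    rw [h6] at h5
    exact h5
  have hle : cc + mu ≤ BB.card := by
    have h5 : AlgebraicIndependent (kf 𝒰 (Kof P) r) (fun i => (x i : Ult 𝒰 (Kof P))) :=
      hx.map' (f := (Ast 𝒰 P r c W g).val) Subtype.val_injective
    have h6 := card_le_of_algebraic _ h5 (fun b : BB => tU 𝒰 P c b)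
      fun i => algebraic_Ast r W BB c halg g hgW (x i).2
    rwa [Fintype.card_fin, Fintype.card_coe] at h6
  have hge : BB.card ≤ cc + mu := by
    have h5 := card_le_of_algebraic _ hind (Sum.elim (fun i => (Y i : Ult 𝒰 (Kof P)))
      (fun i => (Z i : Ult 𝒰 (Kof P)))) (by
        intro b
        rw [Set.Sum.elim_range]
        refine (hint _ ?_).isAlgebraic
        exact uni_mem_Ast r c W g (hBB b.2) 0)
    rwa [Fintype.card_sum, Fintype.card_fin, Fintype.card_fin, Fintype.card_coe] at h5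
  have hcard : cc + mu = BB.card := le_antisymm hle hge
  have hab := type_abhyankar h hp W BB c hc halg g hgW hgi hg hgs hst
    (fun i => (Z i : Ult 𝒰 (Kof P))) (fun i => (Z i).2) (by
      intro p hp0 hin
      refine h3 p hp0 ((hqm _).2 ?_)
      have h5 : ((MvPolynomial.aeval Z p : Ast 𝒰 P r c W g) : Ult 𝒰 (Kof P)) =
          MvPolynomial.aeval (fun i => (Z i : Ult 𝒰 (Kof P))) p :=
        MvPolynomial.comp_aeval_apply (φ := (Ast 𝒰 P r c W g).val) Z p
      rw [h5]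
      exact hin)
  refine ⟨cc, mu, fun i => Y i, fun i => Z i, hcard, by omega, ?_, fun i => (Y i).2,
    fun i => (Z i).2, hint, ?_, fun y hy => leU_Ast h c W g hc hg hy⟩
  · intro i hi
    exact h2 i (Subtype.ext hi)
  · intro i
    rcases (hqm _).1 (h1 i) with h5 | h5
    · exact absurd (Subtype.ext h5) (h2 i)
    · exact h5

end Pool.Agent.LSharp
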