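import Pool.Agent.LSharp.UDefs

set_option autoImplicit false

/-! Block TYPE (section 1 of `LSharp_Proof.md`): definitions. For most `j` we have finitely many places
`v : V j` with weights `w j v ≥ 0`. `LeW`: `f j v ≤ o(1) * s j * w j v` outside a set of small mass;
`NgW`: `f j v ≤ - ε * s j * w j v` outside a set of small mass; `Rw`: restriction of the weights to a set
of positive mass. -/

namespace Pool.Agent.LSharp

open Filter NumberField Pool.Agent.LAll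

section Calc

/-- The `w`-mass of the points with the property `p`. -/
noncomputable def ms {α : Type} [Fintype α] (w : α → ℝ) (p : α → Prop) : ℝ :=
  open Classical in ∑ v, if p v then w v else 0

variable {J : Type} (𝒰 : Ultrafilter J) {V : J → Type} [∀ j, Fintype (V j)]

/-- `f ≤ o(1) s w` outside a set of small mass. -/
def LeW (s : J → ℝ) (w f : (j : J) → V j → ℝ) : Prop :=
  ∀ η : ℝ, 0 < η → ∀ μ : ℝ, 0 < μ → ∀ᶠ j in (𝒰 : Filter J),
    ms (w j) (fun v => η * s j * w j v < f j v) ≤ μ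

/-- `f ≤ - ε s w` outside a set of small mass. -/
def NgW (s : J → ℝ) (w f : (j : J) → V j → ℝ) : Prop :=
  ∃ ε : ℝ, 0 < ε ∧ ∀ μ : ℝ, 0 < μ → ∀ᶠ j in (𝒰 : Filter J),
    ms (w j) (fun v => -(ε * s j * w j v) < f j v) ≤ μ

/-- `|f| ≤ o(1) s w` outside a set of small mass. -/
def Flat (s : J → ℝ) (w f : (j : J) → V j → ℝ) : Prop :=
  LeW 𝒰 s w f ∧ LeW 𝒰 s w (fun j v => -f j v)

/-- The total mass is bounded from below. -/
def PosW (w : (j : J) → V j → ℝ) : Prop :=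
  ∃ μ : ℝ, 0 < μ ∧ ∀ᶠ j in (𝒰 : Filter J), μ ≤ ∑ v, w j v

/-- `w'` is a restriction of `w` of positive mass. -/
structure Rw (w w' : (j : J) → V j → ℝ) : Prop where
  nn : ∀ j v, 0 ≤ w' j v
  rst : ∀ j v, w' j v = 0 ∨ w' j v = w j v
  pos : PosW 𝒰 w'

variable {𝒰}

theorem Rw.trans {w w' w'' : (j : J) → V j → ℝ} (h : Rw 𝒰 w w') (h' : Rw 𝒰 w' w'') :
    Rw 𝒰 w w'' where
  nn := h'.nn
  rst j v := by
    rcases h'.rst j v with h1 | h1
    · exact Or.inl h1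
    · rcases h.rst j v with h2 | h2
      · exact Or.inl (h1.trans h2)
      · exact Or.inr (h1.trans h2)
  pos := h'.pos

theorem Rw.refl {w : (j : J) → V j → ℝ} (hw : ∀ j v, 0 ≤ w j v) (hp : PosW 𝒰 w) : Rw 𝒰 w w :=
  ⟨hw, fun _ _ => Or.inr rfl, hp⟩

theorem Rw.right {w w' : (j : J) → V j → ℝ} (h : Rw 𝒰 w w') : Rw 𝒰 w' w' := Rw.refl h.nn h.pos

theorem Rw.ne {w w' : (j : J) → V j → ℝ} (h : Rw 𝒰 w w') {j : J} {v : V j} (hv : w' j v ≠ 0) :
    w j v ≠ 0 := by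
  rcases h.rst j v with h1 | h1
  · exact absurd h1 hv
  · rwa [← h1]

end Calc

section Units

variable {ι J : Type} {𝒰 : Ultrafilter J} {P : J → Pt ι}

/-- The normalised logarithms of (a representative of) an element of the ultraproduct. -/
noncomputable def lamU [Finite ι] (x : Ult 𝒰 (Kof P)) (j : J) (v : (P j).V) : ℝ :=
  lam v (x.rep j)

variable (𝒰 P)

/-- The unit `∏ t_k ^ (y k 0) (1 - t_k) ^ (y k 1)`. -/
noncomputable def mon [Fintype ι] (c : ι → Fin 3) (y : ι → Fin 2 → ℤ) : Ult 𝒰 (Kof P) :=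
  ∏ k, tU 𝒰 P c k ^ (y k 0) * (1 - tU 𝒰 P c k) ^ (y k 1)

/-- The ring `A*`: generated by the `t_k`, `k ∈ W`, and the units `mon (g i)` and their inverses. -/
noncomputable def Ast [Fintype ι] (r : J → ℝ) (c : ι → Fin 3) (W : Finset ι) {ρ : ℕ}
    (g : Fin ρ → ι → Fin 2 → ℤ) : Subalgebra (kf 𝒰 (Kof P) r) (Ult 𝒰 (Kof P)) :=
  Algebra.adjoin (kf 𝒰 (Kof P) r) ((tU 𝒰 P c '' (W : Set ι)) ∪
    (Set.range (fun i => mon 𝒰 P c (g i)) ∪ Set.range (fun i => (mon 𝒰 P c (g i))⁻¹)))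

variable {𝒰 P}

/-- The elements which are `0` or at most `- ε s w` outside a set of small mass. -/
def InM [Finite ι] (s : J → ℝ) (w : (j : J) → (P j).V → ℝ) (x : Ult 𝒰 (Kof P)) : Prop :=
  x = 0 ∨ NgW 𝒰 s w (lamU x)

/-- The standing hypotheses: `r` (bound for the heights of the constants), `s` (scale), `w` (weights). -/
structure Scl [Finite ι] (𝒰 : Ultrafilter J) {P : J → Pt ι} (r s : J → ℝ)
    (w : (j : J) → (P j).V → ℝ) : Prop where
  r1 : ∀ j, 1 ≤ r j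
  s1 : ∀ j, 1 ≤ s j
  lim : Tendsto (fun j => s j / r j) (𝒰 : Filter J) atTop
  w0 : ∀ j v, 0 ≤ w j v

theorem Scl.mono [Finite ι] {r s : J → ℝ} {w w' : (j : J) → (P j).V → ℝ} (h : Scl 𝒰 r s w)
    (h' : Rw 𝒰 w w') : Scl 𝒰 r s w' := ⟨h.r1, h.s1, h.lim, h'.nn⟩

end Units

end Pool.Agent.LSharp
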