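import Mathlib

set_option autoImplicit false

/-! TY20. Joining the families of the classes. -/

namespace Pool.Agent.LSharp

/-- `Fin (∑ a, ρ a) ≃ Σ a, Fin (ρ a)` (the cardinalities are equal: `Fintype.card_sigma`,
`Fintype.card_fin`; `Fintype.equivFinOfCardEq`). `gc` is the first component, `g' i = g (gc i) i'`.
Linear independence of the family on `Σ a, Fin (ρ a)`: in a relation the components at the `k` of class `a`
give a relation of the family `g a` (all other vectors are `0` there, and the vectors of `g a` are `0`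
elsewhere); then `LinearIndependent.comp` with the equivalence. -/
theorem glue_families {ι M : Type} [Fintype ι] [Fintype M] [DecidableEq M] (W : Finset ι)
    (cls : ι → M) (ρ : M → ℕ) (g : (a : M) → Fin (ρ a) → ι → Fin 2 → ℤ)
    (hs : ∀ a i k, ¬ (k ∈ W ∧ cls k = a) → g a i k = 0)
    (hi : ∀ a, LinearIndependent ℤ (g a)) :
    ∃ (g' : Fin (∑ a, ρ a) → ι → Fin 2 → ℤ) (gc : Fin (∑ a, ρ a) → M),
      (∀ i k, ¬ (k ∈ W ∧ cls k = gc i) → g' i k = 0) ∧ LinearIndependent ℤ g' ∧
      ∀ i, ∃ i', g' i = g (gc i) i' := by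
  classical
  have hcard : Fintype.card (Σ a, Fin (ρ a)) = ∑ a, ρ a := by
    rw [Fintype.card_sigma]
    exact Finset.sum_congr rfl fun a _ => Fintype.card_fin _
  let e : Fin (∑ a, ρ a) ≃ Σ a, Fin (ρ a) := (Fintype.equivFinOfCardEq hcard).symm
  have hli : LinearIndependent ℤ (fun p : Σ a, Fin (ρ a) => g p.1 p.2) := by
    rw [Fintype.linearIndependent_iff]
    rintro c hc ⟨a, i⟩
    have hrel : ∑ i : Fin (ρ a), c ⟨a, i⟩ • g a i = 0 := by
      funext k
      rw [Finset.sum_apply, Pi.zero_apply]
      by_cases hk : k ∈ W ∧ cls k = a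
      · have h1 := congrFun hc k
        rw [Finset.sum_apply, Pi.zero_apply, Fintype.sum_sigma, Finset.sum_eq_single a] at h1
        · exact h1
        · intro b _ hb
          refine Finset.sum_eq_zero fun j _ => ?_
          rw [Pi.smul_apply, hs b j k (fun h => hb (h.2.symm.trans hk.2)), smul_zero]
        · intro h
          exact absurd (Finset.mem_univ a) h
      · refine Finset.sum_eq_zero fun j _ => ?_
        rw [Pi.smul_apply, hs a j k hk, smul_zero]
    exact Fintype.linearIndependent_iff.1 (hi a) (fun i => c ⟨a, i⟩) hrel i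
  exact ⟨fun i => g (e i).1 (e i).2, fun i => (e i).1, fun i k hk => hs _ _ _ hk,
    hli.comp e e.injective, fun i => ⟨(e i).2, rfl⟩⟩

end Pool.Agent.LSharp
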