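import Pool.Agent.LSharp.TYCalc

set_option autoImplicit false

/-! TY19. Finitely many conditions hold simultaneously. -/

namespace Pool.Agent.LSharp

open Filter

/-- From a finite number of conditions `LeW`, `NgW` for the weights `w`, a restriction of `m`: the
conditions hold simultaneously for `m` on a set of `m`-mass at least `μ / 2`. For a given `δ` all the bad
sets together have `w`-mass at most `μ / 2` (`ms_ex_le`, each at most `μ / (2 N)`, `N` the number of the
conditions), so the good set has `w`-mass at least `μ / 2` (`sum_le_ms_add`), and where `w j v ≠ 0` we have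
`w j v = m j v` (`ms_restrict`; put `w j v ≠ 0` into the good set). `ε` is the smallest of the constants
of the `NgW` (finite family; `1` if empty; `s, w ≥ 0`). -/
theorem exists_mass {J : Type} {𝒰 : Ultrafilter J} {V : J → Type} [∀ j, Fintype (V j)]
    {m w : (j : J) → V j → ℝ} (hm : ∀ j v, 0 ≤ m j v) (hr : Rw 𝒰 m w) {α β : Type} [Finite α]
    [Finite β] (s : α → J → ℝ) (f : α → (j : J) → V j → ℝ) (s' : β → J → ℝ)
    (f' : β → (j : J) → V j → ℝ) (hs' : ∀ b j, 0 ≤ s' b j)
    (hf : ∀ a, LeW 𝒰 (s a) w (f a)) (hf' : ∀ b, NgW 𝒰 (s' b) w (f' b)) :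
    ∃ ε : ℝ, 0 < ε ∧ ∃ μ₀ : ℝ, 0 < μ₀ ∧ ∀ δ : ℝ, 0 < δ → ∀ᶠ j in (𝒰 : Filter J),
      μ₀ ≤ ms (m j) (fun v => (∀ a, f a j v ≤ δ * s a j * m j v) ∧
        ∀ b, f' b j v ≤ -(ε * s' b j * m j v)) := by
  classical
  have := Fintype.ofFinite α
  have := Fintype.ofFinite β
  choose ε hε hg using hf'
  obtain ⟨μ, hμ, hp⟩ := hr.pos
  obtain ⟨e, he, hle⟩ : ∃ e : ℝ, 0 < e ∧ ∀ b, e ≤ ε b := by
    rcases isEmpty_or_nonempty β with h | h
    · exact ⟨1, one_pos, fun b => h.elim b⟩
    · obtain ⟨b, hb⟩ := Finite.exists_min ε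
      exact ⟨ε b, hε b, hb⟩
  refine ⟨e, he, μ / 2, half_pos hμ, fun δ hδ => ?_⟩
  have hN : (0 : ℝ) < Fintype.card α + Fintype.card β + 1 := by positivity
  have hκ : 0 < μ / 2 / (Fintype.card α + Fintype.card β + 1) := div_pos (half_pos hμ) hN
  have h1 : ∀ᶠ j in (𝒰 : Filter J), ∀ a, ms (w j) (fun v => δ * s a j * w j v < f a j v) ≤
      μ / 2 / (Fintype.card α + Fintype.card β + 1) := eventually_all.2 fun a => hf a δ hδ _ hκ
  have h2 : ∀ᶠ j in (𝒰 : Filter J), ∀ b,
      ms (w j) (fun v => -(ε b * s' b j * w j v) < f' b j v) ≤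
      μ / 2 / (Fintype.card α + Fintype.card β + 1) := eventually_all.2 fun b => hg b _ hκ
  filter_upwards [h1, h2, hp] with j h1 h2 hp
  have hw : ∀ v, 0 ≤ w j v := hr.nn j
  set p : V j → Prop := fun v => (∃ a, δ * s a j * w j v < f a j v) ∨
    ∃ b, -(ε b * s' b j * w j v) < f' b j v with hpdef
  have h3 : ms (w j) p ≤ ms (w j) (fun v => ∃ a, δ * s a j * w j v < f a j v) +
      ms (w j) (fun v => ∃ b, -(ε b * s' b j * w j v) < f' b j v) :=
    ms_or_le hw fun v _ h => h
  have h4 : ms (w j) (fun v => ∃ a, δ * s a j * w j v < f a j v) ≤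
      ∑ a, ms (w j) (fun v => δ * s a j * w j v < f a j v) := ms_ex_le hw fun v _ h => h
  have h5 : ms (w j) (fun v => ∃ b, -(ε b * s' b j * w j v) < f' b j v) ≤
      ∑ b, ms (w j) (fun v => -(ε b * s' b j * w j v) < f' b j v) := ms_ex_le hw fun v _ h => h
  have h6 := Finset.sum_le_sum fun a (_ : a ∈ Finset.univ) => h1 a
  have h7 := Finset.sum_le_sum fun b (_ : b ∈ Finset.univ) => h2 b
  rw [Finset.sum_const, Finset.card_univ, nsmul_eq_mul] at h6 h7
  have h8 : ((Fintype.card α : ℝ) + Fintype.card β) *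
      (μ / 2 / (Fintype.card α + Fintype.card β + 1)) ≤ μ / 2 := by
    rw [mul_div_assoc', div_le_iff₀ hN]
    nlinarith
  have h9 := sum_le_ms_add (w j) p
  have h10 : ms (w j) (fun v => ¬ p v) ≤ ms (m j) (fun v => (∀ a, f a j v ≤ δ * s a j * m j v) ∧
      ∀ b, f' b j v ≤ -(e * s' b j * m j v)) := by
    refine ms_restrict (hm j) (hr.rst j) fun v hv hn => ?_
    rw [hpdef] at hn
    simp only [not_or, not_exists, not_lt] at hn
    have h11 : w j v = m j v := (hr.rst j v).resolve_left hv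
    rw [← h11]
    refine ⟨hn.1, fun b => (hn.2 b).trans (neg_le_neg ?_)⟩
    exact mul_le_mul_of_nonneg_right (mul_le_mul_of_nonneg_right (hle b) (hs' b j)) (hw v)
  have h12 : ((Fintype.card α : ℝ) + Fintype.card β) *
      (μ / 2 / (Fintype.card α + Fintype.card β + 1)) =
      Fintype.card α * (μ / 2 / (Fintype.card α + Fintype.card β + 1)) +
      Fintype.card β * (μ / 2 / (Fintype.card α + Fintype.card β + 1)) := add_mul _ _ _
  linarith

end Pool.Agent.LSharp
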