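import Mathlib

set_option autoImplicit false

/-! TY7. Stable elements. -/

namespace Pool.Agent.LSharp

/-- One monotone map `F` into an order with the ascending chain condition: `{F y | R x y}` is nonempty
and has a maximal element `F y` (`WellFounded.has_min` for `>`); if `R y z` then `R x z` and
`F y ≤ F z`, so `F z = F y`. For a finite family: induction over a finite set of indices (from `y` which
is stable for the indices in the set go on to `z`, `R y z`, which is stable for the next index; the old
indices stay stable by transitivity; `R y y` by `hrr`). -/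
theorem ty_exists_stable {Ω M : Type} [Finite M] {α : M → Type} [∀ a, PartialOrder (α a)]
    [∀ a, WellFoundedGT (α a)] (R : Ω → Ω → Prop) (htr : ∀ x y z, R x y → R y z → R x z)
    (hrr : ∀ x y, R x y → R y y) (F : (a : M) → Ω → α a)
    (hF : ∀ a x y, R x y → F a x ≤ F a y) (x : Ω) (hx : R x x) :
    ∃ y, R x y ∧ ∀ a z, R y z → F a z = F a y := by
  classical
  have := Fintype.ofFinite M
  have key : ∀ s : Finset M, ∃ y, R x y ∧ ∀ a ∈ s, ∀ z, R y z → F a z = F a y := by
    intro s
    induction s using Finset.induction_on with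
    | empty => exact ⟨x, hx, fun a ha => absurd ha (Finset.notMem_empty a)⟩
    | insert a s _ ih =>
      obtain ⟨y, hxy, hy⟩ := ih
      have hne : {m : α a | ∃ z, R y z ∧ F a z = m}.Nonempty := ⟨F a y, y, hrr x y hxy, rfl⟩
      obtain ⟨m, ⟨z0, hz0, hm⟩, hmax⟩ :=
        (wellFounded_gt (α := α a)).has_min {m : α a | ∃ z, R y z ∧ F a z = m} hne
      refine ⟨z0, htr x y z0 hxy hz0, fun b hb z hz => ?_⟩
      rcases Finset.mem_insert.1 hb with rfl | hb
      · have h1 := hF b z0 z hz
        have h2 := hmax (F b z) ⟨z, htr y z0 z hz0 hz, rfl⟩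
        rw [← hm] at h2
        rcases h1.lt_or_eq with h3 | h3
        · exact absurd h3 h2
        · exact h3.symm
      · rw [hy b hb z (htr y z0 z hz0 hz), hy b hb z0 hz0]
  obtain ⟨y, hxy, hy⟩ := key Finset.univ
  exact ⟨y, hxy, fun a z hz => hy a (Finset.mem_univ a) z hz⟩

end Pool.Agent.LSharp
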