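import Pool.Agent.LSharp.TYTk
import Pool.Agent.LSharp.TYSt

set_option autoImplicit false

/-! TY8. Weights for which the groups of the flat monomials are maximal. -/

namespace Pool.Agent.LSharp

open Filter NumberField Pool.Agent.LAll

variable {ι J M : Type} [Fintype ι] [Finite M] {𝒰 : Ultrafilter J} {P : J → Pt ι}

/-- The group of the flat monomials. -/
private noncomputable def fg {r s : J → ℝ} {w : (j : J) → (P j).V → ℝ} (h : Scl 𝒰 r s w)
    (p : ι → Prop) (c : ι → Fin 3) : Submodule ℤ (ι → Fin 2 → ℤ) where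
  carrier := {y | (∀ k, ¬ p k → y k = 0) ∧ Flat 𝒰 s w (lamU (mon 𝒰 P c y))}
  zero_mem' := ⟨fun _ _ => rfl, by
    rw [mon_zero]
    exact flat_kf h (one_mem _)⟩
  add_mem' := by
    rintro a b ⟨ha, ha'⟩ ⟨hb, hb'⟩
    refine ⟨fun k hk => by rw [Pi.add_apply, ha k hk, hb k hk, add_zero], ?_⟩
    rw [mon_add]
    exact Flat.mulU h (mon_ne_zero c a) (mon_ne_zero c b) ha' hb'
  smul_mem' := by
    rintro n a ⟨ha, ha'⟩
    refine ⟨fun k hk => by rw [Pi.smul_apply, ha k hk, smul_zero], ?_⟩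
    rw [mon_zsmul]
    exact Flat.zpowU h ha' n

/-- For `a : M` and weights `w` let `F a w` be the `ℤ`-span of the set of all `y` with
`(∀ k, ¬ (k ∈ W ∧ cls k = a) → y k = 0)` and `Flat 𝒰 (s a) w (lamU (mon y))`. If all `w j v ≥ 0`
this set
is a submodule: `mon_add`, `mon_neg`, `mon_zero`, `Flat.mulU`, `Flat.invU`, `Flat.zpowU` (so its
span is
itself). Use `ty_exists_stable` with `Ω = {w // Rw 𝒰 m w}`, `R = Rw 𝒰` (`Rw.trans`, `Rw.right`,
`Rw.refl`);
`F a` is monotone (`Flat.restrict`), `ι → Fin 2 → ℤ` is a Noetherian `ℤ`-module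
(`isNoetherian_pi`), so `WellFoundedGT (Submodule ℤ _)`. `ty_exists_stable` gives `w`. `F a w` is
free of
finite rank (`Submodule.basisOfPid` or `Module.Free.chooseBasis`, `Module.finBasis`); `g` is a
basis:
linearly independent, the span is `F a w`, its elements are in the set. -/
theorem exists_stable_G (W : Finset ι) (cls : ι → M) (c : ι → Fin 3) (r s : M → J → ℝ)
    (m : (j : J) → (P j).V → ℝ) (hS : ∀ a, Scl 𝒰 (r a) (s a) m) (hp : PosW 𝒰 m) :
    ∃ w : (j : J) → (P j).V → ℝ, Rw 𝒰 m w ∧ ∀ a : M, ∃ (ρ : ℕ) (g : Fin ρ → ι → Fin 2 → ℤ),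
      (∀ i k, ¬ (k ∈ W ∧ cls k = a) → g i k = 0) ∧ LinearIndependent ℤ g ∧
      (∀ i, Flat 𝒰 (s a) w (lamU (mon 𝒰 P c (g i)))) ∧
      ∀ (w' : (j : J) → (P j).V → ℝ) (y : ι → Fin 2 → ℤ), Rw 𝒰 w w' →
        (∀ k, ¬ (k ∈ W ∧ cls k = a) → y k = 0) → Flat 𝒰 (s a) w' (lamU (mon 𝒰 P c y)) →
        y ∈ Submodule.span ℤ (Set.range g) := by
  rcases isEmpty_or_nonempty M with hM | ⟨⟨a₀⟩⟩
  · -- no conditions
    refine ⟨fun j v => max (m j v) 0, ⟨fun j v => le_max_right _ _, fun j v => ?_, ?_⟩,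
      fun a => (hM.false a).elim⟩
    · rcases le_total (m j v) 0 with h | h
      · exact Or.inl (max_eq_right h)
      · exact Or.inr (max_eq_left h)
    · obtain ⟨μ, hμ, h⟩ := hp
      refine ⟨μ, hμ, ?_⟩
      filter_upwards [h] with j hj
      exact hj.trans (Finset.sum_le_sum fun v _ => le_max_left _ _)
  have hm0 : ∀ j v, 0 ≤ m j v := (hS a₀).w0
  let F : (a : M) → {w : (j : J) → (P j).V → ℝ // Rw 𝒰 m w} → Submodule ℤ (ι → Fin 2 → ℤ) :=
    fun a x => fg ((hS a).mono x.2) (fun k => k ∈ W ∧ cls k = a) c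
  obtain ⟨⟨w, hmw⟩, -, hst⟩ := ty_exists_stable
    (Ω := {w : (j : J) → (P j).V → ℝ // Rw 𝒰 m w}) (M := M)
    (α := fun _ => Submodule ℤ (ι → Fin 2 → ℤ)) (fun x y => Rw 𝒰 x.1 y.1)
    (fun x y z hxy hyz => hxy.trans hyz) (fun x y hxy => hxy.right) F
    (fun a x y hxy z hz => ⟨hz.1, hz.2.restrict x.2.nn hxy⟩)
    ⟨m, Rw.refl hm0 hp⟩ (Rw.refl hm0 hp)
  refine ⟨w, hmw, fun a => ?_⟩
  obtain ⟨ρ, b⟩ := Submodule.basisOfPid (Module.Free.chooseBasis ℤ (ι → Fin 2 → ℤ)) (F a ⟨w, hmw⟩)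
  refine ⟨ρ, fun i => (b i : ι → Fin 2 → ℤ), fun i => (b i).2.1, ?_, fun i => (b i).2.2, ?_⟩
  · exact b.linearIndependent.map' (Submodule.subtype _) (Submodule.ker_subtype _)
  · intro w' y hw' hy hf
    have h1 : y ∈ F a ⟨w, hmw⟩ := by
      have h2 := hst a ⟨w', hmw.trans hw'⟩ hw'
      rw [← h2]
      exact ⟨hy, hf⟩
    have h3 : Submodule.span ℤ (Set.range fun i => (b i : ι → Fin 2 → ℤ)) = F a ⟨w, hmw⟩ := by
      have h4 : (Set.range fun i => (b i : ι → Fin 2 → ℤ)) =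
          (Submodule.subtype (F a ⟨w, hmw⟩)) '' Set.range b := by
        rw [← Set.range_comp]
        rfl
      rw [h4, ← Submodule.map_span, b.span_eq, Submodule.map_top, Submodule.range_subtype]
    rw [h3]
    exact h1

end Pool.Agent.LSharp
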