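import Pool.Agent.LSharp.TYCls
import Pool.Agent.LSharp.TYStG
import Pool.Agent.LSharp.TYMass
import Pool.Agent.LSharp.TYGlue

set_option autoImplicit false

/-! TY21. The type (section 1 of `LSharp_Proof.md`). -/

namespace Pool.Agent.LSharp

open Filter NumberField Pool.Agent.LAll

/-- The representatives of `uni (tU k) i`. -/
private theorem uni_rep {ι J : Type} {𝒰 : Ultrafilter J} {P : J → Pt ι} (c : ι → Fin 3) (k : ι)
    (i : Fin 3) : ∀ᶠ j in (𝒰 : Filter J),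
      (uni (tU 𝒰 P c k) i).rep j = uni (tt (c k) ((P j).x k)) i := by
  have h : uni (tU 𝒰 P c k) i =
      Ult.mk 𝒰 (Kof P) (fun j => uni (tt (c k) ((P j).x k)) i) := by
    fin_cases i
    · rfl
    · change 1 - tU 𝒰 P c k = Ult.mk 𝒰 (Kof P) (1 - fun j => tt (c k) ((P j).x k))
      rw [map_sub, map_one]
      rfl
    · change tU 𝒰 P c k - 2 = Ult.mk 𝒰 (Kof P) ((fun j => tt (c k) ((P j).x k)) - 2)
      rw [map_sub, map_ofNat]
      rfl
  rw [h]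
  exact Ult.rep_mk _

/-- `A*` is contained in the field generated by the `t_k`. -/
private theorem ast_le {ι J : Type} [Fintype ι] {𝒰 : Ultrafilter J} {P : J → Pt ι} (r : J → ℝ)
    (c : ι → Fin 3) (W : Finset ι) {ρ : ℕ} (g : Fin ρ → ι → Fin 2 → ℤ)
    (hg : ∀ i k, k ∉ W → g i k = 0) (S : Set (Ult 𝒰 (Kof P)))
    (hS : ∀ k ∈ W, tU 𝒰 P c k ∈ S) {x : Ult 𝒰 (Kof P)} (hx : x ∈ Ast 𝒰 P r c W g) :
    x ∈ IntermediateField.adjoin (kf 𝒰 (Kof P) r) S := by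
  have hle : Ast 𝒰 P r c W g ≤
      (IntermediateField.adjoin (kf 𝒰 (Kof P) r) S).toSubalgebra := by
    refine Algebra.adjoin_le ?_
    have hk : ∀ k ∈ W, tU 𝒰 P c k ∈ IntermediateField.adjoin (kf 𝒰 (Kof P) r) S :=
      fun k hk => IntermediateField.subset_adjoin _ _ (hS k hk)
    have hm : ∀ i, mon 𝒰 P c (g i) ∈ IntermediateField.adjoin (kf 𝒰 (Kof P) r) S := fun i =>
      mon_mem c W (g i) (hg i) (IntermediateField.adjoin (kf 𝒰 (Kof P) r) S).toSubfield hk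
    rintro x (⟨k, hkW, rfl⟩ | ⟨i, rfl⟩ | ⟨i, rfl⟩)
    · exact hk k hkW
    · exact hm i
    · exact (IntermediateField.adjoin (kf 𝒰 (Kof P) r) S).inv_mem (hm i)
  exact hle hx

/-- **The type.** `exists_stable_G` gives `w₀` and `ρ a`, `g a`; `exists_stable_Q` with
`W a = {k ∈ W | cls k = a}` gives `w`, a restriction of `m` (`Rw.trans`). For every class
`exists_type_class` (`hc`: `Rw.ne`; `hg`: `Flat.restrict`; `hgs`: from `exists_stable_G` because a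
restriction of `w` is a restriction of `w₀`; the sets `{b // b ∈ BB ∧ cls b = a}` and
`BB.filter (cls · = a)` are the same: `AlgebraicIndependent.comp` with the bijection). The families `g a` are
joined by `glue_families`. The last part: `exists_mass` for the finite families of conditions:
`lamU (mon (g i))` and its negative, `lamU (Z a i)`, `lamU (uni (tU k) i)` (`uni_mem_Ast`), and `NgW` for
`lamU (Y a i)`; `mon_rep`, `tU_rep` for the explicit forms (`|x| ≤ y` iff `x ≤ y` and `-x ≤ y`). -/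
theorem exists_type {ι J M : Type} [Fintype ι] [DecidableEq ι] [Fintype M] [DecidableEq M]
    (𝒰 : Ultrafilter J) (P : J → Pt ι) (W : Finset ι) (cls : ι → M) (c : ι → Fin 3)
    (h rr : M → J → ℝ) (hr1 : ∀ a j, 1 ≤ rr a j) (hh1 : ∀ a j, 1 ≤ h a j)
    (hhr : ∀ a, Tendsto (fun j => h a j / rr a j) (𝒰 : Filter J) atTop)
    (m : (j : J) → (P j).V → ℝ) (hm0 : ∀ j v, 0 ≤ m j v)
    (hm2 : ∃ μ : ℝ, 0 < μ ∧ ∀ᶠ j in (𝒰 : Filter J), μ ≤ ∑ v, m j v)
    (hc : ∀ᶠ j in (𝒰 : Filter J), ∀ v, m j v ≠ 0 → ∀ k ∈ W, (P j).cor v k = c k)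
    (BB : Finset ι) (hBB : BB ⊆ W)
    (hind : ∀ a, AlgebraicIndependent (kf 𝒰 (Kof P) (rr a))
      (fun b : {b // b ∈ BB ∧ cls b = a} => tU 𝒰 P c b))
    (halg : ∀ k ∈ W, IsAlgebraic (Algebra.adjoin (kf 𝒰 (Kof P) (rr (cls k)))
      {x | ∃ b ∈ BB, cls b = cls k ∧ x = tU 𝒰 P c b}) (tU 𝒰 P c k)) :
    ∃ (ρ : ℕ) (g : Fin ρ → ι → Fin 2 → ℤ) (gc : Fin ρ → M) (cc mu : M → ℕ)
      (Y : (a : M) → Fin (cc a) → Ult 𝒰 (Kof P)) (Z : (a : M) → Fin (mu a) → Ult 𝒰 (Kof P)),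
      (∀ i k, ¬ (k ∈ W ∧ cls k = gc i) → g i k = 0) ∧ LinearIndependent ℤ g ∧
      (∀ a, cc a + mu a = (BB.filter fun b => cls b = a).card) ∧
      2 * W.card ≤ ρ + ∑ a, cc a ∧
      (∀ a i, Y a i ≠ 0) ∧
      (∀ a i, Y a i ∈ IntermediateField.adjoin (kf 𝒰 (Kof P) (rr a))
        {x | ∃ k ∈ W, cls k = a ∧ x = tU 𝒰 P c k}) ∧
      (∀ a i, Z a i ∈ IntermediateField.adjoin (kf 𝒰 (Kof P) (rr a))
        {x | ∃ k ∈ W, cls k = a ∧ x = tU 𝒰 P c k}) ∧
      (∀ k ∈ W, ∀ i : Fin 3, IsIntegral (Algebra.adjoin (kf 𝒰 (Kof P) (rr (cls k)))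
        (Set.range (Y (cls k)) ∪ Set.range (Z (cls k)))) (uni (tU 𝒰 P c k) i)) ∧
      (∀ i, IsIntegral (Algebra.adjoin (kf 𝒰 (Kof P) (rr (gc i)))
        (Set.range (Y (gc i)) ∪ Set.range (Z (gc i)))) (mon 𝒰 P c (g i))) ∧
      (∀ i, IsIntegral (Algebra.adjoin (kf 𝒰 (Kof P) (rr (gc i)))
        (Set.range (Y (gc i)) ∪ Set.range (Z (gc i)))) (mon 𝒰 P c (g i))⁻¹) ∧
      ∃ ε : ℝ, 0 < ε ∧ ∃ μ₀ : ℝ, 0 < μ₀ ∧ ∀ δ : ℝ, 0 < δ → ∀ᶠ j in (𝒰 : Filter J),
        μ₀ ≤ ms (m j) (fun v =>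
          (∀ i, |lam v (∏ k, tt (c k) ((P j).x k) ^ (g i k 0) *
            (1 - tt (c k) ((P j).x k)) ^ (g i k 1))| ≤ δ * h (gc i) j * m j v) ∧
          (∀ a i, lam v ((Y a i).rep j) ≤ -(ε * h a j * m j v)) ∧
          (∀ a i, lam v ((Z a i).rep j) ≤ δ * h a j * m j v) ∧
          ∀ k ∈ W, ∀ i : Fin 3, lam v (uni (tt (c k) ((P j).x k)) i) ≤
            δ * h (cls k) j * m j v) := by
  classical
  -- the classes
  have hS : ∀ a, Scl 𝒰 (rr a) (h a) m := fun a => ⟨hr1 a, hh1 a, hhr a, hm0⟩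
  obtain ⟨w₀, hR0, hG⟩ := exists_stable_G (𝒰 := 𝒰) (P := P) W cls c rr h m hS hm2
  choose ρ g hg0 hgi hgF hgs using hG
  have hS0 : ∀ a, Scl 𝒰 (rr a) (h a) w₀ := fun a => (hS a).mono hR0
  have hc0 : ∀ᶠ j in (𝒰 : Filter J), ∀ v, w₀ j v ≠ 0 → ∀ a,
      ∀ k ∈ W.filter (fun k => cls k = a), (P j).cor v k = c k := by
    filter_upwards [hc] with j hj v hv a k hk
    exact hj v (hR0.ne hv) k (Finset.mem_filter.1 hk).1
  obtain ⟨w, hR1, hst⟩ := exists_stable_Q (fun a => W.filter (fun k => cls k = a)) c rr h w₀ hS0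
    hR0.pos hc0 ρ g hgF
  have hRw : Rw 𝒰 m w := hR0.trans hR1
  have hcw : ∀ a, ∀ᶠ j in (𝒰 : Filter J), ∀ v, w j v ≠ 0 →
      ∀ k ∈ W.filter (fun k => cls k = a), (P j).cor v k = c k := by
    intro a
    filter_upwards [hc0] with j hj v hv
    exact hj v (hR1.ne hv) a
  have hgW : ∀ a i k, k ∉ W.filter (fun k => cls k = a) → g a i k = 0 := by
    intro a i k hk
    exact hg0 a i k (by simpa using hk)
  have hmw : ∀ a, Scl 𝒰 (rr a) (h a) w := fun a => (hS a).mono hRw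
  have hflat : ∀ a i, Flat 𝒰 (h a) w (lamU (mon 𝒰 P c (g a i))) :=
    fun a i => (hgF a i).restrict hR0.nn hR1
  have hcls : ∀ a, ∃ (cc mu : ℕ) (Y : Fin cc → Ult 𝒰 (Kof P)) (Z : Fin mu → Ult 𝒰 (Kof P)),
      cc + mu = (BB.filter fun b => cls b = a).card ∧
      2 * (W.filter (fun k => cls k = a)).card ≤ ρ a + cc ∧ (∀ i, Y i ≠ 0) ∧
      (∀ i, Y i ∈ Ast 𝒰 P (rr a) c (W.filter (fun k => cls k = a)) (g a)) ∧
      (∀ i, Z i ∈ Ast 𝒰 P (rr a) c (W.filter (fun k => cls k = a)) (g a)) ∧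
      (∀ x ∈ Ast 𝒰 P (rr a) c (W.filter (fun k => cls k = a)) (g a),
        IsIntegral (Algebra.adjoin (kf 𝒰 (Kof P) (rr a)) (Set.range Y ∪ Set.range Z)) x) ∧
      (∀ i, NgW 𝒰 (h a) w (lamU (Y i))) ∧
      ∀ x ∈ Ast 𝒰 P (rr a) c (W.filter (fun k => cls k = a)) (g a),
        LeW 𝒰 (h a) w (lamU x) := by
    intro a
    have hind' : AlgebraicIndependent (kf 𝒰 (Kof P) (rr a))
        (fun b : (BB.filter fun b => cls b = a) => tU 𝒰 P c b) := by
      have := (hind a).comp (fun b : (BB.filter fun b => cls b = a) =>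
        (⟨b, Finset.mem_filter.1 b.2⟩ : {b // b ∈ BB ∧ cls b = a})) (by
          intro b b' hbb
          apply Subtype.ext
          exact congrArg (fun x : {b // b ∈ BB ∧ cls b = a} => (x : ι)) hbb)
      exact this
    have halg' : ∀ k ∈ W.filter (fun k => cls k = a),
        IsAlgebraic (Algebra.adjoin (kf 𝒰 (Kof P) (rr a))
          (Set.range fun b : (BB.filter fun b => cls b = a) => tU 𝒰 P c b)) (tU 𝒰 P c k) := by
      intro k hk
      obtain ⟨hkW, rfl⟩ := Finset.mem_filter.1 hk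
      have h1 := halg k hkW
      have h2 : {x | ∃ b ∈ BB, cls b = cls k ∧ x = tU 𝒰 P c b} =
          Set.range fun b : (BB.filter fun b => cls b = cls k) => tU 𝒰 P c b := by
        ext x
        constructor
        · rintro ⟨b, hb, hbk, rfl⟩
          exact ⟨⟨b, Finset.mem_filter.2 ⟨hb, hbk⟩⟩, rfl⟩
        · rintro ⟨b, rfl⟩
          exact ⟨b, (Finset.mem_filter.1 b.2).1, (Finset.mem_filter.1 b.2).2, rfl⟩
      rwa [h2] at h1
    exact exists_type_class (hmw a) hR1.pos (W.filter (fun k => cls k = a))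
      (BB.filter fun b => cls b = a) (Finset.filter_subset_filter _ hBB) c (hcw a) hind' halg'
      (g a) (hgW a) (hgi a) (hflat a)
      (fun w' y hw' hy hf => hgs a w' y (hR1.trans hw') (fun k hk => hy k (by simpa using hk)) hf)
      (hst a)
  choose cc mu Y Z hcm hineq hY0 hYm hZm hint hYN hLe using hcls
  obtain ⟨g', gc, hg'0, hg'i, hg'e⟩ := glue_families W cls ρ g hg0 hgi
  have hsubS : ∀ a, ∀ k ∈ W.filter (fun k => cls k = a),
      tU 𝒰 P c k ∈ {x | ∃ k ∈ W, cls k = a ∧ x = tU 𝒰 P c k} := by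
    intro a k hk
    exact ⟨k, (Finset.mem_filter.1 hk).1, (Finset.mem_filter.1 hk).2, rfl⟩
  have hself : ∀ k ∈ W, k ∈ W.filter (fun k' => cls k' = cls k) :=
    fun k hk => Finset.mem_filter.2 ⟨hk, rfl⟩
  refine ⟨∑ a, ρ a, g', gc, cc, mu, Y, Z, hg'0, hg'i, hcm, ?_, hY0, ?_, ?_, ?_, ?_, ?_, ?_⟩
  · have h1 : W.card = ∑ a, (W.filter (fun k => cls k = a)).card :=
      Finset.card_eq_sum_card_fiberwise (fun k _ => Finset.mem_coe.2 (Finset.mem_univ _))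
    rw [h1, Finset.mul_sum, ← Finset.sum_add_distrib]
    exact Finset.sum_le_sum fun a _ => hineq a
  · intro a i
    exact ast_le (rr a) c _ (g a) (hgW a) _ (hsubS a) (hYm a i)
  · intro a i
    exact ast_le (rr a) c _ (g a) (hgW a) _ (hsubS a) (hZm a i)
  · intro k hk i
    exact hint (cls k) _ (uni_mem_Ast _ _ _ _ (hself k hk) i)
  · intro i
    obtain ⟨i', e⟩ := hg'e i
    rw [e]
    exact hint (gc i) _ (Algebra.subset_adjoin (Or.inr (Or.inl ⟨i', rfl⟩)))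
  · intro i
    obtain ⟨i', e⟩ := hg'e i
    rw [e]
    exact hint (gc i) _ (Algebra.subset_adjoin (Or.inr (Or.inr ⟨i', rfl⟩)))
  · -- the mass
    let α : Type := Fin (∑ a, ρ a) ⊕ Fin (∑ a, ρ a) ⊕ (Σ a, Fin (mu a)) ⊕ ({k // k ∈ W} × Fin 3)
    let β : Type := Σ a, Fin (cc a)
    let s : α → J → ℝ := Sum.elim (fun i => h (gc i)) (Sum.elim (fun i => h (gc i))
      (Sum.elim (fun q => h q.1) (fun q => h (cls q.1))))
    let f : α → (j : J) → (P j).V → ℝ := Sum.elim (fun i => lamU (mon 𝒰 P c (g' i)))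
      (Sum.elim (fun i j v => -lamU (mon 𝒰 P c (g' i)) j v)
      (Sum.elim (fun q => lamU (Z q.1 q.2)) (fun q => lamU (uni (tU 𝒰 P c q.1) q.2))))
    let s' : β → J → ℝ := fun q => h q.1
    let f' : β → (j : J) → (P j).V → ℝ := fun q => lamU (Y q.1 q.2)
    have hf : ∀ a, LeW 𝒰 (s a) w (f a) := by
      rintro (i | i | q | q)
      · obtain ⟨i', e⟩ := hg'e i
        change LeW 𝒰 (h (gc i)) w (lamU (mon 𝒰 P c (g' i)))
        rw [e]
        exact (hflat (gc i) i').1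
      · obtain ⟨i', e⟩ := hg'e i
        change LeW 𝒰 (h (gc i)) w (fun j v => -lamU (mon 𝒰 P c (g' i)) j v)
        rw [e]
        exact (hflat (gc i) i').2
      · exact hLe q.1 _ (hZm q.1 q.2)
      · exact hLe (cls q.1) _ (uni_mem_Ast _ _ _ _ (hself q.1 q.1.2) q.2)
    have hf' : ∀ b, NgW 𝒰 (s' b) w (f' b) := fun q => hYN q.1 q.2
    obtain ⟨ε, hε, μ₀, hμ₀, hmass⟩ := exists_mass hm0 hRw s f s' f'
      (fun q j => zero_le_one.trans (hh1 q.1 j)) hf hf'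
    refine ⟨ε, hε, μ₀, hμ₀, fun δ hδ => ?_⟩
    filter_upwards [hmass δ hδ,
      Filter.eventually_all.2 (fun i => mon_rep (𝒰 := 𝒰) (P := P) c (g' i)),
      Filter.eventually_all.2 (fun k => Filter.eventually_all.2
        (fun i => uni_rep (𝒰 := 𝒰) (P := P) c k i))] with j h1 h2 h3
    refine h1.trans (ms_mono (hm0 j) (fun v _ hv => ?_))
    obtain ⟨hv1, hv2⟩ := hv
    refine ⟨fun i => ?_, fun a i => hv2 ⟨a, i⟩, fun a i => hv1 (Sum.inr (Sum.inr (Sum.inl ⟨a, i⟩))),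
      fun k hk i => ?_⟩
    · rw [← h2 i]
      have e1 : lamU (mon 𝒰 P c (g' i)) j v ≤ δ * h (gc i) j * m j v := hv1 (Sum.inl i)
      have e2 : -lamU (mon 𝒰 P c (g' i)) j v ≤ δ * h (gc i) j * m j v :=
        hv1 (Sum.inr (Sum.inl i))
      have e3 : -lam v ((mon 𝒰 P c (g' i)).rep j) ≤ δ * h (gc i) j * m j v := e2
      exact abs_le.2 ⟨by linarith, e1⟩
    · rw [← h3 k i]
      exact hv1 (Sum.inr (Sum.inr (Sum.inr (⟨k, hk⟩, i))))

end Pool.Agent.LSharp
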