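import Pool.Agent.LSharp.TYDefs

set_option autoImplicit false

/-! TY4. Rules for `lamU`. -/

namespace Pool.Agent.LSharp

open Filter NumberField Pool.Agent.LAll

variable {ι J : Type} [Finite ι] {𝒰 : Ultrafilter J} {P : J → Pt ι}

omit [Finite ι] in
private theorem rep_of_eq {x : Ult 𝒰 (Kof P)} {z : ∀ j, Kof P j}
    (h : Ult.mk 𝒰 (Kof P) z = x) : ∀ᶠ j in (𝒰 : Filter J), x.rep j = z j := by
  subst h
  exact Ult.rep_mk z

private theorem lam_zero' {Q : Pt ι} (v : Q.V) : lam v (0 : Q.K) = 0 := by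
  have h := lam_inv v (0 : Q.K)
  rw [inv_zero] at h
  linarith

/-- `Ult.rep_mk`. -/
theorem lamU_mk (z : ∀ j, Kof P j) : ∀ᶠ j in (𝒰 : Filter J), ∀ v : (P j).V,
    lamU (Ult.mk 𝒰 (Kof P) z) j v = lam v (z j) := by
  filter_upwards [Ult.rep_mk (𝒰 := 𝒰) z] with j hj v
  unfold lamU
  rw [hj]

/-- `lam v 0 = 0` since `Real.log 0 = 0`. -/
theorem lamU_zero : ∀ᶠ j in (𝒰 : Filter J), ∀ v : (P j).V,
    lamU (0 : Ult 𝒰 (Kof P)) j v = 0 := by
  filter_upwards [rep_of_eq (𝒰 := 𝒰) (P := P) (x := 0) (z := 0) (map_zero _)] with j hj v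
  unfold lamU
  rw [hj]
  exact lam_zero' v

theorem lamU_one : ∀ᶠ j in (𝒰 : Filter J), ∀ v : (P j).V,
    lamU (1 : Ult 𝒰 (Kof P)) j v = 0 := by
  filter_upwards [rep_of_eq (𝒰 := 𝒰) (P := P) (x := 1) (z := 1) (map_one _)] with j hj v
  unfold lamU
  rw [hj]
  exact lam_one v

theorem lamU_neg (x : Ult 𝒰 (Kof P)) : ∀ᶠ j in (𝒰 : Filter J), ∀ v : (P j).V,
    lamU (-x) j v = lamU x j v := by
  filter_upwards [rep_of_eq (𝒰 := 𝒰) (P := P) (x := -x) (z := -x.rep)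
    (by rw [map_neg, Ult.mk_rep])] with j hj v
  unfold lamU
  rw [hj]
  exact lam_neg v _

/-- `(x * y).rep j = x.rep j * y.rep j` for most `j` (`Ult.mk_eq_mk`, `map_mul`, `Ult.mk_rep`), both
factors are nonzero for most `j` (`Ult.rep_ne_zero`), `lam_mul`. -/
theorem lamU_mul {x y : Ult 𝒰 (Kof P)} (hx : x ≠ 0) (hy : y ≠ 0) :
    ∀ᶠ j in (𝒰 : Filter J), ∀ v : (P j).V, lamU (x * y) j v = lamU x j v + lamU y j v := by
  filter_upwards [rep_of_eq (𝒰 := 𝒰) (P := P) (x := x * y) (z := x.rep * y.rep)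
    (by rw [map_mul, Ult.mk_rep, Ult.mk_rep]), Ult.rep_ne_zero hx, Ult.rep_ne_zero hy] with
    j hj h1 h2 v
  unfold lamU
  rw [hj]
  exact lam_mul v h1 h2

/-- Also for `x = 0`. `lam_inv`. -/
theorem lamU_inv (x : Ult 𝒰 (Kof P)) : ∀ᶠ j in (𝒰 : Filter J), ∀ v : (P j).V,
    lamU x⁻¹ j v = -lamU x j v := by
  filter_upwards [rep_of_eq (𝒰 := 𝒰) (P := P) (x := x⁻¹) (z := fun j => (x.rep j)⁻¹)
    (by rw [Ult.mk_inv, Ult.mk_rep])] with j hj v
  unfold lamU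
  rw [hj]
  exact lam_inv v _

theorem lamU_zpow (x : Ult 𝒰 (Kof P)) (n : ℤ) : ∀ᶠ j in (𝒰 : Filter J), ∀ v : (P j).V,
    lamU (x ^ n) j v = n * lamU x j v := by
  have key : Ult.mk 𝒰 (Kof P) (fun j => x.rep j ^ n) = x ^ n := by
    obtain ⟨m, rfl | rfl⟩ := n.eq_nat_or_neg
    · have h1 : (fun j => x.rep j ^ (m : ℤ)) = x.rep ^ m := by
        funext j
        rw [zpow_natCast, Pi.pow_apply]
      rw [h1, map_pow, Ult.mk_rep, zpow_natCast]
    · have h1 : (fun j => x.rep j ^ (-(m : ℤ))) = fun j => ((x.rep ^ m) j)⁻¹ := by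
        funext j
        rw [zpow_neg, zpow_natCast, Pi.pow_apply]
      rw [h1, Ult.mk_inv, map_pow, Ult.mk_rep, zpow_neg, zpow_natCast]
  filter_upwards [rep_of_eq (𝒰 := 𝒰) (P := P) key] with j hj v
  unfold lamU
  rw [hj]
  exact lam_zpow v _ n

/-- `lam_prod`. -/
theorem lamU_prod {α : Type} (t : Finset α) (f : α → Ult 𝒰 (Kof P)) (h : ∀ a ∈ t, f a ≠ 0) :
    ∀ᶠ j in (𝒰 : Filter J), ∀ v : (P j).V,
      lamU (∏ a ∈ t, f a) j v = ∑ a ∈ t, lamU (f a) j v := by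
  have h1 : ∀ᶠ j in (𝒰 : Filter J), ∀ a ∈ t, (f a).rep j ≠ 0 :=
    (Filter.eventually_all_finset t).2 fun a ha => Ult.rep_ne_zero (h a ha)
  filter_upwards [rep_of_eq (𝒰 := 𝒰) (P := P) (x := ∏ a ∈ t, f a) (z := ∏ a ∈ t, (f a).rep)
    (by rw [map_prod]; exact Finset.prod_congr rfl fun a _ => Ult.mk_rep _), h1] with j hj h2 v
  unfold lamU
  rw [hj, Finset.prod_apply]
  exact lam_prod v t _ h2

/-- `lam_sum_le` for the two terms (the terms which are `0` do not matter). -/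
theorem lamU_add_le {x y : Ult 𝒰 (Kof P)} (h : x + y ≠ 0) :
    ∀ᶠ j in (𝒰 : Filter J), ∀ v : (P j).V,
      lamU (x + y) j v ≤ max (lamU x j v) (lamU y j v) + wt v * Real.log 2 := by
  filter_upwards [rep_of_eq (𝒰 := 𝒰) (P := P) (x := x + y) (z := x.rep + y.rep)
    (by rw [map_add, Ult.mk_rep, Ult.mk_rep]), Ult.rep_ne_zero h] with j hj h1 v
  unfold lamU
  rw [hj] at h1 ⊢
  have h2 := lam_sum_le v (Finset.univ : Finset (Fin 2)) ![x.rep j, y.rep j]
    (max (lam v (x.rep j)) (lam v (y.rep j))) 2 (by simp) (fun a _ _ => by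
      fin_cases a
      · exact le_max_left _ _
      · exact le_max_right _ _) (by rw [Fin.sum_univ_two]; exact h1)
  rw [Fin.sum_univ_two] at h2
  exact h2

/-- `lam_sum_le`: for most `j` the sum of the representatives is the representative of the sum (finitely
many terms). -/
theorem lamU_sum_le {α : Type} (t : Finset α) (f : α → Ult 𝒰 (Kof P))
    (h : ∑ a ∈ t, f a ≠ 0) : ∀ᶠ j in (𝒰 : Filter J), ∀ (v : (P j).V) (X : ℝ),
      (∀ a ∈ t, f a ≠ 0 → lamU (f a) j v ≤ X) →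
        lamU (∑ a ∈ t, f a) j v ≤ X + wt v * Real.log t.card := by
  have h1 : ∀ᶠ j in (𝒰 : Filter J), ∀ a ∈ t, f a = 0 → (f a).rep j = 0 := by
    refine (Filter.eventually_all_finset t).2 fun a _ => ?_
    by_cases h0 : f a = 0
    · filter_upwards [rep_of_eq (𝒰 := 𝒰) (P := P) (x := f a) (z := 0)
        (by rw [map_zero, h0])] with j hj _
      exact hj
    · exact Filter.Eventually.of_forall fun j h2 => absurd h2 h0
  filter_upwards [rep_of_eq (𝒰 := 𝒰) (P := P) (x := ∑ a ∈ t, f a) (z := ∑ a ∈ t, (f a).rep)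
    (by rw [map_sum]; exact Finset.sum_congr rfl fun a _ => Ult.mk_rep _), h1,
    Ult.rep_ne_zero h] with j hj h2 h3 v X hX
  unfold lamU
  rw [hj, Finset.sum_apply] at h3 ⊢
  exact lam_sum_le v t _ X _ le_rfl (fun a ha hne => hX a ha fun h0 => hne (h2 a ha h0)) h3

end Pool.Agent.LSharp
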