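import Pool.Agent.LSharp.TYDefs

set_option autoImplicit false

/-! TY1. The mass `ms`. -/

namespace Pool.Agent.LSharp

variable {α : Type} [Fintype α] {w : α → ℝ}

theorem ms_nonneg (hw : ∀ v, 0 ≤ w v) (p : α → Prop) : 0 ≤ ms w p := by
  classical
  unfold ms
  refine Finset.sum_nonneg fun v _ => ?_
  split_ifs
  · exact hw v
  · exact le_rfl

/-- Termwise. -/
theorem ms_mono (hw : ∀ v, 0 ≤ w v) {p q : α → Prop} (h : ∀ v, w v ≠ 0 → p v → q v) :
    ms w p ≤ ms w q := by
  classical
  unfold ms
  refine Finset.sum_le_sum fun v _ => ?_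
  by_cases h0 : w v = 0
  · simp [h0]
  · by_cases hp : p v
    · rw [if_pos hp, if_pos (h v h0 hp)]
    · rw [if_neg hp]
      split_ifs
      · exact hw v
      · exact le_rfl

/-- Termwise. -/
theorem ms_or_le (hw : ∀ v, 0 ≤ w v) {p q r : α → Prop} (h : ∀ v, w v ≠ 0 → p v → q v ∨ r v) :
    ms w p ≤ ms w q + ms w r := by
  classical
  unfold ms
  rw [← Finset.sum_add_distrib]
  refine Finset.sum_le_sum fun v _ => ?_
  have := hw v
  by_cases h0 : w v = 0
  · simp [h0]
  · have h1 := h v h0
    by_cases hp : p v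
    · rcases h1 hp with h2 | h2
      · rw [if_pos hp, if_pos h2]
        split_ifs <;> linarith
      · rw [if_pos hp, if_pos h2]
        split_ifs <;> linarith
    · rw [if_neg hp]
      split_ifs <;> linarith

/-- Termwise (`ms w p ≤ ∑ b, ms w (q b)`, the sum is exchanged). -/
theorem ms_ex_le (hw : ∀ v, 0 ≤ w v) {β : Type} [Fintype β] {p : α → Prop} {q : β → α → Prop}
    (h : ∀ v, w v ≠ 0 → p v → ∃ b, q b v) : ms w p ≤ ∑ b, ms w (q b) := by
  classical
  unfold ms
  rw [Finset.sum_comm]
  refine Finset.sum_le_sum fun v _ => ?_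
  have h2 : ∀ b, 0 ≤ (if q b v then w v else 0) := by
    intro b
    split_ifs
    · exact hw v
    · exact le_rfl
  by_cases h0 : w v = 0
  · simp [h0]
  · by_cases hp : p v
    · obtain ⟨b, hb⟩ := h v h0 hp
      rw [if_pos hp]
      have h3 := Finset.single_le_sum (f := fun b => if q b v then w v else 0)
        (fun b _ => h2 b) (Finset.mem_univ b)
      simp only [if_pos hb] at h3
      exact h3
    · rw [if_neg hp]
      exact Finset.sum_nonneg fun b _ => h2 b

/-- Termwise. -/
theorem sum_le_ms_add (w : α → ℝ) (p : α → Prop) : ∑ v, w v ≤ ms w p + ms w (fun v => ¬ p v) := by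
  classical
  unfold ms
  rw [← Finset.sum_add_distrib]
  refine Finset.sum_le_sum fun v _ => ?_
  by_cases hp : p v <;> simp [hp]

/-- Termwise: `w' = 0` or `w' = w`. -/
theorem ms_restrict {w' : α → ℝ} (hw : ∀ v, 0 ≤ w v) (hr : ∀ v, w' v = 0 ∨ w' v = w v)
    {p q : α → Prop} (h : ∀ v, w' v ≠ 0 → p v → q v) : ms w' p ≤ ms w q := by
  classical
  unfold ms
  refine Finset.sum_le_sum fun v _ => ?_
  have := hw v
  rcases hr v with h0 | h0
  · rw [h0]
    split_ifs <;> linarith
  · by_cases h1 : w' v = 0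
    · rw [h1]
      split_ifs <;> linarith
    · by_cases hp : p v
      · rw [if_pos hp, if_pos (h v h1 hp), h0]
      · rw [if_neg hp]
        split_ifs <;> linarith

end Pool.Agent.LSharp
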