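import Pool.Agent.LSharp.TYNag
import Pool.Agent.LSharp.TYTrd

set_option autoImplicit false

/-! TY14. Noether normalisation adapted to a prime ideal. -/

namespace Pool.Agent.LSharp

open MvPolynomial

/-- transitivity for subalgebras -/
private lemma tynn_trans {k B : Type} [Field k] [CommRing B] [Algebra k B] {S T : Subalgebra k B}
    (h : ∀ t ∈ T, IsIntegral S t) {x : B} (hx : IsIntegral T x) : IsIntegral S x := by
  let φ : T →+* integralClosure S B :=
    RingHom.codRestrict (algebraMap T B) (integralClosure S B) fun t => h t.1 t.2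
  have h1 : IsIntegral (integralClosure S B) (RingHom.id B x) :=
    hx.map_of_comp_eq φ (RingHom.id B) rfl
  exact isIntegral_trans (R := S) (A := integralClosure S B) x h1

/-- it is enough that the generators are integral -/
private lemma tynn_adjoin {k B : Type} [Field k] [CommRing B] [Algebra k B] {S : Subalgebra k B}
    {G : Set B} (h : ∀ g ∈ G, IsIntegral S g) {x : B} (hx : IsIntegral (Algebra.adjoin k G) x) :
    IsIntegral S x := by
  refine tynn_trans (fun t ht => ?_) hx
  have h1 : Algebra.adjoin k G ≤ (integralClosure S B).restrictScalars k :=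
    Algebra.adjoin_le h
  exact h1 ht

private lemma tynn_mem {k B : Type} [Field k] [CommRing B] [Algebra k B] {S : Subalgebra k B}
    {x : B} (hx : x ∈ S) : IsIntegral S x :=
  isIntegral_algebraMap (R := S) (x := ⟨x, hx⟩)

/-- the image of an integral element -/
private lemma tynn_map {k B B' : Type} [Field k] [CommRing B] [Algebra k B] [CommRing B']
    [Algebra k B'] (φ : B →ₐ[k] B') {G : Set B} {x : B}
    (hx : IsIntegral (Algebra.adjoin k G) x) : IsIntegral (Algebra.adjoin k (φ '' G)) (φ x) := by
  have hmem : ∀ t : Algebra.adjoin k G, φ t.1 ∈ Algebra.adjoin k (φ '' G) := by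
    intro t
    rw [← AlgHom.map_adjoin]
    exact ⟨t.1, t.2, rfl⟩
  let ψ : Algebra.adjoin k G →+* Algebra.adjoin k (φ '' G) :=
    RingHom.codRestrict ((φ : B →+* B').comp (algebraMap (Algebra.adjoin k G) B))
      (Algebra.adjoin k (φ '' G)) hmem
  exact hx.map_of_comp_eq ψ (φ : B →+* B') rfl

/-- Polynomial ring. Induction on `n`. If `𝔭 = ⊥`: no `Y`, `Z = X`. Otherwise take `f ∈ 𝔭`, `f ≠ 0`; it is
not constant (a nonzero constant is a unit; `𝔭` is proper), so `n = n' + 1`, and `nagata` gives `x'`. Let
`𝔭' = 𝔭.comap (aeval x')`, a prime ideal of `k[X_0 .. X_(n'-1)]`; by induction there are `Y'`, `Z'`.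
`Y = f, Y'(x')` (`Fin.cons`), `Z = Z'(x')` (images under `aeval x'`). Integrality: `k[X]` is integral over
`k[f, x']`, and `x' i` is integral over `k[Y'(x'), Z'(x')]` (image of the statement for `n'` under
`aeval x'`), so all generators of `k[f, x']` are integral over `k[Y, Z]`, and transitivity
(`isIntegral_trans`, `Algebra.IsIntegral.trans`; or: the integral closure of `k[Y, Z]` is integrally closed
and contains `k[f, x']`). `p(Z) = aeval x' (p(Z'))`, so `p(Z) ∈ 𝔭` iff `p(Z') ∈ 𝔭'`. -/
theorem adapted_mvPolynomial {k : Type} [Field k] (n : ℕ) (𝔭 : Ideal (MvPolynomial (Fin n) k))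
    [𝔭.IsPrime] : ∃ (c μ : ℕ) (Y : Fin c → MvPolynomial (Fin n) k)
      (Z : Fin μ → MvPolynomial (Fin n) k), c + μ = n ∧ (∀ i, Y i ∈ 𝔭) ∧
      (∀ p : MvPolynomial (Fin μ) k, p ≠ 0 → aeval Z p ∉ 𝔭) ∧
      ∀ a : MvPolynomial (Fin n) k, IsIntegral (Algebra.adjoin k (Set.range Y ∪ Set.range Z)) a := by
  induction n with
  | zero =>
    have hbot : 𝔭 = ⊥ := by
      by_contra h
      obtain ⟨f, hf, hf0⟩ := Submodule.exists_mem_ne_zero_of_ne_bot h
      have h1 := MvPolynomial.eq_C_of_isEmpty f
      have h2 : coeff 0 f ≠ 0 := by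
        intro h3
        rw [h3, map_zero] at h1
        exact hf0 h1
      rw [h1] at hf
      exact (inferInstance : 𝔭.IsPrime).ne_top
        (Ideal.eq_top_of_isUnit_mem _ hf ((isUnit_iff_ne_zero.2 h2).map C))
    refine ⟨0, 0, Fin.elim0, X, rfl, fun i => i.elim0, ?_, ?_⟩
    · intro p hp
      rw [hbot, aeval_X_left_apply]
      exact hp
    · intro a
      apply tynn_mem
      rw [Algebra.adjoin_union, MvPolynomial.adjoin_range_X, sup_top_eq]
      exact Algebra.mem_top
  | succ n ih =>
    by_cases h : 𝔭 = ⊥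
    · refine ⟨0, n + 1, Fin.elim0, X, by omega, fun i => i.elim0, ?_, ?_⟩
      · intro p hp
        rw [h, aeval_X_left_apply]
        exact hp
      · intro a
        apply tynn_mem
        rw [Algebra.adjoin_union, MvPolynomial.adjoin_range_X, sup_top_eq]
        exact Algebra.mem_top
    · obtain ⟨f, hf, hf0⟩ := Submodule.exists_mem_ne_zero_of_ne_bot h
      obtain ⟨x', hx'⟩ := nagata f (by
        rintro a rfl
        have h2 : a ≠ 0 := by
          rintro rfl
          exact hf0 (map_zero _)
        exact (inferInstance : 𝔭.IsPrime).ne_top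
          (Ideal.eq_top_of_isUnit_mem _ hf ((isUnit_iff_ne_zero.2 h2).map C)))
      obtain ⟨c, μ, Y, Z, hn, hY, hZ, hint⟩ := ih (𝔭.comap (aeval x' :
        MvPolynomial (Fin n) k →ₐ[k] MvPolynomial (Fin (n + 1)) k))
      refine ⟨c + 1, μ, Fin.cons f fun i => aeval x' (Y i), fun i => aeval x' (Z i), by omega,
        ?_, ?_, ?_⟩
      · intro i
        refine Fin.cases ?_ (fun i => ?_) i
        · exact hf
        · rw [Fin.cons_succ]
          exact hY i
      · intro p hp hmem
        apply hZ p hp
        rw [Ideal.mem_comap, MvPolynomial.comp_aeval_apply]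
        exact hmem
      · intro a
        refine tynn_adjoin ?_ (hx' a)
        rintro g (hg | ⟨i, rfl⟩)
        · rw [Set.mem_singleton_iff] at hg
          subst hg
          apply tynn_mem
          exact Algebra.subset_adjoin (Or.inl ⟨0, rfl⟩)
        · have h1 := tynn_map (aeval x' :
            MvPolynomial (Fin n) k →ₐ[k] MvPolynomial (Fin (n + 1)) k) (hint (X i))
          rw [aeval_X] at h1
          refine tynn_adjoin ?_ h1
          rintro _ ⟨_, ⟨l, rfl⟩ | ⟨l, rfl⟩, rfl⟩
          · apply tynn_mem
            exact Algebra.subset_adjoin (Or.inl ⟨l.succ, rfl⟩)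
          · apply tynn_mem
            exact Algebra.subset_adjoin (Or.inr ⟨l, rfl⟩)

/-- **Noether normalisation adapted to a prime ideal.** `exists_integral_inj_algHom_of_fg` (Noether
normalisation) gives an injective integral `φ : MvPolynomial (Fin n) k →ₐ[k] A`. `adapted_mvPolynomial` for
`q.comap φ`; take the images. Integrality: `A` is integral over the range of `φ`, which is integral over
`k[Y, Z]`. The independent system is `φ (X i)` (`n = c + μ`). `Y i ≠ 0`: otherwise the `n` independent
elements `φ (X i)` would be integral over the algebra generated by `n - 1` elements, against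
`card_le_of_integral`. -/
theorem adapted_normalization {k A : Type} [Field k] [CommRing A] [IsDomain A] [Algebra k A]
    (hA : Algebra.FiniteType k A) (q : Ideal A) [q.IsPrime] :
    ∃ (c μ : ℕ) (Y : Fin c → A) (Z : Fin μ → A), (∀ i, Y i ∈ q) ∧ (∀ i, Y i ≠ 0) ∧
      (∀ p : MvPolynomial (Fin μ) k, p ≠ 0 → aeval Z p ∉ q) ∧
      (∀ a : A, IsIntegral (Algebra.adjoin k (Set.range Y ∪ Set.range Z)) a) ∧
      ∃ x : Fin (c + μ) → A, AlgebraicIndependent k x := by
  haveI := hA
  obtain ⟨n, φ, hφ, hφi⟩ := exists_integral_inj_algHom_of_fg k A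
  obtain ⟨c, μ, Y, Z, rfl, hY, hZ, hint⟩ := adapted_mvPolynomial n (q.comap φ)
  have hx : AlgebraicIndependent k fun i : Fin (c + μ) => φ (X i) :=
    (MvPolynomial.algebraicIndependent_X (Fin (c + μ)) k).map' hφ
  have himg : ∀ p, IsIntegral (Algebra.adjoin k (Set.range (fun i => φ (Y i)) ∪
      Set.range fun i => φ (Z i))) (φ p) := by
    intro p
    have h1 := tynn_map φ (hint p)
    rwa [Set.image_union, ← Set.range_comp, ← Set.range_comp] at h1
  have hall : ∀ a : A, IsIntegral (Algebra.adjoin k (Set.range (fun i => φ (Y i)) ∪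
      Set.range fun i => φ (Z i))) a := by
    intro a
    have h1 : IsIntegral φ.range a := by
      obtain ⟨p, hp, hp'⟩ := hφi a
      refine ⟨p.map (φ.rangeRestrict : _ →+* φ.range), hp.map _, ?_⟩
      rw [Polynomial.eval₂_map]
      exact hp'
    refine tynn_trans ?_ h1
    rintro _ ⟨p, rfl⟩
    exact himg p
  refine ⟨c, μ, fun i => φ (Y i), fun i => φ (Z i), hY, ?_, ?_, hall, _, hx⟩
  · intro i hi
    have h1 := card_le_of_integral (fun i : Fin (c + μ) => φ (X i)) hx
      (Sum.elim (fun l : {l : Fin c // l ≠ i} => φ (Y l)) fun l => φ (Z l)) (by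
        intro l
        refine tynn_adjoin ?_ (himg (X l))
        rintro _ (⟨m, rfl⟩ | ⟨m, rfl⟩)
        · apply tynn_mem
          by_cases hm : m = i
          · subst hm
            show φ (Y m) ∈ _
            have hi' : φ (Y m) = 0 := hi
            rw [hi']
            exact zero_mem _
          · exact Algebra.subset_adjoin ⟨Sum.inl ⟨m, hm⟩, rfl⟩
        · apply tynn_mem
          exact Algebra.subset_adjoin ⟨Sum.inr m, rfl⟩)
    rw [Fintype.card_sum, Fintype.card_fin, Fintype.card_fin, Fintype.card_subtype_compl,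
      Fintype.card_fin, Fintype.card_unique] at h1
    have := i.pos
    omega
  · intro p hp hmem
    apply hZ p hp
    rw [Ideal.mem_comap, MvPolynomial.comp_aeval_apply]
    exact hmem

end Pool.Agent.LSharp
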