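import Mathlib

set_option autoImplicit false

/-! TY13. The lemma of Nagata. -/

namespace Pool.Agent.LSharp

section Nagata

open Polynomial MvPolynomial Nat List

variable {k : Type} [Field k] {n : ℕ} (f : MvPolynomial (Fin (n + 1)) k)
variable (v w : Fin (n + 1) →₀ ℕ)

variable {f v} in
private lemma ng_lt_up (vlt : ∀ i, v i < 2 + f.totalDegree) :
    ∀ l ∈ ofFn v, l < 2 + f.totalDegree := by
  grind

/-- `X i ↦ X i + c • X 0 ^ r i` for `i ≠ 0`, and `X 0 ↦ X 0`. -/
private noncomputable abbrev ngT1 (c : k) :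
    MvPolynomial (Fin (n + 1)) k →ₐ[k] MvPolynomial (Fin (n + 1)) k :=
  MvPolynomial.aeval fun i ↦ if i = 0 then MvPolynomial.X 0 else
    MvPolynomial.X i + c • MvPolynomial.X 0 ^ ((2 + f.totalDegree) ^ i.1)

private lemma ng_comp (c : k) : (ngT1 f c).comp (ngT1 f (-c)) = AlgHom.id _ _ := by
  rw [comp_aeval, ← MvPolynomial.aeval_X_left]
  ext i v
  cases i using Fin.cases <;> simp

/-- `ngT1 f 1` is an algebra equivalence. -/
private noncomputable abbrev ngT := AlgEquiv.ofAlgHom (ngT1 f 1) (ngT1 f (-1))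
  (ng_comp f 1) (by simpa using ng_comp f (-1))

private lemma ng_sum_ne (vlt : ∀ i, v i < 2 + f.totalDegree) (wlt : ∀ i, w i < 2 + f.totalDegree)
    (ne : v ≠ w) :
    ∑ x : Fin (n + 1), (2 + f.totalDegree) ^ x.1 * v x ≠
      ∑ x : Fin (n + 1), (2 + f.totalDegree) ^ x.1 * w x := by
  intro h
  refine ne <| Finsupp.ext <| congrFun <| ofFn_inj.mp ?_
  apply ofDigits_inj_of_len_eq (Nat.lt_add_right f.totalDegree one_lt_two)
    (by simp) (ng_lt_up vlt) (ng_lt_up wlt)
  simpa only [ofDigits_eq_sum_mapIdx, mapIdx_eq_ofFn, get_ofFn, length_ofFn,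
    Fin.val_cast, mul_comm, sum_ofFn] using! h

private lemma ng_degreeOf {a : k} (ha : a ≠ 0) :
    ((ngT f) (MvPolynomial.monomial v a)).degreeOf 0 =
      ∑ i : Fin (n + 1), ((2 + f.totalDegree) ^ i.1) * v i := by
  rw [← natDegree_finSuccEquiv, MvPolynomial.monomial_eq,
    Finsupp.prod_pow v fun a ↦ MvPolynomial.X a]
  simp only [Fin.prod_univ_succ, Fin.sum_univ_succ, map_mul, map_prod, map_pow,
    AlgEquiv.ofAlgHom_apply, MvPolynomial.aeval_C, MvPolynomial.aeval_X, if_pos, Fin.succ_ne_zero,
    ite_false, one_smul, map_add, finSuccEquiv_X_zero, finSuccEquiv_X_succ,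
    MvPolynomial.algebraMap_eq]
  have h (i : Fin n) :
      (Polynomial.C (MvPolynomial.X (R := k) i) +
        Polynomial.X ^ ((2 + f.totalDegree) ^ i.succ.1)) ^ v i.succ ≠ 0 :=
    pow_ne_zero (v i.succ) (leadingCoeff_ne_zero.mp <| by
      simp [add_comm, leadingCoeff_X_pow_add_C])
  rw [natDegree_mul (by simp [ha]) (mul_ne_zero (by simp) (Finset.prod_ne_zero_iff.mpr
    (fun i _ ↦ h i))), natDegree_mul (by simp) (Finset.prod_ne_zero_iff.mpr (fun i _ ↦ h i)),
    natDegree_prod _ _ (fun i _ ↦ h i), natDegree_finSuccEquiv, degreeOf_C]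
  simpa only [natDegree_pow, zero_add, natDegree_X, mul_one, Fin.val_zero, pow_zero, one_mul,
    add_right_inj] using Finset.sum_congr rfl (fun i _ ↦ by
    rw [add_comm (Polynomial.C _), natDegree_X_pow_add_C, mul_comm])

/-- different monomials of `f` are mapped to polynomials with different degrees in `X 0` -/
private lemma ng_degreeOf_ne (hv : v ∈ f.support) (hw : w ∈ f.support) (ne : v ≠ w) :
    (ngT f <| MvPolynomial.monomial v <| MvPolynomial.coeff v f).degreeOf 0 ≠
    (ngT f <| MvPolynomial.monomial w <| MvPolynomial.coeff w f).degreeOf 0 := by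
  rw [ng_degreeOf _ _ <| MvPolynomial.mem_support_iff.mp hv,
    ng_degreeOf _ _ <| MvPolynomial.mem_support_iff.mp hw]
  refine ng_sum_ne f v w (fun i ↦ ?_) (fun i ↦ ?_) ne <;>
  exact lt_of_le_of_lt ((monomial_le_degreeOf i ‹_›).trans (degreeOf_le_totalDegree f i))
    (by lia)

private lemma ng_leadingCoeff :
    (finSuccEquiv k n ((ngT f) ((MvPolynomial.monomial v)
      (MvPolynomial.coeff v f)))).leadingCoeff = algebraMap k _ (MvPolynomial.coeff v f) := by
  rw [MvPolynomial.monomial_eq, Finsupp.prod_fintype]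
  · simp only [map_mul, map_prod, leadingCoeff_mul, leadingCoeff_prod]
    rw [AlgEquiv.ofAlgHom_apply, algHom_C, MvPolynomial.algebraMap_eq, finSuccEquiv_apply,
      eval₂Hom_C, RingHom.coe_comp]
    simp only [AlgEquiv.ofAlgHom_apply, Function.comp_apply, leadingCoeff_C, map_pow,
      leadingCoeff_pow, MvPolynomial.algebraMap_eq]
    have : ∀ j, ((finSuccEquiv k n) ((ngT1 f) 1 (MvPolynomial.X j))).leadingCoeff = 1 :=
      fun j ↦ by
      by_cases h : j = 0
      · simp [h, finSuccEquiv_apply]
      · simp only [aeval_eq_bind₁, bind₁_X_right, if_neg h, one_smul, map_add, map_pow]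
        obtain ⟨i, rfl⟩ := Fin.exists_succ_eq.mpr h
        simp [finSuccEquiv_X_succ, finSuccEquiv_X_zero, add_comm]
    simp only [this, one_pow, Finset.prod_const_one, mul_one]
  exact fun i ↦ pow_zero _

/-- `f` is mapped to a polynomial in `X 0` with an invertible leading coefficient. -/
private lemma ng_isUnit (fne : f ≠ 0) :
    IsUnit (finSuccEquiv k n (ngT f f)).leadingCoeff := by
  obtain ⟨v, vin, vs⟩ := Finset.exists_max_image f.support
    (fun v ↦ (ngT f ((MvPolynomial.monomial v) (MvPolynomial.coeff v f))).degreeOf 0)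
    (support_nonempty.mpr fne)
  set h := fun w ↦ (MvPolynomial.monomial w) (MvPolynomial.coeff w f)
  simp only [← natDegree_finSuccEquiv] at vs
  replace vs : ∀ x ∈ f.support \ {v}, (finSuccEquiv k n ((ngT f) (h x))).degree <
      (finSuccEquiv k n ((ngT f) (h v))).degree := by
    intro x hx
    obtain ⟨h1, h2⟩ := Finset.mem_sdiff.mp hx
    apply degree_lt_degree <| lt_of_le_of_ne (vs x h1) ?_
    simpa only [natDegree_finSuccEquiv]
      using ng_degreeOf_ne f _ _ h1 vin <| ne_of_not_mem_cons h2
  have coeff : (finSuccEquiv k n ((ngT f) (h v + ∑ x ∈ f.support \ {v}, h x))).leadingCoeff =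
      (finSuccEquiv k n ((ngT f) (h v))).leadingCoeff := by
    simp only [map_add, map_sum]
    rw [add_comm]
    apply leadingCoeff_add_of_degree_lt <| (lt_of_le_of_lt <| degree_sum_le _ _) ?_
    have h2 : h v ≠ 0 := by simpa [h] using MvPolynomial.mem_support_iff.mp vin
    replace h2 : (finSuccEquiv k n ((ngT f) (h v))) ≠ 0 := fun eq ↦ h2 <|
      by simpa only [map_eq_zero_iff _ (AlgEquiv.injective _)] using eq
    exact (Finset.sup_lt_iff <| Ne.bot_lt (fun x ↦ h2 <| degree_eq_bot.mp x)).mpr vs
  nth_rw 2 [← f.support_sum_monomial_coeff]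
  rw [Finset.sum_eq_add_sum_sdiff_singleton_of_mem vin h]
  rw [ng_leadingCoeff] at coeff
  simpa only [coeff, MvPolynomial.algebraMap_eq] using
    (MvPolynomial.mem_support_iff.mp vin).isUnit.map MvPolynomial.C

end Nagata

/-- **Nagata.** A nonconstant polynomial `f` in `n + 1` variables can be completed to a system of `n + 1`
elements over which the polynomial ring is integral. Let `x' i = X (i.succ) - (X 0) ^ (e i)` with
`e i = D ^ (i + 1)`, `D` larger than all exponents in `f`. `f` is a polynomial in `X 0` with coefficients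
in `k[x']`: substitute `X (i.succ) = x' i + X 0 ^ (e i)`; the monomial `a` of `f` has the leading
term `(X 0) ^ (a 0 + ∑ a (i+1) e i)` with constant coefficient, and the exponents are different for different
`a` (digits in base `D`), so the leading coefficient is a nonzero constant and the degree is positive
(`f` is not constant). So `X 0` is integral over `k[f, x']` (root of the polynomial minus `f`, divided by the
constant), and `X (i.succ) = x' i + X 0 ^ (e i)` too; the integral elements form a subalgebra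
(`integralClosure`). Mathlib's `RingTheory/NoetherNormalization.lean` contains this computation as private
lemmas (`T1`, `degreeOf_t_neq_of_neq`, `leadingCoeff_finSuccEquiv_t`, `T_leadingcoeff_isUnit`): they can be
copied as private lemmas here. (For infinite `k` a linear substitution works too.) -/
theorem nagata {k : Type} [Field k] {n : ℕ} (f : MvPolynomial (Fin (n + 1)) k)
    (hf : ∀ a : k, f ≠ MvPolynomial.C a) :
    ∃ x' : Fin n → MvPolynomial (Fin (n + 1)) k, ∀ p : MvPolynomial (Fin (n + 1)) k,
      IsIntegral (Algebra.adjoin k ({f} ∪ Set.range x')) p := by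
  have hf0 : f ≠ 0 := by
    intro h
    exact hf 0 (by rw [h, map_zero])
  obtain ⟨x', hx'⟩ : ∃ x' : Fin n → MvPolynomial (Fin (n + 1)) k,
      x' = fun i => ngT1 f (-1) (MvPolynomial.X i.succ) := ⟨_, rfl⟩
  have hx1 : ∀ i, x' i = MvPolynomial.X i.succ -
      MvPolynomial.X 0 ^ ((2 + f.totalDegree) ^ i.succ.1) := by
    intro i
    rw [hx']
    simp [sub_eq_add_neg]
  refine ⟨x', ?_⟩
  obtain ⟨A, hA⟩ : ∃ A, A = Algebra.adjoin k ({f} ∪ Set.range x') := ⟨_, rfl⟩
  rw [← hA]
  have hfA : f ∈ A := by
    rw [hA]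
    exact Algebra.subset_adjoin (Or.inl rfl)
  have hxA : ∀ i, x' i ∈ A := by
    intro i
    rw [hA]
    exact Algebra.subset_adjoin (Or.inr ⟨i, rfl⟩)
  -- the polynomial
  obtain ⟨φ, hφ⟩ : ∃ φ : MvPolynomial (Fin n) k →ₐ[k] A,
      φ = MvPolynomial.aeval fun i => (⟨x' i, hxA i⟩ : A) := ⟨_, rfl⟩
  obtain ⟨P, hP⟩ : ∃ P, P = MvPolynomial.finSuccEquiv k n (ngT f f) := ⟨_, rfl⟩
  have hu : IsUnit P.leadingCoeff := by
    rw [hP]
    exact ng_isUnit f hf0
  have hdeg : 0 < P.natDegree := by
    by_contra h0
    have h1 : P.natDegree = 0 := by omega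
    have h2 := Polynomial.eq_C_of_natDegree_eq_zero h1
    have h3 : IsUnit (P.coeff 0) := by
      have h4 := hu
      unfold Polynomial.leadingCoeff at h4
      rwa [h1] at h4
    obtain ⟨c, hc⟩ : ∃ c : k, P.coeff 0 = MvPolynomial.C c := by
      obtain ⟨c, -, hc⟩ := MvPolynomial.isUnit_iff_eq_C_of_isReduced.1 h3
      exact ⟨c, hc⟩
    apply hf c
    apply (ngT f).injective
    apply (MvPolynomial.finSuccEquiv k n).injective
    rw [← hP, h2, hc]
    have h5 : ngT f (MvPolynomial.C c) = MvPolynomial.C c := (ngT f).commutes c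
    rw [h5]
    exact ((MvPolynomial.finSuccEquiv k n).commutes c).symm
  have heval : ∀ q : MvPolynomial (Fin (n + 1)) k,
      Polynomial.aeval (MvPolynomial.X 0 : MvPolynomial (Fin (n + 1)) k)
        ((MvPolynomial.finSuccEquiv k n q).map (φ : MvPolynomial (Fin n) k →+* A)) =
      ngT1 f (-1) q := by
    intro q
    induction q using MvPolynomial.induction_on with
    | C a =>
      have h1 : MvPolynomial.finSuccEquiv k n (MvPolynomial.C a) =
          Polynomial.C (MvPolynomial.C a) := (MvPolynomial.finSuccEquiv k n).commutes a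
      rw [h1, Polynomial.map_C, Polynomial.aeval_C]
      have h2 : (φ : MvPolynomial (Fin n) k →+* A) (MvPolynomial.C a) = algebraMap k A a :=
        φ.commutes a
      rw [h2]
      exact ((ngT1 f (-1)).commutes a).symm
    | add p q hp hq =>
      rw [map_add, Polynomial.map_add, map_add, map_add, hp, hq]
    | mul_X p i hp =>
      rw [map_mul, Polynomial.map_mul, map_mul, map_mul, hp]
      congr 1
      cases i using Fin.cases with
      | zero =>
        rw [MvPolynomial.finSuccEquiv_X_zero, Polynomial.map_X, Polynomial.aeval_X]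
        simp
      | succ i =>
        rw [MvPolynomial.finSuccEquiv_X_succ, Polynomial.map_C, Polynomial.aeval_C]
        have h2 : (φ : MvPolynomial (Fin n) k →+* A) (MvPolynomial.X i) = ⟨x' i, hxA i⟩ := by
          rw [hφ]
          exact MvPolynomial.aeval_X _ _
        rw [h2]
        change x' i = _
        rw [hx']
  have hTf : ngT1 f (-1) (ngT f f) = f := by
    have h1 := congrArg (fun g => g f) (ng_comp f (-1))
    simpa using h1
  have hX0 : IsIntegral A (MvPolynomial.X 0 : MvPolynomial (Fin (n + 1)) k) := by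
    obtain ⟨u, hu'⟩ := hu
    obtain ⟨Q, hQ⟩ : ∃ Q, Q = P.map (φ : MvPolynomial (Fin n) k →+* A) -
        Polynomial.C (⟨f, hfA⟩ : A) := ⟨_, rfl⟩
    have hlead : (φ : MvPolynomial (Fin n) k →+* A) P.leadingCoeff ≠ 0 := by
      have h1 : IsUnit ((φ : MvPolynomial (Fin n) k →+* A) P.leadingCoeff) := by
        rw [← hu']
        exact u.isUnit.map _
      exact h1.ne_zero
    have hdegP : (P.map (φ : MvPolynomial (Fin n) k →+* A)).natDegree = P.natDegree :=
      Polynomial.natDegree_map_of_leadingCoeff_ne_zero _ hlead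
    have hlc : Q.leadingCoeff = (φ : MvPolynomial (Fin n) k →+* A) P.leadingCoeff := by
      rw [hQ, Polynomial.leadingCoeff_sub_of_degree_lt,
        Polynomial.leadingCoeff_map_of_leadingCoeff_ne_zero _ hlead]
      refine lt_of_le_of_lt Polynomial.degree_C_le ?_
      rw [← Polynomial.natDegree_pos_iff_degree_pos, hdegP]
      exact hdeg
    have hroot : Polynomial.aeval (MvPolynomial.X 0 : MvPolynomial (Fin (n + 1)) k) Q = 0 := by
      rw [hQ, Polynomial.aeval_def, Polynomial.eval₂_sub, Polynomial.eval₂_C,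
        ← Polynomial.aeval_def, hP, heval, hTf]
      exact sub_self f
    have hQu : IsUnit Q.leadingCoeff := by
      rw [hlc, ← hu']
      exact u.isUnit.map _
    obtain ⟨t, ht⟩ := hQu
    refine ⟨Polynomial.C (↑t⁻¹ : A) * Q, ?_, ?_⟩
    · have h1 : (Polynomial.C (↑t⁻¹ : A) * Q).leadingCoeff = 1 := by
        rw [Polynomial.leadingCoeff_mul, Polynomial.leadingCoeff_C, ← ht, Units.inv_mul]
      exact h1
    · rw [← Polynomial.aeval_def, map_mul, hroot, mul_zero]
  have hXs : ∀ i : Fin (n + 1),
      IsIntegral A (MvPolynomial.X i : MvPolynomial (Fin (n + 1)) k) := by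
    intro i
    cases i using Fin.cases with
    | zero => exact hX0
    | succ i =>
      have h1 : (MvPolynomial.X i.succ : MvPolynomial (Fin (n + 1)) k) =
          x' i + MvPolynomial.X 0 ^ ((2 + f.totalDegree) ^ i.succ.1) := by
        rw [hx1]
        ring
      rw [h1]
      have h2 : IsIntegral A (x' i) := isIntegral_algebraMap (x := (⟨x' i, hxA i⟩ : A))
      exact h2.add (hX0.pow _)
  intro p
  induction p using MvPolynomial.induction_on with
  | C a =>
    exact isIntegral_algebraMap (x := algebraMap k A a)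
  | add p q hp hq => exact hp.add hq
  | mul_X p i hp => exact hp.mul (hXs i)

end Pool.Agent.LSharp
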