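import Pool.Agent.LAll.Places

set_option autoImplicit false

/-! TY3. Sums over a part of the places. -/

namespace Pool.Agent.LSharp

open NumberField Pool.Agent.LAll

variable {K : Type} [Field K] [NumberField K] (S : Finset (FinitePlace K))

/-- `exists_S` (applied to the family with the one element `z`) gives `S₁` with `Off S₁ z`; then also
`Off (S ∪ S₁) z`. By `sum_abs_lam` the sum over `Plc K (S ∪ S₁)` is `2 * ht z`, and the sum over
`Plc K S` is a part of it (the injection `Plc K S → Plc K (S ∪ S₁)` is the identity on places,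
`lam` of the image is the same by definition; `Fintype.sum_sum_type`, `Finset.sum_coe_sort`, or
`Finset.sum_le_sum_of_injOn`). -/
theorem ty_sum_abs_lam {z : K} (hz : z ≠ 0) : ∑ v : Plc K S, |lam v z| ≤ 2 * ht z := by
  classical
  obtain ⟨S₁, hS₁⟩ := exists_S K (fun _ : Unit => z) fun _ => hz
  have hoff : Off (S ∪ S₁) z := fun v hv => hS₁ () v fun h => hv (Finset.mem_union_right _ h)
  rw [← sum_abs_lam hz hoff]
  have h1 : ∀ T : Finset (FinitePlace K), ∑ v : Plc K T, |lam v z| =
      ∑ v : InfinitePlace K, |(v.mult : ℝ) * Real.log (v z) / Module.finrank ℚ K| +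
        ∑ v ∈ T, |(1 : ℝ) * Real.log (v z) / Module.finrank ℚ K| := by
    intro T
    have h := Fintype.sum_sum_type (fun v : Plc K T => |lam v z|)
    refine h.trans ?_
    congr 1
    rw [← Finset.sum_coe_sort T]
    rfl
  rw [h1, h1]
  have h2 : ∑ v ∈ S, |(1 : ℝ) * Real.log (v z) / Module.finrank ℚ K| ≤
      ∑ v ∈ S ∪ S₁, |(1 : ℝ) * Real.log (v z) / Module.finrank ℚ K| :=
    Finset.sum_le_sum_of_subset_of_nonneg Finset.subset_union_left fun _ _ _ => abs_nonneg _
  linarith

/-- `lam v 0 = 0` (`Real.log 0 = 0`), `ht 0 = 0` or `ht_nonneg`. -/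
theorem ty_sum_abs_lam' (z : K) : ∑ v : Plc K S, |lam v z| ≤ 2 * ht z := by
  rcases eq_or_ne z 0 with rfl | hz
  · have h : ∀ v : Plc K S, |lam v (0 : K)| = 0 := by
      intro v
      have h0 : ab v (0 : K) = 0 := by
        rcases v with v | v
        · exact map_zero v
        · exact map_zero v.1
      unfold lam
      rw [h0, Real.log_zero, mul_zero, zero_div, abs_zero]
    rw [Finset.sum_congr rfl fun v _ => h v, Finset.sum_const_zero]
    have := ht_nonneg (0 : K)
    linarith
  · exact ty_sum_abs_lam S hz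

end Pool.Agent.LSharp
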