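import Pool.Agent.LSharp.TYCalc
import Pool.Agent.LSharp.TYLam
import Pool.Agent.LSharp.TYSum

set_option autoImplicit false

/-! TY5. The ring of the elements with `LeW (lamU x)` and its ideal `InM`. -/

namespace Pool.Agent.LSharp

open Filter NumberField Pool.Agent.LAll

variable {ι J : Type} [Finite ι] {𝒰 : Ultrafilter J} {P : J → Pt ι} {r s : J → ℝ}
  {w : (j : J) → (P j).V → ℝ}

/-- `s = (s / r) * r ≥ s / r → ∞`. -/
theorem Scl.tendsto (h : Scl 𝒰 r s w) : Tendsto s (𝒰 : Filter J) atTop :=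
  tendsto_atTop_mono (fun j => div_le_self (zero_le_one.trans (h.s1 j)) (h.r1 j)) h.lim

private theorem Scl.spos (h : Scl 𝒰 r s w) (j : J) : 0 < s j := zero_lt_one.trans_le (h.s1 j)

/-- `LeW.of_sum`: `∑ |a * wt v| = |a|` (`sum_wt`, `wt_nonneg`) and `s → ∞`. -/
theorem leW_wt (h : Scl 𝒰 r s w) (a : ℝ) :
    LeW 𝒰 s w (fun j (v : (P j).V) => a * wt v) := by
  refine LeW.of_sum h.spos h.w0 fun κ hκ => ?_
  filter_upwards [h.tendsto.eventually_ge_atTop (|a| / κ)] with j hj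
  have h1 : ∑ v : (P j).V, |a * wt v| = |a| := by
    have h2 : ∀ v : (P j).V, |a * wt v| = |a| * wt v := fun v => by
      rw [abs_mul, abs_of_nonneg (wt_nonneg v)]
    simp only [h2]
    rw [← Finset.mul_sum, sum_wt, mul_one]
  rw [h1]
  rw [div_le_iff₀ hκ] at hj
  linarith

/-- A family of numbers of height `O(r)`: `∑ v, |lam v (z j)| ≤ 2 * ht (z j) ≤ 2 C r j ≤ κ s j` for
most `j` (`ty_sum_abs_lam'`, `Scl.lim`; `max 1 (r j) = r j`), so `LeW.of_sum` for both signs. -/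
theorem flat_of_hb (h : Scl 𝒰 r s w) (z : ∀ j, Kof P j) (hz : Hb 𝒰 r z) :
    Flat 𝒰 s w (fun j (v : (P j).V) => lam v (z j)) := by
  obtain ⟨C, hC⟩ := hz
  have key : ∀ κ : ℝ, 0 < κ → ∀ᶠ j in (𝒰 : Filter J),
      ∑ v : (P j).V, |lam v (z j)| ≤ κ * s j := by
    intro κ hκ
    filter_upwards [hC, h.lim.eventually_ge_atTop (2 * |C| / κ)] with j h1 h2
    have hr := h.r1 j
    have hr0 : 0 < r j := by linarith
    rw [max_eq_right hr] at h1
    have h3 := ty_sum_abs_lam' (P j).S (z j)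
    rw [div_le_div_iff₀ hκ hr0] at h2
    have h4 : C * r j ≤ |C| * r j := mul_le_mul_of_nonneg_right (le_abs_self C) hr0.le
    calc ∑ v : (P j).V, |lam v (z j)| ≤ 2 * ht (z j) := h3
      _ ≤ 2 * |C| * r j := by linarith
      _ ≤ s j * κ := h2
      _ = κ * s j := mul_comm _ _
  refine ⟨LeW.of_sum h.spos h.w0 key, LeW.of_sum h.spos h.w0 fun κ hκ => ?_⟩
  filter_upwards [key κ hκ] with j hj
  simp only [abs_neg]
  exact hj

/-- `flat_of_hb` and `lamU_mk`. -/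
theorem flat_kf (h : Scl 𝒰 r s w) {x : Ult 𝒰 (Kof P)} (hx : x ∈ kf 𝒰 (Kof P) r) :
    Flat 𝒰 s w (lamU x) := by
  obtain ⟨a, rfl, ha⟩ := hx
  have h1 := flat_of_hb h _ ha
  have h2 := lamU_mk (𝒰 := 𝒰) (P := P) fun j => ((a j : ℚ) : Kof P j)
  refine ⟨h1.1.of_le h.w0 ?_, h1.2.of_le h.w0 ?_⟩
  · filter_upwards [h2] with j hj v _
    rw [hj v]
  · filter_upwards [h2] with j hj v _
    rw [hj v]

theorem leU_zero (h : Scl 𝒰 r s w) : LeW 𝒰 s w (lamU (0 : Ult 𝒰 (Kof P))) :=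
  (flat_kf h (zero_mem _)).1

/-- If `x = 0` or `y = 0` then `x * y = 0`: `leU_zero`. Otherwise `lamU_mul`, `LeW.add`,
`LeW.of_le`. -/
theorem leU_mul (h : Scl 𝒰 r s w) {x y : Ult 𝒰 (Kof P)} (hx : LeW 𝒰 s w (lamU x))
    (hy : LeW 𝒰 s w (lamU y)) : LeW 𝒰 s w (lamU (x * y)) := by
  by_cases hx0 : x = 0
  · rw [hx0, zero_mul]
    exact leU_zero h
  by_cases hy0 : y = 0
  · rw [hy0, mul_zero]
    exact leU_zero h
  refine (hx.add h.w0 hy).of_le h.w0 ?_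
  filter_upwards [lamU_mul hx0 hy0] with j hj v _
  rw [hj v]

/-- If `x + y = 0`: `leU_zero`. Otherwise `lamU_add_le`, `LeW.max`, `LeW.add`, `leW_wt`. -/
theorem leU_add (h : Scl 𝒰 r s w) {x y : Ult 𝒰 (Kof P)} (hx : LeW 𝒰 s w (lamU x))
    (hy : LeW 𝒰 s w (lamU y)) : LeW 𝒰 s w (lamU (x + y)) := by
  by_cases hxy : x + y = 0
  · rw [hxy]
    exact leU_zero h
  refine ((hx.max h.w0 hy).add h.w0 (leW_wt h (Real.log 2))).of_le h.w0 ?_
  filter_upwards [lamU_add_le hxy] with j hj v _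
  rw [mul_comm (Real.log 2)]
  exact hj v

/-- `Algebra.adjoin_induction` with `flat_kf`, `leU_add`, `leU_mul`. -/
theorem leU_adjoin (h : Scl 𝒰 r s w) (T : Set (Ult 𝒰 (Kof P)))
    (hT : ∀ x ∈ T, LeW 𝒰 s w (lamU x)) {x : Ult 𝒰 (Kof P)}
    (hx : x ∈ Algebra.adjoin (kf 𝒰 (Kof P) r) T) : LeW 𝒰 s w (lamU x) := by
  induction hx using Algebra.adjoin_induction with
  | mem x hx => exact hT x hx
  | algebraMap x => exact (flat_kf h x.2).1
  | add x y _ _ hx hy => exact leU_add h hx hy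
  | mul x y _ _ hx hy => exact leU_mul h hx hy

/-- If one of `x`, `y` is `0` it is clear; if `x + y = 0` too. Otherwise `NgW.max`, `lamU_add_le`,
`NgW.add` with `leW_wt`. -/
theorem InM.add (h : Scl 𝒰 r s w) {x y : Ult 𝒰 (Kof P)} (hx : InM s w x) (hy : InM s w y) :
    InM s w (x + y) := by
  rcases hx with hx | hx
  · rw [hx, zero_add]
    exact hy
  rcases hy with hy | hy
  · rw [hy, add_zero]
    exact Or.inr hx
  by_cases hxy : x + y = 0
  · exact Or.inl hxy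
  refine Or.inr (((hx.max (fun j => (h.spos j).le) h.w0 hy).add h.w0
    (leW_wt h (Real.log 2))).of_le h.w0 ?_)
  filter_upwards [lamU_add_le hxy] with j hj v _
  rw [mul_comm (Real.log 2)]
  exact hj v

/-- `lamU_mul`, `NgW.add`. -/
theorem InM.mul (h : Scl 𝒰 r s w) {x y : Ult 𝒰 (Kof P)} (hx : LeW 𝒰 s w (lamU x))
    (hy : InM s w y) : InM s w (x * y) := by
  by_cases hx0 : x = 0
  · exact Or.inl (by rw [hx0, zero_mul])
  by_cases hy0 : y = 0
  · exact Or.inl (by rw [hy0, mul_zero])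
  rcases hy with hy | hy
  · exact absurd hy hy0
  refine Or.inr ((hy.add h.w0 hx).of_le h.w0 ?_)
  filter_upwards [lamU_mul hx0 hy0] with j hj v _
  rw [hj v, add_comm]

theorem InM.restrict {w' : (j : J) → (P j).V → ℝ} (h : Scl 𝒰 r s w) (hr : Rw 𝒰 w w')
    {x : Ult 𝒰 (Kof P)} (hx : InM s w x) : InM s w' x := by
  rcases hx with hx | hx
  · exact Or.inl hx
  · exact Or.inr (hx.restrict h.w0 hr)

/-- `lamU 1 = 0` for most `j`, `not_ng_of_le`. -/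
theorem InM.one_not (h : Scl 𝒰 r s w) (hp : PosW 𝒰 w) :
    ¬ InM s w (1 : Ult 𝒰 (Kof P)) := by
  rintro (h0 | h0)
  · exact one_ne_zero h0
  · exact not_ng_of_le h.spos h.w0 hp h0 (flat_kf h (one_mem _)).2

/-- If `x ≠ 0` and `LeW (- lamU x)` then
`x` is not in `InM` (`not_ng_of_le`). -/
theorem InM.not_of_le (h : Scl 𝒰 r s w) (hp : PosW 𝒰 w) {x : Ult 𝒰 (Kof P)} (hx0 : x ≠ 0)
    (hx : LeW 𝒰 s w (fun j v => -lamU x j v)) : ¬ InM s w x := by
  rintro (h0 | h0)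
  · exact hx0 h0
  · exact not_ng_of_le h.spos h.w0 hp h0 hx

/-- `lamU_mul`. -/
theorem Flat.mulU (h : Scl 𝒰 r s w) {x y : Ult 𝒰 (Kof P)} (hx0 : x ≠ 0) (hy0 : y ≠ 0)
    (hx : Flat 𝒰 s w (lamU x)) (hy : Flat 𝒰 s w (lamU y)) : Flat 𝒰 s w (lamU (x * y)) := by
  refine ⟨leU_mul h hx.1 hy.1, (hx.2.add h.w0 hy.2).of_le h.w0 ?_⟩
  filter_upwards [lamU_mul hx0 hy0] with j hj v _
  rw [hj v, neg_add]

/-- `lamU_inv`. -/
theorem Flat.invU (h : Scl 𝒰 r s w) {x : Ult 𝒰 (Kof P)} (hx : Flat 𝒰 s w (lamU x)) :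
    Flat 𝒰 s w (lamU x⁻¹) := by
  refine ⟨hx.2.of_le h.w0 ?_, hx.1.of_le h.w0 ?_⟩
  · filter_upwards [lamU_inv x] with j hj v _
    rw [hj v]
  · filter_upwards [lamU_inv x] with j hj v _
    rw [hj v, neg_neg]

/-- `lamU_zpow`, `LeW.smul` (`|n|` times `lamU x` or `- lamU x`). -/
theorem Flat.zpowU (h : Scl 𝒰 r s w) {x : Ult 𝒰 (Kof P)} (hx : Flat 𝒰 s w (lamU x)) (n : ℤ) :
    Flat 𝒰 s w (lamU (x ^ n)) := by
  have hs : ∀ j, 0 ≤ s j := fun j => (h.spos j).le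
  have h1 := lamU_zpow x n
  rcases le_total 0 n with hn | hn
  · have hn' : (0 : ℝ) ≤ n := by exact_mod_cast hn
    refine ⟨(hx.1.smul hs h.w0 hn').of_le h.w0 ?_, (hx.2.smul hs h.w0 hn').of_le h.w0 ?_⟩
    · filter_upwards [h1] with j hj v _
      rw [hj v]
    · filter_upwards [h1] with j hj v _
      rw [hj v, mul_neg]
  · have hn' : (0 : ℝ) ≤ -n := by
      have : (n : ℝ) ≤ 0 := by exact_mod_cast hn
      linarith
    refine ⟨(hx.2.smul hs h.w0 hn').of_le h.w0 ?_, (hx.1.smul hs h.w0 hn').of_le h.w0 ?_⟩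
    · filter_upwards [h1] with j hj v _
      rw [hj v, neg_mul_neg]
    · filter_upwards [h1] with j hj v _
      rw [hj v, neg_mul]

end Pool.Agent.LSharp
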