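import Pool.Agent.LSharp.TYTk
import Pool.Agent.LSharp.TYSt

set_option autoImplicit false

/-! TY9. Weights for which the ideals of `A*` are maximal. -/

namespace Pool.Agent.LSharp

open Filter NumberField Pool.Agent.LAll

variable {ι J M : Type} [Fintype ι] [Finite M] {𝒰 : Ultrafilter J} {P : J → Pt ι}

/-- The ideal of the elements of `A*` with `InM`. -/
theorem exists_ideal_Ast {r s : J → ℝ} {w : (j : J) → (P j).V → ℝ} (h : Scl 𝒰 r s w)
    (W : Finset ι) (c : ι → Fin 3) {ρ : ℕ} (g : Fin ρ → ι → Fin 2 → ℤ)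
    (hc : ∀ᶠ j in (𝒰 : Filter J), ∀ v, w j v ≠ 0 → ∀ k ∈ W, (P j).cor v k = c k)
    (hg : ∀ i, Flat 𝒰 s w (lamU (mon 𝒰 P c (g i)))) :
    ∃ q : Ideal (Ast 𝒰 P r c W g), ∀ x, x ∈ q ↔ InM s w (x : Ult 𝒰 (Kof P)) := by
  refine ⟨{ carrier := {x | InM s w (x : Ult 𝒰 (Kof P))}
            add_mem' := fun {a b} ha hb => ?_
            zero_mem' := Or.inl rfl
            smul_mem' := fun a x hx => ?_ }, fun x => Iff.rfl⟩
  · exact InM.add h ha hb
  · exact InM.mul h (leU_Ast h c W g hc hg a.2) hx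

/-- `A*` is a finitely generated algebra over a field (`Algebra.adjoin` of a finite set:
`Subalgebra.fg_adjoin_finset`-like, `Subalgebra.fg_iff_finiteType`), so it is a Noetherian ring
(`Algebra.FiniteType.isNoetherianRing`). -/
theorem Ast_finiteType (r : J → ℝ) (c : ι → Fin 3) (W : Finset ι) {ρ : ℕ}
    (g : Fin ρ → ι → Fin 2 → ℤ) :
    Algebra.FiniteType (kf 𝒰 (Kof P) r) (Ast 𝒰 P r c W g) := by
  refine Algebra.FiniteType.adjoin_of_finite ?_
  exact ((W.finite_toSet).image _).union ((Set.finite_range _).union (Set.finite_range _))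

/-- `ty_exists_stable` with `Ω = {w // Rw 𝒰 w₀ w}`, `R = Rw 𝒰` (`Rw.trans`, `Rw.right`, `Rw.refl`) and
`F a w` := the ideal of `Ast (g a)` spanned by the `x` with `InM (s a) w x`; by `exists_ideal_Ast` (the hypotheses `hc`, `hg`
pass to the restrictions of `w₀`: `Rw.ne`, `Flat.restrict`, `Scl.mono`) it consists of these `x`.
Monotone: `InM.restrict`. -/
theorem exists_stable_Q (W : M → Finset ι) (c : ι → Fin 3) (r s : M → J → ℝ)
    (w₀ : (j : J) → (P j).V → ℝ) (hS : ∀ a, Scl 𝒰 (r a) (s a) w₀) (hp : PosW 𝒰 w₀)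
    (hc : ∀ᶠ j in (𝒰 : Filter J), ∀ v, w₀ j v ≠ 0 → ∀ a, ∀ k ∈ W a, (P j).cor v k = c k)
    (ρ : M → ℕ) (g : (a : M) → Fin (ρ a) → ι → Fin 2 → ℤ)
    (hg : ∀ a i, Flat 𝒰 (s a) w₀ (lamU (mon 𝒰 P c (g a i)))) :
    ∃ w : (j : J) → (P j).V → ℝ, Rw 𝒰 w₀ w ∧ ∀ (a : M) (w' : (j : J) → (P j).V → ℝ), Rw 𝒰 w w' →
      ∀ x ∈ Ast 𝒰 P (r a) c (W a) (g a), InM (s a) w' x → InM (s a) w x := by
  classical
  rcases isEmpty_or_nonempty M with hM | ⟨⟨a₀⟩⟩
  · refine ⟨fun j v => if 0 ≤ w₀ j v then w₀ j v else 0, ⟨fun j v => ?_, fun j v => ?_, ?_⟩,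
      fun a => (hM.false a).elim⟩
    · split_ifs with h1
      · exact h1
      · exact le_rfl
    · split_ifs with h1
      · exact Or.inr rfl
      · exact Or.inl rfl
    · obtain ⟨μ, hμ, h⟩ := hp
      refine ⟨μ, hμ, ?_⟩
      filter_upwards [h] with j hj
      refine hj.trans (Finset.sum_le_sum fun v _ => ?_)
      split_ifs with h1
      · exact le_rfl
      · exact (not_le.1 h1).le
  · have hid : ∀ (a : M) (x : {w : (j : J) → (P j).V → ℝ // Rw 𝒰 w₀ w}),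
        ∃ q : Ideal (Ast 𝒰 P (r a) c (W a) (g a)),
          ∀ z, z ∈ q ↔ InM (s a) x.1 (z : Ult 𝒰 (Kof P)) := by
      intro a x
      refine exists_ideal_Ast ((hS a).mono x.2) (W a) c (g a) ?_ fun i => ?_
      · filter_upwards [hc] with j hj v hv k hk
        exact hj v (x.2.ne hv) a k hk
      · exact (hg a i).restrict (hS a).w0 x.2
    choose F hF using hid
    have hN : ∀ a, WellFoundedGT (Ideal (Ast 𝒰 P (r a) c (W a) (g a))) := by
      intro a
      have := Ast_finiteType (𝒰 := 𝒰) (P := P) (r a) c (W a) (g a)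
      have : IsNoetherianRing (Ast 𝒰 P (r a) c (W a) (g a)) :=
        Algebra.FiniteType.isNoetherianRing (kf 𝒰 (Kof P) (r a)) _
      infer_instance
    obtain ⟨y, hy, hy'⟩ := ty_exists_stable
      (Ω := {w : (j : J) → (P j).V → ℝ // Rw 𝒰 w₀ w})
      (α := fun a => Ideal (Ast 𝒰 P (r a) c (W a) (g a)))
      (fun x y => Rw 𝒰 x.1 y.1) (fun x y z h1 h2 => h1.trans h2) (fun x y h1 => h1.right)
      F (fun a x y hxy z hz => (hF a y z).2
        (InM.restrict ((hS a).mono x.2) hxy ((hF a x z).1 hz)))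
      ⟨w₀, Rw.refl (hS a₀).w0 hp⟩ (Rw.refl (hS a₀).w0 hp)
    refine ⟨y.1, hy, fun a w' hw' x hx hx' => ?_⟩
    have h1 := hy' a ⟨w', y.2.trans hw'⟩ hw'
    have h2 : (⟨x, hx⟩ : Ast 𝒰 P (r a) c (W a) (g a)) ∈ F a ⟨w', y.2.trans hw'⟩ :=
      (hF a _ _).2 hx'
    rw [h1] at h2
    exact (hF a y ⟨x, hx⟩).1 h2

end Pool.Agent.LSharp
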