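import Pool.Agent.LSharp.TYOrd

set_option autoImplicit false

/-! TY6. The coordinates `t_k` and the monomials `mon`. -/

namespace Pool.Agent.LSharp

open Filter NumberField Pool.Agent.LAll

variable {ι J : Type} {𝒰 : Ultrafilter J} {P : J → Pt ι}

private theorem one_sub_tU (c : ι → Fin 3) (k : ι) :
    1 - tU 𝒰 P c k = Ult.mk 𝒰 (Kof P) (fun j => 1 - tt (c k) ((P j).x k)) := by
  have h : (fun j => 1 - tt (c k) ((P j).x k)) =
      (1 : ∀ j, Kof P j) - fun j => tt (c k) ((P j).x k) := rfl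
  rw [h, map_sub, map_one]
  rfl

/-- `tt_ne_zero` for all `j`, `Ult.mk_eq_zero`; `1 - tU = mk (1 - tt ..)`. -/
theorem tU_ne_zero (c : ι → Fin 3) (k : ι) : tU 𝒰 P c k ≠ 0 ∧ 1 - tU 𝒰 P c k ≠ 0 := by
  have h : ∀ j, tt (c k) ((P j).x k) ≠ 0 ∧ 1 - tt (c k) ((P j).x k) ≠ 0 := fun j =>
    tt_ne_zero _ _ ((P j).ne0 k) ((P j).ne1 k)
  constructor
  · intro h0
    obtain ⟨j, hj⟩ := (Ult.mk_eq_zero.1 h0).exists
    exact (h j).1 hj
  · intro h0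
    rw [one_sub_tU] at h0
    obtain ⟨j, hj⟩ := (Ult.mk_eq_zero.1 h0).exists
    exact (h j).2 hj

private theorem mk_zpow (z : ∀ j, Kof P j) (n : ℤ) :
    Ult.mk 𝒰 (Kof P) (fun j => z j ^ n) = Ult.mk 𝒰 (Kof P) z ^ n := by
  have hp : ∀ m : ℕ, Ult.mk 𝒰 (Kof P) (fun j => z j ^ m) = Ult.mk 𝒰 (Kof P) z ^ m := by
    intro m
    rw [← map_pow]
    rfl
  cases n with
  | ofNat m =>
    have h1 : (fun j => z j ^ (Int.ofNat m)) = fun j => z j ^ m := by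
      funext j
      exact zpow_natCast _ m
    have h2 : Ult.mk 𝒰 (Kof P) z ^ (Int.ofNat m) = Ult.mk 𝒰 (Kof P) z ^ m := zpow_natCast _ m
    rw [h1, h2, hp]
  | negSucc m =>
    have h1 : (fun j => z j ^ (Int.negSucc m)) = fun j => (z j ^ (m + 1))⁻¹ := by
      funext j
      exact zpow_negSucc _ m
    rw [h1, zpow_negSucc, ← hp, ← Ult.mk_inv]

variable [Fintype ι]

theorem mon_ne_zero (c : ι → Fin 3) (y : ι → Fin 2 → ℤ) : mon 𝒰 P c y ≠ 0 :=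
  Finset.prod_ne_zero_iff.2 fun k _ =>
    mul_ne_zero (zpow_ne_zero _ (tU_ne_zero c k).1) (zpow_ne_zero _ (tU_ne_zero c k).2)

/-- `zpow_add₀`, `Finset.prod_mul_distrib`. -/
theorem mon_add (c : ι → Fin 3) (y y' : ι → Fin 2 → ℤ) :
    mon 𝒰 P c (y + y') = mon 𝒰 P c y * mon 𝒰 P c y' := by
  unfold mon
  rw [← Finset.prod_mul_distrib]
  refine Finset.prod_congr rfl fun k _ => ?_
  have h0 : (y + y') k 0 = y k 0 + y' k 0 := rfl
  have h1 : (y + y') k 1 = y k 1 + y' k 1 := rfl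
  rw [h0, h1, zpow_add₀ (tU_ne_zero c k).1, zpow_add₀ (tU_ne_zero c k).2]
  ring

theorem mon_neg (c : ι → Fin 3) (y : ι → Fin 2 → ℤ) : mon 𝒰 P c (-y) = (mon 𝒰 P c y)⁻¹ := by
  unfold mon
  rw [← Finset.prod_inv_distrib]
  refine Finset.prod_congr rfl fun k _ => ?_
  have h0 : (-y) k 0 = -(y k 0) := rfl
  have h1 : (-y) k 1 = -(y k 1) := rfl
  rw [h0, h1, zpow_neg, zpow_neg, mul_inv]

theorem mon_zero (c : ι → Fin 3) : mon 𝒰 P c 0 = 1 := by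
  unfold mon
  refine Finset.prod_eq_one fun k _ => ?_
  have h0 : (0 : ι → Fin 2 → ℤ) k 0 = 0 := rfl
  have h1 : (0 : ι → Fin 2 → ℤ) k 1 = 0 := rfl
  rw [h0, h1, zpow_zero, zpow_zero, mul_one]

theorem mon_zsmul (c : ι → Fin 3) (n : ℤ) (y : ι → Fin 2 → ℤ) :
    mon 𝒰 P c (n • y) = mon 𝒰 P c y ^ n := by
  unfold mon
  rw [← Finset.prod_zpow]
  refine Finset.prod_congr rfl fun k _ => ?_
  have h0 : (n • y) k 0 = y k 0 * n := by
    change n • (y k 0) = y k 0 * n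
    rw [smul_eq_mul, mul_comm]
  have h1 : (n • y) k 1 = y k 1 * n := by
    change n • (y k 1) = y k 1 * n
    rw [smul_eq_mul, mul_comm]
  rw [h0, h1, zpow_mul, zpow_mul, mul_zpow]

/-- Induction over the finite set, or directly. -/
theorem mon_sum (c : ι → Fin 3) {α : Type} (t : Finset α) (n : α → ℤ)
    (y : α → ι → Fin 2 → ℤ) :
    mon 𝒰 P c (∑ a ∈ t, n a • y a) = ∏ a ∈ t, mon 𝒰 P c (y a) ^ n a := by
  classical
  induction t using Finset.induction_on with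
  | empty => rw [Finset.sum_empty, Finset.prod_empty, mon_zero]
  | insert a t ha ih =>
    rw [Finset.sum_insert ha, Finset.prod_insert ha, mon_add, mon_zsmul, ih]

/-- `mk` of the explicit family. `map_prod`, `Ult.mk_inv` for negative exponents
(`zpow_natCast`, `zpow_neg`), then `Ult.rep_mk`. -/
theorem mon_rep (c : ι → Fin 3) (y : ι → Fin 2 → ℤ) : ∀ᶠ j in (𝒰 : Filter J),
    (mon 𝒰 P c y).rep j = ∏ k, tt (c k) ((P j).x k) ^ (y k 0) *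
      (1 - tt (c k) ((P j).x k)) ^ (y k 1) := by
  have h : mon 𝒰 P c y = Ult.mk 𝒰 (Kof P) (fun j => ∏ k, tt (c k) ((P j).x k) ^ (y k 0) *
      (1 - tt (c k) ((P j).x k)) ^ (y k 1)) := by
    have h1 : (fun j => ∏ k, tt (c k) ((P j).x k) ^ (y k 0) *
        (1 - tt (c k) ((P j).x k)) ^ (y k 1)) =
        ∏ k, ((fun j => tt (c k) ((P j).x k) ^ (y k 0)) : ∀ j, Kof P j) *
          ((fun j => (1 - tt (c k) ((P j).x k)) ^ (y k 1)) : ∀ j, Kof P j) := by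
      funext j
      rw [Finset.prod_apply]
      rfl
    rw [h1, map_prod]
    unfold mon
    refine Finset.prod_congr rfl fun k _ => ?_
    rw [map_mul, mk_zpow (𝒰 := 𝒰) (P := P) (fun j => tt (c k) ((P j).x k)),
      mk_zpow (𝒰 := 𝒰) (P := P) (fun j => 1 - tt (c k) ((P j).x k)), ← one_sub_tU]
    rfl
  rw [h]
  exact Ult.rep_mk _

/-- `Ult.rep_mk`. -/
theorem tU_rep (c : ι → Fin 3) (k : ι) : ∀ᶠ j in (𝒰 : Filter J),
    (tU 𝒰 P c k).rep j = tt (c k) ((P j).x k) :=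
  Ult.rep_mk (𝒰 := 𝒰) (R := Kof P) (fun j => tt (c k) ((P j).x k))

/-- `mon y` is in the field generated by the `t_k` with `y k ≠ 0`. -/
theorem mon_mem (c : ι → Fin 3) (W : Finset ι) (y : ι → Fin 2 → ℤ) (hy : ∀ k, k ∉ W → y k = 0)
    (L : Subfield (Ult 𝒰 (Kof P))) (hL : ∀ k ∈ W, tU 𝒰 P c k ∈ L) : mon 𝒰 P c y ∈ L := by
  unfold mon
  refine prod_mem fun k _ => ?_
  by_cases hk : k ∈ W
  · exact mul_mem (zpow_mem (hL k hk) _) (zpow_mem (sub_mem (one_mem _) (hL k hk)) _)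
  · have h0 : y k 0 = 0 := by rw [hy k hk]; rfl
    have h1 : y k 1 = 0 := by rw [hy k hk]; rfl
    rw [h0, h1, zpow_zero, zpow_zero, mul_one]
    exact one_mem _

variable {r s : J → ℝ} {w : (j : J) → (P j).V → ℝ}

/-- On the support of `w` the corner is `c k`, so by `lam_tt_corner` (with `A = siz`, `e = 2 * wt v`,
`Pt.siz_spec`) `lam v t ≤ 2 * wt v`. `leW_wt`, `tU_rep`, `LeW.of_le`. -/
theorem leU_tU (h : Scl 𝒰 r s w) (c : ι → Fin 3) (k : ι)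
    (hc : ∀ᶠ j in (𝒰 : Filter J), ∀ v, w j v ≠ 0 → (P j).cor v k = c k) :
    LeW 𝒰 s w (lamU (tU 𝒰 P c k)) := by
  refine LeW.of_le h.w0 (leW_wt h 2) ?_
  filter_upwards [tU_rep (𝒰 := 𝒰) (P := P) c k, hc] with j h1 h2 v hv
  obtain ⟨f1, f2, f3⟩ := (P j).siz_spec v k
  rw [h2 v hv] at f2 f3
  have g2 := lam_tt_corner v (c k) ((P j).x k) ((P j).ne0 k) ((P j).ne1 k) _ _ f2 f3
  have g3 : lamU (tU 𝒰 P c k) j v = lam v (tt (c k) ((P j).x k)) := by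
    unfold lamU
    rw [h1]
  rw [g3]
  have g4 := (abs_le.1 g2.1).2
  linarith

/-- The same: `|lam v (1 - t)| ≤ 4 * wt v` on the support of `w`. -/
theorem flat_one_sub_tU (h : Scl 𝒰 r s w) (c : ι → Fin 3) (k : ι)
    (hc : ∀ᶠ j in (𝒰 : Filter J), ∀ v, w j v ≠ 0 → (P j).cor v k = c k) :
    Flat 𝒰 s w (lamU (1 - tU 𝒰 P c k)) := by
  have key : ∀ᶠ j in (𝒰 : Filter J), ∀ v, w j v ≠ 0 →
      |lamU (1 - tU 𝒰 P c k) j v| ≤ 4 * wt v := by
    have h0 : ∀ᶠ j in (𝒰 : Filter J), (1 - tU 𝒰 P c k).rep j = 1 - tt (c k) ((P j).x k) := by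
      rw [one_sub_tU]
      exact Ult.rep_mk (𝒰 := 𝒰) (R := Kof P) (fun j => 1 - tt (c k) ((P j).x k))
    filter_upwards [h0, hc] with j h1 h2 v hv
    obtain ⟨f1, f2, f3⟩ := (P j).siz_spec v k
    rw [h2 v hv] at f2 f3
    have g2 := lam_tt_corner v (c k) ((P j).x k) ((P j).ne0 k) ((P j).ne1 k) _ _ f2 f3
    have g3 : lamU (1 - tU 𝒰 P c k) j v = lam v (1 - tt (c k) ((P j).x k)) := by
      unfold lamU
      rw [h1]
    rw [g3]
    have g4 := g2.2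
    linarith
  refine ⟨LeW.of_le h.w0 (leW_wt h 4) ?_, LeW.of_le h.w0 (leW_wt h 4) ?_⟩
  · filter_upwards [key] with j hj v hv
    exact (le_abs_self _).trans (hj v hv)
  · filter_upwards [key] with j hj v hv
    exact (neg_le_abs _).trans (hj v hv)

/-- `leU_adjoin`, `leU_tU`, and for the units `Flat` and `Flat.invU`. -/
theorem leU_Ast (h : Scl 𝒰 r s w) (c : ι → Fin 3) (W : Finset ι) {ρ : ℕ}
    (g : Fin ρ → ι → Fin 2 → ℤ)
    (hc : ∀ᶠ j in (𝒰 : Filter J), ∀ v, w j v ≠ 0 → ∀ k ∈ W, (P j).cor v k = c k)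
    (hg : ∀ i, Flat 𝒰 s w (lamU (mon 𝒰 P c (g i)))) {x : Ult 𝒰 (Kof P)}
    (hx : x ∈ Ast 𝒰 P r c W g) : LeW 𝒰 s w (lamU x) := by
  refine leU_adjoin h _ ?_ hx
  rintro x (⟨k, hk, rfl⟩ | ⟨i, rfl⟩ | ⟨i, rfl⟩)
  · refine leU_tU h c k ?_
    filter_upwards [hc] with j hj v hv
    exact hj v hv k hk
  · exact (hg i).1
  · exact ((hg i).invU h).1

/-- `t_k`, `1 - t_k`, `t_k - 2` are in `A*`. -/
theorem uni_mem_Ast (r : J → ℝ) (c : ι → Fin 3) (W : Finset ι) {ρ : ℕ}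
    (g : Fin ρ → ι → Fin 2 → ℤ) {k : ι} (hk : k ∈ W) (i : Fin 3) :
    uni (tU 𝒰 P c k) i ∈ Ast 𝒰 P r c W g := by
  have ht : tU 𝒰 P c k ∈ Ast 𝒰 P r c W g :=
    Algebra.subset_adjoin (Or.inl ⟨k, hk, rfl⟩)
  have h1 : (1 : Ult 𝒰 (Kof P)) ∈ Ast 𝒰 P r c W g := one_mem _
  have h2 : (2 : Ult 𝒰 (Kof P)) ∈ Ast 𝒰 P r c W g := by
    rw [← one_add_one_eq_two]
    exact add_mem h1 h1
  fin_cases i
  · exact ht
  · exact sub_mem h1 ht
  · exact sub_mem ht h2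

end Pool.Agent.LSharp
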