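import Pool.Agent.LSharp.L1

set_option autoImplicit false

/-! HC4. Coefficients of a polynomial are bounded by its supremum on the unit torus. -/

namespace Pool.Agent.LSharp

open MvPolynomial Pool.Agent.LAll

private theorem coeff_le_of_circle (p : Polynomial ℂ) (S : ℝ)
    (h : ∀ ζ : ℂ, ‖ζ‖ = 1 → ‖p.eval ζ‖ ≤ S) (i : ℕ) : ‖p.coeff i‖ ≤ S := by
  have hS : 0 ≤ S := (norm_nonneg _).trans (h 1 (by simp))
  refine le_of_sq_le_sq ?_ hS
  have h1 := Polynomial.sum_sq_norm_coeff_eq_circleAverage p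
  have h2 : ‖p.coeff i‖ ^ 2 ≤ ∑ i ∈ p.support, ‖p.coeff i‖ ^ 2 := by
    by_cases hi : i ∈ p.support
    · exact Finset.single_le_sum (f := fun i => ‖p.coeff i‖ ^ 2) (fun _ _ => by positivity) hi
    · rw [Polynomial.notMem_support_iff.1 hi, norm_zero]
      have : 0 ≤ ∑ i ∈ p.support, ‖p.coeff i‖ ^ 2 := Finset.sum_nonneg fun _ _ => by positivity
      simpa using this
  refine h2.trans ?_
  rw [h1]
  refine Real.circleAverage_mono_on_of_le_circle ?_ ?_
  · refine ContinuousOn.circleIntegrable (by norm_num) ?_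
    exact (p.continuous.norm.pow 2).continuousOn
  · intro x hx
    have hx1 : ‖x‖ = 1 := by
      rw [mem_sphere_zero_iff_norm] at hx
      rw [hx]
      simp
    exact pow_le_pow_left₀ (norm_nonneg _) (h x hx1) 2

/-- **Cauchy estimate on the torus.** If `|F(θ)| ≤ S` for all `θ` with `|θ_k| = 1`, then all
coefficients are `≤ S` in absolute value.

Proof. Induction on `d` (with complex coefficients; it is convenient to prove it for
`MvPolynomial (Fin d) ℂ`): for fixed `θ' = (θ_1, ..., θ_d)` on the torus the one variable polynomial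
`p(X) = F(X, θ')` satisfies `|p| ≤ S` on the unit circle, so its coefficients are `≤ S` (average of
`p(ζ) ζ^(-i)` over the `N`-th roots of unity `ζ`, `N > deg p`; or
`Polynomial.norm_coeff_le_choose_mul_mahlerMeasure` is not good enough; or Cauchy's estimate for
Taylor coefficients `Complex.norm_iteratedDeriv_le_of_forall_mem_sphere_norm_le`; or Fourier,
`Mathlib/Analysis/Polynomial/Fourier.lean`). The coefficients are the values at `θ'` of the
polynomials `(finSuccEquiv F).coeff i`. -/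
theorem norm_coeff_le_of_torus (d : ℕ) (F : MvPolynomial (Fin d) ℂ) (S : ℝ)
    (h : ∀ θ : Fin d → ℂ, (∀ k, ‖θ k‖ = 1) → ‖eval θ F‖ ≤ S) (i : Fin d →₀ ℕ) :
    ‖F.coeff i‖ ≤ S := by
  induction d with
  | zero =>
    have h1 := h (fun _ => 1) (fun _ => by simp)
    have h2 : F = C (F.coeff 0) := eq_C_of_isEmpty F
    have h3 : i = 0 := Subsingleton.elim _ _
    rw [h2, eval_C] at h1
    rw [h3]
    exact h1
  | succ d ih =>
    have h1 : F.coeff i = ((finSuccEquiv ℂ d F).coeff (i 0)).coeff i.tail := by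
      rw [finSuccEquiv_coeff_coeff, Finsupp.cons_tail]
    rw [h1]
    refine ih _ ?_ _
    intro θ hθ
    have h2 : eval θ ((finSuccEquiv ℂ d F).coeff (i 0)) =
        (Polynomial.map (eval θ) (finSuccEquiv ℂ d F)).coeff (i 0) := by
      rw [Polynomial.coeff_map]
    rw [h2]
    refine coeff_le_of_circle _ S ?_ _
    intro ζ hζ
    rw [← eval_eq_eval_mv_eval' θ ζ F]
    refine h _ fun k => ?_
    refine Fin.cases ?_ (fun j => ?_) k
    · rw [Fin.cons_zero]
      exact hζ
    · rw [Fin.cons_succ]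
      exact hθ j

/-- The version for integral polynomials and the norm `L1`. -/
theorem L1_le_of_torus (d : ℕ) (F : MvPolynomial (Fin d) ℤ) (S : ℝ)
    (h : ∀ θ : Fin d → ℂ, (∀ k, ‖θ k‖ = 1) → ‖aeval θ F‖ ≤ S) :
    L1 F ≤ 2 ^ (∑ k, F.degreeOf k) * S := by
  have hS : 0 ≤ S := (norm_nonneg _).trans (h (fun _ => 1) fun _ => by simp)
  have h1 : ∀ i, |((F.coeff i : ℤ) : ℝ)| ≤ S := by
    intro i
    have h2 := norm_coeff_le_of_torus d (map (Int.castRingHom ℂ) F) S ?_ i
    · rw [coeff_map, eq_intCast, Complex.norm_intCast] at h2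
      exact h2
    · intro θ hθ
      rw [eval_map]
      exact h θ hθ
  refine (L1_le_of_coeff F (fun k => F.degreeOf k) (fun _ => le_rfl) S h1).trans ?_
  refine mul_le_mul_of_nonneg_right ?_ hS
  rw [← Finset.prod_pow_eq_pow_sum]
  refine Finset.prod_le_prod (fun _ _ => by positivity) fun k _ => ?_
  have h2 : F.degreeOf k + 1 ≤ 2 ^ F.degreeOf k := Nat.lt_two_pow_self
  exact_mod_cast h2

/-- On the torus a polynomial is bounded by its norm. -/
theorem norm_aeval_le_L1 (d : ℕ) (F : MvPolynomial (Fin d) ℤ) (θ : Fin d → ℂ)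
    (hθ : ∀ k, ‖θ k‖ = 1) : ‖aeval θ F‖ ≤ L1 F := by
  rw [aeval_def, eval₂_eq', L1]
  refine (norm_sum_le _ _).trans (Finset.sum_le_sum fun i _ => ?_)
  rw [norm_mul, norm_prod]
  have h1 : ∏ k, ‖θ k ^ i k‖ = 1 := Finset.prod_eq_one fun k _ => by rw [norm_pow, hθ k, one_pow]
  rw [h1, mul_one, algebraMap_int_eq, eq_intCast, Complex.norm_intCast]

end Pool.Agent.LSharp
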