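import Pool.Agent.LAll.Transfer

set_option autoImplicit false

/-! HC13. From number fields to groups of finite rank over any field, for any number of points. -/

namespace Pool.Agent.LSharp

open Pool.Agent.LAll Pool.Agent.LThree NumberField

/-- The proof of `Pool.Agent.LAll.theorem_U` (file `LAll/Transfer.lean`) with `(ρ - 1) ^ 2 + 2`
replaced by any `r`. -/
theorem transfer_general (ρ r : ℕ)
    (h : ∃ f : MvPolynomial (Fin r) ℤ, f ≠ 0 ∧ ∀ (K : Type) [Field K] [NumberField K]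
      (x : Fin r → K), (∀ i, x i ≠ 0 ∧ x i ≠ 1) → RankLe ρ (co x) → MvPolynomial.aeval x f = 0) :
    ∃ f : MvPolynomial (Fin r) ℤ, f ≠ 0 ∧
      ∀ (F : Type) [Field F] [CharZero F] (Γ : Subgroup Fˣ), Module.rank ℤ (Additive Γ) ≤ ρ →
        ∀ x : Fin r → F, (∀ i, (∃ u ∈ Γ, (u : F) = x i) ∧ ∃ u ∈ Γ, (u : F) = 1 - x i) →
          MvPolynomial.aeval x f = 0 := by
  obtain ⟨f, hf0, hf⟩ := h
  refine ⟨f, hf0, ?_⟩
  intro F _ _ Γ hΓ x hx
  by_contra hne
  have hx0 : ∀ i, x i ≠ 0 ∧ x i ≠ 1 := by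
    intro i
    obtain ⟨⟨u, -, hu⟩, ⟨v, -, hv⟩⟩ := hx i
    refine ⟨?_, fun h1 => ?_⟩
    · rw [← hu]
      exact u.ne_zero
    · rw [h1, sub_self] at hv
      exact v.ne_zero hv
  have hr : RankLe ρ (co x) := by
    refine rankLe_of_group Γ ρ hΓ (co x) ?_
    rintro (i | i)
    · exact (hx i).1
    · exact (hx i).2
  obtain ⟨K, _, _, y, hy, hyr, hyf⟩ := specialise F x hx0 ρ hr f hne
  exact hyf (hf K y hy hyr)

end Pool.Agent.LSharp
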