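import Pool.Agent.LAll.PtCfg

set_option autoImplicit false

/-! Theorem U# : definitions. Ultraproducts of rings and of number fields, elements of bounded height,
the units `t_k`, `1 - t_k`, `t_k - 2`. -/

namespace Pool.Agent.LSharp

open Filter NumberField Pool.Agent.LAll

section Ultraproduct

variable {J : Type} (𝒰 : Ultrafilter J) (R : J → Type) [∀ j, CommRing (R j)]

/-- The ideal of the families which are `0` for most `j`. -/
def nul : Ideal (∀ j, R j) where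
  carrier := {z | ∀ᶠ j in (𝒰 : Filter J), z j = 0}
  add_mem' := fun {a b} ha hb => by
    filter_upwards [ha, hb] with j h1 h2
    rw [Pi.add_apply, h1, h2, add_zero]
  zero_mem' := Filter.Eventually.of_forall fun _ => rfl
  smul_mem' := fun c {a} ha => by
    filter_upwards [ha] with j h1
    rw [smul_eq_mul, Pi.mul_apply, h1, mul_zero]

/-- **The ultraproduct** of the rings `R j`. -/
def Ult : Type := (∀ j, R j) ⧸ nul 𝒰 R

noncomputable instance : CommRing (Ult 𝒰 R) := inferInstanceAs (CommRing ((∀ j, R j) ⧸ nul 𝒰 R))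

/-- The class of a family. -/
noncomputable def Ult.mk : (∀ j, R j) →+* Ult 𝒰 R := Ideal.Quotient.mk (nul 𝒰 R)

variable {𝒰 R}

theorem Ult.mk_surj : Function.Surjective (Ult.mk 𝒰 R) := Ideal.Quotient.mk_surjective

theorem Ult.mk_eq_zero {z : ∀ j, R j} : Ult.mk 𝒰 R z = 0 ↔ ∀ᶠ j in (𝒰 : Filter J), z j = 0 :=
  Ideal.Quotient.eq_zero_iff_mem

theorem Ult.mk_eq_mk {z z' : ∀ j, R j} :
    Ult.mk 𝒰 R z = Ult.mk 𝒰 R z' ↔ ∀ᶠ j in (𝒰 : Filter J), z j = z' j := by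
  rw [← sub_eq_zero, ← map_sub, Ult.mk_eq_zero]
  simp only [Pi.sub_apply, sub_eq_zero]

/-- A representative. -/
noncomputable def Ult.rep (x : Ult 𝒰 R) : ∀ j, R j := Function.surjInv Ult.mk_surj x

@[simp] theorem Ult.mk_rep (x : Ult 𝒰 R) : Ult.mk 𝒰 R x.rep = x := Function.surjInv_eq Ult.mk_surj x

theorem Ult.rep_mk (z : ∀ j, R j) : ∀ᶠ j in (𝒰 : Filter J), (Ult.mk 𝒰 R z).rep j = z j :=
  Ult.mk_eq_mk.1 (Ult.mk_rep _)

theorem Ult.rep_ne_zero {x : Ult 𝒰 R} (h : x ≠ 0) : ∀ᶠ j in (𝒰 : Filter J), x.rep j ≠ 0 := by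
  rw [Ultrafilter.eventually_not]
  intro h1
  exact h (by rw [← Ult.mk_rep x]; exact Ult.mk_eq_zero.2 h1)

end Ultraproduct

section Fields

variable {J : Type} (𝒰 : Ultrafilter J) (F : J → Type) [∀ j, Field (F j)]

theorem Ult.mul_inv_aux (x : Ult 𝒰 F) (hx : x ≠ 0) :
    x * Ult.mk 𝒰 F (fun j => (x.rep j)⁻¹) = 1 := by
  have h1 : x * Ult.mk 𝒰 F (fun j => (x.rep j)⁻¹) =
      Ult.mk 𝒰 F (x.rep * fun j => (x.rep j)⁻¹) := by
    rw [map_mul, Ult.mk_rep]
  rw [h1, ← map_one (Ult.mk 𝒰 F), Ult.mk_eq_mk]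
  filter_upwards [Ult.rep_ne_zero hx] with j hj
  rw [Pi.mul_apply, mul_inv_cancel₀ hj, Pi.one_apply]

/-- The ultraproduct of fields is a field. -/
noncomputable instance : Field (Ult 𝒰 F) :=
  { (inferInstance : CommRing (Ult 𝒰 F)) with
    inv := fun x => Ult.mk 𝒰 F (fun j => (x.rep j)⁻¹)
    exists_pair_ne := by
      refine ⟨0, 1, fun h => ?_⟩
      have h1 : Ult.mk 𝒰 F 1 = 0 := by rw [map_one]; exact h.symm
      obtain ⟨j, hj⟩ := (Ult.mk_eq_zero.1 h1).exists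
      exact one_ne_zero hj
    mul_inv_cancel := Ult.mul_inv_aux 𝒰 F
    inv_zero := by
      change Ult.mk 𝒰 F (fun j => ((0 : Ult 𝒰 F).rep j)⁻¹) = 0
      rw [Ult.mk_eq_zero]
      have h1 : Ult.mk 𝒰 F (0 : Ult 𝒰 F).rep = 0 := Ult.mk_rep _
      filter_upwards [Ult.mk_eq_zero.1 h1] with j hj
      rw [hj, inv_zero]
    nnqsmul := _
    nnqsmul_def := fun _ _ => rfl
    qsmul := _
    qsmul_def := fun _ _ => rfl }

variable {F}

theorem Ult.mk_inv (z : ∀ j, F j) : Ult.mk 𝒰 F (fun j => (z j)⁻¹) = (Ult.mk 𝒰 F z)⁻¹ := by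
  by_cases h : Ult.mk 𝒰 F z = 0
  · rw [h, inv_zero, Ult.mk_eq_zero]
    filter_upwards [Ult.mk_eq_zero.1 h] with j hj
    rw [hj, inv_zero]
  · refine eq_inv_of_mul_eq_one_left ?_
    rw [← map_mul, ← map_one (Ult.mk 𝒰 F), Ult.mk_eq_mk]
    filter_upwards [Ult.rep_ne_zero h, Ult.rep_mk (𝒰 := 𝒰) z] with j hj hj'
    rw [hj'] at hj
    rw [Pi.mul_apply, inv_mul_cancel₀ hj, Pi.one_apply]

end Fields

section Heights

variable {K : Type} [Field K] [NumberField K]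

theorem ht_mul (x y : K) : ht (x * y) ≤ ht x + ht y := by
  have h : (0 : ℝ) < Module.finrank ℚ K := by exact_mod_cast Module.finrank_pos
  unfold ht
  rw [← add_div]
  exact div_le_div_of_nonneg_right (Height.logHeight₁_mul_le x y) h.le

theorem ht_neg (x : K) : ht (-x) = ht x := by
  unfold ht
  rw [Height.logHeight₁_neg]

private theorem total_eq (K : Type) [Field K] [NumberField K] :
    (Height.totalWeight K : ℝ) = Module.finrank ℚ K := by
  have h := NumberField.sum_archAbsVal_eq (K := K) (fun _ => (1 : ℕ))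
  rw [Multiset.map_const', Multiset.sum_replicate, smul_eq_mul, mul_one] at h
  have h2 : ∑ v : InfinitePlace K, v.mult • (1 : ℕ) = Module.finrank ℚ K := by
    rw [← InfinitePlace.sum_mult_eq (K := K)]
    exact Finset.sum_congr rfl fun v _ => by rw [smul_eq_mul, mul_one]
  rw [h2] at h
  exact_mod_cast h

theorem ht_add (x y : K) : ht (x + y) ≤ ht x + ht y + Real.log 2 := by
  have hn : (0 : ℝ) < Module.finrank ℚ K := by exact_mod_cast Module.finrank_pos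
  have h := Height.logHeight₁_add_le x y
  rw [total_eq] at h
  unfold ht
  rw [← add_div, div_add' _ _ _ hn.ne']
  exact div_le_div_of_nonneg_right (by linarith) hn.le

end Heights

section Bounded

variable {J : Type} (𝒰 : Ultrafilter J) (K : J → Type) [∀ j, Field (K j)] [∀ j, NumberField (K j)]

instance : CharZero (Ult 𝒰 K) := by
  refine charZero_of_inj_zero fun n hn => ?_
  have h1 : Ult.mk 𝒰 K (fun j => (n : K j)) = 0 := by
    rw [← hn]
    exact map_natCast (Ult.mk 𝒰 K) n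
  obtain ⟨j, hj⟩ := (Ult.mk_eq_zero.1 h1).exists
  exact_mod_cast hj

variable {K}

/-- The heights of the `z j` are `O(s j)`. -/
def Hb (s : J → ℝ) (z : ∀ j, K j) : Prop :=
  ∃ C : ℝ, ∀ᶠ j in (𝒰 : Filter J), ht (z j) ≤ C * max 1 (s j)

variable {𝒰}

theorem Hb.mono {s s' : J → ℝ} {z : ∀ j, K j} (h : Hb 𝒰 s z)
    (hs : ∃ C : ℝ, ∀ᶠ j in (𝒰 : Filter J), s j ≤ C * max 1 (s' j)) : Hb 𝒰 s' z := by
  obtain ⟨C, hC⟩ := h
  obtain ⟨C', hC'⟩ := hs
  refine ⟨|C| * max 1 C', ?_⟩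
  filter_upwards [hC, hC'] with j h1 h2
  have h3 : (1 : ℝ) ≤ max 1 (s' j) := le_max_left _ _
  have h4 : (1 : ℝ) ≤ max 1 C' := le_max_left _ _
  have h5 : max 1 (s j) ≤ max 1 C' * max 1 (s' j) := by
    apply max_le
    · nlinarith
    · exact h2.trans (mul_le_mul_of_nonneg_right (le_max_right _ _) (by linarith))
  have h6 : (0 : ℝ) ≤ max 1 (s j) := zero_le_one.trans (le_max_left _ _)
  calc ht (z j) ≤ C * max 1 (s j) := h1
    _ ≤ |C| * max 1 (s j) := mul_le_mul_of_nonneg_right (le_abs_self C) h6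
    _ ≤ |C| * (max 1 C' * max 1 (s' j)) := mul_le_mul_of_nonneg_left h5 (abs_nonneg C)
    _ = |C| * max 1 C' * max 1 (s' j) := by ring

theorem Hb.of_eq {s : J → ℝ} {z z' : ∀ j, K j} (h : Hb 𝒰 s z)
    (he : ∀ᶠ j in (𝒰 : Filter J), z j = z' j) : Hb 𝒰 s z' := by
  obtain ⟨C, hC⟩ := h
  refine ⟨C, ?_⟩
  filter_upwards [hC, he] with j h1 h2
  rwa [← h2]

theorem Hb.zero {s : J → ℝ} : Hb 𝒰 s (0 : ∀ j, K j) := by
  refine ⟨0, Filter.Eventually.of_forall fun j => ?_⟩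
  rw [Pi.zero_apply, zero_mul]
  unfold ht
  rw [Height.logHeight₁_zero, zero_div]

theorem Hb.one {s : J → ℝ} : Hb 𝒰 s (1 : ∀ j, K j) := by
  refine ⟨0, Filter.Eventually.of_forall fun j => ?_⟩
  rw [Pi.one_apply, zero_mul]
  unfold ht
  rw [Height.logHeight₁_one, zero_div]

theorem Hb.neg {s : J → ℝ} {z : ∀ j, K j} (h : Hb 𝒰 s z) : Hb 𝒰 s (-z) := by
  obtain ⟨C, hC⟩ := h
  refine ⟨C, ?_⟩
  filter_upwards [hC] with j h1
  rwa [Pi.neg_apply, ht_neg]

theorem Hb.add {s : J → ℝ} {z z' : ∀ j, K j} (h : Hb 𝒰 s z) (h' : Hb 𝒰 s z') :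
    Hb 𝒰 s (z + z') := by
  obtain ⟨C, hC⟩ := h
  obtain ⟨C', hC'⟩ := h'
  refine ⟨C + C' + Real.log 2, ?_⟩
  filter_upwards [hC, hC'] with j h1 h2
  have h3 : (1 : ℝ) ≤ max 1 (s j) := le_max_left _ _
  have h4 := ht_add (z j) (z' j)
  have h5 : (0 : ℝ) ≤ Real.log 2 := Real.log_nonneg (by norm_num)
  have h6 : Real.log 2 ≤ Real.log 2 * max 1 (s j) := by nlinarith
  rw [Pi.add_apply]
  linarith

theorem Hb.mul {s : J → ℝ} {z z' : ∀ j, K j} (h : Hb 𝒰 s z) (h' : Hb 𝒰 s z') :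
    Hb 𝒰 s (z * z') := by
  obtain ⟨C, hC⟩ := h
  obtain ⟨C', hC'⟩ := h'
  refine ⟨C + C', ?_⟩
  filter_upwards [hC, hC'] with j h1 h2
  have h4 := ht_mul (z j) (z' j)
  rw [Pi.mul_apply]
  linarith

theorem Hb.inv {s : J → ℝ} {z : ∀ j, K j} (h : Hb 𝒰 s z) : Hb 𝒰 s (fun j => (z j)⁻¹) := by
  obtain ⟨C, hC⟩ := h
  refine ⟨C, ?_⟩
  filter_upwards [hC] with j h1
  rwa [ht_inv]

variable (𝒰 K)

/-- The subfield of the elements of the ultraproduct of height `O(s)`. -/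
noncomputable def Lf (s : J → ℝ) : Subfield (Ult 𝒰 K) where
  carrier := {x | ∃ z, Ult.mk 𝒰 K z = x ∧ Hb 𝒰 s z}
  zero_mem' := ⟨0, map_zero _, Hb.zero⟩
  one_mem' := ⟨1, map_one _, Hb.one⟩
  add_mem' := by
    rintro _ _ ⟨z, rfl, hz⟩ ⟨z', rfl, hz'⟩
    exact ⟨z + z', map_add _ _ _, hz.add hz'⟩
  mul_mem' := by
    rintro _ _ ⟨z, rfl, hz⟩ ⟨z', rfl, hz'⟩
    exact ⟨z * z', map_mul _ _ _, hz.mul hz'⟩
  neg_mem' := by
    rintro _ ⟨z, rfl, hz⟩
    exact ⟨-z, map_neg _ _, hz.neg⟩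
  inv_mem' := by
    rintro _ ⟨z, rfl, hz⟩
    exact ⟨fun j => (z j)⁻¹, Ult.mk_inv 𝒰 z, hz.inv⟩

/-- The subfield of the classes of families of rational numbers of height `O(s)`. -/
noncomputable def kf (s : J → ℝ) : Subfield (Ult 𝒰 K) where
  carrier := {x | ∃ a : J → ℚ, Ult.mk 𝒰 K (fun j => (a j : K j)) = x ∧
    Hb 𝒰 s (fun j => (a j : K j))}
  zero_mem' := ⟨0, by
    rw [← map_zero (Ult.mk 𝒰 K)]
    congr 1
    funext j
    simp, by
    have h : (fun j => ((0 : J → ℚ) j : K j)) = 0 := by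
      funext j
      simp
    rw [h]
    exact Hb.zero⟩
  one_mem' := ⟨1, by
    rw [← map_one (Ult.mk 𝒰 K)]
    congr 1
    funext j
    simp, by
    have h : (fun j => ((1 : J → ℚ) j : K j)) = 1 := by
      funext j
      simp
    rw [h]
    exact Hb.one⟩
  add_mem' := by
    rintro _ _ ⟨a, rfl, ha⟩ ⟨b, rfl, hb⟩
    have h : (fun j => ((a + b : J → ℚ) j : K j)) = (fun j => (a j : K j)) + fun j => (b j : K j) := by
      funext j
      simp
    exact ⟨a + b, by rw [h, map_add], by rw [h]; exact ha.add hb⟩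
  mul_mem' := by
    rintro _ _ ⟨a, rfl, ha⟩ ⟨b, rfl, hb⟩
    have h : (fun j => ((a * b : J → ℚ) j : K j)) = (fun j => (a j : K j)) * fun j => (b j : K j) := by
      funext j
      simp
    exact ⟨a * b, by rw [h, map_mul], by rw [h]; exact ha.mul hb⟩
  neg_mem' := by
    rintro _ ⟨a, rfl, ha⟩
    have h : (fun j => ((-a : J → ℚ) j : K j)) = -(fun j => (a j : K j)) := by
      funext j
      simp
    exact ⟨-a, by rw [h, map_neg], by rw [h]; exact ha.neg⟩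
  inv_mem' := by
    rintro _ ⟨a, rfl, ha⟩
    have h : (fun j => (((fun j => (a j)⁻¹) : J → ℚ) j : K j)) = fun j => ((a j : K j))⁻¹ := by
      funext j
      simp
    exact ⟨fun j => (a j)⁻¹, by rw [h]; exact Ult.mk_inv 𝒰 _, by rw [h]; exact ha.inv⟩

end Bounded

section Units

/-- The three units `t`, `1 - t`, `t - 2`. -/
def uni {R : Type} [CommRing R] (t : R) (i : Fin 3) : R := ![t, 1 - t, t - 2] i

variable {ι J : Type} (𝒰 : Ultrafilter J) (P : J → Pt ι)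

/-- The field of the point `P j`. -/
abbrev Kof (j : J) : Type := (P j).K

/-- The family of the coordinates `t_k`, as an element of the ultraproduct. -/
noncomputable def tU (c : ι → Fin 3) (k : ι) : Ult 𝒰 (Kof P) :=
  Ult.mk 𝒰 (Kof P) (fun j => tt (c k) ((P j).x k))

end Units

end Pool.Agent.LSharp
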