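import Pool.Agent.LSharp.BlockChain
import Pool.Agent.LSharp.CountP
import Pool.Agent.LSharp.TransferR
import Pool.Agent.LAll.FieldUV

set_option autoImplicit false

/-! HC14. Theorem U with `r = ρ (ρ - 1) / 2 + 2`. -/

namespace Pool.Agent.LSharp

open Pool.Agent.LAll Pool.Agent.LThree NumberField Filter

/-- A finite set with a transitive relation between any two different elements has a lowest
element. -/
private theorem exists_low {ι : Type} [DecidableEq ι] (L : ι → ι → Prop)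
    (htrans : ∀ k l m, L k l → L l m → L k m) (W : Finset ι) (hne : W.Nonempty)
    (htot : ∀ k ∈ W, ∀ l ∈ W, k ≠ l → L k l ∨ L l k) : ∃ m ∈ W, ∀ l ∈ W, l ≠ m → L m l := by
  induction hne using Finset.Nonempty.cons_induction with
  | singleton a =>
    refine ⟨a, Finset.mem_singleton_self a, fun l hl hla => ?_⟩
    exact absurd (Finset.mem_singleton.1 hl) hla
  | cons a s ha hs ih =>
    obtain ⟨m, hm, hmin⟩ := ih fun k hk l hl =>
      htot k (Finset.mem_cons_of_mem hk) l (Finset.mem_cons_of_mem hl)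
    have hma : m ≠ a := fun h => ha (h ▸ hm)
    rcases htot m (Finset.mem_cons_of_mem hm) a (Finset.mem_cons_self a s) hma with h | h
    · refine ⟨m, Finset.mem_cons_of_mem hm, fun l hl hlm => ?_⟩
      rcases Finset.mem_cons.1 hl with rfl | hl
      · exact h
      · exact hmin l hl hlm
    · refine ⟨a, Finset.mem_cons_self a s, fun l hl hla => ?_⟩
      rcases Finset.mem_cons.1 hl with rfl | hl
      · exact absurd rfl hla
      · by_cases hlm : l = m
        · rw [hlm]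
          exact h
        · exact htrans a m l h (hmin l hl hlm)

section

variable {ι J : Type} (𝒰 : Ultrafilter J) (P : J → Pt ι)

/-- The height of `k` is at most a multiple of the height of `l`. -/
private def Le (k l : ι) : Prop :=
  ∃ A : ℝ, ∀ᶠ j in (𝒰 : Filter J), (P j).H k ≤ A * (P j).H l

/-- The height of `k` is small compared with the height of `l`. -/
private def Lt (k l : ι) : Prop := Le 𝒰 P k l ∧ ¬ Le 𝒰 P l k

private theorem le_tr {k l m : ι} (h1 : Le 𝒰 P k l) (h2 : Le 𝒰 P l m) : Le 𝒰 P k m := by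
  obtain ⟨A, hA⟩ := h1
  obtain ⟨A', hA'⟩ := h2
  refine ⟨|A| * |A'|, ?_⟩
  filter_upwards [hA, hA'] with j h1 h2
  have h3 : 0 ≤ (P j).H l := ht_nonneg _
  have h4 : 0 ≤ (P j).H m := ht_nonneg _
  calc (P j).H k ≤ A * (P j).H l := h1
    _ ≤ |A| * (P j).H l := mul_le_mul_of_nonneg_right (le_abs_self _) h3
    _ ≤ |A| * (|A'| * (P j).H m) := by
      refine mul_le_mul_of_nonneg_left ?_ (abs_nonneg _)
      exact h2.trans (mul_le_mul_of_nonneg_right (le_abs_self _) h4)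
    _ = |A| * |A'| * (P j).H m := by ring

private theorem lt_tr {k l m : ι} (h1 : Lt 𝒰 P k l) (h2 : Lt 𝒰 P l m) : Lt 𝒰 P k m :=
  ⟨le_tr 𝒰 P h1.1 h2.1, fun h => h1.2 (le_tr 𝒰 P h2.1 h)⟩

private theorem le_of_tendsto0 {k l : ι}
    (hl : Tendsto (fun j => (P j).H l) (𝒰 : Filter J) atTop)
    (h : Tendsto (fun j => (P j).H k / (P j).H l) (𝒰 : Filter J) (nhds 0)) : Le 𝒰 P k l := by
  refine ⟨1, ?_⟩
  filter_upwards [h.eventually_lt_const (show (0 : ℝ) < 1 by norm_num),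
    hl.eventually_gt_atTop 0] with j h1 h2
  rw [div_lt_iff₀ h2] at h1
  exact h1.le

private theorem tendsto_of_lt {B : Finset ι} [Fintype ι] [DecidableEq ι] (hB : Split 𝒰 P B)
    {k l : ι} (hk : k ∉ B) (hl : l ∉ B) (h : Lt 𝒰 P k l) :
    Tendsto (fun j => (P j).H k / (P j).H l) (𝒰 : Filter J) (nhds 0) := by
  rcases not_comp 𝒰 P hB k l hk hl (fun hc => h.2 hc.2) with h1 | h1
  · exact h1
  · exact absurd (le_of_tendsto0 𝒰 P (hB.unb k hk) h1) h.2

end

/-- As `Pool.Agent.LAll.field_U`: `exists_generic`, `exists_split`, `count_blockchain` with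
`R = Comp 𝒰 P` and `L k l` := `H k / H l → 0` along `𝒰` (and `k, l ∉ B`; for `B` define `L` as false, or
adapt), `rank_bounds` with `nv_blockchain` for all nonempty subsets `W'` of `W` (a nonempty subset of a set
of this kind is again one: `W' ∩ W₁` if nonempty, otherwise its lowest element forms the block). -/
theorem field_UP (ρ : ℕ) (hρ : 1 ≤ ρ) :
    ∃ f : MvPolynomial (Fin (ρ * (ρ - 1) / 2 + 2)) ℤ, f ≠ 0 ∧
      ∀ (K : Type) [Field K] [NumberField K] (x : Fin (ρ * (ρ - 1) / 2 + 2) → K),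
        (∀ i, x i ≠ 0 ∧ x i ≠ 1) → RankLe ρ (co x) → MvPolynomial.aeval x f = 0 := by
  classical
  by_contra hcon
  have hgen : ¬ ∃ f : MvPolynomial (Fin (ρ * (ρ - 1) / 2 + 2)) ℤ, f ≠ 0 ∧
      ∀ P : Pt (Fin (ρ * (ρ - 1) / 2 + 2)), RankLe ρ (co P.x) →
        MvPolynomial.aeval P.x f = 0 := by
    rintro ⟨f, hf, hP⟩
    exact hcon ⟨f, hf, fun K _ _ x hx hr =>
      hP ⟨K, x, fun i => (hx i).1, fun i => sub_ne_zero.2 (hx i).2.symm⟩ hr⟩
  obtain ⟨J, 𝒰, P, hQ, hG⟩ := exists_generic _ hgen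
  obtain ⟨B, hB⟩ := exists_split 𝒰 P
  have key := count_blockchain B (Comp 𝒰 P) (Lt 𝒰 P) (comp_equivalence 𝒰 P)
    (fun k l h hc => h.2 hc.2) (fun k l m => lt_tr 𝒰 P)
    (fun k k' l l' hk hl h => ⟨le_tr 𝒰 P hk.2 (le_tr 𝒰 P h.1 hl.1),
      fun h' => h.2 (le_tr 𝒰 P hl.1 (le_tr 𝒰 P h' hk.2))⟩)
    (fun k hk l hl => by
      by_cases hc : Comp 𝒰 P k l
      · exact Or.inl hc
      · rcases not_comp 𝒰 P hB k l hk hl hc with h | h
        · have h1 := le_of_tendsto0 𝒰 P (hB.unb l hl) h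
          exact Or.inr (Or.inl ⟨h1, fun h2 => hc ⟨h1, h2⟩⟩)
        · have h1 := le_of_tendsto0 𝒰 P (hB.unb k hk) h
          exact Or.inr (Or.inr ⟨h1, fun h2 => hc ⟨h2, h1⟩⟩)) ρ hρ
    (fun W W₁ hW hW₁ _ hR hL hch => rank_bounds hG hB ρ hQ W hW fun W' hW' hne' => by
      have hun : ∀ k ∈ W', k ∉ B := fun k hk => Finset.mem_compl.1 (hW (hW' hk))
      have hT : ∀ k ∈ W', ∀ l ∈ W', Lt 𝒰 P k l →
          Tendsto (fun j => (P j).H k / (P j).H l) (𝒰 : Filter J) (nhds 0) :=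
        fun k hk l hl h => tendsto_of_lt 𝒰 P hB (hun k hk) (hun l hl) h
      by_cases hW₁' : (W' ∩ W₁).Nonempty
      · refine nv_blockchain 𝒰 P hG W' (W' ∩ W₁) Finset.inter_subset_left hW₁'
          (fun k hk => hB.unb k (hun k hk)) ?_ ?_ ?_
        · intro k hk l hl
          exact (hR k (Finset.mem_inter.1 hk).2 l (Finset.mem_inter.1 hl).2).1
        · intro k hk l hl
          have hk' := Finset.mem_inter.1 hk
          have hl' := Finset.mem_sdiff.1 hl
          refine hT k hk'.1 l hl'.1 (hL k hk'.2 l (Finset.mem_sdiff.2 ⟨hW' hl'.1, fun h => ?_⟩))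
          exact hl'.2 (Finset.mem_inter.2 ⟨hl'.1, h⟩)
        · intro k hk l hl hkl
          have hk' := Finset.mem_sdiff.1 hk
          have hl' := Finset.mem_sdiff.1 hl
          have hk2 : k ∈ W \ W₁ := Finset.mem_sdiff.2 ⟨hW' hk'.1, fun h =>
            hk'.2 (Finset.mem_inter.2 ⟨hk'.1, h⟩)⟩
          have hl2 : l ∈ W \ W₁ := Finset.mem_sdiff.2 ⟨hW' hl'.1, fun h =>
            hl'.2 (Finset.mem_inter.2 ⟨hl'.1, h⟩)⟩
          exact (hch k hk2 l hl2 hkl).imp (hT k hk'.1 l hl'.1) (hT l hl'.1 k hk'.1)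
      · have hsub : ∀ k ∈ W', k ∈ W \ W₁ := fun k hk =>
          Finset.mem_sdiff.2 ⟨hW' hk, fun h => hW₁' ⟨k, Finset.mem_inter.2 ⟨hk, h⟩⟩⟩
        obtain ⟨m, hm, hmin⟩ := exists_low (Lt 𝒰 P) (fun k l m => lt_tr 𝒰 P) W' hne'
          fun k hk l hl hkl => hch k (hsub k hk) l (hsub l hl) hkl
        refine nv_blockchain 𝒰 P hG W' {m} (Finset.singleton_subset_iff.2 hm)
          (Finset.singleton_nonempty m) (fun k hk => hB.unb k (hun k hk)) ?_ ?_ ?_
        · intro k hk l hl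
          rw [Finset.mem_singleton.1 hk, Finset.mem_singleton.1 hl]
          exact ⟨1, Filter.Eventually.of_forall fun j => by rw [one_mul]⟩
        · intro k hk l hl
          have hl' := Finset.mem_sdiff.1 hl
          rw [Finset.mem_singleton.1 hk]
          exact hT m hm l hl'.1 (hmin l hl'.1 fun h => hl'.2 (Finset.mem_singleton.2 h))
        · intro k hk l hl hkl
          have hk' := Finset.mem_sdiff.1 hk
          have hl' := Finset.mem_sdiff.1 hl
          exact (hch k (hsub k hk'.1) l (hsub l hl'.1) hkl).imp (hT k hk'.1 l hl'.1)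
            (hT l hl'.1 k hk'.1))
  rw [Fintype.card_fin] at key
  generalize ρ * (ρ - 1) / 2 = N at key
  omega

/-- `transfer_general`. -/
theorem theorem_UP (ρ : ℕ) (hρ : 1 ≤ ρ) :
    ∃ f : MvPolynomial (Fin (ρ * (ρ - 1) / 2 + 2)) ℤ, f ≠ 0 ∧
      ∀ (F : Type) [Field F] [CharZero F] (Γ : Subgroup Fˣ), Module.rank ℤ (Additive Γ) ≤ ρ →
        ∀ x : Fin (ρ * (ρ - 1) / 2 + 2) → F,
          (∀ i, (∃ u ∈ Γ, (u : F) = x i) ∧ ∃ u ∈ Γ, (u : F) = 1 - x i) →
          MvPolynomial.aeval x f = 0 :=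
  transfer_general ρ _ (field_UP ρ hρ)

end Pool.Agent.LSharp
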